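import Pool.Agent.U345.Tight
import Pool.Agent.Q285.HS.Fam

/-!
# Convergence to the Brownian motion, with tightness
-/

set_option autoImplicit false
set_option linter.unusedSectionVars false

namespace U345T

open Finset Filter MeasureTheory ProbabilityTheory
open scoped NNReal
open Q282.CL
open Q282.BP (PP)
open Q282.GK (kbox)

/-- `(X log X) ^ (-1 / 2) ∑_{p ≤ τ X} z_p log p` -/
noncomputable def path (z : ℕ → ℝ) (X : ℕ) (τ : ℝ≥0) : ℝ :=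
  (∑ p ∈ (Icc 1 ⌊(τ : ℝ) * X⌋₊).filter Nat.Prime, z p * Real.log p) / Real.sqrt (X * Real.log X)

/-- the law of the Brownian motion at the times in `I` -/
noncomputable def brownian (I : Finset ℝ≥0) (x : I → ℝ) : ℝ := (BrownianReal.projectiveFamily I).real (Set.Iic x)

/-- integer vectors in a box -/
noncomputable def box {κ : Type} [Fintype κ] [DecidableEq κ] (N : κ → ℤ) (L : κ → ℕ) : Finset (κ → ℤ) :=
  Fintype.piFinset fun i => Ico (N i) (N i + L i)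

/-- convergence in law to the Brownian motion -/
def Conv {κ : Type} [Fintype κ] [DecidableEq κ] (z : (κ → ℤ) → ℕ → ℝ) : Prop :=
  (∀ I : Finset ℝ≥0, (∀ τ ∈ I, 0 < τ ∧ τ ≤ 1) → ∀ (x : I → ℝ) (ε : ℝ), 0 < ε → ∃ X₁ : ℕ, ∀ X : ℕ, X₁ ≤ X →
    ∀ (N : κ → ℤ) (L : κ → ℕ), (∀ i, (X : ℝ) ^ X₁ ≤ L i) →
      |({t ∈ (box N L : Set (κ → ℤ)) | ∀ τ : I, path (z t) X τ ≤ x τ}.ncard : ℝ) / ∏ i, (L i : ℝ) - brownian I x| ≤ ε) ∧
  ∀ ε : ℝ, 0 < ε → ∃ δ : ℝ, 0 < δ ∧ ∃ X₁ : ℕ, ∀ X : ℕ, X₁ ≤ X →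
    ∀ (N : κ → ℤ) (L : κ → ℕ), (∀ i, (X : ℝ) ^ X₁ ≤ L i) →
      ({t ∈ (box N L : Set (κ → ℤ)) | ∃ σ τ : ℝ≥0, σ ≤ τ ∧ τ ≤ 1 ∧ (τ : ℝ) - σ ≤ δ ∧
        ε < |path (z t) X τ - path (z t) X σ|}.ncard : ℝ) ≤ ε * ∏ i, (L i : ℝ)

lemma path_eq {κ : Type} [Fintype κ] [DecidableEq κ] (H : (p : ℕ) → (κ → ZMod p) → ℝ) (z : (κ → ℤ) → ℕ → ℝ)
    (hz : ∀ t p, p.Prime → z t p = H p fun i => (t i : ZMod p)) (t : κ → ℤ) (X : ℕ) (τ : ℝ≥0) (hτ : τ ≤ 1) :
    path (z t) X τ = ∑ p ∈ PP ⌊(τ : ℝ) * X⌋₊, Q285NG.lm X p * H p (fun i => (t i : ZMod p)) := by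
  unfold path
  rw [sum_div]
  refine sum_congr rfl fun p hp => ?_
  have hpp : p.Prime := (mem_filter.1 hp).2
  have hpX : p ≤ X := by
    have h2 := (mem_Icc.1 (mem_filter.1 hp).1).2
    refine h2.trans ?_
    refine Nat.floor_le_of_le ?_
    have h4 : (τ : ℝ) ≤ 1 := by exact_mod_cast hτ
    have h5 : (0 : ℝ) ≤ X := Nat.cast_nonneg _
    nlinarith
  rw [hz t p hpp]
  unfold Q285NG.lm
  rw [if_pos hpX]
  ring

/-- the engine -/
theorem conv_of {κ : Type} [Fintype κ] [DecidableEq κ] (H : (p : ℕ) → (κ → ZMod p) → ℝ) (β p₀ : ℕ) (K : ℝ)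
    (hK : 1 ≤ K) (hH : ∀ p : ℕ, p.Prime → ∀ u, |H p u| ≤ K * (p : ℝ) ^ β) (h1 : ∀ p : ℕ, p.Prime → p₀ ≤ p → |mn H p| ≤ K / Real.sqrt p)
    (h2 : ∀ p : ℕ, p.Prime → p₀ ≤ p → |mn (fun p u => H p u ^ 2) p - 1| ≤ K / Real.sqrt p)
    (h4 : ∀ p : ℕ, p.Prime → p₀ ≤ p → mn (fun p u => H p u ^ 4) p ≤ K)
    (z : (κ → ℤ) → ℕ → ℝ) (hz : ∀ t p, p.Prime → z t p = H p fun i => (t i : ZMod p)) : Conv z := by
  classical
  refine ⟨fun I hI x ε hε => ?_, fun ε hε => ?_⟩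
  · obtain ⟨X₁, h⟩ := Q285HS.eng Q285HS.wgt_lm H β p₀ K hK hH h1 h2 h4 I hI x ε hε
    refine ⟨X₁, fun X hX N L hL => ?_⟩
    have h3 := h X hX N L hL
    have e1 : {t ∈ (box N L : Set (κ → ℤ)) | ∀ τ : I, path (z t) X τ ≤ x τ} =
        ↑((kbox N L).filter fun t => ∀ τ : I, ∑ p ∈ PP ⌊((τ : ℝ≥0) : ℝ) * X⌋₊, Q285NG.lm X p * H p (fun i => (t i : ZMod p)) ≤ x τ) := by
      ext t
      rw [coe_filter]
      constructor
      · rintro ⟨g2, g3⟩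
        exact ⟨g2, fun τ => by rw [← path_eq H z hz t X τ (hI τ τ.2).2]; exact g3 τ⟩
      · rintro ⟨g2, g3⟩
        exact ⟨g2, fun τ => by rw [path_eq H z hz t X τ (hI τ τ.2).2]; exact g3 τ⟩
    rw [e1, Set.ncard_coe_finset]
    have e2 : brownian I x = W I x := rfl
    rw [e2]
    convert h3 using 6
  · obtain ⟨m, hm, X₁, h⟩ := tight Q285HS.wgt_lm H β p₀ K hK hH h1 h4 ε hε
    have hm0 : (0 : ℝ) < m := by exact_mod_cast hm
    refine ⟨1 / (2 * m), by positivity, max X₁ (2 * m), fun X hX N L hL => ?_⟩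
    have hXX₁ : X₁ ≤ X := (le_max_left _ _).trans hX
    have hXm : 2 * m ≤ X := (le_max_right _ _).trans hX
    have hX1 : (1 : ℝ) ≤ X := by exact_mod_cast (by omega : 1 ≤ X)
    have h3 := h X hXX₁ N L (fun i => (pow_le_pow_right₀ hX1 (le_max_left _ _)).trans (hL i))
      ((kbox N L).filter fun t => ∃ σ τ : ℝ≥0, σ ≤ τ ∧ τ ≤ 1 ∧ (τ : ℝ) - σ ≤ 1 / (2 * m) ∧ ε < |path (z t) X τ - path (z t) X σ|)
      (filter_subset _ _) (by
        intro t ht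
        obtain ⟨_, σ, τ, hσ, hτ, hd, hlt⟩ := mem_filter.1 ht
        have hσ1 : σ ≤ 1 := hσ.trans hτ
        rw [path_eq H z hz t X τ hτ, path_eq H z hz t X σ hσ1] at hlt
        have hX0 : (0 : ℝ) ≤ X := by linarith
        have hσ0 : (0 : ℝ) ≤ σ := σ.2
        have hτ0 : (0 : ℝ) ≤ τ := τ.2
        have hτ1 : (τ : ℝ) ≤ 1 := by exact_mod_cast hτ
        have hle : ⌊(σ : ℝ) * X⌋₊ ≤ ⌊(τ : ℝ) * X⌋₊ :=
          Nat.floor_le_floor (mul_le_mul_of_nonneg_right (by exact_mod_cast hσ) hX0)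
        refine ⟨⌊(σ : ℝ) * X⌋₊, ⌊(τ : ℝ) * X⌋₊, hle, ?_, ?_, hlt⟩
        · refine Nat.floor_le_of_le ?_
          nlinarith
        · have g1 : ((⌊(τ : ℝ) * X⌋₊ : ℕ) : ℝ) ≤ (τ : ℝ) * X := Nat.floor_le (by positivity)
          have g2 : (σ : ℝ) * X < (⌊(σ : ℝ) * X⌋₊ : ℕ) + 1 := Nat.lt_floor_add_one _
          have g3 : (((⌊(τ : ℝ) * X⌋₊ - ⌊(σ : ℝ) * X⌋₊) * m : ℕ) : ℝ) ≤ X := by
            rw [Nat.cast_mul, Nat.cast_sub hle]
            have g4 : ((⌊(τ : ℝ) * X⌋₊ : ℕ) : ℝ) - (⌊(σ : ℝ) * X⌋₊ : ℕ) ≤ 1 / (2 * m) * X + 1 := by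
              have g5 : ((τ : ℝ) - σ) * X ≤ 1 / (2 * m) * X := mul_le_mul_of_nonneg_right hd hX0
              linarith
            have g5 : (1 / (2 * (m : ℝ)) * X + 1) * m = X / 2 + m := by
              field_simp
            have g6 : (2 : ℝ) * m ≤ X := by exact_mod_cast hXm
            have g7 := mul_le_mul_of_nonneg_right g4 hm0.le
            rw [g5] at g7
            linarith
          exact_mod_cast g3)
    refine le_trans (le_of_eq ?_) h3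
    rw [← Set.ncard_coe_finset, coe_filter]
    rfl

/-- the engine for functions whose four first moments are near those of the normal law -/
theorem conv_near {κ : Type} [Fintype κ] [DecidableEq κ] {H : (p : ℕ) → (κ → ZMod p) → ℝ} {β p₁ : ℕ} {K : ℝ} (hH : Q285HS.NearN H 4 β p₁ K)
    (z : (κ → ℤ) → ℕ → ℝ) (hz : ∀ t p, p.Prime → z t p = H p fun i => (t i : ZMod p)) : Conv z := by
  have hK := hH.one
  have g1 : (Q282MM.gm 1 : ℝ) = 0 := by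
    simp [Q282MM.gm]
  have g2 : (Q282MM.gm 2 : ℝ) = 1 := by
    simp [Q282MM.gm, Nat.doubleFactorial]
  have g4 : (Q282MM.gm 4 : ℝ) = 3 := by
    have : Even 4 := by decide
    simp [Q282MM.gm, this, Nat.doubleFactorial]
  have hle : ∀ p : ℕ, K / Real.sqrt p ≤ (K + 3) / Real.sqrt p := fun p =>
    div_le_div_of_nonneg_right (by linarith) (Real.sqrt_nonneg _)
  refine conv_of H β p₁ (K + 3) (by linarith) ?_ ?_ ?_ ?_ z hz
  · intro p hp u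
    refine (hH.bd p hp u).trans (mul_le_mul_of_nonneg_right (by linarith) (by positivity))
  · intro p hp hpp
    have h := hH.mom p hp hpp 1 (by norm_num)
    rw [g1, sub_zero] at h
    simp only [pow_one] at h
    exact h.trans (hle p)
  · intro p hp hpp
    have h := hH.mom p hp hpp 2 (by norm_num)
    rw [g2] at h
    exact h.trans (hle p)
  · intro p hp hpp
    have h := (abs_le.1 (hH.mom p hp hpp 4 le_rfl)).2
    rw [g4] at h
    have h2 : K / Real.sqrt p ≤ K := div_le_self (by linarith) (Real.one_le_sqrt.2 (by exact_mod_cast hp.one_lt.le))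
    linarith

end U345T
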