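import Pool.Agent.U345.Lines

/-!
# Almost all hypersurfaces containing given disjoint linear subspaces of half the dimension are smooth
-/

set_option autoImplicit false
set_option linter.unusedSectionVars false

namespace U345L

open Finset MvPolynomial
open Q285HS (points fam Idx toFs toFs_inj eval_hom)
open Q282.GK (kbox)
open Pool.Agent.Y722.HS (Mon mev form IsSmooth)
open Pool.Agent.Y722.LS (zform lform lform_cast exists_disc)

/-! ### zeros in boxes -/

theorem zeros_kbox {κ : Type} [Fintype κ] [DecidableEq κ] (P : MvPolynomial κ ℤ) (hP : P ≠ 0) :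
    ∃ D : ℝ, 0 ≤ D ∧ ∀ (N : κ → ℤ) (L : κ → ℕ) (T : ℝ), 0 < T → (∀ i, T ≤ L i) →
      (((kbox N L).filter fun t => eval t P = 0).card : ℝ) ≤ D / T * ∏ i, (L i : ℝ) := by
  classical
  obtain ⟨k, ⟨e⟩⟩ : ∃ k, Nonempty (κ ≃ Fin k) := ⟨_, ⟨Fintype.equivFin κ⟩⟩
  obtain ⟨Q, hQ⟩ : ∃ Q : MvPolynomial (Fin k) ℤ, Q = rename e P := ⟨_, rfl⟩
  have hQ0 : Q ≠ 0 := by
    rw [hQ]
    intro h
    exact hP (rename_injective e e.injective (by rw [map_zero]; exact h))
  refine ⟨∑ i, (Q.degreeOf i : ℝ), sum_nonneg fun i _ => Nat.cast_nonneg _, fun N L T hT hL => ?_⟩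
  obtain ⟨S, hS⟩ : ∃ S : Fin k → Finset ℤ, S = fun j => Ico (N (e.symm j)) (N (e.symm j) + L (e.symm j)) := ⟨_, rfl⟩
  have hScard : ∀ j, (S j).card = L (e.symm j) := by
    intro j
    rw [hS]
    dsimp only
    rw [Int.card_Ico, add_sub_cancel_left, Int.toNat_natCast]
  have h := schwartz_zippel_sum_degreeOf hQ0 S
  have h1 : ((((Fintype.piFinset S).filter fun t => eval t Q = 0).card : ℝ)) /
      ∏ i, ((S i).card : ℝ) ≤ ∑ i, (Q.degreeOf i : ℝ) / ((S i).card : ℝ) := by
    have h' := (NNRat.cast_le (K := ℝ)).2 h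
    push_cast at h'
    exact h'
  have hpos : ∀ j, (0 : ℝ) < (S j).card := by
    intro j
    rw [hScard]
    exact hT.trans_le (hL _)
  have hprod : (0 : ℝ) < ∏ i, ((S i).card : ℝ) := prod_pos fun i _ => hpos i
  rw [div_le_iff₀ hprod] at h1
  have h2 : ∑ i, (Q.degreeOf i : ℝ) / ((S i).card : ℝ) ≤ (∑ i, (Q.degreeOf i : ℝ)) / T := by
    rw [sum_div]
    refine sum_le_sum fun i _ => ?_
    refine div_le_div_of_nonneg_left (Nat.cast_nonneg _) hT ?_
    rw [hScard]
    exact hL _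
  have h3 : ∏ i, ((S i).card : ℝ) = ∏ i, (L i : ℝ) := by
    rw [← Equiv.prod_comp e.symm fun i => (L i : ℝ)]
    exact prod_congr rfl fun i _ => by rw [hScard]
  have h4 : ((kbox N L).filter fun t => eval t P = 0).card ≤ ((Fintype.piFinset S).filter fun t => eval t Q = 0).card := by
    refine card_le_card_of_injOn (fun t j => t (e.symm j)) ?_ ?_
    · intro t ht
      rw [mem_coe, mem_filter] at ht
      rw [mem_coe, mem_filter]
      refine ⟨?_, ?_⟩
      · rw [Fintype.mem_piFinset]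
        intro j
        have h5 := ht.1
        unfold kbox at h5
        rw [Fintype.mem_piFinset] at h5
        rw [hS]
        exact h5 _
      · rw [hQ, eval_rename]
        have h5 : (fun j => t (e.symm j)) ∘ e = t := by
          funext i
          simp
        rw [h5]
        exact ht.2
    · intro t _ t' _ h5
      funext i
      have := congrFun h5 (e i)
      simpa using this
  have h5 : ((((kbox N L).filter fun t => eval t P = 0).card : ℕ) : ℝ) ≤ (((Fintype.piFinset S).filter fun t => eval t Q = 0).card : ℝ) := by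
    exact_mod_cast h4
  refine h5.trans (h1.trans ?_)
  rw [h3] at hprod ⊢
  exact mul_le_mul_of_nonneg_right h2 hprod.le

/-! ### a form from its coefficients -/

lemma hom_form {n D : ℕ} (P : MvPolynomial (Fin (n + 1)) ℤ) (hP : P.IsHomogeneous D) :
    ∑ ν : Mon n D, C (P.coeff (toFs ν)) * ∏ i, X i ^ (ν.1 i : ℕ) = P := by
  refine MvPolynomial.funext fun x => ?_
  rw [eval_hom P hP x, map_sum]
  refine sum_congr rfl fun ν _ => ?_
  simp [mev]

variable {m r : ℕ}

/-! ### products of linear forms -/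

section ring

variable {R : Type} [CommRing R]

/-- `x_i - b y_i` -/
noncomputable def lf (i : Fin (m + 1)) (b : R) : MvPolynomial (Fin (2 * m + 1 + 1)) R := X (xi i) - C b * X (yi i)

/-- the product of the `x_i - b_k y_i` -/
noncomputable def GG {K : Type} [Fintype K] (b : K → R) (i : Fin (m + 1)) : MvPolynomial (Fin (2 * m + 1 + 1)) R := ∏ k, lf i (b k)

lemma lf_hom (i : Fin (m + 1)) (b : R) : (lf i b).IsHomogeneous 1 := by
  unfold lf
  exact (isHomogeneous_X R _).sub (isHomogeneous_C_mul_X _ _)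

lemma GG_hom {K : Type} [Fintype K] (b : K → R) (i : Fin (m + 1)) : (GG b i).IsHomogeneous (Fintype.card K) := by
  have h := IsHomogeneous.prod univ (fun k => lf i (b k)) (fun _ => 1) fun k _ => lf_hom i (b k)
  rw [sum_const, card_univ, smul_eq_mul, mul_one] at h
  exact h

lemma pderiv_lf_ne (i : Fin (m + 1)) (b : R) (j : Fin (2 * m + 1 + 1)) (h1 : j ≠ xi i) (h2 : j ≠ yi i) : pderiv j (lf i b) = 0 := by
  unfold lf
  rw [map_sub, pderiv_C_mul, pderiv_X_of_ne h1.symm, pderiv_X_of_ne h2.symm, mul_zero, sub_zero]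

lemma pderiv_lf_xi (i : Fin (m + 1)) (b : R) : pderiv (xi i) (lf i b) = 1 := by
  unfold lf
  rw [map_sub, pderiv_C_mul, pderiv_X_self, pderiv_X_of_ne (xi_ne_yi i i).symm, mul_zero, sub_zero]

lemma pderiv_prod_zero {K : Type} [DecidableEq K] (s : Finset K) (f : K → MvPolynomial (Fin (2 * m + 1 + 1)) R) (j : Fin (2 * m + 1 + 1))
    (h : ∀ k, pderiv j (f k) = 0) : pderiv j (∏ k ∈ s, f k) = 0 := by
  induction s using Finset.induction_on with
  | empty => simp
  | insert a s ha ih => rw [prod_insert ha, pderiv_mul, ih, h, zero_mul, mul_zero, zero_add]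

lemma pderiv_GG_ne {K : Type} [Fintype K] (b : K → R) (i : Fin (m + 1)) (j : Fin (2 * m + 1 + 1)) (h1 : j ≠ xi i) (h2 : j ≠ yi i) :
    pderiv j (GG b i) = 0 := by
  classical
  exact pderiv_prod_zero univ _ j fun k => pderiv_lf_ne i (b k) j h1 h2

end ring

/-- the example is smooth -/
theorem smooth_GG {F : Type} [Field F] {K : Type} [Fintype K] [DecidableEq K] (b : K → F) (hb : Function.Injective b)
    (hK : (Fintype.card K : F) ≠ 0) : IsSmooth (n := 2 * m + 1) (∑ i : Fin (m + 1), GG b i) := by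
  intro v hv _
  by_contra hcon
  push Not at hcon
  have h1 : ∀ i j, eval v (pderiv j (GG b i)) = 0 := by
    intro i j
    by_cases hj : j = xi i ∨ j = yi i
    · have h2 := hcon j
      rw [map_sum, map_sum, sum_eq_single_of_mem i (mem_univ i)] at h2
      · exact h2
      · intro i' _ hne
        have h3 : j ≠ xi i' ∧ j ≠ yi i' := by
          rcases hj with rfl | rfl
          · exact ⟨fun h => hne (xi_inj h).symm, xi_ne_yi _ _⟩
          · exact ⟨fun h => (xi_ne_yi i' i) h.symm, fun h => hne (yi_inj h).symm⟩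
        rw [pderiv_GG_ne b i' j h3.1 h3.2, map_zero]
    · push Not at hj
      rw [pderiv_GG_ne b i j hj.1 hj.2, map_zero]
  have h2 : ∀ i, eval v (GG b i) = 0 := by
    intro i
    have h3 := congrArg (eval v) (GG_hom b i).sum_X_mul_pderiv
    rw [map_sum, nsmul_eq_mul, map_mul, map_natCast] at h3
    have h4 : ∑ j, eval v (X j * pderiv j (GG b i)) = 0 := by
      refine sum_eq_zero fun j _ => ?_
      rw [map_mul, h1, mul_zero]
    rw [h4] at h3
    rcases mul_eq_zero.1 h3.symm with h5 | h5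
    · exact absurd h5 hK
    · exact h5
  have h3 : ∀ i, v (xi i) = 0 ∧ v (yi i) = 0 := by
    intro i
    have h4 := h2 i
    unfold GG at h4
    rw [map_prod, prod_eq_zero_iff] at h4
    obtain ⟨k, _, hk⟩ := h4
    have hk' : v (xi i) = b k * v (yi i) := by
      unfold lf at hk
      simp only [map_sub, map_mul, eval_X, eval_C] at hk
      exact sub_eq_zero.1 hk
    have h5 := h1 i (xi i)
    unfold GG at h5
    rw [← mul_prod_erase univ _ (mem_univ k), pderiv_mul, map_add, map_mul, map_mul, hk, zero_mul, add_zero, pderiv_lf_xi, map_one, one_mul,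
      map_prod, prod_eq_zero_iff] at h5
    obtain ⟨l, hl, hl'⟩ := h5
    have hlk : l ≠ k := ne_of_mem_erase hl
    unfold lf at hl'
    simp only [map_sub, map_mul, eval_X, eval_C] at hl'
    rw [hk', ← sub_mul] at hl'
    have h6 : v (yi i) = 0 := by
      rcases mul_eq_zero.1 hl' with h7 | h7
      · exact absurd (hb (sub_eq_zero.1 h7)).symm hlk
      · exact h7
    exact ⟨by rw [hk', h6, mul_zero], h6⟩
  apply hv
  funext l
  rcases xy_cases l with ⟨i, rfl⟩ | ⟨i, rfl⟩
  · exact (h3 i).1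
  · exact (h3 i).2

/-! ### the linear system -/

/-- the monomials of the system -/
noncomputable def ff (a : Fin r → ℤ) (δ : ℕ) (x : Idx (2 * m + 1) (degs m r δ)) : MvPolynomial (Fin (2 * m + 1 + 1)) ℤ :=
  gens m a x.1 * ∏ l, X l ^ (x.2.1 l : ℕ)

lemma ff_hom (a : Fin r → ℤ) (δ : ℕ) (h2 : 2 ≤ δ) (hr : r ≤ δ) (x : Idx (2 * m + 1) (degs m r δ)) : (ff a δ x).IsHomogeneous δ := by
  obtain ⟨j, ν⟩ := x
  have hmon : (∏ l, X l ^ (ν.1 l : ℕ) : MvPolynomial (Fin (2 * m + 1 + 1)) ℤ).IsHomogeneous (degs m r δ j) := by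
    have h := IsHomogeneous.prod univ (fun l => (X l ^ (ν.1 l : ℕ) : MvPolynomial (Fin (2 * m + 1 + 1)) ℤ)) (fun l => (ν.1 l : ℕ))
      fun l _ => isHomogeneous_X_pow l _
    rw [ν.2] at h
    exact h
  unfold ff
  rcases j with ⟨i, j⟩ | i
  · have h : (gens m a (Sum.inl (i, j))).IsHomogeneous 2 := by
      unfold gens
      exact ((isHomogeneous_X ℤ _).mul (isHomogeneous_X ℤ _)).sub ((isHomogeneous_X ℤ _).mul (isHomogeneous_X ℤ _))
    have h3 := h.mul hmon
    have h4 : 2 + degs m r δ (Sum.inl (i, j)) = δ := by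
      show 2 + (δ - 2) = δ
      omega
    rw [h4] at h3
    exact h3
  · have h : (gens m a (Sum.inr i)).IsHomogeneous r := by
      have h5 := GG_hom (m := m) a i
      rw [Fintype.card_fin] at h5
      exact h5
    have h3 := h.mul hmon
    have h4 : r + degs m r δ (Sum.inr i) = δ := by
      show r + (δ - r) = δ
      omega
    rw [h4] at h3
    exact h3

lemma zform_ff (a : Fin r → ℤ) (δ : ℕ) (t : Idx (2 * m + 1) (degs m r δ) → ℤ) : zform (n := 2 * m + 1) (ff a δ) t = fam (gens m a) t := by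
  unfold zform fam ff
  rw [Fintype.sum_sigma]
  refine sum_congr rfl fun j _ => ?_
  rw [mul_sum]
  refine sum_congr rfl fun ν _ => ?_
  ring

/-- a smooth member -/
theorem exists_smooth (a : Fin r → ℤ) (ha : Function.Injective a) (δ : ℕ) (h2 : 2 ≤ δ) (hr : r ≤ δ) :
    ∃ t : Idx (2 * m + 1) (degs m r δ) → ℤ, IsSmooth (MvPolynomial.map (Int.castRingHom ℂ) (fam (gens m a) t)) := by
  classical
  obtain ⟨b, hb⟩ : ∃ b : Fin (δ - r) → ℤ, b = fun l : Fin (δ - r) => (∑ k, |a k|) + 1 + ((l : ℕ) : ℤ) := ⟨_, rfl⟩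
  have hinj : Function.Injective (Sum.elim a b) := by
    have h1 : ∀ k l, a k < b l := by
      intro k l
      have h3 : |a k| ≤ ∑ k, |a k| := single_le_sum (f := fun k => |a k|) (fun i _ => abs_nonneg _) (mem_univ k)
      have h4 := le_abs_self (a k)
      rw [hb]
      dsimp only
      omega
    rintro (k | k) (l | l) h
    · exact congrArg _ (ha h)
    · exact absurd h (h1 k l).ne
    · exact absurd h (h1 l k).ne'
    · simp only [Sum.elim_inr] at h
      rw [hb] at h
      dsimp only at h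
      refine congrArg _ (Fin.ext ?_)
      omega
  obtain ⟨t, ht⟩ : ∃ t : Idx (2 * m + 1) (degs m r δ) → ℤ, ∀ (j : (Fin (m + 1) × Fin (m + 1)) ⊕ Fin (m + 1)) (ν : Mon (2 * m + 1) (degs m r δ j)),
      t ⟨j, ν⟩ = (Sum.elim (fun _ => 0) (fun i => GG b i) j : MvPolynomial (Fin (2 * m + 1 + 1)) ℤ).coeff (toFs ν) :=
    ⟨fun x => (Sum.elim (fun _ => 0) (fun i => GG b i) x.1 : MvPolynomial (Fin (2 * m + 1 + 1)) ℤ).coeff (toFs x.2), fun _ _ => rfl⟩
  refine ⟨t, ?_⟩
  have hfam : fam (gens m a) t = ∑ i : Fin (m + 1), GG (Sum.elim a b) i := by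
    unfold fam
    rw [Fintype.sum_sum_type]
    have h3 : ∑ j : Fin (m + 1) × Fin (m + 1), gens m a (Sum.inl j) * ∑ ν : Mon (2 * m + 1) (degs m r δ (Sum.inl j)),
        C (t ⟨Sum.inl j, ν⟩) * ∏ i, X i ^ (ν.1 i : ℕ) = 0 := by
      refine sum_eq_zero fun j _ => ?_
      rw [sum_eq_zero fun ν _ => by rw [ht, Sum.elim_inl, coeff_zero, C_0, zero_mul], mul_zero]
    rw [h3, zero_add]
    refine sum_congr rfl fun i _ => ?_
    have h4 : ∑ ν : Mon (2 * m + 1) (degs m r δ (Sum.inr i)), C (t ⟨Sum.inr i, ν⟩) * ∏ l, X l ^ (ν.1 l : ℕ) = GG b i := by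
      have h5 : ∀ ν : Mon (2 * m + 1) (degs m r δ (Sum.inr i)), C (t ⟨Sum.inr i, ν⟩) * ∏ l, X l ^ (ν.1 l : ℕ) =
          C ((GG b i).coeff (toFs ν)) * ∏ l, X l ^ (ν.1 l : ℕ) := by
        intro ν
        rw [ht, Sum.elim_inr]
      rw [sum_congr rfl fun ν _ => h5 ν]
      have h6 := GG_hom (m := m) b i
      rw [Fintype.card_fin] at h6
      exact hom_form (GG b i) h6
    rw [h4]
    unfold GG
    rw [Fintype.prod_sum_type]
    rfl
  rw [hfam, map_sum]
  have h3 : ∀ i : Fin (m + 1), MvPolynomial.map (Int.castRingHom ℂ) (GG (Sum.elim a b) i) = GG (fun k => ((Sum.elim a b k : ℤ) : ℂ)) i := by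
    intro i
    unfold GG lf
    rw [map_prod]
    refine prod_congr rfl fun k _ => ?_
    simp
  rw [sum_congr rfl fun i _ => h3 i]
  refine smooth_GG _ (fun k l h => hinj (by exact_mod_cast h)) ?_
  rw [Fintype.card_sum, Fintype.card_fin, Fintype.card_fin]
  exact_mod_cast (by omega : r + (δ - r) ≠ 0)

/-- **almost all members are smooth** -/
theorem smooth_count (a : Fin r → ℤ) (ha : Function.Injective a) (δ : ℕ) (h2 : 2 ≤ δ) (hr : r ≤ δ) :
    ∃ D : ℝ, 0 ≤ D ∧ ∀ (N : Idx (2 * m + 1) (degs m r δ) → ℤ) (L : Idx (2 * m + 1) (degs m r δ) → ℕ) (T : ℝ), 0 < T → (∀ i, T ≤ L i) →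
      ∀ E : Finset (Idx (2 * m + 1) (degs m r δ) → ℤ), E ⊆ kbox N L →
      (∀ t ∈ E, ¬ IsSmooth (MvPolynomial.map (Int.castRingHom ℂ) (fam (gens m a) t))) →
      (E.card : ℝ) ≤ D / T * ∏ i, (L i : ℝ) := by
  classical
  obtain ⟨t₀, ht₀⟩ := exists_smooth (m := m) a ha δ h2 hr
  rw [← zform_ff, ← lform_cast] at ht₀
  obtain ⟨P, hP0, hP⟩ := exists_disc (n := 2 * m + 1) (ff a δ) (by omega : 1 ≤ δ) (ff_hom a δ h2 hr) t₀ ht₀
  obtain ⟨D, hD0, hD⟩ := zeros_kbox P (by
    rintro rfl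
    exact hP0 (map_zero _))
  refine ⟨D, hD0, fun N L T hT hL E hE hns => ?_⟩
  refine le_trans ?_ (hD N L T hT hL)
  refine Nat.cast_le.2 (card_le_card fun t ht => ?_)
  rw [mem_filter]
  refine ⟨hE ht, ?_⟩
  by_contra h
  refine hns t ht ?_
  rw [← zform_ff, ← lform_cast]
  refine hP ℂ _ ?_
  intro h3
  have h4 : eval₂ (Int.castRingHom ℂ) (fun i => (t i : ℂ)) P = ((eval t P : ℤ) : ℂ) := by
    have h5 := eval₂_comp_left (Int.castRingHom ℂ) (RingHom.id ℤ) t P
    rw [eval₂_id] at h5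
    have h6 : ((eval t P : ℤ) : ℂ) = (Int.castRingHom ℂ) (eval t P) := rfl
    rw [h6, h5]
    rfl
  rw [h4] at h3
  exact h (by exact_mod_cast h3)

end U345L
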