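import Pool.Agent.U345.LinesO
import Pool.Agent.U345.Smooth

/-!
# Almost all hypersurfaces of odd dimension `2 m + 1` containing given disjoint linear subspaces of dimension `m` are smooth
-/

set_option autoImplicit false
set_option linter.unusedSectionVars false

namespace U345O

open Finset MvPolynomial
open Q285HS (points fam Idx toFs toFs_inj eval_hom)
open Q282.GK (kbox)
open Pool.Agent.Y722.HS (Mon mev form IsSmooth)
open Pool.Agent.Y722.LS (zform lform lform_cast exists_disc)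
open U345L (zeros_kbox hom_form)

variable {m r : ℕ}

/-! ### products of linear forms -/

section ring

variable {R : Type} [CommRing R]

/-- `x_i - b y_i` -/
noncomputable def lf (i : Fin (m + 1)) (b : R) : MvPolynomial (Fin (2 * m + 2 + 1)) R := X (xi i) - C b * X (yi i)

/-- the product of the `x_i - b_k y_i` -/
noncomputable def GG {K : Type} [Fintype K] (b : K → R) (i : Fin (m + 1)) : MvPolynomial (Fin (2 * m + 2 + 1)) R := ∏ k, lf i (b k)

lemma lf_hom (i : Fin (m + 1)) (b : R) : (lf i b).IsHomogeneous 1 := by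
  unfold lf
  exact (isHomogeneous_X R _).sub (isHomogeneous_C_mul_X _ _)

lemma GG_hom {K : Type} [Fintype K] (b : K → R) (i : Fin (m + 1)) : (GG b i).IsHomogeneous (Fintype.card K) := by
  have h := IsHomogeneous.prod univ (fun k => lf i (b k)) (fun _ => 1) fun k _ => lf_hom i (b k)
  rw [sum_const, card_univ, smul_eq_mul, mul_one] at h
  exact h

lemma pderiv_lf_ne (i : Fin (m + 1)) (b : R) (j : Fin (2 * m + 2 + 1)) (h1 : j ≠ xi i) (h2 : j ≠ yi i) : pderiv j (lf i b) = 0 := by
  unfold lf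
  rw [map_sub, pderiv_C_mul, pderiv_X_of_ne h1.symm, pderiv_X_of_ne h2.symm, mul_zero, sub_zero]

lemma pderiv_lf_xi (i : Fin (m + 1)) (b : R) : pderiv (xi i) (lf i b) = 1 := by
  unfold lf
  rw [map_sub, pderiv_C_mul, pderiv_X_self, pderiv_X_of_ne (xi_ne_yi i i).symm, mul_zero, sub_zero]

lemma pderiv_prod_zero {K : Type} [DecidableEq K] (s : Finset K) (f : K → MvPolynomial (Fin (2 * m + 2 + 1)) R) (j : Fin (2 * m + 2 + 1))
    (h : ∀ k, pderiv j (f k) = 0) : pderiv j (∏ k ∈ s, f k) = 0 := by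
  induction s using Finset.induction_on with
  | empty => simp
  | insert a s ha ih => rw [prod_insert ha, pderiv_mul, ih, h, zero_mul, mul_zero, zero_add]

lemma pderiv_GG_ne {K : Type} [Fintype K] (b : K → R) (i : Fin (m + 1)) (j : Fin (2 * m + 2 + 1)) (h1 : j ≠ xi i) (h2 : j ≠ yi i) :
    pderiv j (GG b i) = 0 := by
  classical
  exact pderiv_prod_zero univ _ j fun k => pderiv_lf_ne i (b k) j h1 h2

end ring

lemma pderiv_pow_ne {R : Type} [CommRing R] (δ : ℕ) (j : Fin (2 * m + 2 + 1)) (h : j ≠ zi m) :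
    pderiv j (X (zi m) ^ δ : MvPolynomial (Fin (2 * m + 2 + 1)) R) = 0 := by
  rw [pderiv_pow, pderiv_X_of_ne h.symm, mul_zero]

/-- the example is smooth -/
theorem smooth_GG {F : Type} [Field F] {K : Type} [Fintype K] [DecidableEq K] (b : K → F) (hb : Function.Injective b)
    (hK : (Fintype.card K : F) ≠ 0) (δ : ℕ) (hδ : (δ : F) ≠ 0) (hδ2 : 2 ≤ δ) :
    IsSmooth (n := 2 * m + 2) (∑ i : Fin (m + 1), GG b i + X (zi m) ^ δ) := by
  intro v hv _
  by_contra hcon
  push Not at hcon
  have hz : v (zi m) = 0 := by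
    have h2 := hcon (zi m)
    have h3 : ∑ i : Fin (m + 1), pderiv (zi m) (GG b i) = 0 :=
      sum_eq_zero fun i _ => pderiv_GG_ne b i _ (zi_ne_xi i) (zi_ne_yi i)
    rw [map_add, map_sum, h3, zero_add, pderiv_pow, pderiv_X_self, mul_one, map_mul, map_natCast, map_pow, eval_X] at h2
    rcases mul_eq_zero.1 h2 with h4 | h4
    · exact absurd h4 hδ
    · exact pow_eq_zero_iff (by omega : δ - 1 ≠ 0) |>.1 h4
  have h1 : ∀ i j, eval v (pderiv j (GG b i)) = 0 := by
    intro i j
    by_cases hj : j = xi i ∨ j = yi i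
    · have h2 := hcon j
      have hjz : j ≠ zi m := by
        rcases hj with rfl | rfl
        · exact (zi_ne_xi i).symm
        · exact (zi_ne_yi i).symm
      rw [map_add, pderiv_pow_ne δ j hjz, add_zero, map_sum, map_sum, sum_eq_single_of_mem i (mem_univ i)] at h2
      · exact h2
      · intro i' _ hne
        have h3 : j ≠ xi i' ∧ j ≠ yi i' := by
          rcases hj with rfl | rfl
          · exact ⟨fun h => hne (xi_inj h).symm, xi_ne_yi _ _⟩
          · exact ⟨fun h => (xi_ne_yi i' i) h.symm, fun h => hne (yi_inj h).symm⟩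
        rw [pderiv_GG_ne b i' j h3.1 h3.2, map_zero]
    · push Not at hj
      rw [pderiv_GG_ne b i j hj.1 hj.2, map_zero]
  have h2 : ∀ i, eval v (GG b i) = 0 := by
    intro i
    have h3 := congrArg (eval v) (GG_hom b i).sum_X_mul_pderiv
    rw [map_sum, nsmul_eq_mul, map_mul, map_natCast] at h3
    have h4 : ∑ j, eval v (X j * pderiv j (GG b i)) = 0 := by
      refine sum_eq_zero fun j _ => ?_
      rw [map_mul, h1, mul_zero]
    rw [h4] at h3
    rcases mul_eq_zero.1 h3.symm with h5 | h5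
    · exact absurd h5 hK
    · exact h5
  have h3 : ∀ i, v (xi i) = 0 ∧ v (yi i) = 0 := by
    intro i
    have h4 := h2 i
    unfold GG at h4
    rw [map_prod, prod_eq_zero_iff] at h4
    obtain ⟨k, _, hk⟩ := h4
    have hk' : v (xi i) = b k * v (yi i) := by
      unfold lf at hk
      simp only [map_sub, map_mul, eval_X, eval_C] at hk
      exact sub_eq_zero.1 hk
    have h5 := h1 i (xi i)
    unfold GG at h5
    rw [← mul_prod_erase univ _ (mem_univ k), pderiv_mul, map_add, map_mul, map_mul, hk, zero_mul, add_zero, pderiv_lf_xi, map_one, one_mul,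
      map_prod, prod_eq_zero_iff] at h5
    obtain ⟨l, hl, hl'⟩ := h5
    have hlk : l ≠ k := ne_of_mem_erase hl
    unfold lf at hl'
    simp only [map_sub, map_mul, eval_X, eval_C] at hl'
    rw [hk', ← sub_mul] at hl'
    have h6 : v (yi i) = 0 := by
      rcases mul_eq_zero.1 hl' with h7 | h7
      · exact absurd (hb (sub_eq_zero.1 h7)).symm hlk
      · exact h7
    exact ⟨by rw [hk', h6, mul_zero], h6⟩
  apply hv
  funext l
  rcases xyz_cases l with ⟨i, rfl⟩ | ⟨i, rfl⟩ | rfl
  · exact (h3 i).1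
  · exact (h3 i).2
  · exact hz

/-! ### the linear system -/

/-- the monomials of the system -/
noncomputable def ff (a : Fin r → ℤ) (δ : ℕ) (x : Idx (2 * m + 2) (degs m r δ)) : MvPolynomial (Fin (2 * m + 2 + 1)) ℤ :=
  gens m a x.1 * ∏ l, X l ^ (x.2.1 l : ℕ)

lemma ff_hom (a : Fin r → ℤ) (δ : ℕ) (h2 : 2 ≤ δ) (hr : r ≤ δ) (x : Idx (2 * m + 2) (degs m r δ)) : (ff a δ x).IsHomogeneous δ := by
  obtain ⟨j, ν⟩ := x
  have hmon : (∏ l, X l ^ (ν.1 l : ℕ) : MvPolynomial (Fin (2 * m + 2 + 1)) ℤ).IsHomogeneous (degs m r δ j) := by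
    have h := IsHomogeneous.prod univ (fun l => (X l ^ (ν.1 l : ℕ) : MvPolynomial (Fin (2 * m + 2 + 1)) ℤ)) (fun l => (ν.1 l : ℕ))
      fun l _ => isHomogeneous_X_pow l _
    rw [ν.2] at h
    exact h
  unfold ff
  rcases j with ⟨i, j⟩ | i | u
  · have h : (gens m a (Sum.inl (i, j))).IsHomogeneous 2 := by
      unfold gens
      exact ((isHomogeneous_X ℤ _).mul (isHomogeneous_X ℤ _)).sub ((isHomogeneous_X ℤ _).mul (isHomogeneous_X ℤ _))
    have h3 := h.mul hmon
    have h4 : 2 + degs m r δ (Sum.inl (i, j)) = δ := by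
      show 2 + (δ - 2) = δ
      omega
    rw [h4] at h3
    exact h3
  · have h : (gens m a (Sum.inr (Sum.inl i))).IsHomogeneous r := by
      have h5 := GG_hom (m := m) a i
      rw [Fintype.card_fin] at h5
      exact h5
    have h3 := h.mul hmon
    have h4 : r + degs m r δ (Sum.inr (Sum.inl i)) = δ := by
      show r + (δ - r) = δ
      omega
    rw [h4] at h3
    exact h3
  · have h : (gens m a (Sum.inr (Sum.inr u))).IsHomogeneous 1 := isHomogeneous_X ℤ _
    have h3 := h.mul hmon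
    have h4 : 1 + degs m r δ (Sum.inr (Sum.inr u)) = δ := by
      show 1 + (δ - 1) = δ
      omega
    rw [h4] at h3
    exact h3

lemma zform_ff (a : Fin r → ℤ) (δ : ℕ) (t : Idx (2 * m + 2) (degs m r δ) → ℤ) : zform (n := 2 * m + 2) (ff a δ) t = fam (gens m a) t := by
  unfold zform fam ff
  rw [Fintype.sum_sigma]
  refine sum_congr rfl fun j _ => ?_
  rw [mul_sum]
  refine sum_congr rfl fun ν _ => ?_
  ring

/-- a smooth member -/
theorem exists_smooth (a : Fin r → ℤ) (ha : Function.Injective a) (δ : ℕ) (h2 : 2 ≤ δ) (hr : r ≤ δ) :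
    ∃ t : Idx (2 * m + 2) (degs m r δ) → ℤ, IsSmooth (MvPolynomial.map (Int.castRingHom ℂ) (fam (gens m a) t)) := by
  classical
  obtain ⟨b, hb⟩ : ∃ b : Fin (δ - r) → ℤ, b = fun l : Fin (δ - r) => (∑ k, |a k|) + 1 + ((l : ℕ) : ℤ) := ⟨_, rfl⟩
  have hinj : Function.Injective (Sum.elim a b) := by
    have h1 : ∀ k l, a k < b l := by
      intro k l
      have h3 : |a k| ≤ ∑ k, |a k| := single_le_sum (f := fun k => |a k|) (fun i _ => abs_nonneg _) (mem_univ k)
      have h4 := le_abs_self (a k)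
      rw [hb]
      dsimp only
      omega
    rintro (k | k) (l | l) h
    · exact congrArg _ (ha h)
    · exact absurd h (h1 k l).ne
    · exact absurd h (h1 l k).ne'
    · simp only [Sum.elim_inr] at h
      rw [hb] at h
      dsimp only at h
      refine congrArg _ (Fin.ext ?_)
      omega
  obtain ⟨h, hh⟩ : ∃ h : (Fin (m + 1) × Fin (m + 1)) ⊕ (Fin (m + 1) ⊕ Unit) → MvPolynomial (Fin (2 * m + 2 + 1)) ℤ,
      h = Sum.elim (fun _ => 0) (Sum.elim (fun i => GG b i) fun _ => X (zi m) ^ (δ - 1)) := ⟨_, rfl⟩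
  have hhom : ∀ j, (h j).IsHomogeneous (degs m r δ j) := by
    rintro (⟨i, j⟩ | i | u)
    · rw [hh]
      exact isHomogeneous_zero _ _ _
    · rw [hh]
      have h6 := GG_hom (m := m) b i
      rw [Fintype.card_fin] at h6
      exact h6
    · rw [hh]
      exact isHomogeneous_X_pow _ _
  refine ⟨fun x => (h x.1).coeff (toFs x.2), ?_⟩
  have hfam : fam (d := degs m r δ) (gens m a) (fun x => (h x.1).coeff (toFs x.2)) = ∑ i : Fin (m + 1), GG (Sum.elim a b) i + X (zi m) ^ δ := by
    unfold fam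
    have h3 : ∀ j, ∑ ν : Mon (2 * m + 2) (degs m r δ j), C ((h j).coeff (toFs ν)) * ∏ l, X l ^ (ν.1 l : ℕ) = h j := fun j => hom_form (h j) (hhom j)
    rw [sum_congr rfl fun j _ => by rw [h3 j], Fintype.sum_sum_type, Fintype.sum_sum_type, hh]
    simp only [Sum.elim_inl, Sum.elim_inr, mul_zero, sum_const_zero, zero_add]
    congr 1
    · refine sum_congr rfl fun i _ => ?_
      unfold GG
      rw [Fintype.prod_sum_type]
      rfl
    · rw [Finset.univ_unique, sum_singleton]
      show X (zi m) * X (zi m) ^ (δ - 1) = X (zi m) ^ δ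
      rw [← pow_succ']
      congr 1
      omega
  rw [hfam, map_add, map_sum, map_pow, map_X]
  have h3 : ∀ i : Fin (m + 1), MvPolynomial.map (Int.castRingHom ℂ) (GG (Sum.elim a b) i) = GG (fun k => ((Sum.elim a b k : ℤ) : ℂ)) i := by
    intro i
    unfold GG lf
    rw [map_prod]
    refine prod_congr rfl fun k _ => ?_
    simp
  rw [sum_congr rfl fun i _ => h3 i]
  refine smooth_GG _ (fun k l h => hinj (by exact_mod_cast h)) ?_ δ (by exact_mod_cast (by omega : δ ≠ 0)) h2
  rw [Fintype.card_sum, Fintype.card_fin, Fintype.card_fin]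
  exact_mod_cast (by omega : r + (δ - r) ≠ 0)

/-- **almost all members are smooth** -/
theorem smooth_count (a : Fin r → ℤ) (ha : Function.Injective a) (δ : ℕ) (h2 : 2 ≤ δ) (hr : r ≤ δ) :
    ∃ D : ℝ, 0 ≤ D ∧ ∀ (N : Idx (2 * m + 2) (degs m r δ) → ℤ) (L : Idx (2 * m + 2) (degs m r δ) → ℕ) (T : ℝ), 0 < T → (∀ i, T ≤ L i) →
      ∀ E : Finset (Idx (2 * m + 2) (degs m r δ) → ℤ), E ⊆ kbox N L →
      (∀ t ∈ E, ¬ IsSmooth (MvPolynomial.map (Int.castRingHom ℂ) (fam (gens m a) t))) →
      (E.card : ℝ) ≤ D / T * ∏ i, (L i : ℝ) := by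
  classical
  obtain ⟨t₀, ht₀⟩ := exists_smooth (m := m) a ha δ h2 hr
  rw [← zform_ff, ← lform_cast] at ht₀
  obtain ⟨P, hP0, hP⟩ := exists_disc (n := 2 * m + 2) (ff a δ) (by omega : 1 ≤ δ) (ff_hom a δ h2 hr) t₀ ht₀
  obtain ⟨D, hD0, hD⟩ := zeros_kbox P (by
    rintro rfl
    exact hP0 (map_zero _))
  refine ⟨D, hD0, fun N L T hT hL E hE hns => ?_⟩
  refine le_trans ?_ (hD N L T hT hL)
  refine Nat.cast_le.2 (card_le_card fun t ht => ?_)
  rw [mem_filter]
  refine ⟨hE ht, ?_⟩
  by_contra h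
  refine hns t ht ?_
  rw [← zform_ff, ← lform_cast]
  refine hP ℂ _ ?_
  intro h3
  have h4 : eval₂ (Int.castRingHom ℂ) (fun i => (t i : ℂ)) P = ((eval t P : ℤ) : ℂ) := by
    have h5 := eval₂_comp_left (Int.castRingHom ℂ) (RingHom.id ℤ) t P
    rw [eval₂_id] at h5
    have h6 : ((eval t P : ℤ) : ℂ) = (Int.castRingHom ℂ) (eval t P) := rfl
    rw [h6, h5]
    rfl
  rw [h4] at h3
  exact h (by exact_mod_cast h3)

end U345O
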