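import Pool.Agent.U345.LL

/-!
# Convergence to the Brownian motion on the scale of `log log`, with tightness; members of linear systems of odd dimension
-/

set_option autoImplicit false
set_option linter.unusedSectionVars false

namespace U345T

open Finset Filter MeasureTheory ProbabilityTheory
open scoped NNReal
open Q282.CL
open Q282.BP (PP loglog_tendsto)
open Q282.GK (kbox)
open Q285HS (points fam Idx HH shf Sz)

/-- `(log log X) ^ (-1 / 2) ∑_{p ≤ exp ((log X) ^ s)} z_p` -/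
noncomputable def pathLL (z : ℕ → ℝ) (X : ℕ) (s : ℝ≥0) : ℝ :=
  (∑ p ∈ (Icc 1 ⌊Real.exp (Real.log X ^ (s : ℝ))⌋₊).filter Nat.Prime, z p) / Real.sqrt (Real.log (Real.log X))

/-- convergence in law to the Brownian motion -/
def ConvLL {κ : Type} [Fintype κ] [DecidableEq κ] (z : (κ → ℤ) → ℕ → ℝ) : Prop :=
  (∀ I : Finset ℝ≥0, (∀ s ∈ I, 0 < s ∧ s ≤ 1) → ∀ (x : I → ℝ) (ε : ℝ), 0 < ε → ∃ X₁ : ℕ, ∀ X : ℕ, X₁ ≤ X →
    ∀ (N : κ → ℤ) (L : κ → ℕ), (∀ i, (X : ℝ) ^ X₁ ≤ L i) →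
      |({t ∈ (box N L : Set (κ → ℤ)) | ∀ s : I, pathLL (z t) X s ≤ x s}.ncard : ℝ) / ∏ i, (L i : ℝ) - brownian I x| ≤ ε) ∧
  ∀ ε : ℝ, 0 < ε → ∃ δ : ℝ, 0 < δ ∧ ∃ X₁ : ℕ, ∀ X : ℕ, X₁ ≤ X →
    ∀ (N : κ → ℤ) (L : κ → ℕ), (∀ i, (X : ℝ) ^ X₁ ≤ L i) →
      ({t ∈ (box N L : Set (κ → ℤ)) | ∃ σ τ : ℝ≥0, σ ≤ τ ∧ τ ≤ 1 ∧ (τ : ℝ) - σ ≤ δ ∧
        ε < |pathLL (z t) X τ - pathLL (z t) X σ|}.ncard : ℝ) ≤ ε * ∏ i, (L i : ℝ)

lemma pathLL_eq {κ : Type} [Fintype κ] [DecidableEq κ] (H : (p : ℕ) → (κ → ZMod p) → ℝ) (z : (κ → ℤ) → ℕ → ℝ)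
    (hz : ∀ t p, p.Prime → z t p = (1 / Real.sqrt p) * H p fun i => (t i : ZMod p)) (t : κ → ℤ) (X : ℕ) (τ : ℝ≥0) :
    pathLL (z t) X τ = ∑ p ∈ PP (tm X τ), ll X p * H p (fun i => (t i : ZMod p)) := by
  unfold pathLL
  rw [sum_div]
  refine sum_congr rfl fun p hp => ?_
  have hpp : p.Prime := (mem_filter.1 hp).2
  rw [hz t p hpp]
  unfold ll
  ring

/-- the engine -/
theorem conv_ll {κ : Type} [Fintype κ] [DecidableEq κ] (H : (p : ℕ) → (κ → ZMod p) → ℝ) (β p₀ : ℕ) (K : ℝ)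
    (hK : 1 ≤ K) (hH : ∀ p : ℕ, p.Prime → ∀ u, |H p u| ≤ K * (p : ℝ) ^ β) (h1 : ∀ p : ℕ, p.Prime → p₀ ≤ p → |mn H p| ≤ K / p)
    (h2 : ∀ p : ℕ, p.Prime → p₀ ≤ p → |mn (fun p u => H p u ^ 2) p - 1| ≤ K / Real.sqrt p)
    (h4 : ∀ p : ℕ, p.Prime → p₀ ≤ p → mn (fun p u => H p u ^ 4) p ≤ K)
    (z : (κ → ℤ) → ℕ → ℝ) (hz : ∀ t p, p.Prime → z t p = (1 / Real.sqrt p) * H p fun i => (t i : ZMod p)) : ConvLL z := by
  classical
  refine ⟨fun I hI x ε hε => ?_, fun ε hε => ?_⟩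
  · obtain ⟨X₁, h⟩ := eng_ll H β p₀ K hK hH h1 h4 h2 I hI x ε hε
    refine ⟨X₁, fun X hX N L hL => ?_⟩
    have h3 := h X hX N L hL
    have e1 : {t ∈ (box N L : Set (κ → ℤ)) | ∀ τ : I, pathLL (z t) X τ ≤ x τ} =
        ↑((kbox N L).filter fun t => ∀ τ : I, ∑ p ∈ PP (tm X (τ : ℝ≥0)), ll X p * H p (fun i => (t i : ZMod p)) ≤ x τ) := by
      ext t
      rw [coe_filter]
      constructor
      · rintro ⟨g2, g3⟩
        exact ⟨g2, fun τ => by rw [← pathLL_eq H z hz t X τ]; exact g3 τ⟩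
      · rintro ⟨g2, g3⟩
        exact ⟨g2, fun τ => by rw [pathLL_eq H z hz t X τ]; exact g3 τ⟩
    rw [e1, Set.ncard_coe_finset]
    have e2 : brownian I x = W I x := rfl
    rw [e2]
    convert h3 using 6
  · obtain ⟨m, hm, X₁, h⟩ := tight_ll H β p₀ K hK hH h1 h4 ε hε
    have hm0 : (0 : ℝ) < m := by exact_mod_cast hm
    refine ⟨1 / m, by positivity, X₁, fun X hX N L hL => ?_⟩
    have h3 := h X hX N L hL
      ((kbox N L).filter fun t => ∃ σ τ : ℝ≥0, σ ≤ τ ∧ τ ≤ 1 ∧ (τ : ℝ) - σ ≤ 1 / m ∧ ε < |pathLL (z t) X τ - pathLL (z t) X σ|)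
      (filter_subset _ _) (by
        intro t ht
        obtain ⟨_, σ, τ, hσ, hτ, hd, hlt⟩ := mem_filter.1 ht
        rw [pathLL_eq H z hz t X τ, pathLL_eq H z hz t X σ] at hlt
        exact ⟨σ, τ, hσ, hτ, hd, hlt⟩)
    refine le_trans (le_of_eq ?_) h3
    rw [← Set.ncard_coe_finset, coe_filter]
    rfl

section sys

variable {n : ℕ} {J : Type} [Fintype J] [DecidableEq J] {d : J → ℕ} (g : J → MvPolynomial (Fin (n + 1)) ℤ) (W : Set (MvPolynomial (Fin (n + 1)) ℤ))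

lemma mn_HH (D p : ℕ) (hp : p.Prime) : mn (HH (d := d) g W D) p = 0 := by
  have : Fact p.Prime := ⟨hp⟩
  rw [mn_eq]
  have h1 : HH (d := d) g W D p = fun c => (1 / Real.sqrt p ^ (D - 1)) *
      Q285HS.sm (Q285HS.ev (d := d) g p) (Q285HS.AA g W p) (fun _ => Q285HS.ph p) c := by
    funext c
    rw [Q285HS.HH_eq]
    ring
  rw [h1, av_mul, Q285HS.sm_one (Q285HS.sep_AA g W p (m := 1) (fun j => by omega)) le_rfl _ (fun _ _ => Q285HS.ph_one p), mul_zero]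

variable {g W}

/-- **members of odd dimension `2 m + 1`** -/
theorem sys_ll {m p₀ : ℕ} {C₀ : ℝ} (hd : ∀ j, 3 ≤ d j) (hsz : Sz g W (2 * m + 2) p₀ C₀) (c : ℕ → ℝ)
    (hc : ∀ p : ℕ, p.Prime → p₀ ≤ p → |(points p (W ∪ Set.range g) : ℝ) + ((points p W : ℝ) - points p (W ∪ Set.range g)) / p - c p| ≤
      C₀ * ((p : ℝ) ^ m / Real.sqrt p)) :
    ConvLL fun (t : Idx n d → ℤ) p => ((points p (W ∪ {fam g t}) : ℝ) - c p) / (p : ℝ) ^ (m + 1) := by
  have hsq : ∀ p : ℕ, Real.sqrt p ^ (2 * m + 2 - 1) = (p : ℝ) ^ m * Real.sqrt p := by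
    intro p
    have h1 : 2 * m + 2 - 1 = 2 * m + 1 := by omega
    rw [h1, pow_succ, pow_mul, Real.sq_sqrt (Nat.cast_nonneg p)]
  have hshf : ∀ p : ℕ, p.Prime → p₀ ≤ p → |shf g W (2 * m + 2) c p| ≤ C₀ / p := by
    intro p hp hpp
    have hp0 : (0 : ℝ) < p := by exact_mod_cast hp.pos
    have hs0 : 0 < Real.sqrt p := Real.sqrt_pos.2 hp0
    have hss : Real.sqrt p * Real.sqrt p = p := Real.mul_self_sqrt hp0.le
    have h1 := hc p hp hpp
    unfold shf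
    rw [hsq, abs_div, abs_of_pos (by positivity : (0 : ℝ) < (p : ℝ) ^ m * Real.sqrt p), div_le_iff₀ (by positivity)]
    refine h1.trans (le_of_eq ?_)
    have h2 : C₀ / (p : ℝ) * ((p : ℝ) ^ m * Real.sqrt p) = C₀ / (Real.sqrt p * Real.sqrt p) * ((p : ℝ) ^ m * Real.sqrt p) := by rw [hss]
    rw [h2]
    field_simp
  have hC₀ : ∀ p : ℕ, p.Prime → p₀ ≤ p → 0 ≤ C₀ := by
    intro p hp hpp
    have hp0 : (0 : ℝ) < p := by exact_mod_cast hp.pos
    have h1 := (abs_nonneg _).trans (hshf p hp hpp)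
    rw [le_div_iff₀ hp0, zero_mul] at h1
    exact h1
  obtain ⟨K, p₁, hN⟩ := Q285HS.near_tr (d := d) (by omega : 2 ≤ 2 * m + 2) hsz c (fun p hp hpp => by
    have hp0 : (0 : ℝ) < p := by exact_mod_cast hp.pos
    have hp1 : (1 : ℝ) ≤ p := by exact_mod_cast hp.one_lt.le
    have hs0 : 0 < Real.sqrt p := Real.sqrt_pos.2 hp0
    refine (hshf p hp hpp).trans (div_le_div_of_nonneg_left (hC₀ p hp hpp) hs0 ?_)
    rw [Real.sqrt_le_left hp0.le]
    nlinarith) 4 (fun j => by have := hd j; omega)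
  have hK := hN.one
  have g2 : (Q282MM.gm 2 : ℝ) = 1 := by
    simp [Q282MM.gm, Nat.doubleFactorial]
  have g4 : (Q282MM.gm 4 : ℝ) = 3 := by
    have : Even 4 := by decide
    simp [Q282MM.gm, this, Nat.doubleFactorial]
  have habs : 0 ≤ |C₀| := abs_nonneg _
  refine conv_ll (fun p (u : Idx n d → ZMod p) => HH g W (2 * m + 2) p u + shf g W (2 * m + 2) c p) (n + 1) (max p₀ p₁) (K + 3 + |C₀|)
    (by linarith) ?_ ?_ ?_ ?_ _ ?_
  · intro p hp u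
    refine (hN.bd p hp u).trans (mul_le_mul_of_nonneg_right (by linarith) (by positivity))
  · intro p hp hpp
    have hp0 : (0 : ℝ) < p := by exact_mod_cast hp.pos
    have : Fact p.Prime := ⟨hp⟩
    have h1 : mn (fun p (u : Idx n d → ZMod p) => HH g W (2 * m + 2) p u + shf g W (2 * m + 2) c p) p = shf g W (2 * m + 2) c p := by
      have h2 := mn_HH (d := d) g W (2 * m + 2) p hp
      rw [mn_eq] at h2
      rw [mn_eq, av_add, h2, av_const, zero_add]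
    rw [h1]
    refine (hshf p hp ((le_max_left _ _).trans hpp)).trans (div_le_div_of_nonneg_right ?_ hp0.le)
    linarith [le_abs_self C₀]
  · intro p hp hpp
    have h := hN.mom p hp ((le_max_right _ _).trans hpp) 2 (by norm_num)
    rw [g2] at h
    exact h.trans (div_le_div_of_nonneg_right (by linarith) (Real.sqrt_nonneg _))
  · intro p hp hpp
    have h := (abs_le.1 (hN.mom p hp ((le_max_right _ _).trans hpp) 4 le_rfl)).2
    rw [g4] at h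
    have h2 : K / Real.sqrt p ≤ K := div_le_self (by linarith) (Real.one_le_sqrt.2 (by exact_mod_cast hp.one_lt.le))
    linarith
  · intro t p hp
    have hp0 : (0 : ℝ) < p := by exact_mod_cast hp.pos
    have hs0 : 0 < Real.sqrt p := Real.sqrt_pos.2 hp0
    have hss : Real.sqrt p * Real.sqrt p = p := Real.mul_self_sqrt hp0.le
    have h1 := Q285HS.tr_eq g W (2 * m + 2) c p hp t
    unfold Q285HS.tr at h1
    rw [hsq] at h1
    rw [← h1]
    have h2 : (p : ℝ) ^ (m + 1) = (p : ℝ) ^ m * (Real.sqrt p * Real.sqrt p) := by rw [hss, pow_succ]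
    rw [h2]
    field_simp

end sys

end U345T
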