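import Pool.Agent.Q285.NG.Sq

/-!
# Fourth moments over boxes of sums over primes of functions of the residues
-/

set_option autoImplicit false
set_option linter.unusedSectionVars false

namespace U345T

open Finset
open Q282.CL
open Q282.BP (bx mem_bx card_bx PP)
open Q282.GK (kbox mean_res)
open Pool.Agent.TH894.NE (box mem_box card_box Per mean mean_mul mean_mono mean_prod)

section prod

variable {ι : Type} [Fintype ι] [DecidableEq ι] {Ω : ι → Type} [∀ i, Fintype (Ω i)] [∀ i, Nonempty (Ω i)]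

/-- a coordinate is independent of the others -/
lemma av_split (a : ι) (F : (∀ i, Ω i) → ℝ) (hF : ∀ ω x, F (Function.update ω a x) = F ω) (G : Ω a → ℝ) :
    av (fun ω => F ω * G (ω a)) = av F * av G := by
  classical
  obtain ⟨x₀⟩ : Nonempty (Ω a) := inferInstance
  have key : ∀ G : Ω a → ℝ, av (fun ω => F ω * G (ω a)) =
      av (fun y : ∀ j : {j // j ≠ a}, Ω j => F ((Equiv.piSplitAt a Ω).symm (x₀, y))) * av G := by
    intro G
    rw [av_equiv (Equiv.piSplitAt a Ω).symm]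
    have h1 : ∀ z : Ω a × ∀ j : {j // j ≠ a}, Ω j, F ((Equiv.piSplitAt a Ω).symm z) * G ((Equiv.piSplitAt a Ω).symm z a) =
        F ((Equiv.piSplitAt a Ω).symm (x₀, z.2)) * G z.1 := by
      intro z
      have h2 : (Equiv.piSplitAt a Ω).symm z a = z.1 := by
        simp [Equiv.piSplitAt]
      have h3 : (Equiv.piSplitAt a Ω).symm (x₀, z.2) = Function.update ((Equiv.piSplitAt a Ω).symm z) a x₀ := by
        funext i
        by_cases h : i = a
        · subst h
          simp [Equiv.piSplitAt]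
        · rw [Function.update_of_ne h]
          simp [Equiv.piSplitAt, h]
      rw [h2, h3, hF]
    unfold av
    rw [sum_congr rfl fun z _ => h1 z, Fintype.sum_prod_type, Fintype.card_prod]
    dsimp only
    rw [sum_comm, div_mul_div_comm, sum_mul_sum]
    push_cast
    rw [mul_comm (Fintype.card (∀ j : {j // j ≠ a}, Ω j) : ℝ)]
  have h1 := key fun _ => 1
  rw [av_const, mul_one] at h1
  simp only [mul_one] at h1
  rw [key G, h1]

/-- the first, second and fourth moment of a sum of independent variables -/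
lemma fourth (Z : ∀ i, Ω i → ℝ) (h0 : ∀ i, av (Z i) = 0) (s : Finset ι) :
    av (fun ω : ∀ i, Ω i => ∑ i ∈ s, Z i (ω i)) = 0 ∧
    av (fun ω : ∀ i, Ω i => (∑ i ∈ s, Z i (ω i)) ^ 2) = ∑ i ∈ s, av (fun x => Z i x ^ 2) ∧
    av (fun ω : ∀ i, Ω i => (∑ i ∈ s, Z i (ω i)) ^ 4) ≤ ∑ i ∈ s, av (fun x => Z i x ^ 4) + 3 * (∑ i ∈ s, av (fun x => Z i x ^ 2)) ^ 2 := by
  classical
  induction s using Finset.induction_on with
  | empty =>
    simp only [sum_empty]
    refine ⟨av_const 0, ?_, ?_⟩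
    · rw [av_const]
      norm_num
    · rw [av_const]
      norm_num
  | insert a s ha ih =>
    obtain ⟨i1, i2, i4⟩ := ih
    obtain ⟨S, hS⟩ : ∃ S : (∀ i, Ω i) → ℝ, S = fun ω => ∑ i ∈ s, Z i (ω i) := ⟨_, rfl⟩
    have hSu : ∀ ω x, S (Function.update ω a x) = S ω := by
      intro ω x
      rw [hS]
      refine sum_congr rfl fun i hi => ?_
      have hia : i ≠ a := by
        rintro rfl
        exact ha hi
      rw [Function.update_of_ne hia]
    have e : ∀ ω : ∀ i, Ω i, ∑ i ∈ insert a s, Z i (ω i) = Z a (ω a) + S ω := by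
      intro ω
      rw [sum_insert ha, hS]
    simp only [e]
    have hS1 : av S = 0 := by
      rw [hS]
      exact i1
    have hS2 : av (fun ω => S ω ^ 2) = ∑ i ∈ s, av (fun x => Z i x ^ 2) := by
      rw [hS]
      exact i2
    have hS4 : av (fun ω => S ω ^ 4) ≤ ∑ i ∈ s, av (fun x => Z i x ^ 4) + 3 * (∑ i ∈ s, av (fun x => Z i x ^ 2)) ^ 2 := by
      rw [hS]
      exact i4
    have sp : ∀ k l : ℕ, av (fun ω => S ω ^ k * Z a (ω a) ^ l) = av (fun ω => S ω ^ k) * av (fun x => Z a x ^ l) := by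
      intro k l
      exact av_split a (fun ω => S ω ^ k) (fun ω x => by rw [hSu]) (fun x => Z a x ^ l)
    have s01 := sp 0 1
    have s02 := sp 0 2
    have s04 := sp 0 4
    have s11 := sp 1 1
    have s13 := sp 1 3
    have s22 := sp 2 2
    have s31 := sp 3 1
    simp only [pow_zero, one_mul, pow_one] at s01 s02 s04 s11 s13 s31
    rw [av_const, one_mul] at s01 s02 s04
    rw [h0 a] at s01 s11 s31
    rw [mul_zero] at s11 s31
    rw [hS1, zero_mul] at s13
    have hv0 : 0 ≤ av (fun x => Z a x ^ 2) := av_nonneg fun x => sq_nonneg _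
    have hV0 : 0 ≤ ∑ i ∈ s, av (fun x => Z i x ^ 2) := sum_nonneg fun i _ => av_nonneg fun x => sq_nonneg _
    refine ⟨?_, ?_, ?_⟩
    · rw [av_add, s01, hS1, zero_add]
    · have h1 : (fun ω : ∀ i, Ω i => (Z a (ω a) + S ω) ^ 2) = fun ω => Z a (ω a) ^ 2 + (2 * (S ω * Z a (ω a)) + S ω ^ 2) := by
        funext ω
        ring
      rw [h1, av_add, av_add, av_mul, s02, s11, hS2, sum_insert ha]
      ring
    · have h1 : (fun ω : ∀ i, Ω i => (Z a (ω a) + S ω) ^ 4) = fun ω => Z a (ω a) ^ 4 + (4 * (S ω * Z a (ω a) ^ 3) +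
          (6 * (S ω ^ 2 * Z a (ω a) ^ 2) + (4 * (S ω ^ 3 * Z a (ω a)) + S ω ^ 4))) := by
        funext ω
        ring
      rw [h1, av_add, av_add, av_add, av_add, av_mul, av_mul, av_mul, s04, s13, s22, s31, hS2, sum_insert ha, sum_insert ha]
      nlinarith

end prod

section

variable {d : ℕ} {g : ℕ → (Fin d → ℕ) → ℝ} {S : Finset ℕ}

/-- the fourth moment -/
theorem four_var (hS : ∀ p ∈ S, p.Prime) (hg : ∀ p ∈ S, Per p (g p)) (hg0 : ∀ p ∈ S, mean d p (g p) = 0)
    {C : ℝ} (hb : ∀ p ∈ S, ∀ n, |g p n| ≤ C)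
    {Y : ℕ} (hY : ∀ p ∈ S, p ≤ Y)
    {T : ℝ} (hT0 : 0 < T) {L : Fin d → ℕ} (hL : ∀ i, T ≤ L i) :
    av (fun n : bx L => (∑ p ∈ S, g p n) ^ 4) ≤
      ∑ p ∈ S, mean d p (fun n => g p n ^ 4) + 3 * (∑ p ∈ S, mean d p (fun n => g p n ^ 2)) ^ 2 +
        (Y : ℝ) ^ 4 * (C ^ 4 * (Real.exp (d * (Y : ℝ) ^ 4 / T) - 1)) := by
  classical
  have hL0 : ∀ i, 0 < L i := fun i => by
    have : (0 : ℝ) < L i := hT0.trans_le (hL i)
    exact_mod_cast this
  have : Nonempty (bx L) := bx_nonempty hL0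
  have : ∀ p : S, Nonempty (box d p) := box_nonempty hS
  obtain ⟨η, hη⟩ : ∃ η : ℝ, η = C ^ 4 * (Real.exp (d * (Y : ℝ) ^ 4 / T) - 1) := ⟨_, rfl⟩
  have hη0 : 0 ≤ η := by
    rw [hη]
    refine mul_nonneg (by positivity) ?_
    have : 0 ≤ (d : ℝ) * (Y : ℝ) ^ 4 / T := by positivity
    linarith [Real.one_le_exp this]
  have h := mom_transfer (α := bx L) (ι := S) (Ω := fun p : S => box d p) (m := 4) (fun p n => g p n) (fun p n => g p n)
    (η := η) (by
      intro τ
      refine (mono_bx hS hg (fun p hp n => hb p hp n) hY hT0 hL τ).trans ?_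
      rw [hη])
  have e1 : ∀ n, ∑ p : S, g p n = ∑ p ∈ S, g p n := fun n => Finset.sum_coe_sort S (fun p => g p n)
  simp only [e1] at h
  rw [Fintype.card_coe] at h
  have hcard : (S.card : ℝ) ≤ Y := by
    have : S.card ≤ Y := by
      calc S.card ≤ (Icc 1 Y).card := card_le_card fun p hp => by
            rw [mem_Icc]
            exact ⟨(hS p hp).one_lt.le, hY p hp⟩
        _ = Y := by rw [Nat.card_Icc, Nat.add_sub_cancel]
    exact_mod_cast this
  have h2 := (fourth (Ω := fun p : S => box d p) (fun (p : S) (n : box d p) => g p n) (fun p => by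
    rw [av_box (g p), hg0 p p.2]) univ).2.2
  have e2 : ∀ k : ℕ, ∑ p : S, av (fun n : box d p => g p n ^ k) = ∑ p ∈ S, mean d p (fun n => g p n ^ k) := by
    intro k
    rw [← Finset.sum_coe_sort S (fun p => mean d p (fun n => g p n ^ k))]
    exact sum_congr rfl fun p _ => av_box (fun n => g p n ^ k)
  rw [e2, e2] at h2
  have h3 := (abs_le.1 h).2
  have h4 : (S.card : ℝ) ^ 4 * η ≤ (Y : ℝ) ^ 4 * η := mul_le_mul_of_nonneg_right (pow_le_pow_left₀ (Nat.cast_nonneg _) hcard 4) hη0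
  rw [← hη]
  linarith

end

/-! ### the coordinates -/

variable {κ : Type} [Fintype κ] [DecidableEq κ]

/-- the fourth moment over a box of integers -/
theorem four_k (X : ℕ) (H : (p : ℕ) → (κ → ZMod p) → ℝ) (w : ℕ → ℝ) (C : ℝ) (hH : ∀ p ∈ PP X, ∀ u, |w p * (H p u - mn H p)| ≤ C)
    (T : ℝ) (hT0 : 0 < T) (N : κ → ℤ) (L : κ → ℕ) (hL : ∀ i, T ≤ L i) :
    av (fun t : kbox N L => (∑ p ∈ PP X, w p * (H p (fun i => ((t : κ → ℤ) i : ZMod p)) - mn H p)) ^ 4) ≤
      ∑ p ∈ PP X, w p ^ 4 * mn (fun p u => (H p u - mn H p) ^ 4) p + 3 * (∑ p ∈ PP X, w p ^ 2 * vr H p) ^ 2 +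
        (X : ℝ) ^ 4 * (C ^ 4 * (Real.exp (Fintype.card κ * (X : ℝ) ^ 4 / T) - 1)) := by
  classical
  obtain ⟨e⟩ : Nonempty (κ ≃ Fin (Fintype.card κ)) := ⟨Fintype.equivFin κ⟩
  have hPP : ∀ p ∈ PP X, p.Prime := fun p hp => (mem_filter.1 hp).2
  have h1 := four_var (d := Fintype.card κ) (S := PP X) (g := fun p n => w p * (H p (fun i => ((N i + (n (e i) : ℤ) : ℤ) : ZMod p)) - mn H p)) hPP
    (fun p hp n => by
      have h2 : H p (fun i => ((N i + (n (e i) : ℤ) : ℤ) : ZMod p)) =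
          H p (fun i => ((N i + (((fun i => n i % p) (e i) : ℕ) : ℤ) : ℤ) : ZMod p)) := by
        congr 1
        funext i
        rw [Int.cast_add, Int.cast_add, Int.cast_natCast, Int.cast_natCast, ZMod.natCast_mod]
      show w p * (H p _ - mn H p) = w p * (H p _ - mn H p)
      rw [h2])
    (fun p hp => by
      have : Fact p.Prime := ⟨hPP p hp⟩
      rw [mean_av e p N (fun u => w p * (H p u - mn H p)), av_mul, av_sub, av_const, mn_eq, sub_self, mul_zero])
    (C := C) (fun p hp n => hH p hp _) (Y := X)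
    (fun p hp => (mem_Icc.1 (mem_filter.1 hp).1).2) hT0 (L := fun k => L (e.symm k)) (fun k => hL _)
  have h2 : av (fun t : kbox N L => (∑ p ∈ PP X, w p * (H p (fun i => ((t : κ → ℤ) i : ZMod p)) - mn H p)) ^ 4) =
      av (fun n : bx (fun k => L (e.symm k)) => (∑ p ∈ PP X, w p * (H p (fun i => ((N i + ((n : Fin _ → ℕ) (e i) : ℤ) : ℤ) : ZMod p)) - mn H p)) ^ 4) := by
    rw [av_equiv (kequiv e N L)]
    rfl
  have h3 : ∑ p ∈ PP X, w p ^ 2 * vr H p = ∑ p ∈ PP X, mean (Fintype.card κ) p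
      (fun n => (w p * (H p (fun i => ((N i + (n (e i) : ℤ) : ℤ) : ZMod p)) - mn H p)) ^ 2) := by
    refine sum_congr rfl fun p hp => ?_
    have : Fact p.Prime := ⟨(mem_filter.1 hp).2⟩
    rw [mean_av e p N (fun u => (w p * (H p u - mn H p)) ^ 2)]
    have h4 : (fun u => (w p * (H p u - mn H p)) ^ 2) =
        fun u => w p ^ 2 * (H p u ^ 2 - ((2 * mn H p) * H p u - mn H p ^ 2)) := by
      funext u
      ring
    rw [h4, av_mul, av_sub, av_sub, av_mul, av_const, ← mn_eq]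
    unfold vr
    rw [mn_eq (fun p u => H p u ^ 2)]
    ring
  have h4 : ∑ p ∈ PP X, w p ^ 4 * mn (fun p u => (H p u - mn H p) ^ 4) p = ∑ p ∈ PP X, mean (Fintype.card κ) p
      (fun n => (w p * (H p (fun i => ((N i + (n (e i) : ℤ) : ℤ) : ZMod p)) - mn H p)) ^ 4) := by
    refine sum_congr rfl fun p hp => ?_
    have : Fact p.Prime := ⟨(mem_filter.1 hp).2⟩
    rw [mean_av e p N (fun u => (w p * (H p u - mn H p)) ^ 4), mn_eq (fun p u => (H p u - mn H p) ^ 4)]
    have h5 : (fun u => (w p * (H p u - mn H p)) ^ 4) = fun u => w p ^ 4 * (H p u - mn H p) ^ 4 := by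
      funext u
      ring
    rw [h5, av_mul]
  rw [h2, h3, h4]
  exact h1

end U345T
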