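import Pool.Agent.U345.Conv
import Pool.Agent.Erdos456.Mertens

/-!
# Brownian limits on the scale of `log log`
-/

set_option autoImplicit false
set_option linter.unusedSectionVars false

namespace U345T

open Finset Filter MeasureTheory ProbabilityTheory
open scoped NNReal Topology
open Q282.CL
open Q282.BP (PP loglog_tendsto)
open Q282.GK (kbox)
open Q285HS (bl Lin brownB)
open Q285NG (av_abs_le)

/-- the weights -/
noncomputable def ll (X p : ℕ) : ℝ := (1 / Real.sqrt p) / Real.sqrt (Real.log (Real.log X))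

lemma ll_nonneg (X p : ℕ) : 0 ≤ ll X p := by
  unfold ll
  positivity

lemma ll_sq (X p : ℕ) (hX : 0 ≤ Real.log (Real.log X)) : ll X p ^ 2 = (1 / (p : ℝ)) / Real.log (Real.log X) := by
  unfold ll
  rw [div_pow, div_pow, Real.sq_sqrt hX, Real.sq_sqrt (Nat.cast_nonneg p), one_pow]

lemma sqrt_tendsto : Tendsto (fun X : ℕ => Real.sqrt (Real.log (Real.log X))) atTop atTop :=
  Real.tendsto_sqrt_atTop.comp loglog_tendsto

/-- the sum of `p ^ (-3 / 2)` -/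
lemma summ_le : ∃ Z : ℝ, 0 < Z ∧ ∀ X : ℕ, ∑ p ∈ PP X, (1 / (p : ℝ)) * (1 / Real.sqrt p) ≤ Z := by
  obtain ⟨C, hC, h⟩ := summ
  refine ⟨C, hC, fun X => ?_⟩
  refine le_trans (le_of_eq (sum_congr rfl fun p _ => ?_)) (h (PP X) fun p hp => (mem_filter.1 hp).2)
  have h1 : (Real.sqrt (p : ℝ)) ^ 3 = Real.sqrt p * p := by
    have h2 := Real.mul_self_sqrt (Nat.cast_nonneg p : (0 : ℝ) ≤ p)
    calc (Real.sqrt (p : ℝ)) ^ 3 = Real.sqrt p * (Real.sqrt p * Real.sqrt p) := by ring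
      _ = _ := by rw [h2]
  rw [h1, div_mul_div_comm, one_mul, mul_comm (p : ℝ)]

lemma tm_mono {X : ℕ} (hX : 3 ≤ X) {s t : ℝ} (h : s ≤ t) : tm X s ≤ tm X t := by
  have hX0 : (3 : ℝ) ≤ X := by exact_mod_cast hX
  have hlog : 1 ≤ Real.log X := by
    rw [Real.le_log_iff_exp_le (by linarith)]
    linarith [Real.exp_one_lt_three]
  exact Nat.floor_le_floor (Real.exp_le_exp.2 (Real.rpow_le_rpow_of_exponent_le hlog h))

lemma tm_one {X : ℕ} (hX : 3 ≤ X) : tm X 1 = X := by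
  have hX0 : (3 : ℝ) ≤ X := by exact_mod_cast hX
  unfold tm
  rw [Real.rpow_one, Real.exp_log (by linarith), Nat.floor_natCast]

/-- the sum of the squares of the weights -/
lemma ll_sum (s : ℝ) (hs : 0 < s) : Tendsto (fun X : ℕ => ∑ p ∈ PP (tm X s), ll X p ^ 2) atTop (𝓝 s) := by
  obtain ⟨M₀, hM₀⟩ := Pool.Agent.Erdos456.Mert.mertens_inv
  have h1 : Tendsto (fun X : ℕ => s + (M₀ + 1) / Real.log (Real.log X)) atTop (𝓝 (s + 0)) :=
    tendsto_const_nhds.add (loglog_tendsto.const_div_atTop _)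
  have h2 : Tendsto (fun X : ℕ => s - (M₀ + 1) / Real.log (Real.log X)) atTop (𝓝 (s - 0)) :=
    tendsto_const_nhds.sub (loglog_tendsto.const_div_atTop _)
  rw [add_zero] at h1
  rw [sub_zero] at h2
  have key : ∀ᶠ X : ℕ in atTop, |∑ p ∈ PP (tm X s), ll X p ^ 2 - s| ≤ (M₀ + 1) / Real.log (Real.log X) := by
    filter_upwards [tm_large hs, loglog_tendsto.eventually_gt_atTop 0] with X hX hl
    have h3 := hM₀ (tm X s) hX.1
    have h4 : ∑ p ∈ PP (tm X s), ll X p ^ 2 = (∑ p ∈ PP (tm X s), 1 / (p : ℝ)) / Real.log (Real.log X) := by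
      rw [sum_div]
      exact sum_congr rfl fun p _ => ll_sq X p hl.le
    have h5 : (∑ p ∈ PP (tm X s), 1 / (p : ℝ)) / Real.log (Real.log X) - s =
        ((∑ p ∈ PP (tm X s), 1 / (p : ℝ)) - s * Real.log (Real.log X)) / Real.log (Real.log X) := by
      rw [sub_div, mul_div_cancel_right₀ _ hl.ne']
    rw [h4, h5, abs_div, abs_of_pos hl]
    refine div_le_div_of_nonneg_right ?_ hl.le
    have h6 := abs_sub_le (∑ p ∈ PP (tm X s), 1 / (p : ℝ)) (Real.log (Real.log (tm X s))) (s * Real.log (Real.log X))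
    have h7 : |∑ p ∈ PP (tm X s), 1 / (p : ℝ) - Real.log (Real.log (tm X s))| ≤ M₀ := h3
    linarith [hX.2]
  refine tendsto_of_tendsto_of_tendsto_of_le_of_le' h2 h1 ?_ ?_
  · exact key.mono fun X hX => by linarith [(abs_le.1 hX).1]
  · exact key.mono fun X hX => by linarith [(abs_le.1 hX).2]

variable {κ : Type} [Fintype κ] [DecidableEq κ]

section

variable (H : (p : ℕ) → (κ → ZMod p) → ℝ) (β p₀ : ℕ) (K : ℝ)
    (hK : 1 ≤ K) (hH : ∀ p : ℕ, p.Prime → ∀ u, |H p u| ≤ K * (p : ℝ) ^ β) (h1 : ∀ p : ℕ, p.Prime → p₀ ≤ p → |mn H p| ≤ K / p)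
    (h4 : ∀ p : ℕ, p.Prime → p₀ ≤ p → mn (fun p u => H p u ^ 4) p ≤ K)

include hK hH

lemma ll_one (h1 : ∀ p : ℕ, p.Prime → p₀ ≤ p → |mn H p| ≤ K / p) : ∃ M : ℝ, 0 < M ∧ ∀ p : ℕ, p.Prime → |mn H p| ≤ M * (1 / p) := by
  refine ⟨K + K * (p₀ : ℝ) ^ β * p₀, by positivity, fun p hp => ?_⟩
  have hp0 : (0 : ℝ) < p := by exact_mod_cast hp.pos
  have hp1 : (1 : ℝ) ≤ p := by exact_mod_cast hp.one_lt.le
  rw [mul_one_div, le_div_iff₀ hp0]
  by_cases h : p₀ ≤ p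
  · have h2 := h1 p hp h
    rw [le_div_iff₀ hp0] at h2
    have : 0 ≤ K * (p₀ : ℝ) ^ β * p₀ := by positivity
    linarith
  · rw [not_le] at h
    have : Fact p.Prime := ⟨hp⟩
    have hpp : (p : ℝ) ≤ p₀ := by exact_mod_cast h.le
    have h2 : |mn H p| ≤ K * (p₀ : ℝ) ^ β := by
      rw [mn_eq]
      exact av_abs_le _ _ fun u => (hH p hp u).trans (mul_le_mul_of_nonneg_left (pow_le_pow_left₀ hp0.le hpp β) (by linarith))
    calc |mn H p| * p ≤ (K * (p₀ : ℝ) ^ β) * p₀ := mul_le_mul h2 hpp hp0.le (by positivity)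
      _ ≤ _ := by linarith

lemma ll_two (h2 : ∀ p : ℕ, p.Prime → p₀ ≤ p → |mn (fun p u => H p u ^ 2) p - 1| ≤ K / Real.sqrt p) :
    ∃ M : ℝ, 0 < M ∧ ∀ p : ℕ, p.Prime → |mn (fun p u => H p u ^ 2) p - 1| ≤ M * (1 / Real.sqrt p) := by
  refine ⟨K + ((K * (p₀ : ℝ) ^ β) ^ 2 + 1) * p₀, by positivity, fun p hp => ?_⟩
  have hp0 : (0 : ℝ) < p := by exact_mod_cast hp.pos
  have hp1 : (1 : ℝ) ≤ p := by exact_mod_cast hp.one_lt.le
  have hs0 : 0 < Real.sqrt p := Real.sqrt_pos.2 hp0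
  rw [mul_one_div, le_div_iff₀ hs0]
  by_cases h : p₀ ≤ p
  · have h3 := h2 p hp h
    rw [le_div_iff₀ hs0] at h3
    have : 0 ≤ ((K * (p₀ : ℝ) ^ β) ^ 2 + 1) * p₀ := by positivity
    linarith
  · rw [not_le] at h
    have : Fact p.Prime := ⟨hp⟩
    have hpp : (p : ℝ) ≤ p₀ := by exact_mod_cast h.le
    have h3 : |mn (fun p u => H p u ^ 2) p - 1| ≤ (K * (p₀ : ℝ) ^ β) ^ 2 + 1 := by
      rw [mn_eq (fun p u => H p u ^ 2)]
      refine (abs_sub _ _).trans ?_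
      rw [abs_one]
      refine add_le_add (av_abs_le _ _ fun u => ?_) le_rfl
      rw [abs_pow]
      exact pow_le_pow_left₀ (abs_nonneg _) ((hH p hp u).trans (mul_le_mul_of_nonneg_left (pow_le_pow_left₀ hp0.le hpp β) (by linarith))) 2
    have h5 : Real.sqrt p ≤ p₀ := by
      refine le_trans ?_ hpp
      rw [Real.sqrt_le_left hp0.le]
      nlinarith
    calc |mn (fun p u => H p u ^ 2) p - 1| * Real.sqrt p ≤ ((K * (p₀ : ℝ) ^ β) ^ 2 + 1) * p₀ := mul_le_mul h3 h5 hs0.le (by positivity)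
      _ ≤ _ := by linarith

include h1 h4

/-- the conditions -/
theorem lin_ll : ∃ C₄ : ℝ, 0 ≤ C₄ ∧ ∀ n : ℕ, ∃ X₁ : ℕ, ∀ X : ℕ, X₁ ≤ X → ∀ (L : κ → ℕ), (∀ i, (X : ℝ) ^ X₁ ≤ L i) →
      Lin κ 2 C₄ (β + 1) n X L H (ll X) := by
  classical
  obtain ⟨M, hM0, g1⟩ := ll_one H β p₀ K hK hH h1
  obtain ⟨Z, hZ, hsum⟩ := summ_le
  have hK0 : 0 < K := by linarith
  refine ⟨K + (K * (p₀ : ℝ) ^ β) ^ 4, by positivity, fun n => ?_⟩
  have g4 : ∀ p : ℕ, p.Prime → mn (fun p u => H p u ^ 4) p ≤ K + (K * (p₀ : ℝ) ^ β) ^ 4 := fun p hp => by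
    have hp0 : (0 : ℝ) < p := by exact_mod_cast hp.pos
    by_cases h : p₀ ≤ p
    · have := h4 p hp h
      have h5 : 0 ≤ (K * (p₀ : ℝ) ^ β) ^ 4 := by positivity
      linarith
    · rw [not_le] at h
      have : Fact p.Prime := ⟨hp⟩
      have hpp : (p : ℝ) ≤ p₀ := by exact_mod_cast h.le
      rw [mn_eq (fun p u => H p u ^ 4)]
      have h3 := (abs_le.1 (av_abs_le (fun u => H p u ^ 4) ((K * (p₀ : ℝ) ^ β) ^ 4) fun u => by
        rw [abs_pow]
        exact pow_le_pow_left₀ (abs_nonneg _) ((hH p hp u).trans (mul_le_mul_of_nonneg_left (pow_le_pow_left₀ hp0.le hpp β) hK0.le)) 4)).2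
      linarith
  have e1 : ∀ᶠ X : ℕ in atTop, (M + 1) * Z * (n + 1) + 1 ≤ Real.sqrt (Real.log (Real.log X)) := sqrt_tendsto.eventually_ge_atTop _
  have e2 : ∀ᶠ X : ℕ in atTop, ∑ p ∈ PP X, ll X p ^ 2 ≤ 2 := by
    have h2 := (ll_sum 1 one_pos).eventually (gt_mem_nhds (by norm_num : (1 : ℝ) < 2))
    filter_upwards [h2, eventually_ge_atTop 3] with X hX h3
    rw [tm_one h3] at hX
    exact hX.le
  obtain ⟨X₀, hX₀⟩ := eventually_atTop.1 (e1.and e2)
  obtain ⟨k, hk⟩ := exists_nat_ge K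
  refine ⟨max (max X₀ n) (k + 2), fun X hX L hL => ?_⟩
  have hXX₀ : X₀ ≤ X := (le_max_left _ _).trans ((le_max_left _ _).trans hX)
  have hXk : k + 2 ≤ X := (le_max_right _ _).trans hX
  obtain ⟨hS, hsum2⟩ := hX₀ X hXX₀
  have hX2 : 2 ≤ X := by omega
  have hX1 : (1 : ℝ) ≤ X := by exact_mod_cast (by omega : 1 ≤ X)
  have hXK : K ≤ X := hk.trans (by exact_mod_cast (by omega : k ≤ X))
  obtain ⟨S, hSe⟩ : ∃ S : ℝ, S = Real.sqrt (Real.log (Real.log X)) := ⟨_, rfl⟩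
  rw [← hSe] at hS
  have hS1 : 1 ≤ S := by
    have : 0 ≤ (M + 1) * Z * (n + 1) := by positivity
    linarith
  have hS0 : 0 < S := by linarith
  have hSn : (M + 1) * Z / S ≤ 1 / (n + 1) := by
    rw [div_le_div_iff₀ hS0 (by positivity), one_mul]
    linarith
  have hpp : ∀ p ∈ PP X, p.Prime ∧ p ≤ X := fun p hp => ⟨(mem_filter.1 hp).2, (mem_Icc.1 (mem_filter.1 hp).1).2⟩
  have hll1 : ∀ p, ll X p ≤ 1 := by
    intro p
    unfold ll
    rw [← hSe, div_le_one hS0]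
    refine le_trans ?_ hS1
    rcases Nat.eq_zero_or_pos p with rfl | hp
    · simp
    · have hp1 : (1 : ℝ) ≤ Real.sqrt p := Real.one_le_sqrt.2 (by exact_mod_cast hp)
      rw [div_le_one (by linarith)]
      exact hp1
  refine ⟨hX2, fun i => (pow_le_pow_right₀ hX1 ((le_max_right _ _).trans (le_max_left _ _))).trans (hL i), ?_, ?_, hsum2, ?_, ?_, ?_⟩
  · intro p hp u
    obtain ⟨hpr, hpX⟩ := hpp p hp
    refine (hH p hpr u).trans ?_
    rw [pow_succ, mul_comm]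
    exact mul_le_mul (pow_le_pow_left₀ (Nat.cast_nonneg p) (by exact_mod_cast hpX) β) hXK hK0.le (by positivity)
  · intro p
    rw [abs_of_nonneg (ll_nonneg X p)]
    exact hll1 p
  · have h5 : ∀ p ∈ PP X, |ll X p| ^ 3 ≤ (1 / S) * ((1 / (p : ℝ)) * (1 / Real.sqrt p)) := by
      intro p hp
      have hp0 : (0 : ℝ) < p := by exact_mod_cast (hpp p hp).1.pos
      have hs0 : 0 < Real.sqrt p := Real.sqrt_pos.2 hp0
      have hss : Real.sqrt p * Real.sqrt p = p := Real.mul_self_sqrt hp0.le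
      rw [abs_of_nonneg (ll_nonneg X p)]
      unfold ll
      rw [← hSe]
      have h6 : ((1 / Real.sqrt (p : ℝ)) / S) ^ 3 = (1 / (Real.sqrt p * Real.sqrt p)) * (1 / Real.sqrt p) * (1 / S ^ 3) := by
        field_simp
      rw [h6, hss]
      have h7 : 1 / S ^ 3 ≤ 1 / S := one_div_le_one_div_of_le hS0 (le_self_pow₀ hS1 (by norm_num))
      have h8 : 0 ≤ (1 / (p : ℝ)) * (1 / Real.sqrt p) := by positivity
      nlinarith
    refine (sum_le_sum h5).trans ?_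
    rw [← mul_sum]
    refine le_trans ?_ hSn
    rw [one_div, inv_mul_eq_div]
    refine div_le_div_of_nonneg_right ((hsum X).trans ?_) hS0.le
    nlinarith
  · intro p hp
    exact g4 p (hpp p hp).1
  · have h5 : ∀ p ∈ PP X, |ll X p| * |mn H p| ≤ (M / S) * ((1 / (p : ℝ)) * (1 / Real.sqrt p)) := by
      intro p hp
      have h6 := g1 p (hpp p hp).1
      rw [abs_of_nonneg (ll_nonneg X p)]
      calc ll X p * |mn H p| ≤ ll X p * (M * (1 / p)) := mul_le_mul_of_nonneg_left h6 (ll_nonneg X p)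
        _ = _ := by
          unfold ll
          rw [← hSe]
          ring
    refine (sum_le_sum h5).trans ?_
    rw [← mul_sum]
    refine le_trans ?_ hSn
    rw [div_mul_eq_mul_div]
    refine div_le_div_of_nonneg_right ?_ hS0.le
    have h6 := hsum X
    nlinarith

open Classical in
/-- **the engine**, finite dimensional distributions -/
theorem eng_ll (h2 : ∀ p : ℕ, p.Prime → p₀ ≤ p → |mn (fun p u => H p u ^ 2) p - 1| ≤ K / Real.sqrt p)
    (I : Finset ℝ≥0) (hI : ∀ τ ∈ I, 0 < τ ∧ τ ≤ 1) (x : I → ℝ) (ε : ℝ) (hε : 0 < ε) :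
    ∃ X₁ : ℕ, ∀ X : ℕ, X₁ ≤ X → ∀ (N : κ → ℤ) (L : κ → ℕ), (∀ i, (X : ℝ) ^ X₁ ≤ L i) →
      |(((kbox N L).filter fun t => ∀ τ : I, ∑ p ∈ PP (tm X (τ : ℝ≥0)), ll X p * H p (fun i => (t i : ZMod p)) ≤ x τ).card : ℝ) /
        ∏ i, (L i : ℝ) - W I x| ≤ ε := by
  obtain ⟨C₄, hC₄, hlin⟩ := lin_ll H β p₀ K hK hH h1 h4
  obtain ⟨M, hM0, g2⟩ := ll_two H β p₀ K hK hH h2
  obtain ⟨Z, hZ, hsum⟩ := summ_le
  obtain ⟨n₀, hn₀⟩ := brownB (κ := κ) (C₂ := 2) (C₄ := C₄) (β := β + 1) (by norm_num) hC₄ (fun τ hτ => (hI τ hτ).1) x ε hε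
  have hn : (0 : ℝ) < n₀ + 1 := by positivity
  obtain ⟨X₀, hX₀⟩ := hlin n₀
  have e3 : ∀ᶠ X : ℕ in atTop, ∀ τ : I, |∑ p ∈ PP (tm X (τ : ℝ≥0)), ll X p ^ 2 - ((τ : ℝ≥0) : ℝ)| ≤ 1 / 2 * (1 / (n₀ + 1)) := by
    rw [eventually_all]
    intro τ
    have h0 := hI τ τ.2
    have h5 := Metric.tendsto_nhds.1 (ll_sum ((τ : ℝ≥0) : ℝ) (by exact_mod_cast h0.1)) (1 / 2 * (1 / (n₀ + 1))) (by positivity)
    refine h5.mono fun X hX => ?_
    rw [Real.dist_eq] at hX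
    exact hX.le
  have e4 : ∀ᶠ X : ℕ in atTop, M * Z * (2 * (n₀ + 1)) + 1 ≤ Real.log (Real.log X) := loglog_tendsto.eventually_ge_atTop _
  obtain ⟨X₂, hX₂⟩ := eventually_atTop.1 (e3.and e4)
  refine ⟨max (max X₀ X₂) 3, fun X hX N L hL => ?_⟩
  have hXX₀ : X₀ ≤ X := (le_max_left _ _).trans ((le_max_left _ _).trans hX)
  have hXX₂ : X₂ ≤ X := (le_max_right _ _).trans ((le_max_left _ _).trans hX)
  have hX3 : 3 ≤ X := (le_max_right _ _).trans hX
  have hX1 : (1 : ℝ) ≤ X := by exact_mod_cast (by omega : 1 ≤ X)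
  obtain ⟨hlog, hl⟩ := hX₂ X hXX₂
  have hl0 : 0 < Real.log (Real.log X) := by
    have : 0 ≤ M * Z * (2 * (n₀ + 1)) := by positivity
    linarith
  have hLin := hX₀ X hXX₀ L fun i => (pow_le_pow_right₀ hX1 ((le_max_left _ _).trans (le_max_left _ _))).trans (hL i)
  have hfl : ∀ τ : I, tm X (τ : ℝ≥0) ≤ X := fun τ => tm_le hX3 (by exact_mod_cast (hI τ τ.2).2)
  have hv : ∀ τ τ' : I, |∑ p ∈ PP (min (tm X (τ : ℝ≥0)) (tm X (τ' : ℝ≥0))), ll X p ^ 2 * mn (fun p u => H p u ^ 2) p -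
      ((min (τ : ℝ≥0) (τ' : ℝ≥0) : ℝ≥0) : ℝ)| ≤ 1 / (n₀ + 1) := by
    have key : ∀ τ : I, |∑ p ∈ PP (tm X (τ : ℝ≥0)), ll X p ^ 2 * mn (fun p u => H p u ^ 2) p -
        ((τ : ℝ≥0) : ℝ)| ≤ 1 / (n₀ + 1) := by
      intro τ
      have h5 : |∑ p ∈ PP (tm X (τ : ℝ≥0)), ll X p ^ 2 * mn (fun p u => H p u ^ 2) p -
          ∑ p ∈ PP (tm X (τ : ℝ≥0)), ll X p ^ 2| ≤ 1 / 2 * (1 / (n₀ + 1)) := by
        rw [← sum_sub_distrib]
        refine (abs_sum_le_sum_abs _ _).trans ?_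
        have h6 : ∀ p ∈ PP (tm X (τ : ℝ≥0)), |ll X p ^ 2 * mn (fun p u => H p u ^ 2) p - ll X p ^ 2| ≤
            (M / Real.log (Real.log X)) * ((1 / (p : ℝ)) * (1 / Real.sqrt p)) := fun p hp => by
          have h7 := g2 p (mem_filter.1 hp).2
          have h8 : ll X p ^ 2 * mn (fun p u => H p u ^ 2) p - ll X p ^ 2 =
              ll X p ^ 2 * (mn (fun p u => H p u ^ 2) p - 1) := by ring
          rw [h8, abs_mul, abs_of_nonneg (sq_nonneg (ll X p))]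
          calc ll X p ^ 2 * |mn (fun p u => H p u ^ 2) p - 1| ≤ ll X p ^ 2 * (M * (1 / Real.sqrt p)) :=
                mul_le_mul_of_nonneg_left h7 (sq_nonneg _)
            _ = _ := by
              rw [ll_sq X p hl0.le]
              ring
        refine (sum_le_sum h6).trans ?_
        rw [← mul_sum]
        have h7 := mul_le_mul_of_nonneg_left (hsum (tm X (τ : ℝ≥0))) (by positivity : 0 ≤ M / Real.log (Real.log X))
        refine h7.trans ?_
        rw [div_mul_eq_mul_div, div_le_iff₀ hl0]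
        have h8 : 1 / 2 * (1 / ((n₀ : ℝ) + 1)) * (M * Z * (2 * (n₀ + 1)) + 1) ≤ 1 / 2 * (1 / (n₀ + 1)) * Real.log (Real.log X) :=
          mul_le_mul_of_nonneg_left hl (by positivity)
        refine le_trans ?_ h8
        have h9 : 1 / 2 * (1 / ((n₀ : ℝ) + 1)) * (M * Z * (2 * (n₀ + 1)) + 1) = M * Z + 1 / 2 * (1 / (n₀ + 1)) := by
          field_simp
        rw [h9]
        have : 0 ≤ 1 / 2 * (1 / ((n₀ : ℝ) + 1)) := by positivity
        linarith
      have h6 := hlog τ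
      have h7 := abs_sub_le (∑ p ∈ PP (tm X (τ : ℝ≥0)), ll X p ^ 2 * mn (fun p u => H p u ^ 2) p)
        (∑ p ∈ PP (tm X (τ : ℝ≥0)), ll X p ^ 2) ((τ : ℝ≥0) : ℝ)
      linarith
    intro τ τ'
    rcases le_total (τ : ℝ≥0) (τ' : ℝ≥0) with h | h
    · rw [min_eq_left (tm_mono hX3 (by exact_mod_cast h)), min_eq_left h]
      exact key τ
    · rw [min_eq_right (tm_mono hX3 (by exact_mod_cast h)), min_eq_right h]
      exact key τ'
  exact hn₀ ⟨n₀, X, N, L, H, ll X, fun τ => tm X (τ : ℝ≥0), hLin, hfl, hv⟩ le_rfl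

/-- **tightness** -/
theorem tight_ll (ε : ℝ) (hε : 0 < ε) :
    ∃ m : ℕ, 1 ≤ m ∧ ∃ X₁ : ℕ, ∀ X : ℕ, X₁ ≤ X → ∀ (N : κ → ℤ) (L : κ → ℕ), (∀ i, (X : ℝ) ^ X₁ ≤ L i) →
      ∀ E : Finset (κ → ℤ), E ⊆ kbox N L → (∀ t ∈ E, ∃ σ τ : ℝ≥0, σ ≤ τ ∧ τ ≤ 1 ∧ (τ : ℝ) - σ ≤ 1 / m ∧
        ε < |∑ p ∈ PP (tm X τ), ll X p * H p (fun i => (t i : ZMod p)) - ∑ p ∈ PP (tm X σ), ll X p * H p (fun i => (t i : ZMod p))|) →
      (E.card : ℝ) ≤ ε * ∏ i, (L i : ℝ) := by
  classical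
  obtain ⟨C₄, hC₄, hlin⟩ := lin_ll H β p₀ K hK hH h1 h4
  obtain ⟨A, hA⟩ : ∃ A : ℝ, A = 16 * C₄ + 3 * (1 + C₄) ^ 2 + 1 := ⟨_, rfl⟩
  have hA0 : 0 < A := by
    rw [hA]
    positivity
  obtain ⟨m, hm⟩ := exists_nat_ge (100000 * A * 256 / ε ^ 5 + 1)
  have hm1 : 1 ≤ m := by
    have : 0 ≤ 100000 * A * 256 / ε ^ 5 := by positivity
    exact_mod_cast (by linarith : (1 : ℝ) ≤ m)
  have hm0 : (0 : ℝ) < m := by exact_mod_cast hm1
  obtain ⟨n, hn⟩ := tight_lin (κ := κ) 2 C₄ (β + 1) m hC₄ hm1 (ε / 4) (by positivity)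
  obtain ⟨X₁, hX₁⟩ := hlin n
  obtain ⟨a, ha⟩ : ∃ a : ℕ → ℕ → ℕ, ∀ X i, a X i = if i = 0 then 0 else tm X ((i : ℝ) / m) := ⟨_, fun _ _ => rfl⟩
  have hS : ∀ i ≤ m, Tendsto (fun X : ℕ => ∑ p ∈ PP (a X i), ll X p ^ 2) atTop (𝓝 ((i : ℝ) / m)) := by
    intro i hi
    rcases Nat.eq_zero_or_pos i with rfl | hi0
    · have h2 : ∀ X, PP (a X 0) = ∅ := by
        intro X
        rw [ha, if_pos rfl]
        unfold PP
        rw [filter_eq_empty_iff]
        intro p hp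
        rw [mem_Icc] at hp
        omega
      simp only [h2, sum_empty, Nat.cast_zero, zero_div]
      exact tendsto_const_nhds
    · have h2 : ∀ X, a X i = tm X ((i : ℝ) / m) := by
        intro X
        rw [ha, if_neg (by omega)]
      simp only [h2]
      exact ll_sum _ (by positivity)
  have hmono : ∀ X, 3 ≤ X → ∀ i, a X i ≤ a X (i + 1) := by
    intro X hX i
    rcases Nat.eq_zero_or_pos i with rfl | hi0
    · rw [ha, if_pos rfl]
      exact Nat.zero_le _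
    · rw [ha, ha, if_neg (by omega), if_neg (by omega)]
      refine tm_mono hX ?_
      push_cast
      gcongr
      linarith
  have hamX : ∀ X, 3 ≤ X → a X m = X := by
    intro X hX
    rw [ha, if_neg (by omega), div_self hm0.ne', tm_one hX]
  have haX : ∀ X, 3 ≤ X → ∀ i ≤ m, a X i ≤ X := by
    intro X hX i hi
    have hmn : Monotone (a X) := monotone_nat_of_le_succ (hmono X hX)
    exact (hmn hi).trans (hamX X hX).le
  have hev : ∀ᶠ X : ℕ in atTop, ∀ i ∈ range m, ∑ p ∈ (Ioc (a X i) (a X (i + 1))).filter Nat.Prime, ll X p ^ 2 ≤ 2 / m := by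
    rw [Filter.eventually_all_finset]
    intro i hi
    rw [mem_range] at hi
    have h2 := (hS (i + 1) (by omega)).sub (hS i (by omega))
    have h3 : ((i + 1 : ℕ) : ℝ) / m - (i : ℝ) / m = 1 / m := by
      push_cast
      ring
    rw [h3] at h2
    have h4 : (1 : ℝ) / m < 2 / m := by
      rw [div_lt_div_iff_of_pos_right hm0]
      norm_num
    filter_upwards [h2.eventually (gt_mem_nhds h4), eventually_ge_atTop 3] with X hX hX3
    refine le_trans (le_of_eq ?_) hX.le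
    have hsub : PP (a X i) ⊆ PP (a X (i + 1)) := filter_subset_filter _ (Icc_subset_Icc_right (hmono X hX3 i))
    rw [← sum_sdiff hsub, add_sub_cancel_right]
    refine sum_congr ?_ fun _ _ => rfl
    ext p
    unfold PP
    rw [Finset.mem_sdiff, mem_filter, mem_filter, mem_filter, mem_Icc, mem_Icc, mem_Ioc]
    constructor
    · rintro ⟨⟨g1, g2⟩, g3⟩
      exact ⟨⟨⟨g3.one_lt.le, g2⟩, g3⟩, fun g4 => by omega⟩
    · rintro ⟨⟨⟨g1, g2⟩, g3⟩, g4⟩
      have g5 : ¬ (p ≤ a X i) := fun g6 => g4 ⟨⟨g1, g6⟩, g3⟩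
      exact ⟨⟨by omega, g2⟩, g3⟩
  obtain ⟨X₂, hX₂⟩ := eventually_atTop.1 hev
  refine ⟨m, hm1, max (max X₁ X₂) 3, fun X hX N L hL E hEk hE => ?_⟩
  have hXX₁ : X₁ ≤ X := (le_max_left _ _).trans ((le_max_left _ _).trans hX)
  have hXX₂ : X₂ ≤ X := (le_max_right _ _).trans ((le_max_left _ _).trans hX)
  have hX3 : 3 ≤ X := (le_max_right _ _).trans hX
  have hX1' : (1 : ℝ) ≤ X := by exact_mod_cast (by omega : 1 ≤ X)
  have hLin := hX₁ X hXX₁ L fun i => (pow_le_pow_right₀ hX1' ((le_max_left _ _).trans (le_max_left _ _))).trans (hL i)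
  have h2 := hn n le_rfl X N L H (ll X) hLin (a X) (fun i _ => hmono X hX3 i) (haX X hX3) (fun i hi => hX₂ X hXX₂ i (mem_range.2 hi)) E hEk (by
    intro t ht
    by_contra hcon
    push Not at hcon
    obtain ⟨σ, τ, hσ, hτ, hd, hlt⟩ := hE t ht
    obtain ⟨S, hS⟩ : ∃ S : ℕ → ℝ, ∀ Y, S Y = ∑ p ∈ PP Y, ll X p * H p (fun i => (t i : ZMod p)) := ⟨_, fun _ => rfl⟩
    rw [← hS, ← hS] at hlt
    have hc : ∀ i < m, ∀ Y, a X i ≤ Y → Y ≤ a X (i + 1) → |S Y - S (a X i)| ≤ ε / 4 := by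
      intro i hi Y g1 g2
      rw [hS, hS]
      exact hcon i hi Y g1 g2
    have hσ0 : (0 : ℝ) ≤ σ := σ.2
    have hτ1 : (τ : ℝ) ≤ 1 := by exact_mod_cast hτ
    have hσ1 : (σ : ℝ) < 1 := by
      by_contra h
      rw [not_lt] at h
      have h3 : (σ : ℝ) ≤ τ := by exact_mod_cast hσ
      have h5 : (σ : ℝ) = τ := by linarith
      rw [h5, sub_self, abs_zero] at hlt
      linarith
    obtain ⟨i, hi⟩ : ∃ i : ℕ, i = ⌊(σ : ℝ) * m⌋₊ := ⟨_, rfl⟩
    have hi1 : (i : ℝ) ≤ (σ : ℝ) * m := by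
      rw [hi]
      exact Nat.floor_le (by positivity)
    have hi2 : (σ : ℝ) * m < i + 1 := by
      rw [hi]
      exact Nat.lt_floor_add_one _
    have him : i < m := by
      have h3 : (σ : ℝ) * m < m := by nlinarith
      exact_mod_cast (hi1.trans_lt h3 : (i : ℝ) < m)
    have f1 : a X i ≤ tm X σ := by
      rcases Nat.eq_zero_or_pos i with h0 | hi0
      · rw [ha, if_pos h0]
        exact Nat.zero_le _
      · rw [ha, if_neg (by omega)]
        refine tm_mono hX3 ?_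
        rw [div_le_iff₀ hm0]
        exact hi1
    have f2 : ∀ (ρ : ℝ) (j : ℕ), ρ * m ≤ (j + 1 : ℕ) → tm X ρ ≤ a X (j + 1) := by
      intro ρ j hρ
      rw [ha, if_neg (by omega)]
      refine tm_mono hX3 ?_
      rw [le_div_iff₀ hm0]
      exact hρ
    have f3 : tm X σ ≤ a X (i + 1) := f2 σ i (by push_cast; exact hi2.le)
    have hστ : tm X σ ≤ tm X τ := tm_mono hX3 (by exact_mod_cast hσ)
    have c1 := hc i him _ f1 f3
    rcases le_or_gt (tm X τ) (a X (i + 1)) with h | h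
    · have c2 := hc i him _ (f1.trans hστ) h
      have c3 := abs_sub_le (S (tm X τ)) (S (a X i)) (S (tm X σ))
      rw [abs_sub_comm (S (a X i))] at c3
      linarith
    · have h5 : i + 1 < m := by
        by_contra h6
        have h7 : i + 1 = m := by omega
        rw [h7, hamX X hX3] at h
        have := tm_le hX3 hτ1
        omega
      have h6 : tm X τ ≤ a X (i + 1 + 1) := by
        refine f2 τ (i + 1) ?_
        have h7 : ((τ : ℝ) - σ) * m ≤ 1 := by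
          have := mul_le_mul_of_nonneg_right hd hm0.le
          rwa [one_div, inv_mul_cancel₀ hm0.ne'] at this
        push_cast
        linarith
      have c2 := hc (i + 1) h5 _ h.le h6
      have c3 := hc i him (a X (i + 1)) (hmono X hX3 i) le_rfl
      have c4 := abs_sub_le (S (tm X τ)) (S (a X (i + 1))) (S (tm X σ))
      have c5 := abs_sub_le (S (a X (i + 1))) (S (a X i)) (S (tm X σ))
      rw [abs_sub_comm (S (a X i))] at c5
      linarith)
  refine h2.trans (mul_le_mul_of_nonneg_right ?_ (prod_nonneg fun i _ => Nat.cast_nonneg _))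
  rw [← hA, div_le_iff₀ (by positivity)]
  have h3 : 100000 * A * 256 / ε ^ 5 ≤ m := by linarith
  rw [div_le_iff₀ (by positivity)] at h3
  have h5 : ε * (m * (ε / 4) ^ 4) = m * ε ^ 5 / 256 := by ring
  rw [h5]
  linarith

end

end U345T
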