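import Pool.Agent.Q285.HS.Fam

/-!
# Hypersurfaces containing given linear subspaces of half the dimension: the base scheme, a smooth member
-/

set_option autoImplicit false
set_option linter.unusedSectionVars false

namespace U345L

open Finset MvPolynomial
open Q285HS (points fam Idx toFs toFs_inj)
open Pool.Agent.Y722.HS (Mon mev form IsSmooth)
open scoped LinearAlgebra.Projectivization

variable {m r : ℕ}

/-- the index of `x_i` -/
def xi (i : Fin (m + 1)) : Fin (2 * m + 1 + 1) := ⟨i, by omega⟩

/-- the index of `y_i` -/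
def yi (i : Fin (m + 1)) : Fin (2 * m + 1 + 1) := ⟨m + 1 + i, by omega⟩

/-- The forms that generate the ideal of the linear subspaces `x = a_k y`. -/
noncomputable def gens (m : ℕ) {r : ℕ} (a : Fin r → ℤ) : (Fin (m + 1) × Fin (m + 1)) ⊕ Fin (m + 1) → MvPolynomial (Fin (2 * m + 1 + 1)) ℤ
  | Sum.inl (i, j) => X (xi i) * X (yi j) - X (xi j) * X (yi i)
  | Sum.inr i => ∏ k, (X (xi i) - C (a k) * X (yi i))

/-- The degrees of the random forms. -/
def degs (m r δ : ℕ) : (Fin (m + 1) × Fin (m + 1)) ⊕ Fin (m + 1) → ℕ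
  | Sum.inl _ => δ - 2
  | Sum.inr _ => δ - r

lemma xi_inj : Function.Injective (xi (m := m)) := by
  intro i j h
  unfold xi at h
  rw [Fin.mk.injEq] at h
  exact Fin.ext h

lemma yi_inj : Function.Injective (yi (m := m)) := by
  intro i j h
  unfold yi at h
  rw [Fin.mk.injEq] at h
  exact Fin.ext (by omega)

lemma xi_ne_yi (i j : Fin (m + 1)) : xi i ≠ yi j := by
  intro h
  unfold xi yi at h
  rw [Fin.mk.injEq] at h
  omega

lemma xy_cases (l : Fin (2 * m + 1 + 1)) : (∃ i, l = xi i) ∨ ∃ i, l = yi i := by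
  by_cases h : l.1 < m + 1
  · exact Or.inl ⟨⟨l.1, h⟩, rfl⟩
  · refine Or.inr ⟨⟨l.1 - (m + 1), by omega⟩, Fin.ext ?_⟩
    unfold yi
    simp only
    omega

section field

variable {F : Type} [Field F]

/-- the vector `(b y, y)` -/
def lin (m : ℕ) (b : F) : (Fin (m + 1) → F) →ₗ[F] (Fin (2 * m + 1 + 1) → F) where
  toFun y l := if h : l.1 < m + 1 then b * y ⟨l.1, h⟩ else y ⟨l.1 - (m + 1), by omega⟩
  map_add' u v := by
    funext l
    simp only [Pi.add_apply]
    split_ifs <;> ring
  map_smul' c v := by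
    funext l
    simp only [Pi.smul_apply, smul_eq_mul, RingHom.id_apply]
    split_ifs <;> ring

lemma lin_xi (b : F) (y : Fin (m + 1) → F) (i : Fin (m + 1)) : lin m b y (xi i) = b * y i := by
  show (if h : (xi i).1 < m + 1 then b * y ⟨(xi i).1, h⟩ else y ⟨(xi i).1 - (m + 1), by omega⟩) = _
  have h : (xi i).1 < m + 1 := i.2
  rw [dif_pos h]
  rfl

lemma lin_yi (b : F) (y : Fin (m + 1) → F) (i : Fin (m + 1)) : lin m b y (yi i) = y i := by
  show (if h : (yi i).1 < m + 1 then b * y ⟨(yi i).1, h⟩ else y ⟨(yi i).1 - (m + 1), by omega⟩) = _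
  have h : ¬ (yi i).1 < m + 1 := by
    unfold yi
    simp only
    omega
  rw [dif_neg h]
  congr 1
  refine Fin.ext ?_
  unfold yi
  simp only
  omega

lemma lin_inj (b : F) : Function.Injective (lin m b) := by
  intro u v h
  funext i
  rw [← lin_yi b u i, ← lin_yi b v i, h]

variable (c : Fin r → F)

/-- all points of the linear subspaces -/
noncomputable def pts (z : Fin r × ℙ F (Fin (m + 1) → F)) : ℙ F (Fin (2 * m + 1 + 1) → F) :=
  Projectivization.map (lin m (c z.1)) (lin_inj (c z.1)) z.2

lemma pts_inj (hc : Function.Injective c) : Function.Injective (pts (m := m) c) := by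
  rintro ⟨k, P⟩ ⟨l, Q⟩ h
  induction P using Projectivization.ind with
  | _ v hv =>
  induction Q using Projectivization.ind with
  | _ w hw =>
  unfold pts at h
  dsimp only at h
  rw [Projectivization.map_mk, Projectivization.map_mk, Projectivization.mk_eq_mk_iff'] at h
  obtain ⟨s, hs⟩ := h
  have h1 : ∀ i, s * w i = v i := by
    intro i
    have := congrFun hs (yi i)
    rwa [Pi.smul_apply, lin_yi, lin_yi, smul_eq_mul] at this
  have h2 : ∀ i, s * (c l * w i) = c k * v i := by
    intro i
    have := congrFun hs (xi i)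
    rwa [Pi.smul_apply, lin_xi, lin_xi, smul_eq_mul] at this
  obtain ⟨i, hi⟩ : ∃ i, v i ≠ 0 := Function.ne_iff.mp hv
  have h3 : c l = c k := by
    have h4 := h2 i
    have h5 : s * (c l * w i) = c l * v i := by rw [← h1 i]; ring
    rw [h5] at h4
    exact mul_right_cancel₀ hi h4
  have h4 : k = l := hc h3.symm
  subst h4
  congr 1
  rw [Projectivization.mk_eq_mk_iff']
  exact ⟨s, funext h1⟩

lemma pts_range (P : ℙ F (Fin (2 * m + 1 + 1) → F)) :
    (∃ z, pts (m := m) c z = P) ↔ (∀ i j, P.rep (xi i) * P.rep (yi j) = P.rep (xi j) * P.rep (yi i)) ∧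
      ∀ i, ∏ k, (P.rep (xi i) - c k * P.rep (yi i)) = 0 := by
  constructor
  · rintro ⟨⟨k, Q⟩, rfl⟩
    induction Q using Projectivization.ind with
    | _ v hv =>
    unfold pts
    dsimp only
    rw [Projectivization.map_mk]
    obtain ⟨s, hs⟩ := Projectivization.exists_smul_eq_mk_rep F (lin m (c k) v) (fun h => hv (lin_inj (c k) (h.trans (map_zero _).symm)))
    have h1 : ∀ i, (Projectivization.mk F (lin m (c k) v) (fun h => hv (lin_inj (c k) (h.trans (map_zero _).symm)))).rep (xi i) =
        (s : F) * (c k * v i) := by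
      intro i
      rw [← hs, Pi.smul_apply, lin_xi]
      rfl
    have h2 : ∀ i, (Projectivization.mk F (lin m (c k) v) (fun h => hv (lin_inj (c k) (h.trans (map_zero _).symm)))).rep (yi i) =
        (s : F) * v i := by
      intro i
      rw [← hs, Pi.smul_apply, lin_yi]
      rfl
    refine ⟨fun i j => ?_, fun i => prod_eq_zero (mem_univ k) ?_⟩
    · rw [h1, h1, h2, h2]
      ring
    · rw [h1, h2]
      ring
  · rintro ⟨h1, h2⟩
    have h3 : ∃ j, P.rep (yi j) ≠ 0 := by
      by_contra hcon
      push Not at hcon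
      refine P.rep_nonzero (funext fun l => ?_)
      rcases xy_cases l with ⟨i, rfl⟩ | ⟨i, rfl⟩
      · have h4 := h2 i
        rw [prod_eq_zero_iff] at h4
        obtain ⟨k, _, hk⟩ := h4
        rw [hcon i, mul_zero, sub_zero] at hk
        exact hk
      · exact hcon i
    obtain ⟨j, hj⟩ := h3
    obtain ⟨k, _, hk⟩ := prod_eq_zero_iff.1 (h2 j)
    rw [sub_eq_zero] at hk
    have hx : ∀ i, P.rep (xi i) = c k * P.rep (yi i) := by
      intro i
      have h4 := h1 i j
      rw [hk] at h4
      refine mul_right_cancel₀ hj ?_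
      rw [h4]
      ring
    have hv : (fun i => P.rep (yi i)) ≠ 0 := fun h => hj (congrFun h j)
    refine ⟨(k, Projectivization.mk F (fun i => P.rep (yi i)) hv), ?_⟩
    unfold pts
    dsimp only
    rw [Projectivization.map_mk]
    have h5 : lin m (c k) (fun i => P.rep (yi i)) = P.rep := by
      funext l
      rcases xy_cases l with ⟨i, rfl⟩ | ⟨i, rfl⟩
      · rw [lin_xi, hx i]
      · rw [lin_yi]
    conv_rhs => rw [← P.mk_rep]
    rw [Projectivization.mk_eq_mk_iff']
    exact ⟨1, by rw [one_smul, h5]⟩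

end field

/-- the number of the points of the linear subspaces -/
theorem points_gens (a : Fin r → ℤ) (p : ℕ) [hp : Fact p.Prime] (ha : Function.Injective fun k => (a k : ZMod p)) :
    points p (∅ ∪ Set.range (gens m a)) = r * ∑ i ∈ range (m + 1), p ^ i := by
  unfold points
  rw [dif_pos hp.out]
  have h1 : ∀ P : ℙ (ZMod p) (Fin (2 * m + 1 + 1) → ZMod p), (∀ G ∈ (∅ ∪ Set.range (gens m a) : Set (MvPolynomial (Fin (2 * m + 1 + 1)) ℤ)),
      aeval P.rep G = 0) ↔ P ∈ Set.range (pts (m := m) fun k => (a k : ZMod p)) := by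
    intro P
    rw [Set.mem_range, pts_range]
    constructor
    · intro h
      refine ⟨fun i j => ?_, fun i => ?_⟩
      · have h2 := h _ (Or.inr ⟨Sum.inl (i, j), rfl⟩)
        unfold gens at h2
        simp only [map_sub, map_mul, aeval_X] at h2
        exact sub_eq_zero.1 h2
      · have h2 := h _ (Or.inr ⟨Sum.inr i, rfl⟩)
        unfold gens at h2
        simp only [map_prod, map_sub, map_mul, aeval_X, aeval_C] at h2
        simpa using h2
    · rintro ⟨h2, h3⟩ G hG
      rcases hG with hG | ⟨j, rfl⟩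
      · exact absurd hG (Set.notMem_empty _)
      · rcases j with ⟨i, j⟩ | i
        · unfold gens
          simp only [map_sub, map_mul, aeval_X]
          rw [h2 i j, sub_self]
        · unfold gens
          simp only [map_prod, map_sub, map_mul, aeval_X, aeval_C]
          simpa using h3 i
  rw [Nat.card_congr (Equiv.subtypeEquivRight h1)]
  have h2 : Nat.card {P // P ∈ Set.range (pts (m := m) fun k => (a k : ZMod p))} =
      Nat.card (Fin r × ℙ (ZMod p) (Fin (m + 1) → ZMod p)) :=
    Nat.card_range_of_injective (pts_inj (fun k => (a k : ZMod p)) ha)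
  rw [h2, Nat.card_prod, Nat.card_fin, Projectivization.card_of_finrank (n := m + 1) (ZMod p) _ (by simp), Nat.card_zmod]

end U345L
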