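import Pool.Agent.Q285.HS.Lln

/-!
# A maximal inequality for the fourth moments of partial sums
-/

set_option autoImplicit false
set_option linter.unusedSectionVars false

namespace U345T

open Finset
open Q282.CL
open Q285HS (bl)

lemma four_ineq (u v : ℝ) : (u + v) ^ 4 ≤ 42.875 * u ^ 4 + 2.744 * v ^ 4 := by
  have h1 : (u + v) ^ 2 ≤ 3.5 * u ^ 2 + 1.4 * v ^ 2 := by nlinarith [sq_nonneg (2.5 * u - v)]
  have h2 : (u + v) ^ 4 = ((u + v) ^ 2) ^ 2 := by ring
  have h3 := pow_le_pow_left₀ (sq_nonneg (u + v)) h1 2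
  rw [h2]
  refine h3.trans ?_
  nlinarith [sq_nonneg (2.5 * (3.5 * u ^ 2) - 1.4 * v ^ 2)]

lemma bl_self (x : ℕ → ℝ) (a : ℕ) : bl x a a = 0 := by
  simp [bl]

lemma bl_split (x : ℕ → ℝ) {a b c : ℕ} (h1 : a ≤ b) (h2 : b ≤ c) : bl x a c = bl x a b + bl x b c := by
  unfold bl
  rw [sum_Ico_consecutive _ h1 h2]

lemma bl_nonneg {u : ℕ → ℝ} (hu : ∀ j, 0 ≤ u j) (a b : ℕ) : 0 ≤ bl u a b := sum_nonneg fun j _ => hu j

/-- **the maximal inequality** -/
theorem max_gen {α : Type} [Fintype α] (x : α → ℕ → ℝ) (u : ℕ → ℝ) (hu : ∀ j, 0 ≤ u j) (C : ℝ) (hC : 0 ≤ C)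
    (hE : ∀ a b : ℕ, a < b → av (fun t => bl (x t) a b ^ 4) ≤ C * bl u a b ^ 2) (n : ℕ) :
    ∀ a : ℕ, ∃ M : α → ℝ, (∀ t, ∀ k ≤ n, bl (x t) a (a + k) ^ 4 ≤ M t) ∧ av M ≤ 670 * C * bl u a (a + n) ^ 2 := by
  classical
  induction n using Nat.strong_induction_on with
  | _ n ih =>
    intro a
    rcases Nat.eq_zero_or_pos n with rfl | hn
    · refine ⟨fun _ => 0, fun t k hk => ?_, ?_⟩
      · have : k = 0 := by omega
        subst this
        rw [add_zero, bl_self]
        norm_num
      · have : av (fun _ : α => (0 : ℝ)) = 0 := by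
          unfold av
          simp
        rw [this]
        positivity
    · obtain ⟨U, hU⟩ : ∃ U : ℝ, U = bl u a (a + n) := ⟨_, rfl⟩
      have hU0 : 0 ≤ U := by
        rw [hU]
        exact bl_nonneg hu _ _
      obtain ⟨k, hk, hk1, hk2⟩ : ∃ k, k < n ∧ bl u a (a + k) ≤ U / 2 ∧ bl u (a + k + 1) (a + n) ≤ U / 2 := by
        have hex : ∃ k, k < n ∧ bl u a (a + k) ≤ U / 2 := ⟨0, hn, by
          rw [add_zero, bl_self]
          positivity⟩
        obtain ⟨k, hk⟩ : ∃ k, k = Nat.findGreatest (fun k => bl u a (a + k) ≤ U / 2) (n - 1) := ⟨_, rfl⟩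
        have hkP : bl u a (a + k) ≤ U / 2 := by
          rw [hk]
          refine Nat.findGreatest_spec (P := fun k => bl u a (a + k) ≤ U / 2) (Nat.zero_le (n - 1)) ?_
          rw [add_zero, bl_self]
          positivity
        have hkn : k ≤ n - 1 := by
          rw [hk]
          exact Nat.findGreatest_le _
        refine ⟨k, by omega, hkP, ?_⟩
        rcases Nat.lt_or_ge k (n - 1) with h | h
        · have h1 : ¬ bl u a (a + (k + 1)) ≤ U / 2 := by
            rw [hk] at h ⊢
            exact Nat.findGreatest_is_greatest (P := fun k => bl u a (a + k) ≤ U / 2) (Nat.lt_succ_self _) (by omega)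
          rw [not_le] at h1
          have h2 := bl_split u (show a ≤ a + (k + 1) by omega) (show a + (k + 1) ≤ a + n by omega)
          rw [← hU] at h2
          rw [add_assoc]
          linarith
        · have h1 : a + k + 1 = a + n := by omega
          rw [h1, bl_self]
          positivity
      obtain ⟨M₁, hM₁, hM₁'⟩ := ih k hk a
      obtain ⟨M₂, hM₂, hM₂'⟩ := ih (n - (k + 1)) (by omega) (a + k + 1)
      have hM₁0 : ∀ t, 0 ≤ M₁ t := fun t => by
        have := hM₁ t 0 (Nat.zero_le _)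
        rw [add_zero, bl_self] at this
        norm_num at this
        exact this
      have hM₂0 : ∀ t, 0 ≤ M₂ t := fun t => by
        have := hM₂ t 0 (Nat.zero_le _)
        rw [add_zero, bl_self] at this
        norm_num at this
        exact this
      have e1 : a + k + 1 + (n - (k + 1)) = a + n := by omega
      rw [e1] at hM₂'
      refine ⟨fun t => M₁ t + (2.744 * M₂ t + 42.875 * bl (x t) a (a + k + 1) ^ 4), fun t j hj => ?_, ?_⟩
      · have h4 : 0 ≤ bl (x t) a (a + k + 1) ^ 4 := by positivity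
        have h5 := hM₁0 t
        have h6 := hM₂0 t
        rcases Nat.lt_or_ge k j with h | h
        · obtain ⟨i, rfl⟩ : ∃ i, j = k + 1 + i := ⟨j - (k + 1), by omega⟩
          have h1 : bl (x t) a (a + (k + 1 + i)) = bl (x t) a (a + k + 1) + bl (x t) (a + k + 1) (a + k + 1 + i) := by
            rw [bl_split (x t) (show a ≤ a + k + 1 by omega) (show a + k + 1 ≤ a + (k + 1 + i) by omega)]
            congr 2
            omega
          rw [h1]
          have h2 := four_ineq (bl (x t) a (a + k + 1)) (bl (x t) (a + k + 1) (a + k + 1 + i))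
          have h3 := hM₂ t i (by omega)
          linarith
        · have h3 := hM₁ t j h
          linarith
      · rw [av_add, av_add, av_mul, av_mul]
        have h1 := hE a (a + k + 1) (by omega)
        have h2 : bl u a (a + k + 1) ≤ U := by
          rw [hU, bl_split u (show a ≤ a + k + 1 by omega) (show a + k + 1 ≤ a + n by omega)]
          have := bl_nonneg hu (a + k + 1) (a + n)
          linarith
        have h3 : bl u a (a + k + 1) ^ 2 ≤ U ^ 2 := pow_le_pow_left₀ (bl_nonneg hu _ _) h2 2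
        have h4 : bl u a (a + k) ^ 2 ≤ (U / 2) ^ 2 := pow_le_pow_left₀ (bl_nonneg hu _ _) hk1 2
        have h5 : bl u (a + k + 1) (a + n) ^ 2 ≤ (U / 2) ^ 2 := pow_le_pow_left₀ (bl_nonneg hu _ _) hk2 2
        have h6 : av M₁ ≤ 670 * C * (U / 2) ^ 2 := hM₁'.trans (mul_le_mul_of_nonneg_left h4 (by positivity))
        have h7 : av M₂ ≤ 670 * C * (U / 2) ^ 2 := hM₂'.trans (mul_le_mul_of_nonneg_left h5 (by positivity))
        have h8 : av (fun t => bl (x t) a (a + k + 1) ^ 4) ≤ C * U ^ 2 := h1.trans (mul_le_mul_of_nonneg_left h3 hC)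
        rw [← hU]
        have h9 : 0 ≤ C * U ^ 2 := by positivity
        have h10 : 670 * C * (U / 2) ^ 2 = 167.5 * (C * U ^ 2) := by ring
        rw [h10] at h6 h7
        have h11 : 670 * C * U ^ 2 = 670 * (C * U ^ 2) := by ring
        rw [h11]
        linarith

/-- the inequality of Markov -/
lemma markov {α : Type} [Fintype α] [DecidableEq α] [Nonempty α] (M : α → ℝ) (hM : ∀ t, 0 ≤ M t) (B c : ℝ) (hB : av M ≤ B) (hc : 0 < c) (E : Finset α)
    (hE : ∀ t ∈ E, c ≤ M t) : (E.card : ℝ) ≤ B / c * Fintype.card α := by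
  have h0 : (0 : ℝ) < Fintype.card α := by exact_mod_cast Fintype.card_pos
  have h1 : c * E.card ≤ ∑ t, M t := by
    calc c * E.card = ∑ _t ∈ E, c := by rw [sum_const, nsmul_eq_mul, mul_comm]
      _ ≤ ∑ t ∈ E, M t := sum_le_sum hE
      _ ≤ ∑ t, M t := sum_le_sum_of_subset_of_nonneg (subset_univ _) fun t _ _ => hM t
  have h2 : ∑ t, M t ≤ B * Fintype.card α := by
    unfold av at hB
    rwa [div_le_iff₀ h0] at hB
  rw [div_mul_eq_mul_div, le_div_iff₀ hc]
  linarith

end U345T
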