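import Pool.Agent.U345.Four
import Pool.Agent.U345.Max

/-!
# Tightness of the partial sums over primes of functions of the residues
-/

set_option autoImplicit false
set_option linter.unusedSectionVars false

namespace U345T

open Finset Filter
open scoped Topology
open Q282.CL
open Q282.BP (PP)
open Q282.GK (kbox)
open Q285HS (bl Lin Wgt gf wgt_one wgt_sf wgt_inv wgt_cube gf_tendsto)
open Q285NG (tail_small av_abs_le)

variable {κ : Type} [Fintype κ] [DecidableEq κ]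

lemma av_sq_le {α : Type} [Fintype α] [Nonempty α] (f : α → ℝ) : av f ^ 2 ≤ av (fun u => f u ^ 2) := by
  have h1 : 0 ≤ av (fun u => (f u - av f) ^ 2) := av_nonneg fun u => sq_nonneg _
  have h2 : (fun u => (f u - av f) ^ 2) = fun u => f u ^ 2 - ((2 * av f) * f u - av f ^ 2) := by
    funext u
    ring
  rw [h2, av_sub, av_sub, av_mul, av_const] at h1
  linarith

/-- the terms -/
noncomputable def xs (X : ℕ) (H : (p : ℕ) → (κ → ZMod p) → ℝ) (w : ℕ → ℝ) (t : κ → ℤ) (p : ℕ) : ℝ :=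
  if p ∈ PP X then w p * (H p (fun i => (t i : ZMod p)) - mn H p) else 0

lemma bl_PP (X a b : ℕ) (f : ℕ → ℝ) : bl (fun p => if p ∈ PP X then f p else 0) a b = ∑ p ∈ PP X, if a ≤ p ∧ p < b then f p else 0 := by
  unfold bl
  rw [← sum_filter, ← sum_filter]
  refine sum_congr ?_ fun _ _ => rfl
  ext p
  constructor
  · intro h
    obtain ⟨h1, h2⟩ := mem_filter.1 h
    exact mem_filter.2 ⟨h2, mem_Ico.1 h1⟩
  · intro h
    obtain ⟨h1, h2⟩ := mem_filter.1 h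
    exact mem_filter.2 ⟨mem_Ico.2 h2, h1⟩

lemma bl_xs (X : ℕ) (H : (p : ℕ) → (κ → ZMod p) → ℝ) (w : ℕ → ℝ) (t : κ → ℤ) (a b : ℕ) :
    bl (xs X H w t) a b = ∑ p ∈ PP X, (if a ≤ p ∧ p < b then w p else 0) * (H p (fun i => (t i : ZMod p)) - mn H p) := by
  have h1 := bl_PP X a b fun p => w p * (H p (fun i => (t i : ZMod p)) - mn H p)
  refine Eq.trans h1 (sum_congr rfl fun p _ => ?_)
  split_ifs <;> ring

/-- the fourth moments of the blocks -/
theorem blocks (C₂ C₄ : ℝ) (β m : ℕ) (hC₄ : 0 ≤ C₄) (hm : 1 ≤ m) : ∃ n₀ : ℕ, ∀ n : ℕ, n₀ ≤ n →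
    ∀ (X : ℕ) (N : κ → ℤ) (L : κ → ℕ) (H : (p : ℕ) → (κ → ZMod p) → ℝ) (lam : ℕ → ℝ), Lin κ C₂ C₄ β n X L H lam →
    ∀ a b : ℕ, a < b →
      av (fun t : kbox N L => bl (xs X H lam (t : κ → ℤ)) a b ^ 4) ≤
        (16 * C₄ + 3 * (1 + C₄) ^ 2 + 1) * bl (fun p => (if p ∈ PP X then lam p ^ 2 else 0) + 1 / (m * X)) a b ^ 2 := by
  classical
  obtain ⟨n₁, hn₁⟩ := tail_small (Fintype.card κ) (4 + 4 * β + 2) 4 (2 ^ 4) (1 / (m : ℝ) ^ 2) (by positivity) (by positivity)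
  refine ⟨n₁, fun n hn X N L H lam hD a b hab => ?_⟩
  have hm0 : (0 : ℝ) < m := by exact_mod_cast hm
  have hX2 : (2 : ℝ) ≤ X := by exact_mod_cast hD.hX
  have hX0 : (0 : ℝ) < X := by linarith
  have hXn : (0 : ℝ) < (X : ℝ) ^ n := by positivity
  have hPP : ∀ p ∈ PP X, p.Prime := fun p hp => (mem_filter.1 hp).2
  obtain ⟨w, hw⟩ : ∃ w : ℕ → ℝ, w = fun p => if a ≤ p ∧ p < b then lam p else 0 := ⟨_, rfl⟩
  have hwl : ∀ p, |w p| ≤ |lam p| := by
    intro p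
    rw [hw]
    dsimp only
    split_ifs
    · exact le_rfl
    · rw [abs_zero]
      exact abs_nonneg _
  have h1 := four_k X H w (2 * (X : ℝ) ^ β) (by
    intro p hp u
    have : Fact p.Prime := ⟨hPP p hp⟩
    have h1 : |mn H p| ≤ (X : ℝ) ^ β := by
      rw [mn_eq]
      exact abs_av_le_const (hD.hH p hp)
    have h2 := hD.hH p hp u
    rw [abs_mul]
    have h3 : |w p| ≤ 1 := (hwl p).trans (hD.hl p)
    have h4 : |H p u - mn H p| ≤ 2 * (X : ℝ) ^ β := (abs_sub _ _).trans (by linarith)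
    calc |w p| * |H p u - mn H p| ≤ 1 * (2 * (X : ℝ) ^ β) := mul_le_mul h3 h4 (abs_nonneg _) (by norm_num)
      _ = _ := by ring) ((X : ℝ) ^ n) hXn N L hD.hL
  have e1 : (fun t : kbox N L => bl (xs X H lam (t : κ → ℤ)) a b ^ 4) =
      fun t : kbox N L => (∑ p ∈ PP X, w p * (H p (fun i => ((t : κ → ℤ) i : ZMod p)) - mn H p)) ^ 4 := by
    funext t
    rw [bl_xs X H lam t a b, hw]
  rw [e1]
  refine h1.trans ?_
  obtain ⟨V, hV⟩ : ∃ V : ℝ, V = ∑ p ∈ PP X, w p ^ 2 := ⟨_, rfl⟩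
  have hV0 : 0 ≤ V := by
    rw [hV]
    exact sum_nonneg fun p _ => sq_nonneg _
  obtain ⟨θ, hθ⟩ : ∃ θ : ℝ, θ = 1 / (m * X) := ⟨_, rfl⟩
  have hθ0 : 0 < θ := by
    rw [hθ]
    positivity
  rw [← hθ]
  have hU : V + θ ≤ bl (fun p => (if p ∈ PP X then lam p ^ 2 else 0) + θ) a b := by
    have h2 : V = bl (fun p => if p ∈ PP X then lam p ^ 2 else 0) a b := by
      rw [bl_PP, hV, hw]
      refine sum_congr rfl fun p _ => ?_
      dsimp only
      split_ifs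
      · rfl
      · norm_num
    rw [h2]
    unfold bl
    rw [sum_add_distrib, sum_const, nsmul_eq_mul]
    have h3 : (1 : ℝ) ≤ (Ico a b).card := by
      rw [Nat.card_Ico]
      exact_mod_cast (by omega : 1 ≤ b - a)
    nlinarith
  have hU2 : V ^ 2 + θ ^ 2 ≤ bl (fun p => (if p ∈ PP X then lam p ^ 2 else 0) + θ) a b ^ 2 := by
    have h2 : (V + θ) ^ 2 ≤ bl (fun p => (if p ∈ PP X then lam p ^ 2 else 0) + θ) a b ^ 2 := pow_le_pow_left₀ (by positivity) hU 2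
    nlinarith
  -- the local moments
  have hm2 : ∀ p ∈ PP X, mn H p ^ 2 ≤ mn (fun p u => H p u ^ 2) p ∧ mn (fun p u => H p u ^ 2) p ≤ 1 + C₄ ∧
      mn (fun p u => (H p u - mn H p) ^ 4) p ≤ 16 * C₄ := by
    intro p hp
    have : Fact p.Prime := ⟨hPP p hp⟩
    have h4 := hD.h4 p hp
    rw [mn_eq (fun p u => H p u ^ 4)] at h4
    rw [mn_eq (fun p u => H p u ^ 2), mn_eq (fun p u => (H p u - mn H p) ^ 4)]
    rw [mn_eq H]
    have h5 := av_sq_le (H p)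
    have h6 : av (fun u => H p u ^ 2) ^ 2 ≤ av (fun u => H p u ^ 4) := by
      have h7 := av_sq_le (fun u => H p u ^ 2)
      have h8 : (fun u => (H p u ^ 2) ^ 2) = fun u => H p u ^ 4 := by
        funext u
        ring
      rwa [h8] at h7
    have h7 : 0 ≤ av (fun u => H p u ^ 2) := av_nonneg fun u => sq_nonneg _
    refine ⟨h5, ?_, ?_⟩
    · nlinarith
    · have h8 : ∀ u, (H p u - av (H p)) ^ 4 ≤ 8 * H p u ^ 4 + 8 * av (H p) ^ 4 := by
        intro u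
        obtain ⟨y, hy⟩ : ∃ y : ℝ, y = H p u := ⟨_, rfl⟩
        obtain ⟨z, hz⟩ : ∃ z : ℝ, z = av (H p) := ⟨_, rfl⟩
        rw [← hy, ← hz]
        have g1 : (y - z) ^ 2 ≤ 2 * y ^ 2 + 2 * z ^ 2 := by nlinarith [sq_nonneg (y + z)]
        have g2 := pow_le_pow_left₀ (sq_nonneg (y - z)) g1 2
        have g3 : (y - z) ^ 4 = ((y - z) ^ 2) ^ 2 := by ring
        rw [g3]
        nlinarith [sq_nonneg (y ^ 2 - z ^ 2)]
      refine (av_mono h8).trans ?_
      rw [av_add, av_mul, av_const]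
      have h9 : av (H p) ^ 4 ≤ av (fun u => H p u ^ 4) := by
        have g1 : av (H p) ^ 4 = (av (H p) ^ 2) ^ 2 := by ring
        rw [g1]
        exact (pow_le_pow_left₀ (sq_nonneg _) h5 2).trans h6
      linarith
  have hw2 : ∀ p, w p ^ 2 ≤ 1 := by
    intro p
    have h2 := (hwl p).trans (hD.hl p)
    rw [← sq_abs]
    nlinarith [abs_nonneg (w p)]
  have s1 : ∑ p ∈ PP X, w p ^ 4 * mn (fun p u => (H p u - mn H p) ^ 4) p ≤ 16 * C₄ * V ^ 2 := by
    have h2 : ∀ p ∈ PP X, w p ^ 4 * mn (fun p u => (H p u - mn H p) ^ 4) p ≤ 16 * C₄ * V * w p ^ 2 := by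
      intro p hp
      have h3 : w p ^ 2 ≤ V := by
        rw [hV]
        exact single_le_sum (f := fun p => w p ^ 2) (fun i _ => sq_nonneg _) hp
      have h4 : w p ^ 4 ≤ V * w p ^ 2 := by
        have h5 : w p ^ 4 = w p ^ 2 * w p ^ 2 := by ring
        rw [h5]
        exact mul_le_mul_of_nonneg_right h3 (sq_nonneg _)
      calc w p ^ 4 * mn (fun p u => (H p u - mn H p) ^ 4) p ≤ w p ^ 4 * (16 * C₄) :=
            mul_le_mul_of_nonneg_left (hm2 p hp).2.2 (by positivity)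
        _ ≤ (V * w p ^ 2) * (16 * C₄) := mul_le_mul_of_nonneg_right h4 (by positivity)
        _ = _ := by ring
    refine (sum_le_sum h2).trans ?_
    rw [← mul_sum, ← hV]
    exact le_of_eq (by ring)
  have s2 : (∑ p ∈ PP X, w p ^ 2 * vr H p) ^ 2 ≤ (1 + C₄) ^ 2 * V ^ 2 := by
    have h2 : ∀ p ∈ PP X, 0 ≤ vr H p ∧ vr H p ≤ 1 + C₄ := by
      intro p hp
      obtain ⟨g1, g2, _⟩ := hm2 p hp
      unfold vr
      constructor
      · linarith
      · have := sq_nonneg (mn H p)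
        linarith
    have h3 : 0 ≤ ∑ p ∈ PP X, w p ^ 2 * vr H p := sum_nonneg fun p hp => mul_nonneg (sq_nonneg _) (h2 p hp).1
    have h4 : ∑ p ∈ PP X, w p ^ 2 * vr H p ≤ (1 + C₄) * V := by
      rw [hV, mul_sum]
      refine sum_le_sum fun p hp => ?_
      rw [mul_comm]
      exact mul_le_mul_of_nonneg_right (h2 p hp).2 (sq_nonneg _)
    calc (∑ p ∈ PP X, w p ^ 2 * vr H p) ^ 2 ≤ ((1 + C₄) * V) ^ 2 := pow_le_pow_left₀ h3 h4 2
      _ = _ := by ring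
  have s3 : (X : ℝ) ^ 4 * ((2 * (X : ℝ) ^ β) ^ 4 * (Real.exp (Fintype.card κ * (X : ℝ) ^ 4 / (X : ℝ) ^ n) - 1)) ≤ θ ^ 2 := by
    have h2 := hn₁ n hn X hD.hX
    have h3 : (X : ℝ) ^ (4 + 4 * β + 2) = (X : ℝ) ^ 2 * ((X : ℝ) ^ 4 * ((X : ℝ) ^ β) ^ 4) := by
      rw [← pow_mul, ← pow_add, ← pow_add]
      congr 1
      ring
    rw [h3] at h2
    have h4 : θ ^ 2 = 1 / (m : ℝ) ^ 2 / (X : ℝ) ^ 2 := by
      rw [hθ]
      field_simp
    rw [h4, le_div_iff₀ (by positivity)]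
    refine le_trans (le_of_eq ?_) h2
    ring
  have h9 : 0 ≤ θ ^ 2 := sq_nonneg _
  have h10 : 0 ≤ V ^ 2 := sq_nonneg _
  have h11 : 16 * C₄ * V ^ 2 + 3 * ((1 + C₄) ^ 2 * V ^ 2) + θ ^ 2 ≤ (16 * C₄ + 3 * (1 + C₄) ^ 2 + 1) * (V ^ 2 + θ ^ 2) := by
    have h12 : 0 ≤ (16 * C₄ + 3 * (1 + C₄) ^ 2) * θ ^ 2 := by positivity
    nlinarith
  have h12 : (16 * C₄ + 3 * (1 + C₄) ^ 2 + 1) * (V ^ 2 + θ ^ 2) ≤
      (16 * C₄ + 3 * (1 + C₄) ^ 2 + 1) * bl (fun p => (if p ∈ PP X then lam p ^ 2 else 0) + θ) a b ^ 2 :=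
    mul_le_mul_of_nonneg_left hU2 (by positivity)
  linarith

/-- **tightness**, for all blocks -/
theorem tight_lin (C₂ C₄ : ℝ) (β m : ℕ) (hC₄ : 0 ≤ C₄) (hm : 1 ≤ m) (ε : ℝ) (hε : 0 < ε) : ∃ n₀ : ℕ, ∀ n : ℕ, n₀ ≤ n →
    ∀ (X : ℕ) (N : κ → ℤ) (L : κ → ℕ) (H : (p : ℕ) → (κ → ZMod p) → ℝ) (lam : ℕ → ℝ), Lin κ C₂ C₄ β n X L H lam →
    ∀ a : ℕ → ℕ, (∀ i < m, a i ≤ a (i + 1)) → (∀ i ≤ m, a i ≤ X) →
      (∀ i < m, ∑ p ∈ (Ioc (a i) (a (i + 1))).filter Nat.Prime, lam p ^ 2 ≤ 2 / m) →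
      ∀ E : Finset (κ → ℤ), E ⊆ kbox N L → (∀ t ∈ E, ∃ i < m, ∃ Y : ℕ, a i ≤ Y ∧ Y ≤ a (i + 1) ∧
        ε < |∑ p ∈ PP Y, lam p * H p (fun i => (t i : ZMod p)) - ∑ p ∈ PP (a i), lam p * H p (fun i => (t i : ZMod p))|) →
      (E.card : ℝ) ≤ 100000 * (16 * C₄ + 3 * (1 + C₄) ^ 2 + 1) / (m * ε ^ 4) * ∏ i, (L i : ℝ) := by
  classical
  obtain ⟨n₁, hn₁⟩ := blocks (κ := κ) C₂ C₄ β m hC₄ hm
  obtain ⟨n₂, hn₂⟩ := exists_nat_ge (2 / ε)
  refine ⟨max n₁ n₂, fun n hn X N L H lam hD a ha haX ha2 E hEk hE => ?_⟩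
  have hb := hn₁ n ((le_max_left _ _).trans hn) X N L H lam hD
  obtain ⟨A, hA⟩ : ∃ A : ℝ, A = 16 * C₄ + 3 * (1 + C₄) ^ 2 + 1 := ⟨_, rfl⟩
  have hA0 : 0 ≤ A := by
    rw [hA]
    positivity
  rw [← hA] at hb ⊢
  have hm0 : (0 : ℝ) < m := by exact_mod_cast hm
  have hX2 : (2 : ℝ) ≤ X := by exact_mod_cast hD.hX
  have hX0 : (0 : ℝ) < X := by linarith
  obtain ⟨u, hu⟩ : ∃ u : ℕ → ℝ, u = fun p => (if p ∈ PP X then lam p ^ 2 else 0) + 1 / (m * X) := ⟨_, rfl⟩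
  rw [← hu] at hb
  have hu0 : ∀ p, 0 ≤ u p := by
    intro p
    rw [hu]
    dsimp only
    split_ifs <;> positivity
  have hL0 : ∀ i, 0 < L i := fun i => by
    have h1 : (0 : ℝ) < (X : ℝ) ^ n := by positivity
    exact_mod_cast h1.trans_le (hD.hL i)
  have hne : Nonempty (kbox N L) := kbox_nonempty hL0
  have hcard : (Fintype.card (kbox N L) : ℝ) = ∏ i, (L i : ℝ) := by
    rw [Fintype.card_coe]
    unfold kbox
    rw [Fintype.card_piFinset]
    push_cast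
    refine prod_congr rfl fun i _ => ?_
    rw [Int.card_Ico, add_sub_cancel_left, Int.toNat_natCast]
  choose M hM1 hM2 using fun i : ℕ => max_gen (fun t : kbox N L => xs X H lam (t : κ → ℤ)) u hu0 A hA0 hb (a (i + 1) - a i) (a i + 1)
  have hM0 : ∀ i t, 0 ≤ M i t := fun i t => by
    have h1 := hM1 i t 0 (Nat.zero_le _)
    rw [add_zero, bl_self] at h1
    norm_num at h1
    exact h1
  have hmean : ∀ Y Y' : ℕ, Y ≤ Y' → Y' ≤ X → |∑ p ∈ PP Y', lam p * mn H p - ∑ p ∈ PP Y, lam p * mn H p| ≤ ε / 2 := by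
    intro Y Y' hY hY'
    have hsub : PP Y ⊆ PP Y' := filter_subset_filter _ (Icc_subset_Icc_right hY)
    have hsub' : PP Y' ⊆ PP X := filter_subset_filter _ (Icc_subset_Icc_right hY')
    rw [← sum_sdiff hsub, add_sub_cancel_right]
    refine (abs_sum_le_sum_abs _ _).trans ?_
    have h1 : ∑ p ∈ PP Y' \ PP Y, |lam p * mn H p| ≤ ∑ p ∈ PP X, |lam p| * |mn H p| := by
      simp only [abs_mul]
      exact sum_le_sum_of_subset_of_nonneg (sdiff_subset.trans hsub') fun p _ _ => by positivity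
    refine h1.trans (hD.hm.trans ?_)
    have h2 : (n₂ : ℝ) ≤ n := by exact_mod_cast (le_max_right _ _).trans hn
    have h3 : 2 / ε ≤ n + 1 := by linarith
    rw [div_le_iff₀ hε] at h3
    rw [div_le_iff₀ (by positivity)]
    linarith
  -- the exceptional sets
  obtain ⟨F, hF⟩ : ∃ F : ℕ → Finset (kbox N L), ∀ i, F i = univ.filter fun t => (ε / 2) ^ 4 ≤ M i t := ⟨_, fun _ => rfl⟩
  have hFcard : ∀ i < m, ((F i).card : ℝ) ≤ 670 * A * (3 / m) ^ 2 / (ε / 2) ^ 4 * ∏ i, (L i : ℝ) := by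
    intro i hi
    rw [← hcard]
    refine markov (M i) (hM0 i) _ _ ((hM2 i).trans ?_) (by positivity) (F i) fun t ht => ?_
    · refine mul_le_mul_of_nonneg_left (pow_le_pow_left₀ (bl_nonneg hu0 _ _) ?_ 2) (by positivity)
      have h1 : bl u (a i + 1) (a i + 1 + (a (i + 1) - a i)) = ∑ p ∈ (Ioc (a i) (a (i + 1))).filter Nat.Prime, lam p ^ 2 +
          ((a (i + 1) - a i : ℕ) : ℝ) * (1 / (m * X)) := by
        unfold bl
        rw [hu, sum_add_distrib, sum_const, nsmul_eq_mul, Nat.card_Ico, ← sum_filter]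
        congr 1
        · refine sum_congr ?_ fun _ _ => rfl
          ext p
          unfold PP
          rw [mem_filter, mem_filter, mem_filter, mem_Ico, mem_Icc, mem_Ioc]
          have h2 := ha i hi
          have h3 := haX (i + 1) (by omega)
          constructor
          · rintro ⟨⟨h4, h5⟩, ⟨h6, h7⟩, h8⟩
            exact ⟨⟨by omega, by omega⟩, h8⟩
          · rintro ⟨⟨h4, h5⟩, h8⟩
            exact ⟨⟨by omega, by omega⟩, ⟨by omega, by omega⟩, h8⟩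
        · congr 2
          omega
      rw [h1]
      have h2 := ha2 i hi
      have h3 : ((a (i + 1) - a i : ℕ) : ℝ) ≤ X := by
        have h4 := haX (i + 1) (by omega)
        exact_mod_cast (by omega : a (i + 1) - a i ≤ X)
      have h4 : ((a (i + 1) - a i : ℕ) : ℝ) * (1 / (m * X)) ≤ 1 / m := by
        rw [mul_one_div, div_le_div_iff₀ (by positivity) hm0]
        nlinarith
      have h5 : (3 : ℝ) / m = 2 / m + 1 / m := by ring
      rw [h5]
      linarith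
    · rw [hF, mem_filter] at ht
      exact ht.2
  have hEsub : E ⊆ (range m).biUnion fun i => (F i).image Subtype.val := by
    intro t ht
    obtain ⟨i, hi, Y, hY1, hY2, hY3⟩ := hE t ht
    rw [mem_biUnion]
    refine ⟨i, mem_range.2 hi, mem_image.2 ⟨⟨t, hEk ht⟩, ?_, rfl⟩⟩
    rw [hF, mem_filter]
    refine ⟨mem_univ _, ?_⟩
    have hYX : Y ≤ X := hY2.trans (haX (i + 1) (by omega))
    have h1 := hM1 i ⟨t, hEk ht⟩ (Y - a i) (by omega)
    have h2 : bl (xs X H lam t) (a i + 1) (a i + 1 + (Y - a i)) =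
        ∑ p ∈ PP Y, lam p * (H p (fun i => (t i : ZMod p)) - mn H p) - ∑ p ∈ PP (a i), lam p * (H p (fun i => (t i : ZMod p)) - mn H p) := by
      have hsub : PP (a i) ⊆ PP Y := filter_subset_filter _ (Icc_subset_Icc_right hY1)
      rw [← sum_sdiff hsub, add_sub_cancel_right]
      have h3 := bl_PP X (a i + 1) (a i + 1 + (Y - a i)) fun p => lam p * (H p (fun i => (t i : ZMod p)) - mn H p)
      refine Eq.trans h3 ?_
      rw [← sum_filter]
      refine sum_congr ?_ fun _ _ => rfl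
      ext p
      unfold PP
      rw [mem_filter, mem_filter, Finset.mem_sdiff, mem_filter, mem_filter, mem_Icc, mem_Icc, mem_Icc]
      constructor
      · rintro ⟨⟨⟨g1, g2⟩, g3⟩, g4, g5⟩
        exact ⟨⟨⟨g1, by omega⟩, g3⟩, fun g6 => by omega⟩
      · rintro ⟨⟨⟨g1, g2⟩, g3⟩, g4⟩
        have g5 : ¬ (p ≤ a i) := fun g6 => g4 ⟨⟨g1, g6⟩, g3⟩
        exact ⟨⟨⟨g1, by omega⟩, g3⟩, by omega, by omega⟩
    refine le_trans ?_ h1
    show _ ≤ bl (xs X H lam t) _ _ ^ 4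
    rw [h2]
    have h3 := hmean (a i) Y hY1 hYX
    obtain ⟨z, hz⟩ : ∃ z : ℝ, z = ∑ p ∈ PP Y, lam p * (H p (fun i => (t i : ZMod p)) - mn H p) -
      ∑ p ∈ PP (a i), lam p * (H p (fun i => (t i : ZMod p)) - mn H p) := ⟨_, rfl⟩
    have h4 : ∑ p ∈ PP Y, lam p * H p (fun i => (t i : ZMod p)) - ∑ p ∈ PP (a i), lam p * H p (fun i => (t i : ZMod p)) =
        z + (∑ p ∈ PP Y, lam p * mn H p - ∑ p ∈ PP (a i), lam p * mn H p) := by
      rw [hz]
      simp only [mul_sub, sum_sub_distrib]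
      ring
    rw [h4] at hY3
    rw [← hz]
    have h5 : ε / 2 ≤ |z| := by
      have := abs_add_le z (∑ p ∈ PP Y, lam p * mn H p - ∑ p ∈ PP (a i), lam p * mn H p)
      linarith
    calc (ε / 2) ^ 4 ≤ |z| ^ 4 := pow_le_pow_left₀ (by positivity) h5 4
      _ = z ^ 4 := by
        rw [← abs_pow, abs_of_nonneg (by positivity)]
  have h1 : (E.card : ℝ) ≤ ∑ _i ∈ range m, 670 * A * (3 / m) ^ 2 / (ε / 2) ^ 4 * ∏ i, (L i : ℝ) := by
    have h2 : E.card ≤ ∑ i ∈ range m, (F i).card := by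
      refine (card_le_card hEsub).trans (card_biUnion_le.trans (sum_le_sum fun i _ => card_image_le))
    have h3 : (E.card : ℝ) ≤ ∑ i ∈ range m, ((F i).card : ℝ) := by exact_mod_cast h2
    exact h3.trans (sum_le_sum fun i hi => hFcard i (mem_range.1 hi))
  rw [sum_const, card_range, nsmul_eq_mul] at h1
  refine h1.trans ?_
  rw [← mul_assoc]
  refine mul_le_mul_of_nonneg_right ?_ (prod_nonneg fun i _ => Nat.cast_nonneg _)
  have h2 : (m : ℝ) * (670 * A * (3 / m) ^ 2 / (ε / 2) ^ 4) = 96480 * A / (m * ε ^ 4) := by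
    field_simp
    ring
  rw [h2]
  refine div_le_div_of_nonneg_right ?_ (by positivity)
  linarith

section wgt

variable {lam : ℕ → ℕ → ℝ}

/-- the conditions -/
theorem lin_wgt (hlam : Wgt lam) (H : (p : ℕ) → (κ → ZMod p) → ℝ) (β p₀ : ℕ) (K : ℝ)
    (hK : 1 ≤ K) (hH : ∀ p : ℕ, p.Prime → ∀ u, |H p u| ≤ K * (p : ℝ) ^ β) (h1 : ∀ p : ℕ, p.Prime → p₀ ≤ p → |mn H p| ≤ K / Real.sqrt p)
    (h4 : ∀ p : ℕ, p.Prime → p₀ ≤ p → mn (fun p u => H p u ^ 4) p ≤ K) :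
    ∃ C₄ : ℝ, 0 ≤ C₄ ∧ ∀ n : ℕ, ∃ X₁ : ℕ, ∀ X : ℕ, X₁ ≤ X → ∀ (L : κ → ℕ), (∀ i, (X : ℝ) ^ X₁ ≤ L i) →
      Lin κ 2 C₄ (β + 1) n X L H (lam X) := by
  classical
  have hK0 : 0 < K := by linarith
  obtain ⟨B, hB⟩ : ∃ B : ℝ, B = (K * (p₀ : ℝ) ^ β + 1) ^ 4 := ⟨_, rfl⟩
  have hB0 : 1 ≤ K * (p₀ : ℝ) ^ β + 1 := by
    have : 0 ≤ K * (p₀ : ℝ) ^ β := by positivity
    linarith
  have hB1 : 1 ≤ B := by
    rw [hB]
    exact one_le_pow₀ hB0
  have hsmall : ∀ p : ℕ, p.Prime → p < p₀ → ∀ u, |H p u| ≤ K * (p₀ : ℝ) ^ β := fun p hp h u =>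
    (hH p hp u).trans (mul_le_mul_of_nonneg_left (pow_le_pow_left₀ (Nat.cast_nonneg p) (by exact_mod_cast h.le) β) hK0.le)
  have hpp0 : ∀ p : ℕ, p.Prime → p < p₀ → (1 : ℝ) ≤ p₀ * (1 / Real.sqrt p) := fun p hp h => by
    have hp1 : (1 : ℝ) ≤ p := by exact_mod_cast hp.one_lt.le
    have hp0 : (0 : ℝ) < Real.sqrt p := Real.sqrt_pos.2 (by linarith)
    rw [mul_one_div, le_div_iff₀ hp0, one_mul]
    refine le_trans ?_ (by exact_mod_cast h.le : (p : ℝ) ≤ p₀)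
    rw [Real.sqrt_le_left (by linarith)]
    nlinarith
  obtain ⟨M, hM⟩ : ∃ M : ℝ, M = K + (B + 1) * p₀ := ⟨_, rfl⟩
  have hM0 : 0 < M := by
    rw [hM]
    positivity
  have hKM : K ≤ M := by
    rw [hM]
    have : 0 ≤ (B + 1) * (p₀ : ℝ) := by positivity
    linarith
  have g1 : ∀ p : ℕ, p.Prime → |mn H p| ≤ M * (1 / Real.sqrt p) := fun p hp => by
    have hp0 : (0 : ℝ) < Real.sqrt p := Real.sqrt_pos.2 (by exact_mod_cast hp.pos)
    by_cases h : p₀ ≤ p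
    · rw [mul_one_div]
      exact (h1 p hp h).trans (div_le_div_of_nonneg_right hKM hp0.le)
    · rw [not_le] at h
      have : Fact p.Prime := ⟨hp⟩
      have h5 : |mn H p| ≤ B + 1 := by
        rw [mn_eq]
        refine (av_abs_le _ _ (hsmall p hp h)).trans ?_
        have h5 : K * (p₀ : ℝ) ^ β + 1 ≤ B := by
          rw [hB]
          exact le_self_pow₀ hB0 (by norm_num)
        linarith
      have h3 := hpp0 p hp h
      have h6 : (B + 1) * 1 ≤ (B + 1) * (p₀ * (1 / Real.sqrt (p : ℝ))) := mul_le_mul_of_nonneg_left h3 (by linarith)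
      have h7 : (B + 1) * (p₀ * (1 / Real.sqrt (p : ℝ))) ≤ M * (1 / Real.sqrt p) := by
        rw [hM]
        have : 0 ≤ K * (1 / Real.sqrt (p : ℝ)) := by positivity
        nlinarith
      linarith
  refine ⟨K + B, by linarith, fun n => ?_⟩
  have g4 : ∀ p : ℕ, p.Prime → mn (fun p u => H p u ^ 4) p ≤ K + B := fun p hp => by
    by_cases h : p₀ ≤ p
    · have := h4 p hp h
      linarith
    · rw [not_le] at h
      have : Fact p.Prime := ⟨hp⟩
      rw [mn_eq (fun p u => H p u ^ 4)]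
      have h3 := (abs_le.1 (av_abs_le (fun u => H p u ^ 4) ((K * (p₀ : ℝ) ^ β) ^ 4) fun u => by
        rw [abs_pow]
        exact pow_le_pow_left₀ (abs_nonneg _) (hsmall p hp h u) 4)).2
      have h6 : (K * (p₀ : ℝ) ^ β) ^ 4 ≤ (K * (p₀ : ℝ) ^ β + 1) ^ 4 := pow_le_pow_left₀ (by positivity) (by linarith) 4
      rw [← hB] at h6
      linarith
  obtain ⟨δ, hδ⟩ : ∃ δ : ℝ, δ = 1 / (n + 1) / (2 + 2 * M) := ⟨_, rfl⟩
  have hδ0 : 0 < δ := by
    rw [hδ]
    positivity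
  have hδK : (2 + 2 * M) * δ = 1 / (n + 1) := by
    rw [hδ]
    field_simp
  have e1 : ∀ᶠ X : ℕ in atTop, Q285NG.sf X ≤ δ := (Q285NG.sf_tendsto.eventually (gt_mem_nhds hδ0)).mono fun X hX => le_of_lt hX
  have e4 : ∀ᶠ X : ℕ in atTop, gf X ≤ δ := (gf_tendsto.eventually (gt_mem_nhds hδ0)).mono fun X hX => le_of_lt hX
  have e2 : ∀ᶠ X : ℕ in atTop, ∑ p ∈ PP X, lam X p ^ 2 ≤ 2 := by
    have h1 := (hlam.sq 1 one_pos le_rfl).eventually (gt_mem_nhds (by norm_num : (1 : ℝ) < 2))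
    refine h1.mono fun X hX => ?_
    rw [one_mul, Nat.floor_natCast] at hX
    exact hX.le
  obtain ⟨X₀, hX₀⟩ := eventually_atTop.1 ((e1.and e4).and e2)
  obtain ⟨k, hk⟩ := exists_nat_ge K
  refine ⟨max (max X₀ n) (k + 2), fun X hX L hL => ?_⟩
  have hXX₀ : X₀ ≤ X := (le_max_left _ _).trans ((le_max_left _ _).trans hX)
  have hXk : k + 2 ≤ X := (le_max_right _ _).trans hX
  obtain ⟨⟨hsf, hgf⟩, hsum⟩ := hX₀ X hXX₀
  have hX2 : 2 ≤ X := by omega
  have hX1 : (1 : ℝ) ≤ X := by exact_mod_cast (by omega : 1 ≤ X)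
  have hXK : K ≤ X := hk.trans (by exact_mod_cast (by omega : k ≤ X))
  have hpp : ∀ p ∈ PP X, p.Prime ∧ p ≤ X := fun p hp => ⟨(mem_filter.1 hp).2, (mem_Icc.1 (mem_filter.1 hp).1).2⟩
  refine ⟨hX2, fun i => (pow_le_pow_right₀ hX1 ((le_max_right _ _).trans (le_max_left _ _))).trans (hL i), ?_, wgt_one hlam hX2, hsum, ?_, ?_, ?_⟩
  · intro p hp u
    obtain ⟨hpr, hpX⟩ := hpp p hp
    refine (hH p hpr u).trans ?_
    rw [pow_succ, mul_comm]
    exact mul_le_mul (pow_le_pow_left₀ (Nat.cast_nonneg p) (by exact_mod_cast hpX) β) hXK hK0.le (by positivity)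
  · refine (wgt_cube hlam hX2).trans ?_
    rw [← hδK]
    have h1 : 0 ≤ ∑ p ∈ PP X, lam X p ^ 2 := sum_nonneg fun _ _ => sq_nonneg _
    nlinarith
  · intro p hp
    exact g4 p (hpp p hp).1
  · have h1 : ∀ p ∈ PP X, |lam X p| * |mn H p| ≤ M * (|lam X p| * (1 / Real.sqrt p)) := fun p hp => by
      have h2 := g1 p (hpp p hp).1
      calc |lam X p| * |mn H p| ≤ |lam X p| * (M * (1 / Real.sqrt p)) := mul_le_mul_of_nonneg_left h2 (abs_nonneg _)
        _ = _ := by ring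
    refine (sum_le_sum h1).trans ?_
    rw [← mul_sum, ← hδK]
    have h2 := wgt_inv hlam hX2
    have h3 : M * ∑ p ∈ PP X, |lam X p| * (1 / Real.sqrt p) ≤ M * δ := mul_le_mul_of_nonneg_left (h2.trans hgf) hM0.le
    nlinarith

/-- **tightness**: the modulus of continuity -/
theorem tight (hlam : Wgt lam) (H : (p : ℕ) → (κ → ZMod p) → ℝ) (β p₀ : ℕ) (K : ℝ)
    (hK : 1 ≤ K) (hH : ∀ p : ℕ, p.Prime → ∀ u, |H p u| ≤ K * (p : ℝ) ^ β) (h1 : ∀ p : ℕ, p.Prime → p₀ ≤ p → |mn H p| ≤ K / Real.sqrt p)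
    (h4 : ∀ p : ℕ, p.Prime → p₀ ≤ p → mn (fun p u => H p u ^ 4) p ≤ K) (ε : ℝ) (hε : 0 < ε) :
    ∃ m : ℕ, 1 ≤ m ∧ ∃ X₁ : ℕ, ∀ X : ℕ, X₁ ≤ X → ∀ (N : κ → ℤ) (L : κ → ℕ), (∀ i, (X : ℝ) ^ X₁ ≤ L i) →
      ∀ E : Finset (κ → ℤ), E ⊆ kbox N L → (∀ t ∈ E, ∃ Y Y' : ℕ, Y ≤ Y' ∧ Y' ≤ X ∧ (Y' - Y) * m ≤ X ∧
        ε < |∑ p ∈ PP Y', lam X p * H p (fun i => (t i : ZMod p)) - ∑ p ∈ PP Y, lam X p * H p (fun i => (t i : ZMod p))|) →
      (E.card : ℝ) ≤ ε * ∏ i, (L i : ℝ) := by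
  classical
  obtain ⟨C₄, hC₄, hlin⟩ := lin_wgt hlam H β p₀ K hK hH h1 h4
  obtain ⟨A, hA⟩ : ∃ A : ℝ, A = 16 * C₄ + 3 * (1 + C₄) ^ 2 + 1 := ⟨_, rfl⟩
  have hA0 : 0 < A := by
    rw [hA]
    positivity
  obtain ⟨m, hm⟩ := exists_nat_ge (100000 * A * 256 / ε ^ 5 + 1)
  have hm1 : 1 ≤ m := by
    have : 0 ≤ 100000 * A * 256 / ε ^ 5 := by positivity
    exact_mod_cast (by linarith : (1 : ℝ) ≤ m)
  have hm0 : (0 : ℝ) < m := by exact_mod_cast hm1
  obtain ⟨n, hn⟩ := tight_lin (κ := κ) 2 C₄ (β + 1) m hC₄ hm1 (ε / 4) (by positivity)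
  obtain ⟨X₁, hX₁⟩ := hlin n
  obtain ⟨a, ha⟩ : ∃ a : ℕ → ℕ → ℕ, ∀ X i, a X i = ⌊((i : ℝ) / m) * X⌋₊ := ⟨_, fun _ _ => rfl⟩
  have hS : ∀ i ≤ m, Tendsto (fun X : ℕ => ∑ p ∈ PP (a X i), lam X p ^ 2) atTop (𝓝 ((i : ℝ) / m)) := by
    intro i hi
    rcases Nat.eq_zero_or_pos i with rfl | hi0
    · have h2 : ∀ X, PP (a X 0) = ∅ := by
        intro X
        rw [ha, Nat.cast_zero, zero_div, zero_mul, Nat.floor_zero]
        unfold PP
        rw [filter_eq_empty_iff]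
        intro p hp
        rw [mem_Icc] at hp
        omega
      simp only [h2, sum_empty, Nat.cast_zero, zero_div]
      exact tendsto_const_nhds
    · simp only [ha]
      refine hlam.sq _ (by positivity) ?_
      rw [div_le_one hm0]
      exact_mod_cast hi
  have hmono : ∀ X i, a X i ≤ a X (i + 1) := by
    intro X i
    rw [ha, ha]
    refine Nat.floor_le_floor ?_
    push_cast
    gcongr
    linarith
  have hamX : ∀ X, a X m = X := by
    intro X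
    rw [ha, div_self hm0.ne', one_mul, Nat.floor_natCast]
  have haX : ∀ X, ∀ i ≤ m, a X i ≤ X := by
    intro X i hi
    rw [← hamX X]
    have hmn : Monotone (a X) := monotone_nat_of_le_succ (hmono X)
    have := hmn hi
    rw [hamX X] at this ⊢
    exact this
  have hev : ∀ᶠ X : ℕ in atTop, ∀ i ∈ range m, ∑ p ∈ (Ioc (a X i) (a X (i + 1))).filter Nat.Prime, lam X p ^ 2 ≤ 2 / m := by
    rw [Filter.eventually_all_finset]
    intro i hi
    rw [mem_range] at hi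
    have h2 := (hS (i + 1) (by omega)).sub (hS i (by omega))
    have h3 : ((i + 1 : ℕ) : ℝ) / m - (i : ℝ) / m = 1 / m := by
      push_cast
      ring
    rw [h3] at h2
    have h4 : (1 : ℝ) / m < 2 / m := by
      rw [div_lt_div_iff_of_pos_right hm0]
      norm_num
    refine (h2.eventually (gt_mem_nhds h4)).mono fun X hX => ?_
    refine le_trans (le_of_eq ?_) hX.le
    have hsub : PP (a X i) ⊆ PP (a X (i + 1)) := filter_subset_filter _ (Icc_subset_Icc_right (hmono X i))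
    rw [← sum_sdiff hsub, add_sub_cancel_right]
    refine sum_congr ?_ fun _ _ => rfl
    ext p
    unfold PP
    rw [Finset.mem_sdiff, mem_filter, mem_filter, mem_filter, mem_Icc, mem_Icc, mem_Ioc]
    constructor
    · rintro ⟨⟨g1, g2⟩, g3⟩
      exact ⟨⟨⟨g3.one_lt.le, g2⟩, g3⟩, fun g4 => by omega⟩
    · rintro ⟨⟨⟨g1, g2⟩, g3⟩, g4⟩
      have g5 : ¬ (p ≤ a X i) := fun g6 => g4 ⟨⟨g1, g6⟩, g3⟩
      exact ⟨⟨by omega, g2⟩, g3⟩
  obtain ⟨X₂, hX₂⟩ := eventually_atTop.1 hev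
  refine ⟨m, hm1, max (max X₁ X₂) 1, fun X hX N L hL E hEk hE => ?_⟩
  have hXX₁ : X₁ ≤ X := (le_max_left _ _).trans ((le_max_left _ _).trans hX)
  have hXX₂ : X₂ ≤ X := (le_max_right _ _).trans ((le_max_left _ _).trans hX)
  have hX1 : 1 ≤ X := (le_max_right _ _).trans hX
  have hX1' : (1 : ℝ) ≤ X := by exact_mod_cast hX1
  have hX0 : (0 : ℝ) < X := by linarith
  have hLin := hX₁ X hXX₁ L fun i => (pow_le_pow_right₀ hX1' ((le_max_left _ _).trans (le_max_left _ _))).trans (hL i)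
  have h2 := hn n le_rfl X N L H (lam X) hLin (a X) (fun i _ => hmono X i) (haX X) (fun i hi => hX₂ X hXX₂ i (mem_range.2 hi)) E hEk (by
    intro t ht
    by_contra hcon
    push Not at hcon
    obtain ⟨Y, Y', hY, hY', hd, hlt⟩ := hE t ht
    obtain ⟨S, hS⟩ : ∃ S : ℕ → ℝ, ∀ Y, S Y = ∑ p ∈ PP Y, lam X p * H p (fun i => (t i : ZMod p)) := ⟨_, fun _ => rfl⟩
    rw [← hS, ← hS] at hlt
    have hc : ∀ i < m, ∀ Y, a X i ≤ Y → Y ≤ a X (i + 1) → |S Y - S (a X i)| ≤ ε / 4 := by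
      intro i hi Y g1 g2
      rw [hS, hS]
      exact hcon i hi Y g1 g2
    have hYX : Y < X := by
      by_contra h
      have : Y = Y' := by omega
      rw [this, sub_self, abs_zero] at hlt
      linarith
    obtain ⟨i, hi⟩ : ∃ i : ℕ, i = Y * m / X := ⟨_, rfl⟩
    have him : i < m := by
      rw [hi]
      rw [Nat.div_lt_iff_lt_mul (by omega)]
      nlinarith
    have hi1 : i * X ≤ Y * m := by
      rw [hi]
      exact Nat.div_mul_le_self _ _
    have hi2 : Y * m < (i + 1) * X := by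
      rw [hi]
      have := Nat.lt_div_mul_add (a := Y * m) (b := X) (by omega)
      linarith
    have f1 : a X i ≤ Y := by
      rw [ha]
      refine Nat.floor_le_of_le ?_
      rw [div_mul_eq_mul_div, div_le_iff₀ hm0]
      exact_mod_cast hi1
    have f2 : ∀ Z j : ℕ, Z * m ≤ j * X → Z ≤ a X j := by
      intro Z j hZ
      rw [ha]
      refine Nat.le_floor ?_
      rw [div_mul_eq_mul_div, le_div_iff₀ hm0]
      exact_mod_cast hZ
    have f3 : Y ≤ a X (i + 1) := f2 Y (i + 1) hi2.le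
    have c1 := hc i him Y f1 f3
    rcases le_or_gt Y' (a X (i + 1)) with h | h
    · have c2 := hc i him Y' (f1.trans hY) h
      have c3 := abs_sub_le (S Y') (S (a X i)) (S Y)
      rw [abs_sub_comm (S (a X i))] at c3
      linarith
    · have h5 : i + 1 < m := by
        by_contra h6
        have h7 : i + 1 = m := by omega
        rw [h7, hamX] at h
        omega
      have h6 : Y' * m ≤ (i + 1 + 1) * X := by
        have h7 : Y' * m = (Y' - Y) * m + Y * m := by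
          rw [← Nat.add_mul]
          congr 1
          omega
        rw [h7]
        nlinarith
      have c2 := hc (i + 1) h5 Y' h.le (f2 Y' (i + 1 + 1) h6)
      have c3 := hc i him (a X (i + 1)) (hmono X i) le_rfl
      have c4 := abs_sub_le (S Y') (S (a X (i + 1))) (S Y)
      have c5 := abs_sub_le (S (a X (i + 1))) (S (a X i)) (S Y)
      rw [abs_sub_comm (S (a X i))] at c5
      linarith)
  refine h2.trans (mul_le_mul_of_nonneg_right ?_ (prod_nonneg fun i _ => Nat.cast_nonneg _))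
  rw [← hA, div_le_iff₀ (by positivity)]
  have h3 : 100000 * A * 256 / ε ^ 5 ≤ m := by linarith
  rw [div_le_iff₀ (by positivity)] at h3
  have h5 : ε * (m * (ε / 4) ^ 4) = m * ε ^ 5 / 256 := by ring
  rw [h5]
  linarith

end wgt

end U345T
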