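import Pool.Agent.Q97.MM.Rep2
import Pool.Agent.Q97.MM.Shf

set_option autoImplicit false

open MeasureTheory Filter Topology Complex FourierTransform ComplexConjugate

namespace U345Z

open Q97.MM

noncomputable section

/-! ### Parseval for pairs -/

theorem fourier_add_mul {f g : ℝ → ℂ} (h1 : Integrable f) (h2 : Integrable g) (w : ℂ) (ξ : ℝ) :
    𝓕 (fun y => f y + w * g y) ξ = 𝓕 f ξ + w * 𝓕 g ξ := by
  rw [Real.fourier_eq', Real.fourier_eq', Real.fourier_eq']
  simp only [smul_eq_mul, RCLike.inner_apply, conj_trivial]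
  have hb : ∀ g : ℝ → ℂ, Integrable g →
      Integrable (fun y : ℝ => cexp ((-2 * Real.pi * (ξ * y) : ℝ) * I) * g y) := by
    intro g hg
    refine hg.norm.mono' (Continuous.aestronglyMeasurable (by fun_prop) |>.mul
      hg.aestronglyMeasurable) (Eventually.of_forall fun y => ?_)
    rw [norm_mul, Complex.norm_exp_ofReal_mul_I, one_mul]
  have e1 : ∀ y : ℝ, cexp ((-2 * Real.pi * (ξ * y) : ℝ) * I) * (f y + w * g y) =
      cexp ((-2 * Real.pi * (ξ * y) : ℝ) * I) * f y +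
        w * (cexp ((-2 * Real.pi * (ξ * y) : ℝ) * I) * g y) := fun y => by ring
  rw [integral_congr_ae (Eventually.of_forall e1)]
  rw [integral_add (hb f h1) ((hb g h2).const_mul _), integral_const_mul]

theorem parseval {f g : ℝ → ℂ} (f1 : Integrable f) (f2 : MemLp f 2) (g1 : Integrable g)
    (g2 : MemLp g 2) :
    Integrable (fun y => f y * conj (g y)) ∧ Integrable (fun ξ => 𝓕 f ξ * conj (𝓕 g ξ)) ∧
    ∫ y, f y * conj (g y) = ∫ ξ, 𝓕 f ξ * conj (𝓕 g ξ) := by
  have prod : ∀ f g : ℝ → ℂ, MemLp f 2 → MemLp g 2 → Integrable (fun y => f y * conj (g y)) := by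
    intro f g f2 g2
    have hf := (memLp_two_iff_integrable_sq_norm f2.aestronglyMeasurable).mp f2
    have hg := (memLp_two_iff_integrable_sq_norm g2.aestronglyMeasurable).mp g2
    refine (hf.add hg).mono' (f2.aestronglyMeasurable.mul
      (Complex.continuous_conj.comp_aestronglyMeasurable g2.aestronglyMeasurable))
      (Eventually.of_forall fun y => ?_)
    rw [norm_mul, RCLike.norm_conj]
    show ‖f y‖ * ‖g y‖ ≤ ‖f y‖ ^ 2 + ‖g y‖ ^ 2
    nlinarith [sq_nonneg (‖f y‖ - ‖g y‖), norm_nonneg (f y), norm_nonneg (g y)]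
  have Pf := Pool.Agent.Helper625.Planch.plancherel f f1 f2
  have Pg := Pool.Agent.Helper625.Planch.plancherel g g1 g2
  have i1 := prod f g f2 g2
  have i2 := prod (𝓕 f) (𝓕 g) Pf.1 Pg.1
  refine ⟨i1, i2, ?_⟩
  have expand : ∀ (f g : ℝ → ℂ), MemLp f 2 → MemLp g 2 → ∀ w : ℂ, ‖w‖ = 1 →
      ∫ y, ‖f y + w * g y‖ ^ 2 = (∫ y, ‖f y‖ ^ 2) + (∫ y, ‖g y‖ ^ 2) +
        2 * (conj w * ∫ y, f y * conj (g y)).re := by
    intro f g f2 g2 w hw
    have hf := (memLp_two_iff_integrable_sq_norm f2.aestronglyMeasurable).mp f2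
    have hg := (memLp_two_iff_integrable_sq_norm g2.aestronglyMeasurable).mp g2
    have hexp : ∀ y, ‖f y + w * g y‖ ^ 2 = ‖f y‖ ^ 2 + ‖g y‖ ^ 2 +
        2 * (conj w * (f y * conj (g y))).re := fun y => norm_add_mul hw
    have ip := prod f g f2 g2
    have ire : Integrable (fun y => (conj w * (f y * conj (g y))).re) :=
      (ip.const_mul (conj w)).re
    rw [integral_congr_ae (Eventually.of_forall hexp)]
    have a1 := integral_add (hf.add hg) (ire.const_mul 2)
    have a2 := integral_add hf hg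
    have a4 : ∫ y, (conj w * (f y * conj (g y))).re = (conj w * ∫ y, f y * conj (g y)).re := by
      have a5 := integral_re (ip.const_mul (conj w))
      rw [integral_const_mul] at a5
      exact a5
    simp only [Pi.add_apply] at a1
    rw [a1, a2, integral_const_mul, a4]
  set V := ∫ y, f y * conj (g y) with hV
  set W := ∫ ξ, 𝓕 f ξ * conj (𝓕 g ξ) with hW
  have key : ∀ w : ℂ, ‖w‖ = 1 → (conj w * V).re = (conj w * W).re := by
    intro w hw
    have q1 : Integrable (fun y => f y + w * g y) := f1.add (g1.const_mul w)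
    have q2 : MemLp (fun y => f y + w * g y) 2 := f2.add (g2.const_mul w)
    have hP := (Pool.Agent.Helper625.Planch.plancherel _ q1 q2).2
    rw [expand f g f2 g2 w hw] at hP
    have e2 : ∫ ξ, ‖𝓕 (fun y => f y + w * g y) ξ‖ ^ 2 = ∫ ξ, ‖𝓕 f ξ + w * 𝓕 g ξ‖ ^ 2 := by
      refine integral_congr_ae (Eventually.of_forall fun ξ => ?_)
      simp only
      rw [fourier_add_mul f1 g1]
    rw [e2, expand (𝓕 f) (𝓕 g) Pf.1 Pg.1 w hw, Pf.2, Pg.2] at hP
    linarith
  apply Complex.ext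
  · have := key 1 (by simp)
    simpa using this
  · have := key I (by simp)
    simpa using this

/-! ### Fourier transforms on a strip -/

variable {F : ℂ → ℂ} {α β M δ : ℝ}

/-- translation of the line in the plane -/
def tl (F : ℂ → ℂ) (c : ℝ) (z : ℂ) : ℝ → ℂ := fun y => F (c + y * I + z)

theorem tl_eq (F : ℂ → ℂ) (c : ℝ) (z : ℂ) (y : ℝ) : tl F c z y = ln F (c + z.re) (y + z.im) := by
  unfold tl ln
  congr 1
  conv_lhs => rw [← Complex.re_add_im z]
  push_cast
  ring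

theorem tl_continuous (hF : Differentiable ℂ F) (c : ℝ) (z : ℂ) : Continuous (tl F c z) := by
  have := hF.continuous
  unfold tl
  fun_prop

theorem tl_integrable (hF : Differentiable ℂ F) (hδ : 0 < δ)
    (hbd : ∀ x y : ℝ, α ≤ x → x ≤ β → ‖F (x + y * I)‖ ≤ M * Real.exp (-δ * y ^ 2))
    {c : ℝ} {z : ℂ} (h1 : α ≤ c + z.re) (h2 : c + z.re ≤ β) : Integrable (tl F c z) := by
  have h := (ln_integrable hF hδ hbd h1 h2).comp_add_right z.im
  exact h.congr (Eventually.of_forall fun y => (tl_eq F c z y).symm)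

theorem tl_memLp (hF : Differentiable ℂ F) (hδ : 0 < δ)
    (hbd : ∀ x y : ℝ, α ≤ x → x ≤ β → ‖F (x + y * I)‖ ≤ M * Real.exp (-δ * y ^ 2))
    {c : ℝ} {z : ℂ} (h1 : α ≤ c + z.re) (h2 : c + z.re ≤ β) : MemLp (tl F c z) 2 := by
  rw [memLp_two_iff_integrable_sq_norm (tl_continuous hF c z).aestronglyMeasurable]
  have h := (ln_sq_integrable hF hδ hbd h1 h2).comp_add_right z.im
  refine h.congr (Eventually.of_forall fun y => ?_)
  simp only
  rw [tl_eq]

theorem fourier_trans' {f : ℝ → ℂ} (η ξ : ℝ) :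
    𝓕 (fun y => f (y + η)) ξ = cexp ((2 * Real.pi * η * ξ : ℝ) * I) * 𝓕 f ξ := by
  rw [Real.fourier_eq', Real.fourier_eq']
  simp only [smul_eq_mul, RCLike.inner_apply, conj_trivial]
  have e3 := integral_add_right_eq_self (μ := (volume : Measure ℝ))
    (fun y : ℝ => cexp ((-2 * Real.pi * (ξ * y) : ℝ) * I) * f y) η
  rw [← e3, ← integral_const_mul]
  refine integral_congr_ae (Eventually.of_forall fun y => ?_)
  have e4 : cexp ((-2 * Real.pi * (ξ * y) : ℝ) * I) = cexp ((2 * Real.pi * η * ξ : ℝ) * I) *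
      cexp ((-2 * Real.pi * (ξ * (y + η)) : ℝ) * I) := by
    rw [← Complex.exp_add]
    congr 1
    push_cast
    ring
  beta_reduce
  rw [e4]
  ring

theorem fourier_tl (hF : Differentiable ℂ F) (hδ : 0 < δ) (hM : 0 ≤ M)
    (hbd : ∀ x y : ℝ, α ≤ x → x ≤ β → ‖F (x + y * I)‖ ≤ M * Real.exp (-δ * y ^ 2))
    {c : ℝ} {z : ℂ} (hc1 : α ≤ c) (hc2 : c ≤ β) (h1 : α ≤ c + z.re) (h2 : c + z.re ≤ β) (ξ : ℝ) :
    𝓕 (tl F c z) ξ = cexp (2 * Real.pi * ξ * z) * 𝓕 (ln F c) ξ := by
  have e0 : tl F c z = fun y => ln F (c + z.re) (y + z.im) := funext fun y => tl_eq F c z y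
  rw [e0, fourier_trans' (f := ln F (c + z.re))]
  have key : (Real.exp (-(2 * Real.pi * ξ * (c + z.re))) : ℂ) * 𝓕 (ln F (c + z.re)) ξ =
      Real.exp (-(2 * Real.pi * ξ * c)) * 𝓕 (ln F c) ξ := by
    rcases le_total (c + z.re) c with h | h
    · exact fourier_shift hF hδ hM hbd h1 hc2 h ξ
    · exact (fourier_shift hF hδ hM hbd hc1 h2 h ξ).symm
  have e1 : 𝓕 (ln F (c + z.re)) ξ = (Real.exp (2 * Real.pi * ξ * z.re) : ℂ) * 𝓕 (ln F c) ξ := by
    have e2 : (Real.exp (2 * Real.pi * ξ * (c + z.re)) : ℂ) *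
        (Real.exp (-(2 * Real.pi * ξ * (c + z.re))) : ℂ) = 1 := by
      rw [← Complex.ofReal_mul, ← Real.exp_add, add_neg_cancel, Real.exp_zero, Complex.ofReal_one]
    have e3 : (Real.exp (2 * Real.pi * ξ * z.re) : ℂ) =
        (Real.exp (2 * Real.pi * ξ * (c + z.re)) : ℂ) * (Real.exp (-(2 * Real.pi * ξ * c)) : ℂ) := by
      rw [← Complex.ofReal_mul, ← Real.exp_add]
      congr 2
      ring
    rw [e3, mul_assoc, ← key, ← mul_assoc, e2, one_mul]
  rw [e1, ← mul_assoc]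
  congr 1
  rw [Complex.ofReal_exp, ← Complex.exp_add]
  congr 1
  conv_rhs => rw [← Complex.re_add_im z]
  push_cast
  ring

/-- The correlations at complex distances. -/
theorem corr_tl (hF : Differentiable ℂ F) (hδ : 0 < δ) (hM : 0 ≤ M)
    (hbd : ∀ x y : ℝ, α ≤ x → x ≤ β → ‖F (x + y * I)‖ ≤ M * Real.exp (-δ * y ^ 2))
    {c : ℝ} {z w : ℂ} (hc1 : α ≤ c) (hc2 : c ≤ β) (h1 : α ≤ c + z.re) (h2 : c + z.re ≤ β)
    (h3 : α ≤ c + w.re) (h4 : c + w.re ≤ β) :
    Integrable (fun y => tl F c z y * conj (tl F c w y)) ∧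
    Integrable (fun ξ : ℝ => cexp (2 * Real.pi * ξ * (z + conj w)) * (dens F c ξ : ℂ)) ∧
    ∫ y, tl F c z y * conj (tl F c w y) =
      ∫ ξ : ℝ, cexp (2 * Real.pi * ξ * (z + conj w)) * (dens F c ξ : ℂ) := by
  obtain ⟨i1, i2, i3⟩ := parseval (tl_integrable hF hδ hbd h1 h2) (tl_memLp hF hδ hbd h1 h2)
    (tl_integrable hF hδ hbd h3 h4) (tl_memLp hF hδ hbd h3 h4)
  have e : ∀ ξ : ℝ, 𝓕 (tl F c z) ξ * conj (𝓕 (tl F c w) ξ) =
      cexp (2 * Real.pi * ξ * (z + conj w)) * (dens F c ξ : ℂ) := by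
    intro ξ
    rw [fourier_tl hF hδ hM hbd hc1 hc2 h1 h2, fourier_tl hF hδ hM hbd hc1 hc2 h3 h4, map_mul,
      ← Complex.exp_conj]
    have e1 : conj (2 * (Real.pi : ℂ) * (ξ : ℂ) * w) = 2 * Real.pi * ξ * conj w := by
      simp only [map_mul, Complex.conj_ofReal, map_ofNat]
    have e2 : (dens F c ξ : ℂ) = 𝓕 (ln F c) ξ * conj (𝓕 (ln F c) ξ) := by
      unfold dens
      rw [Complex.mul_conj, Complex.normSq_eq_norm_sq]
    rw [e1, e2, mul_add, Complex.exp_add]
    ring
  refine ⟨i1, i2.congr (Eventually.of_forall e), ?_⟩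
  rw [i3]
  exact integral_congr_ae (Eventually.of_forall e)

/-! ### Derivatives -/

theorem deriv_bd (hF : Differentiable ℂ F) (hδ : 0 < δ) (hM : 0 ≤ M)
    (hbd : ∀ x y : ℝ, α ≤ x → x ≤ β → ‖F (x + y * I)‖ ≤ M * Real.exp (-δ * y ^ 2))
    {r : ℝ} (hr : 0 < r) (x y : ℝ) (h1 : α + r ≤ x) (h2 : x ≤ β - r) :
    ‖deriv F (x + y * I)‖ ≤ (M * Real.exp (δ * r ^ 2) / r) * Real.exp (-(δ / 2) * y ^ 2) := by
  have hC : ∀ s ∈ Metric.sphere ((x : ℂ) + y * I) r,
      ‖F s‖ ≤ M * Real.exp (δ * r ^ 2) * Real.exp (-(δ / 2) * y ^ 2) := by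
    intro s hs
    rw [mem_sphere_iff_norm] at hs
    have a1 : |s.re - x| ≤ r := by
      have := Complex.abs_re_le_norm (s - (x + y * I))
      rw [hs] at this
      simpa using this
    have a2 : |s.im - y| ≤ r := by
      have := Complex.abs_im_le_norm (s - (x + y * I))
      rw [hs] at this
      simpa using this
    have a3 := abs_le.1 a1
    have a4 := abs_le.1 a2
    have a5 := hbd s.re s.im (by linarith) (by linarith)
    rw [Complex.re_add_im] at a5
    refine a5.trans ?_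
    rw [mul_assoc, ← Real.exp_add]
    apply mul_le_mul_of_nonneg_left _ hM
    apply Real.exp_le_exp.2
    have a6 : (s.im - y) ^ 2 ≤ r ^ 2 := by
      rw [← sq_abs]
      exact pow_le_pow_left₀ (abs_nonneg _) a2 2
    have a7 : y ^ 2 / 2 - r ^ 2 ≤ s.im ^ 2 := by
      nlinarith [sq_nonneg (s.im + (s.im - y))]
    nlinarith
  have h := norm_deriv_le_of_forall_mem_sphere_norm_le hr hF.diffContOnCl hC
  refine h.trans (le_of_eq ?_)
  ring

theorem ln_hasDerivAt (hF : Differentiable ℂ F) (c y : ℝ) :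
    HasDerivAt (ln F c) (I * deriv F (c + y * I)) y := by
  have h1 : HasDerivAt F (deriv F (c + y * I)) (c + y * I) := (hF _).hasDerivAt
  have h2 : HasDerivAt (fun y : ℝ => (c : ℂ) + y * I) I y := by
    have := (Complex.ofRealCLM.hasDerivAt (x := y)).mul_const I
    simp only [Complex.ofRealCLM_apply, Complex.ofReal_one, one_mul] at this
    exact this.const_add _
  have h3 := h1.scomp y h2
  simp only [smul_eq_mul] at h3
  exact h3

theorem deriv_ln (hF : Differentiable ℂ F) (c : ℝ) : deriv (ln F c) = fun y => I * ln (deriv F) c y := by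
  funext y
  exact (ln_hasDerivAt hF c y).deriv

theorem deriv_entire (hF : Differentiable ℂ F) : Differentiable ℂ (deriv F) := by
  intro s
  exact ((hF.contDiff (n := 2)).differentiable_deriv_two) s

/-- The Fourier transform of the derivative on a line. -/
theorem fourier_deriv_line (hF : Differentiable ℂ F) (hδ : 0 < δ) (hM : 0 ≤ M)
    (hbd : ∀ x y : ℝ, α ≤ x → x ≤ β → ‖F (x + y * I)‖ ≤ M * Real.exp (-δ * y ^ 2))
    {c : ℝ} (hc1 : α < c) (hc2 : c < β) (ξ : ℝ) :
    𝓕 (ln (deriv F) c) ξ = (2 * Real.pi * ξ : ℝ) * 𝓕 (ln F c) ξ := by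
  set r := min (c - α) (β - c) with hr
  have hr0 : 0 < r := lt_min (by linarith) (by linarith)
  have hbd' := deriv_bd hF hδ hM hbd hr0
  have i1 := ln_integrable hF hδ hbd hc1.le hc2.le
  have i2 : Integrable (ln (deriv F) c) :=
    ln_integrable (α := α + r) (β := β - r) (deriv_entire hF) (by positivity : 0 < δ / 2)
      hbd' (by linarith [min_le_left (c - α) (β - c)]) (by linarith [min_le_right (c - α) (β - c)])
  have i3 : Integrable (deriv (ln F c)) := by
    rw [deriv_ln hF]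
    exact i2.const_mul I
  have hd : Differentiable ℝ (ln F c) := fun y => (ln_hasDerivAt hF c y).differentiableAt
  have h := congrFun (Real.fourier_deriv i1 hd i3) ξ
  rw [deriv_ln hF] at h
  have e1 : 𝓕 (fun y => I * ln (deriv F) c y) ξ = I * 𝓕 (ln (deriv F) c) ξ := by
    rw [Real.fourier_eq', Real.fourier_eq', ← integral_const_mul]
    refine integral_congr_ae (Eventually.of_forall fun y => ?_)
    simp only [smul_eq_mul]
    ring
  rw [e1] at h
  simp only [smul_eq_mul] at h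
  have h2 := congrArg (fun z => -I * z) h
  beta_reduce at h2
  have e2 : -I * (I * 𝓕 (ln (deriv F) c) ξ) = 𝓕 (ln (deriv F) c) ξ := by
    rw [← mul_assoc, neg_mul, Complex.I_mul_I, neg_neg, one_mul]
  rw [e2] at h2
  rw [h2]
  push_cast
  linear_combination (-(2 * (Real.pi : ℂ) * ξ * 𝓕 (ln F c) ξ)) * Complex.I_sq

/-- The square mean of the modulated derivative. -/
theorem deriv_mean (hF : Differentiable ℂ F) (hδ : 0 < δ) (hM : 0 ≤ M)
    (hbd : ∀ x y : ℝ, α ≤ x → x ≤ β → ‖F (x + y * I)‖ ≤ M * Real.exp (-δ * y ^ 2))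
    {c : ℝ} (hc1 : α < c) (hc2 : c < β) (lam : ℝ) :
    Integrable (fun y : ℝ => ‖deriv F (c + y * I) + lam * F (c + y * I)‖ ^ 2) ∧
    Integrable (fun ξ : ℝ => (2 * Real.pi * ξ + lam) ^ 2 * dens F c ξ) ∧
    ∫ y : ℝ, ‖deriv F (c + y * I) + lam * F (c + y * I)‖ ^ 2 =
      ∫ ξ : ℝ, (2 * Real.pi * ξ + lam) ^ 2 * dens F c ξ := by
  set r := min (c - α) (β - c) with hr
  have hr0 : 0 < r := lt_min (by linarith) (by linarith)
  have hbd' := deriv_bd hF hδ hM hbd hr0
  have b1 : α + r ≤ c := by linarith [min_le_left (c - α) (β - c)]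
  have b2 : c ≤ β - r := by linarith [min_le_right (c - α) (β - c)]
  have i1 := ln_integrable hF hδ hbd hc1.le hc2.le
  have j1 := ln_memLp hF hδ hbd hc1.le hc2.le
  have i2 : Integrable (ln (deriv F) c) :=
    ln_integrable (deriv_entire hF) (by positivity : 0 < δ / 2) hbd' b1 b2
  have j2 : MemLp (ln (deriv F) c) 2 :=
    ln_memLp (deriv_entire hF) (by positivity : 0 < δ / 2) hbd' b1 b2
  have q1 : Integrable (fun y => ln (deriv F) c y + (lam : ℂ) * ln F c y) := i2.add (i1.const_mul _)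
  have q2 : MemLp (fun y => ln (deriv F) c y + (lam : ℂ) * ln F c y) 2 := j2.add (j1.const_mul _)
  have hP := Pool.Agent.Helper625.Planch.plancherel _ q1 q2
  have e1 : ∀ ξ : ℝ, ‖𝓕 (fun y => ln (deriv F) c y + (lam : ℂ) * ln F c y) ξ‖ ^ 2 =
      (2 * Real.pi * ξ + lam) ^ 2 * dens F c ξ := by
    intro ξ
    rw [fourier_add_mul i2 i1, fourier_deriv_line hF hδ hM hbd hc1 hc2, ← add_mul, norm_mul,
      mul_pow, ← Complex.ofReal_add, Complex.norm_real, Real.norm_eq_abs, sq_abs]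
    rfl
  refine ⟨?_, ?_, ?_⟩
  · exact (memLp_two_iff_integrable_sq_norm q2.aestronglyMeasurable).mp q2
  · have := (memLp_two_iff_integrable_sq_norm hP.1.aestronglyMeasurable).mp hP.1
    exact this.congr (Eventually.of_forall e1)
  · have := hP.2
    rw [integral_congr_ae (Eventually.of_forall e1)] at this
    rw [this]
    rfl

end

end U345Z
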