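import Pool.Agent.U345.ZO2

/-!
# Lower bounds for holomorphic functions outside small discs, on open sets
-/

set_option autoImplicit false

open MeasureTheory Filter Topology Complex Metric

namespace U345Z

noncomputable section

/-- `n` zeros, with multiplicity, in the disc are split off -/
def FacO (Ω : Set ℂ) (F : ℂ → ℂ) (c0 : ℂ) (r : ℝ) (n : ℕ) (ρ : Fin n → ℂ) (h : ℂ → ℂ) : Prop :=
  (∀ i, ‖ρ i - c0‖ ≤ r) ∧ DifferentiableOn ℂ h Ω ∧ ∀ s, F s = (∏ i, (s - ρ i)) * h s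

theorem FacO_succ {Ω : Set ℂ} (hΩ : IsOpen Ω) {F : ℂ → ℂ} {c0 : ℂ} {r : ℝ} (hr : closedBall c0 r ⊆ Ω) {n : ℕ}
    {ρ : Fin n → ℂ} {h : ℂ → ℂ} (H : FacO Ω F c0 r n ρ h)
    {z : ℂ} (hz : ‖z - c0‖ ≤ r) (hz0 : h z = 0) : ∃ (ρ' : Fin (n + 1) → ℂ) (h' : ℂ → ℂ),
    FacO Ω F c0 r (n + 1) ρ' h' := by
  obtain ⟨h1, h2, h3⟩ := H
  have hzΩ : z ∈ Ω := hr (by rwa [mem_closedBall_iff_norm])
  refine ⟨Fin.cons z ρ, dslope h z, ?_, ?_, ?_⟩
  · intro i
    refine Fin.cases ?_ (fun j => ?_) i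
    · simpa using hz
    · simpa using h1 j
  · exact (Complex.differentiableOn_dslope (f := h) (c := z) (hΩ.mem_nhds hzΩ)).2 h2
  · intro s
    rw [Fin.prod_univ_succ]
    simp only [Fin.cons_zero, Fin.cons_succ]
    have := sub_smul_dslope h z s
    rw [hz0, sub_zero, smul_eq_mul] at this
    rw [h3 s, ← this]
    ring

/-- All zeros in the disc can be split off. -/
theorem FacO_max {Ω : Set ℂ} (hΩ : IsOpen Ω) {F : ℂ → ℂ} (hF : DifferentiableOn ℂ F Ω) {c0 : ℂ} {r : ℝ}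
    (hr : closedBall c0 r ⊆ Ω) {n0 : ℕ}
    (hn0 : ∀ (n : ℕ) (ρ : Fin n → ℂ) (h : ℂ → ℂ), FacO Ω F c0 r n ρ h → n ≤ n0) :
    ∃ (n : ℕ) (ρ : Fin n → ℂ) (h : ℂ → ℂ), n ≤ n0 ∧ FacO Ω F c0 r n ρ h ∧ ∀ z, ‖z - c0‖ ≤ r → h z ≠ 0 := by
  by_contra hcon
  push Not at hcon
  have hall : ∀ n : ℕ, ∃ (ρ : Fin n → ℂ) (h : ℂ → ℂ), FacO Ω F c0 r n ρ h := by
    intro n
    induction n with
    | zero => exact ⟨fun i => i.elim0, F, fun i => i.elim0, hF, fun s => by simp⟩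
    | succ n ih =>
      obtain ⟨ρ, h, H⟩ := ih
      obtain ⟨z, hz, hz0⟩ := hcon n ρ h (hn0 n ρ h H) H
      exact FacO_succ hΩ hr H hz hz0
  obtain ⟨ρ, h, H⟩ := hall (n0 + 1)
  have := hn0 (n0 + 1) ρ h H
  omega

/-- **A lower bound outside small discs.** -/
theorem lower_discO {Ω : Set ℂ} (hΩ : IsOpen Ω) {F : ℂ → ℂ} (hF : DifferentiableOn ℂ F Ω) {c0 w : ℂ}
    {r K : ℝ} {n0 : ℕ} (hr : 0 < r) (hball0 : closedBall c0 (25 * r) ⊆ Ω)
    (hK : 2 ≤ K) (hKn : K ≤ 2 ^ n0) (hw : ‖w - c0‖ ≤ r) (hw0 : 0 < ‖F w‖)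
    (hR : ∀ s, ‖s - c0‖ = 25 * r → ‖F s‖ ≤ K * ‖F w‖) :
    ∃ (n : ℕ) (ρ : Fin n → ℂ), n ≤ n0 ∧ ∀ τ : ℝ, 0 < τ → ∀ z, ‖z - c0‖ ≤ r →
      (∀ j, τ * r ≤ ‖z - ρ j‖) → (τ / 6) ^ n / K ^ 2 * ‖F w‖ ≤ ‖F z‖ := by
  have hK0 : 0 < K := by linarith
  have hcount : ∀ (n : ℕ) (ρ : Fin n → ℂ) (h : ℂ → ℂ), FacO Ω F c0 (5 * r) n ρ h → n ≤ n0 := by
    intro n ρ h ⟨h1, h2, h3⟩
    have h4 := disc_small (f := F) (h := h) (c0 := c0) (r := 5 * r) (R := 25 * r) (M := K * ‖F w‖)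
      (ρ := ρ) (by positivity) (by linarith) h1 (h2.mono hball0) (fun s _ => h3 s) hR w
      (by linarith)
    have e : 2 * (5 * r) / (25 * r - 5 * r) = 1 / 2 := by
      field_simp
      norm_num
    rw [e] at h4
    have h5 : (2 : ℝ) ^ n ≤ K := by
      have h6 : ‖F w‖ * 2 ^ n ≤ ((1 / 2) ^ n * (K * ‖F w‖)) * 2 ^ n :=
        mul_le_mul_of_nonneg_right h4 (by positivity)
      have e2 : ((1 / 2 : ℝ) ^ n * (K * ‖F w‖)) * 2 ^ n = K * ‖F w‖ * ((1 / 2) * 2) ^ n := by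
        rw [mul_pow]
        ring
      rw [e2, show (1 / 2 : ℝ) * 2 = 1 by norm_num, one_pow, mul_one, mul_comm] at h6
      exact le_of_mul_le_mul_right h6 hw0
    have h7 : (2 : ℝ) ^ n ≤ 2 ^ n0 := h5.trans hKn
    exact (pow_le_pow_iff_right₀ (by norm_num : (1 : ℝ) < 2)).1 h7
  obtain ⟨n, ρ, h, hn, ⟨h1, h2, h3⟩, hne⟩ := FacO_max hΩ hF
    ((closedBall_subset_closedBall (by linarith : 5 * r ≤ 25 * r)).trans hball0) hcount
  refine ⟨n, ρ, hn, fun τ hτ z hz hzρ => ?_⟩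
  -- upper bound for the quotient
  have hq : ∀ s, ‖s - c0‖ ≤ 25 * r → ‖h s‖ ≤ K * ‖F w‖ / (20 * r) ^ n := by
    intro s hs
    have := disc_quot (f := F) (h := h) (c0 := c0) (r := 5 * r) (R := 25 * r) (M := K * ‖F w‖)
      (ρ := ρ) (by positivity) (by linarith) h1 (h2.mono hball0) (fun s _ => h3 s) hR s hs
    have e : 25 * r - 5 * r = 20 * r := by ring
    rwa [e] at this
  -- lower bound at `w`
  have hlow : ‖F w‖ / (6 * r) ^ n ≤ ‖h w‖ := by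
    rw [div_le_iff₀ (by positivity)]
    have h5 : ∏ i : Fin n, ‖w - ρ i‖ ≤ (6 * r) ^ n := by
      have : ∏ i : Fin n, ‖w - ρ i‖ ≤ ∏ _i : Fin n, (6 * r) := by
        apply Finset.prod_le_prod
        · intro i _; exact norm_nonneg _
        · intro i _
          have := norm_sub_le (w - c0) (ρ i - c0)
          rw [sub_sub_sub_cancel_right] at this
          linarith [h1 i]
      simpa using this
    calc ‖F w‖ = (∏ i : Fin n, ‖w - ρ i‖) * ‖h w‖ := by rw [h3 w, norm_mul, norm_prod]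
      _ ≤ (6 * r) ^ n * ‖h w‖ := mul_le_mul_of_nonneg_right h5 (norm_nonneg _)
      _ = _ := mul_comm _ _
  have hball : ∀ z ∈ ball w (4 * r), ‖z - c0‖ ≤ 5 * r := by
    intro z hz
    rw [mem_ball, dist_eq_norm] at hz
    calc ‖z - c0‖ = ‖(z - w) + (w - c0)‖ := by rw [sub_add_sub_cancel]
      _ ≤ ‖z - w‖ + ‖w - c0‖ := norm_add_le _ _
      _ ≤ _ := by linarith
  have hballΩ : ball w (4 * r) ⊆ Ω := by
    intro z hz
    apply hball0
    rw [mem_closedBall_iff_norm]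
    linarith [hball z hz]
  have hlogK : 0 < Real.log K := Real.log_pos (by linarith)
  have hH := harnack' (K := h) (w := w) (d := 4 * r) (M := Real.log K) (by positivity) hlogK
    (h2.mono hballΩ) (fun z hz => hne z (hball z hz))
    (by
      intro z hz
      rw [Real.exp_log hK0]
      have h5 := hq z (by linarith [hball z hz])
      refine h5.trans ?_
      have h6 : K * ‖F w‖ / (20 * r) ^ n ≤ K * (‖F w‖ / (6 * r) ^ n) := by
        rw [mul_div_assoc]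
        apply mul_le_mul_of_nonneg_left _ hK0.le
        apply div_le_div_of_nonneg_left hw0.le (by positivity)
        apply pow_le_pow_left₀ (by positivity)
        linarith
      exact h6.trans (mul_le_mul_of_nonneg_left hlow hK0.le))
    z (by
      calc ‖z - w‖ ≤ ‖z - c0‖ + ‖w - c0‖ := by
            have := norm_sub_le (z - c0) (w - c0)
            rwa [sub_sub_sub_cancel_right] at this
        _ ≤ 4 * r / 2 := by linarith)
  have e2 : Real.exp (2 * Real.log K) = K ^ 2 := by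
    rw [two_mul, Real.exp_add, Real.exp_log hK0]
    ring
  rw [e2] at hH
  have h7 : (τ * r) ^ n ≤ ∏ i : Fin n, ‖z - ρ i‖ := by
    have : ∏ _i : Fin n, (τ * r) ≤ ∏ i : Fin n, ‖z - ρ i‖ := by
      apply Finset.prod_le_prod
      · intro i _; positivity
      · intro i _; exact hzρ i
    simpa using this
  have h8 : ‖F w‖ / (6 * r) ^ n / K ^ 2 ≤ ‖h z‖ := by
    rw [div_le_iff₀ (by positivity)]
    linarith
  calc (τ / 6) ^ n / K ^ 2 * ‖F w‖ = (τ * r) ^ n * (‖F w‖ / (6 * r) ^ n / K ^ 2) := by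
        rw [div_pow, mul_pow, mul_pow]
        field_simp
    _ ≤ (∏ i : Fin n, ‖z - ρ i‖) * ‖h z‖ := by
        apply mul_le_mul h7 h8 (by positivity) (Finset.prod_nonneg fun i _ => norm_nonneg _)
    _ = ‖F z‖ := by rw [h3 z, norm_mul, norm_prod]

/-- The set of heights far from finitely many points is large. -/
theorem far_heightsI {ι : Type} [Fintype ι] {n0 : ℕ} (hn : Fintype.card ι ≤ n0) (t : ι → ℝ) {a h σ : ℝ}
    (hh : 0 < h) (hσ : 0 < σ) (hs : 4 * σ * n0 ≤ h) :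
    MeasurableSet {y : ℝ | y ∈ Set.Icc a (a + h) ∧ ∀ j, σ ≤ |y - t j|} ∧
    h / 2 ≤ (volume : Measure ℝ).real {y : ℝ | y ∈ Set.Icc a (a + h) ∧ ∀ j, σ ≤ |y - t j|} := by
  have e : ι ≃ Fin (Fintype.card ι) := Fintype.equivFin ι
  have h1 := far_heights hn (fun j => t (e.symm j)) (a := a) hh hσ hs
  have h2 : {y : ℝ | y ∈ Set.Icc a (a + h) ∧ ∀ j, σ ≤ |y - t (e.symm j)|} =
      {y : ℝ | y ∈ Set.Icc a (a + h) ∧ ∀ j, σ ≤ |y - t j|} := by
    ext y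
    constructor
    · rintro ⟨h3, h4⟩
      refine ⟨h3, fun j => ?_⟩
      have := h4 (e j)
      rwa [Equiv.symm_apply_apply] at this
    · rintro ⟨h3, h4⟩
      exact ⟨h3, fun j => h4 _⟩
  rwa [h2] at h1

end

end U345Z
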