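import Pool.Agent.U345.ZAA

/-!
# Differential operators with constant coefficients, and the functional equation
-/

set_option autoImplicit false

open Filter Topology Complex Metric Polynomial

namespace U345Z

noncomputable section

/-- the shift of sequences -/
def shft : (ℕ → ℂ) →ₗ[ℂ] (ℕ → ℂ) where
  toFun a := fun j => a (j + 1)
  map_add' := fun _ _ => rfl
  map_smul' := fun _ _ => rfl

theorem shft_pow (i : ℕ) (a : ℕ → ℂ) (j : ℕ) : (shft ^ i) a j = a (j + i) := by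
  induction i generalizing j with
  | zero => rfl
  | succ n ih =>
    rw [pow_succ', Module.End.mul_apply]
    show ((shft ^ n) a) (j + 1) = _
    rw [ih]
    congr 1
    ring

theorem aeval_shft (P : ℂ[X]) (a : ℕ → ℂ) (j : ℕ) : (aeval shft P a) j =
    ∑ i ∈ Finset.range (P.natDegree + 1), P.coeff i * a (j + i) := by
  rw [aeval_eq_sum_range, LinearMap.sum_apply, Finset.sum_apply]
  refine Finset.sum_congr rfl fun i _ => ?_
  rw [LinearMap.smul_apply, Pi.smul_apply, shft_pow, smul_eq_mul]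

/-- the sequence of the derivatives -/
def sqd (f : ℂ → ℂ) (u : ℂ) : ℕ → ℂ := fun j => iteratedDeriv j f u

/-- the operator `P(d/du)` -/
def op (P : ℂ[X]) (f : ℂ → ℂ) (u : ℂ) : ℂ :=
  ∑ i ∈ Finset.range (P.natDegree + 1), P.coeff i * iteratedDeriv i f u

theorem op_eq (P : ℂ[X]) (f : ℂ → ℂ) (u : ℂ) : op P f u = (aeval shft P (sqd f u)) 0 := by
  rw [aeval_shft]
  unfold op sqd
  refine Finset.sum_congr rfl fun i _ => ?_
  rw [zero_add]

theorem op_add (P Q : ℂ[X]) (f : ℂ → ℂ) (u : ℂ) : op (P + Q) f u = op P f u + op Q f u := by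
  rw [op_eq, op_eq, op_eq, map_add, LinearMap.add_apply, Pi.add_apply]

theorem op_sum {ι : Type} (s : Finset ι) (P : ι → ℂ[X]) (f : ℂ → ℂ) (u : ℂ) :
    op (∑ i ∈ s, P i) f u = ∑ i ∈ s, op (P i) f u := by
  rw [op_eq, map_sum, LinearMap.sum_apply, Finset.sum_apply]
  refine Finset.sum_congr rfl fun i _ => ?_
  rw [op_eq]

theorem op_C_mul (c : ℂ) (P : ℂ[X]) (f : ℂ → ℂ) (u : ℂ) : op (C c * P) f u = c * op P f u := by
  rw [op_eq, op_eq, map_mul, aeval_C, Module.End.mul_apply]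
  rfl

theorem op_X_pow (n : ℕ) (f : ℂ → ℂ) (u : ℂ) : op (X ^ n) f u = iteratedDeriv n f u := by
  rw [op_eq, map_pow, aeval_X, shft_pow, zero_add]
  rfl

theorem op_one (f : ℂ → ℂ) (u : ℂ) : op 1 f u = f u := by
  have := op_X_pow 0 f u
  rwa [pow_zero, iteratedDeriv_zero] at this

theorem op_X (f : ℂ → ℂ) (u : ℂ) : op X f u = deriv f u := by
  have := op_X_pow 1 f u
  rwa [pow_one, iteratedDeriv_one] at this

theorem op_const_mul (κ : ℂ) (P : ℂ[X]) (f : ℂ → ℂ) (u : ℂ) : op P (fun v => κ * f v) u = κ * op P f u := by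
  unfold op
  rw [Finset.mul_sum]
  refine Finset.sum_congr rfl fun i _ => ?_
  rw [iteratedDeriv_const_mul_field]
  ring

theorem iter_open {Ω : Set ℂ} (hΩ : IsOpen Ω) {f : ℂ → ℂ} (hf : DifferentiableOn ℂ f Ω) (j : ℕ) :
    DifferentiableOn ℂ (iteratedDeriv j f) Ω := by
  induction j with
  | zero => rwa [iteratedDeriv_zero]
  | succ n ih =>
    rw [iteratedDeriv_succ]
    exact ih.deriv hΩ

theorem op_diff {Ω : Set ℂ} (hΩ : IsOpen Ω) {f : ℂ → ℂ} (hf : DifferentiableOn ℂ f Ω) (P : ℂ[X]) :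
    DifferentiableOn ℂ (op P f) Ω := by
  unfold op
  apply DifferentiableOn.fun_sum
  intro i _
  exact (iter_open hΩ hf i).const_mul _

theorem op_congr {Ω : Set ℂ} (hΩ : IsOpen Ω) {f g : ℂ → ℂ} (h : Set.EqOn f g Ω) {u : ℂ} (hu : u ∈ Ω) (P : ℂ[X]) :
    op P f u = op P g u := by
  unfold op
  refine Finset.sum_congr rfl fun i _ => ?_
  rw [h.iteratedDeriv_of_isOpen hΩ i hu]

theorem op_add_fun {Ω : Set ℂ} (hΩ : IsOpen Ω) {f g : ℂ → ℂ} (hf : DifferentiableOn ℂ f Ω)
    (hg : DifferentiableOn ℂ g Ω) {u : ℂ} (hu : u ∈ Ω) (P : ℂ[X]) :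
    op P (fun v => f v + g v) u = op P f u + op P g u := by
  have hf' : AnalyticAt ℂ f u := (hf.analyticOnNhd hΩ) u hu
  have hg' : AnalyticAt ℂ g u := (hg.analyticOnNhd hΩ) u hu
  unfold op
  rw [← Finset.sum_add_distrib]
  refine Finset.sum_congr rfl fun i _ => ?_
  have h := iteratedDeriv_add (n := i) (hf'.contDiffAt) (hg'.contDiffAt)
  have e : (fun v => f v + g v) = f + g := rfl
  rw [e, h]
  ring

theorem sqd_op {Ω : Set ℂ} (hΩ : IsOpen Ω) {f : ℂ → ℂ} (hf : DifferentiableOn ℂ f Ω) (P : ℂ[X]) {u : ℂ}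
    (hu : u ∈ Ω) : sqd (op P f) u = aeval shft P (sqd f u) := by
  funext j
  rw [aeval_shft]
  show iteratedDeriv j (op P f) u = ∑ i ∈ Finset.range (P.natDegree + 1), P.coeff i * iteratedDeriv (j + i) f u
  induction j generalizing u with
  | zero =>
    rw [iteratedDeriv_zero]
    unfold op
    refine Finset.sum_congr rfl fun i _ => ?_
    rw [zero_add]
  | succ n ih =>
    rw [iteratedDeriv_succ]
    have h1 : iteratedDeriv n (op P f) =ᶠ[𝓝 u]
        fun v => ∑ i ∈ Finset.range (P.natDegree + 1), P.coeff i * iteratedDeriv (n + i) f v := by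
      filter_upwards [hΩ.mem_nhds hu] with v hv
      exact ih hv
    rw [h1.deriv_eq]
    have h2 : HasDerivAt (fun v => ∑ i ∈ Finset.range (P.natDegree + 1), P.coeff i * iteratedDeriv (n + i) f v)
        (∑ i ∈ Finset.range (P.natDegree + 1), P.coeff i * iteratedDeriv (n + 1 + i) f u) u := by
      apply HasDerivAt.fun_sum
      intro i _
      apply HasDerivAt.const_mul
      have h3 := ((iter_open hΩ hf (n + i)).differentiableAt (hΩ.mem_nhds hu)).hasDerivAt
      have e : iteratedDeriv (n + 1 + i) f u = deriv (iteratedDeriv (n + i) f) u := by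
        rw [← iteratedDeriv_succ]
        congr 1
        ring
      rwa [e]
    exact h2.deriv

theorem op_mul {Ω : Set ℂ} (hΩ : IsOpen Ω) {f : ℂ → ℂ} (hf : DifferentiableOn ℂ f Ω) (A B : ℂ[X]) {u : ℂ}
    (hu : u ∈ Ω) : op (A * B) f u = op A (op B f) u := by
  rw [op_eq, op_eq, sqd_op hΩ hf B hu, map_mul, Module.End.mul_apply]

theorem exp_iter {Ω : Set ℂ} (hΩ : IsOpen Ω) (n : ℕ) : ∀ {f : ℂ → ℂ} (_ : DifferentiableOn ℂ f Ω) {u : ℂ}
    (_ : u ∈ Ω), iteratedDeriv n (fun v => cexp v * f v) u = cexp u * op ((X + 1) ^ n) f u := by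
  induction n with
  | zero =>
    intro f hf u hu
    rw [iteratedDeriv_zero, pow_zero, op_one]
  | succ n ih =>
    intro f hf u hu
    have h1 : Set.EqOn (deriv (fun v => cexp v * f v)) (fun v => cexp v * op (X + 1) f v) Ω := by
      intro v hv
      have h2 := (hf.differentiableAt (hΩ.mem_nhds hv)).hasDerivAt
      have h3 : HasDerivAt (fun v => cexp v * f v) (cexp v * f v + cexp v * deriv f v) v :=
        (Complex.hasDerivAt_exp v).mul h2
      beta_reduce
      rw [h3.deriv, op_add, op_X, op_one]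
      ring
    rw [iteratedDeriv_succ', h1.iteratedDeriv_of_isOpen hΩ n hu, ih (op_diff hΩ hf _) hu, pow_succ,
      op_mul hΩ hf _ _ hu]

theorem op_exp {Ω : Set ℂ} (hΩ : IsOpen Ω) {f : ℂ → ℂ} (hf : DifferentiableOn ℂ f Ω) (P : ℂ[X]) {u : ℂ}
    (hu : u ∈ Ω) : op P (fun v => cexp v * f v) u = cexp u * op (P.comp (X + 1)) f u := by
  have e : P.comp (X + 1) = ∑ i ∈ Finset.range (P.natDegree + 1), C (P.coeff i) * (X + 1) ^ i := by
    unfold Polynomial.comp
    rw [eval₂_eq_sum_range]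
  rw [e, op_sum]
  unfold op
  rw [Finset.mul_sum]
  refine Finset.sum_congr rfl fun i _ => ?_
  rw [exp_iter hΩ i hf hu]
  have := op_C_mul (P.coeff i) ((X + 1) ^ i) f u
  unfold op at this ⊢
  rw [this]
  ring

/-- the constant in Cauchy's estimate -/
def cP (P : ℂ[X]) : ℝ := ∑ i ∈ Finset.range (P.natDegree + 1), ‖P.coeff i‖ * i.factorial

theorem cP_nonneg (P : ℂ[X]) : 0 ≤ cP P := by
  unfold cP
  positivity

theorem op_bound {Ω : Set ℂ} {f : ℂ → ℂ} (hf : DifferentiableOn ℂ f Ω) (P : ℂ[X]) {v : ℂ}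
    (hv : closedBall v 1 ⊆ Ω) {M : ℝ} (hM : ∀ u, ‖u - v‖ ≤ 1 → ‖f u‖ ≤ M) : ‖op P f v‖ ≤ cP P * M := by
  unfold op cP
  rw [Finset.sum_mul]
  refine (norm_sum_le _ _).trans (Finset.sum_le_sum fun i _ => ?_)
  rw [norm_mul, mul_assoc]
  apply mul_le_mul_of_nonneg_left _ (norm_nonneg _)
  have h1 := Complex.norm_iteratedDeriv_le_of_forall_mem_sphere_norm_le (f := f) (c := v)
    (R := 1) (C := M) i one_pos (by
      apply DifferentiableOn.diffContOnCl
      rw [closure_ball v one_ne_zero]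
      exact hf.mono hv)
    (by
      intro w hw
      rw [mem_sphere_iff_norm] at hw
      exact hM w hw.le)
  rwa [one_pow, div_one] at h1

/-- **Smallness of `Q(D)F` and the functional equation imply that `F` is small.** -/
theorem small_of_op {Q P A B : ℂ[X]} (hAB : A * Q + B * P.comp (X + 1) = 1) : ∃ K : ℝ, 0 < K ∧
    ∀ (Ω : Set ℂ), IsOpen Ω → closedBall (0 : ℂ) 2 ⊆ Ω → ∀ F G : ℂ → ℂ, DifferentiableOn ℂ F Ω →
    DifferentiableOn ℂ G Ω → ∀ κ : ℂ, ‖κ‖ = 1 → ∀ ε δ : ℝ, 0 ≤ ε → 0 ≤ δ →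
    (∀ u, ‖u‖ ≤ 2 → ‖op Q F u‖ ≤ ε) → (∀ u, ‖u‖ ≤ 2 → ‖op P G u‖ ≤ ε) →
    (∀ u, ‖u‖ ≤ 2 → ‖G u - κ * (cexp u * F u)‖ ≤ δ) → ‖F 0‖ ≤ K * (ε + δ) := by
  have hA := cP_nonneg A
  have hB := cP_nonneg B
  have hP := cP_nonneg P
  refine ⟨cP A + cP B * (Real.exp 1 * (1 + cP P)) + 1, by positivity, ?_⟩
  intro Ω hΩ hball F G hF hG κ hκ ε δ hε hδ h1 h2 h3
  have h0 : (0 : ℂ) ∈ Ω := hball (mem_closedBall_self (by norm_num))
  have hsub : ∀ v : ℂ, ‖v‖ ≤ 1 → closedBall v 1 ⊆ Ω := by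
    intro v hv u hu
    apply hball
    rw [mem_closedBall_iff_norm] at hu
    rw [mem_closedBall_iff_norm, sub_zero]
    calc ‖u‖ = ‖(u - v) + v‖ := by rw [sub_add_cancel]
      _ ≤ ‖u - v‖ + ‖v‖ := norm_add_le _ _
      _ ≤ 2 := by linarith
  have hnear : ∀ v u : ℂ, ‖v‖ ≤ 1 → ‖u - v‖ ≤ 1 → ‖u‖ ≤ 2 := by
    intro v u hv hu
    calc ‖u‖ = ‖(u - v) + v‖ := by rw [sub_add_cancel]
      _ ≤ ‖u - v‖ + ‖v‖ := norm_add_le _ _
      _ ≤ 2 := by linarith
  -- the first part
  have q1 : ‖op A (op Q F) 0‖ ≤ cP A * ε := by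
    apply op_bound (op_diff hΩ hF Q) A (hsub 0 (by simp))
    intro u hu
    exact h1 u (hnear 0 u (by simp) hu)
  -- the second part
  have hEd : DifferentiableOn ℂ (fun u => G u - κ * (cexp u * F u)) Ω := by
    apply hG.sub
    apply DifferentiableOn.const_mul
    exact Complex.differentiable_exp.differentiableOn.mul hF
  have hFd : DifferentiableOn ℂ (fun u => κ * (cexp u * F u)) Ω := by
    apply DifferentiableOn.const_mul
    exact Complex.differentiable_exp.differentiableOn.mul hF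
  have q2 : ∀ v : ℂ, ‖v‖ ≤ 1 → ‖op (P.comp (X + 1)) F v‖ ≤ Real.exp 1 * (1 + cP P) * (ε + δ) := by
    intro v hv
    have hvΩ : v ∈ Ω := hsub v hv (mem_closedBall_self zero_le_one)
    have e1 : op P G v = op P (fun u => G u - κ * (cexp u * F u)) v +
        κ * (cexp v * op (P.comp (X + 1)) F v) := by
      rw [← op_exp hΩ hF P hvΩ, ← op_const_mul, ← op_add_fun hΩ hEd hFd hvΩ]
      congr 1
      funext u
      ring
    have q3 : ‖op P (fun u => G u - κ * (cexp u * F u)) v‖ ≤ cP P * δ := by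
      apply op_bound hEd P (hsub v hv)
      intro u hu
      exact h3 u (hnear v u hv hu)
    have q4 : ‖cexp v * op (P.comp (X + 1)) F v‖ ≤ ε + cP P * δ := by
      have e2 : κ * (cexp v * op (P.comp (X + 1)) F v) =
          op P G v - op P (fun u => G u - κ * (cexp u * F u)) v := by rw [e1]; ring
      have e3 : ‖cexp v * op (P.comp (X + 1)) F v‖ = ‖κ * (cexp v * op (P.comp (X + 1)) F v)‖ := by
        rw [norm_mul κ, hκ, one_mul]
      rw [e3, e2]
      refine (norm_sub_le _ _).trans ?_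
      have := h2 v (by linarith)
      linarith
    have q5 : Real.exp (-1) ≤ ‖cexp v‖ := by
      rw [Complex.norm_exp]
      apply Real.exp_le_exp.2
      have := Complex.abs_re_le_norm v
      have := neg_abs_le v.re
      linarith
    rw [norm_mul] at q4
    have hn := norm_nonneg (op (P.comp (X + 1)) F v)
    have q6 : Real.exp (-1) * ‖op (P.comp (X + 1)) F v‖ ≤ ε + cP P * δ :=
      (mul_le_mul_of_nonneg_right q5 hn).trans q4
    have q7 := mul_le_mul_of_nonneg_left q6 (Real.exp_pos 1).le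
    have e4 : Real.exp 1 * (Real.exp (-1) * ‖op (P.comp (X + 1)) F v‖) = ‖op (P.comp (X + 1)) F v‖ := by
      rw [← mul_assoc, ← Real.exp_add, add_neg_cancel, Real.exp_zero, one_mul]
    rw [e4] at q7
    refine q7.trans ?_
    rw [mul_assoc]
    apply mul_le_mul_of_nonneg_left _ (Real.exp_pos 1).le
    nlinarith [mul_nonneg hP hε]
  have q8 : ‖op B (op (P.comp (X + 1)) F) 0‖ ≤ cP B * (Real.exp 1 * (1 + cP P) * (ε + δ)) := by
    apply op_bound (op_diff hΩ hF _) B (hsub 0 (by simp))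
    intro u hu
    rw [sub_zero] at hu
    exact q2 u hu
  have e5 : F 0 = op A (op Q F) 0 + op B (op (P.comp (X + 1)) F) 0 := by
    rw [← op_mul hΩ hF _ _ h0, ← op_mul hΩ hF _ _ h0, ← op_add, hAB, op_one]
  rw [e5]
  refine (norm_add_le _ _).trans ((add_le_add q1 q8).trans ?_)
  have : cP A * ε ≤ cP A * (ε + δ) := mul_le_mul_of_nonneg_left (by linarith) hA
  nlinarith

end

end U345Z
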