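import Pool.Agent.U345.ZAB
import Pool.Agent.H345R2.Chi

/-!
# Differential operators with constant coefficients applied to zeta
-/

set_option autoImplicit false

open Filter Topology Complex Metric Polynomial

namespace U345Z

open H345 H345.Chi

noncomputable section

/-- the reflected polynomial -/
def stP (Q : ℂ[X]) : ℂ[X] :=
  ∑ i ∈ Finset.range (Q.natDegree + 1), C ((-1) ^ i * (starRingEnd ℂ) (Q.coeff i)) * X ^ i

/-- `Q(D / L) ζ` -/
def opz (Q : ℂ[X]) (L : ℝ) (s : ℂ) : ℂ :=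
  ∑ i ∈ Finset.range (Q.natDegree + 1), Q.coeff i * (iteratedDeriv i riemannZeta s / (L : ℂ) ^ i)

theorem deriv_affine (g : ℂ → ℂ) (a b u : ℂ) : deriv (fun u => g (b + a * u)) u = a * deriv g (b + a * u) := by
  have h1 := deriv_comp_mul_left a (fun x => g (b + x)) u
  rw [deriv_comp_const_add, smul_eq_mul] at h1
  exact h1

theorem iter_affine (f : ℂ → ℂ) (a b : ℂ) (j : ℕ) :
    iteratedDeriv j (fun u => f (b + a * u)) = fun u => a ^ j * iteratedDeriv j f (b + a * u) := by
  induction j with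
  | zero =>
    funext u
    simp
  | succ n ih =>
    rw [iteratedDeriv_succ, ih]
    funext u
    rw [deriv_const_mul_field, deriv_affine, iteratedDeriv_succ]
    ring

theorem iter_conj (j : ℕ) (s : ℂ) :
    iteratedDeriv j riemannZeta ((starRingEnd ℂ) s) = (starRingEnd ℂ) (iteratedDeriv j riemannZeta s) := by
  have h : (starRingEnd ℂ) ∘ iteratedDeriv j riemannZeta ∘ (starRingEnd ℂ) = iteratedDeriv j riemannZeta := by
    induction j with
    | zero =>
      funext s
      simp only [Function.comp, iteratedDeriv_zero]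
      rw [riemannZeta_conj, Complex.conj_conj]
    | succ n ih =>
      rw [iteratedDeriv_succ, ← deriv_conj_conj, ih]
  have := congrFun h ((starRingEnd ℂ) s)
  simp only [Function.comp] at this
  rw [Complex.conj_conj] at this
  exact this.symm

theorem op_F (Q : ℂ[X]) (L : ℝ) (c u : ℂ) :
    op Q (fun u => riemannZeta (c + (1 / (L : ℂ)) * u)) u = opz Q L (c + (1 / (L : ℂ)) * u) := by
  unfold op opz
  refine Finset.sum_congr rfl fun i _ => ?_
  rw [iter_affine]
  beta_reduce
  rw [one_div, inv_pow]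
  ring

theorem op_G (Q : ℂ[X]) (L : ℝ) {c : ℂ} (hc : (starRingEnd ℂ) c = 1 - c) (u : ℂ) :
    ‖op (stP Q) (fun u => riemannZeta ((1 - c) + (-(1 / (L : ℂ))) * u)) u‖ =
      ‖opz Q L (c + (1 / (L : ℂ)) * (-(starRingEnd ℂ) u))‖ := by
  have e : op (stP Q) (fun u => riemannZeta ((1 - c) + (-(1 / (L : ℂ))) * u)) u =
      (starRingEnd ℂ) (opz Q L (c + (1 / (L : ℂ)) * (-(starRingEnd ℂ) u))) := by
    unfold stP
    rw [op_sum]
    unfold opz
    rw [map_sum]
    refine Finset.sum_congr rfl fun i _ => ?_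
    rw [op_C_mul, op_X_pow, iter_affine, map_mul, map_div₀, map_pow, Complex.conj_ofReal, ← iter_conj]
    beta_reduce
    have e1 : (starRingEnd ℂ) (c + (1 / (L : ℂ)) * (-(starRingEnd ℂ) u)) = (1 - c) + (-(1 / (L : ℂ))) * u := by
      rw [map_add, map_mul, map_neg, Complex.conj_conj, map_div₀, map_one, Complex.conj_ofReal, hc]
      ring
    have e3 : (-(1 / (L : ℂ))) ^ i = (-1) ^ i * ((L : ℂ) ^ i)⁻¹ := by
      rw [neg_pow, one_div, inv_pow]
    rw [e1, e3]
    have e2 : ((-1 : ℂ)) ^ i * (-1) ^ i = 1 := by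
      rw [← mul_pow]
      norm_num
    linear_combination ((starRingEnd ℂ) (Q.coeff i) * (((L : ℂ) ^ i)⁻¹ *
      iteratedDeriv i riemannZeta (1 - c + -(1 / (L : ℂ)) * u))) * e2
  rw [e, Complex.norm_conj]

theorem pt_conj (t : ℝ) : (starRingEnd ℂ) (pt t) = 1 - pt t := by
  unfold pt
  simp only [map_add, map_mul, Complex.conj_ofReal, Complex.conj_I]
  push_cast
  ring

theorem pt_re (t : ℝ) : (pt t).re = 1 / 2 := by
  unfold pt
  simp

theorem pt_im (t : ℝ) : (pt t).im = t := by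
  unfold pt
  simp

theorem near_re_im {L t : ℝ} (hL : 0 < L) {u : ℂ} {R : ℝ} (hu : ‖u‖ ≤ R) :
    |(pt t + (1 / (L : ℂ)) * u).re - 1 / 2| ≤ R / L ∧ |(pt t + (1 / (L : ℂ)) * u).im - t| ≤ R / L := by
  have e : (1 / (L : ℂ)) * u = ((1 / L : ℝ) : ℂ) * u := by push_cast; ring
  have h1 := Complex.abs_re_le_norm u
  have h2 := Complex.abs_im_le_norm u
  rw [e, Complex.add_re, Complex.add_im, pt_re, pt_im, Complex.re_ofReal_mul, Complex.im_ofReal_mul,
    add_sub_cancel_left, add_sub_cancel_left, abs_mul, abs_mul, abs_of_pos (show 0 < 1 / L by positivity)]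
  have e2 : R / L = 1 / L * R := by ring
  rw [e2]
  constructor
  · exact mul_le_mul_of_nonneg_left (h1.trans hu) (by positivity)
  · exact mul_le_mul_of_nonneg_left (h2.trans hu) (by positivity)

/-- The factor of the functional equation near a point of the line. -/
theorem XX_near : ∀ᶠ T : ℝ in atTop, ∀ t : ℝ, |t - T| ≤ T / 2 → ∀ u : ℂ, ‖u‖ ≤ 2 →
    ‖XX (pt t + (1 / (Real.log T : ℂ)) * u) - XX (pt t) * cexp u‖ ≤ 32 * Real.exp 2 / Real.log T := by
  filter_upwards [eventually_ge_atTop 100, Real.tendsto_log_atTop.eventually_ge_atTop 32] with T hT hL t ht u hu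
  set L := Real.log T with hLd
  have hL0 : 0 < L := by linarith
  have hT0 : 0 < T := by linarith
  set Y : ℂ → ℂ := fun u => XX (pt t + (1 / (L : ℂ)) * u) * cexp (-u) with hY
  have ht2 := abs_le.1 ht
  have hreg : ∀ v : ℂ, ‖v‖ ≤ 2 → 0 < (pt t + (1 / (L : ℂ)) * v).re ∧ (pt t + (1 / (L : ℂ)) * v).re ≤ 4 ∧
      12 ≤ (pt t + (1 / (L : ℂ)) * v).im ∧ T / 4 ≤ (pt t + (1 / (L : ℂ)) * v).im ∧
      (pt t + (1 / (L : ℂ)) * v).im ≤ 2 * T := by
    intro v hv
    obtain ⟨h1, h2⟩ := near_re_im (t := t) hL0 hv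
    have h3 : 2 / L ≤ 1 / 16 := by
      rw [div_le_iff₀ hL0]
      linarith
    have h4 := abs_le.1 (h1.trans h3)
    have h5 := abs_le.1 (h2.trans h3)
    refine ⟨by linarith, by linarith, by linarith, by linarith, by linarith⟩
  have hder : ∀ v : ℂ, ‖v‖ ≤ 2 → HasDerivAt Y (Y v * (L2 (pt t + (1 / (L : ℂ)) * v) / L - 1)) v := by
    intro v hv
    obtain ⟨h1, h2, h3, h4, h5⟩ := hreg v hv
    have h6 := hasDerivAt_XX h1 (by linarith)
    have h7 : HasDerivAt (fun v : ℂ => pt t + (1 / (L : ℂ)) * v) (1 / (L : ℂ)) v := by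
      simpa using ((hasDerivAt_id v).const_mul (1 / (L : ℂ))).const_add (pt t)
    have h8 := h6.comp v h7
    have h9 : HasDerivAt (fun v : ℂ => cexp (-v)) (cexp (-v) * (-1)) v := (hasDerivAt_neg v).cexp
    refine (h8.mul h9).congr_deriv ?_
    simp only [hY, Function.comp]
    ring
  have hL2 : ∀ v : ℂ, ‖v‖ ≤ 2 → ‖L2 (pt t + (1 / (L : ℂ)) * v) / L - 1‖ ≤ 8 / L := by
    intro v hv
    obtain ⟨h1, h2, h3, h4, h5⟩ := hreg v hv
    set s := pt t + (1 / (L : ℂ)) * v with hs
    have h6 := L2_close h1 h2 h3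
    have h7 : (14 : ℝ) / s.im ≤ 2 := by
      rw [div_le_iff₀ (by linarith)]
      linarith
    have hpi : Real.log (2 * Real.pi) ≤ 2 := by
      rw [Real.log_le_iff_le_exp (by positivity)]
      have e1 := Real.pi_lt_d2
      have e2 : (2.7 : ℝ) ≤ Real.exp 1 := by
        have := Real.exp_one_gt_d9
        linarith
      have e3 : Real.exp 2 = Real.exp 1 * Real.exp 1 := by
        rw [← Real.exp_add]
        norm_num
      rw [e3]
      nlinarith
    have hpi0 : 0 ≤ Real.log (2 * Real.pi) := Real.log_nonneg (by linarith [Real.pi_gt_three])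
    have hlog4 : Real.log 4 ≤ 2 := by
      rw [Real.log_le_iff_le_exp (by norm_num)]
      have e2 : (2.7 : ℝ) ≤ Real.exp 1 := by
        have := Real.exp_one_gt_d9
        linarith
      have e3 : Real.exp 2 = Real.exp 1 * Real.exp 1 := by
        rw [← Real.exp_add]
        norm_num
      rw [e3]
      nlinarith
    have hlog2 : Real.log 2 ≤ 2 := by
      have := Real.log_two_lt_d9
      linarith
    have him : 0 < s.im := by linarith
    have h8 : |Real.log (s.im / (2 * Real.pi)) - L| ≤ 4 := by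
      rw [Real.log_div him.ne' (by positivity)]
      have h9 : Real.log s.im ≤ Real.log 2 + L := by
        rw [hLd, ← Real.log_mul (by norm_num) hT0.ne']
        exact Real.log_le_log him h5
      have h10 : L - Real.log 4 ≤ Real.log s.im := by
        rw [hLd, ← Real.log_div hT0.ne' (by norm_num)]
        exact Real.log_le_log (by positivity) h4
      rw [abs_le]
      constructor <;> linarith
    have e1 : L2 s / L - 1 = ((L2 s - (Real.log (s.im / (2 * Real.pi)) : ℂ)) +
        ((Real.log (s.im / (2 * Real.pi)) - L : ℝ) : ℂ)) / L := by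
      have hLc : (L : ℂ) ≠ 0 := by exact_mod_cast hL0.ne'
      field_simp
      push_cast
      ring
    rw [e1, norm_div, Complex.norm_real, Real.norm_of_nonneg hL0.le]
    apply div_le_div_of_nonneg_right _ hL0.le
    refine (norm_add_le _ _).trans ?_
    rw [Complex.norm_real, Real.norm_eq_abs]
    linarith
  obtain ⟨u1, hu1, hmax⟩ := (isCompact_closedBall (0 : ℂ) 2).exists_isMaxOn
    ⟨0, mem_closedBall_self (by norm_num)⟩ (f := fun u => ‖Y u‖) (by
      apply ContinuousOn.norm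
      intro v hv
      rw [mem_closedBall_iff_norm, sub_zero] at hv
      exact (hder v hv).continuousAt.continuousWithinAt)
  rw [mem_closedBall_iff_norm, sub_zero] at hu1
  have hmax' : ∀ v : ℂ, ‖v‖ ≤ 2 → ‖Y v‖ ≤ ‖Y u1‖ := by
    intro v hv
    exact hmax (by rwa [mem_closedBall_iff_norm, sub_zero])
  have hmv : ∀ v : ℂ, ‖v‖ ≤ 2 → ‖Y v - Y 0‖ ≤ (‖Y u1‖ * (8 / L)) * ‖v - 0‖ := by
    intro v hv
    apply Convex.norm_image_sub_le_of_norm_hasDerivWithin_le (𝕜 := ℂ) (f := Y)
      (f' := fun v => Y v * (L2 (pt t + (1 / (L : ℂ)) * v) / L - 1)) (s := closedBall 0 2)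
      (x := 0) (y := v)
    · intro w hw
      rw [mem_closedBall_iff_norm, sub_zero] at hw
      exact (hder w hw).hasDerivWithinAt
    · intro w hw
      rw [mem_closedBall_iff_norm, sub_zero] at hw
      rw [norm_mul]
      exact mul_le_mul (hmax' w hw) (hL2 w hw) (norm_nonneg _) (norm_nonneg _)
    · exact convex_closedBall _ _
    · exact mem_closedBall_self (by norm_num)
    · rwa [mem_closedBall_iff_norm, sub_zero]
  have hY0 : Y 0 = XX (pt t) := by
    rw [hY]
    beta_reduce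
    rw [mul_zero, add_zero, neg_zero, Complex.exp_zero, mul_one]
  have hXX1 : ‖XX (pt t)‖ = 1 := by
    have := norm_XX_half t
    have e : pt t = 1 / 2 + (t : ℂ) * I := by
      unfold pt
      push_cast
      ring
    rwa [e]
  have h8L : (8 : ℝ) / L ≤ 1 / 4 := by
    rw [div_le_iff₀ hL0]
    linarith
  have hn1 := norm_nonneg (Y u1)
  have hM : ‖Y u1‖ ≤ 2 := by
    have h1 := hmv u1 hu1
    rw [sub_zero] at h1
    have h2 : ‖Y u1‖ ≤ ‖Y u1 - Y 0‖ + ‖Y 0‖ := by
      have := norm_add_le (Y u1 - Y 0) (Y 0)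
      rwa [sub_add_cancel] at this
    rw [hY0, hXX1] at h2
    rw [hY0] at h1
    have h3 : ‖Y u1‖ * (8 / L) * ‖u1‖ ≤ ‖Y u1‖ * (1 / 4) * 2 := by gcongr
    linarith
  have h1 := hmv u hu
  rw [sub_zero] at h1
  have h2 : ‖Y u1‖ * (8 / L) * ‖u‖ ≤ 2 * (8 / L) * 2 := by gcongr
  have h3 : XX (pt t + (1 / (L : ℂ)) * u) - XX (pt t) * cexp u = (Y u - Y 0) * cexp u := by
    rw [hY0, hY]
    beta_reduce
    have : cexp (-u) * cexp u = 1 := by
      rw [← Complex.exp_add, neg_add_cancel, Complex.exp_zero]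
    linear_combination -(XX (pt t + (1 / (L : ℂ)) * u)) * this
  rw [h3, norm_mul]
  have h4 : ‖cexp u‖ ≤ Real.exp 2 := by
    rw [Complex.norm_exp]
    apply Real.exp_le_exp.2
    have := Complex.re_le_norm u
    linarith
  calc ‖Y u - Y 0‖ * ‖cexp u‖ ≤ (2 * (8 / L) * 2) * Real.exp 2 := by
        apply mul_le_mul (h1.trans h2) h4 (norm_nonneg _) (by positivity)
    _ = _ := by ring

/-- **The local lemma.** -/
theorem zeta_le_op {Q : ℂ[X]} (hQ : IsCoprime Q ((stP Q).comp (X + 1))) : ∃ K : ℝ, 0 < K ∧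
    ∀ᶠ T : ℝ in atTop, ∀ t : ℝ, |t - T| ≤ T / 2 → ∀ S ε : ℝ, 0 ≤ S → 0 ≤ ε →
    (∀ s, ‖s - pt t‖ ≤ 2 / Real.log T → ‖riemannZeta s‖ ≤ S) →
    (∀ s, ‖s - pt t‖ ≤ 2 / Real.log T → ‖opz Q (Real.log T) s‖ ≤ ε) →
    ‖riemannZeta (pt t)‖ ≤ K * (ε + S / Real.log T) := by
  obtain ⟨A, B, hAB⟩ := hQ
  obtain ⟨K, hK, h0⟩ := small_of_op hAB
  refine ⟨K * (32 * Real.exp 2 * Real.exp 2 + 1), by positivity, ?_⟩
  filter_upwards [XX_near, Real.tendsto_log_atTop.eventually_ge_atTop 32] with T hXX hL t ht S ε hS hε h1 h2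
  set L := Real.log T with hLd
  have hL0 : 0 < L := by linarith
  set c := pt t with hc
  have hLc : (L : ℂ) ≠ 0 := by exact_mod_cast hL0.ne'
  have hno : ∀ u : ℂ, ‖(1 / (L : ℂ)) * u‖ = ‖u‖ / L := by
    intro u
    rw [norm_mul, norm_div, norm_one, Complex.norm_real, Real.norm_of_nonneg hL0.le]
    ring
  have hreg : ∀ u : ℂ, ‖u‖ ≤ 3 → 1 / 4 ≤ (c + (1 / (L : ℂ)) * u).re ∧ (c + (1 / (L : ℂ)) * u).re ≤ 3 / 4 := by
    intro u hu
    obtain ⟨h3, -⟩ := near_re_im (t := t) hL0 hu
    have h4 : 3 / L ≤ 1 / 4 := by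
      rw [div_le_iff₀ hL0]
      linarith
    have h5 := abs_le.1 (h3.trans h4)
    constructor <;> linarith
  have hF : DifferentiableOn ℂ (fun u => riemannZeta (c + (1 / (L : ℂ)) * u)) (ball 0 3) := by
    intro u hu
    rw [mem_ball_zero_iff] at hu
    obtain ⟨h3, h4⟩ := hreg u hu.le
    have hne : c + (1 / (L : ℂ)) * u ≠ 1 := by
      intro h
      rw [h, Complex.one_re] at h4
      linarith
    apply DifferentiableAt.differentiableWithinAt
    exact DifferentiableAt.comp u (differentiableAt_riemannZeta hne) (by fun_prop)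
  have e1 : ∀ u : ℂ, (1 - c) + (-(1 / (L : ℂ))) * u = 1 - (c + (1 / (L : ℂ)) * u) := by
    intro u
    ring
  have hG : DifferentiableOn ℂ (fun u => riemannZeta ((1 - c) + (-(1 / (L : ℂ))) * u)) (ball 0 3) := by
    intro u hu
    rw [mem_ball_zero_iff] at hu
    obtain ⟨h3, h4⟩ := hreg u hu.le
    have hne : (1 - c) + (-(1 / (L : ℂ))) * u ≠ 1 := by
      intro h
      rw [e1] at h
      have h5 := congrArg Complex.re h
      rw [Complex.sub_re, Complex.one_re] at h5
      linarith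
    apply DifferentiableAt.differentiableWithinAt
    exact DifferentiableAt.comp u (differentiableAt_riemannZeta hne) (by fun_prop)
  have hκ : ‖XX c‖ = 1 := by
    have := norm_XX_half t
    have e : c = 1 / 2 + (t : ℂ) * I := by
      rw [hc]
      unfold pt
      push_cast
      ring
    rwa [e]
  have hnear : ∀ u : ℂ, ‖u‖ ≤ 2 → ‖c + (1 / (L : ℂ)) * u - c‖ ≤ 2 / L := by
    intro u hu
    rw [add_sub_cancel_left, hno]
    exact div_le_div_of_nonneg_right hu hL0.le
  have h3 := h0 (ball 0 3) isOpen_ball (closedBall_subset_ball (by norm_num)) _ _ hF hG (XX c) hκ ε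
    (32 * Real.exp 2 / L * (Real.exp 2 * S)) hε (by positivity)
    (by
      intro u hu
      rw [op_F]
      exact h2 _ (hnear u hu))
    (by
      intro u hu
      rw [op_G Q L (pt_conj t)]
      apply h2
      apply hnear
      rwa [norm_neg, Complex.norm_conj])
    (by
      intro u hu
      beta_reduce
      obtain ⟨h3, h4⟩ := hreg u (by linarith)
      rw [e1, zeta_fe _ (by
        intro n h
        rw [h, Complex.neg_re, Complex.natCast_re] at h3
        have : (0 : ℝ) ≤ n := Nat.cast_nonneg n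
        linarith) (by
        intro h
        rw [h, Complex.one_re] at h4
        linarith)]
      have e2 : XX (c + 1 / (L : ℂ) * u) * riemannZeta (c + 1 / (L : ℂ) * u) -
          XX c * (cexp u * riemannZeta (c + 1 / (L : ℂ) * u)) =
          (XX (c + 1 / (L : ℂ) * u) - XX c * cexp u) * riemannZeta (c + 1 / (L : ℂ) * u) := by ring
      rw [e2, norm_mul]
      have h5 := hXX t ht u hu
      have h6 := h1 _ (hnear u hu)
      have h7 : S ≤ Real.exp 2 * S := le_mul_of_one_le_left hS (Real.one_le_exp (by norm_num))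
      exact mul_le_mul h5 (h6.trans h7) (norm_nonneg _) (by positivity))
  rw [mul_zero, add_zero] at h3
  refine h3.trans ?_
  rw [mul_assoc]
  apply mul_le_mul_of_nonneg_left _ hK.le
  have h4 : 32 * Real.exp 2 / L * (Real.exp 2 * S) = (32 * Real.exp 2 * Real.exp 2) * (S / L) := by ring
  rw [h4]
  have h5 : 0 ≤ S / L := by positivity
  have h6 : 0 ≤ 32 * Real.exp 2 * Real.exp 2 := by positivity
  nlinarith [mul_nonneg h6 hε]

/-- Cauchy's estimate. -/
theorem opz_le {L A : ℝ} (hL : 0 < L) (hA : (A + 1) / L < 1 / 2) {y S : ℝ}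
    (hS : ∀ s, ‖s - pt y‖ ≤ (A + 1) / L → ‖riemannZeta s‖ ≤ S) (Q : ℂ[X]) {s : ℂ} (hs : ‖s - pt y‖ ≤ A / L) :
    ‖opz Q L s‖ ≤ cP Q * S := by
  unfold opz cP
  rw [Finset.sum_mul]
  refine (norm_sum_le _ _).trans (Finset.sum_le_sum fun i _ => ?_)
  rw [norm_mul, mul_assoc]
  apply mul_le_mul_of_nonneg_left _ (norm_nonneg _)
  rw [norm_div, norm_pow, Complex.norm_real, Real.norm_of_nonneg hL.le, div_le_iff₀ (by positivity)]
  refine (der_near hL hA hS hs i).trans (le_of_eq ?_)
  ring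

theorem opz_diff (Q : ℂ[X]) (L : ℝ) : DifferentiableOn ℂ (opz Q L) {1}ᶜ := by
  unfold opz
  apply DifferentiableOn.fun_sum
  intro i _
  apply DifferentiableOn.const_mul
  apply DifferentiableOn.div_const
  apply iter_open isOpen_compl_singleton
  intro s hs
  exact (differentiableAt_riemannZeta (by simpa using hs)).differentiableWithinAt

/-- The coprimality in terms of the roots. -/
theorem coprime_of_roots {Q : ℂ[X]} (hQ : ∀ a b : ℂ, Q.eval a = 0 → Q.eval b = 0 → a + (starRingEnd ℂ) b ≠ -1) :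
    IsCoprime Q ((stP Q).comp (X + 1)) := by
  refine (isCoprime_iff_aeval_ne_zero_of_isAlgClosed ℂ ℂ _ _).2 ?_
  intro a
  by_contra hcon
  push Not at hcon
  obtain ⟨h1, h2⟩ := hcon
  rw [coe_aeval_eq_eval] at h1 h2
  rw [eval_comp, eval_add, eval_X, eval_one] at h2
  have h3 : (stP Q).eval (a + 1) = (starRingEnd ℂ) (Q.eval (-(starRingEnd ℂ) (a + 1))) := by
    unfold stP
    rw [eval_finset_sum, eval_eq_sum_range, map_sum]
    refine Finset.sum_congr rfl fun i _ => ?_
    rw [eval_mul, eval_C, eval_pow, eval_X, map_mul, map_pow, map_neg, Complex.conj_conj, neg_pow (a + 1)]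
    ring
  rw [h3, map_eq_zero] at h2
  have := hQ a _ h1 h2
  apply this
  rw [map_neg, Complex.conj_conj]
  ring

end

end U345Z
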