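import Pool.Agent.U345.ZAC

/-!
# The joint moments of `Q_i(D / log T) ζ`
-/

set_option autoImplicit false

open MeasureTheory Filter Topology Complex Polynomial

namespace U345Z

open Q97.MM

noncomputable section

variable (k : ℕ)

/-- the integrand -/
def psi (Q : Fin (2 * k) → ℂ[X]) (T U y : ℝ) : ℝ := (∏ i, ‖opz (Q i) (Real.log T) (pt y)‖) * wt T U y

theorem psi_nonneg (Q : Fin (2 * k) → ℂ[X]) (T U y : ℝ) : 0 ≤ psi k Q T U y :=
  mul_nonneg (Finset.prod_nonneg fun i _ => norm_nonneg _) (wt_pos T U y).le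

theorem near_zq (hk : 1 ≤ k) : ∀ᶠ T : ℝ in atTop, ∀ U : ℝ, Adm T U → Integrable (zq k T U) ∧
    0 < JJ k T U (1 / 2) ∧ JJ k T U (1 / 2) / 4 ≤ ∫ y in nearS T U, zq k T U y := by
  filter_upwards [near_V k hk, cmp_set k (show (0 : ℝ) < 1 / 4 by norm_num)] with T h1 h2 U hA
  obtain ⟨-, iz, hJ, h3⟩ := h2 U hA
  refine ⟨iz, hJ, ?_⟩
  have h4 := h1 U hA
  have hV0 := V0_pos k hA
  have h5 := (abs_le.1 (h3 (nearS T U) (nearS_measurable T U))).2
  have h6 : 1 / 2 ≤ (∫ y in nearS T U, ‖gg k 0 T U y‖ ^ 2) / V0 k T U := by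
    rw [le_div_iff₀ hV0]
    linarith
  have h7 : 1 / 4 ≤ (∫ y in nearS T U, zq k T U y) / JJ k T U (1 / 2) := by linarith
  rw [le_div_iff₀ hJ] at h7
  linarith

theorem iter_measurable (j : ℕ) : Measurable (iteratedDeriv j riemannZeta) := by
  cases j with
  | zero =>
    rw [iteratedDeriv_zero]
    exact zeta_measurable
  | succ n =>
    rw [iteratedDeriv_succ]
    exact measurable_deriv _

theorem pt_measurable : Measurable pt := by
  apply Continuous.measurable
  unfold pt
  fun_prop

theorem wt_measurable (T U : ℝ) : Measurable (wt T U) := by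
  apply Continuous.measurable
  unfold wt
  fun_prop

theorem psi_measurable (Q : Fin (2 * k) → ℂ[X]) (T U : ℝ) : Measurable (psi k Q T U) := by
  unfold psi
  apply Measurable.mul _ (wt_measurable T U)
  apply Finset.measurable_fun_prod
  intro i _
  apply Measurable.norm
  unfold opz
  apply Finset.measurable_fun_sum
  intro j _
  exact (((iter_measurable j).comp pt_measurable).div_const _).const_mul _

theorem pt_sub (y t : ℝ) : ‖pt y - pt t‖ = |y - t| := by
  have e : pt y - pt t = ((y - t : ℝ) : ℂ) * I := by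
    unfold pt
    push_cast
    ring
  rw [e, norm_mul, Complex.norm_I, mul_one, Complex.norm_real, Real.norm_eq_abs]

/-- **The upper bound.** -/
theorem psi_upper (hk : 1 ≤ k) (Q : Fin (2 * k) → ℂ[X]) : ∃ C : ℝ, 0 < C ∧ ∀ᶠ T : ℝ in atTop, ∀ U : ℝ,
    Adm T U → Integrable (psi k Q T U) ∧ ∫ y, psi k Q T U y ≤ C * JJ k T U (1 / 2) := by
  obtain ⟨C1, hC1, h1⟩ := max_cell k hk (show (0 : ℝ) ≤ 1 by norm_num) (N := 1) (by norm_num)
  obtain ⟨C2, hC2, h2⟩ := MM_sum k (show (0 : ℝ) ≤ 1 by norm_num) 1 hk
  set Bd : ℝ := 1 + ∑ i, cP (Q i) with hBd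
  have hsum0 : 0 ≤ ∑ i, cP (Q i) := Finset.sum_nonneg fun i _ => cP_nonneg _
  have hBd1 : 1 ≤ Bd := by linarith
  have hle : ∀ i, cP (Q i) ≤ Bd := by
    intro i
    have := Finset.single_le_sum (f := fun i => cP (Q i)) (fun i _ => cP_nonneg _) (Finset.mem_univ i)
    linarith
  refine ⟨Bd ^ (2 * k) * C1 * C2, by positivity, ?_⟩
  filter_upwards [h1, h2] with T h3 h4 U hA
  have hL := hA.log
  have hL0 : 0 < Real.log T := by linarith
  have hT : 0 < T := by linarith [hA.1]
  obtain ⟨hM, hsum⟩ := h4 U hA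
  obtain ⟨h5, h6⟩ := h3
  set L := Real.log T with hLd
  have hT2 : (0 : ℝ) < T ^ (2 * k) := by positivity
  have hpt : ∀ (m : ℤ) (y : ℝ), (m : ℝ) * (1 / L) ≤ y → y ≤ (m + 1 : ℝ) * (1 / L) →
      ENNReal.ofReal (psi k Q T U y) ≤
        ENNReal.ofReal ((Bd ^ (2 * k) * C1 / T ^ (2 * k)) * MM k 1 1 T U m) := by
    intro m y hy1 hy2
    apply ENNReal.ofReal_le_ofReal
    obtain ⟨S, hS0, hS1, hS2⟩ := h6 U hA m y hy1 hy2
    have hw := wt_pos T U y
    have h7 : (∏ i, ‖opz (Q i) L (pt y)‖) ≤ (Bd * S) ^ (2 * k) := by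
      calc _ ≤ ∏ _i : Fin (2 * k), (Bd * S) := by
            apply Finset.prod_le_prod
            · intro i _
              exact norm_nonneg _
            · intro i _
              have h8 := opz_le (L := L) (A := 0) hL0 (by rwa [zero_add]) (y := y) (S := S)
                (by rwa [zero_add]) (Q i) (s := pt y) (by rw [sub_self, norm_zero, zero_div])
              exact h8.trans (mul_le_mul_of_nonneg_right (hle i) hS0)
        _ = _ := by rw [Finset.prod_const, Finset.card_univ, Fintype.card_fin]
    have h8 : (Bd ^ (2 * k) * C1 / T ^ (2 * k)) * MM k 1 1 T U m =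
        (Bd ^ (2 * k) * (C1 * MM k 1 1 T U m)) / T ^ (2 * k) := by ring
    rw [h8, le_div_iff₀ hT2]
    unfold psi
    rw [← hLd]
    calc _ ≤ ((Bd * S) ^ (2 * k)) * wt T U y * T ^ (2 * k) := by gcongr
      _ = Bd ^ (2 * k) * (T ^ (2 * k) * (S ^ (2 * k) * wt T U y)) := by rw [mul_pow]; ring
      _ ≤ _ := by gcongr
  have hvol : ∀ x : ℝ, (volume : Measure ℝ) (Set.Icc x (x + 1 / L)) ≤ ENNReal.ofReal (1 / L) := by
    intro x
    rw [Real.volume_Icc, add_sub_cancel_left]
  have h9 := cell_lint hL0 zero_le_one (K := Bd ^ (2 * k) * C1 / T ^ (2 * k)) (by positivity) volume hvol _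
    (fun m => MM k 1 1 T U m) (fun m => MM_nonneg k (by norm_num) 1 U hT hL0 m) hpt hsum
  have e9 : Bd ^ (2 * k) * C1 / T ^ (2 * k) * (C2 * L * (T ^ (2 * k) * JJ k T U (1 / 2))) * (1 / L) =
      Bd ^ (2 * k) * C1 * C2 * JJ k T U (1 / 2) := by
    field_simp
  rw [e9] at h9
  have iψ : Integrable (psi k Q T U) := by
    refine ⟨(psi_measurable k Q T U).aestronglyMeasurable, ?_⟩
    refine lt_of_le_of_lt ?_ (lt_of_le_of_lt h9 ENNReal.ofReal_lt_top)
    apply lintegral_mono
    intro y
    beta_reduce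
    rw [← ofReal_norm, Real.norm_of_nonneg (psi_nonneg k Q T U y)]
  refine ⟨iψ, ?_⟩
  rw [← ofReal_integral_eq_lintegral_ofReal iψ (Eventually.of_forall fun y => psi_nonneg k Q T U y)] at h9
  exact (ENNReal.ofReal_le_ofReal_iff (by positivity)).1 h9

/-- **The lower bound.** -/
theorem psi_lower (hk : 1 ≤ k) (Q : Fin (2 * k) → ℂ[X])
    (hQ : ∀ i, IsCoprime (Q i) ((stP (Q i)).comp (X + 1))) : ∃ c : ℝ, 0 < c ∧ ∀ᶠ T : ℝ in atTop, ∀ U : ℝ,
    Adm T U → c * JJ k T U (1 / 2) ≤ ∫ y, psi k Q T U y := by
  choose K hK hloc using fun i => zeta_le_op (hQ i)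
  set Km : ℝ := 1 + ∑ i, K i with hKm
  have hKs : 0 ≤ ∑ i, K i := Finset.sum_nonneg fun i _ => (hK i).le
  have hKm0 : 0 < Km := by linarith
  have hKle : ∀ i, K i ≤ Km := by
    intro i
    have := Finset.single_le_sum (f := K) (fun i _ => (hK i).le) (Finset.mem_univ i)
    linarith
  set Bd : ℝ := 1 + ∑ i, cP (Q i) with hBd
  have hsum0 : 0 ≤ ∑ i, cP (Q i) := Finset.sum_nonneg fun i _ => cP_nonneg _
  have hBd1 : 1 ≤ Bd := by linarith
  have hBle : ∀ i, cP (Q i) ≤ Bd := by
    intro i
    have := Finset.single_le_sum (f := fun i => cP (Q i)) (fun i _ => cP_nonneg _) (Finset.mem_univ i)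
    linarith
  obtain ⟨C1, hC1, h1⟩ := max_cell k hk (show (0 : ℝ) ≤ 51 by norm_num) (N := 51) (by norm_num)
  obtain ⟨C2, hC2, h2⟩ := MM_sum k (show (0 : ℝ) ≤ 51 by norm_num) 51 hk
  obtain ⟨C3, hC3, h3u⟩ := psi_upper k hk Q
  set D : ℝ := 1 + 8 * C1 * C2 with hD
  have hD1 : 1 ≤ D := by
    have : 0 < 8 * C1 * C2 := by positivity
    linarith
  have hD0 : 0 < D := by linarith
  set K2 : ℝ := 2 * Km * D * Bd + 2 with hK2
  have hK22 : 2 ≤ K2 := by
    have : 0 < 2 * Km * D * Bd := by positivity
    linarith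
  have hK20 : 0 < K2 := by linarith
  obtain ⟨n0, hn0⟩ := pow_unbounded_of_one_lt K2 (one_lt_two (α := ℝ))
  have hn00 : (0 : ℝ) ≤ n0 := Nat.cast_nonneg n0
  have hk0 : (0 : ℝ) ≤ k := Nat.cast_nonneg k
  set τ : ℝ := 1 / (16 * (k * n0) + 6) with hτ
  have hkn : (0 : ℝ) ≤ k * n0 := mul_nonneg hk0 hn00
  have hτ0 : 0 < τ := by positivity
  have hτ6 : τ / 6 ≤ 1 := by
    rw [hτ, div_div, div_le_one (by positivity)]
    nlinarith
  set κ : ℝ := (τ / 6) ^ n0 / K2 ^ 2 / (2 * Km) with hκ
  have hκ0 : 0 < κ := by positivity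
  set C4 : ℝ := Real.exp 3 / κ ^ (2 * k) with hC4
  have hC40 : 0 < C4 := by positivity
  refine ⟨1 / (16 * C4), by positivity, ?_⟩
  have hlocA : ∀ᶠ T : ℝ in atTop, ∀ i, ∀ t : ℝ, |t - T| ≤ T / 2 → ∀ S ε : ℝ, 0 ≤ S → 0 ≤ ε →
      (∀ s, ‖s - pt t‖ ≤ 2 / Real.log T → ‖riemannZeta s‖ ≤ S) →
      (∀ s, ‖s - pt t‖ ≤ 2 / Real.log T → ‖opz (Q i) (Real.log T) s‖ ≤ ε) →
      ‖riemannZeta (pt t)‖ ≤ K i * (ε + S / Real.log T) := eventually_all.2 hloc
  filter_upwards [h1, h2, h3u, near_zq k hk, hlocA,
    Real.tendsto_log_atTop.eventually_ge_atTop (2 * Km * D + 1)] with T h3 h4 h5u hnear hlo hLbig U hA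
  have hL := hA.log
  have hL0 : 0 < Real.log T := by linarith
  have hT : 0 < T := by linarith [hA.1]
  have hU := hA.pos
  obtain ⟨hM, hsumM⟩ := h4 U hA
  obtain ⟨h5, h6⟩ := h3
  obtain ⟨iψ, -⟩ := h5u U hA
  obtain ⟨iz, hJ0, hnz⟩ := hnear U hA
  set L := Real.log T with hLd
  have hT2 : (0 : ℝ) < T ^ (2 * k) := by positivity
  have hh0 : (0 : ℝ) < 1 / L := by positivity
  have hp3 : ∀ m : ℤ, (m + 1 : ℝ) * (1 / L) = m * (1 / L) + 1 / L := fun m => by ring
  have hcellψ : ∀ m : ℤ, 0 ≤ ∫ t in ((m : ℝ) * (1 / L))..((m + 1 : ℝ) * (1 / L)), psi k Q T U t := fun m =>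
    intervalIntegral.integral_nonneg (cell_le hL0 m) fun t _ => psi_nonneg k Q T U t
  have hUT : U * L ≤ T := (le_div_iff₀ hL0).1 hA.2.2
  have hcell : ∀ (m : ℤ) (t : ℝ), (m : ℝ) * (1 / L) ≤ t → t ≤ (m + 1 : ℝ) * (1 / L) → t ∈ nearS T U →
      zq k T U t ≤ L * (2 * C4 * ∫ t in ((m : ℝ) * (1 / L))..((m + 1 : ℝ) * (1 / L)), psi k Q T U t) +
        C1 / (D ^ (2 * k) * T ^ (2 * k)) * MM k 51 51 T U m := by
    intro m t ht1 ht2 htn
    have htn' : |t - T| ≤ U * L / 2 := htn
    obtain ⟨S, hS0, hS1, hS2⟩ := h6 U hA m t ht1 ht2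
    have hw := wt_pos T U t
    have hΦ := hcellψ m
    set Φ := ∫ t in ((m : ℝ) * (1 / L))..((m + 1 : ℝ) * (1 / L)), psi k Q T U t with hΦd
    have hMM0 := MM_nonneg k (A := 51) (by norm_num) 51 U hT hL0 m
    have hpos1 : 0 ≤ L * (2 * C4 * Φ) := by positivity
    have hpos2 : 0 ≤ C1 / (D ^ (2 * k) * T ^ (2 * k)) * MM k 51 51 T U m := by positivity
    set a := ‖riemannZeta (pt t)‖ with ha
    have ha0 : 0 ≤ a := norm_nonneg _
    have hzq : zq k T U t = a ^ (2 * k) * wt T U t := rfl
    by_cases hgood : S ≤ D * a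
    · rcases ha0.eq_or_lt with hzero | hpos
      · rw [hzq, ← hzero, zero_pow (by omega), zero_mul]
        linarith
      · have hex : ∀ i, ∃ (n : ℕ) (ρ : Fin n → ℂ), n ≤ n0 ∧ ∀ z, ‖z - pt t‖ ≤ 2 / L →
            (∀ j, τ * (2 / L) ≤ ‖z - ρ j‖) → κ * a ≤ ‖opz (Q i) L z‖ := by
          intro i
          have hsub : Metric.closedBall (pt t) (25 * (2 / L)) ⊆ ({1}ᶜ : Set ℂ) := by
            intro s hs
            rw [mem_closedBall_iff_norm] at hs
            apply ne_one_of_near _ hs
            refine lt_of_le_of_lt ?_ h5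
            have e : 25 * (2 / L) = 50 / L := by ring
            rw [e]
            apply div_le_div_of_nonneg_right _ hL0.le
            norm_num
          have hsub2 : Metric.closedBall (pt t) (2 / L) ⊆ ({1}ᶜ : Set ℂ) :=
            (Metric.closedBall_subset_closedBall (by
              have : 0 < 2 / L := by positivity
              linarith)).trans hsub
          obtain ⟨w, hw1, hw2⟩ := (isCompact_closedBall (pt t) (2 / L)).exists_isMaxOn
            ⟨pt t, Metric.mem_closedBall_self (by positivity)⟩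
            (((opz_diff (Q i) L).continuousOn.mono hsub2).norm)
          rw [mem_closedBall_iff_norm] at hw1
          have hw3 : ∀ s, ‖s - pt t‖ ≤ 2 / L → ‖opz (Q i) L s‖ ≤ ‖opz (Q i) L w‖ := fun s hs =>
            hw2 (by rwa [mem_closedBall_iff_norm])
          set e := ‖opz (Q i) L w‖ with he
          have he0 : 0 ≤ e := norm_nonneg _
          have q1 := hlo i t (htn'.trans (by linarith)) S e hS0 he0 (by
            intro s hs
            apply hS1
            refine hs.trans (div_le_div_of_nonneg_right (by norm_num) hL0.le)) hw3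
          have q2 : a ≤ 2 * Km * e := by
            have q3 : a ≤ Km * (e + S / L) :=
              q1.trans (mul_le_mul_of_nonneg_right (hKle i) (by positivity))
            have q4 : Km * (S / L) ≤ a / 2 := by
              have q5 : S / L ≤ D * a / L := div_le_div_of_nonneg_right hgood hL0.le
              have q6 : Km * (D * a / L) ≤ a / 2 := by
                rw [← mul_div_assoc, div_le_iff₀ hL0]
                nlinarith
              exact (mul_le_mul_of_nonneg_left q5 hKm0.le).trans q6
            rw [mul_add] at q3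
            linarith
          have hepos : 0 < e := by
            rcases he0.eq_or_lt with h | h
            · rw [← h, mul_zero] at q2
              linarith
            · exact h
          have q7 : ∀ s, ‖s - pt t‖ = 25 * (2 / L) → ‖opz (Q i) L s‖ ≤ K2 * ‖opz (Q i) L w‖ := by
            intro s hs
            have q8 := opz_le (L := L) (A := 50) hL0 (by
              have e : (50 + 1 : ℝ) = 51 := by norm_num
              rwa [e]) (y := t) (S := S) (by
              intro s' hs'
              apply hS1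
              have e : (50 + 1 : ℝ) = 51 := by norm_num
              rwa [e] at hs') (Q i) (s := s) (by
              rw [hs]
              have e : 25 * (2 / L) = 50 / L := by ring
              exact e.le)
            refine q8.trans ?_
            rw [← he]
            have hcP := cP_nonneg (Q i)
            calc cP (Q i) * S ≤ Bd * (D * (2 * Km * e)) := by
                  apply mul_le_mul (hBle i) (hgood.trans (mul_le_mul_of_nonneg_left q2 hD0.le)) hS0
                    (by linarith)
              _ = (2 * Km * D * Bd) * e := by ring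
              _ ≤ K2 * e := by
                  apply mul_le_mul_of_nonneg_right _ he0
                  linarith
          obtain ⟨n, ρ, hn, hlow⟩ := lower_discO isOpen_compl_singleton (opz_diff (Q i) L) (c0 := pt t)
            (w := w) (r := 2 / L) (by positivity) hsub hK22 hn0.le hw1 hepos q7
          refine ⟨n, ρ, hn, fun z hz hzρ => ?_⟩
          refine le_trans ?_ (hlow τ hτ0 z hz hzρ)
          have q9 : (τ / 6) ^ n0 ≤ (τ / 6) ^ n := pow_le_pow_of_le_one (by positivity) hτ6 hn
          calc κ * a ≤ κ * (2 * Km * e) := mul_le_mul_of_nonneg_left q2 hκ0.le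
            _ = (τ / 6) ^ n0 / K2 ^ 2 * e := by
                rw [hκ]
                field_simp
            _ ≤ (τ / 6) ^ n / K2 ^ 2 * e := by gcongr
        choose n ρ hn hlow using hex
        have hcard : Fintype.card (Σ i : Fin (2 * k), Fin (n i)) ≤ 2 * k * n0 := by
          rw [Fintype.card_sigma]
          simp only [Fintype.card_fin]
          calc ∑ i, n i ≤ ∑ _i : Fin (2 * k), n0 := Finset.sum_le_sum fun i _ => hn i
            _ = _ := by rw [Finset.sum_const, Finset.card_univ, Fintype.card_fin, smul_eq_mul]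
        have hσ : 0 < τ * (2 / L) := by positivity
        obtain ⟨hEm, hEv⟩ := far_heightsI hcard (fun p => (ρ p.1 p.2).im) (a := m * (1 / L)) hh0 hσ (by
          have e : 4 * (τ * (2 / L)) * ((2 * k * n0 : ℕ) : ℝ) = (16 * (k * n0) * τ) * (1 / L) := by
            push_cast
            ring
          rw [e]
          apply mul_le_of_le_one_left hh0.le
          rw [hτ, mul_one_div, div_le_one (by positivity)]
          linarith)
        set E := {y : ℝ | y ∈ Set.Icc ((m : ℝ) * (1 / L)) (m * (1 / L) + 1 / L) ∧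
          ∀ p : (Σ i : Fin (2 * k), Fin (n i)), τ * (2 / L) ≤ |y - (ρ p.1 p.2).im|} with hE
        have hEpt : ∀ y ∈ E, zq k T U t / C4 ≤ psi k Q T U y := by
          intro y hy
          obtain ⟨⟨hya, hyb⟩, hyρ⟩ := hy
          have hyt : |y - t| ≤ 1 / L := by
            rw [abs_le]
            have := hp3 m
            constructor <;> linarith
          have hi : ∀ i, κ * a ≤ ‖opz (Q i) L (pt y)‖ := by
            intro i
            apply hlow i
            · rw [pt_sub]
              refine hyt.trans (div_le_div_of_nonneg_right (by norm_num) hL0.le)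
            · intro j
              have e1 := Complex.abs_im_le_norm (pt y - ρ i j)
              rw [Complex.sub_im, pt_im] at e1
              exact (hyρ ⟨i, j⟩).trans e1
          have hprod : (κ * a) ^ (2 * k) ≤ ∏ i, ‖opz (Q i) L (pt y)‖ := by
            have : ∏ _i : Fin (2 * k), (κ * a) ≤ ∏ i, ‖opz (Q i) L (pt y)‖ := by
              apply Finset.prod_le_prod
              · intro i _; positivity
              · intro i _; exact hi i
            simpa using this
          have hwty := wt_pos T U y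
          have hws : wt T U t ≤ Real.exp 3 * wt T U y := by
            have := wt_shift (A := 1) hA zero_le_one (y := t) (y' := y) (by
              refine htn'.trans ?_
              have : 0 < U * L := by positivity
              linarith) hyt
            have e : (2 * 1 + 1 ^ 2 : ℝ) = 3 := by norm_num
            rwa [e] at this
          rw [div_le_iff₀ hC40, hzq]
          calc a ^ (2 * k) * wt T U t ≤ a ^ (2 * k) * (Real.exp 3 * wt T U y) := by gcongr
            _ = ((κ * a) ^ (2 * k) * wt T U y) * C4 := by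
                rw [hC4, mul_pow]
                field_simp
            _ ≤ psi k Q T U y * C4 := by
                apply mul_le_mul_of_nonneg_right _ hC40.le
                unfold psi
                exact mul_le_mul_of_nonneg_right hprod hwty.le
        have hEsub : E ⊆ Set.Icc ((m : ℝ) * (1 / L)) ((m + 1 : ℝ) * (1 / L)) := by
          intro y hy
          rw [hp3]
          exact hy.1
        have hint1 : (volume : Measure ℝ).real E * (zq k T U t / C4) ≤ Φ := by
          have hEfin : (volume : Measure ℝ) E ≠ ⊤ := by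
            apply ne_top_of_le_ne_top _ (measure_mono hEsub)
            rw [Real.volume_Icc]
            exact ENNReal.ofReal_ne_top
          have q1 : ∫ _y in E, zq k T U t / C4 ≤ ∫ y in E, psi k Q T U y := by
            apply setIntegral_mono_on _ iψ.integrableOn hEm hEpt
            exact integrableOn_const hEfin
          rw [setIntegral_const, smul_eq_mul] at q1
          refine q1.trans ?_
          rw [hΦd, intervalIntegral.integral_of_le (cell_le hL0 m), ← integral_Icc_eq_integral_Ioc]
          apply setIntegral_mono_set iψ.integrableOn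
          · exact Eventually.of_forall fun y => psi_nonneg k Q T U y
          · exact (Eventually.of_forall hEsub)
        have hzn : 0 ≤ zq k T U t := by
          rw [hzq]
          positivity
        have hfinal : zq k T U t ≤ L * (2 * C4 * Φ) := by
          have q1 : (1 / L / 2) * (zq k T U t / C4) ≤ Φ :=
            le_trans (mul_le_mul_of_nonneg_right hEv (by positivity)) hint1
          have q2 := mul_le_mul_of_nonneg_left q1 (show 0 ≤ L * (2 * C4) by positivity)
          have e : L * (2 * C4) * ((1 / L / 2) * (zq k T U t / C4)) = zq k T U t := by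
            field_simp
          rw [e] at q2
          refine q2.trans (le_of_eq ?_)
          ring
        linarith
    · push Not at hgood
      have q1 : (D * a) ^ (2 * k) ≤ S ^ (2 * k) := pow_le_pow_left₀ (by positivity) hgood.le _
      have q2 : zq k T U t ≤ C1 / (D ^ (2 * k) * T ^ (2 * k)) * MM k 51 51 T U m := by
        rw [div_mul_eq_mul_div, le_div_iff₀ (by positivity), hzq]
        calc a ^ (2 * k) * wt T U t * (D ^ (2 * k) * T ^ (2 * k))
            = T ^ (2 * k) * ((D * a) ^ (2 * k) * wt T U t) := by rw [mul_pow]; ring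
          _ ≤ T ^ (2 * k) * (S ^ (2 * k) * wt T U t) := by gcongr
          _ ≤ _ := hS2
      linarith
  -- summation
  set F : ℝ → ℝ := (nearS T U).indicator (zq k T U) with hF
  have iF : Integrable F := iz.indicator (nearS_measurable T U)
  have hDk : D ≤ D ^ (2 * k) := le_self_pow₀ hD1 (by omega)
  have hsum : ∫ y, F y ≤ 2 * C4 * (∫ y, psi k Q T U y) + JJ k T U (1 / 2) / 8 := by
    apply cells_le iF hh0
    intro S
    have h8 : ∀ m ∈ S, ∫ t in ((m : ℝ) * (1 / L))..((m + 1 : ℝ) * (1 / L)), F t ≤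
        2 * C4 * (∫ t in ((m : ℝ) * (1 / L))..((m + 1 : ℝ) * (1 / L)), psi k Q T U t) +
          (1 / L) * (C1 / (D ^ (2 * k) * T ^ (2 * k)) * MM k 51 51 T U m) := by
      intro m _
      have hΦ := hcellψ m
      have hMM0 := MM_nonneg k (A := 51) (by norm_num) 51 U hT hL0 m
      set Φ := ∫ t in ((m : ℝ) * (1 / L))..((m + 1 : ℝ) * (1 / L)), psi k Q T U t with hΦd
      have hbd : ∀ t ∈ Set.Icc ((m : ℝ) * (1 / L)) ((m + 1 : ℝ) * (1 / L)),
          F t ≤ L * (2 * C4 * Φ) + C1 / (D ^ (2 * k) * T ^ (2 * k)) * MM k 51 51 T U m := by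
        intro t ht
        by_cases htn : t ∈ nearS T U
        · rw [hF, Set.indicator_of_mem htn]
          exact hcell m t ht.1 ht.2 htn
        · rw [hF, Set.indicator_of_notMem htn]
          positivity
      have h9 : ∫ t in ((m : ℝ) * (1 / L))..((m + 1 : ℝ) * (1 / L)), F t ≤
          ∫ _t in ((m : ℝ) * (1 / L))..((m + 1 : ℝ) * (1 / L)),
            (L * (2 * C4 * Φ) + C1 / (D ^ (2 * k) * T ^ (2 * k)) * MM k 51 51 T U m) := by
        apply intervalIntegral.integral_mono_on (cell_le hL0 m) iF.intervalIntegrable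
          intervalIntegrable_const
        exact hbd
      rw [intervalIntegral.integral_const, smul_eq_mul] at h9
      refine h9.trans (le_of_eq ?_)
      have e : ((m + 1 : ℝ) * (1 / L) - (m : ℝ) * (1 / L)) = 1 / L := by ring
      rw [e, mul_add]
      congr 1
      field_simp
    refine (Finset.sum_le_sum h8).trans ?_
    rw [Finset.sum_add_distrib, ← Finset.mul_sum, ← Finset.mul_sum, ← Finset.mul_sum]
    have o1 := overlap (φ := psi k Q T U) (psi_nonneg k Q T U) iψ hh0 0 S
    simp only [Nat.cast_zero, sub_zero, add_zero, mul_zero, zero_add, one_mul] at o1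
    have o2 := hsumM S
    have q1 : 2 * C4 * ∑ m ∈ S, ∫ t in ((m : ℝ) * (1 / L))..((m + 1 : ℝ) * (1 / L)),
        psi k Q T U t ≤ 2 * C4 * ∫ y, psi k Q T U y := by gcongr
    have q2 : (1 / L) * (C1 / (D ^ (2 * k) * T ^ (2 * k)) * ∑ m ∈ S, MM k 51 51 T U m) ≤
        JJ k T U (1 / 2) / 8 := by
      calc _ ≤ (1 / L) * (C1 / (D ^ (2 * k) * T ^ (2 * k)) * (C2 * L * (T ^ (2 * k) * JJ k T U (1 / 2)))) := by
            gcongr
        _ = (C1 * C2 / D ^ (2 * k)) * JJ k T U (1 / 2) := by field_simp
        _ ≤ (1 / 8) * JJ k T U (1 / 2) := by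
            apply mul_le_mul_of_nonneg_right _ hJ0.le
            rw [div_le_iff₀ (by positivity)]
            linarith
        _ = _ := by ring
    linarith
  have hFint : ∫ y, F y = ∫ y in nearS T U, zq k T U y := integral_indicator (nearS_measurable T U)
  rw [hFint] at hsum
  have h10 : JJ k T U (1 / 2) ≤ 16 * C4 * ∫ y, psi k Q T U y := by linarith
  rw [one_div, inv_mul_le_iff₀ (by positivity)]
  exact h10

end

end U345Z
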