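import Pool.Agent.U345.ZAF

/-!
# Means of `log |F|` for holomorphic functions: lower bounds
-/

set_option autoImplicit false

open MeasureTheory Filter Topology Complex Metric

namespace U345Z

noncomputable section

/-- **A lower bound by the distances to the zeros.** -/
theorem lower_prodO {Ω : Set ℂ} (hΩ : IsOpen Ω) {F : ℂ → ℂ} (hF : DifferentiableOn ℂ F Ω) {c0 w : ℂ}
    {r K : ℝ} {n0 : ℕ} (hr : 0 < r) (hball0 : closedBall c0 (25 * r) ⊆ Ω)
    (hK : 2 ≤ K) (hKn : K ≤ 2 ^ n0) (hw : ‖w - c0‖ ≤ r) (hw0 : 0 < ‖F w‖)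
    (hR : ∀ s, ‖s - c0‖ = 25 * r → ‖F s‖ ≤ K * ‖F w‖) :
    ∃ (n : ℕ) (ρ : Fin n → ℂ), n ≤ n0 ∧ (∀ j, ‖ρ j - c0‖ ≤ 5 * r) ∧ ∀ z, ‖z - c0‖ ≤ r →
      (∏ j, ‖z - ρ j‖ / (6 * r)) * (‖F w‖ / K ^ 2) ≤ ‖F z‖ := by
  have hK0 : 0 < K := by linarith
  have hcount : ∀ (n : ℕ) (ρ : Fin n → ℂ) (h : ℂ → ℂ), FacO Ω F c0 (5 * r) n ρ h → n ≤ n0 := by
    intro n ρ h ⟨h1, h2, h3⟩
    have h4 := disc_small (f := F) (h := h) (c0 := c0) (r := 5 * r) (R := 25 * r) (M := K * ‖F w‖)
      (ρ := ρ) (by positivity) (by linarith) h1 (h2.mono hball0) (fun s _ => h3 s) hR w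
      (by linarith)
    have e : 2 * (5 * r) / (25 * r - 5 * r) = 1 / 2 := by
      field_simp
      norm_num
    rw [e] at h4
    have h5 : (2 : ℝ) ^ n ≤ K := by
      have h6 : ‖F w‖ * 2 ^ n ≤ ((1 / 2) ^ n * (K * ‖F w‖)) * 2 ^ n :=
        mul_le_mul_of_nonneg_right h4 (by positivity)
      have e2 : ((1 / 2 : ℝ) ^ n * (K * ‖F w‖)) * 2 ^ n = K * ‖F w‖ * ((1 / 2) * 2) ^ n := by
        rw [mul_pow]
        ring
      rw [e2, show (1 / 2 : ℝ) * 2 = 1 by norm_num, one_pow, mul_one, mul_comm] at h6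
      exact le_of_mul_le_mul_right h6 hw0
    have h7 : (2 : ℝ) ^ n ≤ 2 ^ n0 := h5.trans hKn
    exact (pow_le_pow_iff_right₀ (by norm_num : (1 : ℝ) < 2)).1 h7
  obtain ⟨n, ρ, h, hn, ⟨h1, h2, h3⟩, hne⟩ := FacO_max hΩ hF
    ((closedBall_subset_closedBall (by linarith : 5 * r ≤ 25 * r)).trans hball0) hcount
  refine ⟨n, ρ, hn, h1, fun z hz => ?_⟩
  -- upper bound for the quotient
  have hq : ∀ s, ‖s - c0‖ ≤ 25 * r → ‖h s‖ ≤ K * ‖F w‖ / (20 * r) ^ n := by
    intro s hs
    have := disc_quot (f := F) (h := h) (c0 := c0) (r := 5 * r) (R := 25 * r) (M := K * ‖F w‖)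
      (ρ := ρ) (by positivity) (by linarith) h1 (h2.mono hball0) (fun s _ => h3 s) hR s hs
    have e : 25 * r - 5 * r = 20 * r := by ring
    rwa [e] at this
  -- lower bound at `w`
  have hlow : ‖F w‖ / (6 * r) ^ n ≤ ‖h w‖ := by
    rw [div_le_iff₀ (by positivity)]
    have h5 : ∏ i : Fin n, ‖w - ρ i‖ ≤ (6 * r) ^ n := by
      have : ∏ i : Fin n, ‖w - ρ i‖ ≤ ∏ _i : Fin n, (6 * r) := by
        apply Finset.prod_le_prod
        · intro i _; exact norm_nonneg _
        · intro i _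
          have := norm_sub_le (w - c0) (ρ i - c0)
          rw [sub_sub_sub_cancel_right] at this
          linarith [h1 i]
      simpa using this
    calc ‖F w‖ = (∏ i : Fin n, ‖w - ρ i‖) * ‖h w‖ := by rw [h3 w, norm_mul, norm_prod]
      _ ≤ (6 * r) ^ n * ‖h w‖ := mul_le_mul_of_nonneg_right h5 (norm_nonneg _)
      _ = _ := mul_comm _ _
  have hball : ∀ z ∈ ball w (4 * r), ‖z - c0‖ ≤ 5 * r := by
    intro z hz
    rw [mem_ball, dist_eq_norm] at hz
    calc ‖z - c0‖ = ‖(z - w) + (w - c0)‖ := by rw [sub_add_sub_cancel]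
      _ ≤ ‖z - w‖ + ‖w - c0‖ := norm_add_le _ _
      _ ≤ _ := by linarith
  have hballΩ : ball w (4 * r) ⊆ Ω := by
    intro z hz
    apply hball0
    rw [mem_closedBall_iff_norm]
    linarith [hball z hz]
  have hlogK : 0 < Real.log K := Real.log_pos (by linarith)
  have hH := harnack' (K := h) (w := w) (d := 4 * r) (M := Real.log K) (by positivity) hlogK
    (h2.mono hballΩ) (fun z hz => hne z (hball z hz))
    (by
      intro z hz
      rw [Real.exp_log hK0]
      have h5 := hq z (by linarith [hball z hz])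
      refine h5.trans ?_
      have h6 : K * ‖F w‖ / (20 * r) ^ n ≤ K * (‖F w‖ / (6 * r) ^ n) := by
        rw [mul_div_assoc]
        apply mul_le_mul_of_nonneg_left _ hK0.le
        apply div_le_div_of_nonneg_left hw0.le (by positivity)
        apply pow_le_pow_left₀ (by positivity)
        linarith
      exact h6.trans (mul_le_mul_of_nonneg_left hlow hK0.le))
    z (by
      calc ‖z - w‖ ≤ ‖z - c0‖ + ‖w - c0‖ := by
            have := norm_sub_le (z - c0) (w - c0)
            rwa [sub_sub_sub_cancel_right] at this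
        _ ≤ 4 * r / 2 := by linarith)
  have e2 : Real.exp (2 * Real.log K) = K ^ 2 := by
    rw [two_mul, Real.exp_add, Real.exp_log hK0]
    ring
  rw [e2] at hH
  have h8 : ‖F w‖ / (6 * r) ^ n / K ^ 2 ≤ ‖h z‖ := by
    rw [div_le_iff₀ (by positivity)]
    linarith
  have hP : 0 ≤ ∏ i : Fin n, ‖z - ρ i‖ := Finset.prod_nonneg fun i _ => norm_nonneg _
  calc (∏ j, ‖z - ρ j‖ / (6 * r)) * (‖F w‖ / K ^ 2)
      = (∏ i : Fin n, ‖z - ρ i‖) * (‖F w‖ / (6 * r) ^ n / K ^ 2) := by
        rw [Finset.prod_div_distrib, Finset.prod_const, Finset.card_univ, Fintype.card_fin]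
        field_simp
    _ ≤ (∏ i : Fin n, ‖z - ρ i‖) * ‖h z‖ := mul_le_mul_of_nonneg_left h8 hP
    _ = ‖F z‖ := by rw [h3 z, norm_mul, norm_prod]

/-- The integral of the logarithm of a distance. -/
theorem log_int {R x0 a b : ℝ} (hR : 0 < R) (hab : a ≤ b) (ha : x0 - R ≤ a) (hb : b ≤ x0 + R) :
    IntervalIntegrable (fun y => Real.log (|y - x0| / R)) volume a b ∧
    -(2 * R) ≤ ∫ y in a..b, Real.log (|y - x0| / R) := by
  have e1 : (fun y : ℝ => Real.log (|y - x0| / R)) = fun y => Real.log (y / R - x0 / R) := by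
    funext y
    rw [← Real.log_abs (y / R - x0 / R), ← sub_div, abs_div, abs_of_pos hR]
  rw [e1]
  have h1 : IntervalIntegrable (fun y : ℝ => Real.log (y / R - x0 / R)) volume a b := by
    have h2 : IntervalIntegrable Real.log volume (a / R - x0 / R) (b / R - x0 / R) :=
      intervalIntegral.intervalIntegrable_log'
    have h3 := (h2.comp_sub_right (x0 / R))
    have h4 := h3.comp_mul_left (c := R⁻¹)
    have e2 : (fun y : ℝ => Real.log (y / R - x0 / R)) = fun x => Real.log (R⁻¹ * x - x0 / R) := by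
      funext y
      rw [div_eq_inv_mul y R]
    have e3 : (a / R - x0 / R + x0 / R) / R⁻¹ = a := by field_simp; ring
    have e4 : (b / R - x0 / R + x0 / R) / R⁻¹ = b := by field_simp; ring
    rw [e3, e4] at h4
    rw [e2]
    exact h4
  refine ⟨h1, ?_⟩
  rw [intervalIntegral.integral_comp_div_sub (fun u => Real.log u) hR.ne' (x0 / R), smul_eq_mul]
  set α := a / R - x0 / R with hα
  set β := b / R - x0 / R with hβ
  have hα1 : -1 ≤ α := by
    rw [hα, ← sub_div, le_div_iff₀ hR]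
    linarith
  have hβ1 : β ≤ 1 := by
    rw [hβ, ← sub_div, div_le_iff₀ hR]
    linarith
  have hαβ : α ≤ β := by
    have := div_le_div_of_nonneg_right hab hR.le
    linarith
  have hI : ∀ x y : ℝ, IntervalIntegrable Real.log volume x y := fun x y =>
    intervalIntegral.intervalIntegrable_log'
  have hneg : ∀ u : ℝ, -1 ≤ u → u ≤ 1 → Real.log u ≤ 0 := by
    intro u hu1 hu2
    rw [← Real.log_abs]
    exact Real.log_nonpos (abs_nonneg _) (abs_le.2 ⟨hu1, hu2⟩)
  have hout : ∀ x y : ℝ, -1 ≤ x → x ≤ y → y ≤ 1 → ∫ u in x..y, Real.log u ≤ 0 := by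
    intro x y hx hxy hy
    have := intervalIntegral.integral_mono_on (f := Real.log) (g := fun _ => (0 : ℝ)) hxy (hI x y)
      intervalIntegrable_const (fun u hu => hneg u (hx.trans hu.1) (hu.2.trans hy))
    rwa [intervalIntegral.integral_zero] at this
  have hall : ∫ u in (-1 : ℝ)..1, Real.log u = -2 := by
    rw [integral_log]
    simp
    norm_num
  have hsplit : (∫ u in (-1 : ℝ)..α, Real.log u) + (∫ u in α..β, Real.log u) + (∫ u in β..1, Real.log u) = -2 := by
    rw [intervalIntegral.integral_add_adjacent_intervals (hI _ _) (hI _ _),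
      intervalIntegral.integral_add_adjacent_intervals (hI _ _) (hI _ _), hall]
  have o1 := hout (-1) α le_rfl hα1 (hαβ.trans hβ1)
  have o2 := hout β 1 (hα1.trans hαβ) hβ1 le_rfl
  nlinarith

/-- A weak form of Jensen's inequality. -/
theorem exp_mean {G : ℝ → ℝ} {s : Set ℝ} {h m : ℝ} (hs : (volume : Measure ℝ).real s = h)
    (hfin : (volume : Measure ℝ) s ≠ ⊤)
    (iG : IntegrableOn G s) (iE : IntegrableOn (fun y => Real.exp (G y)) s) (hm : h * m ≤ ∫ y in s, G y) :
    h * Real.exp m ≤ ∫ y in s, Real.exp (G y) := by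
  have ic : ∀ c : ℝ, IntegrableOn (fun _ : ℝ => c) s := fun c => integrableOn_const hfin
  have h1 : ∫ y in s, Real.exp m * ((1 - m) + G y) ≤ ∫ y in s, Real.exp (G y) := by
    apply integral_mono
    · exact ((ic (1 - m)).add iG).const_mul _
    · exact iE
    · intro y
      beta_reduce
      have := Real.add_one_le_exp (G y - m)
      have h2 : Real.exp (G y) = Real.exp m * Real.exp (G y - m) := by
        rw [← Real.exp_add]
        congr 1
        ring
      rw [h2]
      apply mul_le_mul_of_nonneg_left _ (Real.exp_pos _).le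
      linarith
  rw [integral_const_mul, integral_add (ic (1 - m)) iG, setIntegral_const, hs, smul_eq_mul] at h1
  refine le_trans ?_ h1
  have h3 : h ≤ h * (1 - m) + ∫ y in s, G y := by
    have e : h * (1 - m) = h - h * m := by ring
    linarith
  calc h * Real.exp m = Real.exp m * h := mul_comm _ _
    _ ≤ _ := mul_le_mul_of_nonneg_left h3 (Real.exp_pos _).le

end

end U345Z
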