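import Pool.Agent.U345.ZAG

/-!
# Means of `log |F|` over random shifts on a cell
-/

set_option autoImplicit false

open MeasureTheory Filter Topology Complex Metric

namespace U345Z

open Q97.MM

noncomputable section

/-- the logarithm of `|F|` at the shifted point -/
def lf (F : ℂ → ℂ) (L : ℝ) (z : ℂ) (y : ℝ) : ℝ := Real.log ‖F (pt y + z / L)‖

theorem lf_measurable {F : ℂ → ℂ} (hF : Measurable F) (L : ℝ) : Measurable (Function.uncurry (lf F L)) := by
  have h1 : Measurable (fun p : ℂ × ℝ => pt p.2 + p.1 / (L : ℂ)) :=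
    (pt_measurable.comp measurable_snd).add (measurable_fst.div_const _)
  exact Real.measurable_log.comp (hF.comp h1).norm

theorem lf_bounds {F : ℂ → ℂ} (hF : DifferentiableOn ℂ F {1}ᶜ) {t A L K S : ℝ} {n0 : ℕ} {w : ℂ}
    (hL : 0 < L) (hA0 : 0 ≤ A) (hball0 : closedBall (pt t) (25 * ((A + 1) / L)) ⊆ {1}ᶜ)
    (hK : 2 ≤ K) (hKn : K ≤ 2 ^ n0) (hw : ‖w - pt t‖ ≤ (A + 1) / L) (hw0 : 0 < ‖F w‖)
    (hR : ∀ s, ‖s - pt t‖ = 25 * ((A + 1) / L) → ‖F s‖ ≤ K * ‖F w‖)
    (hS : ∀ s, ‖s - pt t‖ ≤ (A + 1) / L → ‖F s‖ ≤ S) :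
    ∃ (n : ℕ) (x : Fin n → ℂ → ℝ), n ≤ n0 ∧
      (∀ j z, ‖z‖ ≤ A → ∀ y, |y - t| ≤ 1 / L → |y - x j z| ≤ 6 * ((A + 1) / L)) ∧
      ∀ z, ‖z‖ ≤ A → ∀ y, |y - t| ≤ 1 / L → (∀ j, y ≠ x j z) →
        lf F L z y ≤ Real.log S ∧
        (∑ j, Real.log (|y - x j z| / (6 * ((A + 1) / L)))) + Real.log (‖F w‖ / K ^ 2) ≤ lf F L z y := by
  have hr : 0 < (A + 1) / L := by positivity
  have hK0 : 0 < K := by linarith
  obtain ⟨n, ρ, hn, hρ, hlow⟩ := lower_prodO isOpen_compl_singleton hF hr hball0 hK hKn hw hw0 hR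
  have hnear : ∀ z : ℂ, ‖z‖ ≤ A → ∀ y : ℝ, |y - t| ≤ 1 / L → ‖pt y + z / L - pt t‖ ≤ (A + 1) / L := by
    intro z hz y hy
    have e : pt y + z / L - pt t = (pt y - pt t) + z / L := by ring
    rw [e]
    refine (norm_add_le _ _).trans ?_
    rw [pt_sub, norm_div, Complex.norm_real, Real.norm_of_nonneg hL.le]
    have h1 : ‖z‖ / L ≤ A / L := div_le_div_of_nonneg_right hz hL.le
    have e2 : (A + 1) / L = A / L + 1 / L := by ring
    linarith
  have him : ∀ (j : Fin n) (z : ℂ) (y : ℝ), |y - ((ρ j).im - z.im / L)| ≤ ‖pt y + z / L - ρ j‖ := by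
    intro j z y
    refine le_trans (le_of_eq ?_) (Complex.abs_im_le_norm _)
    rw [Complex.sub_im, Complex.add_im, pt_im, Complex.div_ofReal_im]
    congr 1
    ring
  refine ⟨n, fun j z => (ρ j).im - z.im / L, hn, ?_, ?_⟩
  · intro j z hz y hy
    refine (him j z y).trans ?_
    have := norm_sub_le (pt y + z / L - pt t) (ρ j - pt t)
    rw [sub_sub_sub_cancel_right] at this
    linarith [hρ j, hnear z hz y hy]
  · intro z hz y hy hne
    have h1 := hlow _ (hnear z hz y hy)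
    have hpos : ∀ j, 0 < |y - ((ρ j).im - z.im / L)| := fun j => abs_pos.2 (sub_ne_zero.2 (hne j))
    have hpos2 : ∀ j, 0 < ‖pt y + z / L - ρ j‖ / (6 * ((A + 1) / L)) := fun j =>
      div_pos ((hpos j).trans_le (him j z y)) (by positivity)
    have hc : 0 < ‖F w‖ / K ^ 2 := by positivity
    have hP : 0 < ∏ j, ‖pt y + z / L - ρ j‖ / (6 * ((A + 1) / L)) := Finset.prod_pos fun j _ => hpos2 j
    have hFpos : 0 < ‖F (pt y + z / L)‖ := lt_of_lt_of_le (mul_pos hP hc) h1
    constructor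
    · unfold lf
      exact Real.log_le_log hFpos (hS _ (hnear z hz y hy))
    · unfold lf
      have h2 := Real.log_le_log (mul_pos hP hc) h1
      rw [Real.log_mul hP.ne' hc.ne', Real.log_prod (fun j _ => (hpos2 j).ne')] at h2
      refine le_trans ?_ h2
      have h3 : (∑ j, Real.log (|y - ((ρ j).im - z.im / L)| / (6 * ((A + 1) / L)))) ≤
          ∑ j, Real.log (‖pt y + z / L - ρ j‖ / (6 * ((A + 1) / L))) := by
        apply Finset.sum_le_sum
        intro j _
        apply Real.log_le_log (div_pos (hpos j) (by positivity))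
        exact div_le_div_of_nonneg_right (him j z y) (by positivity)
      linarith

theorem cell_log1 {F : ℂ → ℂ} (hFm : Measurable F) {t a A L S κ : ℝ} {n n0 : ℕ} (x : Fin n → ℂ → ℝ)
    (hL : 0 < L) (hA0 : 0 ≤ A) (hn : n ≤ n0)
    (h1 : ∀ j z, ‖z‖ ≤ A → ∀ y, |y - t| ≤ 1 / L → |y - x j z| ≤ 6 * ((A + 1) / L))
    (h2 : ∀ z, ‖z‖ ≤ A → ∀ y, |y - t| ≤ 1 / L → (∀ j, y ≠ x j z) → lf F L z y ≤ S ∧
        (∑ j, Real.log (|y - x j z| / (6 * ((A + 1) / L)))) + κ ≤ lf F L z y)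
    (hta : a ≤ t) (htb : t ≤ a + 1 / L) (z : ℂ) (hz : ‖z‖ ≤ A) :
    IntegrableOn (lf F L z) (Set.Icc a (a + 1 / L)) ∧
    (∫ y in Set.Icc a (a + 1 / L), ‖lf F L z y‖) ≤ 1 / L * (|S| + |κ|) + 12 * ((A + 1) / L) * n0 ∧
    1 / L * κ - 12 * ((A + 1) / L) * n0 ≤ ∫ y in Set.Icc a (a + 1 / L), lf F L z y := by
  have hr : 0 < (A + 1) / L := by positivity
  have hh : 0 < 1 / L := by positivity
  have hle : a ≤ a + 1 / L := by linarith
  set g : ℝ → ℝ := fun y => ∑ j, Real.log (|y - x j z| / (6 * ((A + 1) / L))) with hg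
  have hyt : ∀ y ∈ Set.Icc a (a + 1 / L), |y - t| ≤ 1 / L := by
    intro y hy
    rw [abs_le]
    constructor <;> linarith [hy.1, hy.2]
  have hlog : ∀ j, IntegrableOn (fun y => Real.log (|y - x j z| / (6 * ((A + 1) / L)))) (Set.Icc a (a + 1 / L)) ∧
      -(12 * ((A + 1) / L)) ≤ ∫ y in Set.Icc a (a + 1 / L), Real.log (|y - x j z| / (6 * ((A + 1) / L))) := by
    intro j
    have q1 := abs_le.1 (h1 j z hz a (hyt a ⟨le_rfl, hle⟩))
    have q2 := abs_le.1 (h1 j z hz (a + 1 / L) (hyt _ ⟨hle, le_rfl⟩))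
    obtain ⟨q3, q4⟩ := log_int (R := 6 * ((A + 1) / L)) (x0 := x j z) (by positivity) hle
      (by linarith [q1.1]) (by linarith [q2.2])
    rw [intervalIntegral.integral_of_le hle, ← integral_Icc_eq_integral_Ioc] at q4
    refine ⟨(intervalIntegrable_iff_integrableOn_Icc_of_le hle).1 q3, ?_⟩
    linarith
  have ig : IntegrableOn g (Set.Icc a (a + 1 / L)) := integrable_finset_sum _ fun j _ => (hlog j).1
  have hn' : (n : ℝ) ≤ n0 := by exact_mod_cast hn
  have hgi : -(12 * ((A + 1) / L) * n0) ≤ ∫ y in Set.Icc a (a + 1 / L), g y := by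
    rw [hg, integral_finset_sum _ fun j _ => (hlog j).1]
    have : ∑ _j : Fin n, -(12 * ((A + 1) / L)) ≤
        ∑ j : Fin n, ∫ y in Set.Icc a (a + 1 / L), Real.log (|y - x j z| / (6 * ((A + 1) / L))) :=
      Finset.sum_le_sum fun j _ => (hlog j).2
    rw [Finset.sum_const, Finset.card_univ, Fintype.card_fin, nsmul_eq_mul] at this
    refine le_trans ?_ this
    nlinarith
  have hg0 : ∀ y ∈ Set.Icc a (a + 1 / L), g y ≤ 0 := by
    intro y hy
    apply Finset.sum_nonpos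
    intro j _
    apply Real.log_nonpos (by positivity)
    rw [div_le_one (by positivity)]
    exact h1 j z hz y (hyt y hy)
  have hfin : (volume : Measure ℝ) (Set.Icc a (a + 1 / L)) ≠ ⊤ := by
    rw [Real.volume_Icc]
    exact ENNReal.ofReal_ne_top
  have hreal : (volume : Measure ℝ).real (Set.Icc a (a + 1 / L)) = 1 / L := by
    rw [Real.volume_real_Icc_of_le hle]
    ring
  have ic : ∀ c : ℝ, IntegrableOn (fun _ : ℝ => c) (Set.Icc a (a + 1 / L)) := fun c => integrableOn_const hfin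
  have hae : ∀ᵐ y ∂(volume.restrict (Set.Icc a (a + 1 / L))), y ∈ Set.Icc a (a + 1 / L) ∧ ∀ j, y ≠ x j z := by
    have q1 : ∀ᵐ y ∂(volume.restrict (Set.Icc a (a + 1 / L))), y ∈ Set.Icc a (a + 1 / L) :=
      ae_restrict_mem measurableSet_Icc
    have q2 : ∀ᵐ y ∂(volume : Measure ℝ), ∀ j, y ≠ x j z := by
      rw [ae_all_iff]
      intro j
      exact Measure.ae_ne volume (x j z)
    filter_upwards [q1, ae_restrict_of_ae q2] with y h3 h4 using ⟨h3, h4⟩
  have hmeas : Measurable (lf F L z) := (lf_measurable hFm L).comp measurable_prodMk_left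
  have hbd : ∀ᵐ y ∂(volume.restrict (Set.Icc a (a + 1 / L))), ‖lf F L z y‖ ≤ (|S| + |κ|) - g y := by
    filter_upwards [hae] with y hy
    obtain ⟨q1, q2⟩ := h2 z hz y (hyt y hy.1) hy.2
    have q3 := hg0 y hy.1
    have q4 := le_abs_self S
    have q5 := neg_abs_le κ
    have q6 := abs_nonneg S
    have q7 := abs_nonneg κ
    change g y + κ ≤ lf F L z y at q2
    rw [Real.norm_eq_abs, abs_le]
    constructor <;> linarith
  have idom : IntegrableOn (fun y => (|S| + |κ|) - g y) (Set.Icc a (a + 1 / L)) := (ic _).sub ig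
  have if1 : IntegrableOn (lf F L z) (Set.Icc a (a + 1 / L)) :=
    Integrable.mono' idom hmeas.aestronglyMeasurable hbd
  refine ⟨if1, ?_, ?_⟩
  · have q1 := integral_mono_ae if1.norm idom hbd
    rw [integral_sub (ic _) ig, setIntegral_const, hreal, smul_eq_mul] at q1
    linarith
  · have q1 : ∫ y in Set.Icc a (a + 1 / L), (g y + κ) ≤ ∫ y in Set.Icc a (a + 1 / L), lf F L z y := by
      apply integral_mono_ae (ig.add (ic κ)) if1
      filter_upwards [hae] with y hy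
      exact (h2 z hz y (hyt y hy.1) hy.2).2
    rw [integral_add ig (ic κ), setIntegral_const, hreal, smul_eq_mul] at q1
    linarith

theorem cell_fubini {F : ℂ → ℂ} (hFm : Measurable F) {a A L B m : ℝ} (ν : Measure ℂ) [IsProbabilityMeasure ν]
    (hν : ∀ᵐ z ∂ν, ‖z‖ ≤ A)
    (h : ∀ z, ‖z‖ ≤ A → IntegrableOn (lf F L z) (Set.Icc a (a + 1 / L)) ∧
      (∫ y in Set.Icc a (a + 1 / L), ‖lf F L z y‖) ≤ B ∧ m ≤ ∫ y in Set.Icc a (a + 1 / L), lf F L z y) :
    (∀ᵐ y ∂(volume.restrict (Set.Icc a (a + 1 / L))), Integrable (fun z => lf F L z y) ν) ∧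
    IntegrableOn (fun y => ∫ z, lf F L z y ∂ν) (Set.Icc a (a + 1 / L)) ∧
    m ≤ ∫ y in Set.Icc a (a + 1 / L), ∫ z, lf F L z y ∂ν := by
  set μ := volume.restrict (Set.Icc a (a + 1 / L)) with hμ
  have hm := lf_measurable hFm L
  have hint : Integrable (Function.uncurry (lf F L)) (ν.prod μ) := by
    rw [integrable_prod_iff hm.aestronglyMeasurable]
    constructor
    · filter_upwards [hν] with z hz using (h z hz).1
    · apply Integrable.mono' (integrable_const B)
      · exact (hm.norm.stronglyMeasurable.integral_prod_right').aestronglyMeasurable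
      · filter_upwards [hν] with z hz
        rw [Real.norm_of_nonneg (integral_nonneg fun y => norm_nonneg _)]
        exact (h z hz).2.1
  refine ⟨hint.prod_left_ae, hint.integral_prod_right, ?_⟩
  have h1 : ∫ y, (∫ z, lf F L z y ∂ν) ∂μ = ∫ z, (∫ y, lf F L z y ∂μ) ∂ν :=
    (integral_integral_swap hint).symm
  rw [h1]
  have h2 : ∫ _z : ℂ, m ∂ν ≤ ∫ z, (∫ y, lf F L z y ∂μ) ∂ν := by
    apply integral_mono_ae (integrable_const m) hint.integral_prod_left
    filter_upwards [hν] with z hz using (h z hz).2.2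
  rwa [integral_const, probReal_univ, one_smul] at h2

end

end U345Z
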