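import Pool.Agent.U345.ZAH

/-!
# The moments of geometric means of zeta over arbitrary random shifts
-/

set_option autoImplicit false

open MeasureTheory Filter Topology Complex Metric

namespace U345Z

open Q97.MM

noncomputable section

variable (k : ℕ)

/-- the integrand -/
def gm (ν : Measure ℂ) (T U y : ℝ) : ℝ :=
  Real.exp (2 * k * ∫ z, lf riemannZeta (Real.log T) z y ∂ν) * wt T U y

theorem gm_nonneg (ν : Measure ℂ) (T U y : ℝ) : 0 ≤ gm k ν T U y :=
  mul_nonneg (Real.exp_pos _).le (wt_pos T U y).le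

theorem lm_measurable (ν : Measure ℂ) [IsProbabilityMeasure ν] (L : ℝ) :
    Measurable (fun y : ℝ => ∫ z, lf riemannZeta L z y ∂ν) :=
  ((lf_measurable zeta_measurable L).stronglyMeasurable.integral_prod_left').measurable

theorem gm_measurable (ν : Measure ℂ) [IsProbabilityMeasure ν] (T U : ℝ) : Measurable (gm k ν T U) :=
  (Real.measurable_exp.comp ((lm_measurable ν (Real.log T)).const_mul _)).mul (wt_measurable T U)

/-- The mean of the logarithm is bounded above. -/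
theorem lm_le {ν : Measure ℂ} [IsProbabilityMeasure ν] {A L S y : ℝ} (hL : 0 < L) (hν : ∀ᵐ z ∂ν, ‖z‖ ≤ A)
    (hS : ∀ s, ‖s - pt y‖ ≤ A / L → ‖riemannZeta s‖ ≤ S) :
    ∫ z, lf riemannZeta L z y ∂ν ≤ Real.log (max S 1) := by
  have h0 : 0 ≤ Real.log (max S 1) := Real.log_nonneg (le_max_right _ _)
  by_cases hi : Integrable (fun z => lf riemannZeta L z y) ν
  · have h1 : ∫ z, lf riemannZeta L z y ∂ν ≤ ∫ _z : ℂ, Real.log (max S 1) ∂ν := by
      apply integral_mono_ae hi (integrable_const _)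
      filter_upwards [hν] with z hz
      unfold lf
      have h2 : ‖riemannZeta (pt y + z / L)‖ ≤ S := by
        apply hS
        rw [add_sub_cancel_left, norm_div, Complex.norm_real, Real.norm_of_nonneg hL.le]
        exact div_le_div_of_nonneg_right hz hL.le
      rcases (norm_nonneg (riemannZeta (pt y + z / L))).eq_or_lt with h3 | h3
      · rw [← h3, Real.log_zero]
        exact h0
      · exact Real.log_le_log h3 (h2.trans (le_max_left _ _))
    rwa [integral_const, probReal_univ, one_smul] at h1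
  · rw [integral_undef hi]
    exact h0

theorem exp_lm_le {ν : Measure ℂ} [IsProbabilityMeasure ν] {A L S y : ℝ} (hL : 0 < L) (hS0 : 0 ≤ S)
    (hν : ∀ᵐ z ∂ν, ‖z‖ ≤ A) (hS : ∀ s, ‖s - pt y‖ ≤ A / L → ‖riemannZeta s‖ ≤ S) :
    Real.exp (2 * k * ∫ z, lf riemannZeta L z y ∂ν) ≤ 1 + S ^ (2 * k) := by
  have h1 := lm_le hL hν hS
  have hk0 : (0 : ℝ) ≤ 2 * k := by positivity
  have hm : 0 < max S 1 := lt_of_lt_of_le one_pos (le_max_right _ _)
  calc _ ≤ Real.exp (2 * k * Real.log (max S 1)) :=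
        Real.exp_le_exp.2 (mul_le_mul_of_nonneg_left h1 hk0)
    _ = (max S 1) ^ (2 * k) := by
        have e : (2 * k : ℝ) * Real.log (max S 1) = ((2 * k : ℕ) : ℝ) * Real.log (max S 1) := by push_cast; ring
        rw [e, Real.exp_nat_mul, Real.exp_log hm]
    _ ≤ _ := by
        rcases le_total S 1 with h | h
        · rw [max_eq_right h, one_pow]
          have : 0 ≤ S ^ (2 * k) := by positivity
          linarith
        · rw [max_eq_left h]
          linarith

/-- The weight is bounded by the majorant of the cell. -/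
theorem wt_MM {A : ℝ} (hA0 : 0 ≤ A) (N : ℕ) : ∃ C : ℝ, 0 < C ∧ ∀ T U : ℝ, Adm T U → ∀ (m : ℤ) (y : ℝ),
    (m : ℝ) * (1 / Real.log T) ≤ y → y ≤ (m + 1 : ℝ) * (1 / Real.log T) →
    T ^ (2 * k) * wt T U y ≤ C * MM k A N T U m := by
  obtain ⟨C, hC, h2⟩ := aw_local 0
  refine ⟨C, hC, fun T U hA m y hy1 hy2 => ?_⟩
  have hL := hA.log
  have hL0 : 0 < Real.log T := by linarith
  have hT : 0 < T := by linarith [hA.1]
  set L := Real.log T with hLd
  have q6 : aw 0 T U y ≤ C * Ga T U m := by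
    apply mean_cell hL0
    intro t ht
    apply h2 T U hA.2.1
    rw [abs_le]
    have p3 : (m + 1 : ℝ) * (1 / L) = m * (1 / L) + 1 / L := by ring
    have ht1 := ht.1
    have ht2 := ht.2
    rw [← hLd] at ht1 ht2
    have : 1 / L ≤ 1 := by
      rw [div_le_one hL0]
      exact hL
    constructor <;> linarith
  have q7 : wt T U y ≤ aw 0 T U y := by
    unfold wt aw
    rw [pow_zero, one_mul]
    apply Real.exp_le_exp.2
    have : 0 ≤ ((y - T) / U) ^ 2 := by positivity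
    linarith
  have hGa := Ga_nonneg hL0 U m
  have p1 := Th_nonneg k hA0 N U hL0 m
  calc T ^ (2 * k) * wt T U y ≤ T ^ (2 * k) * (C * Ga T U m) :=
        mul_le_mul_of_nonneg_left (q7.trans q6) (by positivity)
    _ = C * (1 * (T ^ (2 * k) * Ga T U m)) := by ring
    _ ≤ C * MM k A N T U m := by
        apply mul_le_mul_of_nonneg_left _ hC.le
        unfold MM
        linarith

/-- **The upper bound.** -/
theorem gm_upper (hk : 1 ≤ k) {A : ℝ} (hA0 : 0 ≤ A) : ∃ C : ℝ, 0 < C ∧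
    ∀ᶠ T : ℝ in atTop, ∀ U : ℝ, Adm T U → ∀ ν : Measure ℂ, IsProbabilityMeasure ν → (∀ᵐ z ∂ν, ‖z‖ ≤ A) →
    Integrable (gm k ν T U) ∧ ∫ y, gm k ν T U y ≤ C * JJ k T U (1 / 2) := by
  obtain ⟨N, hN⟩ := exists_nat_ge A
  obtain ⟨C1, hC1, h1⟩ := max_cell k hk hA0 hN
  obtain ⟨C2, hC2, h2⟩ := MM_sum k hA0 N hk
  obtain ⟨C0, hC0, h0⟩ := wt_MM k hA0 N
  refine ⟨(C0 + C1) * C2, by positivity, ?_⟩
  filter_upwards [h1, h2] with T h3 h4 U hA ν hνp hν
  have hL := hA.log
  have hL0 : 0 < Real.log T := by linarith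
  have hT : 0 < T := by linarith [hA.1]
  obtain ⟨hM, hsum⟩ := h4 U hA
  obtain ⟨h5, h6⟩ := h3
  set L := Real.log T with hLd
  have hT2 : (0 : ℝ) < T ^ (2 * k) := by positivity
  have hpt : ∀ (m : ℤ) (y : ℝ), (m : ℝ) * (1 / L) ≤ y → y ≤ (m + 1 : ℝ) * (1 / L) →
      ENNReal.ofReal (gm k ν T U y) ≤
        ENNReal.ofReal (((C0 + C1) / T ^ (2 * k)) * MM k A N T U m) := by
    intro m y hy1 hy2
    apply ENNReal.ofReal_le_ofReal
    obtain ⟨S, hS0, hS1, hS2⟩ := h6 U hA m y hy1 hy2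
    have hw := wt_pos T U y
    have h7 := exp_lm_le k hL0 hS0 hν hS1
    have h8 := h0 T U hA m y hy1 hy2
    rw [div_mul_eq_mul_div, le_div_iff₀ hT2]
    unfold gm
    rw [← hLd]
    calc _ ≤ (1 + S ^ (2 * k)) * wt T U y * T ^ (2 * k) := by gcongr
      _ = T ^ (2 * k) * wt T U y + T ^ (2 * k) * (S ^ (2 * k) * wt T U y) := by ring
      _ ≤ C0 * MM k A N T U m + C1 * MM k A N T U m := add_le_add h8 hS2
      _ = _ := by ring
  have hvol : ∀ x : ℝ, (volume : Measure ℝ) (Set.Icc x (x + 1 / L)) ≤ ENNReal.ofReal (1 / L) := by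
    intro x
    rw [Real.volume_Icc, add_sub_cancel_left]
  have h9 := cell_lint hL0 zero_le_one (K := (C0 + C1) / T ^ (2 * k)) (by positivity) volume hvol _
    (fun m => MM k A N T U m) (fun m => MM_nonneg k hA0 N U hT hL0 m) hpt hsum
  have e9 : (C0 + C1) / T ^ (2 * k) * (C2 * L * (T ^ (2 * k) * JJ k T U (1 / 2))) * (1 / L) =
      (C0 + C1) * C2 * JJ k T U (1 / 2) := by
    field_simp
  rw [e9] at h9
  have iψ : Integrable (gm k ν T U) := by
    refine ⟨(gm_measurable k ν T U).aestronglyMeasurable, ?_⟩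
    refine lt_of_le_of_lt ?_ (lt_of_le_of_lt h9 ENNReal.ofReal_lt_top)
    apply lintegral_mono
    intro y
    beta_reduce
    rw [← ofReal_norm, Real.norm_of_nonneg (gm_nonneg k ν T U y)]
  refine ⟨iψ, ?_⟩
  rw [← ofReal_integral_eq_lintegral_ofReal iψ (Eventually.of_forall fun y => gm_nonneg k ν T U y)] at h9
  exact (ENNReal.ofReal_le_ofReal_iff (by positivity)).1 h9

/-- **The good cells suffice.** -/
theorem good_sum (hk : 1 ≤ k) {A : ℝ} (hA0 : 0 ≤ A) : ∃ D : ℝ, 1 ≤ D ∧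
    ∀ᶠ T : ℝ in atTop, A / Real.log T < 1 / 2 ∧ ∀ U : ℝ, Adm T U → 0 < JJ k T U (1 / 2) ∧
    ∀ (C4 : ℝ) (φ : ℝ → ℝ), 0 ≤ C4 → (∀ y, 0 ≤ φ y) → Integrable φ →
    (∀ (m : ℤ) (t S : ℝ), (m : ℝ) * (1 / Real.log T) ≤ t → t ≤ (m + 1 : ℝ) * (1 / Real.log T) →
      |t - T| ≤ U * Real.log T / 2 → 0 ≤ S → (∀ s, ‖s - pt t‖ ≤ A / Real.log T → ‖riemannZeta s‖ ≤ S) →
      S ≤ D * ‖riemannZeta (pt t)‖ → 0 < ‖riemannZeta (pt t)‖ →
      zq k T U t ≤ Real.log T * (C4 * ∫ t in ((m : ℝ) * (1 / Real.log T))..((m + 1 : ℝ) * (1 / Real.log T)), φ t)) →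
    JJ k T U (1 / 2) ≤ 8 * C4 * ∫ y, φ y := by
  obtain ⟨N, hN⟩ := exists_nat_ge A
  obtain ⟨C1, hC1, h1⟩ := max_cell k hk hA0 hN
  obtain ⟨C2, hC2, h2⟩ := MM_sum k hA0 N hk
  set D : ℝ := 1 + 8 * C1 * C2 with hD
  have hD1 : 1 ≤ D := by
    have : 0 < 8 * C1 * C2 := by positivity
    linarith
  have hD0 : 0 < D := by linarith
  refine ⟨D, hD1, ?_⟩
  filter_upwards [h1, h2, near_zq k hk] with T h3 h4 hnear
  obtain ⟨h5, h6⟩ := h3
  refine ⟨h5, fun U hA => ?_⟩
  have hL := hA.log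
  have hL0 : 0 < Real.log T := by linarith
  have hT : 0 < T := by linarith [hA.1]
  obtain ⟨hM, hsumM⟩ := h4 U hA
  obtain ⟨iz, hJ0, hnz⟩ := hnear U hA
  refine ⟨hJ0, fun C4 φ hC4 hφ iφ hgoodc => ?_⟩
  set L := Real.log T with hLd
  have hT2 : (0 : ℝ) < T ^ (2 * k) := by positivity
  have hh0 : (0 : ℝ) < 1 / L := by positivity
  have hcellφ : ∀ m : ℤ, 0 ≤ ∫ t in ((m : ℝ) * (1 / L))..((m + 1 : ℝ) * (1 / L)), φ t := fun m =>
    intervalIntegral.integral_nonneg (cell_le hL0 m) fun t _ => hφ t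
  have hcell : ∀ (m : ℤ) (t : ℝ), (m : ℝ) * (1 / L) ≤ t → t ≤ (m + 1 : ℝ) * (1 / L) → t ∈ nearS T U →
      zq k T U t ≤ L * (C4 * ∫ t in ((m : ℝ) * (1 / L))..((m + 1 : ℝ) * (1 / L)), φ t) +
        C1 / (D ^ (2 * k) * T ^ (2 * k)) * MM k A N T U m := by
    intro m t ht1 ht2 htn
    have htn' : |t - T| ≤ U * L / 2 := htn
    obtain ⟨S, hS0, hS1, hS2⟩ := h6 U hA m t ht1 ht2
    have hw := wt_pos T U t
    have hΦ := hcellφ m
    have hMM0 := MM_nonneg k (A := A) hA0 N U hT hL0 m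
    have hpos1 : 0 ≤ L * (C4 * ∫ t in ((m : ℝ) * (1 / L))..((m + 1 : ℝ) * (1 / L)), φ t) := by positivity
    have hpos2 : 0 ≤ C1 / (D ^ (2 * k) * T ^ (2 * k)) * MM k A N T U m := by positivity
    have hzq : zq k T U t = ‖riemannZeta (pt t)‖ ^ (2 * k) * wt T U t := rfl
    by_cases hgood : S ≤ D * ‖riemannZeta (pt t)‖
    · rcases (norm_nonneg (riemannZeta (pt t))).eq_or_lt with hzero | hpos
      · rw [hzq, ← hzero, zero_pow (by omega), zero_mul]
        linarith
      · have := hgoodc m t S ht1 ht2 htn' hS0 hS1 hgood hpos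
        linarith
    · push Not at hgood
      have q1 : (D * ‖riemannZeta (pt t)‖) ^ (2 * k) ≤ S ^ (2 * k) :=
        pow_le_pow_left₀ (by positivity) hgood.le _
      have q2 : zq k T U t ≤ C1 / (D ^ (2 * k) * T ^ (2 * k)) * MM k A N T U m := by
        rw [div_mul_eq_mul_div, le_div_iff₀ (by positivity), hzq]
        calc ‖riemannZeta (pt t)‖ ^ (2 * k) * wt T U t * (D ^ (2 * k) * T ^ (2 * k))
            = T ^ (2 * k) * ((D * ‖riemannZeta (pt t)‖) ^ (2 * k) * wt T U t) := by rw [mul_pow]; ring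
          _ ≤ T ^ (2 * k) * (S ^ (2 * k) * wt T U t) := by gcongr
          _ ≤ _ := hS2
      linarith
  set F : ℝ → ℝ := (nearS T U).indicator (zq k T U) with hF
  have iF : Integrable F := iz.indicator (nearS_measurable T U)
  have hDk : D ≤ D ^ (2 * k) := le_self_pow₀ hD1 (by omega)
  have hsum : ∫ y, F y ≤ C4 * (∫ y, φ y) + JJ k T U (1 / 2) / 8 := by
    apply cells_le iF hh0
    intro S
    have h8 : ∀ m ∈ S, ∫ t in ((m : ℝ) * (1 / L))..((m + 1 : ℝ) * (1 / L)), F t ≤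
        C4 * (∫ t in ((m : ℝ) * (1 / L))..((m + 1 : ℝ) * (1 / L)), φ t) +
          (1 / L) * (C1 / (D ^ (2 * k) * T ^ (2 * k)) * MM k A N T U m) := by
      intro m _
      have hΦ := hcellφ m
      have hMM0 := MM_nonneg k (A := A) hA0 N U hT hL0 m
      set Φ := ∫ t in ((m : ℝ) * (1 / L))..((m + 1 : ℝ) * (1 / L)), φ t with hΦd
      have hbd : ∀ t ∈ Set.Icc ((m : ℝ) * (1 / L)) ((m + 1 : ℝ) * (1 / L)),
          F t ≤ L * (C4 * Φ) + C1 / (D ^ (2 * k) * T ^ (2 * k)) * MM k A N T U m := by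
        intro t ht
        by_cases htn : t ∈ nearS T U
        · rw [hF, Set.indicator_of_mem htn]
          exact hcell m t ht.1 ht.2 htn
        · rw [hF, Set.indicator_of_notMem htn]
          positivity
      have h9 : ∫ t in ((m : ℝ) * (1 / L))..((m + 1 : ℝ) * (1 / L)), F t ≤
          ∫ _t in ((m : ℝ) * (1 / L))..((m + 1 : ℝ) * (1 / L)),
            (L * (C4 * Φ) + C1 / (D ^ (2 * k) * T ^ (2 * k)) * MM k A N T U m) := by
        apply intervalIntegral.integral_mono_on (cell_le hL0 m) iF.intervalIntegrable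
          intervalIntegrable_const
        exact hbd
      rw [intervalIntegral.integral_const, smul_eq_mul] at h9
      refine h9.trans (le_of_eq ?_)
      have e : ((m + 1 : ℝ) * (1 / L) - (m : ℝ) * (1 / L)) = 1 / L := by ring
      rw [e, mul_add]
      congr 1
      field_simp
    refine (Finset.sum_le_sum h8).trans ?_
    rw [Finset.sum_add_distrib, ← Finset.mul_sum, ← Finset.mul_sum, ← Finset.mul_sum]
    have o1 := overlap (φ := φ) hφ iφ hh0 0 S
    simp only [Nat.cast_zero, sub_zero, add_zero, mul_zero, zero_add, one_mul] at o1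
    have o2 := hsumM S
    have q1 : C4 * ∑ m ∈ S, ∫ t in ((m : ℝ) * (1 / L))..((m + 1 : ℝ) * (1 / L)), φ t ≤
        C4 * ∫ y, φ y := by gcongr
    have q2 : (1 / L) * (C1 / (D ^ (2 * k) * T ^ (2 * k)) * ∑ m ∈ S, MM k A N T U m) ≤
        JJ k T U (1 / 2) / 8 := by
      calc _ ≤ (1 / L) * (C1 / (D ^ (2 * k) * T ^ (2 * k)) * (C2 * L * (T ^ (2 * k) * JJ k T U (1 / 2)))) := by
            gcongr
        _ = (C1 * C2 / D ^ (2 * k)) * JJ k T U (1 / 2) := by field_simp
        _ ≤ (1 / 8) * JJ k T U (1 / 2) := by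
            apply mul_le_mul_of_nonneg_right _ hJ0.le
            rw [div_le_iff₀ (by positivity)]
            linarith
        _ = _ := by ring
    linarith
  have hFint : ∫ y, F y = ∫ y in nearS T U, zq k T U y := integral_indicator (nearS_measurable T U)
  rw [hFint] at hsum
  linarith

end

end U345Z
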