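import Pool.Agent.U345.ZAI

/-!
# The moments of geometric means of zeta over arbitrary random shifts: lower bounds
-/

set_option autoImplicit false

open MeasureTheory Filter Topology Complex Metric

namespace U345Z

open Q97.MM

noncomputable section

variable (k : ℕ)

theorem zeta_diff : DifferentiableOn ℂ riemannZeta ({1}ᶜ : Set ℂ) := fun s hs =>
  (differentiableAt_riemannZeta (by simpa using hs)).differentiableWithinAt

/-- **The lower bound.** -/
theorem gm_lower (hk : 1 ≤ k) {A : ℝ} (hA0 : 0 ≤ A) : ∃ c : ℝ, 0 < c ∧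
    ∀ᶠ T : ℝ in atTop, ∀ U : ℝ, Adm T U → ∀ ν : Measure ℂ, IsProbabilityMeasure ν → (∀ᵐ z ∂ν, ‖z‖ ≤ A) →
    c * JJ k T U (1 / 2) ≤ ∫ y, gm k ν T U y := by
  obtain ⟨D, hD1, h1⟩ := good_sum k hk (show (0 : ℝ) ≤ 25 * (A + 1) by positivity)
  obtain ⟨C3, hC3, h3u⟩ := gm_upper k hk hA0
  set K : ℝ := D + 1 with hK
  have hK2 : 2 ≤ K := by linarith
  have hK0 : 0 < K := by linarith
  obtain ⟨n0, hn0⟩ := pow_unbounded_of_one_lt K (one_lt_two (α := ℝ))
  set κ0 : ℝ := Real.exp (-(12 * (A + 1) * n0)) / K ^ 2 with hκ0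
  have hκ00 : 0 < κ0 := by positivity
  set C4 : ℝ := Real.exp 3 / κ0 ^ (2 * k) with hC4
  have hC40 : 0 < C4 := by positivity
  refine ⟨1 / (8 * C4), by positivity, ?_⟩
  filter_upwards [h1, h3u] with T h2 h5u U hA ν hνp hν
  have hL := hA.log
  have hL0 : 0 < Real.log T := by linarith
  have hT : 0 < T := by linarith [hA.1]
  have hU := hA.pos
  obtain ⟨h5, h6⟩ := h2
  obtain ⟨hJ0, hgs⟩ := h6 U hA
  obtain ⟨iψ, -⟩ := h5u U hA ν hνp hν
  set L := Real.log T with hLd
  have hh0 : (0 : ℝ) < 1 / L := by positivity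
  have hp3 : ∀ m : ℤ, (m + 1 : ℝ) * (1 / L) = m * (1 / L) + 1 / L := fun m => by ring
  have hkey := hgs C4 (gm k ν T U) hC40.le (gm_nonneg k ν T U) iψ ?_
  · rw [one_div, inv_mul_le_iff₀ (by positivity)]
    exact hkey
  intro m t S ht1 ht2 htn hS0 hS1 hgood hpos
  set a := ‖riemannZeta (pt t)‖ with ha
  have hzq : zq k T U t = a ^ (2 * k) * wt T U t := rfl
  have e25 : 25 * ((A + 1) / L) = 25 * (A + 1) / L := by ring
  have hr0 : 0 < (A + 1) / L := by positivity
  have hsub : closedBall (pt t) (25 * ((A + 1) / L)) ⊆ ({1}ᶜ : Set ℂ) := by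
    intro s hs
    rw [mem_closedBall_iff_norm, e25] at hs
    exact ne_one_of_near h5 hs
  have hle25 : (A + 1) / L ≤ 25 * (A + 1) / L := by
    rw [← e25]
    linarith
  have hS2 : ∀ s, ‖s - pt t‖ ≤ (A + 1) / L → ‖riemannZeta s‖ ≤ S := fun s hs => hS1 s (hs.trans hle25)
  obtain ⟨n, x, hn, hx1, hx2⟩ := lf_bounds zeta_diff (t := t) (A := A) (L := L) (K := K) (S := S) (n0 := n0)
    (w := pt t) hL0 hA0 hsub hK2 hn0.le (by rw [sub_self, norm_zero]; exact hr0.le) hpos (by
      intro s hs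
      refine (hS1 s (by rw [hs, e25])).trans (hgood.trans ?_)
      apply mul_le_mul_of_nonneg_right _ hpos.le
      linarith) hS2
  set κ := Real.log (a / K ^ 2) with hκ
  have hcell : ∀ z, ‖z‖ ≤ A → _ := fun z hz => cell_log1 zeta_measurable (t := t) (a := m * (1 / L)) (A := A)
    (L := L) (S := Real.log S) (κ := κ) x hL0 hA0 hn hx1 hx2 ht1 (by rw [← hp3]; exact ht2) z hz
  obtain ⟨-, if1, hm1⟩ := cell_fubini zeta_measurable ν hν hcell
  set I := Set.Icc ((m : ℝ) * (1 / L)) (m * (1 / L) + 1 / L) with hI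
  set G : ℝ → ℝ := fun y => 2 * k * ∫ z, lf riemannZeta L z y ∂ν with hG
  have iG : IntegrableOn G I := if1.const_mul _
  have hfin : (volume : Measure ℝ) I ≠ ⊤ := by
    rw [hI, Real.volume_Icc]
    exact ENNReal.ofReal_ne_top
  have hreal : (volume : Measure ℝ).real I = 1 / L := by
    rw [hI, Real.volume_real_Icc_of_le (by linarith)]
    ring
  have hyt : ∀ y ∈ I, |y - t| ≤ 1 / L := by
    intro y hy
    rw [abs_le]
    have := hp3 m
    constructor <;> linarith [hy.1, hy.2]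
  have hSy : ∀ y ∈ I, ∀ s, ‖s - pt y‖ ≤ A / L → ‖riemannZeta s‖ ≤ S := by
    intro y hy s hs
    apply hS2
    have q1 : ‖s - pt t‖ ≤ ‖s - pt y‖ + ‖pt y - pt t‖ := by
      have := norm_add_le (s - pt y) (pt y - pt t)
      rwa [sub_add_sub_cancel] at this
    rw [pt_sub] at q1
    have e : (A + 1) / L = A / L + 1 / L := by ring
    linarith [hyt y hy]
  have hGm : Measurable G := (lm_measurable ν L).const_mul _
  have iE : IntegrableOn (fun y => Real.exp (G y)) I := by
    apply Integrable.mono' (g := fun _ => 1 + S ^ (2 * k)) (integrableOn_const hfin)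
    · exact (Real.measurable_exp.comp hGm).aestronglyMeasurable
    · have q1 : ∀ᵐ y ∂(volume.restrict I), y ∈ I := ae_restrict_mem measurableSet_Icc
      filter_upwards [q1] with y hy
      rw [Real.norm_of_nonneg (Real.exp_pos _).le]
      exact exp_lm_le k hL0 hS0 hν (hSy y hy)
  set M : ℝ := 2 * k * (κ - 12 * (A + 1) * n0) with hM
  have hmean : 1 / L * M ≤ ∫ y in I, G y := by
    rw [hG, integral_const_mul]
    have q1 := mul_le_mul_of_nonneg_left hm1 (show (0 : ℝ) ≤ 2 * k by positivity)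
    refine le_trans (le_of_eq ?_) q1
    rw [hM]
    ring
  have hex := exp_mean hreal hfin iG iE hmean
  have hexpM : Real.exp M = (κ0 * a) ^ (2 * k) := by
    have e1 : M = ((2 * k : ℕ) : ℝ) * (κ - 12 * (A + 1) * n0) := by rw [hM]; push_cast; ring
    rw [e1, Real.exp_nat_mul]
    congr 1
    rw [sub_eq_add_neg, Real.exp_add, hκ, Real.exp_log (by positivity), hκ0]
    ring
  have hwt : ∀ y ∈ I, wt T U t ≤ Real.exp 3 * wt T U y := by
    intro y hy
    have := wt_shift (A := 1) hA zero_le_one (y := t) (y' := y) (by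
      refine htn.trans ?_
      have : 0 < U * L := by positivity
      linarith) (hyt y hy)
    have e : (2 * 1 + 1 ^ 2 : ℝ) = 3 := by norm_num
    rwa [e] at this
  have hgm : ∫ y in I, Real.exp (G y) * (wt T U t / Real.exp 3) ≤ ∫ y in I, gm k ν T U y := by
    apply setIntegral_mono_on (iE.mul_const _) iψ.integrableOn measurableSet_Icc
    intro y hy
    unfold gm
    apply mul_le_mul_of_nonneg_left _ (Real.exp_pos _).le
    rw [div_le_iff₀ (Real.exp_pos _), mul_comm]
    exact hwt y hy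
  rw [integral_mul_const] at hgm
  have hΦ : ∫ y in ((m : ℝ) * (1 / L))..((m + 1 : ℝ) * (1 / L)), gm k ν T U y = ∫ y in I, gm k ν T U y := by
    rw [intervalIntegral.integral_of_le (cell_le hL0 m), ← integral_Icc_eq_integral_Ioc, hp3]
  rw [hΦ]
  have hwpos := wt_pos T U t
  have q1 : 1 / L * (κ0 * a) ^ (2 * k) * (wt T U t / Real.exp 3) ≤ ∫ y in I, gm k ν T U y := by
    refine le_trans ?_ hgm
    apply mul_le_mul_of_nonneg_right _ (by positivity)
    rw [← hexpM]
    exact hex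
  have q2 := mul_le_mul_of_nonneg_left q1 (show 0 ≤ L * C4 by positivity)
  rw [hzq]
  calc a ^ (2 * k) * wt T U t = L * C4 * (1 / L * (κ0 * a) ^ (2 * k) * (wt T U t / Real.exp 3)) := by
        rw [hC4, mul_pow]
        field_simp
    _ ≤ L * C4 * ∫ y in I, gm k ν T U y := q2
    _ = _ := by ring

/-- Zeta does not vanish identically on a disc. -/
theorem exists_ne_zero {c0 : ℂ} {r : ℝ} (hr : 0 < r) (h : closedBall c0 r ⊆ ({1}ᶜ : Set ℂ)) :
    ∃ w, ‖w - c0‖ ≤ r ∧ riemannZeta w ≠ 0 := by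
  by_contra hcon
  push Not at hcon
  have han : AnalyticOnNhd ℂ riemannZeta ({1}ᶜ : Set ℂ) := zeta_diff.analyticOnNhd isOpen_compl_singleton
  have hc0 : c0 ∈ ({1}ᶜ : Set ℂ) := h (mem_closedBall_self hr.le)
  have hpre : IsPreconnected ({1}ᶜ : Set ℂ) := by
    apply IsConnected.isPreconnected
    apply isConnected_compl_singleton_of_one_lt_rank
    rw [Complex.rank_real_complex]
    norm_num
  have hev : riemannZeta =ᶠ[𝓝 c0] 0 := by
    filter_upwards [closedBall_mem_nhds c0 hr] with s hs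
    exact hcon s (by rwa [mem_closedBall_iff_norm] at hs)
  have h0 := han.eqOn_zero_of_preconnected_of_eventuallyEq_zero hpre hc0 hev
  have h2 : riemannZeta 2 = 0 := h0 (show (2 : ℂ) ∈ ({1}ᶜ : Set ℂ) by simp)
  rw [riemannZeta_two] at h2
  have h3 : ((Real.pi : ℂ) ^ 2 / 6) ≠ 0 := by
    have : (Real.pi : ℂ) ≠ 0 := by exact_mod_cast Real.pi_ne_zero
    exact div_ne_zero (pow_ne_zero 2 this) (by norm_num)
  exact h3 h2

/-- For almost every height the mean of the logarithm converges. -/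
theorem lm_ae {A : ℝ} (hA0 : 0 ≤ A) : ∀ᶠ T : ℝ in atTop, ∀ ν : Measure ℂ, IsProbabilityMeasure ν →
    (∀ᵐ z ∂ν, ‖z‖ ≤ A) → ∀ᵐ y ∂(volume : Measure ℝ), Integrable (fun z => lf riemannZeta (Real.log T) z y) ν := by
  filter_upwards [(log_div_tendsto (25 * (A + 1))).eventually (gt_mem_nhds (show (0 : ℝ) < 1 / 2 by norm_num)),
    eventually_ge_atTop 3] with T h3 hT3 ν hνp hν
  have hL0 : 0 < Real.log T := Real.log_pos (by linarith)
  rw [abs_of_nonneg (by positivity)] at h3
  set L := Real.log T with hLd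
  have hh0 : (0 : ℝ) < 1 / L := by positivity
  have e25 : 25 * ((A + 1) / L) = 25 * (A + 1) / L := by ring
  have hr0 : 0 < (A + 1) / L := by positivity
  have hle25 : (A + 1) / L ≤ 25 * (A + 1) / L := by
    rw [← e25]
    linarith
  have hcells : ∀ m : ℤ, ∀ᵐ y ∂(volume : Measure ℝ), y ∈ Set.Icc ((m : ℝ) * (1 / L)) (m * (1 / L) + 1 / L) →
      Integrable (fun z => lf riemannZeta L z y) ν := by
    intro m
    set t := (m : ℝ) * (1 / L) with ht
    have hsub : closedBall (pt t) (25 * ((A + 1) / L)) ⊆ ({1}ᶜ : Set ℂ) := by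
      intro s hs
      rw [mem_closedBall_iff_norm, e25] at hs
      exact ne_one_of_near h3 hs
    obtain ⟨w, hw1, hw2⟩ := exists_ne_zero hr0 ((closedBall_subset_closedBall (by linarith)).trans hsub)
    have hw0 : 0 < ‖riemannZeta w‖ := norm_pos_iff.2 hw2
    obtain ⟨w', hw1', hw2'⟩ := local_max (r := 25 * (A + 1) / L) (by positivity) h3 t
    set K := max 2 (‖riemannZeta w'‖ / ‖riemannZeta w‖) with hK
    obtain ⟨n0, hn0⟩ := pow_unbounded_of_one_lt K (one_lt_two (α := ℝ))
    obtain ⟨n, x, hn, hx1, hx2⟩ := lf_bounds zeta_diff (t := t) (A := A) (L := L) (K := K)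
      (S := ‖riemannZeta w'‖) (n0 := n0) (w := w) hL0 hA0 hsub (le_max_left _ _) hn0.le hw1 hw0 (by
        intro s hs
        refine (hw2' s (by rw [hs, e25])).trans ?_
        rw [← div_le_iff₀ hw0]
        exact le_max_right _ _) (fun s hs => hw2' s (hs.trans hle25))
    have hcell : ∀ z, ‖z‖ ≤ A → _ := fun z hz => cell_log1 zeta_measurable (t := t) (a := t) (A := A)
      (L := L) (S := Real.log ‖riemannZeta w'‖) (κ := Real.log (‖riemannZeta w‖ / K ^ 2)) x hL0 hA0 hn hx1 hx2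
      le_rfl (by linarith) z hz
    obtain ⟨h4, -, -⟩ := cell_fubini zeta_measurable ν hν hcell
    exact (ae_restrict_iff' measurableSet_Icc).1 h4
  filter_upwards [ae_all_iff.2 hcells] with y hy
  apply hy ⌊y * L⌋
  have e1 : (⌊y * L⌋ : ℝ) ≤ y * L := Int.floor_le _
  have e2 : y * L < (⌊y * L⌋ : ℝ) + 1 := Int.lt_floor_add_one _
  constructor
  · rw [mul_one_div, div_le_iff₀ hL0]
    exact e1
  · rw [mul_one_div, ← add_div, le_div_iff₀ hL0]
    exact e2.le

end

end U345Z
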