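import Pool.Agent.U345.ZAJ

/-!
# Stretched exponential moments of `log |ζ|` on a cell
-/

set_option autoImplicit false

open MeasureTheory Filter Topology Complex Metric

namespace U345Z

open Q97.MM

noncomputable section

theorem rp_int {R x0 a b : ℝ} (hR : 0 < R) (hab : a ≤ b) (ha : x0 - R ≤ a) (hb : b ≤ x0 + R) :
    IntervalIntegrable (fun y => (|y - x0| / R) ^ (-(1 / 2) : ℝ)) volume a b ∧
    ∫ y in a..b, (|y - x0| / R) ^ (-(1 / 2) : ℝ) ≤ 4 * R := by
  set q : ℝ → ℝ := fun u => |u| ^ (-(1 / 2) : ℝ) with hq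
  have e1 : (fun y : ℝ => (|y - x0| / R) ^ (-(1 / 2) : ℝ)) = fun y => q (y / R - x0 / R) := by
    funext y
    rw [hq]
    beta_reduce
    rw [← sub_div, abs_div, abs_of_pos hR]
  have hq0 : ∀ u, 0 ≤ q u := fun u => Real.rpow_nonneg (abs_nonneg _) _
  have hqn : ∀ u, q (-u) = q u := fun u => by rw [hq]; beta_reduce; rw [abs_neg]
  have hr : IntervalIntegrable (fun u : ℝ => u ^ (-(1 / 2) : ℝ)) volume 0 1 :=
    intervalIntegral.intervalIntegrable_rpow' (by norm_num)
  have hq1 : IntervalIntegrable q volume 0 1 := by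
    rw [intervalIntegrable_iff_integrableOn_Ioc_of_le zero_le_one] at hr ⊢
    apply hr.congr_fun _ measurableSet_Ioc
    intro u hu
    rw [hq]
    beta_reduce
    rw [abs_of_pos hu.1]
  have hI1 : ∫ u in (0 : ℝ)..1, q u = 2 := by
    have h : ∫ u in (0 : ℝ)..1, q u = ∫ u in (0 : ℝ)..1, u ^ (-(1 / 2) : ℝ) := by
      apply intervalIntegral.integral_congr
      intro u hu
      rw [Set.uIcc_of_le zero_le_one] at hu
      rw [hq]
      beta_reduce
      rw [abs_of_nonneg hu.1]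
    rw [h, integral_rpow (Or.inl (by norm_num))]
    rw [Real.one_rpow, Real.zero_rpow (by norm_num)]
    norm_num
  have hq2 : IntervalIntegrable q volume (-1) 0 := by
    have h := hq1.comp_mul_left (c := -1)
    have e2 : (fun x => q (-1 * x)) = q := by
      funext x
      rw [neg_one_mul, hqn]
    rw [e2] at h
    have e3 : (0 : ℝ) / -1 = 0 := by norm_num
    have e4 : (1 : ℝ) / -1 = -1 := by norm_num
    rw [e3, e4] at h
    exact h.symm
  have hI2 : ∫ u in (-1 : ℝ)..0, q u = 2 := by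
    have h := intervalIntegral.integral_comp_neg (f := q) (a := 0) (b := 1)
    simp only [hqn, neg_zero] at h
    rw [← h, hI1]
  have hq3 : IntervalIntegrable q volume (-1) 1 := hq2.trans hq1
  have hI3 : ∫ u in (-1 : ℝ)..1, q u = 4 := by
    rw [← intervalIntegral.integral_add_adjacent_intervals hq2 hq1, hI1, hI2]
    norm_num
  set α := a / R - x0 / R with hα
  set β := b / R - x0 / R with hβ
  have hα1 : -1 ≤ α := by
    rw [hα, ← sub_div, le_div_iff₀ hR]
    linarith
  have hβ1 : β ≤ 1 := by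
    rw [hβ, ← sub_div, div_le_iff₀ hR]
    linarith
  have hαβ : α ≤ β := by
    have := div_le_div_of_nonneg_right hab hR.le
    linarith
  have hq4 : IntervalIntegrable q volume α β := by
    apply hq3.mono_set
    rw [Set.uIcc_of_le hαβ, Set.uIcc_of_le (by norm_num : (-1 : ℝ) ≤ 1)]
    exact Set.Icc_subset_Icc hα1 hβ1
  have h1 : IntervalIntegrable (fun y : ℝ => q (y / R - x0 / R)) volume a b := by
    have h3 := hq4.comp_sub_right (x0 / R)
    have h4 := h3.comp_mul_left (c := R⁻¹)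
    have e2 : (fun y : ℝ => q (y / R - x0 / R)) = fun x => q (R⁻¹ * x - x0 / R) := by
      funext y
      rw [div_eq_inv_mul y R]
    have e3 : (α + x0 / R) / R⁻¹ = a := by rw [hα]; field_simp; ring
    have e4 : (β + x0 / R) / R⁻¹ = b := by rw [hβ]; field_simp; ring
    rw [e3, e4] at h4
    rw [e2]
    exact h4
  rw [e1]
  refine ⟨h1, ?_⟩
  rw [intervalIntegral.integral_comp_div_sub (fun u => q u) hR.ne' (x0 / R), smul_eq_mul, ← hα, ← hβ]
  have h5 : ∫ u in α..β, q u ≤ ∫ u in (-1 : ℝ)..1, q u :=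
    intervalIntegral.integral_mono_interval hα1 hαβ hβ1 (Eventually.of_forall hq0) hq3
  rw [hI3] at h5
  nlinarith

theorem exp_avg {n n0 : ℕ} (hn : n ≤ n0) (hn1 : 1 ≤ n0) (u : Fin n → ℝ) (hu : ∀ j, 0 ≤ u j) :
    Real.exp ((∑ j, u j) / (2 * n0)) ≤ 1 + ∑ j, Real.exp (u j / 2) := by
  have hn0 : (0 : ℝ) < n0 := by
    have : 0 < n0 := hn1
    exact_mod_cast this
  have hs0 : 0 ≤ ∑ j, u j := Finset.sum_nonneg fun j _ => hu j
  have hE : ∀ j, 0 ≤ Real.exp (u j / 2) := fun j => (Real.exp_pos _).le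
  by_cases h : ∃ j, (∑ j, u j) / (2 * n0) ≤ u j / 2
  · obtain ⟨j, hj⟩ := h
    have h1 := Finset.single_le_sum (f := fun j => Real.exp (u j / 2)) (fun j _ => hE j) (Finset.mem_univ j)
    have h2 := Real.exp_le_exp.2 hj
    linarith
  · push Not at h
    have h1 : ∑ j, u j ≤ 0 := by
      rcases Nat.eq_zero_or_pos n with h0 | h0
      · subst h0
        simp
      · exfalso
        have h2 : ∑ j, u j / 2 < ∑ _j : Fin n, (∑ j, u j) / (2 * n0) := by
          haveI : Nonempty (Fin n) := ⟨⟨0, h0⟩⟩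
          exact Finset.sum_lt_sum_of_nonempty Finset.univ_nonempty fun j _ => h j
        rw [Finset.sum_const, Finset.card_univ, Fintype.card_fin, nsmul_eq_mul, ← Finset.sum_div] at h2
        have h3 : (n : ℝ) * ((∑ j, u j) / (2 * n0)) ≤ (∑ j, u j) / 2 := by
          rw [← mul_div_assoc, div_le_div_iff₀ (by positivity) two_pos]
          have : (n : ℝ) ≤ n0 := by exact_mod_cast hn
          nlinarith
        linarith
    have h2 : ∑ j, u j = 0 := le_antisymm h1 hs0
    rw [h2, zero_div, Real.exp_zero]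
    have := Finset.sum_nonneg (s := Finset.univ) fun j _ => hE j
    linarith

theorem osc_pt {W X V : ℝ} {n0 : ℕ} (hn1 : 1 ≤ n0) (hX : 0 ≤ X) (hV : 0 ≤ V) (hW : W ≤ X + V) :
    Real.sqrt W / 2 ≤ n0 / 8 + X / (2 * n0) + (1 + V) / 4 := by
  have hn0 : (0 : ℝ) < n0 := by
    have : 0 < n0 := hn1
    exact_mod_cast this
  have h1 : Real.sqrt W ≤ n0 / 4 + X / n0 + (1 + V) / 2 := by
    rw [Real.sqrt_le_left (by positivity)]
    refine hW.trans ?_
    have h2 : X = 4 * ((n0 : ℝ) / 4 * (X / n0)) := by field_simp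
    have h3 : 0 ≤ X / n0 := by positivity
    have h4 : 0 ≤ (n0 : ℝ) / 4 := by positivity
    nlinarith [sq_nonneg ((n0 : ℝ) / 4 - X / n0), sq_nonneg ((1 + V) / 2 - 1), mul_nonneg h3 hV, mul_nonneg h4 hV]
  have e : (n0 : ℝ) / 8 + X / (2 * n0) + (1 + V) / 4 = (n0 / 4 + X / n0 + (1 + V) / 2) / 2 := by
    field_simp
    ring
  rw [e]
  linarith

theorem n_exp {n0 : ℕ} {K : ℝ} (hKn : (2 : ℝ) ^ n0 ≤ 2 * K) : (n0 : ℝ) * Real.exp (n0 / 8) ≤ 2 * K := by
  refine le_trans ?_ hKn
  have h1 : (n0 : ℝ) ≤ Real.exp (n0 / 2) := by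
    have := Real.add_one_le_exp ((n0 : ℝ) / 2 - 1)
    have h2 : (n0 : ℝ) / 2 ≤ Real.exp (n0 / 2 - 1) := by linarith
    have h3 : Real.exp ((n0 : ℝ) / 2 - 1) * Real.exp 1 = Real.exp (n0 / 2) := by
      rw [← Real.exp_add]
      congr 1
      ring
    have h4 : (2 : ℝ) ≤ Real.exp 1 := by
      have := Real.add_one_le_exp (1 : ℝ)
      linarith
    have h5 : 0 < Real.exp ((n0 : ℝ) / 2 - 1) := Real.exp_pos _
    nlinarith
  calc (n0 : ℝ) * Real.exp (n0 / 8) ≤ Real.exp (n0 / 2) * Real.exp (n0 / 8) :=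
        mul_le_mul_of_nonneg_right h1 (Real.exp_pos _).le
    _ = Real.exp (n0 * (5 / 8)) := by
        rw [← Real.exp_add]
        congr 1
        ring
    _ ≤ Real.exp (n0 * Real.log 2) := by
        apply Real.exp_le_exp.2
        apply mul_le_mul_of_nonneg_left _ (Nat.cast_nonneg _)
        have := Real.log_two_gt_d9
        linarith
    _ = 2 ^ n0 := by rw [Real.exp_nat_mul, Real.exp_log two_pos]

end

end U345Z
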