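import Pool.Agent.U345.ZAK

/-!
# Stretched exponential moments of `log |ζ|` on a cell: the bound
-/

set_option autoImplicit false

open MeasureTheory Filter Topology Complex Metric

namespace U345Z

open Q97.MM

noncomputable section

/-- the stretched exponential -/
def Eo (S L : ℝ) (z : ℂ) (y : ℝ) : ℝ := Real.exp (Real.sqrt (Real.log S - lf riemannZeta L z y) / 2)

theorem Eo_measurable (S L : ℝ) (z : ℂ) : Measurable (Eo S L z) := by
  have hm : Measurable (lf riemannZeta L z) := (lf_measurable zeta_measurable L).comp measurable_prodMk_left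
  exact Real.measurable_exp.comp (((hm.const_sub _).sqrt).div_const _)

theorem cell_osc {t A L K S : ℝ} {n n0 : ℕ} (x : Fin n → ℂ → ℝ)
    (hL : 0 < L) (hA0 : 0 ≤ A) (hn : n ≤ n0) (hn1 : 1 ≤ n0) (hK : 2 ≤ K) (hKn : (2 : ℝ) ^ n0 ≤ 2 * K) (hS : 0 < S)
    (h1 : ∀ j z, ‖z‖ ≤ A → ∀ y, |y - t| ≤ 1 / L → |y - x j z| ≤ 6 * ((A + 1) / L))
    (h2 : ∀ z, ‖z‖ ≤ A → ∀ y, |y - t| ≤ 1 / L → (∀ j, y ≠ x j z) → lf riemannZeta L z y ≤ Real.log S ∧
        (∑ j, Real.log (|y - x j z| / (6 * ((A + 1) / L)))) + Real.log (S / K ^ 2) ≤ lf riemannZeta L z y)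
    (z : ℂ) (hz : ‖z‖ ≤ A) :
    (∀ᵐ y ∂(volume.restrict (Set.Icc t (t + 1 / L))), lf riemannZeta L z y ≤ Real.log S) ∧
    IntegrableOn (Eo S L z) (Set.Icc t (t + 1 / L)) ∧
    ∫ y in Set.Icc t (t + 1 / L), Eo S L z y ≤ 150 * (A + 1) * K ^ 2 / L := by
  have hr : 0 < (A + 1) / L := by positivity
  have hh : 0 < 1 / L := by positivity
  have hle : t ≤ t + 1 / L := by linarith
  have hK0 : 0 < K := by linarith
  have hlogK : 0 ≤ Real.log K := Real.log_nonneg (by linarith)
  have hn0 : (1 : ℝ) ≤ n0 := by exact_mod_cast hn1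
  have hyt : ∀ y ∈ Set.Icc t (t + 1 / L), |y - t| ≤ 1 / L := by
    intro y hy
    rw [abs_le]
    constructor <;> linarith [hy.1, hy.2]
  set q : Fin n → ℝ → ℝ := fun j y => (|y - x j z| / (6 * ((A + 1) / L))) ^ (-(1 / 2) : ℝ) with hq
  have hq0 : ∀ j y, 0 ≤ q j y := fun j y => Real.rpow_nonneg (by positivity) _
  have hqi : ∀ j, IntegrableOn (q j) (Set.Icc t (t + 1 / L)) ∧
      ∫ y in Set.Icc t (t + 1 / L), q j y ≤ 24 * ((A + 1) / L) := by
    intro j
    have q1 := abs_le.1 (h1 j z hz t (hyt t ⟨le_rfl, hle⟩))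
    have q2 := abs_le.1 (h1 j z hz (t + 1 / L) (hyt _ ⟨hle, le_rfl⟩))
    obtain ⟨q3, q4⟩ := rp_int (R := 6 * ((A + 1) / L)) (x0 := x j z) (by positivity) hle
      (by linarith [q1.1]) (by linarith [q2.2])
    rw [intervalIntegral.integral_of_le hle, ← integral_Icc_eq_integral_Ioc] at q4
    refine ⟨(intervalIntegrable_iff_integrableOn_Icc_of_le hle).1 q3, ?_⟩
    refine q4.trans (le_of_eq ?_)
    ring
  have hfin : (volume : Measure ℝ) (Set.Icc t (t + 1 / L)) ≠ ⊤ := by
    rw [Real.volume_Icc]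
    exact ENNReal.ofReal_ne_top
  have hreal : (volume : Measure ℝ).real (Set.Icc t (t + 1 / L)) = 1 / L := by
    rw [Real.volume_real_Icc_of_le hle]
    ring
  have ic : ∀ c : ℝ, IntegrableOn (fun _ : ℝ => c) (Set.Icc t (t + 1 / L)) := fun c => integrableOn_const hfin
  have hae : ∀ᵐ y ∂(volume.restrict (Set.Icc t (t + 1 / L))), y ∈ Set.Icc t (t + 1 / L) ∧ ∀ j, y ≠ x j z := by
    have q1 : ∀ᵐ y ∂(volume.restrict (Set.Icc t (t + 1 / L))), y ∈ Set.Icc t (t + 1 / L) :=
      ae_restrict_mem measurableSet_Icc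
    have q2 : ∀ᵐ y ∂(volume : Measure ℝ), ∀ j, y ≠ x j z := by
      rw [ae_all_iff]
      intro j
      exact Measure.ae_ne volume (x j z)
    filter_upwards [q1, ae_restrict_of_ae q2] with y h3 h4 using ⟨h3, h4⟩
  set Cc : ℝ := 3 * K * Real.exp (n0 / 8) with hCc
  have hCc0 : 0 < Cc := by positivity
  have hbd : ∀ᵐ y ∂(volume.restrict (Set.Icc t (t + 1 / L))), ‖Eo S L z y‖ ≤ Cc * (1 + ∑ j, q j y) := by
    filter_upwards [hae] with y hy
    obtain ⟨-, q2⟩ := h2 z hz y (hyt y hy.1) hy.2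
    have hpos : ∀ j, 0 < |y - x j z| / (6 * ((A + 1) / L)) := fun j =>
      div_pos (abs_pos.2 (sub_ne_zero.2 (hy.2 j))) (by positivity)
    set u : Fin n → ℝ := fun j => -Real.log (|y - x j z| / (6 * ((A + 1) / L))) with hu
    have hu0 : ∀ j, 0 ≤ u j := by
      intro j
      rw [hu]
      beta_reduce
      rw [neg_nonneg]
      apply Real.log_nonpos (hpos j).le
      rw [div_le_one (by positivity)]
      exact h1 j z hz y (hyt y hy.1)
    have hX : (∑ j, Real.log (|y - x j z| / (6 * ((A + 1) / L)))) = -∑ j, u j := by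
      rw [hu, Finset.sum_neg_distrib, neg_neg]
    have hlog : Real.log (S / K ^ 2) = Real.log S - 2 * Real.log K := by
      rw [Real.log_div hS.ne' (by positivity), Real.log_pow]
      norm_num
    rw [hX, hlog] at q2
    have hW : Real.log S - lf riemannZeta L z y ≤ (∑ j, u j) + 2 * Real.log K := by linarith
    have h3 := osc_pt hn1 (Finset.sum_nonneg fun j _ => hu0 j) (by positivity) hW
    have h4 := exp_avg hn hn1 u hu0
    have h5 : ∀ j, Real.exp (u j / 2) = q j y := by
      intro j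
      rw [hq, hu]
      beta_reduce
      rw [Real.rpow_def_of_pos (hpos j)]
      congr 1
      ring
    simp only [h5] at h4
    have hEo : ‖Eo S L z y‖ = Real.exp (Real.sqrt (Real.log S - lf riemannZeta L z y) / 2) :=
      Real.norm_of_nonneg (Real.exp_pos _).le
    rw [hEo]
    have h6 : Real.exp ((1 + 2 * Real.log K) / 4) ≤ 3 * K := by
      have e : (1 + 2 * Real.log K) / 4 ≤ 1 + Real.log K := by linarith
      refine (Real.exp_le_exp.2 e).trans ?_
      rw [Real.exp_add, Real.exp_log hK0]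
      have := Real.exp_one_lt_d9
      nlinarith
    calc Real.exp (Real.sqrt (Real.log S - lf riemannZeta L z y) / 2)
        ≤ Real.exp (n0 / 8 + (∑ j, u j) / (2 * n0) + (1 + 2 * Real.log K) / 4) := Real.exp_le_exp.2 h3
      _ = Real.exp (n0 / 8) * Real.exp ((∑ j, u j) / (2 * n0)) * Real.exp ((1 + 2 * Real.log K) / 4) := by
          rw [Real.exp_add, Real.exp_add]
      _ ≤ Real.exp (n0 / 8) * (1 + ∑ j, q j y) * (3 * K) := by
          have := Finset.sum_nonneg (s := Finset.univ) fun j _ => hq0 j y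
          gcongr
      _ = _ := by rw [hCc]; ring
  have isum : IntegrableOn (fun y => ∑ j, q j y) (Set.Icc t (t + 1 / L)) :=
    integrable_finset_sum _ fun j _ => (hqi j).1
  have idom : IntegrableOn (fun y => Cc * (1 + ∑ j, q j y)) (Set.Icc t (t + 1 / L)) :=
    ((ic 1).add isum).const_mul _
  have iE : IntegrableOn (Eo S L z) (Set.Icc t (t + 1 / L)) :=
    Integrable.mono' idom (Eo_measurable S L z).aestronglyMeasurable hbd
  refine ⟨?_, iE, ?_⟩
  · filter_upwards [hae] with y hy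
    exact (h2 z hz y (hyt y hy.1) hy.2).1
  · have q1 : ∫ y in Set.Icc t (t + 1 / L), Eo S L z y ≤ ∫ y in Set.Icc t (t + 1 / L), Cc * (1 + ∑ j, q j y) := by
      apply integral_mono_ae iE idom
      filter_upwards [hbd] with y hy
      exact (le_abs_self _).trans hy
    rw [integral_const_mul, integral_add (ic 1) isum, setIntegral_const, hreal, smul_eq_mul, mul_one,
      integral_finset_sum _ fun j _ => (hqi j).1] at q1
    have q2 : ∑ j : Fin n, ∫ y in Set.Icc t (t + 1 / L), q j y ≤ n0 * (24 * ((A + 1) / L)) := by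
      refine (Finset.sum_le_sum fun j _ => (hqi j).2).trans ?_
      rw [Finset.sum_const, Finset.card_univ, Fintype.card_fin, nsmul_eq_mul]
      apply mul_le_mul_of_nonneg_right _ (by positivity)
      exact_mod_cast hn
    have q3 : 1 / L + n0 * (24 * ((A + 1) / L)) ≤ 25 * (A + 1) * n0 / L := by
      rw [div_add' _ _ _ hL.ne', div_le_div_iff_of_pos_right hL]
      have e : (n0 : ℝ) * (24 * ((A + 1) / L)) * L = 24 * (A + 1) * n0 := by field_simp
      rw [e]
      nlinarith
    refine q1.trans ?_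
    calc Cc * (1 / L + ∑ j : Fin n, ∫ y in Set.Icc t (t + 1 / L), q j y)
        ≤ Cc * (25 * (A + 1) * n0 / L) := by
          apply mul_le_mul_of_nonneg_left _ hCc0.le
          linarith
      _ = 75 * (A + 1) * K / L * (n0 * Real.exp (n0 / 8)) := by rw [hCc]; ring
      _ ≤ 75 * (A + 1) * K / L * (2 * K) := mul_le_mul_of_nonneg_left (n_exp hKn) (by positivity)
      _ = _ := by ring

end

end U345Z
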