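import Pool.Agent.U345.ZAL

/-!
# The microscopic increments of `log |ζ|` in the moment measure
-/

set_option autoImplicit false

open MeasureTheory Filter Topology Complex Metric

namespace U345Z

open Q97.MM

noncomputable section

variable (k : ℕ)

/-- The sum over cells. -/
theorem cell_lint2 {L K s0 : ℝ} (hL : 0 < L) (hK : 0 ≤ K) (f : ℝ → ENNReal) (M : ℤ → ℝ)
    (hM : ∀ m, 0 ≤ M m)
    (hf : ∀ m : ℤ, ∫⁻ y in Set.Icc ((m : ℝ) * (1 / L)) ((m : ℝ) * (1 / L) + 1 / L), f y ≤ ENNReal.ofReal (K * M m))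
    (hsum : ∀ S : Finset ℤ, ∑ m ∈ S, M m ≤ s0) :
    ∫⁻ y, f y ≤ ENNReal.ofReal (K * s0) := by
  set cell : ℤ → Set ℝ := fun m => Set.Icc ((m : ℝ) * (1 / L)) ((m : ℝ) * (1 / L) + 1 / L) with hcell
  have hun : (⋃ m, cell m) = Set.univ := by
    rw [Set.eq_univ_iff_forall]
    intro y
    rw [Set.mem_iUnion]
    refine ⟨⌊y * L⌋, ?_, ?_⟩
    · have := Int.floor_le (y * L)
      rw [mul_one_div, div_le_iff₀ hL]
      exact this
    · have := Int.lt_floor_add_one (y * L)
      have e : ((⌊y * L⌋ : ℤ) : ℝ) * (1 / L) + 1 / L = (⌊y * L⌋ + 1) / L := by ring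
      rw [e, le_div_iff₀ hL]
      exact this.le
  have h1 : ∫⁻ y, f y ≤ ∑' m, ∫⁻ y in cell m, f y := by
    have := lintegral_iUnion_le (μ := volume) cell f
    rwa [hun, Measure.restrict_univ] at this
  refine h1.trans ((ENNReal.tsum_le_tsum hf).trans ?_)
  rw [ENNReal.tsum_eq_iSup_sum]
  apply iSup_le
  intro S
  rw [← ENNReal.ofReal_sum_of_nonneg (fun m _ => by have := hM m; positivity)]
  apply ENNReal.ofReal_le_ofReal
  rw [← Finset.mul_sum]
  have := hsum S
  gcongr

/-- the integrand -/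
def osc (z0 z1 z2 : ℂ) (T U y : ℝ) : ℝ :=
  ‖riemannZeta (pt y + z0 / Real.log T)‖ ^ (2 * k) *
    Real.exp (Real.sqrt |lf riemannZeta (Real.log T) z1 y - lf riemannZeta (Real.log T) z2 y| / 2) * wt T U y

theorem osc_nonneg (z0 z1 z2 : ℂ) (T U y : ℝ) : 0 ≤ osc k z0 z1 z2 T U y := by
  unfold osc
  have := wt_pos T U y
  positivity

theorem osc_measurable (z0 z1 z2 : ℂ) (T U : ℝ) : Measurable (osc k z0 z1 z2 T U) := by
  have hm : ∀ z, Measurable (lf riemannZeta (Real.log T) z) := fun z =>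
    (lf_measurable zeta_measurable (Real.log T)).comp measurable_prodMk_left
  have h0 : Measurable (fun y : ℝ => ‖riemannZeta (pt y + z0 / Real.log T)‖ ^ (2 * k)) :=
    ((zeta_measurable.comp (pt_measurable.add_const _)).norm).pow_const _
  have h1 : Measurable (fun y : ℝ =>
      |lf riemannZeta (Real.log T) z1 y - lf riemannZeta (Real.log T) z2 y|) := by
    have := ((hm z1).sub (hm z2)).norm
    exact this
  exact (h0.mul (Real.measurable_exp.comp (h1.sqrt.div_const _))).mul (wt_measurable T U)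

/-- **Bounded increments.** -/
theorem osc_upper (hk : 1 ≤ k) {A : ℝ} (hA0 : 0 ≤ A) : ∃ C : ℝ, 0 < C ∧
    ∀ᶠ T : ℝ in atTop, ∀ U : ℝ, Adm T U → ∀ z0 z1 z2 : ℂ, ‖z0‖ ≤ A → ‖z1‖ ≤ A → ‖z2‖ ≤ A →
    Integrable (osc k z0 z1 z2 T U) ∧ ∫ y, osc k z0 z1 z2 T U y ≤ C * JJ k T U (1 / 2) := by
  obtain ⟨N, hN⟩ := exists_nat_ge (25 * (A + 1) + 1)
  obtain ⟨C1, hC1, h1⟩ := max_cell k hk (show (0 : ℝ) ≤ 25 * (A + 1) + 1 by positivity) hN
  obtain ⟨C2, hC2, h2⟩ := MM_sum k (show (0 : ℝ) ≤ 25 * (A + 1) + 1 by positivity) N hk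
  refine ⟨4 ^ k * C1 * (300 * (A + 1)) * C2, by positivity, ?_⟩
  filter_upwards [h1, h2] with T h3 h4 U hA z0 z1 z2 hz0 hz1 hz2
  have hL := hA.log
  have hL0 : 0 < Real.log T := by linarith
  have hT : 0 < T := by linarith [hA.1]
  obtain ⟨hM, hsum⟩ := h4 U hA
  obtain ⟨h5, h6⟩ := h3
  set L := Real.log T with hLd
  have hT2 : (0 : ℝ) < T ^ (2 * k) := by positivity
  have e25 : 25 * ((A + 1) / L) = 25 * (A + 1) / L := by ring
  have hr0 : 0 < (A + 1) / L := by positivity
  have hle25 : (A + 1) / L ≤ 25 * (A + 1) / L := by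
    rw [← e25]
    linarith
  have hR25 : 25 * (A + 1) / L < 1 / 2 := by
    refine lt_of_le_of_lt ?_ h5
    exact div_le_div_of_nonneg_right (by linarith) hL0.le
  have hcellb : ∀ m : ℤ, ∫⁻ y in Set.Icc ((m : ℝ) * (1 / L)) ((m : ℝ) * (1 / L) + 1 / L),
      ENNReal.ofReal (osc k z0 z1 z2 T U y) ≤
      ENNReal.ofReal ((4 ^ k * C1 * (300 * (A + 1)) / T ^ (2 * k) / L) * MM k (25 * (A + 1) + 1) N T U m) := by
    intro m
    set t := (m : ℝ) * (1 / L) with ht
    have hsub : closedBall (pt t) (25 * ((A + 1) / L)) ⊆ ({1}ᶜ : Set ℂ) := by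
      intro s hs
      rw [mem_closedBall_iff_norm, e25] at hs
      exact ne_one_of_near hR25 hs
    -- the maximum in the small disc
    obtain ⟨w, hw1, hw2⟩ := local_max (r := (A + 1) / L) hr0.le (lt_of_le_of_lt hle25 hR25) t
    obtain ⟨w', hw1', hw2'⟩ := local_max (r := 25 * (A + 1) / L) (by positivity) hR25 t
    obtain ⟨v, hv1, hv2⟩ := exists_ne_zero hr0 ((closedBall_subset_closedBall (by linarith)).trans hsub)
    have hw0 : 0 < ‖riemannZeta w‖ := lt_of_lt_of_le (norm_pos_iff.2 hv2) (hw2 v hv1)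
    set S := ‖riemannZeta w‖ with hSd
    set S' := ‖riemannZeta w'‖ with hSd'
    have hSS' : S ≤ S' := hw2' w (hw1.trans hle25)
    set K := 2 * (S' / S) with hK
    have hK2 : 2 ≤ K := by
      have : 1 ≤ S' / S := (one_le_div hw0).2 hSS'
      linarith
    have hK0 : 0 < K := by linarith
    obtain ⟨n1, hn1, hn2⟩ := exists_nat_pow_near (show (1 : ℝ) ≤ K by linarith) (one_lt_two (α := ℝ))
    have hn3 : (2 : ℝ) ^ (n1 + 1) ≤ 2 * K := by
      rw [pow_succ]
      linarith
    obtain ⟨n, x, hn, hx1, hx2⟩ := lf_bounds zeta_diff (t := t) (A := A) (L := L) (K := K)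
      (S := S) (n0 := n1 + 1) (w := w) hL0 hA0 hsub hK2 hn2.le hw1 hw0 (by
        intro s hs
        refine (hw2' s (by rw [hs, e25])).trans ?_
        have e : K * S = 2 * S' := by rw [hK]; field_simp
        have e' : 0 ≤ S' := norm_nonneg _
        change S' ≤ K * S
        rw [e]
        linarith) hw2
    have hcell : ∀ z, ‖z‖ ≤ A → _ := fun z hz => cell_osc (t := t) (A := A) (L := L) (K := K) (S := S) x hL0 hA0 hn
      (by omega) hK2 hn3 hw0 hx1 hx2 z hz
    obtain ⟨a1, i1, b1⟩ := hcell z1 hz1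
    obtain ⟨a2, i2, b2⟩ := hcell z2 hz2
    have hyt : ∀ y ∈ Set.Icc t (t + 1 / L), |y - t| ≤ 1 / L := by
      intro y hy
      rw [abs_le]
      have : 0 < 1 / L := by positivity
      constructor <;> linarith [hy.1, hy.2]
    have hMM0 := MM_nonneg k (A := 25 * (A + 1) + 1) (by positivity) N U hT hL0 m
    set MMm := MM k (25 * (A + 1) + 1) N T U m with hMMm
    -- the pointwise bound
    have hp : ∀ y ∈ Set.Icc t (t + 1 / L), S ^ (2 * k) * wt T U y ≤
        4 ^ k * C1 * MMm / T ^ (2 * k) / K ^ 2 := by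
      intro y hy
      have hy' : y ≤ (m + 1 : ℝ) * (1 / L) := by
        have e : (m + 1 : ℝ) * (1 / L) = t + 1 / L := by rw [ht]; ring
        rw [e]
        exact hy.2
      obtain ⟨S1, hS10, hS11, hS12⟩ := h6 U hA m y hy.1 hy'
      have hS'1 : S' ≤ S1 := by
        apply hS11
        have q1 : ‖w' - pt y‖ ≤ ‖w' - pt t‖ + ‖pt t - pt y‖ := by
          have := norm_add_le (w' - pt t) (pt t - pt y)
          rwa [sub_add_sub_cancel] at this
        rw [pt_sub, abs_sub_comm] at q1
        have e : (25 * (A + 1) + 1) / L = 25 * (A + 1) / L + 1 / L := by ring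
        linarith [hyt y hy]
      have hw := wt_pos T U y
      have hSK : S = 2 * S' / K := by
        rw [hK]
        have : 0 < S' := lt_of_lt_of_le hw0 hSS'
        field_simp
      have hS'0 : 0 ≤ S' := norm_nonneg _
      have q1 : S ^ (2 * k) ≤ 4 ^ k * S1 ^ (2 * k) / K ^ 2 := by
        rw [hSK, div_pow, mul_pow]
        have e1 : (2 : ℝ) ^ (2 * k) = 4 ^ k := by
          rw [pow_mul]
          norm_num
        rw [e1]
        have q2 : K ^ 2 ≤ K ^ (2 * k) := pow_le_pow_right₀ (by linarith) (by omega)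
        have q3 : S' ^ (2 * k) ≤ S1 ^ (2 * k) := pow_le_pow_left₀ hS'0 hS'1 _
        gcongr
      rw [div_div, le_div_iff₀ (by positivity)]
      calc S ^ (2 * k) * wt T U y * (T ^ (2 * k) * K ^ 2)
          ≤ (4 ^ k * S1 ^ (2 * k) / K ^ 2) * wt T U y * (T ^ (2 * k) * K ^ 2) := by gcongr
        _ = 4 ^ k * (T ^ (2 * k) * (S1 ^ (2 * k) * wt T U y)) := by field_simp
        _ ≤ 4 ^ k * (C1 * MMm) := by gcongr
        _ = _ := by ring
    set B := 4 ^ k * C1 * MMm / T ^ (2 * k) / K ^ 2 with hB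
    have hB0 : 0 ≤ B := by positivity
    have hpt : ∀ᵐ y ∂(volume.restrict (Set.Icc t (t + 1 / L))),
        osc k z0 z1 z2 T U y ≤ B * (Eo S L z1 y + Eo S L z2 y) := by
      filter_upwards [a1, a2, ae_restrict_mem measurableSet_Icc] with y q1 q2 hy
      have q3 := hp y hy
      have q4 : ‖riemannZeta (pt y + z0 / L)‖ ≤ S := by
        apply hw2
        have e : pt y + z0 / L - pt t = (pt y - pt t) + z0 / L := by ring
        rw [e]
        refine (norm_add_le _ _).trans ?_
        rw [pt_sub, norm_div, Complex.norm_real, Real.norm_of_nonneg hL0.le]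
        have h1 : ‖z0‖ / L ≤ A / L := div_le_div_of_nonneg_right hz0 hL0.le
        have e2 : (A + 1) / L = A / L + 1 / L := by ring
        linarith [hyt y hy]
      have q5 : Real.exp (Real.sqrt |lf riemannZeta L z1 y - lf riemannZeta L z2 y| / 2) ≤
          Eo S L z1 y + Eo S L z2 y := by
        have p1 : 0 < Eo S L z1 y := Real.exp_pos _
        have p2 : 0 < Eo S L z2 y := Real.exp_pos _
        rcases abs_cases (lf riemannZeta L z1 y - lf riemannZeta L z2 y) with ⟨hc, -⟩ | ⟨hc, -⟩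
        · have : Real.exp (Real.sqrt |lf riemannZeta L z1 y - lf riemannZeta L z2 y| / 2) ≤ Eo S L z2 y := by
            unfold Eo
            apply Real.exp_le_exp.2
            apply div_le_div_of_nonneg_right _ two_pos.le
            apply Real.sqrt_le_sqrt
            rw [hc]
            linarith
          linarith
        · have : Real.exp (Real.sqrt |lf riemannZeta L z1 y - lf riemannZeta L z2 y| / 2) ≤ Eo S L z1 y := by
            unfold Eo
            apply Real.exp_le_exp.2
            apply div_le_div_of_nonneg_right _ two_pos.le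
            apply Real.sqrt_le_sqrt
            rw [hc]
            linarith
          linarith
      have hw := wt_pos T U y
      unfold osc
      rw [← hLd]
      calc ‖riemannZeta (pt y + z0 / L)‖ ^ (2 * k) *
            Real.exp (Real.sqrt |lf riemannZeta L z1 y - lf riemannZeta L z2 y| / 2) * wt T U y
          ≤ S ^ (2 * k) * (Eo S L z1 y + Eo S L z2 y) * wt T U y := by gcongr
        _ = (S ^ (2 * k) * wt T U y) * (Eo S L z1 y + Eo S L z2 y) := by ring
        _ ≤ B * (Eo S L z1 y + Eo S L z2 y) := by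
            apply mul_le_mul_of_nonneg_right q3
            unfold Eo
            positivity
    have i12 : IntegrableOn (fun y => B * (Eo S L z1 y + Eo S L z2 y)) (Set.Icc t (t + 1 / L)) :=
      (i1.add i2).const_mul _
    have hnn : ∀ y, 0 ≤ B * (Eo S L z1 y + Eo S L z2 y) := by
      intro y
      unfold Eo
      positivity
    calc ∫⁻ y in Set.Icc t (t + 1 / L), ENNReal.ofReal (osc k z0 z1 z2 T U y)
        ≤ ∫⁻ y in Set.Icc t (t + 1 / L), ENNReal.ofReal (B * (Eo S L z1 y + Eo S L z2 y)) := by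
          apply lintegral_mono_ae
          filter_upwards [hpt] with y hy using ENNReal.ofReal_le_ofReal hy
      _ = ENNReal.ofReal (∫ y in Set.Icc t (t + 1 / L), B * (Eo S L z1 y + Eo S L z2 y)) :=
          (ofReal_integral_eq_lintegral_ofReal i12 (Eventually.of_forall hnn)).symm
      _ ≤ _ := by
          apply ENNReal.ofReal_le_ofReal
          rw [integral_const_mul, integral_add i1 i2]
          calc B * ((∫ y in Set.Icc t (t + 1 / L), Eo S L z1 y) + ∫ y in Set.Icc t (t + 1 / L), Eo S L z2 y)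
              ≤ B * (150 * (A + 1) * K ^ 2 / L + 150 * (A + 1) * K ^ 2 / L) := by gcongr
            _ = _ := by
                rw [hB]
                field_simp
                ring
  have h9 := cell_lint2 hL0 (K := 4 ^ k * C1 * (300 * (A + 1)) / T ^ (2 * k) / L) (by positivity) _
    (fun m => MM k (25 * (A + 1) + 1) N T U m) (fun m => MM_nonneg k (by positivity) N U hT hL0 m) hcellb hsum
  have e9 : 4 ^ k * C1 * (300 * (A + 1)) / T ^ (2 * k) / L * (C2 * L * (T ^ (2 * k) * JJ k T U (1 / 2))) =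
      4 ^ k * C1 * (300 * (A + 1)) * C2 * JJ k T U (1 / 2) := by
    field_simp
  rw [e9] at h9
  have iψ : Integrable (osc k z0 z1 z2 T U) := by
    refine ⟨(osc_measurable k z0 z1 z2 T U).aestronglyMeasurable, ?_⟩
    refine lt_of_le_of_lt ?_ (lt_of_le_of_lt h9 ENNReal.ofReal_lt_top)
    apply lintegral_mono
    intro y
    beta_reduce
    rw [← ofReal_norm, Real.norm_of_nonneg (osc_nonneg k z0 z1 z2 T U y)]
  refine ⟨iψ, ?_⟩
  rw [← ofReal_integral_eq_lintegral_ofReal iψ (Eventually.of_forall fun y => osc_nonneg k z0 z1 z2 T U y)] at h9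
  exact (ENNReal.ofReal_le_ofReal_iff (by positivity)).1 h9

end

end U345Z
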