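import Pool.Agent.Q97.MM.Fin3
import Pool.Agent.U345.ZA

set_option autoImplicit false

open MeasureTheory Filter Topology Complex FourierTransform ComplexConjugate

namespace U345Z

open Q97.MM

noncomputable section

variable (k : ℕ)

/-- elementary inequality -/
theorem sq_le_exp {k η a : ℝ} (hk : 0 ≤ k) (hη : 0 < η) (ha0 : 0 < a) (ha1 : 2 ≤ η * a ^ 2)
    (ha2 : 2 * k ≤ η * a) (u : ℝ) :
    (k - u) ^ 2 ≤ k ^ 2 + η * (Real.exp (-(a * u)) + Real.exp (-(2 * k * a)) * Real.exp (a * u)) := by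
  have hv : ∀ v : ℝ, 0 ≤ v → v ^ 2 + 2 * k * v ≤ η * Real.exp (a * v) := by
    intro v hv
    have h1 := Real.quadratic_le_exp_of_nonneg (x := a * v) (by positivity)
    have h2 : v ^ 2 + 2 * k * v ≤ η * (a ^ 2 * v ^ 2 / 2) + η * a * v := by
      have h3 : 2 * v ^ 2 ≤ η * a ^ 2 * v ^ 2 := mul_le_mul_of_nonneg_right ha1 (by positivity)
      have h4 : 2 * k * v ≤ η * a * v := mul_le_mul_of_nonneg_right ha2 hv
      nlinarith
    have h5 : η * (1 + a * v + (a * v) ^ 2 / 2) ≤ η * Real.exp (a * v) :=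
      mul_le_mul_of_nonneg_left h1 hη.le
    nlinarith
  have p1 := Real.exp_pos (-(a * u))
  have p2 := Real.exp_pos (a * u)
  have p3 := Real.exp_pos (-(2 * k * a))
  have p4 : 0 < Real.exp (-(2 * k * a)) * Real.exp (a * u) := by positivity
  rcases le_total 0 u with h0 | h0
  · rcases le_total u (2 * k) with h1 | h1
    · have : (k - u) ^ 2 ≤ k ^ 2 := by nlinarith
      have : 0 ≤ η * (Real.exp (-(a * u)) + Real.exp (-(2 * k * a)) * Real.exp (a * u)) := by
        positivity
      linarith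
    · have h2 := hv (u - 2 * k) (by linarith)
      have e1 : Real.exp (a * (u - 2 * k)) = Real.exp (-(2 * k * a)) * Real.exp (a * u) := by
        rw [← Real.exp_add]
        congr 1
        ring
      rw [e1] at h2
      nlinarith
  · have h2 := hv (-u) (by linarith)
    have e1 : a * -u = -(a * u) := by ring
    rw [e1] at h2
    nlinarith

/-- The second moment of the spectral measure about `k`. -/
theorem spec2 {ε : ℝ} (hε : 0 < ε) : ∀ᶠ T : ℝ in atTop, ∀ U : ℝ, Adm T U →
    ∫ y : ℝ, ‖deriv (FF k T U) (((1 / 2 : ℝ) : ℂ) + y * I) +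
      ((k * Real.log T / 2 : ℝ) : ℂ) * FF k T U (((1 / 2 : ℝ) : ℂ) + y * I)‖ ^ 2 ≤
      (Real.log T / 2) ^ 2 * ((k ^ 2 + ε) * V0 k T U) := by
  set η := ε / 5 with hη
  have hη0 : 0 < η := by positivity
  set a := 2 * k / η + 2 / η + 1 with ha
  have hk0 : (0 : ℝ) ≤ k := Nat.cast_nonneg k
  have ha1 : 1 ≤ a := by
    rw [ha]
    have : 0 ≤ 2 * k / η + 2 / η := by positivity
    linarith
  have ha0 : 0 < a := by linarith
  have c1 : 2 ≤ η * a ^ 2 := by
    have h1 : 2 ≤ η * a := by
      have : η * a = 2 * k + 2 + η := by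
        rw [ha]; field_simp
      rw [this]; linarith
    nlinarith
  have c2 : 2 * k ≤ η * a := by
    have : η * a = 2 * k + 2 + η := by
      rw [ha]; field_simp
    rw [this]; linarith
  filter_upwards [Gn_le k ha0.le one_pos, G_fe k a one_pos,
    (log_div_tendsto a).eventually (gt_mem_nhds (show (0 : ℝ) < 1 / 4 by norm_num))] with
    T h1 h2 h3 U hA
  have hL := hA.log
  have hL0 : 0 < Real.log T := by linarith
  have hV0 := V0_pos k hA
  obtain ⟨M, δ, hM, hδ, hbd⟩ := FF_bd k T hA.pos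
  have hdiff := FF_differentiable k T U
  have h4 := abs_lt.1 h3
  have r1 := rep (c := 1 / 2) (x := 1 / 2 + a / Real.log T) hdiff hδ hM hbd (by norm_num)
    (by norm_num) (by linarith) (by linarith)
  have r2 := rep (c := 1 / 2) (x := 1 / 2 + -a / Real.log T) hdiff hδ hM hbd (by norm_num)
    (by norm_num) (by rw [neg_div]; linarith) (by rw [neg_div]; linarith)
  have r0 := rep (c := 1 / 2) (x := 1 / 2) hdiff hδ hM hbd (by norm_num)
    (by norm_num) (by norm_num) (by norm_num)
  have g1 : VI (FF k T U) (1 / 2 + a / Real.log T) = Gn k T U a * V0 k T U := by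
    unfold Gn
    rw [div_mul_cancel₀ _ hV0.ne']
  have g2 : VI (FF k T U) (1 / 2 + -a / Real.log T) = Gn k T U (-a) * V0 k T U := by
    unfold Gn
    rw [div_mul_cancel₀ _ hV0.ne']
  rw [g1] at r1
  rw [g2] at r2
  obtain ⟨-, d2, d3⟩ := deriv_mean hdiff hδ hM hbd (c := 1 / 2) (by norm_num) (by norm_num)
    (k * Real.log T / 2)
  rw [d3]
  have hpt : ∀ ξ : ℝ, (2 * Real.pi * ξ + k * Real.log T / 2) ^ 2 * dens (FF k T U) (1 / 2) ξ ≤
      (Real.log T / 2) ^ 2 * (k ^ 2 *
        (Real.exp (4 * Real.pi * ξ * (1 / 2 - 1 / 2)) * dens (FF k T U) (1 / 2) ξ) +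
      η * ((Real.exp (4 * Real.pi * ξ * (1 / 2 + a / Real.log T - 1 / 2)) *
          dens (FF k T U) (1 / 2) ξ) +
        Real.exp (-(2 * k * a)) * (Real.exp (4 * Real.pi * ξ * (1 / 2 + -a / Real.log T - 1 / 2)) *
          dens (FF k T U) (1 / 2) ξ))) := by
    intro ξ
    have hd := dens_nonneg (FF k T U) (1 / 2) ξ
    have h5 := sq_le_exp hk0 hη0 ha0 c1 c2 (-(4 * Real.pi * ξ / Real.log T))
    have e1 : (2 * Real.pi * ξ + k * Real.log T / 2) ^ 2 =
        (Real.log T / 2) ^ 2 * (k - -(4 * Real.pi * ξ / Real.log T)) ^ 2 := by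
      field_simp
      ring
    have e2 : 4 * Real.pi * ξ * (1 / 2 + a / Real.log T - 1 / 2) =
        -(a * -(4 * Real.pi * ξ / Real.log T)) := by ring
    have e3 : 4 * Real.pi * ξ * (1 / 2 + -a / Real.log T - 1 / 2) =
        a * -(4 * Real.pi * ξ / Real.log T) := by ring
    have e4 : Real.exp (4 * Real.pi * ξ * (1 / 2 - 1 / 2)) = 1 := by simp
    rw [e1, e2, e3, e4, mul_assoc]
    apply mul_le_mul_of_nonneg_left _ (by positivity)
    calc _ ≤ _ := mul_le_mul_of_nonneg_right h5 hd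
      _ = _ := by ring
  have hI := integral_mono d2 (((r0.1.const_mul ((k : ℝ) ^ 2)).add
    ((r1.1.add (r2.1.const_mul (Real.exp (-(2 * k * a))))).const_mul η)).const_mul
      ((Real.log T / 2) ^ 2)) hpt
  refine hI.trans ?_
  rw [integral_const_mul]
  apply mul_le_mul_of_nonneg_left _ (by positivity)
  have s1 := integral_add (r0.1.const_mul ((k : ℝ) ^ 2))
    ((r1.1.add (r2.1.const_mul (Real.exp (-(2 * k * a))))).const_mul η)
  have s2 := integral_add r1.1 (r2.1.const_mul (Real.exp (-(2 * k * a))))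
  simp only [Pi.add_apply] at s1
  rw [integral_const_mul, integral_const_mul, s2, integral_const_mul, r0.2, r1.2, r2.2] at s1
  refine (le_of_eq s1).trans ?_
  have e5 : VI (FF k T U) (1 / 2) = V0 k T U := rfl
  rw [e5]
  have b1 := h1 U hA
  have b2 := (abs_le.1 (h2 U hA)).2
  have b3 : Real.exp (-(2 * k * a)) * Gn k T U (-a) ≤ 3 := by
    have e6 : Real.exp (-(2 * k * a)) * Real.exp (2 * k * a) = 1 := by
      rw [← Real.exp_add, neg_add_cancel, Real.exp_zero]
    have p3 := Real.exp_pos (-(2 * k * a))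
    have e7 : Real.exp (-(2 * k * a)) ≤ 1 := by
      rw [Real.exp_le_one_iff]
      have : 0 ≤ 2 * k * a := by positivity
      linarith
    have b4 : Gn k T U (-a) ≤ 1 + Real.exp (2 * k * a) * Gn k T U a := by linarith
    have b5 := mul_le_mul_of_nonneg_left b4 p3.le
    have b6 : Real.exp (-(2 * k * a)) * (1 + Real.exp (2 * k * a) * Gn k T U a) =
        Real.exp (-(2 * k * a)) + Gn k T U a := by
      linear_combination Gn k T U a * e6
    linarith
  have b7 : Gn k T U a * V0 k T U + Real.exp (-(2 * k * a)) * (Gn k T U (-a) * V0 k T U) ≤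
      5 * V0 k T U := by
    rw [← mul_assoc, ← add_mul]
    exact mul_le_mul_of_nonneg_right (by linarith) hV0.le
  have b8 := mul_le_mul_of_nonneg_left b7 hη0.le
  have b9 : η * (5 * V0 k T U) = ε * V0 k T U := by rw [hη]; ring
  linarith

end

end U345Z
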