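import Mathlib

set_option autoImplicit false

/-!
# Wirtinger's inequality and trapezoidal sums over arbitrary points
-/

open MeasureTheory Filter Topology Set
open scoped RealInnerProductSpace

namespace U345Z

noncomputable section

theorem wirt_general {f f' : ℝ → ℂ} {p : ℝ → ℝ} {ω a b : ℝ} (hab : a ≤ b)
    (hf : ∀ x, HasDerivAt f (f' x) x) (hf' : Continuous f')
    (hp : ∀ x ∈ Icc a b, HasDerivAt p (-(ω ^ 2 + p x ^ 2)) x)
    (ha : p a * ‖f a‖ ^ 2 = 0) (hb : p b * ‖f b‖ ^ 2 = 0) :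
    ω ^ 2 * ∫ x in a..b, ‖f x‖ ^ 2 ≤ ∫ x in a..b, ‖f' x‖ ^ 2 := by
  have hfc : Continuous f := continuous_iff_continuousAt.2 fun x => (hf x).continuousAt
  have hpc : ContinuousOn p (uIcc a b) := by
    rw [uIcc_of_le hab]
    exact fun x hx => (hp x hx).continuousAt.continuousWithinAt
  have i1 : IntervalIntegrable (fun x => ‖f' x‖ ^ 2) volume a b :=
    (hf'.norm.pow 2).intervalIntegrable _ _
  have i2 : IntervalIntegrable (fun x => ω ^ 2 * ‖f x‖ ^ 2) volume a b :=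
    ((hfc.norm.pow 2).const_smul (ω ^ 2)).intervalIntegrable _ _
  have hcs : ContinuousOn (fun x => ‖f' x - (p x : ℂ) * f x‖ ^ 2) (uIcc a b) := by
    have h1 : ContinuousOn (fun x => (p x : ℂ)) (uIcc a b) :=
      Complex.continuous_ofReal.comp_continuousOn hpc
    exact ((hf'.continuousOn.sub (h1.mul hfc.continuousOn)).norm).pow 2
  have i3 : IntervalIntegrable (fun x => ‖f' x - (p x : ℂ) * f x‖ ^ 2) volume a b :=
    hcs.intervalIntegrable
  have hder : ∀ x ∈ uIcc a b, HasDerivAt (fun x => p x * ‖f x‖ ^ 2)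
      (‖f' x‖ ^ 2 - ω ^ 2 * ‖f x‖ ^ 2 - ‖f' x - (p x : ℂ) * f x‖ ^ 2) x := by
    intro x hx
    rw [uIcc_of_le hab] at hx
    have h1 := (hp x hx).mul ((hf x).norm_sq)
    refine h1.congr_deriv ?_
    have e1 : (p x : ℂ) * f x = (p x) • f x := by
      rw [Complex.real_smul]
    rw [e1, norm_sub_sq_real, norm_smul, real_inner_smul_right, mul_pow, Real.norm_eq_abs, sq_abs,
      real_inner_comm]
    ring
  have hftc := intervalIntegral.integral_eq_sub_of_hasDerivAt hder ((i1.sub i2).sub i3)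
  rw [ha, hb, sub_zero, intervalIntegral.integral_sub (i1.sub i2) i3,
    intervalIntegral.integral_sub i1 i2, intervalIntegral.integral_const_mul] at hftc
  have h3 : 0 ≤ ∫ x in a..b, ‖f' x - (p x : ℂ) * f x‖ ^ 2 :=
    intervalIntegral.integral_nonneg hab fun x _ => by positivity
  linarith

theorem cos_pos_of {ω a b x : ℝ} (hω : 0 ≤ ω) (h : ω * (b - a) < Real.pi / 2) (h1 : 0 ≤ x)
    (h2 : x ≤ b - a) : 0 < Real.cos (ω * x) := by
  have h3 : ω * x ≤ ω * (b - a) := mul_le_mul_of_nonneg_left h2 hω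
  have h4 : 0 ≤ ω * x := mul_nonneg hω h1
  exact Real.cos_pos_of_mem_Ioo ⟨by linarith [Real.pi_pos], by linarith⟩

theorem tan_sq {u : ℝ} (h : Real.cos u ≠ 0) : 1 / Real.cos u ^ 2 = 1 + Real.tan u ^ 2 := by
  rw [Real.tan_eq_sin_div_cos]
  field_simp
  linarith [Real.sin_sq_add_cos_sq u]

/-- Wirtinger's inequality, with a zero at the left end. -/
theorem wirt_left {f f' : ℝ → ℂ} {ω a b : ℝ} (hab : a ≤ b)
    (hf : ∀ x, HasDerivAt f (f' x) x) (hf' : Continuous f') (hω : 0 ≤ ω)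
    (h : ω * (b - a) < Real.pi / 2) (ha : f a = 0) :
    ω ^ 2 * ∫ x in a..b, ‖f x‖ ^ 2 ≤ ∫ x in a..b, ‖f' x‖ ^ 2 := by
  refine wirt_general (p := fun x => ω * Real.tan (ω * (b - x))) hab hf hf' ?_ ?_ ?_
  · intro x hx
    have hc := cos_pos_of hω h (x := b - x) (by linarith [hx.2]) (by linarith [hx.1])
    have h1 : HasDerivAt (fun x : ℝ => ω * (b - x)) (-ω) x := by
      have := ((hasDerivAt_id x).const_sub b).const_mul ω
      simpa using this
    have h2 := ((Real.hasDerivAt_tan hc.ne').comp x h1).const_mul ω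
    refine h2.congr_deriv ?_
    rw [tan_sq hc.ne']
    ring
  · rw [ha]; simp
  · simp

/-- Wirtinger's inequality, with a zero at the right end. -/
theorem wirt_right {f f' : ℝ → ℂ} {ω a b : ℝ} (hab : a ≤ b)
    (hf : ∀ x, HasDerivAt f (f' x) x) (hf' : Continuous f') (hω : 0 ≤ ω)
    (h : ω * (b - a) < Real.pi / 2) (hb : f b = 0) :
    ω ^ 2 * ∫ x in a..b, ‖f x‖ ^ 2 ≤ ∫ x in a..b, ‖f' x‖ ^ 2 := by
  refine wirt_general (p := fun x => -(ω * Real.tan (ω * (x - a)))) hab hf hf' ?_ ?_ ?_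
  · intro x hx
    have hc := cos_pos_of hω h (x := x - a) (by linarith [hx.1]) (by linarith [hx.2])
    have h1 : HasDerivAt (fun x : ℝ => ω * (x - a)) ω x := by
      have := ((hasDerivAt_id x).sub_const a).const_mul ω
      simpa using this
    have h2 := (((Real.hasDerivAt_tan hc.ne').comp x h1).const_mul ω).neg
    refine h2.congr_deriv ?_
    rw [tan_sq hc.ne']
    ring
  · simp
  · rw [hb]; simp

theorem sq_le_split (a b : ℂ) {θ : ℝ} (hθ : 0 < θ) :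
    ‖a‖ ^ 2 ≤ (1 + θ) * ‖b‖ ^ 2 + (1 + θ⁻¹) * ‖b - a‖ ^ 2 := by
  have h1 : ‖a‖ ≤ ‖b‖ + ‖b - a‖ := by
    have := norm_sub_le b (b - a)
    rwa [sub_sub_cancel] at this
  have h2 : ‖a‖ ^ 2 ≤ (‖b‖ + ‖b - a‖) ^ 2 := pow_le_pow_left₀ (norm_nonneg _) h1 2
  have h3 : 2 * (‖b‖ * ‖b - a‖) ≤ θ * ‖b‖ ^ 2 + θ⁻¹ * ‖b - a‖ ^ 2 := by
    have h4 : 0 ≤ θ⁻¹ * (θ * ‖b‖ - ‖b - a‖) ^ 2 := by positivity
    have h5 : θ⁻¹ * (θ * ‖b‖ - ‖b - a‖) ^ 2 =
        θ * ‖b‖ ^ 2 + θ⁻¹ * ‖b - a‖ ^ 2 - 2 * (‖b‖ * ‖b - a‖) := by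
      field_simp
      ring
    linarith
  nlinarith

/-- half of a cell -/
theorem half_cell {f f' : ℝ → ℂ} {ω a b θ : ℝ} (hab : a ≤ b)
    (hf : ∀ x, HasDerivAt f (f' x) x) (hf' : Continuous f') (hω : 0 < ω)
    (h : ω * (b - a) < Real.pi / 2) (hθ : 0 < θ) {c : ℝ} (hc : c = a ∨ c = b) :
    (b - a) * ‖f c‖ ^ 2 ≤ (1 + θ) * (∫ x in a..b, ‖f x‖ ^ 2) +
      (1 + θ⁻¹) / ω ^ 2 * ∫ x in a..b, ‖f' x‖ ^ 2 ∧
    (∫ x in a..b, ‖f x‖ ^ 2) ≤ (1 + θ) * ((b - a) * ‖f c‖ ^ 2) +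
      (1 + θ⁻¹) / ω ^ 2 * ∫ x in a..b, ‖f' x‖ ^ 2 := by
  have hfc : Continuous f := continuous_iff_continuousAt.2 fun x => (hf x).continuousAt
  have hg : ∀ x, HasDerivAt (fun x => f x - f c) (f' x) x := fun x => (hf x).sub_const _
  have hW : ω ^ 2 * ∫ x in a..b, ‖f x - f c‖ ^ 2 ≤ ∫ x in a..b, ‖f' x‖ ^ 2 := by
    rcases hc with rfl | rfl
    · exact wirt_left hab hg hf' hω.le h (sub_self _)
    · exact wirt_right hab hg hf' hω.le h (sub_self _)
  have hW' : (1 + θ⁻¹) * (∫ x in a..b, ‖f x - f c‖ ^ 2) ≤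
      (1 + θ⁻¹) / ω ^ 2 * ∫ x in a..b, ‖f' x‖ ^ 2 := by
    have h1 : (∫ x in a..b, ‖f x - f c‖ ^ 2) ≤ (∫ x in a..b, ‖f' x‖ ^ 2) / ω ^ 2 := by
      rw [le_div_iff₀ (by positivity)]
      linarith
    have h2 := mul_le_mul_of_nonneg_left h1 (show 0 ≤ 1 + θ⁻¹ by positivity)
    refine h2.trans (le_of_eq ?_)
    ring
  have i1 : IntervalIntegrable (fun x => ‖f x‖ ^ 2) volume a b :=
    (hfc.norm.pow 2).intervalIntegrable _ _
  have i2 : IntervalIntegrable (fun x => ‖f x - f c‖ ^ 2) volume a b :=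
    (((hfc.sub continuous_const).norm).pow 2).intervalIntegrable _ _
  have i3 : IntervalIntegrable (fun _ : ℝ => ‖f c‖ ^ 2) volume a b := intervalIntegrable_const
  have ec : ∫ _x in a..b, ‖f c‖ ^ 2 = (b - a) * ‖f c‖ ^ 2 := by
    rw [intervalIntegral.integral_const, smul_eq_mul]
  constructor
  · have h1 : ∫ _x in a..b, ‖f c‖ ^ 2 ≤
        ∫ x in a..b, ((1 + θ) * ‖f x‖ ^ 2 + (1 + θ⁻¹) * ‖f x - f c‖ ^ 2) :=
      intervalIntegral.integral_mono_on hab i3 ((i1.const_mul _).add (i2.const_mul _))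
        fun x _ => sq_le_split (f c) (f x) hθ
    rw [ec, intervalIntegral.integral_add (i1.const_mul _) (i2.const_mul _),
      intervalIntegral.integral_const_mul, intervalIntegral.integral_const_mul] at h1
    linarith
  · have h1 : ∫ x in a..b, ‖f x‖ ^ 2 ≤
        ∫ x in a..b, ((1 + θ) * ‖f c‖ ^ 2 + (1 + θ⁻¹) * ‖f x - f c‖ ^ 2) :=
      intervalIntegral.integral_mono_on hab i1 ((i3.const_mul _).add (i2.const_mul _))
        fun x _ => by
          rw [norm_sub_rev]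
          exact sq_le_split (f x) (f c) hθ
    rw [intervalIntegral.integral_add (i3.const_mul _) (i2.const_mul _),
      intervalIntegral.integral_const_mul, intervalIntegral.integral_const_mul, ec] at h1
    linarith

/-- the trapezoidal sum -/
def trap (q : ℝ → ℝ) (t : ℕ → ℝ) (n : ℕ) : ℝ :=
  ∑ i ∈ Finset.range n, (t (i + 1) - t i) * ((q (t i) + q (t (i + 1))) / 2)

/-- a cell -/
theorem cell {f f' : ℝ → ℂ} {ω a b θ : ℝ} (hab : a ≤ b)
    (hf : ∀ x, HasDerivAt f (f' x) x) (hf' : Continuous f') (hω : 0 < ω)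
    (h : ω * (b - a) < Real.pi) (hθ : 0 < θ) :
    (b - a) * ((‖f a‖ ^ 2 + ‖f b‖ ^ 2) / 2) ≤ (1 + θ) * (∫ x in a..b, ‖f x‖ ^ 2) +
      (1 + θ⁻¹) / ω ^ 2 * ∫ x in a..b, ‖f' x‖ ^ 2 ∧
    (∫ x in a..b, ‖f x‖ ^ 2) ≤ (1 + θ) * ((b - a) * ((‖f a‖ ^ 2 + ‖f b‖ ^ 2) / 2)) +
      (1 + θ⁻¹) / ω ^ 2 * ∫ x in a..b, ‖f' x‖ ^ 2 := by
  have hfc : Continuous f := continuous_iff_continuousAt.2 fun x => (hf x).continuousAt
  have h1 := half_cell (a := a) (b := (a + b) / 2) (c := a) (by linarith) hf hf' hω (by linarith) hθ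
    (Or.inl rfl)
  have h2 := half_cell (a := (a + b) / 2) (b := b) (c := b) (by linarith) hf hf' hω (by linarith) hθ
    (Or.inr rfl)
  have e1 := intervalIntegral.integral_add_adjacent_intervals
    (μ := volume) (a := a) (b := (a + b) / 2) (c := b) (f := fun x => ‖f x‖ ^ 2)
    ((hfc.norm.pow 2).intervalIntegrable _ _) ((hfc.norm.pow 2).intervalIntegrable _ _)
  have e2 := intervalIntegral.integral_add_adjacent_intervals
    (μ := volume) (a := a) (b := (a + b) / 2) (c := b) (f := fun x => ‖f' x‖ ^ 2)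
    ((hf'.norm.pow 2).intervalIntegrable _ _) ((hf'.norm.pow 2).intervalIntegrable _ _)
  rw [← e1, ← e2]
  constructor
  · linarith [h1.1, h2.1]
  · linarith [h1.2, h2.2]

theorem trap_both {f f' : ℝ → ℂ} {ω θ d : ℝ}
    (hf : ∀ x, HasDerivAt f (f' x) x) (hf' : Continuous f') (hω : 0 < ω)
    (h : ω * d < Real.pi) (hθ : 0 < θ) {t : ℕ → ℝ} {n : ℕ}
    (ht : ∀ i < n, t i ≤ t (i + 1) ∧ t (i + 1) - t i ≤ d) :
    trap (fun x => ‖f x‖ ^ 2) t n ≤ (1 + θ) * (∫ x in (t 0)..(t n), ‖f x‖ ^ 2) +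
      (1 + θ⁻¹) / ω ^ 2 * ∫ x in (t 0)..(t n), ‖f' x‖ ^ 2 ∧
    (∫ x in (t 0)..(t n), ‖f x‖ ^ 2) ≤ (1 + θ) * trap (fun x => ‖f x‖ ^ 2) t n +
      (1 + θ⁻¹) / ω ^ 2 * ∫ x in (t 0)..(t n), ‖f' x‖ ^ 2 := by
  have hfc : Continuous f := continuous_iff_continuousAt.2 fun x => (hf x).continuousAt
  have e1 := intervalIntegral.sum_integral_adjacent_intervals
    (μ := volume) (f := fun x => ‖f x‖ ^ 2) (a := t) (n := n)
    (fun i _ => (hfc.norm.pow 2).intervalIntegrable _ _)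
  have e2 := intervalIntegral.sum_integral_adjacent_intervals
    (μ := volume) (f := fun x => ‖f' x‖ ^ 2) (a := t) (n := n)
    (fun i _ => (hf'.norm.pow 2).intervalIntegrable _ _)
  have hc : ∀ i ∈ Finset.range n, _ := fun i hi =>
    cell (θ := θ) (ht i (Finset.mem_range.1 hi)).1 hf hf' hω
      (lt_of_le_of_lt (mul_le_mul_of_nonneg_left (ht i (Finset.mem_range.1 hi)).2 hω.le) h) hθ
  unfold trap
  rw [← e1, ← e2, Finset.mul_sum, Finset.mul_sum, Finset.mul_sum, ← Finset.sum_add_distrib,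
    ← Finset.sum_add_distrib]
  exact ⟨Finset.sum_le_sum fun i hi => (hc i hi).1, Finset.sum_le_sum fun i hi => (hc i hi).2⟩

end

end U345Z
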