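import Pool.Agent.U345.ZB
import Pool.Agent.U345.ZW

set_option autoImplicit false

open MeasureTheory Filter Topology Complex FourierTransform ComplexConjugate

namespace U345Z

open Q97.MM

noncomputable section

variable (k : ℕ)

/-- auxiliary weight -/
def aw (A : ℕ) (T U y : ℝ) : ℝ := (1 + |(y - T) / U|) ^ A * Real.exp (-(((y - T) / U) ^ 2 / 2))

theorem aw_nonneg (A : ℕ) (T U y : ℝ) : 0 ≤ aw A T U y := by
  unfold aw
  positivity

theorem aw_integrable (A : ℕ) (T : ℝ) {U : ℝ} (hU : 0 < U) : Integrable (aw A T U) :=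
  scaled_integrable A T hU

theorem aw_integral (A : ℕ) (T : ℝ) {U : ℝ} (hU : 0 < U) : ∫ y, aw A T U y = U * KK A :=
  scaled_integral A T hU

/-- the square of the function on the critical line -/
def fq (T U y : ℝ) : ℝ := ‖FF k T U (((1 / 2 : ℝ) : ℂ) + y * I)‖ ^ 2

/-- the integrand of the moment -/
def zq (T U y : ℝ) : ℝ := ‖riemannZeta (((1 / 2 : ℝ) : ℂ) + y * I)‖ ^ (2 * k) * wt T U y

theorem fq_eq (T U y : ℝ) :
    fq k T U y = ‖Z1 (((1 / 2 : ℝ) : ℂ) + y * I)‖ ^ (2 * k) * wt T U y := by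
  unfold fq
  rw [FF_sq, sub_self]
  simp

theorem fq_nonneg (T U y : ℝ) : 0 ≤ fq k T U y := by
  unfold fq
  positivity

theorem zq_nonneg (T U y : ℝ) : 0 ≤ zq k T U y := by
  unfold zq
  have := wt_pos T U y
  positivity

theorem far_wt {T U η : ℝ} (hA : Adm T U) (hη : 0 ≤ η) {y : ℝ} (hy : η * T ≤ |y - T|) :
    wt T U y ≤ Real.exp (-((η * Real.log T) ^ 2 / 2)) * Real.exp (-(((y - T) / U) ^ 2 / 2)) := by
  have hU := hA.pos
  have hL := hA.log
  rw [wt, ← Real.exp_add]
  apply Real.exp_le_exp.2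
  have h4 : η * Real.log T ≤ |(y - T) / U| := by
    rw [abs_div, abs_of_pos hU, le_div_iff₀ hU]
    have h5 : U * Real.log T ≤ T := by
      have := hA.2.2
      rwa [le_div_iff₀ (by linarith)] at this
    nlinarith
  have h6 : (η * Real.log T) ^ 2 ≤ ((y - T) / U) ^ 2 := by
    rw [← sq_abs ((y - T) / U)]
    exact pow_le_pow_left₀ (by positivity) h4 2
  linarith

theorem far_bd {T U η : ℝ} (hA : Adm T U) (hη : 0 ≤ η) {y : ℝ} (hy : η * T ≤ |y - T|) (A : ℕ) :
    (1 + |y|) ^ A * wt T U y ≤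
      (1 + T) ^ A * Real.exp (-((η * Real.log T) ^ 2 / 2)) * aw A T U y := by
  have hU := hA.pos
  have hT : 0 ≤ T := by linarith [hA.1]
  have h1 := far_wt hA hη hy
  have h2 := abs_le_scaled hU hT hA.le y
  calc (1 + |y|) ^ A * wt T U y ≤ ((1 + T) * (1 + |(y - T) / U|)) ^ A *
        (Real.exp (-((η * Real.log T) ^ 2 / 2)) * Real.exp (-(((y - T) / U) ^ 2 / 2))) :=
        mul_le_mul (pow_le_pow_left₀ (by positivity) h2 A) h1 (wt_pos _ _ _).le (by positivity)
    _ = _ := by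
        unfold aw
        rw [mul_pow]
        ring

/-- Comparison of the two integrands. -/
theorem pt_cmp {ε : ℝ} (hε : 0 < ε) : ∀ᶠ T : ℝ in atTop, ∀ U : ℝ, Adm T U → ∀ y : ℝ,
    |fq k T U y - T ^ (2 * k) * zq k T U y| ≤
      ε * fq k T U y + ε * (T ^ (2 * k) * aw (2 * (2 * k)) T U y) := by
  obtain ⟨d, hd, hd'⟩ := near_one k hε
  set η := min (1 / 2) (d / 8) with hη
  have hη0 : 0 < η := lt_min (by norm_num) (by positivity)
  have hη1 : η ≤ 1 / 2 := min_le_left _ _
  have hη2 : η ≤ d / 8 := min_le_right _ _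
  have htail := (tail_tendsto (2 * (2 * k)) hη0).const_mul (2 * 180 ^ (2 * k))
  rw [mul_zero] at htail
  filter_upwards [htail.eventually (gt_mem_nhds hε), eventually_ge_atTop (8 / d)] with T h1 h4 U h y
  have hT : 0 < T := by linarith [h.1]
  have hU := h.pos
  have hL := h.log
  have hw := wt_pos T U y
  have hT1 : 1 ≤ T ^ (2 * k) := one_le_pow₀ (by linarith [h.1])
  have haw := aw_nonneg (2 * (2 * k)) T U y
  rw [fq_eq]
  unfold zq
  set x : ℝ := 1 / 2 with hx
  by_cases hy : |y - T| ≤ η * T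
  · have hy' : |y - T| ≤ 1 / 2 * T := hy.trans (mul_le_mul_of_nonneg_right hη1 hT.le)
    have hy1 : T / 2 ≤ y := by linarith [(abs_le.mp hy').1]
    have hne := ne_one_of_re (x := x) (by rw [hx]; norm_num) y
    set m := ‖(x : ℂ) + y * I - 1‖ with hm
    have hm0 : 0 < m := norm_pos_iff.mpr (sub_ne_zero.mpr hne)
    have hm1 : y ≤ m := by
      have := Complex.abs_im_le_norm ((x : ℂ) + y * I - 1)
      have e : ((x : ℂ) + y * I - 1).im = y := by simp
      rw [e] at this
      exact (le_abs_self y).trans this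
    have hm2 : m ≤ 1 + y := by
      have e : (x : ℂ) + y * I - 1 = ((x - 1 : ℝ) : ℂ) + y * I := by push_cast; ring
      rw [hm, e]
      refine (norm_add_le _ _).trans ?_
      rw [norm_mul, Complex.norm_I, mul_one, Complex.norm_real, Complex.norm_real,
        Real.norm_eq_abs, Real.norm_eq_abs, abs_of_nonneg (by linarith : 0 ≤ y)]
      have : |x - 1| ≤ 1 := by
        rw [hx, abs_le]
        constructor <;> norm_num
      linarith
    have hr : |T / m - 1| < d := by
      have e1 : T / m - 1 = (T - m) / m := by field_simp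
      rw [e1, abs_div, abs_of_pos hm0, div_lt_iff₀ hm0]
      have e2 : |T - m| ≤ η * T + 1 := by
        rw [abs_le] at hy ⊢
        constructor <;> linarith [hy.1, hy.2]
      have e3 : 8 ≤ d * T := by
        rw [div_le_iff₀ hd] at h4
        linarith
      have e4 : η * T ≤ d / 8 * T := mul_le_mul_of_nonneg_right hη2 hT.le
      have e5 : d * (T / 2) ≤ d * m := mul_le_mul_of_nonneg_left (by linarith) hd.le
      nlinarith
    have hdr := hd' _ hr
    have hZ : T ^ (2 * k) * ‖riemannZeta (x + y * I)‖ ^ (2 * k) =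
        (T / m) ^ (2 * k) * ‖Z1 (x + y * I)‖ ^ (2 * k) := by
      rw [Z1_of_ne hne, norm_mul, ← mul_pow, ← mul_pow]
      congr 1
      rw [← hm]
      field_simp
    have e6 : ‖Z1 (x + y * I)‖ ^ (2 * k) * wt T U y -
        T ^ (2 * k) * (‖riemannZeta (x + y * I)‖ ^ (2 * k) * wt T U y) =
        -(((T / m) ^ (2 * k) - 1) * (‖Z1 (x + y * I)‖ ^ (2 * k) * wt T U y)) := by
      rw [← mul_assoc, hZ]
      ring
    have hp : 0 ≤ ‖Z1 (x + y * I)‖ ^ (2 * k) * wt T U y := by positivity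
    rw [e6, abs_neg, abs_mul, abs_of_nonneg hp]
    have := mul_le_mul_of_nonneg_right hdr hp
    have h5 : 0 ≤ ε * (T ^ (2 * k) * aw (2 * (2 * k)) T U y) := by positivity
    linarith
  · push Not at hy
    have a1 := Z1_pow_bd k (x := x) (by rw [hx]; norm_num) (by rw [hx]; norm_num) y
    have a2 := zeta_pow_bd k (x := x) (by rw [hx]; norm_num) (by rw [hx]; norm_num) y
    have a3 := far_bd h hη0.le hy.le (2 * (2 * k))
    set E := Real.exp (-((η * Real.log T) ^ 2 / 2)) with hE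
    have b1 : ‖Z1 (x + y * I)‖ ^ (2 * k) * wt T U y ≤
        T ^ (2 * k) * 180 ^ (2 * k) * ((1 + |y|) ^ (2 * (2 * k)) * wt T U y) := by
      rw [← mul_assoc]
      apply mul_le_mul_of_nonneg_right _ hw.le
      refine a1.trans ?_
      apply mul_le_mul_of_nonneg_right _ (by positivity)
      calc (45 : ℝ) ^ (2 * k) ≤ 180 ^ (2 * k) := by gcongr; norm_num
        _ ≤ T ^ (2 * k) * 180 ^ (2 * k) := le_mul_of_one_le_left (by positivity) hT1
    have b2 : T ^ (2 * k) * (‖riemannZeta (x + y * I)‖ ^ (2 * k) * wt T U y) ≤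
        T ^ (2 * k) * 180 ^ (2 * k) * ((1 + |y|) ^ (2 * (2 * k)) * wt T U y) := by
      rw [mul_assoc]
      apply mul_le_mul_of_nonneg_left _ (by positivity)
      rw [← mul_assoc]
      exact mul_le_mul_of_nonneg_right a2 hw.le
    have b3 : T ^ (2 * k) * 180 ^ (2 * k) * ((1 + |y|) ^ (2 * (2 * k)) * wt T U y) ≤
        T ^ (2 * k) * 180 ^ (2 * k) * ((1 + T) ^ (2 * (2 * k)) * E * aw (2 * (2 * k)) T U y) :=
      mul_le_mul_of_nonneg_left a3 (by positivity)
    have b4 : 2 * (T ^ (2 * k) * 180 ^ (2 * k) *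
        ((1 + T) ^ (2 * (2 * k)) * E * aw (2 * (2 * k)) T U y)) ≤
        ε * (T ^ (2 * k) * aw (2 * (2 * k)) T U y) := by
      have h5 : 0 ≤ T ^ (2 * k) * aw (2 * (2 * k)) T U y := by positivity
      have h6 := mul_le_mul_of_nonneg_right h1.le h5
      linarith
    have p1 : 0 ≤ ‖Z1 (x + y * I)‖ ^ (2 * k) * wt T U y := by positivity
    have p2 : 0 ≤ T ^ (2 * k) * (‖riemannZeta (x + y * I)‖ ^ (2 * k) * wt T U y) := by positivity
    have p3 : 0 ≤ ε * (‖Z1 (x + y * I)‖ ^ (2 * k) * wt T U y) := by positivity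
    rw [abs_le]
    constructor <;> linarith

/-- The tail of `FF`. -/
theorem fq_tail {ε : ℝ} (hε : 0 < ε) : ∀ᶠ T : ℝ in atTop, ∀ U : ℝ, Adm T U → ∀ y : ℝ,
    T / 2 ≤ |y - T| → fq k T U y ≤ ε * (T ^ (2 * k) * aw (2 * (2 * k)) T U y) := by
  have htail := (tail_tendsto (2 * (2 * k)) (η := 1 / 2) (by norm_num)).const_mul (45 ^ (2 * k))
  rw [mul_zero] at htail
  filter_upwards [htail.eventually (gt_mem_nhds hε)] with T h1 U h y hy
  have hT : 0 < T := by linarith [h.1]
  have hw := wt_pos T U y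
  have hT1 : 1 ≤ T ^ (2 * k) := one_le_pow₀ (by linarith [h.1])
  have haw := aw_nonneg (2 * (2 * k)) T U y
  rw [fq_eq]
  have a1 := Z1_pow_bd k (x := 1 / 2) (by norm_num) (by norm_num) y
  have a3 := far_bd h (show (0 : ℝ) ≤ 1 / 2 by norm_num) (y := y) (by linarith) (2 * (2 * k))
  set E := Real.exp (-((1 / 2 * Real.log T) ^ 2 / 2)) with hE
  have b1 := mul_le_mul_of_nonneg_right a1 hw.le
  have b2 := mul_le_mul_of_nonneg_left a3 (show (0 : ℝ) ≤ 45 ^ (2 * k) by positivity)
  have b3 := mul_le_mul_of_nonneg_right h1.le haw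
  have b4 : ε * aw (2 * (2 * k)) T U y ≤ ε * (T ^ (2 * k) * aw (2 * (2 * k)) T U y) := by
    apply mul_le_mul_of_nonneg_left _ hε.le
    exact le_mul_of_one_le_left haw hT1
  calc _ ≤ _ := b1
    _ = 45 ^ (2 * k) * ((1 + |y|) ^ (2 * (2 * k)) * wt T U y) := by ring
    _ ≤ _ := b2
    _ = 45 ^ (2 * k) * ((1 + T) ^ (2 * (2 * k)) * E) * aw (2 * (2 * k)) T U y := by ring
    _ ≤ _ := b3
    _ ≤ _ := b4

/-! ### Trapezoidal sums of the auxiliary weight -/

/-- integral of the wider Gaussian -/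
theorem wide_integrable (T : ℝ) {U : ℝ} (hU : 0 < U) :
    Integrable (fun y : ℝ => Real.exp (-(3 / 16) * ((y - T) / U) ^ 2)) := by
  have h1 := (integrable_exp_neg_mul_sq (b := 3 / 16) (by norm_num)).comp_div hU.ne'
  exact h1.comp_sub_right T

theorem wide_integral (T : ℝ) {U : ℝ} (hU : 0 < U) :
    ∫ y : ℝ, Real.exp (-(3 / 16) * ((y - T) / U) ^ 2) =
      U * ∫ x : ℝ, Real.exp (-(3 / 16) * x ^ 2) := by
  have h1 := integral_sub_right_eq_self
    (fun y : ℝ => Real.exp (-(3 / 16) * (y / U) ^ 2)) (μ := volume) T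
  have h2 := Measure.integral_comp_div (fun x : ℝ => Real.exp (-(3 / 16) * x ^ 2)) U
  rw [h1, h2, abs_of_pos hU, smul_eq_mul]

/-- Local comparison of the auxiliary weight. -/
theorem aw_local (A : ℕ) : ∃ C : ℝ, 0 < C ∧ ∀ (T U : ℝ), 1 ≤ U → ∀ t x : ℝ, |t - x| ≤ 1 →
    aw A T U t ≤ C * Real.exp (-(3 / 16) * ((x - T) / U) ^ 2) := by
  obtain ⟨C, hC0, hC⟩ := poly_le_exp A (1 / 8) (by norm_num)
  refine ⟨C * Real.exp (3 / 8), by positivity, fun T U hU t x htx => ?_⟩
  have hU0 : 0 < U := by linarith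
  unfold aw
  have h1 := hC ((t - T) / U)
  set a := (t - T) / U with ha
  set b := (x - T) / U with hb
  have hab : |a - b| ≤ 1 := by
    have e : a - b = (t - x) / U := by rw [ha, hb]; ring
    rw [e, abs_div, abs_of_pos hU0, div_le_one hU0]
    linarith
  have h2 : b ^ 2 / 2 - 1 ≤ a ^ 2 := by
    have h3 : (a - b) ^ 2 ≤ 1 := by
      rw [← sq_abs]
      exact pow_le_one₀ (abs_nonneg _) hab
    nlinarith [sq_nonneg (2 * a - b)]
  calc (1 + |a|) ^ A * Real.exp (-(a ^ 2 / 2)) ≤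
        (C * Real.exp (1 / 8 * a ^ 2)) * Real.exp (-(a ^ 2 / 2)) := by gcongr
    _ = C * Real.exp (-(3 / 8) * a ^ 2) := by
        rw [mul_assoc, ← Real.exp_add]
        congr 2
        ring
    _ ≤ C * (Real.exp (3 / 8) * Real.exp (-(3 / 16) * b ^ 2)) := by
        rw [← Real.exp_add]
        apply mul_le_mul_of_nonneg_left _ hC0.le
        apply Real.exp_le_exp.2
        nlinarith
    _ = _ := by ring

theorem aw_trap (A : ℕ) : ∃ C : ℝ, 0 < C ∧ ∀ (T U : ℝ), 1 ≤ U → ∀ (t : ℕ → ℝ) (n : ℕ),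
    (∀ i < n, t i ≤ t (i + 1) ∧ t (i + 1) - t i ≤ 1) → t 0 ≤ t n →
    trap (aw A T U) t n ≤ C * U := by
  obtain ⟨C, hC, hC'⟩ := aw_local A
  refine ⟨C * ((∫ x : ℝ, Real.exp (-(3 / 16) * x ^ 2)) + 1), ?_, fun T U hU t n ht h0n => ?_⟩
  · have : 0 ≤ ∫ x : ℝ, Real.exp (-(3 / 16) * x ^ 2) := integral_nonneg fun x => (Real.exp_pos _).le
    positivity
  · have hU0 : 0 < U := by linarith
    set g : ℝ → ℝ := fun y => Real.exp (-(3 / 16) * ((y - T) / U) ^ 2) with hg
    have hgc : Continuous g := by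
      rw [hg]
      fun_prop
    have e1 := intervalIntegral.sum_integral_adjacent_intervals
      (μ := volume) (f := g) (a := t) (n := n) (fun i _ => hgc.intervalIntegrable _ _)
    have h1 : trap (aw A T U) t n ≤ C * ∫ x in (t 0)..(t n), g x := by
      unfold trap
      rw [← e1, Finset.mul_sum]
      apply Finset.sum_le_sum
      intro i hi
      obtain ⟨q1, q2⟩ := ht i (Finset.mem_range.1 hi)
      have h2 : ∫ _x in (t i)..(t (i + 1)), (aw A T U (t i) + aw A T U (t (i + 1))) / 2 ≤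
          ∫ x in (t i)..(t (i + 1)), C * g x := by
        apply intervalIntegral.integral_mono_on q1 intervalIntegrable_const
          ((hgc.intervalIntegrable _ _).const_mul C)
        intro x hx
        have b1 := hC' T U hU (t i) x (by
          rw [abs_le]
          constructor <;> linarith [hx.1, hx.2])
        have b2 := hC' T U hU (t (i + 1)) x (by
          rw [abs_le]
          constructor <;> linarith [hx.1, hx.2])
        linarith
      rw [intervalIntegral.integral_const, smul_eq_mul, intervalIntegral.integral_const_mul] at h2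
      exact h2
    have h3 : ∫ x in (t 0)..(t n), g x ≤ ∫ x, g x := by
      rw [intervalIntegral.integral_of_le h0n]
      exact setIntegral_le_integral (wide_integrable T hU0)
        (Eventually.of_forall fun x => (Real.exp_pos _).le)
    rw [show (∫ x, g x) = U * ∫ x : ℝ, Real.exp (-(3 / 16) * x ^ 2) from wide_integral T hU0] at h3
    have h4 : 0 ≤ ∫ x : ℝ, Real.exp (-(3 / 16) * x ^ 2) :=
      integral_nonneg fun x => (Real.exp_pos _).le
    calc _ ≤ _ := h1
      _ ≤ C * (U * ∫ x : ℝ, Real.exp (-(3 / 16) * x ^ 2)) := mul_le_mul_of_nonneg_left h3 hC.le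
      _ ≤ _ := by
        have : C * (U * ∫ x : ℝ, Real.exp (-(3 / 16) * x ^ 2)) ≤
          C * (U * ((∫ x : ℝ, Real.exp (-(3 / 16) * x ^ 2)) + 1)) := by
          apply mul_le_mul_of_nonneg_left _ hC.le
          apply mul_le_mul_of_nonneg_left _ hU0.le
          linarith
        linarith

end

end U345Z
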