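import Pool.Agent.U345.ZC

set_option autoImplicit false

open MeasureTheory Filter Topology Complex FourierTransform ComplexConjugate

namespace U345Z

open Q97.MM

noncomputable section

variable (k : ℕ)

theorem mink {x a b : ℝ} (ha : 0 ≤ a) (hb : 0 ≤ b)
    (h : ∀ θ : ℝ, 0 < θ → x ^ 2 ≤ (1 + θ) * a ^ 2 + (1 + θ⁻¹) * b ^ 2) : x ≤ a + b := by
  apply le_of_forall_pos_le_add
  intro e he
  have h1 : 0 < a + e / 2 := by linarith
  have h2 : 0 < b + e / 2 := by linarith
  have h3 := h ((b + e / 2) / (a + e / 2)) (by positivity)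
  have h4 : x ^ 2 ≤ ((a + e / 2) + (b + e / 2)) ^ 2 := by
    have e1 : (1 + (b + e / 2) / (a + e / 2)) * (a + e / 2) ^ 2 +
        (1 + ((b + e / 2) / (a + e / 2))⁻¹) * (b + e / 2) ^ 2 =
        ((a + e / 2) + (b + e / 2)) ^ 2 := by
      field_simp
      ring
    rw [← e1]
    refine h3.trans ?_
    gcongr
    · linarith
    · linarith
  have h5 := abs_le_of_sq_le_sq' h4 (by linarith)
  linarith [h5.2]

theorem sqrt_le_add {a b c : ℝ} (hb : 0 ≤ b) (hc : 0 ≤ c) (h : a ≤ b + c) : √a ≤ √b + √c := by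
  rw [Real.sqrt_le_iff]
  refine ⟨by positivity, ?_⟩
  have h1 := Real.sq_sqrt hb
  have h2 := Real.sq_sqrt hc
  have h3 : 0 ≤ √b * √c := by positivity
  nlinarith

theorem sqrt_sub_le {a b c : ℝ} (ha : 0 ≤ a) (hb : 0 ≤ b) (h : |a - b| ≤ c) :
    |√a - √b| ≤ √c := by
  have hc : 0 ≤ c := (abs_nonneg _).trans h
  have h1 := abs_le.1 h
  have h2 := sqrt_le_add hb hc (a := a) (by linarith)
  have h3 := sqrt_le_add ha hc (a := b) (by linarith)
  rw [abs_le]
  constructor <;> linarith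

theorem trap_nonneg {q : ℝ → ℝ} (hq : ∀ x, 0 ≤ q x) {t : ℕ → ℝ} {n : ℕ}
    (ht : ∀ i < n, t i ≤ t (i + 1)) : 0 ≤ trap q t n := by
  unfold trap
  apply Finset.sum_nonneg
  intro i hi
  have := ht i (Finset.mem_range.1 hi)
  have h1 := hq (t i)
  have h2 := hq (t (i + 1))
  exact mul_nonneg (by linarith) (by linarith)

theorem mono_of_step {t : ℕ → ℝ} {n : ℕ} (ht : ∀ i < n, t i ≤ t (i + 1)) : t 0 ≤ t n := by
  induction n with
  | zero => exact le_rfl
  | succ m ih =>
    exact (ih fun i hi => ht i (by omega)).trans (ht m (by omega))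

/-- the modulated function on the critical line -/
def md (T U y : ℝ) : ℂ :=
  cexp (((k * Real.log T / 2 * y : ℝ) : ℂ) * I) * FF k T U (((1 / 2 : ℝ) : ℂ) + y * I)

/-- its derivative -/
def md' (T U y : ℝ) : ℂ :=
  cexp (((k * Real.log T / 2 * y : ℝ) : ℂ) * I) * (I * (deriv (FF k T U) (((1 / 2 : ℝ) : ℂ) + y * I) +
    ((k * Real.log T / 2 : ℝ) : ℂ) * FF k T U (((1 / 2 : ℝ) : ℂ) + y * I)))

theorem md_norm (T U y : ℝ) : ‖md k T U y‖ ^ 2 = fq k T U y := by
  unfold md fq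
  rw [norm_mul, Complex.norm_exp_ofReal_mul_I, one_mul]

theorem md'_norm (T U y : ℝ) : ‖md' k T U y‖ ^ 2 =
    ‖deriv (FF k T U) (((1 / 2 : ℝ) : ℂ) + y * I) +
      ((k * Real.log T / 2 : ℝ) : ℂ) * FF k T U (((1 / 2 : ℝ) : ℂ) + y * I)‖ ^ 2 := by
  unfold md'
  rw [norm_mul, norm_mul, Complex.norm_exp_ofReal_mul_I, one_mul, Complex.norm_I, one_mul]

theorem md_deriv (T U y : ℝ) : HasDerivAt (md k T U) (md' k T U y) y := by
  have h1 : HasDerivAt (fun y : ℝ => cexp (((k * Real.log T / 2 * y : ℝ) : ℂ) * I))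
      (cexp (((k * Real.log T / 2 * y : ℝ) : ℂ) * I) * (((k * Real.log T / 2 : ℝ) : ℂ) * I)) y := by
    have h2 : HasDerivAt (fun y : ℝ => ((k * Real.log T / 2 * y : ℝ) : ℂ) * I)
        (((k * Real.log T / 2 : ℝ) : ℂ) * I) y := by
      have h3 : HasDerivAt (fun y : ℝ => k * Real.log T / 2 * y) (k * Real.log T / 2) y := by
        have := (hasDerivAt_id y).const_mul (k * Real.log T / 2)
        simpa using this
      exact (h3.ofReal_comp).mul_const I
    exact h2.cexp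
  have h2 := ln_hasDerivAt (FF_differentiable k T U) (1 / 2) y
  have h3 := h1.mul h2
  refine h3.congr_deriv ?_
  unfold md' ln
  ring

theorem md'_cont (T U : ℝ) : Continuous (md' k T U) := by
  have h1 := (deriv_entire (FF_differentiable k T U)).continuous
  have h2 := (FF_differentiable k T U).continuous
  unfold md'
  fun_prop

/-- The choice of the parameters. -/
theorem choice {k c ε : ℝ} (hk : 0 ≤ k) (hc : 0 < c) (hε : 0 < ε) : ∃ b e : ℝ, 0 < b ∧ 0 < e ∧
    b * c < Real.pi ∧ (k ^ 2 + e) / (4 * b ^ 2) ≤ (c * k / (2 * Real.pi) + ε) ^ 2 := by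
  have hpi := Real.pi_pos
  set ρ := c * k / (2 * Real.pi) with hρ
  have hρ0 : 0 ≤ ρ := by positivity
  set s := min 1 (ε / (2 * (ρ + 1))) with hs
  have hs0 : 0 < s := lt_min one_pos (by positivity)
  have hs1 : s ≤ 1 := min_le_left _ _
  have hs2 : ρ * s ≤ ε / 2 := by
    have h1 : s ≤ ε / (2 * (ρ + 1)) := min_le_right _ _
    have h2 : ρ * s ≤ (ρ + 1) * (ε / (2 * (ρ + 1))) := by
      apply mul_le_mul (by linarith) h1 hs0.le (by linarith)
    have h3 : (ρ + 1) * (ε / (2 * (ρ + 1))) = ε / 2 := by field_simp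
    linarith
  set e := ε * Real.pi / (2 * c) with he
  have he0 : 0 < e := by positivity
  refine ⟨Real.pi / (c * (1 + s)), e ^ 2, by positivity, by positivity, ?_, ?_⟩
  · rw [div_mul_eq_mul_div, div_lt_iff₀ (by positivity)]
    nlinarith [mul_pos (mul_pos hpi hc) hs0]
  · have h1 : (k ^ 2 + e ^ 2) / (4 * (Real.pi / (c * (1 + s))) ^ 2) ≤
        ((k + e) * (c * (1 + s)) / (2 * Real.pi)) ^ 2 := by
      have e1 : ((k + e) * (c * (1 + s)) / (2 * Real.pi)) ^ 2 =
          (k + e) ^ 2 / (4 * (Real.pi / (c * (1 + s))) ^ 2) := by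
        field_simp
        ring
      rw [e1]
      apply div_le_div_of_nonneg_right _ (by positivity)
      nlinarith [mul_nonneg hk he0.le]
    refine h1.trans ?_
    apply pow_le_pow_left₀ (by positivity)
    have h2 : (k + e) * (c * (1 + s)) / (2 * Real.pi) = ρ + ρ * s + e * c * (1 + s) / (2 * Real.pi) := by
      rw [hρ]
      field_simp
    rw [h2]
    have h3 : e * c * (1 + s) / (2 * Real.pi) ≤ ε / 2 := by
      have h4 : e * c = ε * Real.pi / 2 := by rw [he]; field_simp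
      rw [h4, div_le_iff₀ (by positivity)]
      have h5 : ε * Real.pi / 2 * (1 + s) ≤ ε * Real.pi / 2 * 2 := by
        apply mul_le_mul_of_nonneg_left (by linarith) (by positivity)
      nlinarith
    linarith

/-- Trapezoidal sums of `FF`. -/
theorem trapFF {c ε : ℝ} (hc : 0 < c) (hε : 0 < ε) : ∀ᶠ T : ℝ in atTop, ∀ U : ℝ, Adm T U →
    ∀ (t : ℕ → ℝ) (n : ℕ), t 0 ≤ T / 2 → 3 * T / 2 ≤ t n →
    (∀ i < n, t i ≤ t (i + 1) ∧ t (i + 1) - t i ≤ c / Real.log T) →
    |√(trap (fq k T U) t n) - √(V0 k T U)| ≤ (c * k / (2 * Real.pi) + ε) * √(V0 k T U) := by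
  have hk0 : (0 : ℝ) ≤ k := Nat.cast_nonneg k
  obtain ⟨b, e, hb, he, hbc, hR⟩ := choice hk0 hc (half_pos hε)
  set R := c * k / (2 * Real.pi) + ε / 2 with hRd
  have hR0 : 0 < R := by
    have : 0 ≤ c * k / (2 * Real.pi) := by positivity
    linarith
  obtain ⟨c₀, hc₀, hc₀'⟩ := V0_lower k
  have hK := KK_nonneg (2 * (2 * k))
  -- the size of the tail
  set ε₂ := (ε / 2) ^ 2 * c₀ / (KK (2 * (2 * k)) + 1) with hε₂
  have hε₂0 : 0 < ε₂ := by positivity
  filter_upwards [spec2 k he, fq_tail k hε₂0] with T h1 h2 U hA t n ht0 htn hmesh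
  have hL := hA.log
  have hL0 : 0 < Real.log T := by linarith
  have hT : 0 < T := by linarith [hA.1]
  have hV0 := V0_pos k hA
  have hU := hA.pos
  set L := Real.log T with hLd
  set V := V0 k T U with hV
  have hmono := mono_of_step (t := t) (n := n) fun i hi => (hmesh i hi).1
  have hboth : ∀ θ : ℝ, 0 < θ → _ := fun θ hθ => trap_both (f := md k T U) (f' := md' k T U)
    (ω := b * L) (θ := θ) (d := c / L) (md_deriv k T U) (md'_cont k T U) (by positivity)
    (by rw [show b * L * (c / L) = b * c by field_simp]; exact hbc) hθ hmesh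
  have efq : (fun x => ‖md k T U x‖ ^ 2) = fq k T U := funext fun x => md_norm k T U x
  have i1 : Integrable (fq k T U) := by
    obtain ⟨M, δ, hM, hδ, hbd⟩ := FF_bd k T hA.pos
    exact ln_sq_integrable (FF_differentiable k T U) hδ hbd (x := 1 / 2) (by norm_num) (by norm_num)
  have i2 : Integrable (fun y => ‖md' k T U y‖ ^ 2) := by
    obtain ⟨M, δ, hM, hδ, hbd⟩ := FF_bd k T hA.pos
    obtain ⟨d1, -, -⟩ := deriv_mean (FF_differentiable k T U) hδ hM hbd (c := 1 / 2) (by norm_num)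
      (by norm_num) (k * Real.log T / 2)
    exact d1.congr (Eventually.of_forall fun y => (md'_norm k T U y).symm)
  have eV : ∫ y, fq k T U y = V := rfl
  -- the derivative
  have hD : ∫ x in (t 0)..(t n), ‖md' k T U x‖ ^ 2 ≤ (L / 2) ^ 2 * ((k ^ 2 + e) * V) := by
    rw [intervalIntegral.integral_of_le hmono]
    refine (setIntegral_le_integral i2 (Eventually.of_forall fun x => by positivity)).trans ?_
    rw [integral_congr_ae (Eventually.of_forall fun y => md'_norm k T U y)]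
    exact h1 U hA
  have hDR : ∀ θ : ℝ, 0 < θ → (1 + θ⁻¹) / (b * L) ^ 2 * ∫ x in (t 0)..(t n), ‖md' k T U x‖ ^ 2 ≤
      (1 + θ⁻¹) * (R * √V) ^ 2 := by
    intro θ hθ
    have a1 : (1 + θ⁻¹) / (b * L) ^ 2 * ∫ x in (t 0)..(t n), ‖md' k T U x‖ ^ 2 ≤
        (1 + θ⁻¹) / (b * L) ^ 2 * ((L / 2) ^ 2 * ((k ^ 2 + e) * V)) :=
      mul_le_mul_of_nonneg_left hD (by positivity)
    refine a1.trans ?_
    have a2 : (1 + θ⁻¹) / (b * L) ^ 2 * ((L / 2) ^ 2 * ((k ^ 2 + e) * V)) =
        (1 + θ⁻¹) * ((k ^ 2 + e) / (4 * b ^ 2) * V) := by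
      field_simp
      ring
    rw [a2, mul_pow, Real.sq_sqrt hV0.le]
    exact mul_le_mul_of_nonneg_left (mul_le_mul_of_nonneg_right hR hV0.le) (by positivity)
  -- the integral over the range
  set J := ∫ x in (t 0)..(t n), fq k T U x with hJ
  have hJV : J ≤ V := by
    rw [hJ, ← eV, intervalIntegral.integral_of_le hmono]
    exact setIntegral_le_integral i1 (Eventually.of_forall fun x => fq_nonneg k T U x)
  have hJ0 : 0 ≤ J := intervalIntegral.integral_nonneg hmono fun x _ => fq_nonneg k T U x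
  have hVJ : V ≤ J + (ε / 2) ^ 2 * V := by
    have b1 : V - J = ∫ x in (Set.Ioc (t 0) (t n))ᶜ, fq k T U x := by
      rw [hJ, intervalIntegral.integral_of_le hmono, ← eV,
        ← integral_add_compl measurableSet_Ioc i1]
      ring
    have b2 : ∫ x in (Set.Ioc (t 0) (t n))ᶜ, fq k T U x ≤
        ∫ x in (Set.Ioc (t 0) (t n))ᶜ, ε₂ * (T ^ (2 * k) * aw (2 * (2 * k)) T U x) := by
      apply setIntegral_mono_on i1.integrableOn
        (((aw_integrable (2 * (2 * k)) T hU).const_mul _).const_mul _).integrableOn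
        measurableSet_Ioc.compl
      intro x hx
      apply h2 U hA
      rw [Set.mem_compl_iff, Set.mem_Ioc, not_and_or, not_lt, not_le] at hx
      rcases hx with hx | hx
      · rw [abs_of_nonpos (by linarith)]
        linarith
      · rw [abs_of_nonneg (by linarith)]
        linarith
    have b3 : ∫ x in (Set.Ioc (t 0) (t n))ᶜ, ε₂ * (T ^ (2 * k) * aw (2 * (2 * k)) T U x) ≤
        ∫ x, ε₂ * (T ^ (2 * k) * aw (2 * (2 * k)) T U x) :=
      setIntegral_le_integral (((aw_integrable (2 * (2 * k)) T hU).const_mul _).const_mul _)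
        (Eventually.of_forall fun x => by
          have := aw_nonneg (2 * (2 * k)) T U x
          positivity)
    have b3' : ∫ x, ε₂ * (T ^ (2 * k) * aw (2 * (2 * k)) T U x) =
        ε₂ * (T ^ (2 * k) * (U * KK (2 * (2 * k)))) := by
      rw [integral_const_mul, integral_const_mul, aw_integral _ T hU]
    rw [b3'] at b3
    have b4 := hc₀' T U hA
    have b5 : ε₂ * (T ^ (2 * k) * (U * KK (2 * (2 * k)))) ≤ (ε / 2) ^ 2 * (c₀ * (T ^ (2 * k) * U)) := by
      have b6 : ε₂ * KK (2 * (2 * k)) ≤ (ε / 2) ^ 2 * c₀ := by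
        rw [hε₂, div_mul_eq_mul_div, div_le_iff₀ (by positivity)]
        have : 0 ≤ (ε / 2) ^ 2 * c₀ := by positivity
        nlinarith
      have b7 := mul_le_mul_of_nonneg_right b6 (show 0 ≤ T ^ (2 * k) * U by positivity)
      linarith
    have b8 : (ε / 2) ^ 2 * (c₀ * (T ^ (2 * k) * U)) ≤ (ε / 2) ^ 2 * V :=
      mul_le_mul_of_nonneg_left b4 (by positivity)
    linarith
  set S := trap (fq k T U) t n with hS
  have hS0 : 0 ≤ S := trap_nonneg (fq_nonneg k T U) fun i hi => (hmesh i hi).1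
  have m1 : √S ≤ √J + R * √V := by
    apply mink (Real.sqrt_nonneg _) (by positivity)
    intro θ hθ
    have q := (hboth θ hθ).1
    rw [efq, ← hJ] at q
    rw [Real.sq_sqrt hS0, Real.sq_sqrt hJ0]
    linarith [hDR θ hθ]
  have m2 : √J ≤ √S + R * √V := by
    apply mink (Real.sqrt_nonneg _) (by positivity)
    intro θ hθ
    have q := (hboth θ hθ).2
    rw [efq, ← hJ] at q
    rw [Real.sq_sqrt hS0, Real.sq_sqrt hJ0]
    linarith [hDR θ hθ]
  have m3 : √J ≤ √V := Real.sqrt_le_sqrt hJV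
  have m4 : √V ≤ √J + ε / 2 * √V := by
    have := sqrt_le_add hJ0 (by positivity : 0 ≤ (ε / 2) ^ 2 * V) hVJ
    rwa [Real.sqrt_mul (by positivity), Real.sqrt_sq (by positivity)] at this
  have hsV : 0 ≤ √V := Real.sqrt_nonneg _
  have e9 : (c * k / (2 * Real.pi) + ε) * √V = R * √V + ε / 2 * √V := by
    rw [hRd]
    ring
  rw [e9, abs_le]
  have : 0 ≤ ε / 2 * √V := by positivity
  constructor <;> linarith

/-- **Trapezoidal sums of the moments of zeta.** -/
theorem trapZ {c ε : ℝ} (hc : 0 < c) (hε : 0 < ε) : ∀ᶠ T : ℝ in atTop, ∀ U : ℝ, Adm T U →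
    0 < JJ k T U (1 / 2) ∧ ∀ (t : ℕ → ℝ) (n : ℕ), t 0 ≤ T / 2 → 3 * T / 2 ≤ t n →
    (∀ i < n, t i ≤ t (i + 1) ∧ t (i + 1) - t i ≤ c / Real.log T) →
    |√(trap (zq k T U) t n) - √(JJ k T U (1 / 2))| ≤
      (c * k / (2 * Real.pi) + ε) * √(JJ k T U (1 / 2)) := by
  set ρ := c * k / (2 * Real.pi) with hρ
  have hpi := Real.pi_pos
  have hρ0 : 0 ≤ ρ := by positivity
  -- small parameters
  set ε₁ := min (ε / 4) 1 with hε₁
  have hε₁0 : 0 < ε₁ := lt_min (by positivity) one_pos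
  have hε₁1 : ε₁ ≤ ε / 4 := min_le_left _ _
  have hε₁2 : ε₁ ≤ 1 := min_le_right _ _
  set R := 1 + ρ + ε₁ with hR
  have hR0 : 0 < R := by positivity
  obtain ⟨C, hC, hC'⟩ := aw_trap (2 * (2 * k))
  obtain ⟨c₀, hc₀, hc₀'⟩ := V0_lower k
  set ε₃ := ε₁ ^ 2 / (R ^ 2 + C / c₀) with hε₃
  have hε₃0 : 0 < ε₃ := by positivity
  set ε₄ := min (ε₁ / (1 + ρ + ε)) (1 / 2) with hε₄
  have hε₄0 : 0 < ε₄ := lt_min (by positivity) (by norm_num)
  have hε₄1 : ε₄ ≤ 1 / 2 := min_le_right _ _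
  have hε₄2 : ε₄ * (1 + ρ + ε) ≤ ε₁ := by
    have h1 : ε₄ ≤ ε₁ / (1 + ρ + ε) := min_le_left _ _
    rwa [le_div_iff₀ (by positivity)] at h1
  have hLc : ∀ᶠ T : ℝ in atTop, c ≤ Real.log T := Real.tendsto_log_atTop.eventually_ge_atTop c
  filter_upwards [trapFF k hc hε₁0, pt_cmp k hε₃0, GJ k 0 hε₄0, hLc] with T h1 h2 h3 h4 U hA
  have hL := hA.log
  have hL0 : 0 < Real.log T := by linarith
  have hT : 0 < T := by linarith [hA.1]
  have hV0 := V0_pos k hA
  have hU := hA.pos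
  set V := V0 k T U with hV
  set P := T ^ (2 * k) with hP
  have hP0 : 0 < P := by positivity
  set M := JJ k T U (1 / 2) with hM
  have hM0 : 0 ≤ M := JJ_nonneg k _ _ _
  have g1 := h3 U hA
  rw [Gn_zero k hA] at g1
  have g2 : Jn k T U 0 = P * M / V := by
    unfold Jn
    rw [zero_div, add_zero]
  rw [g2] at g1
  have g3 : |V - P * M| ≤ ε₄ * V := by
    have e : V - P * M = (1 - P * M / V) * V := by field_simp
    rw [e, abs_mul, abs_of_pos hV0]
    exact mul_le_mul_of_nonneg_right g1 hV0.le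
  have g4 := abs_le.1 g3
  have hMp : 0 < M := by
    by_contra hcon
    have h0 : M = 0 := le_antisymm (not_lt.1 hcon) hM0
    rw [h0, mul_zero] at g4
    nlinarith [g4.2]
  refine ⟨hMp, fun t n ht0 htn hmesh => ?_⟩
  have hmono := mono_of_step (t := t) (n := n) fun i hi => (hmesh i hi).1
  have q1 := h1 U hA t n ht0 htn hmesh
  set S := trap (fq k T U) t n with hS
  set Z := trap (zq k T U) t n with hZ
  have hS0 : 0 ≤ S := trap_nonneg (fq_nonneg k T U) fun i hi => (hmesh i hi).1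
  have hZ0 : 0 ≤ Z := trap_nonneg (zq_nonneg k T U) fun i hi => (hmesh i hi).1
  have hmesh1 : ∀ i < n, t i ≤ t (i + 1) ∧ t (i + 1) - t i ≤ 1 := fun i hi =>
    ⟨(hmesh i hi).1, (hmesh i hi).2.trans ((div_le_one hL0).2 h4)⟩
  -- comparison of the sums
  have q2 : |S - P * Z| ≤ ε₃ * S + ε₃ * (P * (C * U)) := by
    have a1 : |S - P * Z| ≤ ε₃ * S + ε₃ * (P * trap (aw (2 * (2 * k)) T U) t n) := by
      rw [hS, hZ]
      unfold trap
      rw [Finset.mul_sum, ← Finset.sum_sub_distrib, Finset.mul_sum, Finset.mul_sum, Finset.mul_sum,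
        ← Finset.sum_add_distrib]
      refine (Finset.abs_sum_le_sum_abs _ _).trans (Finset.sum_le_sum fun i hi => ?_)
      obtain ⟨p1, -⟩ := hmesh i (Finset.mem_range.1 hi)
      have p2 := abs_le.1 (h2 U hA (t i))
      have p3 := abs_le.1 (h2 U hA (t (i + 1)))
      have e1 : (t (i + 1) - t i) * ((fq k T U (t i) + fq k T U (t (i + 1))) / 2) -
          P * ((t (i + 1) - t i) * ((zq k T U (t i) + zq k T U (t (i + 1))) / 2)) =
          (t (i + 1) - t i) * (((fq k T U (t i) - P * zq k T U (t i)) +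
            (fq k T U (t (i + 1)) - P * zq k T U (t (i + 1)))) / 2) := by ring
      have p4 : 0 ≤ t (i + 1) - t i := by linarith
      rw [e1, abs_mul, abs_of_nonneg p4]
      have p5 : |((fq k T U (t i) - P * zq k T U (t i)) +
            (fq k T U (t (i + 1)) - P * zq k T U (t (i + 1)))) / 2| ≤
          ε₃ * ((fq k T U (t i) + fq k T U (t (i + 1))) / 2) + ε₃ * (P *
            ((aw (2 * (2 * k)) T U (t i) + aw (2 * (2 * k)) T U (t (i + 1))) / 2)) := by
        rw [abs_le]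
        constructor <;> linarith [p2.1, p2.2, p3.1, p3.2]
      calc _ ≤ _ := mul_le_mul_of_nonneg_left p5 p4
        _ = _ := by ring
    have a2 := hC' T U hA.2.1 t n hmesh1 hmono
    have a3 : ε₃ * (P * trap (aw (2 * (2 * k)) T U) t n) ≤ ε₃ * (P * (C * U)) := by gcongr
    linarith
  have hsV : 0 ≤ √V := Real.sqrt_nonneg _
  have q3 : √S ≤ R * √V := by
    have := (abs_le.1 q1).2
    rw [hR]
    linarith
  have q4 : S ≤ R ^ 2 * V := by
    have := pow_le_pow_left₀ (Real.sqrt_nonneg _) q3 2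
    rwa [Real.sq_sqrt hS0, mul_pow, Real.sq_sqrt hV0.le] at this
  have q5 : P * (C * U) ≤ C / c₀ * V := by
    have := hc₀' T U hA
    have e : P * (C * U) = C / c₀ * (c₀ * (P * U)) := by field_simp
    rw [e]
    exact mul_le_mul_of_nonneg_left this (by positivity)
  have q6 : |S - P * Z| ≤ ε₁ ^ 2 * V := by
    have e : ε₁ ^ 2 * V = ε₃ * (R ^ 2 * V) + ε₃ * (C / c₀ * V) := by
      have : ε₃ * (R ^ 2 + C / c₀) = ε₁ ^ 2 := by
        rw [hε₃]
        field_simp
      rw [← this]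
      ring
    rw [e]
    refine q2.trans (add_le_add ?_ ?_)
    · exact mul_le_mul_of_nonneg_left q4 hε₃0.le
    · exact mul_le_mul_of_nonneg_left q5 hε₃0.le
  have q7 : |√S - √(P * Z)| ≤ ε₁ * √V := by
    have := sqrt_sub_le hS0 (by positivity) q6
    rwa [Real.sqrt_mul (by positivity : 0 ≤ ε₁ ^ 2), Real.sqrt_sq hε₁0.le] at this
  -- comparison of the moments
  have q8 : |√V - √(P * M)| ≤ ε₄ * √V := by
    have a1 : √(P * M) * √(P * M) = P * M := Real.mul_self_sqrt (by positivity)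
    have a2 : √V * √V = V := Real.mul_self_sqrt hV0.le
    have a3 : 0 ≤ √(P * M) := Real.sqrt_nonneg _
    have a4 : 0 < √V := Real.sqrt_pos.2 hV0
    have a5 : |√V - √(P * M)| * √V ≤ |√V - √(P * M)| * (√V + √(P * M)) :=
      mul_le_mul_of_nonneg_left (by linarith) (abs_nonneg _)
    have a6 : |√V - √(P * M)| * (√V + √(P * M)) = |V - P * M| := by
      have a8 : V - P * M = (√V - √(P * M)) * (√V + √(P * M)) := by
        linear_combination a1 - a2
      rw [a8, abs_mul, abs_of_nonneg (by positivity : 0 ≤ √V + √(P * M))]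
    have a7 : |√V - √(P * M)| * √V ≤ ε₄ * √V * √V := by
      rw [mul_assoc, a2]
      linarith
    exact le_of_mul_le_mul_right a7 a4
  -- conclusion
  have hsP : 0 < √P := Real.sqrt_pos.2 hP0
  have f1 : √(P * Z) = √P * √Z := Real.sqrt_mul hP0.le _
  have f2 : √(P * M) = √P * √M := Real.sqrt_mul hP0.le _
  have f3 : |√(P * Z) - √(P * M)| ≤ (ρ + ε) * √(P * M) := by
    have b1 := abs_le.1 q1
    have b2 := abs_le.1 q7
    have b3 := abs_le.1 q8
    have b4 : (1 - ε₄) * √V ≤ √(P * M) := by linarith [b3.2]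
    have b5 : (ρ + ε) * ((1 - ε₄) * √V) ≤ (ρ + ε) * √(P * M) :=
      mul_le_mul_of_nonneg_left b4 (by positivity)
    have b6 : (ρ + ε₁) * √V + ε₁ * √V + ε₄ * √V ≤ (ρ + ε) * ((1 - ε₄) * √V) := by
      have b7 : ε₄ * (ρ + ε) + ε₄ ≤ ε₁ := by linarith
      have b8 : (ρ + ε₁) + ε₁ + ε₄ ≤ (ρ + ε) * (1 - ε₄) := by
        have : (ρ + ε) * (1 - ε₄) = ρ + ε - ε₄ * (ρ + ε) := by ring
        rw [this]
        linarith
      have b9 := mul_le_mul_of_nonneg_right b8 hsV
      linarith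
    rw [abs_le]
    constructor <;> linarith [b1.1, b1.2, b2.1, b2.2, b3.1, b3.2]
  rw [f1, f2, ← mul_sub, abs_mul, abs_of_pos hsP] at f3
  have f4 : (ρ + ε) * (√P * √M) = √P * ((ρ + ε) * √M) := by ring
  rw [f4] at f3
  exact le_of_mul_le_mul_left f3 hsP

end

end U345Z
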