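import Pool.Agent.U345.ZB

set_option autoImplicit false

/-!
# Derivatives and complex shifts: the spectral side
-/

open MeasureTheory Filter Topology Complex FourierTransform ComplexConjugate

namespace U345Z

open Q97.MM

noncomputable section

variable {F : ℂ → ℂ} {α β M δ : ℝ}

theorem iter_entire (hF : Differentiable ℂ F) (m : ℕ) : Differentiable ℂ (iteratedDeriv m F) := by
  induction m with
  | zero => rwa [iteratedDeriv_zero]
  | succ n ih =>
    rw [iteratedDeriv_succ]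
    exact deriv_entire ih

/-- Gaussian decay of all derivatives. -/
theorem iter_bd (hF : Differentiable ℂ F) (hδ : 0 < δ) (hM : 0 ≤ M)
    (hbd : ∀ x y : ℝ, α ≤ x → x ≤ β → ‖F (x + y * I)‖ ≤ M * Real.exp (-δ * y ^ 2)) (m : ℕ) :
    ∀ α' β' : ℝ, α < α' → β' < β → ∃ M' δ' : ℝ, 0 ≤ M' ∧ 0 < δ' ∧
      ∀ x y : ℝ, α' ≤ x → x ≤ β' → ‖iteratedDeriv m F (x + y * I)‖ ≤ M' * Real.exp (-δ' * y ^ 2) := by
  induction m with
  | zero =>
    intro α' β' h1 h2
    refine ⟨M, δ, hM, hδ, fun x y hx1 hx2 => ?_⟩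
    rw [iteratedDeriv_zero]
    exact hbd x y (by linarith) (by linarith)
  | succ n ih =>
    intro α' β' h1 h2
    obtain ⟨M', δ', hM', hδ', hb⟩ := ih ((α + α') / 2) ((β + β') / 2) (by linarith) (by linarith)
    set r := min ((α' - α) / 2) ((β - β') / 2) with hr
    have hr0 : 0 < r := lt_min (by linarith) (by linarith)
    have hr1 : r ≤ (α' - α) / 2 := min_le_left _ _
    have hr2 : r ≤ (β - β') / 2 := min_le_right _ _
    refine ⟨M' * Real.exp (δ' * r ^ 2) / r, δ' / 2, by positivity, by positivity,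
      fun x y hx1 hx2 => ?_⟩
    rw [iteratedDeriv_succ]
    exact deriv_bd (iter_entire hF n) hδ' hM' hb hr0 x y (by linarith) (by linarith)

theorem fourier_iter (hF : Differentiable ℂ F) (hδ : 0 < δ) (hM : 0 ≤ M)
    (hbd : ∀ x y : ℝ, α ≤ x → x ≤ β → ‖F (x + y * I)‖ ≤ M * Real.exp (-δ * y ^ 2))
    {c : ℝ} (hc1 : α < c) (hc2 : c < β) (m : ℕ) (ξ : ℝ) :
    𝓕 (ln (iteratedDeriv m F) c) ξ = ((2 * Real.pi * ξ : ℝ) : ℂ) ^ m * 𝓕 (ln F c) ξ := by
  induction m with
  | zero => rw [iteratedDeriv_zero, pow_zero, one_mul]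
  | succ n ih =>
    obtain ⟨M', δ', hM', hδ', hb⟩ := iter_bd hF hδ hM hbd n ((α + c) / 2) ((β + c) / 2)
      (by linarith) (by linarith)
    rw [iteratedDeriv_succ, fourier_deriv_line (iter_entire hF n) hδ' hM' hb (by linarith)
      (by linarith), ih]
    ring

/-- The correlations of the derivatives at complex distances. -/
theorem corr_iter (hF : Differentiable ℂ F) (hδ : 0 < δ) (hM : 0 ≤ M)
    (hbd : ∀ x y : ℝ, α ≤ x → x ≤ β → ‖F (x + y * I)‖ ≤ M * Real.exp (-δ * y ^ 2))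
    {c : ℝ} {z w : ℂ} (hc1 : α < c) (hc2 : c < β) (h1 : α < c + z.re) (h2 : c + z.re < β)
    (h3 : α < c + w.re) (h4 : c + w.re < β) (m n : ℕ) :
    MemLp (tl (iteratedDeriv m F) c z) 2 ∧
    ∫ y, tl (iteratedDeriv m F) c z y * conj (tl (iteratedDeriv n F) c w y) =
      ∫ ξ : ℝ, (((2 * Real.pi * ξ : ℝ) : ℂ) ^ (m + n) * cexp (2 * Real.pi * ξ * (z + conj w))) *
        (dens F c ξ : ℂ) := by
  set α' := (α + min c (min (c + z.re) (c + w.re))) / 2 with hα'
  set β' := (β + max c (max (c + z.re) (c + w.re))) / 2 with hβ'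
  have hm : α < min c (min (c + z.re) (c + w.re)) := lt_min hc1 (lt_min h1 h3)
  have hM2 : max c (max (c + z.re) (c + w.re)) < β := max_lt hc2 (max_lt h2 h4)
  have a1 : min c (min (c + z.re) (c + w.re)) ≤ c := min_le_left _ _
  have a2 : min c (min (c + z.re) (c + w.re)) ≤ c + z.re :=
    (min_le_right _ _).trans (min_le_left _ _)
  have a3 : min c (min (c + z.re) (c + w.re)) ≤ c + w.re :=
    (min_le_right _ _).trans (min_le_right _ _)
  have b1 : c ≤ max c (max (c + z.re) (c + w.re)) := le_max_left _ _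
  have b2 : c + z.re ≤ max c (max (c + z.re) (c + w.re)) :=
    (le_max_left _ _).trans (le_max_right _ _)
  have b3 : c + w.re ≤ max c (max (c + z.re) (c + w.re)) :=
    (le_max_right _ _).trans (le_max_right _ _)
  obtain ⟨M1, δ1, hM1, hδ1, hb1⟩ := iter_bd hF hδ hM hbd m α' β' (by linarith) (by linarith)
  obtain ⟨M2, δ2, hM2', hδ2, hb2⟩ := iter_bd hF hδ hM hbd n α' β' (by linarith) (by linarith)
  have d1 := iter_entire hF m
  have d2 := iter_entire hF n
  have p1 := tl_memLp (c := c) (z := z) d1 hδ1 hb1 (by linarith) (by linarith)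
  obtain ⟨-, -, i3⟩ := parseval
    (tl_integrable (c := c) (z := z) d1 hδ1 hb1 (by linarith) (by linarith)) p1
    (tl_integrable (c := c) (z := w) d2 hδ2 hb2 (by linarith) (by linarith))
    (tl_memLp (c := c) (z := w) d2 hδ2 hb2 (by linarith) (by linarith))
  refine ⟨p1, ?_⟩
  rw [i3]
  refine integral_congr_ae (Eventually.of_forall fun ξ => ?_)
  beta_reduce
  rw [fourier_tl (c := c) (z := z) d1 hδ1 hM1 hb1 (by linarith) (by linarith) (by linarith)
    (by linarith), fourier_tl (c := c) (z := w) d2 hδ2 hM2' hb2 (by linarith) (by linarith)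
    (by linarith) (by linarith), fourier_iter hF hδ hM hbd hc1 hc2 m,
    fourier_iter hF hδ hM hbd hc1 hc2 n, map_mul, map_mul, map_pow, Complex.conj_ofReal,
    ← Complex.exp_conj]
  have e1 : conj (2 * (Real.pi : ℂ) * (ξ : ℂ) * w) = 2 * Real.pi * ξ * conj w := by
    simp only [map_mul, Complex.conj_ofReal, map_ofNat]
  have e2 : (dens F c ξ : ℂ) = 𝓕 (ln F c) ξ * conj (𝓕 (ln F c) ξ) := by
    unfold dens
    rw [Complex.mul_conj, Complex.normSq_eq_norm_sq]
  rw [e1, e2, mul_add, Complex.exp_add, pow_add]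
  ring

theorem nu_intC {c L : ℝ} (hd : Continuous (dens F c)) (hp : 0 < VI F c) {f : ℝ → ℂ}
    (hf : Continuous f) :
    ∫ u, f u ∂(nu F c L) = ∫ ξ, f (-(4 * Real.pi * ξ / L)) * ((dens F c ξ / VI F c : ℝ) : ℂ) := by
  have hm : Measurable (fun ξ : ℝ => -(4 * Real.pi * ξ / L)) := by fun_prop
  have hdm : Measurable (fun ξ => ENNReal.ofReal (dens F c ξ / VI F c)) :=
    (hd.measurable.div_const _).ennreal_ofReal
  unfold nu
  rw [integral_map hm.aemeasurable hf.aestronglyMeasurable,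
    integral_withDensity_eq_integral_toReal_smul hdm (Eventually.of_forall fun ξ =>
      ENNReal.ofReal_lt_top)]
  refine integral_congr_ae (Eventually.of_forall fun ξ => ?_)
  beta_reduce
  rw [ENNReal.toReal_ofReal (div_nonneg (dens_nonneg _ _ _) hp.le), Complex.real_smul, mul_comm]

/-- the spectral function -/
def sf (N : ℕ) (ζ : ℂ) (u : ℝ) : ℂ := ((-(u / 2) : ℝ) : ℂ) ^ N * cexp (-(ζ * u / 2))

theorem sf_cont (N : ℕ) (ζ : ℂ) : Continuous (sf N ζ) := by
  unfold sf
  fun_prop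

/-- The correlations of the derivatives of `FF` in terms of the spectral measure. -/
theorem corr_FF (k : ℕ) {T U : ℝ} (hA : Adm T U) (m n : ℕ) {z w : ℂ}
    (hz : ‖z‖ / Real.log T < 1 / 4) (hw : ‖w‖ / Real.log T < 1 / 4) :
    MemLp (tl (iteratedDeriv m (FF k T U)) (1 / 2) (z / Real.log T)) 2 ∧
    (∫ y, tl (iteratedDeriv m (FF k T U)) (1 / 2) (z / Real.log T) y *
      conj (tl (iteratedDeriv n (FF k T U)) (1 / 2) (w / Real.log T) y)) =
      ((Real.log T : ℝ) : ℂ) ^ (m + n) * ((V0 k T U : ℝ) : ℂ) *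
        ∫ u, sf (m + n) (z + conj w) u ∂(nuT k T U) := by
  have hL := hA.log
  have hL0 : 0 < Real.log T := by linarith
  have hV0 := V0_pos k hA
  obtain ⟨M, δ, hM, hδ, hbd⟩ := FF_bd k T hA.pos
  have hdiff := FF_differentiable k T U
  have hre : ∀ z : ℂ, ‖z‖ / Real.log T < 1 / 4 → |(z / (Real.log T : ℂ)).re| < 1 / 4 := by
    intro z hz
    refine lt_of_le_of_lt (Complex.abs_re_le_norm _) ?_
    rw [norm_div, Complex.norm_real, Real.norm_of_nonneg hL0.le]
    exact hz
  have hz1 := abs_lt.1 (hre z hz)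
  have hw1 := abs_lt.1 (hre w hw)
  obtain ⟨p1, p2⟩ := corr_iter (c := 1 / 2) (z := z / Real.log T) (w := w / Real.log T) hdiff hδ hM
    hbd (by norm_num) (by norm_num) (by linarith) (by linarith) (by linarith) (by linarith) m n
  refine ⟨p1, ?_⟩
  rw [p2]
  have hdc := dens_measurable hdiff hδ hbd (c := 1 / 2) (by norm_num) (by norm_num)
  unfold nuT
  rw [nu_intC hdc hV0 (sf_cont _ _), ← integral_const_mul]
  refine integral_congr_ae (Eventually.of_forall fun ξ => ?_)
  beta_reduce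
  unfold sf
  have hLc : ((Real.log T : ℝ) : ℂ) ≠ 0 := Complex.ofReal_ne_zero.2 hL0.ne'
  have hVc : ((V0 k T U : ℝ) : ℂ) ≠ 0 := Complex.ofReal_ne_zero.2 hV0.ne'
  have e1 : ((-(-(4 * Real.pi * ξ / Real.log T) / 2) : ℝ) : ℂ) =
      ((2 * Real.pi * ξ : ℝ) : ℂ) / ((Real.log T : ℝ) : ℂ) := by
    push_cast
    field_simp
    ring
  have e2 : -((z + conj w) * ((-(4 * Real.pi * ξ / Real.log T) : ℝ) : ℂ) / 2) =
      2 * Real.pi * ξ * (z / Real.log T + conj (w / Real.log T)) := by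
    rw [map_div₀, Complex.conj_ofReal]
    push_cast
    field_simp
    ring
  rw [e1, e2, div_pow]
  have e3 : ((dens (FF k T U) (1 / 2) ξ / VI (FF k T U) (1 / 2) : ℝ) : ℂ) =
      (dens (FF k T U) (1 / 2) ξ : ℂ) / ((V0 k T U : ℝ) : ℂ) := by
    unfold V0
    push_cast
    rfl
  rw [e3]
  field_simp

/-! ### Convergence of integrals of functions of exponential growth -/

theorem exp_growth_conv {ν : ℕ → Measure ℝ} {μ : Measure ℝ} [IsProbabilityMeasure μ]
    (hprob : ∀ᶠ j in atTop, IsProbabilityMeasure (ν j))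
    (hb : ∀ f : BoundedContinuousFunction ℝ ℝ,
      Tendsto (fun j => ∫ u, f u ∂(ν j)) atTop (𝓝 (∫ u, f u ∂μ)))
    (hint : ∀ a : ℝ, Integrable (fun u => Real.exp (-(a * u))) μ)
    (hbd : ∀ a : ℝ, ∃ C : ℝ, 0 ≤ C ∧ ∀ᶠ j in atTop,
      Integrable (fun u => Real.exp (-(a * u))) (ν j) ∧ ∫ u, Real.exp (-(a * u)) ∂(ν j) ≤ C)
    {f : ℝ → ℝ} (hf : Continuous f) {C b : ℝ} (hC : 0 ≤ C)
    (hfb : ∀ u, |f u| ≤ C * (Real.exp (b * u) + Real.exp (-(b * u)))) :
    Integrable f μ ∧ (∀ᶠ j in atTop, Integrable f (ν j)) ∧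
    Tendsto (fun j => ∫ u, f u ∂(ν j)) atTop (𝓝 (∫ u, f u ∂μ)) := by
  -- the square is bounded by exponentials
  have hsq : ∀ u, f u ^ 2 ≤ 2 * C ^ 2 * (Real.exp (-((-(2 * b)) * u)) + Real.exp (-((2 * b) * u))) := by
    intro u
    have h1 := hfb u
    have h2 : f u ^ 2 ≤ (C * (Real.exp (b * u) + Real.exp (-(b * u)))) ^ 2 := by
      rw [← sq_abs]
      exact pow_le_pow_left₀ (abs_nonneg _) h1 2
    have e1 : Real.exp (-((-(2 * b)) * u)) = Real.exp (b * u) ^ 2 := by
      rw [← Real.exp_nat_mul]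
      congr 1
      push_cast
      ring
    have e2 : Real.exp (-((2 * b) * u)) = Real.exp (-(b * u)) ^ 2 := by
      rw [← Real.exp_nat_mul]
      congr 1
      push_cast
      ring
    rw [e1, e2]
    refine h2.trans ?_
    nlinarith [sq_nonneg (Real.exp (b * u) - Real.exp (-(b * u))), sq_nonneg C,
      mul_nonneg (sq_nonneg C) (sq_nonneg (Real.exp (b * u) - Real.exp (-(b * u))))]
  have hgi : ∀ ρ : Measure ℝ, (∀ a : ℝ, a = b ∨ a = -b →
      Integrable (fun u => Real.exp (-(a * u))) ρ) → Integrable f ρ := by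
    intro ρ hρ
    have h1 := (hρ (-b) (Or.inr rfl)).add (hρ b (Or.inl rfl))
    refine (h1.const_mul C).mono' hf.aestronglyMeasurable (Eventually.of_forall fun u => ?_)
    rw [Real.norm_eq_abs]
    refine (hfb u).trans (le_of_eq ?_)
    show _ = C * (Real.exp (-(-b * u)) + Real.exp (-(b * u)))
    rw [neg_mul, neg_neg]
  have hfμ : Integrable f μ := hgi μ fun a _ => hint a
  obtain ⟨C1, hC1, hC1'⟩ := hbd (-(2 * b))
  obtain ⟨C2, hC2, hC2'⟩ := hbd (2 * b)
  obtain ⟨C3, -, hC3'⟩ := hbd b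
  obtain ⟨C4, -, hC4'⟩ := hbd (-b)
  have hfν : ∀ᶠ j in atTop, Integrable f (ν j) := by
    filter_upwards [hC3', hC4'] with j h3 h4
    apply hgi
    rintro a (rfl | rfl)
    · exact h3.1
    · exact h4.1
  refine ⟨hfμ, hfν, ?_⟩
  set K := 2 * C ^ 2 * (C1 + C2) with hK
  set Kμ := 2 * C ^ 2 * ((∫ u, Real.exp (-((-(2 * b)) * u)) ∂μ) + ∫ u, Real.exp (-((2 * b) * u)) ∂μ) with hKμ
  have hK0 : 0 ≤ K := by positivity
  have hKμ0 : 0 ≤ Kμ := by
    have h1 : 0 ≤ ∫ u, Real.exp (-((-(2 * b)) * u)) ∂μ := integral_nonneg fun u => (Real.exp_pos _).le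
    have h2 : 0 ≤ ∫ u, Real.exp (-((2 * b) * u)) ∂μ := integral_nonneg fun u => (Real.exp_pos _).le
    positivity
  -- truncation
  have htr : ∀ (ρ : Measure ℝ) [IsProbabilityMeasure ρ] (R Q : ℝ), 0 < R → Integrable f ρ →
      Integrable (fun u => Real.exp (-((-(2 * b)) * u))) ρ →
      Integrable (fun u => Real.exp (-((2 * b) * u))) ρ →
      2 * C ^ 2 * ((∫ u, Real.exp (-((-(2 * b)) * u)) ∂ρ) + ∫ u, Real.exp (-((2 * b) * u)) ∂ρ) ≤ Q →
      |∫ u, f u ∂ρ - ∫ u, max (-R) (min (f u) R) ∂ρ| ≤ Q / R := by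
    intro ρ _ R Q hR i1 i2 i3 hQ
    have i4 : Integrable (fun u => max (-R) (min (f u) R)) ρ := by
      refine (integrable_const R).mono' (by fun_prop) (Eventually.of_forall fun u => ?_)
      rw [Real.norm_eq_abs, abs_le]
      refine ⟨le_max_left _ _, max_le (by linarith) (min_le_right _ _)⟩
    rw [← integral_sub i1 i4]
    have hpt : ∀ u, ‖f u - max (-R) (min (f u) R)‖ ≤
        (2 * C ^ 2 * (Real.exp (-((-(2 * b)) * u)) + Real.exp (-((2 * b) * u)))) / R := by
      intro u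
      have h1 := hsq u
      rw [Real.norm_eq_abs, le_div_iff₀ hR]
      refine le_trans ?_ h1
      rcases le_total (f u) R with h2 | h2
      · rw [min_eq_left h2]
        rcases le_total (-R) (f u) with h3 | h3
        · rw [max_eq_right h3, sub_self, abs_zero, zero_mul]
          positivity
        · rw [max_eq_left h3, abs_of_nonpos (by linarith)]
          nlinarith
      · rw [min_eq_right h2, max_eq_right (by linarith), abs_of_nonneg (by linarith)]
        nlinarith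
    have i5 : Integrable (fun u => (2 * C ^ 2 * (Real.exp (-((-(2 * b)) * u)) +
        Real.exp (-((2 * b) * u)))) / R) ρ := ((i2.add i3).const_mul _).div_const R
    have h5 := norm_integral_le_of_norm_le i5 (Eventually.of_forall hpt)
    rw [Real.norm_eq_abs, integral_div, integral_const_mul, integral_add i2 i3] at h5
    exact h5.trans (div_le_div_of_nonneg_right hQ hR.le)
  rw [Metric.tendsto_atTop]
  intro ε hε
  obtain ⟨R, hR, hRε⟩ : ∃ R : ℝ, 0 < R ∧ (K + Kμ) / R < ε / 3 := by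
    refine ⟨3 * (K + Kμ + 1) / ε, by positivity, ?_⟩
    rw [div_lt_div_iff₀ (by positivity) (by norm_num)]
    have : ε * (3 * (K + Kμ + 1) / ε) = 3 * (K + Kμ + 1) := by field_simp
    rw [this]
    linarith
  have hKR : K / R ≤ (K + Kμ) / R := by gcongr; linarith
  have hKR' : Kμ / R ≤ (K + Kμ) / R := by gcongr; linarith
  let g : BoundedContinuousFunction ℝ ℝ := BoundedContinuousFunction.ofNormedAddCommGroup
    (fun u => max (-R) (min (f u) R)) (by fun_prop) R (fun u => by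
      rw [Real.norm_eq_abs, abs_le]
      exact ⟨le_max_left _ _, max_le (by linarith) (min_le_right _ _)⟩)
  have hg : ∀ᶠ j in atTop, |∫ u, max (-R) (min (f u) R) ∂(ν j) -
      ∫ u, max (-R) (min (f u) R) ∂μ| < ε / 3 := by
    have h1 := (Metric.tendsto_nhds.mp (hb g)) (ε / 3) (by positivity)
    filter_upwards [h1] with j hj
    rw [Real.dist_eq] at hj
    exact hj
  obtain ⟨N, hN⟩ := eventually_atTop.mp (hprob.and (hfν.and (hC1'.and (hC2'.and hg))))
  refine ⟨N, fun j hj => ?_⟩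
  obtain ⟨h1, h2, h3, h4, h5⟩ := hN j hj
  have t1 := htr (ν j) R K hR h2 h3.1 h4.1 (by
    rw [hK]
    apply mul_le_mul_of_nonneg_left _ (by positivity)
    linarith [h3.2, h4.2])
  have t2 := htr μ R Kμ hR hfμ (hint _) (hint _) le_rfl
  rw [Real.dist_eq]
  rw [abs_le] at t1 t2
  rw [abs_lt] at h5 ⊢
  constructor <;> linarith [t1.1, t1.2, t2.1, t2.2, h5.1, h5.2]

end

end U345Z
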