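import Pool.Agent.U345.ZE
import Pool.Agent.U345.ZC

set_option autoImplicit false

/-!
# Comparison of `FF` and the power of zeta in the mean square, uniformly for complex shifts
-/

open MeasureTheory Filter Topology Complex FourierTransform ComplexConjugate

namespace U345Z

open Q97.MM

noncomputable section

variable (k : ℕ)

/-- the point with complex shift -/
def sp (T : ℝ) (z : ℂ) (y : ℝ) : ℂ := ((1 / 2 : ℝ) : ℂ) + y * I + z / Real.log T

/-- the square root of the weight -/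
def sw (T U y : ℝ) : ℝ := Real.exp (-(((y - T) / U) ^ 2 / 2))

theorem sw_sq (T U y : ℝ) : sw T U y ^ 2 = wt T U y := by
  unfold sw wt
  rw [← Real.exp_nat_mul]
  congr 1
  push_cast
  ring

theorem sw_pos (T U y : ℝ) : 0 < sw T U y := Real.exp_pos _

theorem psi_cont2 {ε : ℝ} (hε : 0 < ε) : ∃ d : ℝ, 0 < d ∧ ∀ (u e : ℂ), ‖u - 1‖ < d → ‖e‖ < d →
    u ≠ 0 ∧ ‖1 - (u⁻¹) ^ k * cexp (-e)‖ ≤ ε := by
  have h1 : ContinuousAt (fun p : ℂ × ℂ => 1 - (p.1⁻¹) ^ k * cexp (-p.2)) ((1 : ℂ), (0 : ℂ)) := by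
    have h2 : ContinuousAt (fun p : ℂ × ℂ => p.1⁻¹) ((1 : ℂ), (0 : ℂ)) :=
      continuousAt_fst.inv₀ one_ne_zero
    have h3 : ContinuousAt (fun p : ℂ × ℂ => cexp (-p.2)) ((1 : ℂ), (0 : ℂ)) := by
      have : Continuous (fun p : ℂ × ℂ => cexp (-p.2)) := by fun_prop
      exact this.continuousAt
    exact continuousAt_const.sub ((h2.pow k).mul h3)
  obtain ⟨d, hd, hd'⟩ := Metric.continuousAt_iff.mp h1 ε hε
  refine ⟨min d 1, lt_min hd one_pos, fun u e hu he => ⟨?_, ?_⟩⟩
  · rintro rfl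
    rw [zero_sub, norm_neg, norm_one] at hu
    exact absurd hu (not_lt.2 (min_le_right _ _))
  · have h2 := hd' (x := (u, e)) (by
      rw [Prod.dist_eq, max_lt_iff, dist_eq_norm, dist_eq_norm, sub_zero]
      exact ⟨hu.trans_le (min_le_left _ _), he.trans_le (min_le_left _ _)⟩)
    have h3 : (1 : ℂ) - ((1 : ℂ), (0 : ℂ)).1⁻¹ ^ k * cexp (-((1 : ℂ), (0 : ℂ)).2) = 0 := by simp
    rw [h3, dist_zero_right] at h2
    exact h2.le

/-- The pointwise comparison with complex shifts. -/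
theorem pt_cmp2 {R ε : ℝ} (hR : 0 ≤ R) (hε : 0 < ε) : ∀ᶠ T : ℝ in atTop, ∀ U : ℝ, Adm T U →
    ∀ z : ℂ, ‖z‖ ≤ R → ∀ y : ℝ,
    ‖FF k T U (sp T z y) - (I * T) ^ k * riemannZeta (sp T z y) ^ k * (sw T U y : ℂ)‖ ^ 2 ≤
      ε * ‖FF k T U (sp T z y)‖ ^ 2 + ε * (T ^ (2 * k) * aw (2 * (2 * k)) T U y) := by
  obtain ⟨d, hd, hd'⟩ := psi_cont2 k (Real.sqrt_pos.2 hε)
  set ϑ : ℝ := min (1 / 2) (d / (4 * (1 + R))) with hϑ
  have hϑ0 : 0 < ϑ := lt_min (by norm_num) (by positivity)
  have hϑ2 : ϑ * (1 + R) ≤ d / 4 := by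
    have h1 : ϑ ≤ d / (4 * (1 + R)) := min_le_right _ _
    have h2 := mul_le_mul_of_nonneg_right h1 (show 0 ≤ 1 + R by positivity)
    refine h2.trans (le_of_eq ?_)
    field_simp
  have hϑd : ϑ ≤ d / 4 := by nlinarith
  have hϑR : ϑ * R ≤ d / 4 := by nlinarith
  have htail := (tail_tendsto (2 * (2 * k)) (show 0 < ϑ / 2 by positivity)).const_mul
    (4 * 720 ^ (2 * k) * Real.exp (5 * R ^ 2 + 2 * R))
  rw [mul_zero] at htail
  filter_upwards [htail.eventually (gt_mem_nhds hε),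
    (log_div_tendsto R).eventually (gt_mem_nhds (show (0 : ℝ) < min (1 / 4) (d / 4) by positivity)),
    eventually_ge_atTop (4 / d)] with T h1 h2 h3 U hA z hz y
  have hT : 0 < T := by linarith [hA.1]
  have hT1 : 1 ≤ T := by linarith [hA.1]
  have hU := hA.pos
  have hU1 := hA.2.1
  have hL := hA.log
  set L := Real.log T with hLd
  have hL0 : 0 < L := by linarith
  have hTd : 4 ≤ d * T := by
    rwa [div_le_iff₀ hd, mul_comm] at h3
  have hRL : |R / L| = R / L := abs_of_nonneg (by positivity)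
  rw [hRL] at h2
  have hRL1 : R / L < 1 / 4 := h2.trans_le (min_le_left _ _)
  have hRL2 : R / L < d / 4 := h2.trans_le (min_le_right _ _)
  have hzL : ‖z / (L : ℂ)‖ ≤ R / L := by
    rw [norm_div, Complex.norm_real, Real.norm_of_nonneg hL0.le]
    exact div_le_div_of_nonneg_right hz hL0.le
  have hre := abs_le.1 ((Complex.abs_re_le_norm (z / (L : ℂ))).trans hzL)
  have him := abs_le.1 ((Complex.abs_im_le_norm (z / (L : ℂ))).trans hzL)
  set s := sp T z y with hs
  have hs' : s = ((1 / 2 + (z / (L : ℂ)).re : ℝ) : ℂ) + ((y + (z / (L : ℂ)).im : ℝ) : ℂ) * I := by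
    rw [hs, sp, ← hLd]
    conv_lhs => rw [← Complex.re_add_im (z / (L : ℂ))]
    push_cast
    ring
  have hs1 : s ≠ 1 := by
    rw [hs']
    exact ne_one_of_re (by linarith) _
  have haw := aw_nonneg (2 * (2 * k)) T U y
  -- the exponent
  set e : ℂ := (2 * ((y - T : ℝ) : ℂ) * I * (z / L) + (z / L) ^ 2) / (2 * (U : ℂ) ^ 2) with he
  have hUc : (U : ℂ) ≠ 0 := Complex.ofReal_ne_zero.2 hU.ne'
  have hF : FF k T U s = Z1 s ^ k * ((sw T U y : ℂ) * cexp e) := by
    unfold FF
    congr 1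
    rw [sw, Complex.ofReal_exp, ← Complex.exp_add]
    congr 1
    rw [he, hs, sp, ← hLd]
    generalize z / (L : ℂ) = v
    have e0 : ((1 / 2 : ℝ) : ℂ) + y * I + v - 1 / 2 - T * I = ((y - T : ℝ) : ℂ) * I + v := by
      push_cast
      ring
    have e1 : (((y - T : ℝ) : ℂ) * I + v) ^ 2 =
        -((y - T : ℝ) : ℂ) ^ 2 + (2 * ((y - T : ℝ) : ℂ) * I * v + v ^ 2) := by
      linear_combination ((y - T : ℝ) : ℂ) ^ 2 * Complex.I_sq
    rw [e0, e1, add_div]
    congr 1
    push_cast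
    rw [div_pow]
    ring
  have hZ : Z1 s = (s - 1) * riemannZeta s := Z1_of_ne hs1
  have hne : ‖e‖ ≤ (|(y - T) / U| * R / L + R / L) := by
    rw [he, norm_div]
    have e1 : ‖2 * (U : ℂ) ^ 2‖ = 2 * U ^ 2 := by
      rw [norm_mul, norm_pow, Complex.norm_real, Real.norm_of_nonneg hU.le]
      norm_num
    rw [e1, div_le_iff₀ (by positivity)]
    have e2 : ‖2 * ((y - T : ℝ) : ℂ) * I * (z / L) + (z / L) ^ 2‖ ≤
        2 * |y - T| * (R / L) + (R / L) ^ 2 := by
      refine (norm_add_le _ _).trans ?_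
      rw [norm_mul, norm_mul, norm_mul, norm_pow, Complex.norm_I, mul_one, Complex.norm_real,
        Real.norm_eq_abs]
      have : ‖(2 : ℂ)‖ = 2 := by norm_num
      rw [this]
      gcongr
    refine e2.trans ?_
    have e3 : |y - T| = |(y - T) / U| * U := by
      rw [abs_div, abs_of_pos hU]
      field_simp
    rw [e3]
    have p1 : 0 ≤ |(y - T) / U| := abs_nonneg _
    have p2 : 0 ≤ R / L := by positivity
    have p3 : U ≤ U ^ 2 := by nlinarith
    have p4 : (1 : ℝ) ≤ U ^ 2 := by nlinarith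
    have p5 : (R / L) ^ 2 ≤ R / L := by nlinarith
    have p6 : 2 * (|(y - T) / U| * U) * (R / L) ≤ 2 * U ^ 2 * (|(y - T) / U| * (R / L)) := by
      have : 0 ≤ |(y - T) / U| * (R / L) := by positivity
      nlinarith
    have p7 : (R / L) ^ 2 ≤ 2 * U ^ 2 * (R / L) := by nlinarith
    calc _ ≤ 2 * U ^ 2 * (|(y - T) / U| * (R / L)) + 2 * U ^ 2 * (R / L) := add_le_add p6 p7
      _ = _ := by ring
  by_cases hy : |y - T| ≤ ϑ * (U * L)
  · -- main range
    have hX : |(y - T) / U| ≤ ϑ * L := by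
      rw [abs_div, abs_of_pos hU, div_le_iff₀ hU]
      linarith
    have hed : ‖e‖ < d := by
      refine lt_of_le_of_lt hne ?_
      have : |(y - T) / U| * R / L ≤ ϑ * L * R / L := by gcongr
      have e4 : ϑ * L * R / L = ϑ * R := by field_simp
      linarith
    set u : ℂ := (s - 1) / (I * T) with hu
    have hTc : I * (T : ℂ) ≠ 0 := mul_ne_zero Complex.I_ne_zero (Complex.ofReal_ne_zero.2 hT.ne')
    have hud : ‖u - 1‖ < d := by
      have e5 : u - 1 = (-(1 / 2 : ℝ) + z / L + ((y - T : ℝ) : ℂ) * I) / (I * T) := by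
        rw [hu, eq_div_iff hTc, sub_mul, div_mul_cancel₀ _ hTc, hs, sp, ← hLd]
        push_cast
        ring
      rw [e5, norm_div, norm_mul, Complex.norm_I, one_mul, Complex.norm_real,
        Real.norm_of_nonneg hT.le, div_lt_iff₀ hT]
      have e6 : ‖(-(1 / 2 : ℝ) : ℂ) + z / L + ((y - T : ℝ) : ℂ) * I‖ ≤ 1 / 2 + R / L + |y - T| := by
        refine (norm_add_le _ _).trans (add_le_add ((norm_add_le _ _).trans (add_le_add ?_ hzL)) ?_)
        · rw [norm_neg, Complex.norm_real, Real.norm_of_nonneg (by norm_num)]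
        · rw [norm_mul, Complex.norm_I, mul_one, Complex.norm_real, Real.norm_eq_abs]
      have hUL : U * L ≤ T := by
        have := hA.2.2
        rwa [le_div_iff₀ hL0] at this
      have e7 : |y - T| ≤ d / 4 * T := by
        calc |y - T| ≤ ϑ * (U * L) := hy
          _ ≤ ϑ * T := mul_le_mul_of_nonneg_left hUL hϑ0.le
          _ ≤ d / 4 * T := mul_le_mul_of_nonneg_right hϑd hT.le
      refine lt_of_le_of_lt e6 ?_
      have : 0 < d * T := by positivity
      linarith
    obtain ⟨hu0, hψ⟩ := hd' u e hud hed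
    have e8 : (I * T) ^ k * riemannZeta s ^ k * (sw T U y : ℂ) =
        FF k T U s * ((u⁻¹) ^ k * cexp (-e)) := by
      rw [hF, hZ, Complex.exp_neg]
      have e9 : (s - 1) ^ k * (u⁻¹) ^ k = (I * T) ^ k := by
        rw [← mul_pow]
        congr 1
        have : s - 1 ≠ 0 := sub_ne_zero.2 hs1
        rw [hu, inv_div]
        field_simp
      have e10 := Complex.exp_ne_zero e
      rw [mul_pow (s - 1) (riemannZeta s) k, ← e9]
      field_simp
    have e11 : FF k T U s - (I * T) ^ k * riemannZeta s ^ k * (sw T U y : ℂ) =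
        FF k T U s * (1 - (u⁻¹) ^ k * cexp (-e)) := by
      rw [e8]; ring
    rw [e11, norm_mul, mul_pow]
    have e12 : ‖1 - (u⁻¹) ^ k * cexp (-e)‖ ^ 2 ≤ ε := by
      have := pow_le_pow_left₀ (norm_nonneg _) hψ 2
      rwa [Real.sq_sqrt hε.le] at this
    have p8 := mul_le_mul_of_nonneg_left e12 (sq_nonneg ‖FF k T U s‖)
    have p9 : 0 ≤ ε * (T ^ (2 * k) * aw (2 * (2 * k)) T U y) := by positivity
    linarith
  · -- the rest
    push Not at hy
    set X := |(y - T) / U| with hXd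
    have hX0 : 0 ≤ X := abs_nonneg _
    have hX : ϑ * L ≤ X := by
      rw [hXd, abs_div, abs_of_pos hU, le_div_iff₀ hU]
      linarith
    have habs : 1 + |y + (z / (L : ℂ)).im| ≤ 2 * (1 + |y|) := by
      have q1 := abs_add_le y (z / (L : ℂ)).im
      have q2 : |(z / (L : ℂ)).im| ≤ 1 / 4 := by
        rw [abs_le]
        constructor <;> linarith [him.1, him.2]
      linarith [abs_nonneg y]
    have hZb : ‖Z1 s‖ ≤ 180 * (1 + |y|) ^ 2 := by
      have q1 := Z1_growth (x := 1 / 2 + (z / (L : ℂ)).re) (y := y + (z / (L : ℂ)).im)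
        (by linarith) (by linarith)
      rw [← hs'] at q1
      have q2 := pow_le_pow_left₀ (by positivity) habs 2
      nlinarith
    have hζb : ‖riemannZeta s‖ ≤ 720 * (1 + |y|) ^ 2 := by
      have q1 : 1 / 4 ≤ ‖s - 1‖ := by
        have q2 := Complex.abs_re_le_norm (s - 1)
        have q3 : (s - 1).re = (z / (L : ℂ)).re - 1 / 2 := by
          rw [hs']
          simp
          ring
        rw [q3, abs_of_nonpos (by linarith)] at q2
        linarith
      have q4 := mul_le_mul_of_nonneg_right q1 (norm_nonneg (riemannZeta s))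
      rw [← norm_mul, ← hZ] at q4
      linarith
    have hexp : ‖cexp e‖ ≤ Real.exp (X * R + R) := by
      refine (Complex.norm_exp_le_exp_norm e).trans (Real.exp_le_exp.2 (hne.trans ?_))
      apply add_le_add
      · rw [div_le_iff₀ hL0]
        have : 0 ≤ X * R := by positivity
        nlinarith
      · rw [div_le_iff₀ hL0]
        nlinarith
    set E := Real.exp (-((ϑ / 2 * L) ^ 2 / 2)) with hE
    set Y := Real.exp (-(((y - T) / U) ^ 2 / 2)) with hY
    have hXsq : ((y - T) / U) ^ 2 = X ^ 2 := (sq_abs _).symm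
    -- bound for the weight times the factor
    have hw1 : wt T U y * Real.exp (X * R + R) ^ 2 ≤ Real.exp (5 * R ^ 2 + 2 * R) * (E * Y) := by
      rw [wt, hE, hY, ← Real.exp_nat_mul, ← Real.exp_add, ← Real.exp_add, ← Real.exp_add, hXsq]
      apply Real.exp_le_exp.2
      have q1 : (ϑ * L) ^ 2 ≤ X ^ 2 := pow_le_pow_left₀ (by positivity) hX 2
      push_cast
      nlinarith [sq_nonneg (3 * X - 8 * R), sq_nonneg R]
    have hw0 := wt_pos T U y
    have hexp1 : 1 ≤ Real.exp (X * R + R) ^ 2 := one_le_pow₀ (Real.one_le_exp (by positivity))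
    have hTk : 1 ≤ T ^ (2 * k) := one_le_pow₀ hT1
    set Q := 720 ^ (2 * k) * (1 + |y|) ^ (2 * (2 * k)) with hQ
    have hQ0 : 0 ≤ Q := by positivity
    have c1 : ‖FF k T U s‖ ^ 2 ≤ Q * (wt T U y * Real.exp (X * R + R) ^ 2) := by
      rw [hF, norm_mul, norm_mul, norm_pow, Complex.norm_real, Real.norm_of_nonneg (sw_pos _ _ _).le,
        mul_pow, mul_pow, sw_sq, ← pow_mul, mul_comm k 2]
      apply mul_le_mul _ _ (by positivity) hQ0
      · calc ‖Z1 s‖ ^ (2 * k) ≤ (720 * (1 + |y|) ^ 2) ^ (2 * k) := by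
              apply pow_le_pow_left₀ (norm_nonneg _)
              have : 0 ≤ (1 + |y|) ^ 2 := by positivity
              linarith
          _ = Q := by rw [hQ, mul_pow, ← pow_mul]
      · apply mul_le_mul_of_nonneg_left _ hw0.le
        exact pow_le_pow_left₀ (norm_nonneg _) hexp 2
    have c2 : ‖(I * T) ^ k * riemannZeta s ^ k * (sw T U y : ℂ)‖ ^ 2 ≤
        T ^ (2 * k) * (Q * (wt T U y * Real.exp (X * R + R) ^ 2)) := by
      rw [norm_mul, norm_mul, norm_pow, norm_pow, norm_mul, Complex.norm_I, one_mul,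
        Complex.norm_real, Complex.norm_real, Real.norm_of_nonneg (sw_pos _ _ _).le,
        Real.norm_of_nonneg hT.le, mul_pow, mul_pow, sw_sq, ← pow_mul, ← pow_mul, mul_comm k 2,
        mul_assoc]
      apply mul_le_mul_of_nonneg_left _ (by positivity)
      apply mul_le_mul _ _ hw0.le hQ0
      · calc ‖riemannZeta s‖ ^ (2 * k) ≤ (720 * (1 + |y|) ^ 2) ^ (2 * k) :=
              pow_le_pow_left₀ (norm_nonneg _) hζb _
          _ = Q := by rw [hQ, mul_pow, ← pow_mul]
      · exact le_mul_of_one_le_right hw0.le hexp1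
    have c3 : Q * (wt T U y * Real.exp (X * R + R) ^ 2) ≤ 720 ^ (2 * k) *
        Real.exp (5 * R ^ 2 + 2 * R) * ((1 + T) ^ (2 * (2 * k)) * E) * aw (2 * (2 * k)) T U y := by
      have d1 := abs_le_scaled hU hT.le hA.le y
      have d2 : (1 + |y|) ^ (2 * (2 * k)) ≤ ((1 + T) * (1 + |(y - T) / U|)) ^ (2 * (2 * k)) :=
        pow_le_pow_left₀ (by positivity) d1 _
      rw [mul_pow] at d2
      calc Q * (wt T U y * Real.exp (X * R + R) ^ 2)
          ≤ (720 ^ (2 * k) * ((1 + T) ^ (2 * (2 * k)) * (1 + |(y - T) / U|) ^ (2 * (2 * k)))) *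
            (Real.exp (5 * R ^ 2 + 2 * R) * (E * Y)) := by
            apply mul_le_mul _ hw1 (by positivity) (by positivity)
            rw [hQ]
            gcongr
        _ = _ := by
            unfold aw
            ring
    have c4 : ‖FF k T U s - (I * T) ^ k * riemannZeta s ^ k * (sw T U y : ℂ)‖ ^ 2 ≤
        2 * (‖FF k T U s‖ ^ 2 + ‖(I * T) ^ k * riemannZeta s ^ k * (sw T U y : ℂ)‖ ^ 2) := by
      have d1 := norm_sub_le (FF k T U s) ((I * T) ^ k * riemannZeta s ^ k * (sw T U y : ℂ))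
      have d2 := pow_le_pow_left₀ (norm_nonneg _) d1 2
      nlinarith [sq_nonneg (‖FF k T U s‖ - ‖(I * T) ^ k * riemannZeta s ^ k * (sw T U y : ℂ)‖)]
    have c5 : 0 ≤ Q * (wt T U y * Real.exp (X * R + R) ^ 2) := by positivity
    have c6 : 4 * (T ^ (2 * k) * (Q * (wt T U y * Real.exp (X * R + R) ^ 2))) ≤
        ε * (T ^ (2 * k) * aw (2 * (2 * k)) T U y) := by
      have d1 : 0 ≤ T ^ (2 * k) * aw (2 * (2 * k)) T U y := by positivity
      have d2 := mul_le_mul_of_nonneg_right h1.le d1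
      have d3 := mul_le_mul_of_nonneg_left c3 (show 0 ≤ 4 * T ^ (2 * k) by positivity)
      calc _ = 4 * T ^ (2 * k) * (Q * (wt T U y * Real.exp (X * R + R) ^ 2)) := by ring
        _ ≤ _ := d3
        _ = 4 * 720 ^ (2 * k) * Real.exp (5 * R ^ 2 + 2 * R) *
            ((1 + T) ^ (2 * (2 * k)) * E) * (T ^ (2 * k) * aw (2 * (2 * k)) T U y) := by ring
        _ ≤ _ := d2
    have c7 : Q * (wt T U y * Real.exp (X * R + R) ^ 2) ≤
        T ^ (2 * k) * (Q * (wt T U y * Real.exp (X * R + R) ^ 2)) := le_mul_of_one_le_left c5 hTk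
    have c8 : 0 ≤ ε * ‖FF k T U s‖ ^ 2 := by positivity
    linarith

end

end U345Z
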