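import Mathlib

set_option autoImplicit false

/-!
# Cauchy's formula in the mean square
-/

open MeasureTheory Filter Topology Complex

namespace U345Z

noncomputable section

theorem sq_integral_le {g : ℝ → ℝ} (hg : Continuous g) :
    (∫ θ in (0 : ℝ)..(2 * Real.pi), g θ) ^ 2 ≤
      2 * Real.pi * ∫ θ in (0 : ℝ)..(2 * Real.pi), g θ ^ 2 := by
  have hpi := Real.pi_pos
  set A := ∫ θ in (0 : ℝ)..(2 * Real.pi), g θ with hA
  set B := ∫ θ in (0 : ℝ)..(2 * Real.pi), g θ ^ 2 with hB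
  set t := A / (2 * Real.pi) with ht
  have i1 : IntervalIntegrable g volume 0 (2 * Real.pi) := hg.intervalIntegrable _ _
  have i2 : IntervalIntegrable (fun θ => g θ ^ 2) volume 0 (2 * Real.pi) :=
    (hg.pow 2).intervalIntegrable _ _
  have i3 : IntervalIntegrable (fun _ : ℝ => t ^ 2) volume 0 (2 * Real.pi) := intervalIntegrable_const
  have h0 : 0 ≤ ∫ θ in (0 : ℝ)..(2 * Real.pi), (g θ - t) ^ 2 :=
    intervalIntegral.integral_nonneg (by positivity) fun θ _ => by positivity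
  have h1 : ∫ θ in (0 : ℝ)..(2 * Real.pi), (g θ - t) ^ 2 = B - 2 * t * A + 2 * Real.pi * t ^ 2 := by
    have e : ∀ θ, (g θ - t) ^ 2 = (g θ ^ 2 - 2 * t * g θ) + t ^ 2 := fun θ => by ring
    simp_rw [e]
    rw [intervalIntegral.integral_add (i2.sub (i1.const_mul _)) i3,
      intervalIntegral.integral_sub i2 (i1.const_mul _), intervalIntegral.integral_const_mul,
      intervalIntegral.integral_const, smul_eq_mul, sub_zero]
  rw [h1] at h0
  have h2 : 2 * t * A = A ^ 2 / Real.pi := by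
    rw [ht]
    field_simp
  have h3 : 2 * Real.pi * t ^ 2 = A ^ 2 / (2 * Real.pi) := by
    rw [ht]
    field_simp
  rw [h2, h3] at h0
  have h4 : A ^ 2 / Real.pi - A ^ 2 / (2 * Real.pi) = A ^ 2 / (2 * Real.pi) := by
    field_simp
    ring
  have h5 : A ^ 2 / (2 * Real.pi) ≤ B := by linarith
  rw [div_le_iff₀ (by positivity)] at h5
  linarith

/-- Cauchy's formula in the mean square over a circle. -/
theorem cauchy_sq {f : ℂ → ℂ} {c : ℂ} {r : ℝ} (hr : 0 < r)
    (hf : DifferentiableOn ℂ f (Metric.closedBall c r)) (m : ℕ) :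
    ‖iteratedDeriv m f c‖ ^ 2 ≤ (m.factorial / r ^ m) ^ 2 *
      ((2 * Real.pi)⁻¹ * ∫ θ in (0 : ℝ)..(2 * Real.pi), ‖f (circleMap c r θ)‖ ^ 2) := by
  have hpi := Real.pi_pos
  have h := hf.circleIntegral_one_div_sub_center_pow_smul hr m
  have hcont : Continuous (fun θ : ℝ => f (circleMap c r θ)) := by
    refine hf.continuousOn.comp_continuous (continuous_circleMap c r) fun θ => ?_
    exact circleMap_mem_closedBall c hr.le θ
  have hn : ‖∮ z in C(c, r), (1 / (z - c) ^ (m + 1)) • f z‖ ≤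
      (r ^ m)⁻¹ * ∫ θ in (0 : ℝ)..(2 * Real.pi), ‖f (circleMap c r θ)‖ := by
    unfold circleIntegral
    refine (intervalIntegral.norm_integral_le_integral_norm (by positivity)).trans (le_of_eq ?_)
    rw [← intervalIntegral.integral_const_mul]
    apply intervalIntegral.integral_congr
    intro θ _
    beta_reduce
    rw [norm_smul, norm_smul, deriv_circleMap, norm_mul, Complex.norm_I, mul_one, norm_div,
      norm_one, norm_pow, circleMap_sub_center, circleMap_zero, norm_mul, Complex.norm_exp_ofReal_mul_I,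
      mul_one, Complex.norm_real, Real.norm_of_nonneg hr.le]
    field_simp
    ring
  rw [h, norm_smul] at hn
  have e1 : ‖2 * (Real.pi : ℂ) * I / (m.factorial : ℂ)‖ = 2 * Real.pi / m.factorial := by
    rw [norm_div, norm_mul, norm_mul, Complex.norm_I, mul_one, Complex.norm_real,
      Real.norm_of_nonneg hpi.le, Complex.norm_natCast]
    norm_num
  rw [e1] at hn
  set A := ∫ θ in (0 : ℝ)..(2 * Real.pi), ‖f (circleMap c r θ)‖ with hA
  have hm : (0 : ℝ) < m.factorial := by exact_mod_cast Nat.factorial_pos m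
  have h2 : ‖iteratedDeriv m f c‖ ≤ (m.factorial / r ^ m) * ((2 * Real.pi)⁻¹ * A) := by
    have h3 := mul_le_mul_of_nonneg_left hn (show 0 ≤ m.factorial / (2 * Real.pi) by positivity)
    have e2 : m.factorial / (2 * Real.pi) * (2 * Real.pi / m.factorial * ‖iteratedDeriv m f c‖) =
        ‖iteratedDeriv m f c‖ := by field_simp
    rw [e2] at h3
    refine h3.trans (le_of_eq ?_)
    field_simp
  have h4 := pow_le_pow_left₀ (norm_nonneg _) h2 2
  refine h4.trans ?_
  rw [mul_pow]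
  apply mul_le_mul_of_nonneg_left _ (by positivity)
  have h5 := sq_integral_le (g := fun θ => ‖f (circleMap c r θ)‖) hcont.norm
  rw [← hA] at h5
  have h6 := mul_le_mul_of_nonneg_left h5 (show 0 ≤ ((2 * Real.pi)⁻¹) ^ 2 by positivity)
  rw [mul_pow]
  refine h6.trans (le_of_eq ?_)
  field_simp

/-- Cauchy's formula in the mean square for families. -/
theorem cauchy_mean {G : ℝ → ℂ → ℂ} {s : ℝ → ℂ} {r : ℝ} (hr : 0 < r)
    (hG : ∀ y, DifferentiableOn ℂ (G y) (Metric.closedBall (s y) r))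
    (hc : Continuous (fun p : ℝ × ℝ => G p.1 (circleMap (s p.1) r p.2)))
    {K : ENNReal} (hK : ∀ θ : ℝ, ∫⁻ y, ENNReal.ofReal (‖G y (circleMap (s y) r θ)‖ ^ 2) ≤ K) (m : ℕ) :
    ∫⁻ y, ENNReal.ofReal (‖iteratedDeriv m (G y) (s y)‖ ^ 2) ≤
      ENNReal.ofReal ((m.factorial / r ^ m) ^ 2) * K := by
  have hpi := Real.pi_pos
  have h1 : ∀ y, ENNReal.ofReal (‖iteratedDeriv m (G y) (s y)‖ ^ 2) ≤
      ENNReal.ofReal ((m.factorial / r ^ m) ^ 2 * (2 * Real.pi)⁻¹) *
        ∫⁻ θ in Set.Ioc 0 (2 * Real.pi), ENNReal.ofReal (‖G y (circleMap (s y) r θ)‖ ^ 2) := by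
    intro y
    have hcy : Continuous (fun θ : ℝ => G y (circleMap (s y) r θ)) := by
      have : Continuous (fun θ : ℝ => ((y, θ) : ℝ × ℝ)) := by fun_prop
      exact hc.comp this
    have h2 := cauchy_sq hr (hG y) m
    rw [intervalIntegral.integral_of_le (by positivity)] at h2
    have i1 : IntegrableOn (fun θ => ‖G y (circleMap (s y) r θ)‖ ^ 2) (Set.Ioc 0 (2 * Real.pi)) :=
      (hcy.norm.pow 2).integrableOn_Ioc
    rw [← ofReal_integral_eq_lintegral_ofReal i1 (Eventually.of_forall fun θ => by positivity),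
      ← ENNReal.ofReal_mul (by positivity)]
    apply ENNReal.ofReal_le_ofReal
    rw [mul_assoc]
    exact h2
  calc ∫⁻ y, ENNReal.ofReal (‖iteratedDeriv m (G y) (s y)‖ ^ 2)
      ≤ ∫⁻ y, ENNReal.ofReal ((m.factorial / r ^ m) ^ 2 * (2 * Real.pi)⁻¹) *
        ∫⁻ θ in Set.Ioc 0 (2 * Real.pi), ENNReal.ofReal (‖G y (circleMap (s y) r θ)‖ ^ 2) :=
        lintegral_mono h1
    _ = ENNReal.ofReal ((m.factorial / r ^ m) ^ 2 * (2 * Real.pi)⁻¹) *
        ∫⁻ y, ∫⁻ θ in Set.Ioc 0 (2 * Real.pi), ENNReal.ofReal (‖G y (circleMap (s y) r θ)‖ ^ 2) :=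
        lintegral_const_mul' _ _ ENNReal.ofReal_ne_top
    _ = ENNReal.ofReal ((m.factorial / r ^ m) ^ 2 * (2 * Real.pi)⁻¹) *
        ∫⁻ θ in Set.Ioc 0 (2 * Real.pi), ∫⁻ y, ENNReal.ofReal (‖G y (circleMap (s y) r θ)‖ ^ 2) := by
        rw [lintegral_lintegral_swap]
        exact (ENNReal.continuous_ofReal.comp (hc.norm.pow 2)).aemeasurable
    _ ≤ ENNReal.ofReal ((m.factorial / r ^ m) ^ 2 * (2 * Real.pi)⁻¹) *
        ∫⁻ _θ in Set.Ioc 0 (2 * Real.pi), K := by
        gcongr
        exact hK _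
    _ = ENNReal.ofReal ((m.factorial / r ^ m) ^ 2) * K := by
        rw [setLIntegral_const, Real.volume_Ioc, sub_zero, mul_comm K, ← mul_assoc,
          ← ENNReal.ofReal_mul (by positivity)]
        congr 2
        field_simp

end

end U345Z
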