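import Pool.Agent.U345.ZF
import Pool.Agent.U345.ZG

set_option autoImplicit false

/-!
# Derivatives and complex shifts: comparison in the mean square
-/

open MeasureTheory Filter Topology Complex FourierTransform ComplexConjugate

namespace U345Z

open Q97.MM

noncomputable section

variable (k : ℕ)

theorem VI_mid {T U : ℝ} (hA : Adm T U) {R a : ℝ} (ha : |a| ≤ R) (hR : R / Real.log T < 1 / 4) :
    VI (FF k T U) (1 / 2 + a / Real.log T) ≤
      VI (FF k T U) (1 / 2 + R / Real.log T) + VI (FF k T U) (1 / 2 + -R / Real.log T) := by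
  have hL := hA.log
  have hL0 : 0 < Real.log T := by linarith
  have hR0 : 0 ≤ R := (abs_nonneg a).trans ha
  have ha' := abs_le.1 ha
  obtain ⟨M, δ, hM, hδ, hbd⟩ := FF_bd k T hA.pos
  have hdiff := FF_differentiable k T U
  have hq : ∀ b : ℝ, |b| ≤ R → |b / Real.log T| < 1 / 4 := by
    intro b hb
    rw [abs_div, abs_of_pos hL0]
    exact lt_of_le_of_lt (div_le_div_of_nonneg_right hb hL0.le) hR
  have h1 := abs_lt.1 (hq a ha)
  have h2 := abs_lt.1 (hq R (by rw [abs_of_nonneg hR0]))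
  have h3 := abs_lt.1 (hq (-R) (by rw [abs_neg, abs_of_nonneg hR0]))
  have r0 := rep (c := 1 / 2) (x := 1 / 2 + a / Real.log T) hdiff hδ hM hbd (by norm_num)
    (by norm_num) (by linarith) (by linarith)
  have r1 := rep (c := 1 / 2) (x := 1 / 2 + R / Real.log T) hdiff hδ hM hbd (by norm_num)
    (by norm_num) (by linarith) (by linarith)
  have r2 := rep (c := 1 / 2) (x := 1 / 2 + -R / Real.log T) hdiff hδ hM hbd (by norm_num)
    (by norm_num) (by linarith) (by linarith)
  rw [← r0.2, ← r1.2, ← r2.2, ← integral_add r1.1 r2.1]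
  apply integral_mono r0.1 (r1.1.add r2.1)
  intro ξ
  have hd := dens_nonneg (FF k T U) (1 / 2) ξ
  show _ ≤ Real.exp (4 * Real.pi * ξ * (1 / 2 + R / Real.log T - 1 / 2)) * dens (FF k T U) (1 / 2) ξ +
    Real.exp (4 * Real.pi * ξ * (1 / 2 + -R / Real.log T - 1 / 2)) * dens (FF k T U) (1 / 2) ξ
  rw [← add_mul]
  apply mul_le_mul_of_nonneg_right _ hd
  set v := 4 * Real.pi * ξ / Real.log T with hv
  have e0 : 4 * Real.pi * ξ * (1 / 2 + a / Real.log T - 1 / 2) = v * a := by rw [hv]; ring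
  have e1 : 4 * Real.pi * ξ * (1 / 2 + R / Real.log T - 1 / 2) = v * R := by rw [hv]; ring
  have e2 : 4 * Real.pi * ξ * (1 / 2 + -R / Real.log T - 1 / 2) = v * -R := by rw [hv]; ring
  rw [e0, e1, e2]
  rcases le_total 0 v with h0 | h0
  · have : Real.exp (v * a) ≤ Real.exp (v * R) :=
      Real.exp_le_exp.2 (mul_le_mul_of_nonneg_left ha'.2 h0)
    have := Real.exp_pos (v * -R)
    linarith
  · have : Real.exp (v * a) ≤ Real.exp (v * -R) := by
      apply Real.exp_le_exp.2
      nlinarith [ha'.1]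
    have := Real.exp_pos (v * R)
    linarith

/-- `FF` at the shifted points. -/
theorem FF_sp_mean {T U : ℝ} (hA : Adm T U) {z : ℂ} (hz : ‖z‖ / Real.log T < 1 / 4) :
    Integrable (fun y => ‖FF k T U (sp T z y)‖ ^ 2) ∧
    ∫ y, ‖FF k T U (sp T z y)‖ ^ 2 = VI (FF k T U) (1 / 2 + z.re / Real.log T) := by
  have hL := hA.log
  have hL0 : 0 < Real.log T := by linarith
  obtain ⟨M, δ, hM, hδ, hbd⟩ := FF_bd k T hA.pos
  have hdiff := FF_differentiable k T U
  have hre : (z / (Real.log T : ℂ)).re = z.re / Real.log T := Complex.div_ofReal_re z _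
  have h1 : |(z / (Real.log T : ℂ)).re| < 1 / 4 := by
    refine lt_of_le_of_lt (Complex.abs_re_le_norm _) ?_
    rw [norm_div, Complex.norm_real, Real.norm_of_nonneg hL0.le]
    exact hz
  have h2 := abs_lt.1 h1
  have e1 : ∀ y, FF k T U (sp T z y) =
      ln (FF k T U) (1 / 2 + (z / (Real.log T : ℂ)).re) (y + (z / (Real.log T : ℂ)).im) :=
    fun y => tl_eq (FF k T U) (1 / 2) (z / Real.log T) y
  have i1 := ln_sq_integrable hdiff hδ hbd (x := 1 / 2 + (z / (Real.log T : ℂ)).re) (by linarith)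
    (by linarith)
  simp_rw [e1]
  refine ⟨i1.comp_add_right _, ?_⟩
  have := integral_add_right_eq_self (μ := (volume : Measure ℝ))
    (fun y => ‖ln (FF k T U) (1 / 2 + (z / (Real.log T : ℂ)).re) y‖ ^ 2) (z / (Real.log T : ℂ)).im
  rw [this, hre]
  rfl

/-- The comparison in the mean square. -/
theorem cmp_L2 {R ε : ℝ} (hR : 0 ≤ R) (hε : 0 < ε) : ∀ᶠ T : ℝ in atTop, ∀ U : ℝ, Adm T U →
    ∀ z : ℂ, ‖z‖ ≤ R →
    ∫⁻ y, ENNReal.ofReal (‖FF k T U (sp T z y) -
      (I * T) ^ k * riemannZeta (sp T z y) ^ k * (sw T U y : ℂ)‖ ^ 2) ≤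
      ENNReal.ofReal (ε * V0 k T U) := by
  obtain ⟨C1, hC1, hC1'⟩ := G_bdd k R
  obtain ⟨C2, hC2, hC2'⟩ := G_bdd k (-R)
  obtain ⟨c₀, hc₀, hc₀'⟩ := V0_lower k
  have hK := KK_nonneg (2 * (2 * k))
  set D := C1 + C2 + KK (2 * (2 * k)) / c₀ with hD
  have hD0 : 0 < D := by positivity
  have hRL : Tendsto (fun T : ℝ => R / Real.log T) atTop (𝓝 0) :=
    Real.tendsto_log_atTop.const_div_atTop _
  filter_upwards [pt_cmp2 k hR (show 0 < ε / D by positivity), hC1', hC2',
    hRL.eventually (gt_mem_nhds (show (0 : ℝ) < 1 / 4 by norm_num))] with T h1 h2 h3 h4 U hA z hz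
  have hL := hA.log
  have hL0 : 0 < Real.log T := by linarith
  have hT : 0 < T := by linarith [hA.1]
  have hV0 := V0_pos k hA
  have hU := hA.pos
  obtain ⟨j1, j2⟩ := FF_sp_mean k hA (z := z)
    (lt_of_le_of_lt (div_le_div_of_nonneg_right hz hL0.le) h4)
  have ji : Integrable (fun y => ε / D * ‖FF k T U (sp T z y)‖ ^ 2 +
      ε / D * (T ^ (2 * k) * aw (2 * (2 * k)) T U y)) :=
    (j1.const_mul _).add (((aw_integrable _ T hU).const_mul _).const_mul _)
  have e1 : ∫ y, (ε / D * ‖FF k T U (sp T z y)‖ ^ 2 +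
      ε / D * (T ^ (2 * k) * aw (2 * (2 * k)) T U y)) =
      ε / D * (VI (FF k T U) (1 / 2 + z.re / Real.log T) +
        T ^ (2 * k) * (U * KK (2 * (2 * k)))) := by
    rw [integral_add (j1.const_mul _) (((aw_integrable _ T hU).const_mul _).const_mul _),
      integral_const_mul, integral_const_mul, integral_const_mul, j2, aw_integral _ T hU]
    ring
  calc _ ≤ ∫⁻ y, ENNReal.ofReal (ε / D * ‖FF k T U (sp T z y)‖ ^ 2 +
      ε / D * (T ^ (2 * k) * aw (2 * (2 * k)) T U y)) :=
        lintegral_mono fun y => ENNReal.ofReal_le_ofReal (h1 U hA z hz y)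
    _ = ENNReal.ofReal (ε / D * (VI (FF k T U) (1 / 2 + z.re / Real.log T) +
        T ^ (2 * k) * (U * KK (2 * (2 * k))))) := by
        rw [← e1, ofReal_integral_eq_lintegral_ofReal ji]
        filter_upwards with y
        have := aw_nonneg (2 * (2 * k)) T U y
        positivity
    _ ≤ _ := by
        apply ENNReal.ofReal_le_ofReal
        have g1 := VI_mid k hA (a := z.re) (R := R) ((Complex.abs_re_le_norm z).trans hz) h4
        have g2 : VI (FF k T U) (1 / 2 + R / Real.log T) = Gn k T U R * V0 k T U := by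
          unfold Gn
          rw [div_mul_cancel₀ _ hV0.ne']
        have g3 : VI (FF k T U) (1 / 2 + -R / Real.log T) = Gn k T U (-R) * V0 k T U := by
          unfold Gn
          rw [div_mul_cancel₀ _ hV0.ne']
        have g4 := mul_le_mul_of_nonneg_right (h2 U hA) hV0.le
        have g5 := mul_le_mul_of_nonneg_right (h3 U hA) hV0.le
        have g6 : T ^ (2 * k) * (U * KK (2 * (2 * k))) ≤ KK (2 * (2 * k)) / c₀ * V0 k T U := by
          have := hc₀' T U hA
          have e2 : T ^ (2 * k) * (U * KK (2 * (2 * k))) =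
              KK (2 * (2 * k)) / c₀ * (c₀ * (T ^ (2 * k) * U)) := by field_simp
          rw [e2]
          exact mul_le_mul_of_nonneg_left this (by positivity)
        have g7 : VI (FF k T U) (1 / 2 + z.re / Real.log T) +
            T ^ (2 * k) * (U * KK (2 * (2 * k))) ≤ D * V0 k T U := by
          rw [hD]
          linarith
        calc _ ≤ ε / D * (D * V0 k T U) := mul_le_mul_of_nonneg_left g7 (by positivity)
          _ = _ := by field_simp

/-- the power of zeta -/
def zk (s : ℂ) : ℂ := riemannZeta s ^ k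

theorem zk_diff {s : ℂ} (hs : s ≠ 1) : DifferentiableAt ℂ (zk k) s :=
  (differentiableAt_riemannZeta hs).pow k

theorem zk_an {s : ℂ} (hs : s ≠ 1) : AnalyticAt ℂ (zk k) s := by
  apply DifferentiableOn.analyticAt (s := {1}ᶜ)
  · intro w hw
    exact (zk_diff k hw).differentiableWithinAt
  · exact isOpen_ne.mem_nhds hs

theorem sp_re {T : ℝ} {z : ℂ} (hL : 0 < Real.log T) (hz : ‖z‖ / Real.log T < 1 / 4) (y : ℝ) :
    |(sp T z y).re - 1 / 2| < 1 / 4 := by
  have h1 : (sp T z y).re - 1 / 2 = (z / (Real.log T : ℂ)).re := by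
    unfold sp
    simp
  rw [h1]
  refine lt_of_le_of_lt (Complex.abs_re_le_norm _) ?_
  rw [norm_div, Complex.norm_real, Real.norm_of_nonneg hL.le]
  exact hz

theorem sp_circle {T : ℝ} (z : ℂ) (y θ : ℝ) :
    circleMap (sp T z y) (1 / Real.log T) θ = sp T (z + cexp (θ * I)) y := by
  unfold circleMap sp
  push_cast
  ring

theorem cmp_iter (m : ℕ) {R ε : ℝ} (hR : 0 ≤ R) (hε : 0 < ε) : ∀ᶠ T : ℝ in atTop,
    ∀ U : ℝ, Adm T U → ∀ z : ℂ, ‖z‖ ≤ R →
    ∫⁻ y, ENNReal.ofReal (‖iteratedDeriv m (FF k T U) (sp T z y) -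
      (I * T) ^ k * (sw T U y : ℂ) * iteratedDeriv m (zk k) (sp T z y)‖ ^ 2) ≤
      ENNReal.ofReal (Real.log T ^ (2 * m) * (ε * V0 k T U)) := by
  have hm : (0 : ℝ) < m.factorial := by exact_mod_cast Nat.factorial_pos m
  set ε' := ε / (m.factorial : ℝ) ^ 2 with hε'
  have hε'0 : 0 < ε' := by positivity
  have hRL : Tendsto (fun T : ℝ => (R + 1) / Real.log T) atTop (𝓝 0) :=
    Real.tendsto_log_atTop.const_div_atTop _
  filter_upwards [cmp_L2 k (R := R + 1) (by linarith) hε'0,
    hRL.eventually (gt_mem_nhds (show (0 : ℝ) < 1 / 4 by norm_num))] with T h1 h2 U hA z hz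
  have hL := hA.log
  have hL0 : 0 < Real.log T := by linarith
  have hV0 := V0_pos k hA
  set L := Real.log T with hLd
  have hzR : ∀ θ : ℝ, ‖z + cexp (θ * I)‖ ≤ R + 1 := by
    intro θ
    refine (norm_add_le _ _).trans (add_le_add hz ?_)
    rw [Complex.norm_exp_ofReal_mul_I]
  have hz1 : ‖z‖ / L < 1 / 4 :=
    lt_of_le_of_lt (div_le_div_of_nonneg_right (by linarith) hL0.le) h2
  have hzθ : ∀ θ : ℝ, ‖z + cexp (θ * I)‖ / L < 1 / 4 := fun θ =>
    lt_of_le_of_lt (div_le_div_of_nonneg_right (hzR θ) hL0.le) h2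
  have hne : ∀ {w : ℂ}, ‖w‖ / L < 1 / 4 → ∀ y : ℝ, sp T w y ≠ 1 := by
    intro w hw y h0
    have := abs_lt.1 (sp_re (T := T) hL0 hw y)
    rw [h0] at this
    norm_num at this
  set G : ℝ → ℂ → ℂ := fun y s => FF k T U s - (I * T) ^ k * (sw T U y : ℂ) * zk k s with hG
  -- the closed ball
  have hball : ∀ y : ℝ, ∀ s ∈ Metric.closedBall (sp T z y) (1 / L), s ≠ 1 := by
    intro y s hs h0
    rw [h0, Metric.mem_closedBall, dist_eq_norm] at hs
    have a1 := abs_lt.1 (sp_re (T := T) hL0 hz1 y)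
    have a2 := Complex.abs_re_le_norm (1 - sp T z y)
    have a3 : (1 - sp T z y).re = 1 - (sp T z y).re := by simp
    rw [a3] at a2
    have a4 := (le_abs_self _).trans (a2.trans hs)
    have a5 : 1 / L ≤ (R + 1) / L := div_le_div_of_nonneg_right (by linarith) hL0.le
    linarith
  have hdG : ∀ y, DifferentiableOn ℂ (G y) (Metric.closedBall (sp T z y) (1 / L)) := by
    intro y s hs
    exact ((FF_differentiable k T U s).sub ((zk_diff k (hball y s hs)).const_mul _)).differentiableWithinAt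
  have hcG : Continuous (fun p : ℝ × ℝ => G p.1 (circleMap (sp T z p.1) (1 / L) p.2)) := by
    have e1 : (fun p : ℝ × ℝ => G p.1 (circleMap (sp T z p.1) (1 / L) p.2)) =
        fun p : ℝ × ℝ => FF k T U (sp T (z + cexp (p.2 * I)) p.1) -
          (I * T) ^ k * (sw T U p.1 : ℂ) *
            (Z1 (sp T (z + cexp (p.2 * I)) p.1) / (sp T (z + cexp (p.2 * I)) p.1 - 1)) ^ k := by
      funext p
      rw [hG]
      beta_reduce
      rw [hLd, sp_circle, zk]
      have hn := hne (hzθ p.2) p.1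
      rw [Z1_of_ne hn, mul_div_cancel_left₀ _ (sub_ne_zero.2 hn)]
    rw [e1]
    have c1 : Continuous (fun p : ℝ × ℝ => sp T (z + cexp (p.2 * I)) p.1) := by
      unfold sp
      fun_prop
    have c2 := (FF_differentiable k T U).continuous.comp c1
    have c3 := Z1_differentiable.continuous.comp c1
    have c4 : Continuous (fun p : ℝ × ℝ => Z1 (sp T (z + cexp (p.2 * I)) p.1) /
        (sp T (z + cexp (p.2 * I)) p.1 - 1)) :=
      c3.div (c1.sub continuous_const) fun p => sub_ne_zero.2 (hne (hzθ p.2) p.1)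
    have c5 : Continuous (fun p : ℝ × ℝ => (sw T U p.1 : ℂ)) := by
      unfold sw
      fun_prop
    exact c2.sub ((continuous_const.mul c5).mul (c4.pow k))
  have hKb : ∀ θ : ℝ, ∫⁻ y, ENNReal.ofReal (‖G y (circleMap (sp T z y) (1 / L) θ)‖ ^ 2) ≤
      ENNReal.ofReal (ε' * V0 k T U) := by
    intro θ
    have := h1 U hA (z + cexp (θ * I)) (hzR θ)
    refine le_trans (le_of_eq ?_) this
    refine lintegral_congr fun y => ?_
    rw [hG]
    beta_reduce
    rw [hLd, sp_circle, zk]
    congr 3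
    ring
  have key := cauchy_mean (s := fun y => sp T z y) (show 0 < 1 / L by positivity) hdG hcG hKb m
  have e2 : ∀ y, iteratedDeriv m (G y) (sp T z y) = iteratedDeriv m (FF k T U) (sp T z y) -
      (I * T) ^ k * (sw T U y : ℂ) * iteratedDeriv m (zk k) (sp T z y) := by
    intro y
    have hn := hne hz1 y
    have q1 : ContDiffAt ℂ m (FF k T U) (sp T z y) := (FF_differentiable k T U).contDiff.contDiffAt
    have q2 : ContDiffAt ℂ m (zk k) (sp T z y) := (zk_an k hn).contDiffAt
    have q3 := iteratedDeriv_sub q1 (q2.const_smul ((I * T) ^ k * (sw T U y : ℂ)))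
    have e3 : G y = FF k T U - fun s => ((I * T) ^ k * (sw T U y : ℂ)) • zk k s := rfl
    rw [e3]
    refine Eq.trans q3 ?_
    congr 1
    exact iteratedDeriv_const_mul ((I * T) ^ k * (sw T U y : ℂ)) q2
  simp_rw [e2] at key
  refine key.trans (le_of_eq ?_)
  rw [← ENNReal.ofReal_mul (by positivity)]
  congr 1
  rw [hε', pow_mul, one_div, inv_pow]
  field_simp
  ring

end

end U345Z
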