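import Pool.Agent.U345.ZH

set_option autoImplicit false

/-!
# Derivatives and complex shifts: the limits
-/

open MeasureTheory Filter Topology Complex FourierTransform ComplexConjugate

namespace U345Z

open Q97.MM

noncomputable section

theorem prod_L2 {f g : ℝ → ℂ} (f2 : MemLp f 2) (g2 : MemLp g 2) :
    Integrable (fun y => f y * conj (g y)) := by
  have hf := (memLp_two_iff_integrable_sq_norm f2.aestronglyMeasurable).mp f2
  have hg := (memLp_two_iff_integrable_sq_norm g2.aestronglyMeasurable).mp g2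
  refine (hf.add hg).mono' (f2.aestronglyMeasurable.mul
    (Complex.continuous_conj.comp_aestronglyMeasurable g2.aestronglyMeasurable))
    (Eventually.of_forall fun y => ?_)
  rw [norm_mul, RCLike.norm_conj]
  show ‖f y‖ * ‖g y‖ ≤ ‖f y‖ ^ 2 + ‖g y‖ ^ 2
  nlinarith [sq_nonneg (‖f y‖ - ‖g y‖), norm_nonneg (f y), norm_nonneg (g y)]

theorem sq_of_lint {p : ℝ → ℂ} (mp : AEStronglyMeasurable p volume) {a : ℝ} (ha : 0 ≤ a)
    (h : ∫⁻ y, ENNReal.ofReal (‖p y‖ ^ 2) ≤ ENNReal.ofReal a) :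
    MemLp p 2 ∧ ∫ y, ‖p y‖ ^ 2 ≤ a := by
  have i1 : Integrable (fun y => ‖p y‖ ^ 2) := by
    refine ⟨(mp.norm.pow 2), ?_⟩
    rw [hasFiniteIntegral_iff_ofReal (Eventually.of_forall fun y => by positivity)]
    exact h.trans_lt ENNReal.ofReal_lt_top
  refine ⟨(memLp_two_iff_integrable_sq_norm mp).2 i1, ?_⟩
  rw [integral_eq_lintegral_of_nonneg_ae (Eventually.of_forall fun y => by positivity)
    i1.aestronglyMeasurable]
  exact ENNReal.toReal_le_of_le_ofReal ha h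

theorem amgm {a b θ : ℝ} (hθ : 0 < θ) : a * b ≤ (θ⁻¹ * a ^ 2 + θ * b ^ 2) / 2 := by
  have h4 : 0 ≤ θ * (θ⁻¹ * a - b) ^ 2 := by positivity
  have h5 : θ * (θ⁻¹ * a - b) ^ 2 = θ⁻¹ * a ^ 2 + θ * b ^ 2 - 2 * (a * b) := by
    field_simp
    ring
  linarith

theorem inner_close {f g f' g' : ℝ → ℂ} (hf : MemLp f 2) (hg : MemLp g 2)
    (mf : AEStronglyMeasurable f' volume) (mg : AEStronglyMeasurable g' volume)
    {F G a b θ : ℝ} (hθ : 0 < θ) (ha0 : 0 ≤ a) (hb0 : 0 ≤ b)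
    (hF : ∫ y, ‖f y‖ ^ 2 ≤ F) (hG : ∫ y, ‖g y‖ ^ 2 ≤ G)
    (ha : ∫⁻ y, ENNReal.ofReal (‖f y - f' y‖ ^ 2) ≤ ENNReal.ofReal a)
    (hb : ∫⁻ y, ENNReal.ofReal (‖g y - g' y‖ ^ 2) ≤ ENNReal.ofReal b) :
    Integrable (fun y => f' y * conj (g' y)) ∧
    ‖(∫ y, f y * conj (g y)) - ∫ y, f' y * conj (g' y)‖ ≤
      (θ⁻¹ * (a + b) + θ * (F + G) + (a + b)) / 2 := by
  obtain ⟨p1, p2⟩ := sq_of_lint (hf.aestronglyMeasurable.sub mf) ha0 ha
  obtain ⟨q1, q2⟩ := sq_of_lint (hg.aestronglyMeasurable.sub mg) hb0 hb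
  have hf' : MemLp f' 2 := by
    have := hf.sub p1
    refine this.ae_eq (Eventually.of_forall fun y => ?_)
    show f y - (f y - f' y) = f' y
    ring
  have hg' : MemLp g' 2 := by
    have := hg.sub q1
    refine this.ae_eq (Eventually.of_forall fun y => ?_)
    show g y - (g y - g' y) = g' y
    ring
  have i1 := prod_L2 hf hg
  have i2 := prod_L2 hf' hg'
  refine ⟨i2, ?_⟩
  have s1 := (memLp_two_iff_integrable_sq_norm hf.aestronglyMeasurable).mp hf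
  have s2 := (memLp_two_iff_integrable_sq_norm hg.aestronglyMeasurable).mp hg
  have s3 : Integrable (fun y => ‖f y - f' y‖ ^ 2) :=
    (memLp_two_iff_integrable_sq_norm p1.aestronglyMeasurable).mp p1
  have s4 : Integrable (fun y => ‖g y - g' y‖ ^ 2) :=
    (memLp_two_iff_integrable_sq_norm q1.aestronglyMeasurable).mp q1
  have p2' : ∫ y, ‖f y - f' y‖ ^ 2 ≤ a := p2
  have q2' : ∫ y, ‖g y - g' y‖ ^ 2 ≤ b := q2
  have hpt : ∀ y, ‖f y * conj (g y) - f' y * conj (g' y)‖ ≤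
      ((θ⁻¹ + 1) * ‖f y - f' y‖ ^ 2 + (θ⁻¹ + 1) * ‖g y - g' y‖ ^ 2) / 2 +
        (θ * ‖f y‖ ^ 2 + θ * ‖g y‖ ^ 2) / 2 := by
    intro y
    have e1 : f y * conj (g y) - f' y * conj (g' y) =
        (f y - f' y) * conj (g y) + f y * conj (g y - g' y) -
          (f y - f' y) * conj (g y - g' y) := by
      rw [map_sub]
      ring
    have n1 : ‖f y * conj (g y) - f' y * conj (g' y)‖ ≤
        ‖f y - f' y‖ * ‖g y‖ + ‖f y‖ * ‖g y - g' y‖ + ‖f y - f' y‖ * ‖g y - g' y‖ := by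
      rw [e1]
      refine (norm_sub_le _ _).trans (add_le_add ((norm_add_le _ _).trans (add_le_add ?_ ?_)) ?_)
      · rw [norm_mul, RCLike.norm_conj]
      · rw [norm_mul, RCLike.norm_conj]
      · rw [norm_mul, RCLike.norm_conj]
    have m1 := amgm (a := ‖f y - f' y‖) (b := ‖g y‖) hθ
    have m2 := amgm (a := ‖g y - g' y‖) (b := ‖f y‖) hθ
    have m3 := amgm (a := ‖f y - f' y‖) (b := ‖g y - g' y‖) one_pos
    rw [inv_one, one_mul, one_mul] at m3
    linarith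
  rw [← integral_sub i1 i2]
  have j1 : Integrable (fun y => ((θ⁻¹ + 1) * ‖f y - f' y‖ ^ 2 + (θ⁻¹ + 1) * ‖g y - g' y‖ ^ 2) / 2) :=
    ((s3.const_mul _).add (s4.const_mul _)).div_const 2
  have j2 : Integrable (fun y => (θ * ‖f y‖ ^ 2 + θ * ‖g y‖ ^ 2) / 2) :=
    ((s1.const_mul _).add (s2.const_mul _)).div_const 2
  have h1 := norm_integral_le_of_norm_le (j1.add j2) (Eventually.of_forall hpt)
  refine h1.trans ?_
  have e2 := integral_add j1 j2
  have e3 : ∫ y, ((θ⁻¹ + 1) * ‖f y - f' y‖ ^ 2 + (θ⁻¹ + 1) * ‖g y - g' y‖ ^ 2) / 2 =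
      ((θ⁻¹ + 1) * (∫ y, ‖f y - f' y‖ ^ 2) + (θ⁻¹ + 1) * ∫ y, ‖g y - g' y‖ ^ 2) / 2 := by
    rw [integral_div, integral_add (s3.const_mul _) (s4.const_mul _), integral_const_mul,
      integral_const_mul]
  have e4 : ∫ y, (θ * ‖f y‖ ^ 2 + θ * ‖g y‖ ^ 2) / 2 =
      (θ * (∫ y, ‖f y‖ ^ 2) + θ * ∫ y, ‖g y‖ ^ 2) / 2 := by
    rw [integral_div, integral_add (s1.const_mul _) (s2.const_mul _), integral_const_mul,
      integral_const_mul]
  rw [e3, e4] at e2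
  refine (le_of_eq e2).trans ?_
  have hi : 0 < θ⁻¹ := by positivity
  have b1 : (θ⁻¹ + 1) * (∫ y, ‖f y - f' y‖ ^ 2) ≤ (θ⁻¹ + 1) * a :=
    mul_le_mul_of_nonneg_left p2' (by positivity)
  have b2 : (θ⁻¹ + 1) * (∫ y, ‖g y - g' y‖ ^ 2) ≤ (θ⁻¹ + 1) * b :=
    mul_le_mul_of_nonneg_left q2' (by positivity)
  have b3 : θ * (∫ y, ‖f y‖ ^ 2) ≤ θ * F := mul_le_mul_of_nonneg_left hF hθ.le
  have b4 : θ * (∫ y, ‖g y‖ ^ 2) ≤ θ * G := mul_le_mul_of_nonneg_left hG hθ.le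
  linarith

/-! ### Moments of the spectral measures -/

theorem sf_bd (N : ℕ) (ζ : ℂ) : ∀ u : ℝ, ‖sf N ζ u‖ ≤ N.factorial *
    (Real.exp ((1 + ‖ζ‖) / 2 * u) + Real.exp (-((1 + ‖ζ‖) / 2 * u))) := by
  intro u
  unfold sf
  rw [norm_mul, norm_pow, Complex.norm_real, Complex.norm_exp, norm_neg, Real.norm_eq_abs]
  have h1 := Real.pow_div_factorial_le_exp |u / 2| (abs_nonneg _) N
  have hN : (0 : ℝ) < N.factorial := by exact_mod_cast Nat.factorial_pos N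
  rw [div_le_iff₀ hN] at h1
  have h2 : (-(ζ * u / 2)).re ≤ ‖ζ‖ * |u| / 2 := by
    have e1 : (-(ζ * u / 2)).re = -(ζ.re * u / 2) := by simp
    rw [e1]
    have h3 : -(ζ.re * u) ≤ |ζ.re * u| := neg_le_abs _
    rw [abs_mul] at h3
    have h4 := mul_le_mul_of_nonneg_right (Complex.abs_re_le_norm ζ) (abs_nonneg u)
    linarith
  have h5 : Real.exp (|u| * ((1 + ‖ζ‖) / 2)) ≤
      Real.exp ((1 + ‖ζ‖) / 2 * u) + Real.exp (-((1 + ‖ζ‖) / 2 * u)) := by
    rcases le_total 0 u with h0 | h0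
    · rw [abs_of_nonneg h0, mul_comm]
      have := Real.exp_pos (-((1 + ‖ζ‖) / 2 * u))
      linarith
    · rw [abs_of_nonpos h0]
      have e : -u * ((1 + ‖ζ‖) / 2) = -((1 + ‖ζ‖) / 2 * u) := by ring
      rw [e]
      have := Real.exp_pos ((1 + ‖ζ‖) / 2 * u)
      linarith
  calc |u / 2| ^ N * Real.exp (-(ζ * u / 2)).re
      ≤ (Real.exp |u / 2| * N.factorial) * Real.exp (‖ζ‖ * |u| / 2) := by
        apply mul_le_mul h1 (Real.exp_le_exp.2 h2) (Real.exp_pos _).le (by positivity)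
    _ = N.factorial * Real.exp (|u| * ((1 + ‖ζ‖) / 2)) := by
        rw [mul_comm (Real.exp _), mul_assoc, ← Real.exp_add]
        congr 2
        rw [abs_div, abs_of_pos (by norm_num : (0 : ℝ) < 2)]
        ring
    _ ≤ _ := mul_le_mul_of_nonneg_left h5 hN.le

variable (k : ℕ)

theorem exp_mom (a : ℝ) : ∃ C : ℝ, 0 ≤ C ∧ ∀ᶠ T : ℝ in atTop, ∀ U : ℝ, Adm T U →
    Integrable (fun u => Real.exp (-(a * u))) (nuT k T U) ∧
    ∫ u, Real.exp (-(a * u)) ∂(nuT k T U) ≤ C := by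
  obtain ⟨C, hC, hC'⟩ := G_bdd k a
  refine ⟨C, hC.le, ?_⟩
  filter_upwards [hC', (log_div_tendsto a).eventually (gt_mem_nhds (show (0 : ℝ) < 1 / 4 by norm_num))]
    with T h1 h2 U hA
  have h3 := nuT_lint k hA h2.le
  have h4 : ∫⁻ u, ENNReal.ofReal (Real.exp (-(a * u))) ∂(nuT k T U) ≤ ENNReal.ofReal C := by
    rw [h3]
    exact ENNReal.ofReal_le_ofReal (h1 U hA)
  have h5 := exp_integrable_of_lintegral h4
  refine ⟨h5, ?_⟩
  rw [integral_eq_lintegral_of_nonneg_ae (Eventually.of_forall fun u => (Real.exp_pos _).le)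
    (by fun_prop)]
  exact ENNReal.toReal_le_of_le_ofReal hC.le h4

theorem sf_mom (N : ℕ) (ζ : ℂ) : ∃ C : ℝ, 0 ≤ C ∧ ∀ᶠ T : ℝ in atTop, ∀ U : ℝ, Adm T U →
    ‖∫ u, sf N ζ u ∂(nuT k T U)‖ ≤ C := by
  set b := (1 + ‖ζ‖) / 2 with hb
  obtain ⟨C1, hC1, hC1'⟩ := exp_mom k b
  obtain ⟨C2, hC2, hC2'⟩ := exp_mom k (-b)
  refine ⟨N.factorial * (C2 + C1), by positivity, ?_⟩
  filter_upwards [hC1', hC2'] with T h1 h2 U hA
  obtain ⟨i1, j1⟩ := h1 U hA
  obtain ⟨i2, j2⟩ := h2 U hA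
  have hpt : ∀ u, ‖sf N ζ u‖ ≤ N.factorial * (Real.exp (-(-b * u)) + Real.exp (-(b * u))) := by
    intro u
    have := sf_bd N ζ u
    rwa [neg_mul, neg_neg]
  have h3 := norm_integral_le_of_norm_le ((i2.add i1).const_mul (N.factorial : ℝ))
    (Eventually.of_forall hpt)
  refine h3.trans ?_
  rw [integral_const_mul]
  apply mul_le_mul_of_nonneg_left _ (by positivity)
  have e1 := integral_add i2 i1
  refine (le_of_eq e1).trans (add_le_add j2 j1)

/-! ### The mixed means -/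

/-- normalised derivative of `FF` -/
def Af (m : ℕ) (T U : ℝ) (z : ℂ) (y : ℝ) : ℂ :=
  iteratedDeriv m (FF k T U) (sp T z y) * (((Real.log T)⁻¹ : ℝ) : ℂ) ^ m

/-- normalised derivative of the power of zeta -/
def Bf (m : ℕ) (T U : ℝ) (z : ℂ) (y : ℝ) : ℂ :=
  ((I * T) ^ k * (sw T U y : ℂ) * iteratedDeriv m (zk k) (sp T z y)) *
    (((Real.log T)⁻¹ : ℝ) : ℂ) ^ m

/-- the mixed mean of two derivatives of the power of zeta -/
def DM (m n : ℕ) (T U : ℝ) (z w : ℂ) : ℂ :=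
  ∫ y : ℝ, iteratedDeriv m (zk k) (sp T z y) * conj (iteratedDeriv n (zk k) (sp T w y)) *
    (wt T U y : ℂ)

theorem Af_corr {T U : ℝ} (hA : Adm T U) (m n : ℕ) {z w : ℂ}
    (hz : ‖z‖ / Real.log T < 1 / 4) (hw : ‖w‖ / Real.log T < 1 / 4) :
    MemLp (Af k m T U z) 2 ∧
    ∫ y, Af k m T U z y * conj (Af k n T U w y) =
      ((V0 k T U : ℝ) : ℂ) * ∫ u, sf (m + n) (z + conj w) u ∂(nuT k T U) := by
  have hL := hA.log
  have hL0 : 0 < Real.log T := by linarith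
  obtain ⟨p1, p2⟩ := corr_FF k hA m n hz hw
  have e0 : ∀ (m : ℕ) (z : ℂ) (y : ℝ), Af k m T U z y =
      tl (iteratedDeriv m (FF k T U)) (1 / 2) (z / Real.log T) y *
        (((Real.log T)⁻¹ : ℝ) : ℂ) ^ m := fun m z y => rfl
  refine ⟨?_, ?_⟩
  · have := p1.mul_const ((((Real.log T)⁻¹ : ℝ) : ℂ) ^ m)
    exact this
  · have e1 : ∀ y, Af k m T U z y * conj (Af k n T U w y) =
        (((Real.log T)⁻¹ : ℝ) : ℂ) ^ (m + n) *
        (tl (iteratedDeriv m (FF k T U)) (1 / 2) (z / Real.log T) y *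
          conj (tl (iteratedDeriv n (FF k T U)) (1 / 2) (w / Real.log T) y)) := by
      intro y
      rw [e0, e0, map_mul, map_pow, Complex.conj_ofReal, pow_add]
      ring
    simp_rw [e1]
    rw [integral_const_mul, p2]
    have hLc : ((Real.log T : ℝ) : ℂ) ≠ 0 := Complex.ofReal_ne_zero.2 hL0.ne'
    have e2 : (((Real.log T)⁻¹ : ℝ) : ℂ) ^ (m + n) * ((Real.log T : ℝ) : ℂ) ^ (m + n) = 1 := by
      rw [← mul_pow, ← Complex.ofReal_mul, inv_mul_cancel₀ hL0.ne', Complex.ofReal_one, one_pow]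
    rw [mul_assoc, ← mul_assoc _ _ (((V0 k T U : ℝ) : ℂ) * _), e2, one_mul]

theorem Bf_corr {T U : ℝ} (hT : 0 < T) (m n : ℕ) (z w : ℂ) :
    ∫ y, Bf k m T U z y * conj (Bf k n T U w y) =
      ((T ^ (2 * k) : ℝ) : ℂ) * (((Real.log T)⁻¹ : ℝ) : ℂ) ^ (m + n) * DM k m n T U z w := by
  unfold DM
  rw [← integral_const_mul]
  refine integral_congr_ae (Eventually.of_forall fun y => ?_)
  beta_reduce
  unfold Bf
  have e1 : ((wt T U y : ℝ) : ℂ) = (sw T U y : ℂ) * (sw T U y : ℂ) := by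
    rw [← sw_sq]
    push_cast
    ring
  have e2 : (I * (T : ℂ)) ^ k * conj ((I * (T : ℂ)) ^ k) = ((T ^ (2 * k) : ℝ) : ℂ) := by
    rw [map_pow, ← mul_pow, map_mul, Complex.conj_I, Complex.conj_ofReal]
    have : I * (T : ℂ) * (-I * T) = (T : ℂ) ^ 2 := by
      linear_combination (-(T : ℂ) ^ 2) * Complex.I_sq
    rw [this, ← pow_mul]
    push_cast
    rfl
  rw [e1, ← e2]
  simp only [map_mul, map_pow, Complex.conj_ofReal]
  rw [pow_add]
  ring

theorem Bf_meas {T U : ℝ} {z : ℂ} (hL : 0 < Real.log T) (hz : ‖z‖ / Real.log T < 1 / 4) (m : ℕ) :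
    Continuous (Bf k m T U z) := by
  have h1 : Continuous (fun y : ℝ => sp T z y) := by
    unfold sp
    fun_prop
  have h2 : Continuous (fun y : ℝ => iteratedDeriv m (zk k) (sp T z y)) := by
    rw [continuous_iff_continuousAt]
    intro y
    have hne : sp T z y ≠ 1 := by
      intro h0
      have := abs_lt.1 (sp_re (T := T) hL hz y)
      rw [h0] at this
      norm_num at this
    have h3 : ContinuousAt (iteratedDeriv m (zk k)) (sp T z y) := by
      have h4 := (zk_an k hne).iterated_deriv m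
      rw [iteratedDeriv_eq_iterate]
      exact h4.continuousAt
    exact ContinuousAt.comp (f := fun y : ℝ => sp T z y) h3 h1.continuousAt
  have h3 : Continuous (fun y : ℝ => (sw T U y : ℂ)) := by
    unfold sw
    fun_prop
  unfold Bf
  exact ((continuous_const.mul h3).mul h2).mul continuous_const

theorem Bf_close (m : ℕ) (z : ℂ) {ε : ℝ} (hε : 0 < ε) : ∀ᶠ T : ℝ in atTop, ∀ U : ℝ, Adm T U →
    ∫⁻ y, ENNReal.ofReal (‖Af k m T U z y - Bf k m T U z y‖ ^ 2) ≤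
      ENNReal.ofReal (ε * V0 k T U) := by
  filter_upwards [cmp_iter k m (R := ‖z‖) (norm_nonneg _) hε] with T h1 U hA
  have hL := hA.log
  have hL0 : 0 < Real.log T := by linarith
  have h2 := h1 U hA z le_rfl
  have e1 : ∀ y, ENNReal.ofReal (‖Af k m T U z y - Bf k m T U z y‖ ^ 2) =
      ENNReal.ofReal (((Real.log T)⁻¹) ^ (2 * m)) *
        ENNReal.ofReal (‖iteratedDeriv m (FF k T U) (sp T z y) -
          (I * T) ^ k * (sw T U y : ℂ) * iteratedDeriv m (zk k) (sp T z y)‖ ^ 2) := by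
    intro y
    rw [← ENNReal.ofReal_mul (by positivity)]
    congr 1
    unfold Af Bf
    rw [← sub_mul, norm_mul, norm_pow, Complex.norm_real, Real.norm_of_nonneg (by positivity),
      mul_pow, ← pow_mul, mul_comm m 2]
    ring
  simp_rw [e1]
  rw [lintegral_const_mul' _ _ ENNReal.ofReal_ne_top]
  refine (mul_le_mul_right h2 _).trans (le_of_eq ?_)
  rw [← ENNReal.ofReal_mul (by positivity)]
  congr 1
  rw [← mul_assoc, ← mul_pow, inv_mul_cancel₀ hL0.ne', one_pow, one_mul]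

/-- The mixed means are asymptotically equal to the spectral integrals. -/
theorem DM_cmp (m n : ℕ) (z w : ℂ) {ε : ℝ} (hε : 0 < ε) : ∀ᶠ T : ℝ in atTop, ∀ U : ℝ, Adm T U →
    Integrable (fun y : ℝ => iteratedDeriv m (zk k) (sp T z y) *
      conj (iteratedDeriv n (zk k) (sp T w y)) * (wt T U y : ℂ)) ∧
    ‖(∫ u, sf (m + n) (z + conj w) u ∂(nuT k T U)) -
      ((T ^ (2 * k) : ℝ) : ℂ) * (((Real.log T)⁻¹ : ℝ) : ℂ) ^ (m + n) * DM k m n T U z w /
        ((V0 k T U : ℝ) : ℂ)‖ ≤ ε := by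
  obtain ⟨C1, hC1, hC1'⟩ := sf_mom k (m + m) (z + conj z)
  obtain ⟨C2, hC2, hC2'⟩ := sf_mom k (n + n) (w + conj w)
  set θ := ε / (C1 + C2 + 1) with hθ
  have hθ0 : 0 < θ := by positivity
  set e := min (ε * θ / 4) (ε / 4) with he
  have he0 : 0 < e := lt_min (by positivity) (by positivity)
  have he1 : e ≤ ε * θ / 4 := min_le_left _ _
  have he2 : e ≤ ε / 4 := min_le_right _ _
  have hRL : ∀ v : ℂ, ∀ᶠ T : ℝ in atTop, ‖v‖ / Real.log T < 1 / 4 := by
    intro v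
    have : Tendsto (fun T : ℝ => ‖v‖ / Real.log T) atTop (𝓝 0) :=
      Real.tendsto_log_atTop.const_div_atTop _
    exact this.eventually (gt_mem_nhds (by norm_num))
  filter_upwards [Bf_close k m z he0, Bf_close k n w he0, hC1', hC2', hRL z, hRL w] with
    T h1 h2 h3 h4 h5 h6 U hA
  have hL := hA.log
  have hL0 : 0 < Real.log T := by linarith
  have hT : 0 < T := by linarith [hA.1]
  have hV0 := V0_pos k hA
  obtain ⟨p1, p2⟩ := Af_corr k hA m n h5 h6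
  obtain ⟨-, p3⟩ := Af_corr k hA m m h5 h5
  obtain ⟨p4, p5⟩ := Af_corr k hA n n h6 h6
  have hsq : ∀ (m : ℕ) (z : ℂ), ∫ y, Af k m T U z y * conj (Af k m T U z y) =
      ((∫ y, ‖Af k m T U z y‖ ^ 2 : ℝ) : ℂ) := by
    intro m z
    have e5 : ∫ y : ℝ, ((‖Af k m T U z y‖ ^ 2 : ℝ) : ℂ) = ((∫ y, ‖Af k m T U z y‖ ^ 2 : ℝ) : ℂ) :=
      integral_ofReal (μ := (volume : Measure ℝ)) (𝕜 := ℂ) (f := fun y : ℝ => ‖Af k m T U z y‖ ^ 2)
    rw [← e5]
    refine integral_congr_ae (Eventually.of_forall fun y => ?_)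
    beta_reduce
    rw [Complex.mul_conj, Complex.normSq_eq_norm_sq]
  have hFF : ∫ y, ‖Af k m T U z y‖ ^ 2 ≤ C1 * V0 k T U := by
    have a1 := congrArg (fun x : ℂ => ‖x‖) ((hsq m z).symm.trans p3)
    beta_reduce at a1
    rw [Complex.norm_real, norm_mul, Complex.norm_real, Real.norm_of_nonneg hV0.le] at a1
    calc _ ≤ ‖∫ y, ‖Af k m T U z y‖ ^ 2‖ := Real.le_norm_self _
      _ = _ := a1
      _ ≤ V0 k T U * C1 := mul_le_mul_of_nonneg_left (h3 U hA) hV0.le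
      _ = _ := mul_comm _ _
  have hGG : ∫ y, ‖Af k n T U w y‖ ^ 2 ≤ C2 * V0 k T U := by
    have a1 := congrArg (fun x : ℂ => ‖x‖) ((hsq n w).symm.trans p5)
    beta_reduce at a1
    rw [Complex.norm_real, norm_mul, Complex.norm_real, Real.norm_of_nonneg hV0.le] at a1
    calc _ ≤ ‖∫ y, ‖Af k n T U w y‖ ^ 2‖ := Real.le_norm_self _
      _ = _ := a1
      _ ≤ V0 k T U * C2 := mul_le_mul_of_nonneg_left (h4 U hA) hV0.le
      _ = _ := mul_comm _ _
  obtain ⟨i1, i2⟩ := inner_close p1 p4 (Bf_meas k hL0 h5 m).aestronglyMeasurable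
    (Bf_meas k hL0 h6 n).aestronglyMeasurable hθ0 (by positivity) (by positivity) hFF hGG
    (h1 U hA) (h2 U hA)
  have hVc : ((V0 k T U : ℝ) : ℂ) ≠ 0 := Complex.ofReal_ne_zero.2 hV0.ne'
  refine ⟨?_, ?_⟩
  · -- integrability
    have hTk : ((T ^ (2 * k) : ℝ) : ℂ) * (((Real.log T)⁻¹ : ℝ) : ℂ) ^ (m + n) ≠ 0 :=
      mul_ne_zero (Complex.ofReal_ne_zero.2 (by positivity))
        (pow_ne_zero _ (Complex.ofReal_ne_zero.2 (by positivity)))
    have i3 := i1.const_mul (((T ^ (2 * k) : ℝ) : ℂ) * (((Real.log T)⁻¹ : ℝ) : ℂ) ^ (m + n))⁻¹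
    refine i3.congr (Eventually.of_forall fun y => ?_)
    beta_reduce
    rw [inv_mul_eq_iff_eq_mul₀ hTk]
    unfold Bf
    have e1 : ((wt T U y : ℝ) : ℂ) = (sw T U y : ℂ) * (sw T U y : ℂ) := by
      rw [← sw_sq]
      push_cast
      ring
    have e2 : (I * (T : ℂ)) ^ k * conj ((I * (T : ℂ)) ^ k) = ((T ^ (2 * k) : ℝ) : ℂ) := by
      rw [map_pow, ← mul_pow, map_mul, Complex.conj_I, Complex.conj_ofReal]
      have : I * (T : ℂ) * (-I * T) = (T : ℂ) ^ 2 := by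
        linear_combination (-(T : ℂ) ^ 2) * Complex.I_sq
      rw [this, ← pow_mul]
      push_cast
      rfl
    rw [e1, ← e2]
    simp only [map_mul, map_pow, Complex.conj_ofReal]
    rw [pow_add]
    ring
  · rw [p2, Bf_corr k hT] at i2
    set S := ∫ u, sf (m + n) (z + conj w) u ∂(nuT k T U) with hS
    set W := ((T ^ (2 * k) : ℝ) : ℂ) * (((Real.log T)⁻¹ : ℝ) : ℂ) ^ (m + n) * DM k m n T U z w with hW
    have e1 : S - W / ((V0 k T U : ℝ) : ℂ) = (((V0 k T U : ℝ) : ℂ) * S - W) / ((V0 k T U : ℝ) : ℂ) := by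
      field_simp
    rw [e1, norm_div, Complex.norm_real, Real.norm_of_nonneg hV0.le, div_le_iff₀ hV0]
    refine i2.trans ?_
    have b1 : θ⁻¹ * (e * V0 k T U + e * V0 k T U) ≤ ε / 2 * V0 k T U := by
      have : θ⁻¹ * e ≤ ε / 4 := by
        calc θ⁻¹ * e ≤ θ⁻¹ * (ε * θ / 4) := mul_le_mul_of_nonneg_left he1 (by positivity)
          _ = ε / 4 := by field_simp
      have := mul_le_mul_of_nonneg_right this hV0.le
      linarith
    have b2 : θ * (C1 * V0 k T U + C2 * V0 k T U) ≤ ε * V0 k T U := by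
      have h7 : θ * (C1 + C2) ≤ ε := by
        rw [hθ, div_mul_eq_mul_div, div_le_iff₀ (by positivity)]
        nlinarith
      have := mul_le_mul_of_nonneg_right h7 hV0.le
      linarith
    have b3 : e * V0 k T U + e * V0 k T U ≤ ε / 2 * V0 k T U := by
      have := mul_le_mul_of_nonneg_right he2 hV0.le
      linarith
    linarith

end

end U345Z
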