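import Pool.Agent.U345.ZI
import Pool.Agent.Q97.MM.Fin3

set_option autoImplicit false

/-!
# Derivatives and complex shifts: the limit measures
-/

open MeasureTheory Filter Topology Complex Set FourierTransform ComplexConjugate

namespace U345Z

open Q97.MM

noncomputable section

variable (k : ℕ)

theorem exp_growth_convC {ν : ℕ → Measure ℝ} {μ : Measure ℝ} [IsProbabilityMeasure μ]
    (hprob : ∀ᶠ j in atTop, IsProbabilityMeasure (ν j))
    (hb : ∀ f : BoundedContinuousFunction ℝ ℝ,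
      Tendsto (fun j => ∫ u, f u ∂(ν j)) atTop (𝓝 (∫ u, f u ∂μ)))
    (hint : ∀ a : ℝ, Integrable (fun u => Real.exp (-(a * u))) μ)
    (hbd : ∀ a : ℝ, ∃ C : ℝ, 0 ≤ C ∧ ∀ᶠ j in atTop,
      Integrable (fun u => Real.exp (-(a * u))) (ν j) ∧ ∫ u, Real.exp (-(a * u)) ∂(ν j) ≤ C)
    {f : ℝ → ℂ} (hf : Continuous f) {C b : ℝ} (hC : 0 ≤ C)
    (hfb : ∀ u, ‖f u‖ ≤ C * (Real.exp (b * u) + Real.exp (-(b * u)))) :
    Tendsto (fun j => ∫ u, f u ∂(ν j)) atTop (𝓝 (∫ u, f u ∂μ)) := by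
  obtain ⟨a1, a2, a3⟩ := exp_growth_conv hprob hb hint hbd (f := fun u => (f u).re)
    (Complex.continuous_re.comp hf) hC (fun u => (Complex.abs_re_le_norm _).trans (hfb u))
  obtain ⟨b1, b2, b3⟩ := exp_growth_conv hprob hb hint hbd (f := fun u => (f u).im)
    (Complex.continuous_im.comp hf) hC (fun u => (Complex.abs_im_le_norm _).trans (hfb u))
  have hsplit : ∀ ρ : Measure ℝ, Integrable (fun u => (f u).re) ρ → Integrable (fun u => (f u).im) ρ →
      ∫ u, f u ∂ρ = ((∫ u, (f u).re ∂ρ : ℝ) : ℂ) + ((∫ u, (f u).im ∂ρ : ℝ) : ℂ) * I := by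
    intro ρ h1 h2
    have c1 : ∫ u, (((f u).re : ℝ) : ℂ) ∂ρ = ((∫ u, (f u).re ∂ρ : ℝ) : ℂ) :=
      integral_ofReal (μ := ρ) (𝕜 := ℂ) (f := fun u => (f u).re)
    have c2 : ∫ u, (((f u).im : ℝ) : ℂ) ∂ρ = ((∫ u, (f u).im ∂ρ : ℝ) : ℂ) :=
      integral_ofReal (μ := ρ) (𝕜 := ℂ) (f := fun u => (f u).im)
    rw [← c1, ← c2, ← integral_mul_const, ← integral_add h1.ofReal (h2.ofReal.mul_const _)]
    refine integral_congr_ae (Eventually.of_forall fun u => ?_)
    exact (Complex.re_add_im (f u)).symm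
  rw [hsplit μ a1 b1]
  have h3 := ((Complex.continuous_ofReal.tendsto _).comp a3).add
    (((Complex.continuous_ofReal.tendsto _).comp b3).mul_const I)
  refine h3.congr' ?_
  filter_upwards [a2, b2] with j h1 h2
  exact (hsplit (ν j) h1 h2).symm

/-- **All derivatives and all complex shifts.** -/
theorem limit_all {T U : ℕ → ℝ} (hT : Tendsto T atTop atTop)
    (hU : ∀ j, 1 ≤ U j ∧ U j ≤ T j / Real.log (T j)) :
    ∃ φ : ℕ → ℕ, StrictMono φ ∧ ∃ ν : Measure ℝ, IsProbabilityMeasure ν ∧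
      (∀ᵐ u ∂ν, u ∈ Icc 0 (2 * k : ℝ)) ∧ ν.map (fun u => 2 * (k : ℝ) - u) = ν ∧
      (∀ᶠ j in atTop, 0 < M0 k (T (φ j)) (U (φ j))) ∧
      ∀ (m n : ℕ) (z w : ℂ), Tendsto (fun j => DM k m n (T (φ j)) (U (φ j)) z w /
        ((Real.log (T (φ j)) ^ (m + n) * M0 k (T (φ j)) (U (φ j)) : ℝ) : ℂ)) atTop
        (𝓝 (∫ u, sf (m + n) (z + conj w) u ∂ν)) := by
  obtain ⟨φ, hφ, ν, h0, h1, h2, h3, h4⟩ := seq_limit2 k hT hU
  have hsupp := supp_of_fe h1 h2 h3
  set S : ℕ → ℝ := fun j => T (φ j) with hS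
  set R : ℕ → ℝ := fun j => U (φ j) with hR
  have hTS : Tendsto S atTop atTop := hT.comp hφ.tendsto_atTop
  have hadm : ∀ᶠ j in atTop, Adm (S j) (R j) := hφ.tendsto_atTop.eventually (seq_adm hT hU)
  have hJ0 : Tendsto (fun j => Jn k (S j) (R j) 0) atTop (𝓝 1) := by
    have e1 := (h4 0).sub ((seq_GJ k hT hU 0).comp hφ.tendsto_atTop)
    rw [sub_zero] at e1
    have h00 : ∫ u, Real.exp (-((0 : ℝ) * u)) ∂(ν : Measure ℝ) = 1 := by simp
    rw [h00] at e1
    refine e1.congr fun j => ?_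
    simp only [Function.comp]
    ring
  have hJM : ∀ j, Jn k (S j) (R j) 0 =
      S j ^ (2 * k) * M0 k (S j) (R j) / V0 k (S j) (R j) := by
    intro j
    unfold Jn M0
    rw [zero_div, add_zero]
  have hprob : ∀ᶠ j in atTop, IsProbabilityMeasure (nuT k (S j) (R j)) := by
    filter_upwards [hadm] with j hj using nuT_prob k hj
  have hbd : ∀ a : ℝ, ∃ C : ℝ, 0 ≤ C ∧ ∀ᶠ j in atTop,
      Integrable (fun u => Real.exp (-(a * u))) (nuT k (S j) (R j)) ∧
      ∫ u, Real.exp (-(a * u)) ∂(nuT k (S j) (R j)) ≤ C := by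
    intro a
    obtain ⟨C, hC, hC'⟩ := exp_mom k a
    refine ⟨C, hC, ?_⟩
    filter_upwards [hTS.eventually hC', hadm] with j q1 q2 using q1 _ q2
  refine ⟨φ, hφ, ν, inferInstance, ?_, symm_of_fe h1 h3, ?_, fun m n z w => ?_⟩
  · rw [ae_iff]
    exact hsupp
  · filter_upwards [hadm, hJ0.eventually (lt_mem_nhds (show (1 / 2 : ℝ) < 1 by norm_num))]
      with j q1 q2
    rw [hJM j] at q2
    have q4 := V0_pos k q1
    have hS0 : 0 < S j := by linarith [q1.1]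
    by_contra hcon
    push Not at hcon
    have : S j ^ (2 * k) * M0 k (S j) (R j) / V0 k (S j) (R j) ≤ 0 :=
      div_nonpos_of_nonpos_of_nonneg (mul_nonpos_of_nonneg_of_nonpos (by positivity) hcon) q4.le
    linarith
  · have g1 := exp_growth_convC hprob h0 h1 hbd (sf_cont (m + n) (z + conj w))
      (by positivity : (0 : ℝ) ≤ (m + n).factorial) (sf_bd (m + n) (z + conj w))
    have g2 : Tendsto (fun j => (∫ u, sf (m + n) (z + conj w) u ∂(nuT k (S j) (R j))) -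
        ((S j ^ (2 * k) : ℝ) : ℂ) * (((Real.log (S j))⁻¹ : ℝ) : ℂ) ^ (m + n) *
          DM k m n (S j) (R j) z w / ((V0 k (S j) (R j) : ℝ) : ℂ)) atTop (𝓝 0) := by
      rw [Metric.tendsto_nhds]
      intro ε hε
      filter_upwards [hTS.eventually (DM_cmp k m n z w (half_pos hε)), hadm] with j q1 q2
      rw [dist_zero_right]
      exact lt_of_le_of_lt (q1 (R j) q2).2 (by linarith)
    have g3 := g1.sub g2
    rw [sub_zero] at g3
    have g4 : Tendsto (fun j => ((Jn k (S j) (R j) 0 : ℝ) : ℂ)) atTop (𝓝 ((1 : ℝ) : ℂ)) :=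
      (Complex.continuous_ofReal.tendsto _).comp hJ0
    have g5 := g3.div g4 (by simp)
    rw [Complex.ofReal_one, div_one] at g5
    refine g5.congr' ?_
    filter_upwards [hadm] with j hj
    have q4 := V0_pos k hj
    have hS0 : 0 < S j := by linarith [hj.1]
    have hL0 : 0 < Real.log (S j) := by linarith [hj.log]
    rw [Pi.div_apply, sub_sub_cancel, hJM j]
    have n1 : (V0 k (S j) (R j) : ℂ) ≠ 0 := Complex.ofReal_ne_zero.2 q4.ne'
    have n2 : ((S j : ℂ)) ^ (2 * k) ≠ 0 := pow_ne_zero _ (Complex.ofReal_ne_zero.2 hS0.ne')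
    have n3 : ((Real.log (S j) : ℝ) : ℂ) ≠ 0 := Complex.ofReal_ne_zero.2 hL0.ne'
    show _ = DM k m n (S j) (R j) z w / ((Real.log (S j) ^ (m + n) * M0 k (S j) (R j) : ℝ) : ℂ)
    push_cast
    rw [inv_pow]
    field_simp

end

end U345Z
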