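import Mathlib

/-!
# Values in an interval and values on a subset of positive measure, for functions with small high derivatives
-/

set_option autoImplicit false

open MeasureTheory Filter Topology Set Polynomial

namespace U345Z

noncomputable section

/-- Taylor's formula with a bound, for a chain of derivatives. -/
theorem taylor_chain {p q C : ℝ} (hC : 0 ≤ C) (n : ℕ) : ∀ (g : ℕ → ℝ → ℂ),
    (∀ j t, HasDerivAt (g j) (g (j + 1) t) t) → (∀ t ∈ Icc p q, ‖g (n + 1) t‖ ≤ C) →
    ∀ x ∈ Icc p q, ‖g 0 x - ∑ j ∈ Finset.range (n + 1), g j p * ((x - p : ℝ) : ℂ) ^ j / (j.factorial : ℂ)‖ ≤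
      C * (x - p) ^ (n + 1) / ((n + 1).factorial : ℝ) := by
  induction n with
  | zero =>
    intro g hg hb x hx
    have h1 : ‖g 0 x - g 0 p‖ ≤ C * (x - p) := by
      apply norm_image_sub_le_of_norm_deriv_le_segment' (f' := g 1) _ _ x hx
      · intro t _
        exact (hg 0 t).hasDerivWithinAt
      · intro t ht
        exact hb t ⟨ht.1, ht.2.le⟩
    simpa using h1
  | succ n ih =>
    intro g hg hb x hx
    have ih' := ih (fun j => g (j + 1)) (fun j t => hg (j + 1) t) hb
    set D : ℝ → ℂ := fun x => g 0 x -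
      ∑ j ∈ Finset.range (n + 1 + 1), g j p * ((x - p : ℝ) : ℂ) ^ j / (j.factorial : ℂ) with hD
    have hDd : ∀ t, HasDerivAt D (g 1 t -
        ∑ j ∈ Finset.range (n + 1), g (j + 1) p * ((t - p : ℝ) : ℂ) ^ j / (j.factorial : ℂ)) t := by
      intro t
      have h1 : HasDerivAt (fun x : ℝ => ((x - p : ℝ) : ℂ)) 1 t := by
        have := ((hasDerivAt_id t).sub_const p).ofReal_comp
        simpa using this
      have h2 : HasDerivAt (fun x : ℝ => ∑ j ∈ Finset.range (n + 1 + 1),
          g j p * ((x - p : ℝ) : ℂ) ^ j / (j.factorial : ℂ))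
          (∑ j ∈ Finset.range (n + 1 + 1), g j p * (j * ((t - p : ℝ) : ℂ) ^ (j - 1) * 1) /
            (j.factorial : ℂ)) t := by
        apply HasDerivAt.fun_sum
        intro j _
        exact ((h1.fun_pow j).const_mul (g j p)).div_const _
      have h3 : ∑ j ∈ Finset.range (n + 1 + 1), g j p * (j * ((t - p : ℝ) : ℂ) ^ (j - 1) * 1) /
            (j.factorial : ℂ) =
          ∑ j ∈ Finset.range (n + 1), g (j + 1) p * ((t - p : ℝ) : ℂ) ^ j / (j.factorial : ℂ) := by
        rw [Finset.sum_range_succ']
        simp only [Nat.cast_zero, zero_mul, mul_zero, zero_div, add_zero, Nat.add_sub_cancel]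
        apply Finset.sum_congr rfl
        intro j _
        rw [Nat.factorial_succ]
        have : (j.factorial : ℂ) ≠ 0 := by exact_mod_cast Nat.factorial_ne_zero j
        have h4 : ((j : ℂ) + 1) ≠ 0 := by exact_mod_cast Nat.succ_ne_zero j
        push_cast
        field_simp
      rw [← h3]
      exact (hg 0 t).sub h2
    have hD0 : D p = 0 := by
      rw [hD]
      beta_reduce
      rw [Finset.sum_range_succ']
      simp
    -- comparison
    have hB : ∀ t, HasDerivAt (fun x : ℝ => C * (x - p) ^ (n + 1 + 1) / ((n + 1 + 1).factorial : ℝ))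
        (C * (t - p) ^ (n + 1) / ((n + 1).factorial : ℝ)) t := by
      intro t
      have h1 := ((((hasDerivAt_id t).sub_const p).fun_pow (n + 1 + 1)).const_mul C).div_const
        (((n + 1 + 1).factorial : ℝ))
      refine h1.congr_deriv ?_
      rw [Nat.factorial_succ (n + 1)]
      have : ((n + 1).factorial : ℝ) ≠ 0 := by exact_mod_cast Nat.factorial_ne_zero _
      have h4 : ((n : ℝ) + 1 + 1) ≠ 0 := by positivity
      simp only [id, Nat.add_sub_cancel, mul_one]
      push_cast
      field_simp
    have h5 := image_norm_le_of_norm_deriv_right_le_deriv_boundary (f := D) (a := p) (b := q)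
      (f' := fun t => g 1 t -
        ∑ j ∈ Finset.range (n + 1), g (j + 1) p * ((t - p : ℝ) : ℂ) ^ j / (j.factorial : ℂ))
      (fun t _ => (hDd t).continuousAt.continuousWithinAt) (fun t _ => (hDd t).hasDerivWithinAt)
      (B := fun x : ℝ => C * (x - p) ^ (n + 1 + 1) / ((n + 1 + 1).factorial : ℝ))
      (B' := fun t => C * (t - p) ^ (n + 1) / ((n + 1).factorial : ℝ))
      (by rw [hD0]; simp) hB (fun t ht => ih' t ⟨ht.1, ht.2.le⟩)
    exact h5 hx

/-- Separated points in a set of positive measure. -/
theorem sep_points {s : ℝ} (hs : 0 < s) (n : ℕ) : ∀ (A : Set ℝ) (p : ℝ), A ⊆ Ici p →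
    ENNReal.ofReal (2 * n * s) < volume A →
    ∃ x : ℕ → ℝ, (∀ i ≤ n, x i ∈ A) ∧ ∀ i < n, x i + s ≤ x (i + 1) := by
  induction n with
  | zero =>
    intro A p _ hA
    have : A.Nonempty := by
      by_contra h
      rw [not_nonempty_iff_eq_empty] at h
      rw [h, measure_empty] at hA
      exact not_lt_bot hA
    obtain ⟨y, hy⟩ := this
    exact ⟨fun _ => y, fun _ _ => hy, fun i hi => absurd hi (Nat.not_lt_zero _)⟩
  | succ n ih =>
    intro A p hp hA
    have hne : A.Nonempty := by
      by_contra h
      rw [not_nonempty_iff_eq_empty] at h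
      rw [h, measure_empty] at hA
      exact not_lt_bot hA
    have hbdd : BddBelow A := ⟨p, fun y hy => hp hy⟩
    obtain ⟨y, hy, hy2⟩ := exists_lt_of_csInf_lt hne (show sInf A < sInf A + s by linarith)
    have h1 : A ⊆ Icc (sInf A) (sInf A + 2 * s) ∪ (A ∩ Ici (y + s)) := by
      intro z hz
      by_cases h : y + s ≤ z
      · exact Or.inr ⟨hz, h⟩
      · left
        push Not at h
        exact ⟨csInf_le hbdd hz, by linarith⟩
    have h2 : volume A ≤ ENNReal.ofReal (2 * s) + volume (A ∩ Ici (y + s)) := by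
      refine (measure_mono h1).trans ((measure_union_le _ _).trans ?_)
      rw [Real.volume_Icc]
      apply add_le_add_left
      apply ENNReal.ofReal_le_ofReal
      linarith
    have h3 : ENNReal.ofReal (2 * n * s) < volume (A ∩ Ici (y + s)) := by
      by_contra h
      push Not at h
      have h4 : volume A ≤ ENNReal.ofReal (2 * s) + ENNReal.ofReal (2 * n * s) :=
        h2.trans (by gcongr)
      rw [← ENNReal.ofReal_add (by positivity) (by positivity)] at h4
      have h5 : 2 * s + 2 * n * s = 2 * ((n + 1 : ℕ) : ℝ) * s := by push_cast; ring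
      rw [h5] at h4
      exact absurd hA (not_lt.2 h4)
    obtain ⟨x, hx1, hx2⟩ := ih (A ∩ Ici (y + s)) (y + s) inter_subset_right h3
    refine ⟨fun i => if i = 0 then y else x (i - 1), fun i hi => ?_, fun i hi => ?_⟩
    · beta_reduce
      split_ifs with h
      · exact hy
      · exact (hx1 (i - 1) (by omega)).1
    · beta_reduce
      rw [if_neg (show ¬ i + 1 = 0 by omega)]
      by_cases h : i = 0
      · subst h
        rw [if_pos rfl]
        exact (hx1 0 (by omega)).2
      · rw [if_neg h]
        have := hx2 (i - 1) (by omega)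
        have e : i - 1 + 1 = i + 1 - 1 := by omega
        rwa [e] at this

theorem sep_le {s : ℝ} {x : ℕ → ℝ} {n : ℕ} (hx : ∀ i < n, x i + s ≤ x (i + 1)) :
    ∀ d i, i + d ≤ n → d * s ≤ x (i + d) - x i := by
  intro d
  induction d with
  | zero => intro i _; simp
  | succ d ih =>
    intro i hi
    have h1 := ih i (by omega)
    have h2 := hx (i + d) (by omega)
    have e : i + (d + 1) = i + d + 1 := by ring
    rw [e]
    push_cast
    linarith

/-- The product of the distances. -/
theorem prod_dist {s : ℝ} (hs : 0 < s) {x : ℕ → ℝ} {n : ℕ} (hx : ∀ i < n, x i + s ≤ x (i + 1)) {i : ℕ}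
    (hi : i ≤ n) : s ^ n * (i.factorial * (n - i).factorial) ≤
      ∏ j ∈ (Finset.range (n + 1)).erase i, |x i - x j| := by
  have hsep := sep_le hx
  have h1 : (Finset.range (n + 1)).erase i = Finset.range i ∪ Finset.Ico (i + 1) (n + 1) := by
    ext j
    simp only [Finset.mem_erase, Finset.mem_range, Finset.mem_union, Finset.mem_Ico]
    omega
  have h2 : Disjoint (Finset.range i) (Finset.Ico (i + 1) (n + 1)) := by
    rw [Finset.disjoint_left]
    intro j hj
    simp only [Finset.mem_range, Finset.mem_Ico] at hj ⊢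
    omega
  rw [h1, Finset.prod_union h2]
  have h3 : s ^ i * (i.factorial : ℝ) ≤ ∏ j ∈ Finset.range i, |x i - x j| := by
    have e1 : s ^ i * (i.factorial : ℝ) = ∏ j ∈ Finset.range i, (s * ((i - 1 - j : ℕ) + 1 : ℝ)) := by
      rw [Finset.prod_mul_distrib, Finset.prod_const, Finset.card_range]
      congr 1
      rw [Finset.prod_range_reflect (fun j => ((j : ℕ) : ℝ) + 1) i, ← Finset.prod_range_add_one_eq_factorial]
      push_cast
      rfl
    rw [e1]
    apply Finset.prod_le_prod
    · intro j _; positivity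
    · intro j hj
      rw [Finset.mem_range] at hj
      have h4 := hsep (i - j) j (by omega)
      have e : j + (i - j) = i := by omega
      rw [e] at h4
      refine le_trans ?_ (h4.trans (le_abs_self _))
      have e2 : ((i - 1 - j : ℕ) : ℝ) + 1 = ((i - j : ℕ) : ℝ) := by
        have : i - j = (i - 1 - j) + 1 := by omega
        rw [this]; push_cast; ring
      rw [e2]
      linarith
  have h5 : s ^ (n - i) * ((n - i).factorial : ℝ) ≤ ∏ j ∈ Finset.Ico (i + 1) (n + 1), |x i - x j| := by
    rw [Finset.prod_Ico_eq_prod_range]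
    have e0 : n + 1 - (i + 1) = n - i := by omega
    rw [e0]
    have e1 : s ^ (n - i) * ((n - i).factorial : ℝ) =
        ∏ j ∈ Finset.range (n - i), (s * ((j : ℝ) + 1)) := by
      rw [Finset.prod_mul_distrib, Finset.prod_const, Finset.card_range,
        ← Finset.prod_range_add_one_eq_factorial]
      push_cast
      rfl
    rw [e1]
    apply Finset.prod_le_prod
    · intro j _; positivity
    · intro j hj
      rw [Finset.mem_range] at hj
      have h4 := hsep (j + 1) i (by omega)
      have e : i + 1 + j = i + (j + 1) := by ring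
      rw [e, abs_sub_comm]
      refine le_trans ?_ (h4.trans (le_abs_self _))
      push_cast
      linarith
  have e6 : s ^ n * ((i.factorial : ℝ) * (n - i).factorial) =
      (s ^ i * (i.factorial : ℝ)) * (s ^ (n - i) * ((n - i).factorial : ℝ)) := by
    have : s ^ n = s ^ i * s ^ (n - i) := by
      rw [← pow_add]
      congr 1
      omega
    rw [this]
    ring
  rw [e6]
  exact mul_le_mul h3 h5 (by positivity) (Finset.prod_nonneg fun _ _ => abs_nonneg _)

/-- **Interpolation.** -/
theorem interp {p h s C m : ℝ} (hh : 0 ≤ h) (hs : 0 < s) (hC : 0 ≤ C) (hm : 0 ≤ m) (n : ℕ) {g : ℕ → ℝ → ℂ}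
    (hg : ∀ j t, HasDerivAt (g j) (g (j + 1) t) t) (hb : ∀ t ∈ Icc p (p + h), ‖g (n + 1) t‖ ≤ C)
    {x : ℕ → ℝ} (hx : ∀ i ≤ n, x i ∈ Icc p (p + h)) (hx' : ∀ i < n, x i + s ≤ x (i + 1))
    (hval : ∀ i ≤ n, ‖g 0 (x i)‖ ≤ m) {y : ℝ} (hy : y ∈ Icc p (p + h)) :
    ‖g 0 y‖ ≤ (n + 1) * ((2 * h / s) ^ n / n.factorial) * (m + C * h ^ (n + 1) / ((n + 1).factorial : ℝ)) +
      C * h ^ (n + 1) / ((n + 1).factorial : ℝ) := by
  set R := C * h ^ (n + 1) / ((n + 1).factorial : ℝ) with hR
  have hR0 : 0 ≤ R := by positivity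
  -- the Taylor polynomial
  set P : ℂ[X] := ∑ j ∈ Finset.range (n + 1), Polynomial.C (g j p / (j.factorial : ℂ)) * (X - Polynomial.C (p : ℂ)) ^ j
    with hP
  have hPe : ∀ z : ℝ, P.eval (z : ℂ) =
      ∑ j ∈ Finset.range (n + 1), g j p * ((z - p : ℝ) : ℂ) ^ j / (j.factorial : ℂ) := by
    intro z
    rw [hP, eval_finsetSum]
    apply Finset.sum_congr rfl
    intro j _
    simp only [eval_mul, eval_C, eval_pow, eval_sub, eval_X]
    push_cast
    ring
  have hT : ∀ z ∈ Icc p (p + h), ‖g 0 z - P.eval (z : ℂ)‖ ≤ R := by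
    intro z hz
    rw [hPe]
    refine (taylor_chain hC n g hg hb z hz).trans ?_
    rw [hR]
    have h1 : (z - p) ^ (n + 1) ≤ h ^ (n + 1) :=
      pow_le_pow_left₀ (by linarith [hz.1]) (by linarith [hz.2]) _
    gcongr
  have hdeg : P.degree < ((Finset.range (n + 1)).card : ℕ) := by
    rw [Finset.card_range, hP]
    refine lt_of_le_of_lt (degree_sum_le _ _) ?_
    rw [Finset.sup_lt_iff (by exact_mod_cast WithBot.bot_lt_coe (n + 1))]
    intro j hj
    rw [Finset.mem_range] at hj
    refine lt_of_le_of_lt (degree_mul_le _ _) ?_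
    have h1 : (Polynomial.C (g j p / (j.factorial : ℂ))).degree ≤ 0 := degree_C_le
    have h2 : ((X - Polynomial.C (p : ℂ)) ^ j).degree ≤ (j : WithBot ℕ) := by
      refine (degree_pow_le _ _).trans ?_
      rw [degree_X_sub_C]
      simp
    refine lt_of_le_of_lt (add_le_add h1 h2) ?_
    rw [zero_add]
    exact_mod_cast hj
  have hsep := sep_le hx'
  have hinj : Set.InjOn (fun i : ℕ => ((x i : ℝ) : ℂ)) (Finset.range (n + 1)) := by
    intro i hi j hj hij
    simp only [Finset.coe_range, Set.mem_Iio] at hi hj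
    have hij2 : ((x i : ℝ) : ℂ) = ((x j : ℝ) : ℂ) := hij
    have hij' : x i = x j := Complex.ofReal_injective hij2
    rcases lt_trichotomy i j with h1 | h1 | h1
    · have := hsep (j - i) i (by omega)
      have e : i + (j - i) = j := by omega
      rw [e, hij', sub_self] at this
      have h2 : (0 : ℝ) < ((j - i : ℕ) : ℝ) * s := by
        have : 0 < j - i := by omega
        positivity
      linarith
    · exact h1
    · have := hsep (i - j) j (by omega)
      have e : j + (i - j) = i := by omega
      rw [e, hij', sub_self] at this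
      have h2 : (0 : ℝ) < ((i - j : ℕ) : ℝ) * s := by
        have : 0 < i - j := by omega
        positivity
      linarith
  have hL := Lagrange.eq_interpolate hinj hdeg
  have hbasis : ∀ i ∈ Finset.range (n + 1),
      ‖(Lagrange.basis (Finset.range (n + 1)) (fun i : ℕ => ((x i : ℝ) : ℂ)) i).eval (y : ℂ)‖ ≤
        (2 * h / s) ^ n / n.factorial := by
    intro i hi
    have hi' : i ≤ n := by
      rw [Finset.mem_range] at hi
      omega
    unfold Lagrange.basis
    rw [eval_prod, norm_prod]
    have e1 : ∀ j, ‖(Lagrange.basisDivisor ((x i : ℝ) : ℂ) ((x j : ℝ) : ℂ)).eval (y : ℂ)‖ =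
        |x i - x j|⁻¹ * |y - x j| := by
      intro j
      unfold Lagrange.basisDivisor
      rw [eval_mul, eval_C, eval_sub, eval_X, eval_C, norm_mul, norm_inv, ← Complex.ofReal_sub,
        ← Complex.ofReal_sub, Complex.norm_real, Complex.norm_real, Real.norm_eq_abs, Real.norm_eq_abs]
    simp only [e1]
    rw [Finset.prod_mul_distrib, Finset.prod_inv_distrib]
    have h1 := prod_dist hs hx' hi'
    have hcard : ((Finset.range (n + 1)).erase i).card = n := by
      rw [Finset.card_erase_of_mem hi, Finset.card_range]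
      omega
    have h2 : ∏ j ∈ (Finset.range (n + 1)).erase i, |y - x j| ≤ h ^ n := by
      have : ∏ j ∈ (Finset.range (n + 1)).erase i, |y - x j| ≤
          ∏ _j ∈ (Finset.range (n + 1)).erase i, h := by
        apply Finset.prod_le_prod
        · intro j _; exact abs_nonneg _
        · intro j hj
          rw [Finset.mem_erase, Finset.mem_range] at hj
          have := hx j (by omega)
          rw [abs_le]
          constructor <;> linarith [hy.1, hy.2, this.1, this.2]
      rwa [Finset.prod_const, hcard] at this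
    have h3 : (n.factorial : ℝ) ≤ 2 ^ n * (i.factorial * (n - i).factorial) := by
      have h4 := Nat.choose_mul_factorial_mul_factorial hi'
      have h5 : n.choose i ≤ 2 ^ n := Nat.choose_le_two_pow n i
      have h6 : n.factorial ≤ 2 ^ n * (i.factorial * (n - i).factorial) := by
        rw [← h4, mul_assoc]
        exact Nat.mul_le_mul_right _ h5
      exact_mod_cast h6
    have hf1 : (0 : ℝ) < i.factorial := by exact_mod_cast Nat.factorial_pos i
    have hf2 : (0 : ℝ) < (n - i).factorial := by exact_mod_cast Nat.factorial_pos _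
    have hf3 : (0 : ℝ) < n.factorial := by exact_mod_cast Nat.factorial_pos _
    calc (∏ j ∈ (Finset.range (n + 1)).erase i, |x i - x j|)⁻¹ *
          ∏ j ∈ (Finset.range (n + 1)).erase i, |y - x j|
        ≤ (s ^ n * (i.factorial * (n - i).factorial))⁻¹ * h ^ n := by
          apply mul_le_mul _ h2 (Finset.prod_nonneg fun _ _ => abs_nonneg _) (by positivity)
          exact inv_anti₀ (by positivity) h1
      _ ≤ (s ^ n * (n.factorial / 2 ^ n))⁻¹ * h ^ n := by
          apply mul_le_mul_of_nonneg_right _ (by positivity)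
          apply inv_anti₀ (by positivity)
          apply mul_le_mul_of_nonneg_left _ (by positivity)
          rw [div_le_iff₀ (by positivity)]
          linarith
      _ = (2 * h / s) ^ n / n.factorial := by
          rw [div_pow, mul_pow]
          field_simp
  have hPy : ‖P.eval (y : ℂ)‖ ≤ (n + 1) * ((2 * h / s) ^ n / n.factorial) * (m + R) := by
    rw [hL, Lagrange.interpolate_apply, eval_finsetSum]
    have h1 : ∀ i ∈ Finset.range (n + 1), ‖eval (y : ℂ) (Polynomial.C (eval ((x i : ℝ) : ℂ) P) *
        Lagrange.basis (Finset.range (n + 1)) (fun i : ℕ => ((x i : ℝ) : ℂ)) i)‖ ≤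
        (m + R) * ((2 * h / s) ^ n / n.factorial) := by
      intro i hi
      rw [eval_mul, eval_C, norm_mul]
      have hi' : i ≤ n := by
        rw [Finset.mem_range] at hi
        omega
      apply mul_le_mul _ (hbasis i hi) (norm_nonneg _) (by positivity)
      have h2 := hT (x i) (hx i hi')
      have h3 : ‖P.eval ((x i : ℝ) : ℂ)‖ ≤ ‖g 0 (x i)‖ + ‖g 0 (x i) - P.eval ((x i : ℝ) : ℂ)‖ := by
        have := norm_sub_le (g 0 (x i)) (g 0 (x i) - P.eval ((x i : ℝ) : ℂ))
        rwa [sub_sub_cancel] at this
      linarith [hval i hi']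
    refine (norm_sum_le_of_le _ h1).trans (le_of_eq ?_)
    rw [Finset.sum_const, Finset.card_range, nsmul_eq_mul]
    push_cast
    ring
  have h4 : ‖g 0 y‖ ≤ ‖P.eval (y : ℂ)‖ + ‖g 0 y - P.eval (y : ℂ)‖ := by
    have := norm_add_le (P.eval (y : ℂ)) (g 0 y - P.eval (y : ℂ))
    rwa [add_sub_cancel] at this
  linarith [hT y hy]

end

end U345Z
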