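import Pool.Agent.U345.ZY

/-!
# Short gaps between the zeros: the result for zeta
-/

set_option autoImplicit false

open MeasureTheory Filter Topology Complex

namespace U345Z

open Q97.MM

noncomputable section

variable (k : ℕ)

theorem sum_disjoint {n : ℕ} {g : ℝ → ℝ} (hg : ∀ t, 0 ≤ g t) (hi : Integrable g) {a b : Fin n → ℝ}
    (hab : ∀ i, a i ≤ b i) (hd : Pairwise fun i j => Disjoint (Set.Ioo (a i) (b i)) (Set.Ioo (a j) (b j)))
    (S : Finset (Fin n)) {A : Set ℝ} (hS : ∀ i ∈ S, Set.Ioo (a i) (b i) ⊆ A) :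
    ∑ i ∈ S, ∫ t in (a i)..(b i), g t ≤ ∫ t in A, g t := by
  have h1 : ∑ i ∈ S, ∫ t in (a i)..(b i), g t = ∫ t in ⋃ i ∈ S, Set.Ioo (a i) (b i), g t := by
    rw [integral_biUnion_finset S (fun i _ => measurableSet_Ioo)
      (fun i _ j _ hij => hd hij) fun i _ => hi.integrableOn]
    apply Finset.sum_congr rfl
    intro i _
    rw [intervalIntegral.integral_of_le (hab i), integral_Ioc_eq_integral_Ioo]
  rw [h1]
  apply setIntegral_mono_set hi.integrableOn (Eventually.of_forall hg)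
  apply LE.le.eventuallyLE
  exact Set.iUnion₂_subset hS

/-- **Short gaps.** -/
theorem gapZ (hk : 1 ≤ k) {ε : ℝ} (hε : 0 < ε) : ∀ᶠ T : ℝ in atTop, ∀ U : ℝ, Adm T U →
    0 < JJ k T U (1 / 2) ∧ ∀ (n : ℕ) (a b x : Fin n → ℝ),
    (∀ i, a i < b i ∧ b i ≤ a i + 1 ∧ a i ≤ x i ∧ x i ≤ b i ∧
      riemannZeta (((1 / 2 : ℝ) : ℂ) + a i * I) = 0 ∧ riemannZeta (((1 / 2 : ℝ) : ℂ) + b i * I) = 0) →
    (Pairwise fun i j => Disjoint (Set.Ioo (a i) (b i)) (Set.Ioo (a j) (b j))) →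
    ∑ i, zq k T U (x i) / (b i - a i) ^ (4 * k - 1) ≤
      (((k : ℝ) / 2) ^ (4 * k) + ε) * Real.log T ^ (4 * k) * JJ k T U (1 / 2) := by
  -- the small parameter
  set φ : ℝ → ℝ := fun x => ((1 - x)⁻¹) ^ (2 * k + 1) * ((1 / 2) ^ (4 * k) * ((k : ℝ) ^ (2 * (2 * k)) + x))
    with hφ
  have hφc : ContinuousAt φ 0 := by
    have h1 : ContinuousAt (fun x : ℝ => (1 - x)⁻¹) 0 := by
      apply ContinuousAt.inv₀ (by fun_prop)
      norm_num
    exact (h1.pow _).mul (by fun_prop)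
  have hφ0 : φ 0 = ((k : ℝ) / 2) ^ (4 * k) := by
    rw [hφ]
    beta_reduce
    rw [sub_zero, inv_one, one_pow, one_mul, add_zero, show 2 * (2 * k) = 4 * k by ring, ← mul_pow]
    congr 1
    ring
  obtain ⟨x₀, hx0, hx1, hx⟩ : ∃ x : ℝ, 0 < x ∧ x < 1 / 2 ∧ φ x ≤ ((k : ℝ) / 2) ^ (4 * k) + ε / 2 := by
    have h1 : ∀ᶠ x in 𝓝[>] (0 : ℝ), φ x < φ 0 + ε / 2 :=
      (hφc.tendsto.eventually (gt_mem_nhds (by linarith))).filter_mono nhdsWithin_le_nhds
    have h2 : ∀ᶠ x in 𝓝[>] (0 : ℝ), x < 1 / 2 :=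
      (gt_mem_nhds (by norm_num : (0 : ℝ) < 1 / 2)).filter_mono nhdsWithin_le_nhds
    obtain ⟨x, ⟨h3, h4⟩, h5⟩ := ((h1.and h2).and self_mem_nhdsWithin).exists
    exact ⟨x, h5, h4, by rw [← hφ0]; exact h3.le⟩
  set ε₃ := ε / (2 * (2 ^ (2 * k) * 2)) with hε₃
  have hε₃0 : 0 < ε₃ := by positivity
  filter_upwards [specN k 0 one_pos, specN k (2 * k) hx0, far_mean k (2 * k) (2 * k) (half_pos hx0) hε₃0,
    cmpV k hx0, eventually_ge_atTop (2 / x₀)] with T h1 h2 h3 h4 h5 U hA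
  have hL := hA.log
  have hL0 : 0 < Real.log T := by linarith
  have hT : 0 < T := by linarith [hA.1]
  have hV0 := V0_pos k hA
  obtain ⟨i2, s2⟩ := h2 U hA
  have s3 := h3 U hA
  have s4 := abs_le.1 (h4 U hA)
  set V := V0 k T U with hV
  set P := T ^ (2 * k) with hP
  have hP0 : 0 < P := by positivity
  set M := JJ k T U (1 / 2) with hM
  have hPM : (1 - x₀) * V ≤ P * M := by linarith [s4.2]
  have hMp : 0 < M := by
    have : 0 < P * M := lt_of_lt_of_le (mul_pos (by linarith) hV0) hPM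
    exact (pos_iff_pos_of_mul_pos this).1 hP0
  refine ⟨hMp, fun n a b x hx' hdisj => ?_⟩
  set L := Real.log T with hLd
  have hTx : 1 ≤ x₀ / 2 * T := by
    rw [div_le_iff₀ hx0] at h5
    linarith
  set A := (1 - x₀) * T with hAd
  -- the values
  have hq : ∀ i, P * (zq k T U (x i) / (b i - a i) ^ (4 * k - 1)) =
      (T / ‖((1 / 2 : ℝ) : ℂ) + x i * I - 1‖) ^ (2 * k) *
        (‖gg k 0 T U (x i)‖ ^ 2 / (b i - a i) ^ (4 * k - 1)) := by
    intro i
    rw [gg_bot, hP]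
    unfold zq
    have hne : ‖((1 / 2 : ℝ) : ℂ) + x i * I - 1‖ ≠ 0 :=
      norm_ne_zero_iff.2 (sub_ne_zero.2 (line_ne_one (x i)))
    rw [div_pow, mul_pow]
    field_simp
  have hgap : ∀ i, ‖gg k 0 T U (x i)‖ ^ 2 / (b i - a i) ^ (4 * k - 1) ≤
      ∫ t in (a i)..(b i), ‖gg k (2 * k) T U t‖ ^ 2 := by
    intro i
    obtain ⟨p1, -, p3, p4, p5, p6⟩ := hx' i
    exact gap_value k hk p1 p5 p6 ⟨p3, p4⟩
  have hpos : ∀ i, 0 ≤ ∫ t in (a i)..(b i), ‖gg k (2 * k) T U t‖ ^ 2 := fun i =>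
    intervalIntegral.integral_nonneg (hx' i).1.le fun t _ => by positivity
  -- the main part
  have m1 : ∑ i ∈ Finset.univ.filter (fun i => ¬ x i ≤ A), P * (zq k T U (x i) / (b i - a i) ^ (4 * k - 1)) ≤
      ((1 - x₀)⁻¹) ^ (2 * k) * ∫ t, ‖gg k (2 * k) T U t‖ ^ 2 := by
    have e1 : ∀ i ∈ Finset.univ.filter (fun i => ¬ x i ≤ A),
        P * (zq k T U (x i) / (b i - a i) ^ (4 * k - 1)) ≤
        ((1 - x₀)⁻¹) ^ (2 * k) * ∫ t in (a i)..(b i), ‖gg k (2 * k) T U t‖ ^ 2 := by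
      intro i hi
      rw [Finset.mem_filter] at hi
      rw [hq i]
      apply mul_le_mul _ (hgap i) _ (pow_nonneg (inv_nonneg.2 (by linarith)) _)
      · apply pow_le_pow_left₀ (by positivity)
        have e2 : (1 - x₀) * T ≤ ‖((1 / 2 : ℝ) : ℂ) + x i * I - 1‖ := by
          have e3 := Complex.abs_im_le_norm (((1 / 2 : ℝ) : ℂ) + x i * I - 1)
          have e4 : (((1 / 2 : ℝ) : ℂ) + x i * I - 1).im = x i := by simp
          rw [e4] at e3
          have := le_abs_self (x i)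
          have := not_le.1 hi.2
          linarith
        have e5 : 0 < (1 - x₀) * T := mul_pos (by linarith) hT
        rw [div_le_iff₀ (e5.trans_le e2), inv_mul_eq_div, le_div_iff₀ (by linarith)]
        linarith
      · have := (hx' i).1
        have : 0 < b i - a i := by linarith
        positivity
    refine (Finset.sum_le_sum e1).trans ?_
    rw [← Finset.mul_sum]
    apply mul_le_mul_of_nonneg_left _ (pow_nonneg (inv_nonneg.2 (by linarith)) _)
    have := sum_disjoint (g := fun t => ‖gg k (2 * k) T U t‖ ^ 2) (fun t => by positivity) i2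
      (fun i => (hx' i).1.le) hdisj (Finset.univ.filter (fun i => ¬ x i ≤ A)) (A := Set.univ)
      fun i _ => Set.subset_univ _
    rwa [setIntegral_univ] at this
  -- the rest
  have m2 : ∑ i ∈ Finset.univ.filter (fun i => x i ≤ A), P * (zq k T U (x i) / (b i - a i) ^ (4 * k - 1)) ≤
      (2 * T) ^ (2 * k) * ∫ t in Set.Iic ((1 - x₀ / 2) * T), ‖gg k (2 * k) T U t‖ ^ 2 := by
    have e1 : ∀ i ∈ Finset.univ.filter (fun i => x i ≤ A),
        P * (zq k T U (x i) / (b i - a i) ^ (4 * k - 1)) ≤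
        (2 * T) ^ (2 * k) * ∫ t in (a i)..(b i), ‖gg k (2 * k) T U t‖ ^ 2 := by
      intro i hi
      rw [hq i]
      apply mul_le_mul _ (hgap i) _ (by positivity)
      · apply pow_le_pow_left₀ (by positivity)
        have e2 : 1 / 2 ≤ ‖((1 / 2 : ℝ) : ℂ) + x i * I - 1‖ := by
          have e3 := Complex.abs_re_le_norm (((1 / 2 : ℝ) : ℂ) + x i * I - 1)
          have e4 : (((1 / 2 : ℝ) : ℂ) + x i * I - 1).re = -(1 / 2) := by
            simp
            norm_num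
          rw [e4] at e3
          norm_num at e3 ⊢
          linarith
        rw [div_le_iff₀ (by linarith)]
        nlinarith
      · have := (hx' i).1
        have : 0 < b i - a i := by linarith
        positivity
    refine (Finset.sum_le_sum e1).trans ?_
    rw [← Finset.mul_sum]
    apply mul_le_mul_of_nonneg_left _ (by positivity)
    apply sum_disjoint (g := fun t => ‖gg k (2 * k) T U t‖ ^ 2) (fun t => by positivity) i2
      (fun i => (hx' i).1.le) hdisj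
    intro i hi t ht
    rw [Finset.mem_filter] at hi
    obtain ⟨p1, p2, p3, p4, -, -⟩ := hx' i
    have h6 : x i ≤ (1 - x₀) * T := hi.2
    show t ≤ (1 - x₀ / 2) * T
    have := ht.2
    nlinarith
  have e1 : V ≤ (1 - x₀)⁻¹ * (P * M) := by
    rw [inv_mul_eq_div, le_div_iff₀ (by linarith)]
    linarith
  have e0 : 0 ≤ (1 - x₀)⁻¹ := inv_nonneg.2 (by linarith)
  have m3 : ((1 - x₀)⁻¹) ^ (2 * k) * ∫ t, ‖gg k (2 * k) T U t‖ ^ 2 ≤ φ x₀ * L ^ (4 * k) * (P * M) := by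
    calc _ ≤ ((1 - x₀)⁻¹) ^ (2 * k) * ((L / 2) ^ (2 * (2 * k)) * (((k : ℝ) ^ (2 * (2 * k)) + x₀) * V)) := by
          gcongr
      _ ≤ ((1 - x₀)⁻¹) ^ (2 * k) * ((L / 2) ^ (2 * (2 * k)) * (((k : ℝ) ^ (2 * (2 * k)) + x₀) *
          ((1 - x₀)⁻¹ * (P * M)))) := by
          gcongr
      _ = _ := by
          have e2 : (L / 2) ^ (2 * (2 * k)) = L ^ (4 * k) * (1 / 2) ^ (4 * k) := by
            rw [← mul_pow, show 2 * (2 * k) = 4 * k by ring]
            congr 1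
            ring
          rw [hφ, e2]
          ring
  have m4 : (2 * T) ^ (2 * k) * ∫ t in Set.Iic ((1 - x₀ / 2) * T), ‖gg k (2 * k) T U t‖ ^ 2 ≤
      ε / 2 * L ^ (4 * k) * (P * M) := by
    have q1 : (2 * T) ^ (2 * k) ≤ 2 ^ (2 * k) * (1 + T) ^ (2 * k) := by
      rw [mul_pow]
      gcongr
      linarith
    have q2 : 0 ≤ ∫ t in Set.Iic ((1 - x₀ / 2) * T), ‖gg k (2 * k) T U t‖ ^ 2 :=
      integral_nonneg fun t => by positivity
    have q3 : V ≤ 2 * (P * M) := by nlinarith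
    have q4 : 1 ≤ L ^ (4 * k) := one_le_pow₀ hL
    calc _ ≤ (2 ^ (2 * k) * (1 + T) ^ (2 * k)) *
          ∫ t in Set.Iic ((1 - x₀ / 2) * T), ‖gg k (2 * k) T U t‖ ^ 2 :=
          mul_le_mul_of_nonneg_right q1 q2
      _ = 2 ^ (2 * k) * ((1 + T) ^ (2 * k) *
          ∫ t in Set.Iic ((1 - x₀ / 2) * T), ‖gg k (2 * k) T U t‖ ^ 2) := by ring
      _ ≤ 2 ^ (2 * k) * (ε₃ * V) := by gcongr
      _ ≤ 2 ^ (2 * k) * (ε₃ * (2 * (P * M))) := by gcongr
      _ = ε / 2 * 1 * (P * M) := by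
          rw [hε₃]
          field_simp
      _ ≤ ε / 2 * L ^ (4 * k) * (P * M) := by gcongr
  have m5 : P * ∑ i, zq k T U (x i) / (b i - a i) ^ (4 * k - 1) ≤
      P * ((((k : ℝ) / 2) ^ (4 * k) + ε) * L ^ (4 * k) * M) := by
    rw [Finset.mul_sum, ← Finset.sum_filter_add_sum_filter_not Finset.univ (fun i => x i ≤ A)]
    have q2 : φ x₀ * L ^ (4 * k) * (P * M) ≤
        (((k : ℝ) / 2) ^ (4 * k) + ε / 2) * L ^ (4 * k) * (P * M) := by
      gcongr
    have q3 : P * ((((k : ℝ) / 2) ^ (4 * k) + ε) * L ^ (4 * k) * M) =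
        (((k : ℝ) / 2) ^ (4 * k) + ε / 2) * L ^ (4 * k) * (P * M) +
          ε / 2 * L ^ (4 * k) * (P * M) := by ring
    linarith [m2.trans m4, m1.trans (m3.trans q2)]
  exact le_of_mul_le_mul_left m5 hP0

end

end U345Z
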