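import Pool.Agent.U345.ZL1
import Pool.Agent.U345.ZY2

/-!
# The integral over a thick set, for functions with bounded high derivatives in the mean square
-/

set_option autoImplicit false

open MeasureTheory Filter Topology Set

namespace U345Z

noncomputable section

/-- The maximum on an interval. -/
theorem sup_sq0 {g g' : ℝ → ℂ} (hg : ∀ x, HasDerivAt g (g' x) x) (hg' : Continuous g') {p h : ℝ}
    (hh : 0 < h) {y : ℝ} (hy : y ∈ Icc p (p + h)) :
    h * ‖g y‖ ^ 2 ≤ (∫ t in p..(p + h), ‖g t‖ ^ 2) + h * (2 * ∫ t in p..(p + h), ‖g t‖ * ‖g' t‖) := by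
  have hgc : Continuous g := continuous_iff_continuousAt.2 fun x => (hg x).continuousAt
  set J := 2 * ∫ t in p..(p + h), ‖g t‖ * ‖g' t‖ with hJ
  have hcc : Continuous fun t => ‖g t‖ * ‖g' t‖ := by fun_prop
  have h1 : ∀ x ∈ Icc p (p + h), ‖g y‖ ^ 2 ≤ ‖g x‖ ^ 2 + J := by
    intro x hx
    have hmono : ∀ u v : ℝ, u ≤ v → p ≤ u → v ≤ p + h →
        2 * ∫ t in u..v, ‖g t‖ * ‖g' t‖ ≤ J := by
      intro u v huv hu hv
      have := intervalIntegral.integral_mono_interval (μ := volume) hu huv hv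
        (f := fun t => ‖g t‖ * ‖g' t‖)
        (Eventually.of_forall fun t => by positivity) (hcc.intervalIntegrable _ _)
      rw [hJ]
      linarith
    rcases le_total x y with h2 | h2
    · have h3 := (abs_le.1 (sq_change hg hg' h2)).2
      have h4 := hmono x y h2 hx.1 hy.2
      linarith
    · have h3 := (abs_le.1 (sq_change hg hg' h2)).1
      have h4 := hmono y x h2 hy.1 hx.2
      linarith
  have h2 : ∫ _x in p..(p + h), ‖g y‖ ^ 2 ≤ ∫ x in p..(p + h), (‖g x‖ ^ 2 + J) := by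
    apply intervalIntegral.integral_mono_on (by linarith) intervalIntegrable_const
    · apply Continuous.intervalIntegrable
      fun_prop
    · exact h1
  rw [intervalIntegral.integral_const, intervalIntegral.integral_add
    (Continuous.intervalIntegrable (by fun_prop) _ _) intervalIntegrable_const,
    intervalIntegral.integral_const] at h2
  simpa using h2

theorem sup_sq {g g' : ℝ → ℂ} (hg : ∀ x, HasDerivAt g (g' x) x) (hg' : Continuous g') {p h : ℝ}
    (hh : 0 < h) {y : ℝ} (hy : y ∈ Icc p (p + h)) :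
    ‖g y‖ ^ 2 ≤ 2 / h * (∫ t in p..(p + h), ‖g t‖ ^ 2) + h * ∫ t in p..(p + h), ‖g' t‖ ^ 2 := by
  have hgc : Continuous g := continuous_iff_continuousAt.2 fun x => (hg x).continuousAt
  have h1 := sup_sq0 hg hg' hh hy
  have h2 : 2 * ∫ t in p..(p + h), ‖g t‖ * ‖g' t‖ ≤
      1 / h * (∫ t in p..(p + h), ‖g t‖ ^ 2) + h * ∫ t in p..(p + h), ‖g' t‖ ^ 2 := by
    rw [← intervalIntegral.integral_const_mul, ← intervalIntegral.integral_const_mul,
      ← intervalIntegral.integral_const_mul, ← intervalIntegral.integral_add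
        (Continuous.intervalIntegrable (by fun_prop) _ _) (Continuous.intervalIntegrable (by fun_prop) _ _)]
    apply intervalIntegral.integral_mono_on (by linarith)
    · exact Continuous.intervalIntegrable (by fun_prop) _ _
    · exact Continuous.intervalIntegrable (by fun_prop) _ _
    · intro t _
      have e : 1 / h * ‖g t‖ ^ 2 + h * ‖g' t‖ ^ 2 - 2 * (‖g t‖ * ‖g' t‖) =
          (‖g t‖ - h * ‖g' t‖) ^ 2 / h := by
        field_simp
        ring
      have : 0 ≤ (‖g t‖ - h * ‖g' t‖) ^ 2 / h := by positivity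
      linarith
  have h3 : h * ‖g y‖ ^ 2 ≤ h * (2 / h * (∫ t in p..(p + h), ‖g t‖ ^ 2) +
      h * ∫ t in p..(p + h), ‖g' t‖ ^ 2) := by
    have h4 := mul_le_mul_of_nonneg_left h2 hh.le
    have e1 : h * (1 / h * (∫ t in p..(p + h), ‖g t‖ ^ 2) + h * ∫ t in p..(p + h), ‖g' t‖ ^ 2) =
        (∫ t in p..(p + h), ‖g t‖ ^ 2) + h * (h * ∫ t in p..(p + h), ‖g' t‖ ^ 2) := by
      field_simp
    have e2 : h * (2 / h * (∫ t in p..(p + h), ‖g t‖ ^ 2) + h * ∫ t in p..(p + h), ‖g' t‖ ^ 2) =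
        2 * (∫ t in p..(p + h), ‖g t‖ ^ 2) + h * (h * ∫ t in p..(p + h), ‖g' t‖ ^ 2) := by
      field_simp
    rw [e1] at h4
    rw [e2]
    linarith
  exact le_of_mul_le_mul_left h3 hh

/-- The set of points where the function is small. -/
theorem markov_set {f : ℝ → ℝ} (hf : Continuous f) (h0 : ∀ t, 0 ≤ f t) {A : Set ℝ}
    {p h θ m : ℝ} (hh : 0 < h) (hθ : 0 < θ) (hm : 0 < m)
    (hsub : A ⊆ Icc p (p + h)) (hvol : ENNReal.ofReal (θ * h) ≤ volume A)
    (hint : ∫ t in A, f t ≤ m * (θ * h / 2)) :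
    ENNReal.ofReal (θ * h / 2) ≤ volume (A ∩ {t | f t ≤ m}) := by
  have hfin : volume A ≠ ⊤ := by
    refine ne_top_of_le_ne_top ?_ (measure_mono hsub)
    rw [Real.volume_Icc]
    exact ENNReal.ofReal_ne_top
  have hfi : IntegrableOn f A :=
    (hf.integrableOn_Icc (a := p) (b := p + h)).mono_set hsub
  have h1 := mul_meas_ge_le_integral_of_nonneg (μ := volume.restrict A)
    (Eventually.of_forall h0) hfi m
  have hms : MeasurableSet {t | m ≤ f t} := measurableSet_le measurable_const hf.measurable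
  have h2 : (volume.restrict A).real {t | m ≤ f t} ≤ θ * h / 2 := by
    have := h1.trans hint
    exact le_of_mul_le_mul_left this hm
  have h3 : volume (A ∩ {t | m ≤ f t}) ≤ ENNReal.ofReal (θ * h / 2) := by
    rw [Measure.real, Measure.restrict_apply hms, inter_comm] at h2
    rw [← ENNReal.toReal_le_toReal (ne_top_of_le_ne_top hfin (measure_mono inter_subset_left))
      ENNReal.ofReal_ne_top, ENNReal.toReal_ofReal (by positivity)]
    exact h2
  have h4 : volume A ≤ volume (A ∩ {t | f t ≤ m}) + ENNReal.ofReal (θ * h / 2) := by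
    refine (measure_mono (?_ : A ⊆ (A ∩ {t | f t ≤ m}) ∪ (A ∩ {t | m ≤ f t}))).trans
      ((measure_union_le _ _).trans (by gcongr))
    intro t ht
    rcases le_total (f t) m with h | h
    · exact Or.inl ⟨ht, h⟩
    · exact Or.inr ⟨ht, h⟩
  have h5 : ENNReal.ofReal (θ * h) = ENNReal.ofReal (θ * h / 2) + ENNReal.ofReal (θ * h / 2) := by
    rw [← ENNReal.ofReal_add (by positivity) (by positivity)]
    congr 1
    ring
  rw [h5] at hvol
  exact (ENNReal.add_le_add_iff_right ENNReal.ofReal_ne_top).1 (hvol.trans h4)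

/-- One cell. -/
theorem cell_thick {p h θ μ B : ℝ} {n : ℕ} (hh : 0 < h) (hθ : 0 < θ) (hμ : 0 < μ) (hB : 0 ≤ B)
    {g : ℕ → ℝ → ℂ} (hg : ∀ j t, HasDerivAt (g j) (g (j + 1) t) t) {E : Set ℝ}
    (hvol : ENNReal.ofReal (θ * h) ≤ volume (E ∩ Icc p (p + h)))
    (h1 : ∫ t in p..(p + h), ‖g (n + 1) t‖ ^ 2 ≤
      B * μ ^ (2 * (n + 1)) * ∫ t in p..(p + h), ‖g 0 t‖ ^ 2)
    (h2 : ∫ t in p..(p + h), ‖g (n + 2) t‖ ^ 2 ≤
      B * μ ^ (2 * (n + 2)) * ∫ t in p..(p + h), ‖g 0 t‖ ^ 2)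
    {Λ : ℝ} (hΛ : (n + 1) * ((16 * (n + 1) / θ) ^ n / n.factorial) ≤ Λ)
    (hn : 2 * B * (μ * h) ^ (2 * (n + 1)) * (2 + (μ * h) ^ 2) * (Λ + 1) ^ 2 ≤
      1 / 2 * ((n + 1).factorial : ℝ) ^ 2) :
    ∫ t in p..(p + h), ‖g 0 t‖ ^ 2 ≤ 8 * Λ ^ 2 / θ * ∫ t in E ∩ Icc p (p + h), ‖g 0 t‖ ^ 2 := by
  have hgc : ∀ j, Continuous (g j) := fun j =>
    continuous_iff_continuousAt.2 fun x => (hg j x).continuousAt
  set W := ∫ t in p..(p + h), ‖g 0 t‖ ^ 2 with hW
  have hW0 : 0 ≤ W := intervalIntegral.integral_nonneg (by linarith) fun t _ => by positivity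
  set WE := ∫ t in E ∩ Icc p (p + h), ‖g 0 t‖ ^ 2 with hWE
  have hWE0 : 0 ≤ WE := integral_nonneg fun t => by positivity
  have hΛ0 : 0 ≤ Λ := le_trans (by positivity) hΛ
  -- the bound for the derivative of order `n + 1`
  set C2 := B * W / h * μ ^ (2 * (n + 1)) * (2 + (μ * h) ^ 2) with hC2
  have hC20 : 0 ≤ C2 := by positivity
  set C := √C2 with hC
  have hC0 : 0 ≤ C := Real.sqrt_nonneg _
  have hCC : C ^ 2 = C2 := Real.sq_sqrt hC20
  have hb : ∀ t ∈ Icc p (p + h), ‖g (n + 1) t‖ ≤ C := by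
    intro t ht
    have q1 := sup_sq (hg (n + 1)) (hgc (n + 2)) hh ht
    apply Real.le_sqrt_of_sq_le
    refine q1.trans ?_
    have q2 := mul_le_mul_of_nonneg_left h1 (show 0 ≤ 2 / h by positivity)
    have q3 := mul_le_mul_of_nonneg_left h2 hh.le
    refine (add_le_add q2 q3).trans (le_of_eq ?_)
    rw [hC2]
    have e : μ ^ (2 * (n + 2)) = μ ^ (2 * (n + 1)) * μ ^ 2 := by
      rw [← pow_add]
      congr 1
    rw [e]
    field_simp
  set R := C * h ^ (n + 1) / ((n + 1).factorial : ℝ) with hR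
  have hR0 : 0 ≤ R := by positivity
  have hf : (0 : ℝ) < (n + 1).factorial := by exact_mod_cast Nat.factorial_pos _
  have hRR : 2 * h * (Λ + 1) ^ 2 * R ^ 2 ≤ W / 2 := by
    have e1 : 2 * h * (Λ + 1) ^ 2 * R ^ 2 =
        (2 * B * (μ * h) ^ (2 * (n + 1)) * (2 + (μ * h) ^ 2) * (Λ + 1) ^ 2) * W /
          ((n + 1).factorial : ℝ) ^ 2 := by
      rw [hR, div_pow, mul_pow, hCC, hC2, ← pow_mul, mul_comm (n + 1) 2, mul_pow μ h (2 * (n + 1))]
      field_simp
    rw [e1, div_le_iff₀ (by positivity)]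
    have := mul_le_mul_of_nonneg_right hn hW0
    linarith
  -- for every positive parameter
  have key : ∀ η : ℝ, 0 < η → W ≤ 8 * Λ ^ 2 / θ * WE + η * (4 * h * Λ ^ 2) := by
    intro η hη
    set m2 := 2 / (θ * h) * WE + η with hm2
    have hm20 : 0 < m2 := by positivity
    set m := √m2 with hm
    have hm0 : 0 ≤ m := Real.sqrt_nonneg _
    have hmm : m ^ 2 = m2 := Real.sq_sqrt hm20.le
    have q1 := markov_set (f := fun t => ‖g 0 t‖ ^ 2) (by have := hgc 0; fun_prop) (fun t => by positivity)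
      (A := E ∩ Icc p (p + h)) hh hθ hm20 inter_subset_right hvol (by
        have e : m2 * (θ * h / 2) = WE + η * (θ * h / 2) := by
          rw [hm2]
          field_simp
        rw [e]
        have : 0 ≤ η * (θ * h / 2) := by positivity
        linarith)
    set s := θ * h / (8 * (n + 1)) with hs
    have hs0 : 0 < s := by positivity
    obtain ⟨x, hx1, hx2⟩ := sep_points hs0 n (E ∩ Icc p (p + h) ∩ {t | ‖g 0 t‖ ^ 2 ≤ m2}) p
      (fun t ht => ht.1.2.1) (by
        refine lt_of_lt_of_le ?_ q1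
        rw [ENNReal.ofReal_lt_ofReal_iff (by positivity), hs]
        have e : 2 * (n : ℝ) * (θ * h / (8 * (n + 1))) = θ * h / 4 * (n / (n + 1)) := by
          field_simp
          ring
        rw [e]
        have h3 : (n : ℝ) / (n + 1) ≤ 1 := by
          rw [div_le_one (by positivity)]
          linarith
        have h4 : θ * h / 4 * (n / (n + 1)) ≤ θ * h / 4 * 1 :=
          mul_le_mul_of_nonneg_left h3 (by positivity)
        have : 0 < θ * h := by positivity
        linarith)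
    have hval : ∀ i ≤ n, ‖g 0 (x i)‖ ≤ m := fun i hi =>
      Real.le_sqrt_of_sq_le (hx1 i hi).2
    have q2 : ∀ y ∈ Icc p (p + h), ‖g 0 y‖ ≤ Λ * m + (Λ + 1) * R := by
      intro y hy
      have q3 := interp hh.le hs0 hC0 hm0 n hg hb (fun i hi => (hx1 i hi).1.2) hx2 hval hy
      rw [← hR] at q3
      have e : 2 * h / s = 16 * (n + 1) / θ := by
        rw [hs]
        field_simp
        ring
      rw [e] at q3
      have q4 := mul_le_mul_of_nonneg_right hΛ (show 0 ≤ m + R by positivity)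
      linarith
    have q5 : W ≤ ∫ _t in p..(p + h), (2 * (Λ * m) ^ 2 + 2 * ((Λ + 1) * R) ^ 2) := by
      apply intervalIntegral.integral_mono_on (by linarith)
      · apply Continuous.intervalIntegrable
        have := hgc 0
        fun_prop
      · exact intervalIntegrable_const
      · intro y hy
        have q6 := pow_le_pow_left₀ (norm_nonneg _) (q2 y hy) 2
        nlinarith [sq_nonneg (Λ * m - (Λ + 1) * R)]
    rw [intervalIntegral.integral_const, add_sub_cancel_left, smul_eq_mul] at q5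
    have e7 : h * (2 * (Λ * m) ^ 2 + 2 * ((Λ + 1) * R) ^ 2) =
        2 * h * Λ ^ 2 * m2 + 2 * h * (Λ + 1) ^ 2 * R ^ 2 := by
      rw [← hmm]
      ring
    rw [e7] at q5
    have e8 : 2 * (2 * h * Λ ^ 2 * m2) = 8 * Λ ^ 2 / θ * WE + η * (4 * h * Λ ^ 2) := by
      rw [hm2]
      field_simp
      ring
    linarith
  have h5 : Tendsto (fun η : ℝ => 8 * Λ ^ 2 / θ * WE + η * (4 * h * Λ ^ 2)) (𝓝[>] 0)
      (𝓝 (8 * Λ ^ 2 / θ * WE + 0 * (4 * h * Λ ^ 2))) := by
    apply Tendsto.mono_left _ nhdsWithin_le_nhds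
    have : Continuous fun η : ℝ => 8 * Λ ^ 2 / θ * WE + η * (4 * h * Λ ^ 2) := by fun_prop
    exact this.tendsto 0
  rw [zero_mul, add_zero] at h5
  apply ge_of_tendsto h5
  filter_upwards [self_mem_nhdsWithin] with η hη
  exact key η hη

/-- The parameters exist. -/
theorem exists_params {θ c B : ℝ} (hθ : 0 < θ) (hc : 0 ≤ c) (hB : 0 ≤ B) : ∃ (n : ℕ) (Λ : ℝ), 1 ≤ Λ ∧
    (n + 1) * ((16 * (n + 1) / θ) ^ n / n.factorial) ≤ Λ ∧
    2 * B * c ^ (2 * (n + 1)) * (2 + c ^ 2) * (Λ + 1) ^ 2 ≤ 1 / 2 * ((n + 1).factorial : ℝ) ^ 2 := by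
  set D0 := (32 / θ + 1) * Real.exp 1 with hD0
  have hD1 : 1 ≤ D0 := by
    have h1 : 1 ≤ Real.exp 1 := Real.one_le_exp (by norm_num)
    have h2 : 1 ≤ 32 / θ + 1 := by
      have : 0 < 32 / θ := by positivity
      linarith
    rw [hD0]
    nlinarith
  set K := 4 * B * (2 + c ^ 2) + 1 with hK
  have hK0 : 0 < K := by positivity
  have hlim := (FloorSemiring.tendsto_pow_div_factorial_atTop (c * (2 * D0))).comp (tendsto_add_atTop_nat 1)
  obtain ⟨n, hn⟩ := (hlim.eventually (gt_mem_nhds (show (0 : ℝ) < 1 / K by positivity))).exists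
  have hn' : (c * (2 * D0)) ^ (n + 1) / ((n + 1).factorial : ℝ) < 1 / K := hn
  have hf : (0 : ℝ) < (n + 1).factorial := by exact_mod_cast Nat.factorial_pos _
  refine ⟨n, D0 ^ (n + 1), one_le_pow₀ hD1, ?_, ?_⟩
  · have h1 : ((n : ℝ) + 1) ^ n / n.factorial ≤ Real.exp (n + 1) :=
      Real.pow_div_factorial_le_exp _ (by positivity) n
    have h2 : ((n : ℝ) + 1) ≤ 2 ^ n := by
      have : n + 1 ≤ 2 ^ n := Nat.lt_two_pow_self
      exact_mod_cast this
    have e1 : ((n : ℝ) + 1) * ((16 * (n + 1) / θ) ^ n / n.factorial) =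
        (n + 1) * (16 / θ) ^ n * (((n : ℝ) + 1) ^ n / n.factorial) := by
      have : (16 * ((n : ℝ) + 1) / θ) ^ n = (16 / θ) ^ n * ((n : ℝ) + 1) ^ n := by
        rw [← mul_pow]
        congr 1
        ring
      rw [this]
      ring
    rw [e1]
    calc (n + 1) * (16 / θ) ^ n * (((n : ℝ) + 1) ^ n / n.factorial)
        ≤ 2 ^ n * (16 / θ) ^ n * Real.exp (n + 1) := by gcongr
      _ = (32 / θ) ^ n * Real.exp 1 ^ (n + 1) := by
          rw [← mul_pow, ← Real.exp_nat_mul]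
          congr 2
          · ring
          · push_cast; ring
      _ ≤ (32 / θ + 1) ^ (n + 1) * Real.exp 1 ^ (n + 1) := by
          apply mul_le_mul_of_nonneg_right _ (by positivity)
          calc (32 / θ) ^ n ≤ (32 / θ + 1) ^ n := by
                gcongr
                linarith
            _ ≤ (32 / θ + 1) ^ (n + 1) := by
                apply pow_le_pow_right₀ _ (Nat.le_succ n)
                have : 0 < 32 / θ := by positivity
                linarith
      _ = D0 ^ (n + 1) := by rw [hD0, mul_pow]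
  · have h3 : D0 ^ (n + 1) + 1 ≤ (2 * D0) ^ (n + 1) := by
      rw [mul_pow 2 D0 (n + 1)]
      have h4 : (2 : ℝ) ≤ 2 ^ (n + 1) := by
        calc (2 : ℝ) = 2 ^ 1 := by norm_num
          _ ≤ 2 ^ (n + 1) := pow_le_pow_right₀ (by norm_num) (by omega)
      have h5 : 1 ≤ D0 ^ (n + 1) := one_le_pow₀ hD1
      have h5' : 2 * D0 ^ (n + 1) ≤ 2 ^ (n + 1) * D0 ^ (n + 1) :=
        mul_le_mul_of_nonneg_right h4 (by linarith)
      linarith
    have h6 : (c * (2 * D0)) ^ (n + 1) ≤ ((n + 1).factorial : ℝ) / K := by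
      rw [div_lt_iff₀ hf, one_div_mul_eq_div] at hn'
      exact hn'.le
    have h7 := pow_le_pow_left₀ (by positivity) h6 2
    calc 2 * B * c ^ (2 * (n + 1)) * (2 + c ^ 2) * (D0 ^ (n + 1) + 1) ^ 2
        ≤ 2 * B * c ^ (2 * (n + 1)) * (2 + c ^ 2) * ((2 * D0) ^ (n + 1)) ^ 2 := by
          gcongr
      _ = 2 * B * (2 + c ^ 2) * ((c * (2 * D0)) ^ (n + 1)) ^ 2 := by
          rw [mul_pow c (2 * D0) (n + 1), mul_pow (c ^ (n + 1)), ← pow_mul c, mul_comm (n + 1) 2]
          ring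
      _ ≤ 2 * B * (2 + c ^ 2) * (((n + 1).factorial : ℝ) / K) ^ 2 := by
          gcongr
      _ ≤ 1 / 2 * ((n + 1).factorial : ℝ) ^ 2 := by
          rw [div_pow, ← mul_div_assoc, div_le_iff₀ (by positivity)]
          have h8 : 1 ≤ K := by
            rw [hK]
            have : 0 ≤ 4 * B * (2 + c ^ 2) := by positivity
            linarith
          have h9 : 2 * B * (2 + c ^ 2) ≤ 1 / 2 * K := by rw [hK]; linarith
          have h10 : K ≤ K ^ 2 := by nlinarith
          have h11 : 0 ≤ ((n + 1).factorial : ℝ) ^ 2 := by positivity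
          calc 2 * B * (2 + c ^ 2) * ((n + 1).factorial : ℝ) ^ 2
              ≤ (1 / 2 * K ^ 2) * ((n + 1).factorial : ℝ) ^ 2 :=
                mul_le_mul_of_nonneg_right (by linarith) h11
            _ = _ := by ring

/-- Summation over cells. -/
theorem cells_nonpos {F : ℝ → ℝ} (hF : Integrable F) {h : ℝ} (hh : 0 < h)
    (H : ∀ p : ℝ, ∫ t in p..(p + h), F t ≤ 0) : ∫ t, F t ≤ 0 := by
  have h1 : Tendsto (fun N : ℕ => -((N : ℝ) * h)) atTop atBot :=
    tendsto_neg_atTop_atBot.comp (tendsto_natCast_atTop_atTop.atTop_mul_const hh)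
  have h2 : Tendsto (fun N : ℕ => (N : ℝ) * h) atTop atTop :=
    tendsto_natCast_atTop_atTop.atTop_mul_const hh
  have h3 := intervalIntegral_tendsto_integral hF h1 h2
  apply le_of_tendsto h3
  refine Eventually.of_forall fun N => ?_
  have h4 := intervalIntegral.sum_integral_adjacent_intervals (f := F) (μ := volume)
    (a := fun i : ℕ => -((N : ℝ) * h) + i * h) (n := 2 * N) fun i _ => hF.intervalIntegrable
  have e1 : -((N : ℝ) * h) + ((2 * N : ℕ) : ℝ) * h = N * h := by push_cast; ring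
  have e2 : -((N : ℝ) * h) + ((0 : ℕ) : ℝ) * h = -(N * h) := by push_cast; ring
  beta_reduce at h4
  rw [e1, e2] at h4
  rw [← h4]
  apply Finset.sum_nonpos
  intro i _
  have e3 : -((N : ℝ) * h) + ((i + 1 : ℕ) : ℝ) * h = (-((N : ℝ) * h) + i * h) + h := by push_cast; ring
  rw [e3]
  exact H _

theorem int_comb {ν : Measure ℝ} {a b c d : ℝ → ℝ} (ha : Integrable a ν) (hb : Integrable b ν)
    (hc : Integrable c ν) (hd : Integrable d ν) (x y z : ℝ) :
    ∫ t, (a t - x * b t - y * c t - z * d t) ∂ν =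
      (∫ t, a t ∂ν) - x * (∫ t, b t ∂ν) - y * (∫ t, c t ∂ν) - z * ∫ t, d t ∂ν := by
  have i1 : Integrable (fun t => a t - x * b t) ν := ha.sub (hb.const_mul x)
  have i2 : Integrable (fun t => a t - x * b t - y * c t) ν := i1.sub (hc.const_mul y)
  rw [integral_sub i2 (hd.const_mul z), integral_sub i1 (hc.const_mul y),
    integral_sub ha (hb.const_mul x), integral_const_mul, integral_const_mul, integral_const_mul]

theorem int_comb3 {ν : Measure ℝ} {a b c : ℝ → ℝ} (ha : Integrable a ν) (hb : Integrable b ν)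
    (hc : Integrable c ν) (x y : ℝ) :
    ∫ t, (a t - x * b t - y * c t) ∂ν =
      (∫ t, a t ∂ν) - x * (∫ t, b t ∂ν) - y * ∫ t, c t ∂ν := by
  have i1 : Integrable (fun t => a t - x * b t) ν := ha.sub (hb.const_mul x)
  rw [integral_sub i1 (hc.const_mul y),
    integral_sub ha (hb.const_mul x), integral_const_mul, integral_const_mul]

/-- **Thick sets.** -/
theorem thick_line {h θ μ : ℝ} {n : ℕ} (hh : 0 < h) (hθ : 0 < θ) (hμ : 0 < μ)
    {g : ℕ → ℝ → ℂ} (hg : ∀ j t, HasDerivAt (g j) (g (j + 1) t) t) {E : Set ℝ} (hE : MeasurableSet E)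
    (hvol : ∀ p : ℝ, ENNReal.ofReal (θ * h) ≤ volume (E ∩ Icc p (p + h)))
    (i0 : Integrable fun t => ‖g 0 t‖ ^ 2) (i1 : Integrable fun t => ‖g (n + 1) t‖ ^ 2)
    (i2 : Integrable fun t => ‖g (n + 2) t‖ ^ 2)
    (h1 : ∫ t, ‖g (n + 1) t‖ ^ 2 ≤ μ ^ (2 * (n + 1)) * ∫ t, ‖g 0 t‖ ^ 2)
    (h2 : ∫ t, ‖g (n + 2) t‖ ^ 2 ≤ μ ^ (2 * (n + 2)) * ∫ t, ‖g 0 t‖ ^ 2)
    {Λ : ℝ} (hΛ : (n + 1) * ((16 * (n + 1) / θ) ^ n / n.factorial) ≤ Λ)
    (hn : 2 * 8 * (μ * h) ^ (2 * (n + 1)) * (2 + (μ * h) ^ 2) * (Λ + 1) ^ 2 ≤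
      1 / 2 * ((n + 1).factorial : ℝ) ^ 2) :
    ∫ t, ‖g 0 t‖ ^ 2 ≤ 32 * Λ ^ 2 / (3 * θ) * ∫ t in E, ‖g 0 t‖ ^ 2 := by
  have hgc : ∀ j, Continuous (g j) := fun j =>
    continuous_iff_continuousAt.2 fun x => (hg j x).continuousAt
  set c0 := 8 * Λ ^ 2 / θ with hc0
  have hc00 : 0 ≤ c0 := by positivity
  set c1 := (8 * μ ^ (2 * (n + 1)))⁻¹ with hc1
  set c2 := (8 * μ ^ (2 * (n + 2)))⁻¹ with hc2
  have hc10 : 0 < c1 := by positivity
  have hc20 : 0 < c2 := by positivity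
  have iE : Integrable (E.indicator fun t => ‖g 0 t‖ ^ 2) := i0.indicator hE
  set F : ℝ → ℝ := fun t => ((‖g 0 t‖ ^ 2 - c0 * E.indicator (fun t => ‖g 0 t‖ ^ 2) t) -
    c1 * ‖g (n + 1) t‖ ^ 2) - c2 * ‖g (n + 2) t‖ ^ 2 with hF
  have iF : Integrable F := ((i0.sub (iE.const_mul c0)).sub (i1.const_mul c1)).sub (i2.const_mul c2)
  have key := cells_nonpos iF hh (by
    intro p
    have e1 : ∫ t in p..(p + h), F t = (∫ t in p..(p + h), ‖g 0 t‖ ^ 2) -
        c0 * (∫ t in p..(p + h), E.indicator (fun t => ‖g 0 t‖ ^ 2) t) -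
        c1 * (∫ t in p..(p + h), ‖g (n + 1) t‖ ^ 2) - c2 * ∫ t in p..(p + h), ‖g (n + 2) t‖ ^ 2 := by
      simp only [intervalIntegral.integral_of_le (show p ≤ p + h by linarith)]
      exact int_comb i0.restrict iE.restrict i1.restrict i2.restrict c0 c1 c2
    have e2 : ∫ t in p..(p + h), E.indicator (fun t => ‖g 0 t‖ ^ 2) t =
        ∫ t in E ∩ Icc p (p + h), ‖g 0 t‖ ^ 2 := by
      rw [intervalIntegral.integral_of_le (by linarith), ← integral_Icc_eq_integral_Ioc,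
        setIntegral_indicator hE, inter_comm]
    rw [e1, e2]
    set W := ∫ t in p..(p + h), ‖g 0 t‖ ^ 2 with hW
    have n1 : 0 ≤ ∫ t in p..(p + h), ‖g (n + 1) t‖ ^ 2 :=
      intervalIntegral.integral_nonneg (by linarith) fun t _ => by positivity
    have n2 : 0 ≤ ∫ t in p..(p + h), ‖g (n + 2) t‖ ^ 2 :=
      intervalIntegral.integral_nonneg (by linarith) fun t _ => by positivity
    have n3 : 0 ≤ ∫ t in E ∩ Icc p (p + h), ‖g 0 t‖ ^ 2 := integral_nonneg fun t => by positivity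
    have n4 : 0 ≤ c0 * ∫ t in E ∩ Icc p (p + h), ‖g 0 t‖ ^ 2 := mul_nonneg hc00 n3
    have n5 := mul_nonneg hc10.le n1
    have n6 := mul_nonneg hc20.le n2
    by_cases a1 : ∫ t in p..(p + h), ‖g (n + 1) t‖ ^ 2 ≤ 8 * μ ^ (2 * (n + 1)) * W
    · by_cases a2 : ∫ t in p..(p + h), ‖g (n + 2) t‖ ^ 2 ≤ 8 * μ ^ (2 * (n + 2)) * W
      · have q := cell_thick hh hθ hμ (by norm_num : (0 : ℝ) ≤ 8) hg (hvol p) a1 a2 hΛ hn
        linarith
      · push Not at a2
        have q : W ≤ c2 * ∫ t in p..(p + h), ‖g (n + 2) t‖ ^ 2 := by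
          rw [hc2, inv_mul_eq_div, le_div_iff₀ (by positivity)]
          linarith
        linarith
    · push Not at a1
      have q : W ≤ c1 * ∫ t in p..(p + h), ‖g (n + 1) t‖ ^ 2 := by
        rw [hc1, inv_mul_eq_div, le_div_iff₀ (by positivity)]
        linarith
      linarith)
  have e3 : ∫ t, F t = (∫ t, ‖g 0 t‖ ^ 2) - c0 * (∫ t, E.indicator (fun t => ‖g 0 t‖ ^ 2) t) -
      c1 * (∫ t, ‖g (n + 1) t‖ ^ 2) - c2 * ∫ t, ‖g (n + 2) t‖ ^ 2 := by
    exact int_comb i0 iE i1 i2 c0 c1 c2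
  rw [e3, integral_indicator hE] at key
  set V := ∫ t, ‖g 0 t‖ ^ 2 with hV
  have b1 : c1 * (∫ t, ‖g (n + 1) t‖ ^ 2) ≤ V / 8 := by
    rw [hc1, inv_mul_eq_div, div_le_iff₀ (by positivity)]
    linarith
  have b2 : c2 * (∫ t, ‖g (n + 2) t‖ ^ 2) ≤ V / 8 := by
    rw [hc2, inv_mul_eq_div, div_le_iff₀ (by positivity)]
    linarith
  have b3 : 32 * Λ ^ 2 / (3 * θ) * (∫ t in E, ‖g 0 t‖ ^ 2) = 4 / 3 * (c0 * ∫ t in E, ‖g 0 t‖ ^ 2) := by
    rw [hc0]
    field_simp
    ring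
  rw [b3]
  linarith

/-- **Thin sets.** -/
theorem thin_line {h δ : ℝ} (hh : 0 < h) (hδ : 0 ≤ δ) {g g' : ℝ → ℂ} (hg : ∀ x, HasDerivAt g (g' x) x)
    (hg' : Continuous g') {E : Set ℝ} (hE : MeasurableSet E)
    (hvol : ∀ p : ℝ, volume (E ∩ Icc p (p + h)) ≤ ENNReal.ofReal (δ * h))
    (i0 : Integrable fun t => ‖g t‖ ^ 2) (i1 : Integrable fun t => ‖g t‖ * ‖g' t‖) :
    ∫ t in E, ‖g t‖ ^ 2 ≤ δ * ((∫ t, ‖g t‖ ^ 2) + 2 * h * ∫ t, ‖g t‖ * ‖g' t‖) := by
  have hgc : Continuous g := continuous_iff_continuousAt.2 fun x => (hg x).continuousAt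
  have iE : Integrable (E.indicator fun t => ‖g t‖ ^ 2) := i0.indicator hE
  set F : ℝ → ℝ := fun t => (E.indicator (fun t => ‖g t‖ ^ 2) t - δ * ‖g t‖ ^ 2) -
    δ * (2 * h) * (‖g t‖ * ‖g' t‖) with hF
  have iF : Integrable F := (iE.sub (i0.const_mul δ)).sub (i1.const_mul (δ * (2 * h)))
  have key := cells_nonpos iF hh (by
    intro p
    have e1 : ∫ t in p..(p + h), F t = (∫ t in p..(p + h), E.indicator (fun t => ‖g t‖ ^ 2) t) -
        δ * (∫ t in p..(p + h), ‖g t‖ ^ 2) - δ * (2 * h) * ∫ t in p..(p + h), ‖g t‖ * ‖g' t‖ := by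
      simp only [intervalIntegral.integral_of_le (show p ≤ p + h by linarith)]
      exact int_comb3 iE.restrict i0.restrict i1.restrict δ (δ * (2 * h))
    have e2 : ∫ t in p..(p + h), E.indicator (fun t => ‖g t‖ ^ 2) t =
        ∫ t in E ∩ Icc p (p + h), ‖g t‖ ^ 2 := by
      rw [intervalIntegral.integral_of_le (by linarith), ← integral_Icc_eq_integral_Ioc,
        setIntegral_indicator hE, inter_comm]
    rw [e1, e2]
    set A := ∫ t in p..(p + h), ‖g t‖ ^ 2 with hA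
    set J := ∫ t in p..(p + h), ‖g t‖ * ‖g' t‖ with hJ
    have hA0 : 0 ≤ A := intervalIntegral.integral_nonneg (by linarith) fun t _ => by positivity
    have hJ0 : 0 ≤ J := intervalIntegral.integral_nonneg (by linarith) fun t _ => by positivity
    have hsup : ∀ y ∈ Icc p (p + h), ‖g y‖ ^ 2 ≤ (A + h * (2 * J)) / h := by
      intro y hy
      rw [le_div_iff₀ hh, mul_comm]
      exact sup_sq0 hg hg' hh hy
    have hfin : volume (E ∩ Icc p (p + h)) < ⊤ := (hvol p).trans_lt ENNReal.ofReal_lt_top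
    have b1 : ∫ t in E ∩ Icc p (p + h), ‖g t‖ ^ 2 ≤ ∫ _t in E ∩ Icc p (p + h), (A + h * (2 * J)) / h := by
      apply setIntegral_mono_on i0.integrableOn _ (hE.inter measurableSet_Icc) fun y hy => hsup y hy.2
      exact integrableOn_const hfin.ne
    rw [setIntegral_const, smul_eq_mul] at b1
    have b2 : volume.real (E ∩ Icc p (p + h)) ≤ δ * h := by
      rw [Measure.real]
      have := ENNReal.toReal_mono ENNReal.ofReal_ne_top (hvol p)
      rwa [ENNReal.toReal_ofReal (by positivity)] at this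
    have b3 := mul_le_mul_of_nonneg_right b2 (show 0 ≤ (A + h * (2 * J)) / h by positivity)
    have e4 : δ * h * ((A + h * (2 * J)) / h) = δ * A + δ * (2 * h) * J := by
      field_simp
    linarith)
  have e3 : ∫ t, F t = (∫ t, E.indicator (fun t => ‖g t‖ ^ 2) t) -
      δ * (∫ t, ‖g t‖ ^ 2) - δ * (2 * h) * ∫ t, ‖g t‖ * ‖g' t‖ := by
    exact int_comb3 iE i0 i1 δ (δ * (2 * h))
  rw [e3, integral_indicator hE] at key
  linarith

end

end U345Z
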