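import Pool.Agent.U345.ZL2

/-!
# Thick sets and thin sets: the results for zeta
-/

set_option autoImplicit false

open MeasureTheory Filter Topology Complex

namespace U345Z

open Q97.MM

noncomputable section

variable (k : ℕ)

/-- the points far from the centre -/
def farS (η T : ℝ) : Set ℝ := {y : ℝ | η * T ≤ |y - T|}

theorem farS_measurable (η T : ℝ) : MeasurableSet (farS η T) :=
  measurableSet_le measurable_const (by fun_prop)

/-- The mean squares of the derivatives far from the centre, on both sides. -/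
theorem far_mean2 (j B : ℕ) {η ε : ℝ} (hη : 0 < η) (hε : 0 < ε) : ∀ᶠ T : ℝ in atTop, ∀ U : ℝ,
    Adm T U → (1 + T) ^ B * ∫ y in farS η T, ‖gg k j T U y‖ ^ 2 ≤ ε * V0 k T U := by
  obtain ⟨c₀, hc₀, hc₀'⟩ := V0_lower k
  have hK := KK_nonneg (2 * (2 * k))
  set ε₂ := ε * c₀ / (KK (2 * (2 * k)) + 1) with hε₂
  have hε₂0 : 0 < ε₂ := by positivity
  filter_upwards [far_gg k j B hη hε₂0, specN k j one_pos] with T h1 h2 U hA
  have hT : 0 < T := by linarith [hA.1]
  have hT1 : 1 ≤ T := by linarith [hA.1]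
  have hU := hA.pos
  obtain ⟨i1, -⟩ := h2 U hA
  have iaw := aw_integrable (2 * (2 * k)) T hU
  have b1 : ∫ y in farS η T, (1 + T) ^ B * ‖gg k j T U y‖ ^ 2 ≤
      ∫ y in farS η T, ε₂ * aw (2 * (2 * k)) T U y := by
    apply setIntegral_mono_on (i1.const_mul _).integrableOn (iaw.const_mul _).integrableOn
      (farS_measurable η T)
    intro y hy
    exact h1 U hA y hy
  have b2 : ∫ y in farS η T, ε₂ * aw (2 * (2 * k)) T U y ≤
      ∫ y, ε₂ * aw (2 * (2 * k)) T U y :=
    setIntegral_le_integral (iaw.const_mul _) (Eventually.of_forall fun y => by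
      have := aw_nonneg (2 * (2 * k)) T U y
      positivity)
  rw [integral_const_mul] at b1
  have b3 : ∫ y, ε₂ * aw (2 * (2 * k)) T U y = ε₂ * (U * KK (2 * (2 * k))) := by
    rw [integral_const_mul, aw_integral _ T hU]
  rw [b3] at b2
  refine b1.trans (b2.trans ?_)
  have b4 := hc₀' T U hA
  have b5 : U ≤ T ^ (2 * k) * U := le_mul_of_one_le_left hU.le (one_le_pow₀ hT1)
  have b6 : ε₂ * KK (2 * (2 * k)) ≤ ε * c₀ := by
    rw [hε₂, div_mul_eq_mul_div, div_le_iff₀ (by positivity)]
    have : 0 ≤ ε * c₀ := by positivity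
    nlinarith
  calc ε₂ * (U * KK (2 * (2 * k))) = (ε₂ * KK (2 * (2 * k))) * U := by ring
    _ ≤ (ε * c₀) * (T ^ (2 * k) * U) := mul_le_mul b6 b5 hU.le (by positivity)
    _ = ε * (c₀ * (T ^ (2 * k) * U)) := by ring
    _ ≤ ε * V0 k T U := mul_le_mul_of_nonneg_left b4 hε.le

/-- The part of the moment far from the centre. -/
theorem far_zeta {η ε : ℝ} (hη : 0 < η) (hε : 0 < ε) : ∀ᶠ T : ℝ in atTop, ∀ U : ℝ,
    Adm T U → ∫ y in farS η T, zq k T U y ≤ ε * JJ k T U (1 / 2) := by
  filter_upwards [far_mean2 k 0 0 hη (half_pos hε), cmp_set k (half_pos hε)] with T h1 h2 U hA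
  obtain ⟨-, -, hM, h3⟩ := h2 U hA
  have h4 := (abs_le.1 (h3 _ (farS_measurable η T))).1
  have h5 := h1 U hA
  have hV0 := V0_pos k hA
  rw [pow_zero, one_mul, ← div_le_iff₀ hV0] at h5
  rw [← div_le_iff₀ hM]
  linarith

theorem pow_add_one_le {x : ℝ} (hx : 0 ≤ x) (m : ℕ) : x ^ (m + 1) + 1 ≤ (x + 1) ^ (m + 1) := by
  induction m with
  | zero => simp
  | succ m ih =>
    have h1 := mul_le_mul_of_nonneg_right ih (show 0 ≤ x + 1 by linarith)
    have h2 : 0 ≤ x ^ (m + 1) := by positivity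
    calc x ^ (m + 1 + 1) + 1 ≤ (x ^ (m + 1) + 1) * (x + 1) := by
          rw [pow_succ x (m + 1)]
          nlinarith
      _ ≤ (x + 1) ^ (m + 1) * (x + 1) := h1
      _ = _ := by rw [← pow_succ]

theorem specM (j : ℕ) : ∀ᶠ T : ℝ in atTop, ∀ U : ℝ, Adm T U →
    Integrable (fun y => ‖gg k (j + 1) T U y‖ ^ 2) ∧
    ∫ y, ‖gg k (j + 1) T U y‖ ^ 2 ≤ (((k : ℝ) + 1) / 2 * Real.log T) ^ (2 * (j + 1)) * V0 k T U := by
  filter_upwards [specN k (j + 1) one_pos] with T h1 U hA
  obtain ⟨i1, h2⟩ := h1 U hA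
  refine ⟨i1, h2.trans ?_⟩
  have hV0 := V0_pos k hA
  have hL := hA.log
  have h3 : (k : ℝ) ^ (2 * (j + 1)) + 1 ≤ ((k : ℝ) + 1) ^ (2 * (j + 1)) := by
    have e : 2 * (j + 1) = (2 * j + 1) + 1 := by ring
    rw [e]
    exact pow_add_one_le (Nat.cast_nonneg k) _
  have e : ((k : ℝ) + 1) / 2 * Real.log T = Real.log T / 2 * ((k : ℝ) + 1) := by ring
  rw [e, mul_pow, mul_assoc]
  have : 0 ≤ Real.log T := by linarith
  gcongr

/-- **Thick sets.** -/
theorem thickZ {a θ : ℝ} (ha : 0 < a) (hθ : 0 < θ) (hθ1 : θ ≤ 1) : ∃ κ : ℝ, 0 < κ ∧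
    ∀ η : ℝ, 0 < η → ∀ᶠ T : ℝ in atTop, ∀ U : ℝ, Adm T U → ∀ E : Set ℝ, MeasurableSet E →
    (∀ x : ℝ, |x - T| ≤ η * T → ENNReal.ofReal (θ * (a / Real.log T)) ≤
      volume (E ∩ Set.Icc x (x + a / Real.log T))) →
    κ * JJ k T U (1 / 2) ≤ ∫ y in E, zq k T U y := by
  obtain ⟨n, Λ, hΛ1, hΛ, hn⟩ := exists_params (θ := θ) (c := ((k : ℝ) + 1) / 2 * a) (B := 8) hθ
    (by positivity) (by norm_num)
  have hΛ0 : 0 < Λ := by linarith
  set κ := 3 * θ / (64 * Λ ^ 2) with hκ
  have hκ0 : 0 < κ := by positivity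
  refine ⟨κ, hκ0, fun η hη => ?_⟩
  filter_upwards [specM k n, specM k (n + 1), cmp_set k (half_pos hκ0),
    far_zeta k (half_pos hη) (half_pos hκ0), eventually_ge_atTop (2 * a / η)] with
    T h1 h2 h3 h4 h5 U hA E hE hvol
  obtain ⟨i1, s1⟩ := h1 U hA
  obtain ⟨i2, s2⟩ := h2 U hA
  obtain ⟨i0, iz, hM, hcmp⟩ := h3 U hA
  have hfar := h4 U hA
  have hL := hA.log
  have hL0 : 0 < Real.log T := by linarith
  have hT : 0 < T := by linarith [hA.1]
  have hV0 := V0_pos k hA
  set L := Real.log T with hLd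
  set h := a / L with hh
  have hh0 : 0 < h := by positivity
  have hha : h ≤ a := div_le_self ha.le hL
  have hhη : h ≤ η / 2 * T := by
    rw [div_le_iff₀ hη] at h5
    linarith
  set E' := E ∪ farS (η / 2) T with hE'
  have hE'm : MeasurableSet E' := hE.union (farS_measurable _ _)
  have hvol' : ∀ p : ℝ, ENNReal.ofReal (θ * h) ≤ volume (E' ∩ Set.Icc p (p + h)) := by
    intro p
    by_cases hp : |p - T| ≤ η * T
    · exact (hvol p hp).trans (measure_mono (Set.inter_subset_inter_left _ Set.subset_union_left))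
    · push Not at hp
      have hsub : Set.Icc p (p + h) ⊆ E' ∩ Set.Icc p (p + h) := by
        intro y hy
        refine ⟨Or.inr ?_, hy⟩
        show η / 2 * T ≤ |y - T|
        have q1 : |p - T| ≤ |y - T| + |p - y| := by
          have := abs_add_le (y - T) (p - y)
          have e : (y - T) + (p - y) = p - T := by ring
          rwa [e] at this
        have q2 : |p - y| ≤ h := by
          rw [abs_le]
          constructor <;> linarith [hy.1, hy.2]
        linarith
      refine le_trans ?_ (measure_mono hsub)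
      rw [Real.volume_Icc, add_sub_cancel_left]
      exact ENNReal.ofReal_le_ofReal (by nlinarith)
  set g : ℕ → ℝ → ℂ := fun j t => I ^ j * gg k j T U t with hg
  have hgd : ∀ j t, HasDerivAt (g j) (g (j + 1) t) t := by
    intro j t
    have q := (gg_deriv k j T U t).const_mul (I ^ j)
    have e : I ^ j * (I * gg k (j + 1) T U t) = g (j + 1) t := by
      rw [hg]
      beta_reduce
      rw [pow_succ]
      ring
    rwa [e] at q
  have hgn : ∀ j t, ‖g j t‖ = ‖gg k j T U t‖ := by
    intro j t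
    rw [hg]
    beta_reduce
    rw [norm_mul, norm_pow, Complex.norm_I, one_pow, one_mul]
  have hVV : ∫ t, ‖g 0 t‖ ^ 2 = V0 k T U := by
    simp only [hgn, gg_fq]
    rfl
  have key := thick_line (h := h) (θ := θ) (μ := ((k : ℝ) + 1) / 2 * L) (n := n) hh0 hθ
    (by positivity) hgd hE'm hvol'
    (by simpa only [hgn] using i0) (by simpa only [hgn] using i1) (by simpa only [hgn] using i2)
    (by rw [hVV]; simpa only [hgn] using s1) (by rw [hVV]; simpa only [hgn] using s2) hΛ
    (by
      have e : ((k : ℝ) + 1) / 2 * L * h = ((k : ℝ) + 1) / 2 * a := by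
        rw [hh]
        field_simp
      rw [e]
      exact hn)
  rw [hVV] at key
  simp only [hgn] at key
  have k1 : 2 * κ ≤ (∫ y in E', ‖gg k 0 T U y‖ ^ 2) / V0 k T U := by
    rw [le_div_iff₀ hV0]
    have e : 2 * κ * (32 * Λ ^ 2 / (3 * θ)) = 1 := by
      rw [hκ]
      field_simp
      norm_num
    have q := mul_le_mul_of_nonneg_left key (show 0 ≤ 2 * κ by positivity)
    rw [← mul_assoc, e, one_mul] at q
    exact q
  have k2 := (abs_le.1 (hcmp E' hE'm)).2
  have k3 : 3 / 2 * κ * JJ k T U (1 / 2) ≤ ∫ y in E', zq k T U y := by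
    rw [← le_div_iff₀ hM]
    linarith
  have k4 : ∫ y in E', zq k T U y ≤ (∫ y in E, zq k T U y) + ∫ y in farS (η / 2) T, zq k T U y := by
    have j1 : Integrable (zq k T U) (volume.restrict E) := iz.restrict
    have j2 : Integrable (zq k T U) (volume.restrict (farS (η / 2) T)) := iz.restrict
    have q1 := integral_mono_measure (Measure.restrict_union_le E (farS (η / 2) T))
      (Eventually.of_forall fun y => zq_nonneg k T U y) (j1.add_measure j2)
    rwa [integral_add_measure j1 j2] at q1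
  linarith

/-- **Thin sets.** -/
theorem thinZ {a δ η ε : ℝ} (ha : 0 < a) (hδ : 0 ≤ δ) (hη : 0 < η) (hε : 0 < ε) :
    ∀ᶠ T : ℝ in atTop, ∀ U : ℝ, Adm T U → ∀ E : Set ℝ, MeasurableSet E →
    (∀ x : ℝ, |x - T| ≤ η * T → volume (E ∩ Set.Icc x (x + a / Real.log T)) ≤
      ENNReal.ofReal (δ * (a / Real.log T))) →
    ∫ y in E, zq k T U y ≤ ((1 + a * k) * δ + ε) * JJ k T U (1 / 2) := by
  set r := ε / (4 * (a * δ + 1)) with hr
  have hr0 : 0 < r := by positivity
  filter_upwards [specN k 1 (show 0 < r ^ 2 by positivity), cmp_set k (show 0 < ε / 4 by positivity),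
    far_zeta k (half_pos hη) (show 0 < ε / 4 by positivity), eventually_gt_atTop (2 * a / η)] with
    T h1 h3 h4 h5 U hA E hE hvol
  obtain ⟨i1, s1⟩ := h1 U hA
  obtain ⟨i0, iz, hM, hcmp⟩ := h3 U hA
  have hfar := h4 U hA
  have hL := hA.log
  have hL0 : 0 < Real.log T := by linarith
  have hT : 0 < T := by linarith [hA.1]
  have hV0 := V0_pos k hA
  set L := Real.log T with hLd
  set V := V0 k T U with hVd
  set h := a / L with hh
  have hh0 : 0 < h := by positivity
  have hha : h ≤ a := div_le_self ha.le hL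
  have hhη : h < η / 2 * T := by
    rw [div_lt_iff₀ hη] at h5
    linarith
  set E' := E \ farS (η / 2) T with hE'
  have hE'm : MeasurableSet E' := hE.diff (farS_measurable _ _)
  have hvol' : ∀ p : ℝ, volume (E' ∩ Set.Icc p (p + h)) ≤ ENNReal.ofReal (δ * h) := by
    intro p
    by_cases hp : |p - T| ≤ η * T
    · exact (measure_mono (Set.inter_subset_inter_left _ Set.sdiff_subset)).trans (hvol p hp)
    · push Not at hp
      have hemp : E' ∩ Set.Icc p (p + h) = ∅ := by
        rw [Set.eq_empty_iff_forall_notMem]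
        rintro y ⟨hy1, hy⟩
        apply hy1.2
        show η / 2 * T ≤ |y - T|
        have q1 : |p - T| ≤ |y - T| + |p - y| := by
          have := abs_add_le (y - T) (p - y)
          have e : (y - T) + (p - y) = p - T := by ring
          rwa [e] at this
        have q2 : |p - y| ≤ h := by
          rw [abs_le]
          constructor <;> linarith [hy.1, hy.2]
        linarith
      rw [hemp, measure_empty]
      exact bot_le
  have hcI : Continuous (fun y => I * gg k 1 T U y) := continuous_const.mul (gg_cont k 1 T U)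
  have hnI : ∀ y, ‖I * gg k 1 T U y‖ = ‖gg k 1 T U y‖ := fun y => by
    rw [norm_mul, Complex.norm_I, one_mul]
  have hVV : ∫ t, ‖gg k 0 T U t‖ ^ 2 = V := by
    simp only [gg_fq]
    rfl
  obtain ⟨icr, hcr⟩ := cs_set (gg_cont k 0 T U) hcI i0 (by simpa only [hnI] using i1) MeasurableSet.univ
    (A := V) (B := (L / 2 * (k + r)) ^ 2 * V) (by rw [setIntegral_univ, hVV]) (by
      simp only [hnI]
      refine s1.trans ?_
      have e : (L / 2 * (k + r)) ^ 2 * V = (L / 2) ^ (2 * 1) * ((k + r) ^ 2 * V) := by ring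
      rw [e]
      have q : (k : ℝ) ^ (2 * 1) + r ^ 2 ≤ (k + r) ^ 2 := by
        have : 0 ≤ (k : ℝ) * r := by positivity
        have e2 : ((k : ℝ) + r) ^ 2 = (k : ℝ) ^ (2 * 1) + 2 * (k * r) + r ^ 2 := by ring
        linarith
      gcongr)
  rw [setIntegral_univ] at hcr
  have e1 : √V * √((L / 2 * (k + r)) ^ 2 * V) = L / 2 * (k + r) * V := by
    rw [Real.sqrt_mul (by positivity), Real.sqrt_sq (by positivity)]
    have := Real.mul_self_sqrt hV0.le
    calc √V * (L / 2 * (k + r) * √V) = L / 2 * (k + r) * (√V * √V) := by ring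
      _ = _ := by rw [this]
  rw [e1] at hcr
  have key := thin_line hh0 hδ (gg_deriv k 0 T U) hcI hE'm hvol' i0 icr
  rw [hVV] at key
  have k1 : (∫ y in E', ‖gg k 0 T U y‖ ^ 2) / V ≤ (1 + a * k) * δ + ε / 4 := by
    rw [div_le_iff₀ hV0]
    refine key.trans ?_
    have q1 : 2 * h * ∫ t, ‖gg k 0 T U t‖ * ‖I * gg k 1 T U t‖ ≤ a * (k + r) * V := by
      calc _ ≤ 2 * h * (L / 2 * (k + r) * V) := mul_le_mul_of_nonneg_left hcr (by positivity)
        _ = _ := by
          rw [hh]
          field_simp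
    have q2 : a * δ * r ≤ ε / 4 := by
      rw [hr, ← mul_div_assoc, div_le_iff₀ (by positivity)]
      have : 0 ≤ a * δ := by positivity
      nlinarith
    calc δ * (V + 2 * h * ∫ t, ‖gg k 0 T U t‖ * ‖I * gg k 1 T U t‖) ≤ δ * (V + a * (k + r) * V) := by
          gcongr
      _ = ((1 + a * k) * δ + a * δ * r) * V := by ring
      _ ≤ _ := by gcongr
  have k2 := (abs_le.1 (hcmp E' hE'm)).1
  have k3 : ∫ y in E', zq k T U y ≤ ((1 + a * k) * δ + ε / 2) * JJ k T U (1 / 2) := by
    rw [← div_le_iff₀ hM]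
    linarith
  have k4 : ∫ y in E, zq k T U y ≤ (∫ y in E', zq k T U y) + ∫ y in farS (η / 2) T, zq k T U y := by
    have j1 : Integrable (zq k T U) (volume.restrict E') := iz.restrict
    have j2 : Integrable (zq k T U) (volume.restrict (farS (η / 2) T)) := iz.restrict
    have q1 := integral_mono_measure (Measure.restrict_union_le E' (farS (η / 2) T))
      (Eventually.of_forall fun y => zq_nonneg k T U y) (j1.add_measure j2)
    rw [integral_add_measure j1 j2] at q1
    refine le_trans ?_ q1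
    apply setIntegral_mono_set iz.integrableOn (Eventually.of_forall fun y => zq_nonneg k T U y)
    apply LE.le.eventuallyLE
    intro y hy
    by_cases h6 : y ∈ farS (η / 2) T
    · exact Or.inr h6
    · exact Or.inl ⟨hy, h6⟩
  have : 0 ≤ ε / 4 * JJ k T U (1 / 2) := by positivity
  linarith

end

end U345Z
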