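import Pool.Agent.U345.ZL3

/-!
# Maxima over boxes near the critical line
-/

set_option autoImplicit false

open MeasureTheory Filter Topology Complex FourierTransform ComplexConjugate

namespace U345Z

open Q97.MM

noncomputable section

variable (k : ℕ)

theorem pow_exp_le (j : ℕ) {B b v : ℝ} (hb : |b| ≤ B) : v ^ (2 * j) * Real.exp (b * v) ≤
    (2 * j).factorial * (Real.exp ((B + 1) * v) + Real.exp (-((B + 1) * v))) := by
  have h1 : v ^ (2 * j) ≤ (2 * j).factorial * Real.exp |v| := by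
    have h2 := Real.pow_div_factorial_le_exp |v| (abs_nonneg v) (2 * j)
    rw [div_le_iff₀ (by positivity)] at h2
    rw [← (even_two_mul j).pow_abs]
    linarith
  have hB : 0 ≤ B := (abs_nonneg b).trans hb
  have h3 : Real.exp (b * v) ≤ Real.exp (B * |v|) := by
    apply Real.exp_le_exp.2
    refine (le_abs_self _).trans ?_
    rw [abs_mul]
    exact mul_le_mul_of_nonneg_right hb (abs_nonneg v)
  have h4 : Real.exp |v| * Real.exp (B * |v|) ≤ Real.exp ((B + 1) * v) + Real.exp (-((B + 1) * v)) := by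
    rw [← Real.exp_add]
    have p1 := Real.exp_pos ((B + 1) * v)
    have p2 := Real.exp_pos (-((B + 1) * v))
    rcases abs_cases v with ⟨h, -⟩ | ⟨h, -⟩ <;> rw [h]
    · have e : v + B * v = (B + 1) * v := by ring
      rw [e]
      linarith
    · have e : -v + B * -v = -((B + 1) * v) := by ring
      rw [e]
      linarith
  calc v ^ (2 * j) * Real.exp (b * v) ≤ ((2 * j).factorial * Real.exp |v|) * Real.exp (B * |v|) :=
        mul_le_mul h1 h3 (Real.exp_pos _).le (by positivity)
    _ = (2 * j).factorial * (Real.exp |v| * Real.exp (B * |v|)) := by ring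
    _ ≤ _ := mul_le_mul_of_nonneg_left h4 (by positivity)

/-- **The mean squares of the derivatives on the lines near the critical line.** -/
theorem specL (j : ℕ) {B : ℝ} (hB : 0 ≤ B) : ∃ C : ℝ, 0 < C ∧ ∀ᶠ T : ℝ in atTop, ∀ U : ℝ, Adm T U →
    ∀ x : ℝ, |x - 1 / 2| ≤ B / Real.log T →
    Integrable (fun y : ℝ => ‖iteratedDeriv j (HH k T U) (x + y * I)‖ ^ 2) ∧
    ∫ y : ℝ, ‖iteratedDeriv j (HH k T U) (x + y * I)‖ ^ 2 ≤ C * (Real.log T) ^ (2 * j) * V0 k T U := by
  have hk0 : (0 : ℝ) ≤ k := Nat.cast_nonneg k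
  set a := B + 1 with ha
  have ha0 : 0 < a := by positivity
  set C := ((2 * j).factorial : ℝ) * (4 * Real.exp (k * a) + 1) with hC
  refine ⟨C, by positivity, ?_⟩
  filter_upwards [Gn_le k ha0.le one_pos, G_fe k a one_pos,
    (log_div_tendsto a).eventually (gt_mem_nhds (show (0 : ℝ) < 1 / 4 by norm_num))] with
    T h1 h2 h3 U hA x hx
  have hL := hA.log
  have hL0 : 0 < Real.log T := by linarith
  have hV0 := V0_pos k hA
  obtain ⟨M, δ, hM, hδ, hbd⟩ := HH_bd k T (by linarith [hA.1]) hA.pos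
  have hdiff := HH_differentiable k T U
  have h4 := abs_lt.1 h3
  have hBa : B / Real.log T ≤ a / Real.log T := div_le_div_of_nonneg_right (by linarith) hL0.le
  have hx' := abs_le.1 hx
  have r1 := rep (c := 1 / 2) (x := 1 / 2 + a / Real.log T) hdiff hδ hM hbd (by norm_num)
    (by norm_num) (by linarith) (by linarith)
  have r2 := rep (c := 1 / 2) (x := 1 / 2 + -a / Real.log T) hdiff hδ hM hbd (by norm_num)
    (by norm_num) (by rw [neg_div]; linarith) (by rw [neg_div]; linarith)
  have g1 : VI (HH k T U) (1 / 2 + a / Real.log T) = Real.exp (k * a) * (Gn k T U a * V0 k T U) := by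
    rw [VI_HH]
    unfold Gn
    rw [div_mul_cancel₀ _ hV0.ne']
    congr 2
    field_simp
    ring
  have g2 : VI (HH k T U) (1 / 2 + -a / Real.log T) =
      Real.exp (-(k * a)) * (Gn k T U (-a) * V0 k T U) := by
    rw [VI_HH]
    unfold Gn
    rw [div_mul_cancel₀ _ hV0.ne']
    congr 2
    field_simp
    ring
  rw [g1] at r1
  rw [g2] at r2
  set z : ℂ := ((x - 1 / 2 : ℝ) : ℂ) with hz
  have hzr : z.re = x - 1 / 2 := Complex.ofReal_re _
  have hcz : conj z = z := Complex.conj_ofReal _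
  obtain ⟨p1, p2⟩ := corr_iter (c := 1 / 2) (z := z) (w := z) hdiff hδ hM hbd (by norm_num)
    (by norm_num) (by rw [hzr]; linarith) (by rw [hzr]; linarith) (by rw [hzr]; linarith)
    (by rw [hzr]; linarith) j j
  have etl : tl (iteratedDeriv j (HH k T U)) (1 / 2) z =
      fun y : ℝ => iteratedDeriv j (HH k T U) (x + y * I) := by
    funext y
    unfold tl
    congr 1
    rw [hz]
    push_cast
    ring
  rw [etl] at p1 p2
  have i1 : Integrable (fun y : ℝ => ‖iteratedDeriv j (HH k T U) (x + y * I)‖ ^ 2) :=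
    (memLp_two_iff_integrable_sq_norm p1.aestronglyMeasurable).mp p1
  refine ⟨i1, ?_⟩
  have e0 : ∫ y : ℝ, ‖iteratedDeriv j (HH k T U) (x + y * I)‖ ^ 2 =
      ∫ ξ : ℝ, ((2 * Real.pi * ξ) ^ (2 * j) * Real.exp (4 * Real.pi * ξ * (x - 1 / 2))) *
        dens (HH k T U) (1 / 2) ξ := by
    have q1 : ((∫ y : ℝ, ‖iteratedDeriv j (HH k T U) (x + y * I)‖ ^ 2 : ℝ) : ℂ) =
        ((∫ ξ : ℝ, ((2 * Real.pi * ξ) ^ (2 * j) * Real.exp (4 * Real.pi * ξ * (x - 1 / 2))) *
          dens (HH k T U) (1 / 2) ξ : ℝ) : ℂ) := by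
      rw [← integral_complex_ofReal, ← integral_complex_ofReal]
      calc ∫ y : ℝ, ((‖iteratedDeriv j (HH k T U) (x + y * I)‖ ^ 2 : ℝ) : ℂ) =
            ∫ y : ℝ, iteratedDeriv j (HH k T U) (x + y * I) *
              conj (iteratedDeriv j (HH k T U) (x + y * I)) := by
            refine integral_congr_ae (Eventually.of_forall fun y => ?_)
            beta_reduce
            rw [Complex.mul_conj, Complex.normSq_eq_norm_sq]
        _ = _ := p2
        _ = _ := by
            refine integral_congr_ae (Eventually.of_forall fun ξ => ?_)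
            beta_reduce
            rw [hcz, hz, ← two_mul j]
            push_cast
            congr 3
            ring
    exact_mod_cast q1
  rw [e0]
  have hpt : ∀ ξ : ℝ, ((2 * Real.pi * ξ) ^ (2 * j) * Real.exp (4 * Real.pi * ξ * (x - 1 / 2))) *
        dens (HH k T U) (1 / 2) ξ ≤
      ((Real.log T / 2) ^ (2 * j) * ((2 * j).factorial : ℝ)) *
        (Real.exp (4 * Real.pi * ξ * (1 / 2 + a / Real.log T - 1 / 2)) *
          dens (HH k T U) (1 / 2) ξ +
        Real.exp (4 * Real.pi * ξ * (1 / 2 + -a / Real.log T - 1 / 2)) *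
          dens (HH k T U) (1 / 2) ξ) := by
    intro ξ
    have hd := dens_nonneg (HH k T U) (1 / 2) ξ
    have h5 := pow_exp_le j (B := B) (b := (x - 1 / 2) * Real.log T)
      (v := 4 * Real.pi * ξ / Real.log T) (by
        rw [abs_mul, abs_of_pos hL0]
        rwa [le_div_iff₀ hL0] at hx)
    have e1 : (2 * Real.pi * ξ) ^ (2 * j) =
        (Real.log T / 2) ^ (2 * j) * (4 * Real.pi * ξ / Real.log T) ^ (2 * j) := by
      rw [← mul_pow]
      congr 1
      field_simp
      ring
    have e2 : (x - 1 / 2) * Real.log T * (4 * Real.pi * ξ / Real.log T) =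
        4 * Real.pi * ξ * (x - 1 / 2) := by
      field_simp
    have e3 : (B + 1) * (4 * Real.pi * ξ / Real.log T) =
        4 * Real.pi * ξ * (1 / 2 + a / Real.log T - 1 / 2) := by
      rw [ha]
      ring
    have e4 : -(4 * Real.pi * ξ * (1 / 2 + a / Real.log T - 1 / 2)) =
        4 * Real.pi * ξ * (1 / 2 + -a / Real.log T - 1 / 2) := by
      ring
    rw [e2, e3, e4] at h5
    rw [e1, ← add_mul, mul_assoc ((Real.log T / 2) ^ (2 * j)), mul_assoc ((Real.log T / 2) ^ (2 * j)),
      mul_assoc ((Real.log T / 2) ^ (2 * j))]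
    apply mul_le_mul_of_nonneg_left _ (by positivity)
    calc _ ≤ _ := mul_le_mul_of_nonneg_right h5 hd
      _ = _ := by ring
  have hdc := dens_measurable hdiff hδ hbd (c := 1 / 2) (by norm_num) (by norm_num)
  have ibig := (r1.1.add r2.1).const_mul ((Real.log T / 2) ^ (2 * j) * ((2 * j).factorial : ℝ))
  have d2 : Integrable (fun ξ : ℝ => ((2 * Real.pi * ξ) ^ (2 * j) *
      Real.exp (4 * Real.pi * ξ * (x - 1 / 2))) * dens (HH k T U) (1 / 2) ξ) := by
    refine ibig.mono' ?_ (Eventually.of_forall fun ξ => ?_)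
    · apply Measurable.aestronglyMeasurable
      exact ((by fun_prop : Measurable fun ξ : ℝ => (2 * Real.pi * ξ) ^ (2 * j) *
        Real.exp (4 * Real.pi * ξ * (x - 1 / 2)))).mul hdc.measurable
    · rw [Real.norm_of_nonneg (mul_nonneg (mul_nonneg ((even_two_mul j).pow_nonneg _)
        (Real.exp_pos _).le) (dens_nonneg _ _ _))]
      exact hpt ξ
  have hI := integral_mono d2 ibig hpt
  refine hI.trans ?_
  simp only [Pi.add_apply]
  rw [integral_const_mul, integral_add r1.1 r2.1, r1.2, r2.2]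
  have b1 := h1 U hA
  have b2 := (abs_le.1 (h2 U hA)).2
  have e6 : Real.exp (-(k * a)) * Real.exp (2 * k * a) = Real.exp (k * a) := by
    rw [← Real.exp_add]
    congr 1
    ring
  have e7 : Real.exp (-(k * a)) ≤ 1 := by
    rw [Real.exp_le_one_iff]
    have : 0 ≤ k * a := by positivity
    linarith
  have p0 := Real.exp_pos (-(k * a))
  have p1' := Real.exp_pos (k * a)
  have b3 : Real.exp (k * a) * (Gn k T U a * V0 k T U) ≤ 2 * Real.exp (k * a) * V0 k T U := by
    have : Gn k T U a * V0 k T U ≤ 2 * V0 k T U := mul_le_mul_of_nonneg_right (by linarith) hV0.le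
    nlinarith
  have b4 : Real.exp (-(k * a)) * (Gn k T U (-a) * V0 k T U) ≤
      (1 + 2 * Real.exp (k * a)) * V0 k T U := by
    have q1 : Gn k T U (-a) ≤ 1 + Real.exp (2 * k * a) * 2 := by
      have := mul_le_mul_of_nonneg_left b1 (Real.exp_pos (2 * k * a)).le
      linarith
    have q2 : Real.exp (-(k * a)) * Gn k T U (-a) ≤ 1 + 2 * Real.exp (k * a) := by
      have := mul_le_mul_of_nonneg_left q1 p0.le
      have q3 : Real.exp (-(k * a)) * (1 + Real.exp (2 * k * a) * 2) =
          Real.exp (-(k * a)) + 2 * (Real.exp (-(k * a)) * Real.exp (2 * k * a)) := by ring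
      rw [q3, e6] at this
      linarith
    rw [← mul_assoc]
    exact mul_le_mul_of_nonneg_right q2 hV0.le
  have e8 : (Real.log T / 2) ^ (2 * j) ≤ Real.log T ^ (2 * j) := by
    apply pow_le_pow_left₀ (by positivity)
    linarith
  calc (Real.log T / 2) ^ (2 * j) * ((2 * j).factorial : ℝ) *
        (Real.exp (k * a) * (Gn k T U a * V0 k T U) + Real.exp (-(k * a)) * (Gn k T U (-a) * V0 k T U))
      ≤ (Real.log T / 2) ^ (2 * j) * ((2 * j).factorial : ℝ) *
        ((4 * Real.exp (k * a) + 1) * V0 k T U) := by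
        apply mul_le_mul_of_nonneg_left _ (by positivity)
        linarith
    _ ≤ Real.log T ^ (2 * j) * ((2 * j).factorial : ℝ) * ((4 * Real.exp (k * a) + 1) * V0 k T U) := by
        gcongr
    _ = _ := by rw [hC]; ring

/-! ### Boxes -/

/-- Two variables: the value at a point of a box. -/
theorem box_point {H : ℂ → ℂ} (hH : Differentiable ℂ H) {c c' lo hi x y : ℝ} (hx : x ∈ Set.Icc c c')
    (hlo : lo < hi) (hy : y ∈ Set.Icc lo hi) :
    ‖H (x + y * I)‖ ^ 2 ≤
      2 * (2 / (hi - lo) * (∫ t in lo..hi, ‖H (c + t * I)‖ ^ 2) +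
        (hi - lo) * ∫ t in lo..hi, ‖iteratedDeriv 1 H (c + t * I)‖ ^ 2) +
      2 * (c' - c) * ∫ u in c..c', (2 / (hi - lo) * (∫ t in lo..hi, ‖iteratedDeriv 1 H (u + t * I)‖ ^ 2) +
        (hi - lo) * ∫ t in lo..hi, ‖iteratedDeriv 2 H (u + t * I)‖ ^ 2) := by
  have hline : ∀ (G : ℂ → ℂ), Differentiable ℂ G → ∀ u : ℝ, ∀ y ∈ Set.Icc lo hi,
      ‖G (u + y * I)‖ ^ 2 ≤ 2 / (hi - lo) * (∫ t in lo..hi, ‖G (u + t * I)‖ ^ 2) +
        (hi - lo) * ∫ t in lo..hi, ‖deriv G (u + t * I)‖ ^ 2 := by
    intro G hG u y hy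
    have hd : ∀ t : ℝ, HasDerivAt (fun t : ℝ => G (u + t * I)) (I * deriv G (u + t * I)) t := by
      intro t
      exact ln_hasDerivAt hG u t
    have hc : Continuous (fun t : ℝ => I * deriv G (u + t * I)) := by
      have := (deriv_entire hG).continuous
      fun_prop
    have h1 := sup_sq hd hc (p := lo) (h := hi - lo) (by linarith) (y := y)
      (by rwa [add_sub_cancel])
    rw [add_sub_cancel] at h1
    simpa only [norm_mul, Complex.norm_I, one_mul] using h1
  have hd1 : iteratedDeriv 1 H = deriv H := iteratedDeriv_one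
  have hd2 : iteratedDeriv 2 H = deriv (deriv H) := by
    rw [show (2 : ℕ) = 1 + 1 from rfl, iteratedDeriv_succ, iteratedDeriv_one]
  rw [hd1, hd2]
  have hH1 := deriv_entire hH
  -- horizontal
  have hh : ∀ u : ℝ, HasDerivAt (fun u : ℝ => H (u + y * I)) (deriv H (u + y * I)) u := by
    intro u
    have h1 : HasDerivAt (fun w : ℂ => H (w + y * I)) (deriv H (u + y * I)) (u : ℂ) :=
      (hH (u + y * I)).hasDerivAt.comp_add_const _ _
    exact h1.comp_ofReal
  have hcd : Continuous (fun u : ℝ => deriv H (u + y * I)) := by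
    have := hH1.continuous
    fun_prop
  have h3 : ∫ u in c..x, deriv H (u + y * I) = H (x + y * I) - H (c + y * I) :=
    intervalIntegral.integral_eq_sub_of_hasDerivAt (fun u _ => hh u) (hcd.intervalIntegrable _ _)
  have hcc : c ≤ c' := hx.1.trans hx.2
  have h4 : ‖H (x + y * I) - H (c + y * I)‖ ^ 2 ≤ (c' - c) * ∫ u in c..c', ‖deriv H (u + y * I)‖ ^ 2 := by
    rcases eq_or_lt_of_le hx.1 with h5 | h5
    · rw [← h5, sub_self, norm_zero, zero_pow two_ne_zero]
      exact mul_nonneg (by linarith) (intervalIntegral.integral_nonneg hcc fun u _ => by positivity)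
    · rw [← h3]
      have h6 := intervalIntegral.norm_integral_le_integral_norm (f := fun u : ℝ => deriv H (u + y * I))
        (μ := volume) h5.le
      have h7 := sq_int_le hcd.norm h5
      have h8 := pow_le_pow_left₀ (norm_nonneg _) h6 2
      have h9 : ∫ u in c..x, ‖deriv H (u + y * I)‖ ^ 2 ≤ ∫ u in c..c', ‖deriv H (u + y * I)‖ ^ 2 :=
        intervalIntegral.integral_mono_interval le_rfl h5.le hx.2
          (Eventually.of_forall fun t => by positivity)
          ((hcd.norm.pow 2).intervalIntegrable _ _)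
      have h10 : 0 ≤ ∫ u in c..c', ‖deriv H (u + y * I)‖ ^ 2 :=
        intervalIntegral.integral_nonneg hcc fun u _ => by positivity
      refine h8.trans (h7.trans ?_)
      exact mul_le_mul (by linarith [hx.2]) h9
        (intervalIntegral.integral_nonneg h5.le fun u _ => by positivity) (by linarith)
  have h11 : ‖H (x + y * I)‖ ^ 2 ≤ 2 * ‖H (c + y * I)‖ ^ 2 + 2 * ‖H (x + y * I) - H (c + y * I)‖ ^ 2 := by
    have q1 : ‖H (x + y * I)‖ ≤ ‖H (c + y * I)‖ + ‖H (x + y * I) - H (c + y * I)‖ := by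
      have := norm_add_le (H (c + y * I)) (H (x + y * I) - H (c + y * I))
      rwa [add_sub_cancel] at this
    have q2 := pow_le_pow_left₀ (norm_nonneg _) q1 2
    nlinarith [sq_nonneg (‖H (c + y * I)‖ - ‖H (x + y * I) - H (c + y * I)‖)]
  have h12 := hline H hH c y hy
  have hpc : ∀ G : ℂ → ℂ, Continuous G → Continuous (fun u : ℝ => ∫ t in lo..hi, ‖G (u + t * I)‖ ^ 2) := by
    intro G hG
    apply intervalIntegral.continuous_parametric_intervalIntegral_of_continuous'
    fun_prop
  have h13 : ∫ u in c..c', ‖deriv H (u + y * I)‖ ^ 2 ≤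
      ∫ u in c..c', (2 / (hi - lo) * (∫ t in lo..hi, ‖deriv H (u + t * I)‖ ^ 2) +
        (hi - lo) * ∫ t in lo..hi, ‖deriv (deriv H) (u + t * I)‖ ^ 2) := by
    apply intervalIntegral.integral_mono_on hcc
    · exact (hcd.norm.pow 2).intervalIntegrable _ _
    · apply Continuous.intervalIntegrable
      exact (continuous_const.mul (hpc _ hH1.continuous)).add
        (continuous_const.mul (hpc _ (deriv_entire hH1).continuous))
    · intro u _
      exact hline _ hH1 u y hy
  have h14 := mul_le_mul_of_nonneg_left h13 (show 0 ≤ c' - c by linarith)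
  linarith

/-- Integrals over overlapping intervals. -/
theorem overlap {φ : ℝ → ℝ} (hφ : ∀ t, 0 ≤ φ t) (iφ : Integrable φ) {h : ℝ} (hh : 0 < h) (N : ℕ)
    (S : Finset ℤ) :
    ∑ m ∈ S, ∫ t in ((m - N : ℝ) * h)..((m + 1 + N : ℝ) * h), φ t ≤ (2 * N + 1) * ∫ t, φ t := by
  have hsplit : ∀ m : ℤ, ∫ t in ((m - N : ℝ) * h)..((m + 1 + N : ℝ) * h), φ t =
      ∑ j ∈ Finset.range (2 * N + 1), ∫ t in ((m - N + j : ℝ) * h)..((m - N + j + 1 : ℝ) * h), φ t := by
    intro m
    have h1 := intervalIntegral.sum_integral_adjacent_intervals (f := φ) (μ := volume)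
      (a := fun j : ℕ => (m - N + j : ℝ) * h) (n := 2 * N + 1) fun i _ => iφ.intervalIntegrable
    have e1 : ((m : ℝ) - N + ((2 * N + 1 : ℕ) : ℝ)) * h = (m + 1 + N) * h := by push_cast; ring
    have e2 : ((m : ℝ) - N + ((0 : ℕ) : ℝ)) * h = (m - N) * h := by push_cast; ring
    beta_reduce at h1
    rw [e1, e2] at h1
    rw [← h1]
    apply Finset.sum_congr rfl
    intro j _
    push_cast
    congr 1
    ring
  simp only [hsplit]
  rw [Finset.sum_comm]
  have hj : ∀ j ∈ Finset.range (2 * N + 1),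
      ∑ m ∈ S, ∫ t in ((m - N + j : ℝ) * h)..((m - N + j + 1 : ℝ) * h), φ t ≤ ∫ t, φ t := by
    intro j _
    have hle : ∀ m : ℤ, ((m - N + j : ℝ) * h) ≤ ((m - N + j + 1 : ℝ) * h) := fun m =>
      mul_le_mul_of_nonneg_right (by linarith) hh.le
    have e3 : ∀ m ∈ S, ∫ t in ((m - N + j : ℝ) * h)..((m - N + j + 1 : ℝ) * h), φ t =
        ∫ t in Set.Ioc ((m - N + j : ℝ) * h) ((m - N + j + 1 : ℝ) * h), φ t := fun m _ =>
      intervalIntegral.integral_of_le (hle m)
    rw [Finset.sum_congr rfl e3, ← integral_biUnion_finset S (fun m _ => measurableSet_Ioc) _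
      (fun m _ => iφ.integrableOn)]
    · exact setIntegral_le_integral iφ (Eventually.of_forall hφ)
    · intro m _ m' _ hmm
      rw [Function.onFun, Set.disjoint_left]
      rintro t ⟨h1, h2⟩ ⟨h3, h4⟩
      apply hmm
      have a1 : (m - N + j : ℝ) * h < (m' - N + j + 1 : ℝ) * h := h1.trans_le h4
      have a2 : (m' - N + j : ℝ) * h < (m - N + j + 1 : ℝ) * h := h3.trans_le h2
      have a3 := lt_of_mul_lt_mul_right a1 hh.le
      have a4 := lt_of_mul_lt_mul_right a2 hh.le
      have a5 : (m : ℝ) < ((m' + 1 : ℤ) : ℝ) := by push_cast; linarith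
      have a6 : (m' : ℝ) < ((m + 1 : ℤ) : ℝ) := by push_cast; linarith
      rw [Int.cast_lt] at a5 a6
      omega
  refine (Finset.sum_le_sum hj).trans (le_of_eq ?_)
  rw [Finset.sum_const, Finset.card_range, nsmul_eq_mul]
  push_cast
  ring

end

end U345Z
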