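import Pool.Agent.U345.ZM1

/-!
# The majorant on boxes, and clusters of zeros
-/

set_option autoImplicit false

open MeasureTheory Filter Topology Complex FourierTransform ComplexConjugate

namespace U345Z

open Q97.MM

noncomputable section

variable (k : ℕ)

/-- the inner expression of the majorant -/
def Tg (N : ℕ) (T U : ℝ) (j : ℕ) (m : ℤ) (u : ℝ) : ℝ :=
  2 / ((2 * N + 1) * (1 / Real.log T)) *
    (∫ t in ((m - N : ℝ) * (1 / Real.log T))..((m + 1 + N : ℝ) * (1 / Real.log T)),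
      ‖iteratedDeriv j (HH k T U) (u + t * I)‖ ^ 2) +
  ((2 * N + 1) * (1 / Real.log T)) *
    (∫ t in ((m - N : ℝ) * (1 / Real.log T))..((m + 1 + N : ℝ) * (1 / Real.log T)),
      ‖iteratedDeriv (j + 1) (HH k T U) (u + t * I)‖ ^ 2)

/-- the majorant on the box around the cell with the index `m` -/
def Th (B : ℝ) (N : ℕ) (T U : ℝ) (m : ℤ) : ℝ :=
  2 * Tg k N T U 0 m (1 / 2 - B / Real.log T) +
  2 * (2 * B / Real.log T) *
    ∫ u in (1 / 2 - B / Real.log T)..(1 / 2 + B / Real.log T), Tg k N T U 1 m u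

theorem Tg_cont (N : ℕ) (T U : ℝ) (j : ℕ) (m : ℤ) : Continuous (Tg k N T U j m) := by
  have hpc : ∀ (i : ℕ) (lo hi : ℝ),
      Continuous (fun u : ℝ => ∫ t in lo..hi, ‖iteratedDeriv i (HH k T U) (u + t * I)‖ ^ 2) := by
    intro i lo hi
    apply intervalIntegral.continuous_parametric_intervalIntegral_of_continuous'
    have := (iter_entire (HH_differentiable k T U) i).continuous
    fun_prop
  exact (continuous_const.mul (hpc _ _ _)).add (continuous_const.mul (hpc _ _ _))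

theorem Th_point {B : ℝ} {N : ℕ} {T U : ℝ} (hT : 0 < Real.log T) {m : ℤ} {x y : ℝ}
    (hx : |x - 1 / 2| ≤ B / Real.log T) (hy1 : (m - N : ℝ) * (1 / Real.log T) ≤ y)
    (hy2 : y ≤ (m + 1 + N : ℝ) * (1 / Real.log T)) :
    ‖HH k T U (x + y * I)‖ ^ 2 ≤ Th k B N T U m := by
  have hh : (0 : ℝ) < 1 / Real.log T := by positivity
  have hx' := abs_le.1 hx
  have h1 := box_point (HH_differentiable k T U) (c := 1 / 2 - B / Real.log T)
    (c' := 1 / 2 + B / Real.log T) (lo := (m - N : ℝ) * (1 / Real.log T))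
    (hi := (m + 1 + N : ℝ) * (1 / Real.log T)) (x := x) (y := y)
    ⟨by linarith, by linarith⟩ (by
      apply mul_lt_mul_of_pos_right _ hh
      have : (0 : ℝ) ≤ N := Nat.cast_nonneg N
      linarith) ⟨hy1, hy2⟩
  have e1 : (m + 1 + N : ℝ) * (1 / Real.log T) - (m - N : ℝ) * (1 / Real.log T) =
      (2 * N + 1) * (1 / Real.log T) := by ring
  have e2 : 1 / 2 + B / Real.log T - (1 / 2 - B / Real.log T) = 2 * B / Real.log T := by ring
  rw [e1, e2] at h1
  unfold Th Tg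
  simpa only [iteratedDeriv_zero, zero_add, one_add_one_eq_two] using h1

theorem Tg_sum (N : ℕ) (j : ℕ) {B : ℝ} (hB : 0 ≤ B) : ∃ C : ℝ, 0 < C ∧ ∀ᶠ T : ℝ in atTop, ∀ U : ℝ,
    Adm T U → ∀ x : ℝ, |x - 1 / 2| ≤ B / Real.log T → ∀ S : Finset ℤ,
    ∑ m ∈ S, Tg k N T U j m x ≤ C * Real.log T ^ (2 * j + 1) * V0 k T U := by
  obtain ⟨C0, hC0, h0⟩ := specL k j hB
  obtain ⟨C1, hC1, h1⟩ := specL k (j + 1) hB
  refine ⟨2 * C0 + (2 * N + 1) ^ 2 * C1, by positivity, ?_⟩
  filter_upwards [h0, h1] with T h2 h3 U hA x hx S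
  obtain ⟨i0, s0⟩ := h2 U hA x hx
  obtain ⟨i1, s1⟩ := h3 U hA x hx
  have hL := hA.log
  have hL0 : 0 < Real.log T := by linarith
  have hV0 := V0_pos k hA
  have hh : (0 : ℝ) < 1 / Real.log T := by positivity
  have o0 := overlap (fun t => by positivity) i0 hh N S
  have o1 := overlap (fun t => by positivity) i1 hh N S
  unfold Tg
  rw [Finset.sum_add_distrib, ← Finset.mul_sum, ← Finset.mul_sum]
  set L := Real.log T with hLd
  set V := V0 k T U with hV
  have q0 : 2 / ((2 * N + 1) * (1 / L)) * ∑ m ∈ S, (∫ t in ((m - N : ℝ) * (1 / L))..((m + 1 + N : ℝ) * (1 / L)),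
      ‖iteratedDeriv j (HH k T U) (x + t * I)‖ ^ 2) ≤ 2 * C0 * L ^ (2 * j + 1) * V := by
    calc _ ≤ 2 / ((2 * N + 1) * (1 / L)) * ((2 * N + 1) * (C0 * L ^ (2 * j) * V)) := by
          apply mul_le_mul_of_nonneg_left _ (by positivity)
          exact o0.trans (mul_le_mul_of_nonneg_left s0 (by positivity))
      _ = _ := by
          field_simp
          ring
  have q1 : ((2 * N + 1) * (1 / L)) * ∑ m ∈ S, (∫ t in ((m - N : ℝ) * (1 / L))..((m + 1 + N : ℝ) * (1 / L)),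
      ‖iteratedDeriv (j + 1) (HH k T U) (x + t * I)‖ ^ 2) ≤ (2 * N + 1) ^ 2 * C1 * L ^ (2 * j + 1) * V := by
    calc _ ≤ ((2 * N + 1) * (1 / L)) * ((2 * N + 1) * (C1 * L ^ (2 * (j + 1)) * V)) := by
          apply mul_le_mul_of_nonneg_left _ (by positivity)
          exact o1.trans (mul_le_mul_of_nonneg_left s1 (by positivity))
      _ = _ := by
          have e : L ^ (2 * (j + 1)) = L ^ (2 * j + 1) * L := by
            rw [← pow_succ]
            congr 1
          rw [e]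
          field_simp
  linarith

/-- **The sum of the majorants.** -/
theorem Th_sum (N : ℕ) {B : ℝ} (hB : 0 ≤ B) : ∃ C : ℝ, 0 < C ∧ ∀ᶠ T : ℝ in atTop, ∀ U : ℝ,
    Adm T U → ∀ S : Finset ℤ, ∑ m ∈ S, Th k B N T U m ≤ C * Real.log T * V0 k T U := by
  obtain ⟨C0, hC0, h0⟩ := Tg_sum k N 0 hB
  obtain ⟨C1, hC1, h1⟩ := Tg_sum k N 1 hB
  refine ⟨2 * C0 + 8 * B ^ 2 * C1, by positivity, ?_⟩
  filter_upwards [h0, h1] with T h2 h3 U hA S
  have hL := hA.log
  have hL0 : 0 < Real.log T := by linarith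
  have hV0 := V0_pos k hA
  set L := Real.log T with hLd
  set V := V0 k T U with hV
  have hBL : 0 ≤ B / L := by positivity
  unfold Th
  rw [Finset.sum_add_distrib, ← Finset.mul_sum, ← Finset.mul_sum]
  have q0 := h2 U hA (1 / 2 - B / L) (by
    rw [show 1 / 2 - B / L - 1 / 2 = -(B / L) by ring, abs_neg, abs_of_nonneg hBL]) S
  have q1 : ∑ m ∈ S, (∫ u in (1 / 2 - B / L)..(1 / 2 + B / L), Tg k N T U 1 m u) ≤
      2 * B / L * (C1 * L ^ 3 * V) := by
    rw [← intervalIntegral.integral_finsetSum fun m _ => (Tg_cont k N T U 1 m).intervalIntegrable _ _]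
    have q2 : ∫ u in (1 / 2 - B / L)..(1 / 2 + B / L), (∑ m ∈ S, Tg k N T U 1 m u) ≤
        ∫ _u in (1 / 2 - B / L)..(1 / 2 + B / L), C1 * L ^ 3 * V := by
      apply intervalIntegral.integral_mono_on (by linarith)
      · apply Continuous.intervalIntegrable
        exact continuous_finsetSum S fun m _ => Tg_cont k N T U 1 m
      · exact intervalIntegrable_const
      · intro u hu
        exact h3 U hA u (abs_le.2 ⟨by linarith [hu.1], by linarith [hu.2]⟩) S
    refine q2.trans (le_of_eq ?_)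
    rw [intervalIntegral.integral_const, smul_eq_mul]
    ring
  have q3 : 2 * (2 * B / L) * ∑ m ∈ S, (∫ u in (1 / 2 - B / L)..(1 / 2 + B / L), Tg k N T U 1 m u) ≤
      8 * B ^ 2 * C1 * L * V := by
    calc _ ≤ 2 * (2 * B / L) * (2 * B / L * (C1 * L ^ 3 * V)) :=
          mul_le_mul_of_nonneg_left q1 (by positivity)
      _ = _ := by
          field_simp
          ring
  have q4 : 2 * ∑ m ∈ S, Tg k N T U 0 m (1 / 2 - B / L) ≤ 2 * C0 * L * V := by
    have : C0 * L ^ (2 * 0 + 1) * V = C0 * L * V := by ring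
    rw [this] at q0
    linarith
  linarith

/-! ### Zeros in a disc -/

theorem disc_quot {f h : ℂ → ℂ} {c0 : ℂ} {r R M : ℝ} (hr : 0 ≤ r) (hR : r < R) {n : ℕ} {ρ : Fin n → ℂ}
    (hρ : ∀ i, ‖ρ i - c0‖ ≤ r) (hh : DifferentiableOn ℂ h (Metric.closedBall c0 R))
    (hf : ∀ s ∈ Metric.closedBall c0 R, f s = (∏ i, (s - ρ i)) * h s)
    (hM : ∀ s, ‖s - c0‖ = R → ‖f s‖ ≤ M) (s : ℂ) (hs : ‖s - c0‖ ≤ R) : ‖h s‖ ≤ M / (R - r) ^ n := by
  have hR0 : 0 < R := by linarith
  have hd : DiffContOnCl ℂ h (Metric.ball c0 R) := by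
    apply DifferentiableOn.diffContOnCl
    rw [closure_ball c0 hR0.ne']
    exact hh
  apply Complex.norm_le_of_forall_mem_frontier_norm_le Metric.isBounded_ball hd
  · intro z hz
    rw [frontier_ball c0 hR0.ne', mem_sphere_iff_norm] at hz
    have h1 := hf z (by rw [mem_closedBall_iff_norm]; exact hz.le)
    have h2 := hM z hz
    rw [h1, norm_mul, norm_prod] at h2
    have h3 : (R - r) ^ n ≤ ∏ i : Fin n, ‖z - ρ i‖ := by
      have : ∏ _i : Fin n, (R - r) ≤ ∏ i : Fin n, ‖z - ρ i‖ := by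
        apply Finset.prod_le_prod
        · intro i _; linarith
        · intro i _
          have := norm_sub_norm_le (z - c0) (ρ i - c0)
          rw [sub_sub_sub_cancel_right] at this
          linarith [hρ i]
      simpa using this
    have h4 : 0 < (R - r) ^ n := pow_pos (by linarith) n
    rw [le_div_iff₀ h4]
    calc ‖h z‖ * (R - r) ^ n ≤ ‖h z‖ * ∏ i : Fin n, ‖z - ρ i‖ :=
          mul_le_mul_of_nonneg_left h3 (norm_nonneg _)
      _ = (∏ i : Fin n, ‖z - ρ i‖) * ‖h z‖ := mul_comm _ _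
      _ ≤ M := h2
  · rw [closure_ball c0 hR0.ne', mem_closedBall_iff_norm]
    exact hs

/-- Many zeros in a disc make the function small there. -/
theorem disc_small {f h : ℂ → ℂ} {c0 : ℂ} {r R M : ℝ} (hr : 0 ≤ r) (hR : r < R) {n : ℕ} {ρ : Fin n → ℂ}
    (hρ : ∀ i, ‖ρ i - c0‖ ≤ r) (hh : DifferentiableOn ℂ h (Metric.closedBall c0 R))
    (hf : ∀ s ∈ Metric.closedBall c0 R, f s = (∏ i, (s - ρ i)) * h s)
    (hM : ∀ s, ‖s - c0‖ = R → ‖f s‖ ≤ M) (s : ℂ) (hs : ‖s - c0‖ ≤ r) :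
    ‖f s‖ ≤ (2 * r / (R - r)) ^ n * M := by
  have h1 := disc_quot hr hR hρ hh hf hM s (by linarith)
  rw [hf s (by rw [mem_closedBall_iff_norm]; linarith), norm_mul, norm_prod]
  have h3 : ∏ i : Fin n, ‖s - ρ i‖ ≤ (2 * r) ^ n := by
    have : ∏ i : Fin n, ‖s - ρ i‖ ≤ ∏ _i : Fin n, (2 * r) := by
      apply Finset.prod_le_prod
      · intro i _; exact norm_nonneg _
      · intro i _
        have := norm_sub_le (s - c0) (ρ i - c0)
        rw [sub_sub_sub_cancel_right] at this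
        linarith [hρ i]
    simpa using this
  calc (∏ i : Fin n, ‖s - ρ i‖) * ‖h s‖ ≤ (2 * r) ^ n * (M / (R - r) ^ n) :=
        mul_le_mul h3 h1 (norm_nonneg _) (by positivity)
    _ = _ := by
        rw [div_pow]
        ring

theorem factor_zeros {f : ℂ → ℂ} (hf : Differentiable ℂ f) (W : Finset ℂ) (hW : ∀ ρ ∈ W, f ρ = 0) :
    ∃ h : ℂ → ℂ, Differentiable ℂ h ∧ ∀ s, f s = (∏ ρ ∈ W, (s - ρ)) * h s := by
  induction W using Finset.induction_on with
  | empty => exact ⟨f, hf, fun s => by simp⟩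
  | insert ρ W hρ ih =>
    obtain ⟨h, hh, hfh⟩ := ih fun ρ' hρ' => hW ρ' (Finset.mem_insert_of_mem hρ')
    have h0 : h ρ = 0 := by
      have h1 := hfh ρ
      rw [hW ρ (Finset.mem_insert_self _ _)] at h1
      rcases mul_eq_zero.1 h1.symm with h2 | h2
      · exfalso
        rw [Finset.prod_eq_zero_iff] at h2
        obtain ⟨ρ', hρ', h3⟩ := h2
        rw [sub_eq_zero] at h3
        rw [h3] at hρ
        exact hρ hρ'
      · exact h2
    refine ⟨dslope h ρ, ?_, fun s => ?_⟩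
    · have := (Complex.differentiableOn_dslope (f := h) (c := ρ) univ_mem).2 hh.differentiableOn
      exact differentiableOn_univ.1 this
    · rw [Finset.prod_insert hρ, hfh s]
      have := sub_smul_dslope h ρ s
      rw [h0, sub_zero, smul_eq_mul] at this
      rw [← this]
      ring

/-- The derivative at the zeros in a disc. -/
theorem disc_deriv {f : ℂ → ℂ} (hf : Differentiable ℂ f) {c0 : ℂ} {r R M : ℝ} (hr : 0 ≤ r) (hR : r < R)
    (W : Finset ℂ) (hW : ∀ ρ ∈ W, f ρ = 0) (hWr : ∀ ρ ∈ W, ‖ρ - c0‖ ≤ r)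
    (hM : ∀ s, ‖s - c0‖ = R → ‖f s‖ ≤ M) (ρ : ℂ) (hρ : ρ ∈ W) :
    ‖deriv f ρ‖ ≤ (2 * r / (R - r)) ^ (W.card - 1) * (M / (R - r)) := by
  obtain ⟨h, hh, hfh⟩ := factor_zeros hf W hW
  set e := W.equivFin.symm with he
  have hprod : ∀ s, ∏ i : Fin W.card, (s - (e i : ℂ)) = ∏ ρ ∈ W, (s - ρ) := by
    intro s
    rw [← Finset.prod_coe_sort W (fun ρ => s - ρ)]
    exact Equiv.prod_comp e (fun ρ : W => s - (ρ : ℂ))
  have h1 := disc_quot (f := f) (h := h) (ρ := fun i => (e i : ℂ)) hr hR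
    (fun i => hWr _ (e i).2) hh.differentiableOn (fun s _ => by rw [hprod, hfh]) hM ρ
    ((hWr ρ hρ).trans hR.le)
  have h2 : HasDerivAt f ((∏ ρ' ∈ W.erase ρ, (ρ - ρ')) * h ρ) ρ := by
    have e1 : f = fun s => (s - ρ) * ((∏ ρ' ∈ W.erase ρ, (s - ρ')) * h s) := by
      funext s
      rw [hfh s, ← Finset.mul_prod_erase W (fun ρ => s - ρ) hρ]
      ring
    have hG : Differentiable ℂ fun s => (∏ ρ' ∈ W.erase ρ, (s - ρ')) * h s := by
      apply Differentiable.mul _ hh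
      exact Differentiable.fun_finsetProd fun i _ => differentiable_id.sub_const i
    have h3 := ((hasDerivAt_id ρ).sub_const ρ).mul (hG ρ).hasDerivAt
    rw [e1]
    refine h3.congr_deriv ?_
    simp
  rw [h2.deriv, norm_mul, norm_prod]
  have h4 : ∏ ρ' ∈ W.erase ρ, ‖ρ - ρ'‖ ≤ (2 * r) ^ (W.card - 1) := by
    rw [← Finset.card_erase_of_mem hρ, ← Finset.prod_const]
    apply Finset.prod_le_prod
    · intro i _; exact norm_nonneg _
    · intro ρ' hρ'
      have := norm_sub_le (ρ - c0) (ρ' - c0)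
      rw [sub_sub_sub_cancel_right] at this
      linarith [hWr ρ hρ, hWr ρ' (Finset.mem_of_mem_erase hρ')]
  have hc : W.card = (W.card - 1) + 1 := by
    have : 0 < W.card := Finset.card_pos.2 ⟨ρ, hρ⟩
    omega
  calc (∏ ρ' ∈ W.erase ρ, ‖ρ - ρ'‖) * ‖h ρ‖ ≤ (2 * r) ^ (W.card - 1) * (M / (R - r) ^ W.card) :=
        mul_le_mul h4 h1 (norm_nonneg _) (by positivity)
    _ = _ := by
        conv_lhs => rw [hc, Nat.add_sub_cancel]
        rw [pow_succ, div_pow]
        field_simp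

end

end U345Z
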