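import Pool.Agent.U345.ZM2

/-!
# The local function attached to a value, and its maxima on boxes
-/

set_option autoImplicit false

open MeasureTheory Filter Topology Complex FourierTransform ComplexConjugate

namespace U345Z

open Q97.MM

noncomputable section

variable (k : ℕ)

/-- the exponential factor -/
def e1 (T U : ℝ) (s : ℂ) : ℂ :=
  cexp (((Real.log T / 2 : ℝ) : ℂ) * (s - 1 / 2) +
    ((1 / (k : ℝ) : ℝ) : ℂ) * ((s - 1 / 2 - T * I) ^ 2 / (2 * (U : ℂ) ^ 2)))

theorem e1_differentiable (T U : ℝ) : Differentiable ℂ (e1 k T U) := by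
  unfold e1
  fun_prop

theorem e1_norm (hk : 1 ≤ k) (T U x y : ℝ) : ‖e1 k T U (x + y * I)‖ ^ (2 * k) =
    Real.exp (k * Real.log T * (x - 1 / 2) + (x - 1 / 2) ^ 2 / U ^ 2) * wt T U y := by
  have hk0 : (k : ℝ) ≠ 0 := by
    have : 0 < k := hk
    positivity
  unfold e1
  rw [Complex.norm_exp, Complex.add_re, Complex.re_ofReal_mul, Complex.re_ofReal_mul, Q97.MM.exp_re,
    ← Real.exp_nat_mul, wt, ← Real.exp_add]
  congr 1
  have e : ((x : ℂ) + y * I - 1 / 2).re = x - 1 / 2 := by simp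
  rw [e]
  push_cast
  rw [div_pow]
  field_simp
  ring

/-- the local function attached to the value `a` -/
def fa (a : ℂ) (T U : ℝ) (s : ℂ) : ℂ := e1 k T U s * (Z1 s - a * (s - 1))

theorem fa_differentiable (a : ℂ) (T U : ℝ) : Differentiable ℂ (fa k a T U) := by
  apply (e1_differentiable k T U).mul
  apply Z1_differentiable.sub
  fun_prop

theorem HH_sq (hk : 1 ≤ k) (T U x y : ℝ) : ‖HH k T U (x + y * I)‖ ^ 2 =
    ‖e1 k T U (x + y * I)‖ ^ (2 * k) * ‖Z1 (x + y * I)‖ ^ (2 * k) := by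
  rw [HH_norm, mul_pow, FF_sq, e1_norm k hk, ← Real.exp_nat_mul, Real.exp_add]
  have e : ((2 : ℕ) : ℝ) * (k * Real.log T / 2 * (x - 1 / 2)) = k * Real.log T * (x - 1 / 2) := by
    push_cast
    ring
  rw [e]
  ring

theorem fa_pow (hk : 1 ≤ k) (a : ℂ) (T U x y : ℝ) : ‖fa k a T U (x + y * I)‖ ^ (2 * k) ≤
    2 ^ (2 * k) * (‖HH k T U (x + y * I)‖ ^ 2 +
      ‖a‖ ^ (2 * k) * (‖e1 k T U (x + y * I)‖ ^ (2 * k) * ‖(x : ℂ) + y * I - 1‖ ^ (2 * k))) := by
  unfold fa
  rw [norm_mul, mul_pow, HH_sq k hk]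
  have h1 : ‖Z1 (x + y * I) - a * (x + y * I - 1)‖ ^ (2 * k) ≤
      2 ^ (2 * k) * (‖Z1 (x + y * I)‖ ^ (2 * k) + ‖a‖ ^ (2 * k) * ‖(x : ℂ) + y * I - 1‖ ^ (2 * k)) := by
    have h2 : ‖Z1 (x + y * I) - a * (x + y * I - 1)‖ ≤
        ‖Z1 (x + y * I)‖ + ‖a‖ * ‖(x : ℂ) + y * I - 1‖ := by
      have := norm_sub_le (Z1 (x + y * I)) (a * (x + y * I - 1))
      rwa [norm_mul] at this
    refine (pow_le_pow_left₀ (norm_nonneg _) h2 _).trans ?_
    refine (add_pow_le (norm_nonneg _) (by positivity) (2 * k)).trans ?_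
    rw [mul_pow]
    apply mul_le_mul_of_nonneg_right _ (by positivity)
    exact pow_le_pow_right₀ (by norm_num) (by omega)
  calc _ ≤ ‖e1 k T U (x + y * I)‖ ^ (2 * k) * (2 ^ (2 * k) * (‖Z1 (x + y * I)‖ ^ (2 * k) +
        ‖a‖ ^ (2 * k) * ‖(x : ℂ) + y * I - 1‖ ^ (2 * k))) :=
        mul_le_mul_of_nonneg_left h1 (by positivity)
    _ = _ := by ring

/-- the wide Gaussian -/
def gs (T U t : ℝ) : ℝ := Real.exp (-(3 / 16) * ((t - T) / U) ^ 2)

theorem gs_pos (T U t : ℝ) : 0 < gs T U t := Real.exp_pos _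

theorem gs_cont (T U : ℝ) : Continuous (gs T U) := by
  unfold gs
  fun_prop

/-- the mean of the wide Gaussian over a cell -/
def Ga (T U : ℝ) (m : ℤ) : ℝ :=
  Real.log T * ∫ t in ((m : ℝ) * (1 / Real.log T))..((m + 1 : ℝ) * (1 / Real.log T)), gs T U t

theorem cell_le {L : ℝ} (hL : 0 < L) (m : ℤ) : (m : ℝ) * (1 / L) ≤ (m + 1 : ℝ) * (1 / L) := by
  apply mul_le_mul_of_nonneg_right _ (by positivity)
  linarith

theorem Ga_nonneg {T : ℝ} (hT : 0 < Real.log T) (U : ℝ) (m : ℤ) : 0 ≤ Ga T U m := by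
  unfold Ga
  apply mul_nonneg hT.le
  exact intervalIntegral.integral_nonneg (cell_le hT m) fun t _ => (gs_pos T U t).le

/-- From a bound at all points of a cell to a bound by the mean. -/
theorem mean_cell {T U A C : ℝ} (hT : 0 < Real.log T) (m : ℤ)
    (h : ∀ t ∈ Set.Icc ((m : ℝ) * (1 / Real.log T)) ((m + 1 : ℝ) * (1 / Real.log T)), A ≤ C * gs T U t) :
    A ≤ C * Ga T U m := by
  have h1 : ∫ _t in ((m : ℝ) * (1 / Real.log T))..((m + 1 : ℝ) * (1 / Real.log T)), A ≤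
      ∫ t in ((m : ℝ) * (1 / Real.log T))..((m + 1 : ℝ) * (1 / Real.log T)), C * gs T U t := by
    apply intervalIntegral.integral_mono_on (cell_le hT m) intervalIntegrable_const
    · exact (continuous_const.mul (gs_cont T U)).intervalIntegrable _ _
    · exact h
  rw [intervalIntegral.integral_const, intervalIntegral.integral_const_mul, smul_eq_mul] at h1
  have h2 := mul_le_mul_of_nonneg_left h1 hT.le
  have e : Real.log T * (((m + 1 : ℝ) * (1 / Real.log T) - (m : ℝ) * (1 / Real.log T)) * A) = A := by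
    field_simp
    ring
  rw [e] at h2
  refine h2.trans (le_of_eq ?_)
  unfold Ga
  ring

theorem Ga_sum : ∃ C : ℝ, 0 < C ∧ ∀ T U : ℝ, Adm T U → ∀ S : Finset ℤ,
    ∑ m ∈ S, Ga T U m ≤ C * Real.log T * U := by
  set K := ∫ x : ℝ, Real.exp (-(3 / 16) * x ^ 2) with hK
  have hK0 : 0 ≤ K := integral_nonneg fun x => (Real.exp_pos _).le
  refine ⟨K + 1, by positivity, fun T U hA S => ?_⟩
  have hL := hA.log
  have hL0 : 0 < Real.log T := by linarith
  have hU := hA.pos
  have hh : (0 : ℝ) < 1 / Real.log T := by positivity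
  have h1 := overlap (φ := gs T U) (fun t => (gs_pos T U t).le) (wide_integrable T hU) hh 0 S
  have h2 : ∫ t, gs T U t = U * K := wide_integral T hU
  rw [h2] at h1
  unfold Ga
  rw [← Finset.mul_sum]
  simp only [Nat.cast_zero, sub_zero, add_zero, mul_zero, zero_add, one_mul] at h1
  calc _ ≤ Real.log T * (U * K) := mul_le_mul_of_nonneg_left h1 hL0.le
    _ ≤ (K + 1) * Real.log T * U := by nlinarith [mul_pos hL0 hU]

theorem norm_sub_one_le {x : ℝ} (h1 : 1 / 4 ≤ x) (h2 : x ≤ 3 / 4) (y : ℝ) :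
    ‖(x : ℂ) + y * I - 1‖ ≤ 1 + |y| := by
  have e : (x : ℂ) + y * I - 1 = ((x - 1 : ℝ) : ℂ) + y * I := by push_cast; ring
  rw [e]
  refine (norm_add_le _ _).trans ?_
  rw [norm_mul, Complex.norm_I, mul_one, Complex.norm_real, Complex.norm_real, Real.norm_eq_abs,
    Real.norm_eq_abs]
  have : |x - 1| ≤ 1 := by
    rw [abs_le]
    constructor <;> linarith
  linarith

/-- **The local function on a box.** -/
theorem key_box (hk : 1 ≤ k) {B : ℝ} (hB : 0 ≤ B) (N : ℕ) : ∃ C : ℝ, 0 < C ∧ ∀ᶠ T : ℝ in atTop,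
    ∀ U : ℝ, Adm T U → ∀ (a : ℂ) (m : ℤ) (x y x' y' : ℝ), |x - 1 / 2| ≤ B / Real.log T →
    (m - N : ℝ) * (1 / Real.log T) ≤ y → y ≤ (m + 1 + N : ℝ) * (1 / Real.log T) →
    |x' - 1 / 2| ≤ B / Real.log T →
    (m - N : ℝ) * (1 / Real.log T) ≤ y' → y' ≤ (m + 1 + N : ℝ) * (1 / Real.log T) →
    (T / ‖(x' : ℂ) + y' * I - 1‖) ^ (2 * k) * ‖fa k a T U (x + y * I)‖ ^ (2 * k) ≤
      C * (Th k B N T U m + (1 + ‖a‖ ^ (2 * k)) * (T ^ (2 * k) * Ga T U m)) := by
  obtain ⟨C1, hC1, h1⟩ := aw_local (2 * k)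
  obtain ⟨C2, hC2, h2⟩ := aw_local (2 * (2 * k))
  set P := Real.exp (k * B + 1) with hP
  have hP0 : 0 < P := Real.exp_pos _
  set K1 := (2 : ℝ) ^ (2 * k) * 2 ^ (2 * k) * (1 + P * 2 ^ (2 * k) * C1) with hK1
  set K2 := (4 : ℝ) ^ (2 * k) * 2 ^ (2 * k) * P * 45 ^ (2 * k) * C2 with hK2
  have hK10 : 0 < K1 := by positivity
  have hK20 : 0 < K2 := by positivity
  refine ⟨K1 + K2, by positivity, ?_⟩
  filter_upwards [(tail_tendsto (2 * k + 2 * (2 * k)) (η := 1 / 4) (by norm_num)).eventually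
      (gt_mem_nhds one_pos), (log_div_tendsto B).eventually (gt_mem_nhds (show (0 : ℝ) < 1 / 4 by norm_num)),
    (log_div_tendsto (2 * N + 1)).eventually (gt_mem_nhds one_pos), eventually_ge_atTop 8] with
    T e1' e2' e3' hT8 U hA a m x y x' y' hx hy1 hy2 hx' hy1' hy2'
  have hL := hA.log
  have hL0 : 0 < Real.log T := by linarith
  have hU := hA.pos
  have hU1 := hA.2.1
  have hT : 0 < T := by linarith
  rw [abs_of_nonneg (by positivity)] at e2' e3'
  set L := Real.log T with hLd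
  set h := 1 / L with hh
  have hh0 : 0 < h := by positivity
  have hNh : (2 * N + 1) * h < 1 := by
    rw [hh, mul_one_div]
    exact e3'
  have hN0 : (0 : ℝ) ≤ N := Nat.cast_nonneg N
  have hx2 := abs_le.1 hx
  have hx2' := abs_le.1 hx'
  have hxa : 1 / 4 ≤ x := by linarith
  have hxb : x ≤ 3 / 4 := by linarith
  have hGa := Ga_nonneg hL0 U m
  have hTh : 0 ≤ Th k B N T U m := by
    have := Th_point k (B := B) (N := N) (T := T) (U := U) hL0 (m := m) hx hy1 hy2
    exact le_trans (by positivity) this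
  have haw1 : aw (2 * k) T U y ≤ C1 * Ga T U m := by
    apply mean_cell hL0
    intro t ht
    apply h1 T U hU1
    rw [abs_le]
    have p1 : (m - N : ℝ) * h = m * h - N * h := by ring
    have p2 : (m + 1 + N : ℝ) * h = m * h + h + N * h := by ring
    have p3 : (m + 1 : ℝ) * h = m * h + h := by ring
    have ht1 := ht.1
    have ht2 := ht.2
    rw [← hLd, ← hh] at ht1 ht2
    constructor <;> nlinarith
  have haw2 : aw (2 * (2 * k)) T U y ≤ C2 * Ga T U m := by
    apply mean_cell hL0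
    intro t ht
    apply h2 T U hU1
    rw [abs_le]
    have p1 : (m - N : ℝ) * h = m * h - N * h := by ring
    have p2 : (m + 1 + N : ℝ) * h = m * h + h + N * h := by ring
    have p3 : (m + 1 : ℝ) * h = m * h + h := by ring
    have ht1 := ht.1
    have ht2 := ht.2
    rw [← hLd, ← hh] at ht1 ht2
    constructor <;> nlinarith
  have he1 : ‖e1 k T U (x + y * I)‖ ^ (2 * k) ≤ P * wt T U y := by
    rw [e1_norm k hk]
    apply mul_le_mul_of_nonneg_right _ (wt_pos _ _ _).le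
    apply Real.exp_le_exp.2
    have q1 : k * L * (x - 1 / 2) ≤ k * B := by
      have : L * (x - 1 / 2) ≤ B := by
        have := hx2.2
        rw [le_div_iff₀ hL0] at this
        linarith
      rw [mul_assoc]
      exact mul_le_mul_of_nonneg_left this (Nat.cast_nonneg k)
    have q2 : (x - 1 / 2) ^ 2 / U ^ 2 ≤ 1 := by
      rw [div_le_one (by positivity)]
      nlinarith
    linarith
  have hs1 : ‖(x : ℂ) + y * I - 1‖ ^ (2 * k) ≤ (1 + |y|) ^ (2 * k) :=
    pow_le_pow_left₀ (norm_nonneg _) (norm_sub_one_le hxa hxb y) _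
  have hfa := fa_pow k hk a T U x y
  have hwt := wt_pos T U y
  set v := ‖a‖ ^ (2 * k) with hv
  have hv0 : 0 ≤ v := by positivity
  have hT2k : 1 ≤ T ^ (2 * k) := one_le_pow₀ (by linarith)
  by_cases hy : |y' - T| ≤ T / 2
  · -- near
    have q1 : T / 2 ≤ ‖(x' : ℂ) + y' * I - 1‖ := by
      have e3 := Complex.abs_im_le_norm ((x' : ℂ) + y' * I - 1)
      have e4 : ((x' : ℂ) + y' * I - 1).im = y' := by simp
      rw [e4] at e3
      have := le_abs_self y'
      have := (abs_le.1 hy).1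
      linarith
    have q2 : (T / ‖(x' : ℂ) + y' * I - 1‖) ^ (2 * k) ≤ 2 ^ (2 * k) := by
      apply pow_le_pow_left₀ (by positivity)
      rw [div_le_iff₀ (by linarith)]
      linarith
    have q3 : (1 + |y|) ^ (2 * k) * wt T U y ≤ (2 ^ (2 * k) * T ^ (2 * k)) * (C1 * Ga T U m) := by
      have r1 := abs_le_scaled hU hT.le hA.le y
      have r2 : wt T U y ≤ Real.exp (-(((y - T) / U) ^ 2 / 2)) := by
        unfold wt
        apply Real.exp_le_exp.2
        nlinarith [sq_nonneg ((y - T) / U)]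
      calc (1 + |y|) ^ (2 * k) * wt T U y ≤ ((1 + T) * (1 + |(y - T) / U|)) ^ (2 * k) *
            Real.exp (-(((y - T) / U) ^ 2 / 2)) :=
            mul_le_mul (pow_le_pow_left₀ (by positivity) r1 _) r2 hwt.le (by positivity)
        _ = (1 + T) ^ (2 * k) * aw (2 * k) T U y := by
            unfold aw
            rw [mul_pow]
            ring
        _ ≤ (2 * T) ^ (2 * k) * (C1 * Ga T U m) := by
            apply mul_le_mul _ haw1 (aw_nonneg _ _ _ _) (by positivity)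
            apply pow_le_pow_left₀ (by positivity)
            linarith
        _ = _ := by rw [mul_pow]
    have q4 : ‖e1 k T U (x + y * I)‖ ^ (2 * k) * ‖(x : ℂ) + y * I - 1‖ ^ (2 * k) ≤
        P * ((2 ^ (2 * k) * T ^ (2 * k)) * (C1 * Ga T U m)) := by
      calc _ ≤ (P * wt T U y) * (1 + |y|) ^ (2 * k) := mul_le_mul he1 hs1 (by positivity) (by positivity)
        _ = P * ((1 + |y|) ^ (2 * k) * wt T U y) := by ring
        _ ≤ _ := mul_le_mul_of_nonneg_left q3 hP0.le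
    have q5 := Th_point k (B := B) (N := N) (T := T) (U := U) hL0 (m := m) hx hy1 hy2
    have q6 : ‖fa k a T U (x + y * I)‖ ^ (2 * k) ≤ 2 ^ (2 * k) * (Th k B N T U m +
        v * (P * ((2 ^ (2 * k) * T ^ (2 * k)) * (C1 * Ga T U m)))) := by
      refine hfa.trans ?_
      gcongr
    have q7 : (T / ‖(x' : ℂ) + y' * I - 1‖) ^ (2 * k) * ‖fa k a T U (x + y * I)‖ ^ (2 * k) ≤
        2 ^ (2 * k) * (2 ^ (2 * k) * (Th k B N T U m +
        v * (P * ((2 ^ (2 * k) * T ^ (2 * k)) * (C1 * Ga T U m))))) :=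
      mul_le_mul q2 q6 (by positivity) (by positivity)
    refine q7.trans ?_
    have r0 : 0 ≤ T ^ (2 * k) * Ga T U m := by positivity
    have r1 : Th k B N T U m + v * (P * ((2 ^ (2 * k) * T ^ (2 * k)) * (C1 * Ga T U m))) ≤
        (1 + P * 2 ^ (2 * k) * C1) * (Th k B N T U m + (1 + v) * (T ^ (2 * k) * Ga T U m)) := by
      have r2 : 0 ≤ P * 2 ^ (2 * k) * C1 := by positivity
      have r3 : v * (P * ((2 ^ (2 * k) * T ^ (2 * k)) * (C1 * Ga T U m))) =
          (P * 2 ^ (2 * k) * C1) * (v * (T ^ (2 * k) * Ga T U m)) := by ring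
      rw [r3]
      have r4 : 0 ≤ v * (T ^ (2 * k) * Ga T U m) := by positivity
      nlinarith [mul_nonneg r2 hTh, mul_nonneg r2 r0]
    calc _ = 2 ^ (2 * k) * 2 ^ (2 * k) * (Th k B N T U m +
          v * (P * ((2 ^ (2 * k) * T ^ (2 * k)) * (C1 * Ga T U m)))) := by ring
      _ ≤ 2 ^ (2 * k) * 2 ^ (2 * k) * ((1 + P * 2 ^ (2 * k) * C1) *
          (Th k B N T U m + (1 + v) * (T ^ (2 * k) * Ga T U m))) :=
          mul_le_mul_of_nonneg_left r1 (by positivity)
      _ = K1 * (Th k B N T U m + (1 + v) * (T ^ (2 * k) * Ga T U m)) := by rw [hK1]; ring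
      _ ≤ _ := by
          apply mul_le_mul_of_nonneg_right (by linarith)
          positivity
  · -- far
    push Not at hy
    have hyT : 1 / 4 * T ≤ |y - T| := by
      have r1 : |y' - T| ≤ |y - T| + |y' - y| := by
        have := abs_add_le (y - T) (y' - y)
        have e : (y - T) + (y' - y) = y' - T := by ring
        rwa [e] at this
      have r2 : |y' - y| ≤ 1 := by
        have p1 : (m - N : ℝ) * h = m * h - N * h := by ring
        have p2 : (m + 1 + N : ℝ) * h = m * h + h + N * h := by ring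
        rw [abs_le]
        constructor <;> nlinarith
      linarith
    have q1 : 1 / 4 ≤ ‖(x' : ℂ) + y' * I - 1‖ := by
      have e3 := Complex.abs_re_le_norm ((x' : ℂ) + y' * I - 1)
      have e4 : ((x' : ℂ) + y' * I - 1).re = x' - 1 := by simp
      rw [e4] at e3
      have := neg_abs_le (x' - 1)
      linarith
    have q2 : (T / ‖(x' : ℂ) + y' * I - 1‖) ^ (2 * k) ≤ 4 ^ (2 * k) * (1 + T) ^ (2 * k) := by
      rw [← mul_pow]
      apply pow_le_pow_left₀ (by positivity)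
      rw [div_le_iff₀ (by linarith)]
      nlinarith
    have q3 := far_bd hA (show (0 : ℝ) ≤ 1 / 4 by norm_num) hyT (2 * (2 * k))
    have q4 := Z1_pow_bd k (x := x) (by linarith) (by linarith) y
    have q5 : (1 + |y|) ^ (2 * k) ≤ (1 + |y|) ^ (2 * (2 * k)) :=
      pow_le_pow_right₀ (by linarith [abs_nonneg y]) (by omega)
    set W := (1 + |y|) ^ (2 * (2 * k)) with hW
    have hW0 : 0 < W := by positivity
    have q6 : ‖fa k a T U (x + y * I)‖ ^ (2 * k) ≤
        2 ^ (2 * k) * P * 45 ^ (2 * k) * (1 + v) * (W * wt T U y) := by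
      refine hfa.trans ?_
      rw [HH_sq k hk]
      have r1 : ‖e1 k T U (x + y * I)‖ ^ (2 * k) * ‖Z1 (x + y * I)‖ ^ (2 * k) ≤
          (P * wt T U y) * (45 ^ (2 * k) * W) :=
        mul_le_mul he1 q4 (by positivity) (by positivity)
      have r2 : ‖e1 k T U (x + y * I)‖ ^ (2 * k) * ‖(x : ℂ) + y * I - 1‖ ^ (2 * k) ≤
          (P * wt T U y) * W :=
        mul_le_mul he1 (hs1.trans q5) (by positivity) (by positivity)
      have r3 : (1 : ℝ) ≤ 45 ^ (2 * k) := one_le_pow₀ (by norm_num)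
      calc _ ≤ 2 ^ (2 * k) * ((P * wt T U y) * (45 ^ (2 * k) * W) + v * ((P * wt T U y) * W)) := by
            gcongr
        _ ≤ 2 ^ (2 * k) * ((P * wt T U y) * (45 ^ (2 * k) * W) +
            v * ((P * wt T U y) * (45 ^ (2 * k) * W))) := by
            gcongr
            exact le_mul_of_one_le_left hW0.le r3
        _ = _ := by ring
    set E := Real.exp (-((1 / 4 * L) ^ 2 / 2)) with hE
    have q7 : (1 + T) ^ (2 * k) * (W * wt T U y) ≤ C2 * Ga T U m := by
      calc _ ≤ (1 + T) ^ (2 * k) * ((1 + T) ^ (2 * (2 * k)) * E * aw (2 * (2 * k)) T U y) :=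
            mul_le_mul_of_nonneg_left q3 (by positivity)
        _ = ((1 + T) ^ (2 * k + 2 * (2 * k)) * E) * aw (2 * (2 * k)) T U y := by rw [pow_add]; ring
        _ ≤ 1 * aw (2 * (2 * k)) T U y := mul_le_mul_of_nonneg_right e1'.le (aw_nonneg _ _ _ _)
        _ ≤ _ := by rw [one_mul]; exact haw2
    calc _ ≤ (4 ^ (2 * k) * (1 + T) ^ (2 * k)) *
          (2 ^ (2 * k) * P * 45 ^ (2 * k) * (1 + v) * (W * wt T U y)) :=
          mul_le_mul q2 q6 (by positivity) (by positivity)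
      _ = 4 ^ (2 * k) * 2 ^ (2 * k) * P * 45 ^ (2 * k) * (1 + v) * ((1 + T) ^ (2 * k) * (W * wt T U y)) := by
          ring
      _ ≤ 4 ^ (2 * k) * 2 ^ (2 * k) * P * 45 ^ (2 * k) * (1 + v) * (C2 * Ga T U m) := by
          gcongr
      _ = K2 * ((1 + v) * Ga T U m) := by rw [hK2]; ring
      _ ≤ K2 * ((1 + v) * (T ^ (2 * k) * Ga T U m)) := by
          gcongr
          exact le_mul_of_one_le_left hGa hT2k
      _ ≤ (K1 + K2) * (Th k B N T U m + (1 + v) * (T ^ (2 * k) * Ga T U m)) := by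
          apply mul_le_mul (by linarith) (by linarith) (by positivity) (by positivity)

/-- The sum of the majorants, for the zeta function. -/
theorem Maj_sum (N : ℕ) {B : ℝ} (hB : 0 ≤ B) : ∃ C : ℝ, 0 < C ∧ ∀ᶠ T : ℝ in atTop, ∀ U : ℝ,
    Adm T U → 0 < JJ k T U (1 / 2) ∧ ∀ (a : ℂ) (S : Finset ℤ),
    ∑ m ∈ S, (Th k B N T U m + (1 + ‖a‖ ^ (2 * k)) * (T ^ (2 * k) * Ga T U m)) ≤
      C * (1 + ‖a‖ ^ (2 * k)) * Real.log T * (T ^ (2 * k) * JJ k T U (1 / 2)) := by
  obtain ⟨C1, hC1, h1⟩ := Th_sum k N hB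
  obtain ⟨C2, hC2, h2⟩ := Ga_sum
  obtain ⟨c₀, hc₀, hc₀'⟩ := V0_lower k
  refine ⟨2 * (C1 + C2 / c₀), by positivity, ?_⟩
  filter_upwards [h1, cmpV k (show (0 : ℝ) < 1 / 2 by norm_num)] with T h3 h4 U hA
  have hL := hA.log
  have hL0 : 0 < Real.log T := by linarith
  have hT : 0 < T := by linarith [hA.1]
  have hU := hA.pos
  have hV0 := V0_pos k hA
  have h5 := abs_le.1 (h4 U hA)
  have hPM : V0 k T U ≤ 2 * (T ^ (2 * k) * JJ k T U (1 / 2)) := by linarith [h5.2]
  have hMp : 0 < JJ k T U (1 / 2) := by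
    have : 0 < T ^ (2 * k) * JJ k T U (1 / 2) := by linarith
    exact (pos_iff_pos_of_mul_pos this).1 (by positivity)
  refine ⟨hMp, fun a S => ?_⟩
  set v := ‖a‖ ^ (2 * k) with hv
  have hv0 : 0 ≤ v := by positivity
  rw [Finset.sum_add_distrib, ← Finset.mul_sum, ← Finset.mul_sum]
  have s1 := h3 U hA S
  have s2 := h2 T U hA S
  have s3 := hc₀' T U hA
  have s4 : T ^ (2 * k) * ∑ m ∈ S, Ga T U m ≤ C2 / c₀ * Real.log T * V0 k T U := by
    calc _ ≤ T ^ (2 * k) * (C2 * Real.log T * U) := mul_le_mul_of_nonneg_left s2 (by positivity)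
      _ = C2 / c₀ * Real.log T * (c₀ * (T ^ (2 * k) * U)) := by field_simp
      _ ≤ _ := mul_le_mul_of_nonneg_left s3 (by positivity)
  have s5 : C1 * Real.log T * V0 k T U ≤ (1 + v) * (C1 * Real.log T * V0 k T U) :=
    le_mul_of_one_le_left (by positivity) (by linarith)
  calc _ ≤ (1 + v) * (C1 * Real.log T * V0 k T U) + (1 + v) * (C2 / c₀ * Real.log T * V0 k T U) := by
        apply add_le_add (s1.trans s5)
        exact mul_le_mul_of_nonneg_left s4 (by positivity)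
    _ = (1 + v) * (C1 + C2 / c₀) * Real.log T * V0 k T U := by ring
    _ ≤ (1 + v) * (C1 + C2 / c₀) * Real.log T * (2 * (T ^ (2 * k) * JJ k T U (1 / 2))) := by
        gcongr
    _ = _ := by ring

end

end U345Z
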