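import Pool.Agent.U345.ZM3

/-!
# Many zeros in a disc, and the derivative at all zeros near the line
-/

set_option autoImplicit false

open MeasureTheory Filter Topology Complex

namespace U345Z

open Q97.MM

noncomputable section

variable (k : ℕ)

theorem cells_le {F : ℝ → ℝ} (hF : Integrable F) {h K : ℝ} (hh : 0 < h)
    (H : ∀ S : Finset ℤ, ∑ m ∈ S, ∫ t in ((m : ℝ) * h)..((m + 1 : ℝ) * h), F t ≤ K) : ∫ t, F t ≤ K := by
  have h1 : Tendsto (fun N : ℕ => -((N : ℝ) * h)) atTop atBot :=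
    tendsto_neg_atTop_atBot.comp (tendsto_natCast_atTop_atTop.atTop_mul_const hh)
  have h2 : Tendsto (fun N : ℕ => (N : ℝ) * h) atTop atTop :=
    tendsto_natCast_atTop_atTop.atTop_mul_const hh
  have h3 := intervalIntegral_tendsto_integral hF h1 h2
  apply le_of_tendsto h3
  refine Eventually.of_forall fun N => ?_
  have h4 := intervalIntegral.sum_integral_adjacent_intervals (f := F) (μ := volume)
    (a := fun i : ℕ => -((N : ℝ) * h) + i * h) (n := 2 * N) fun i _ => hF.intervalIntegrable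
  have e1 : -((N : ℝ) * h) + ((2 * N : ℕ) : ℝ) * h = N * h := by push_cast; ring
  have e2 : -((N : ℝ) * h) + ((0 : ℕ) : ℝ) * h = -(N * h) := by push_cast; ring
  beta_reduce at h4
  rw [e1, e2] at h4
  rw [← h4]
  have h5 := H ((Finset.range (2 * N)).image fun i : ℕ => (i : ℤ) - N)
  rw [Finset.sum_image (by
    intro i _ j _ hij
    have hij' : (i : ℤ) - N = (j : ℤ) - N := hij
    omega)] at h5
  refine le_trans (le_of_eq ?_) h5
  apply Finset.sum_congr rfl
  intro i _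
  push_cast
  congr 1 <;> ring

theorem sphere_max {f : ℂ → ℂ} (hf : Continuous f) (c0 : ℂ) {R : ℝ} (hR : 0 ≤ R) :
    ∃ z : ℂ, ‖z - c0‖ = R ∧ ∀ s, ‖s - c0‖ = R → ‖f s‖ ≤ ‖f z‖ := by
  obtain ⟨z, hz, hz'⟩ := (isCompact_sphere c0 R).exists_isMaxOn (NormedSpace.sphere_nonempty.2 hR)
    hf.norm.continuousOn
  refine ⟨z, by rwa [mem_sphere_iff_norm] at hz, fun s hs => ?_⟩
  exact hz' (by rwa [mem_sphere_iff_norm])

/-- The coordinates of a point close to a point of a cell. -/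
theorem box_coord {L R : ℝ} (hL : 0 < L) {N : ℕ} (hN : R ≤ N) {m : ℤ} {η x₀ : ℝ}
    (h1 : (m : ℝ) * (1 / L) ≤ η) (h2 : η ≤ (m + 1 : ℝ) * (1 / L)) {z : ℂ}
    (hz : ‖z - ((x₀ : ℂ) + η * I)‖ ≤ R / L) :
    |z.re - x₀| ≤ R / L ∧ (m - N : ℝ) * (1 / L) ≤ z.im ∧ z.im ≤ (m + 1 + N : ℝ) * (1 / L) := by
  have h3 := (Complex.abs_re_le_norm (z - ((x₀ : ℂ) + η * I))).trans hz
  have h4 := (Complex.abs_im_le_norm (z - ((x₀ : ℂ) + η * I))).trans hz
  have e1 : (z - ((x₀ : ℂ) + η * I)).re = z.re - x₀ := by simp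
  have e2 : (z - ((x₀ : ℂ) + η * I)).im = z.im - η := by simp
  rw [e1] at h3
  rw [e2] at h4
  have h5 := abs_le.1 h4
  have h6 : R / L ≤ N * (1 / L) := by
    rw [mul_one_div]
    exact div_le_div_of_nonneg_right hN hL.le
  refine ⟨h3, ?_, ?_⟩
  · have : (m - N : ℝ) * (1 / L) = m * (1 / L) - N * (1 / L) := by ring
    linarith
  · have : (m + 1 + N : ℝ) * (1 / L) = (m + 1) * (1 / L) + N * (1 / L) := by ring
    linarith

theorem fa_line (hk : 1 ≤ k) (a : ℂ) (T U y : ℝ) :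
    (T / ‖((1 / 2 : ℝ) : ℂ) + y * I - 1‖) ^ (2 * k) * ‖fa k a T U (((1 / 2 : ℝ) : ℂ) + y * I)‖ ^ (2 * k) =
      T ^ (2 * k) * (‖riemannZeta (((1 / 2 : ℝ) : ℂ) + y * I) - a‖ ^ (2 * k) * wt T U y) := by
  have hne := line_ne_one y
  have hn0 : ‖((1 / 2 : ℝ) : ℂ) + y * I - 1‖ ≠ 0 := norm_ne_zero_iff.2 (sub_ne_zero.2 hne)
  unfold fa
  rw [norm_mul, mul_pow, e1_norm k hk, Z1_of_ne hne]
  have e : (((1 / 2 : ℝ) : ℂ) + y * I - 1) * riemannZeta (((1 / 2 : ℝ) : ℂ) + y * I) -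
      a * (((1 / 2 : ℝ) : ℂ) + y * I - 1) =
      (((1 / 2 : ℝ) : ℂ) + y * I - 1) * (riemannZeta (((1 / 2 : ℝ) : ℂ) + y * I) - a) := by ring
  rw [e, norm_mul, mul_pow, sub_self, mul_zero, zero_pow two_ne_zero, zero_div, add_zero, Real.exp_zero,
    one_mul, div_pow]
  field_simp

/-- the function takes the value `a` at least `n` times in the disc, counted with multiplicity -/
def Takes (a : ℂ) (n : ℕ) (c : ℂ) (r : ℝ) : Prop :=
  ∃ (ρ : Fin n → ℂ) (h : ℂ → ℂ), (∀ i, ‖ρ i - c‖ ≤ r) ∧ DifferentiableOn ℂ h {(1 : ℂ)}ᶜ ∧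
    ∀ s : ℂ, s ≠ 1 → riemannZeta s - a = (∏ i, (s - ρ i)) * h s

theorem Th_nonneg {B : ℝ} (hB : 0 ≤ B) (N : ℕ) {T : ℝ} (U : ℝ) (hT : 0 < Real.log T) (m : ℤ) :
    0 ≤ Th k B N T U m := by
  have hh : (0 : ℝ) < 1 / Real.log T := by positivity
  have hN : (0 : ℝ) ≤ N := Nat.cast_nonneg N
  have := Th_point k (B := B) (N := N) (T := T) (U := U) hT (m := m) (x := 1 / 2)
    (y := m * (1 / Real.log T)) (by rw [sub_self, abs_zero]; positivity)
    (mul_le_mul_of_nonneg_right (by linarith) hh.le) (mul_le_mul_of_nonneg_right (by linarith) hh.le)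
  exact le_trans (by positivity) this

theorem zetaline_cont : Continuous (fun y : ℝ => riemannZeta (((1 / 2 : ℝ) : ℂ) + y * I)) := by
  rw [continuous_iff_continuousAt]
  intro y
  have h2 : ContinuousAt (fun y : ℝ => ((1 / 2 : ℝ) : ℂ) + y * I) y := by
    apply Continuous.continuousAt
    fun_prop
  exact ContinuousAt.comp (f := fun y : ℝ => ((1 / 2 : ℝ) : ℂ) + y * I) (g := riemannZeta)
    (differentiableAt_riemannZeta (line_ne_one y)).continuousAt h2

theorem za_integrable (a : ℂ) {T U : ℝ} (hA : Adm T U) (hz : Integrable (zq k T U)) :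
    Integrable (fun y : ℝ => ‖riemannZeta (((1 / 2 : ℝ) : ℂ) + y * I) - a‖ ^ (2 * k) * wt T U y) := by
  have hc := zetaline_cont
  have hw : Continuous (wt T U) := by
    unfold wt
    fun_prop
  have iw : Integrable (wt T U) := by
    refine (wide_integrable T hA.pos).mono' hw.aestronglyMeasurable (Eventually.of_forall fun y => ?_)
    rw [Real.norm_of_nonneg (wt_pos T U y).le]
    unfold wt
    apply Real.exp_le_exp.2
    nlinarith [sq_nonneg ((y - T) / U)]
  refine ((hz.add (iw.const_mul (‖a‖ ^ (2 * k)))).const_mul (2 ^ (2 * k))).mono'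
    (by
      apply Continuous.aestronglyMeasurable
      exact ((hc.sub continuous_const).norm.pow _).mul hw) (Eventually.of_forall fun y => ?_)
  have hwy := wt_pos T U y
  rw [Real.norm_of_nonneg (by positivity)]
  simp only [Pi.add_apply]
  unfold zq
  set ζ := riemannZeta (((1 / 2 : ℝ) : ℂ) + y * I) with hζ
  have h1 : ‖ζ - a‖ ^ (2 * k) ≤ 2 ^ (2 * k) * (‖ζ‖ ^ (2 * k) + ‖a‖ ^ (2 * k)) := by
    refine (pow_le_pow_left₀ (norm_nonneg _) (norm_sub_le _ _) _).trans ?_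
    refine (add_pow_le (norm_nonneg _) (norm_nonneg _) (2 * k)).trans ?_
    apply mul_le_mul_of_nonneg_right _ (by positivity)
    exact pow_le_pow_right₀ (by norm_num) (by omega)
  calc _ ≤ (2 ^ (2 * k) * (‖ζ‖ ^ (2 * k) + ‖a‖ ^ (2 * k))) * wt T U y :=
        mul_le_mul_of_nonneg_right h1 hwy.le
    _ = _ := by ring

/-- **Many values in a disc.** -/
theorem takesZ (hk : 1 ≤ k) {A lam : ℝ} (hA0 : 0 < A) (hlam : 0 ≤ lam) : ∃ C : ℝ, 0 < C ∧
    ∀ᶠ T : ℝ in atTop, ∀ U : ℝ, Adm T U → ∀ (a : ℂ) (n : ℕ) (E : Set ℝ), MeasurableSet E →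
    (∀ y ∈ E, Takes a n (((1 / 2 : ℝ) : ℂ) + y * I) (A / Real.log T)) →
    ∫ y in E, ‖riemannZeta (((1 / 2 : ℝ) : ℂ) + y * I) - a‖ ^ (2 * k) * wt T U y ≤
      C * Real.exp (-(lam * n)) * (1 + ‖a‖ ^ (2 * k)) * JJ k T U (1 / 2) := by
  set R := A * (1 + 2 * Real.exp lam) with hR
  have hexp : 1 ≤ Real.exp lam := Real.one_le_exp hlam
  have hR0 : 0 < R := by positivity
  have hRA : A < R := by rw [hR]; nlinarith
  obtain ⟨N, hN⟩ := exists_nat_ge R
  obtain ⟨C1, hC1, h1⟩ := key_box k hk hR0.le N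
  obtain ⟨C2, hC2, h2⟩ := Maj_sum k N hR0.le
  refine ⟨C1 * C2, by positivity, ?_⟩
  filter_upwards [h1, h2, cmp_set k one_pos, (log_div_tendsto R).eventually
    (gt_mem_nhds (show (0 : ℝ) < 1 / 4 by norm_num))] with T h3 h4 h5 h6 U hA a n E hE htakes
  have hL := hA.log
  have hL0 : 0 < Real.log T := by linarith
  have hT : 0 < T := by linarith [hA.1]
  obtain ⟨-, iz, -, -⟩ := h5 U hA
  obtain ⟨hM, hsum⟩ := h4 U hA
  rw [abs_of_nonneg (by positivity)] at h6
  set L := Real.log T with hLd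
  set Maj : ℤ → ℝ := fun m => Th k R N T U m + (1 + ‖a‖ ^ (2 * k)) * (T ^ (2 * k) * Ga T U m) with hMaj
  have hMaj0 : ∀ m, 0 ≤ Maj m := by
    intro m
    have p1 := Th_nonneg k hR0.le N U hL0 m
    have p2 := Ga_nonneg hL0 U m
    rw [hMaj]
    positivity
  set q := Real.exp (-(lam * n)) with hq
  have hq0 : 0 < q := Real.exp_pos _
  set F : ℝ → ℝ := fun y => ‖riemannZeta (((1 / 2 : ℝ) : ℂ) + y * I) - a‖ ^ (2 * k) * wt T U y with hF
  have hF0 : ∀ y, 0 ≤ F y := fun y => by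
    have := wt_pos T U y
    rw [hF]
    positivity
  have iF : Integrable F := za_integrable k a hA iz
  -- pointwise
  have hpt : ∀ (m : ℤ) (y : ℝ), (m : ℝ) * (1 / L) ≤ y → y ≤ (m + 1 : ℝ) * (1 / L) → y ∈ E →
      T ^ (2 * k) * F y ≤ q * (C1 * Maj m) := by
    intro m y hy1 hy2 hyE
    obtain ⟨ρ, h0, hρ, hh0, hfac⟩ := htakes y hyE
    set c0 : ℂ := ((1 / 2 : ℝ) : ℂ) + y * I with hc0
    have hr : 0 ≤ A / L := by positivity
    have hrR : A / L < R / L := div_lt_div_of_pos_right hRA hL0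
    obtain ⟨z, hz1, hz2⟩ := sphere_max (fa_differentiable k a T U).continuous c0
      (show 0 ≤ R / L by positivity)
    have hball : ∀ s ∈ Metric.closedBall c0 (R / L), s ≠ 1 := by
      intro s hs h
      rw [mem_closedBall_iff_norm, h] at hs
      have h7 := (Complex.abs_re_le_norm ((1 : ℂ) - c0)).trans hs
      have e : ((1 : ℂ) - c0).re = 1 / 2 := by
        rw [hc0]
        simp
        norm_num
      rw [e] at h7
      have := le_abs_self (1 / 2 : ℝ)
      linarith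
    have hsm := disc_small (f := fa k a T U) (h := fun s => e1 k T U s * (s - 1) * h0 s)
      (c0 := c0) (r := A / L) (R := R / L) (M := ‖fa k a T U z‖) (ρ := ρ) hr hrR hρ
      (by
        apply DifferentiableOn.mul
        · exact ((e1_differentiable k T U).mul (by fun_prop)).differentiableOn
        · exact hh0.mono fun s hs => hball s hs)
      (by
        intro s hs
        unfold fa
        rw [Z1_of_ne (hball s hs)]
        have := hfac s (hball s hs)
        linear_combination (e1 k T U s * (s - 1)) * this)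
      hz2 c0 (by rw [sub_self, norm_zero]; exact hr)
    have e2 : 2 * (A / L) / (R / L - A / L) = Real.exp (-lam) := by
      rw [hR, Real.exp_neg]
      field_simp
      ring
    rw [e2] at hsm
    obtain ⟨z1, z2, z3⟩ := box_coord hL0 hN hy1 hy2 (x₀ := 1 / 2) (z := z) (by rw [← hc0, hz1])
    have hh : (0 : ℝ) < 1 / L := by positivity
    have hN0 : (0 : ℝ) ≤ N := Nat.cast_nonneg N
    have hkey := h3 U hA a m z.re z.im (1 / 2) y z1 z2 z3 (by rw [sub_self, abs_zero]; positivity)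
      ((mul_le_mul_of_nonneg_right (by linarith) hh.le).trans hy1)
      (hy2.trans (mul_le_mul_of_nonneg_right (by linarith) hh.le))
    rw [Complex.re_add_im] at hkey
    have hpow := pow_le_pow_left₀ (norm_nonneg _) hsm (2 * k)
    rw [mul_pow] at hpow
    have hqk : (Real.exp (-lam) ^ n) ^ (2 * k) ≤ q := by
      rw [← Real.exp_nat_mul, ← Real.exp_nat_mul, hq]
      apply Real.exp_le_exp.2
      have hk1 : (1 : ℝ) ≤ k := by exact_mod_cast hk
      have : 0 ≤ lam * n := by positivity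
      push_cast
      nlinarith
    have hfl := fa_line k hk a T U y
    rw [← hc0] at hfl
    rw [hF]
    beta_reduce
    rw [← hc0, ← hfl]
    calc (T / ‖c0 - 1‖) ^ (2 * k) * ‖fa k a T U c0‖ ^ (2 * k)
        ≤ (T / ‖c0 - 1‖) ^ (2 * k) * ((Real.exp (-lam) ^ n) ^ (2 * k) * ‖fa k a T U z‖ ^ (2 * k)) :=
          mul_le_mul_of_nonneg_left hpow (by positivity)
      _ ≤ (T / ‖c0 - 1‖) ^ (2 * k) * (q * ‖fa k a T U z‖ ^ (2 * k)) := by
          gcongr
      _ = q * ((T / ‖c0 - 1‖) ^ (2 * k) * ‖fa k a T U z‖ ^ (2 * k)) := by ring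
      _ ≤ q * (C1 * Maj m) := mul_le_mul_of_nonneg_left hkey hq0.le
  have iE : Integrable (E.indicator F) := iF.indicator hE
  have hT2 : (0 : ℝ) < T ^ (2 * k) := by positivity
  have hcell : ∫ t, E.indicator F t ≤ q * (C1 * C2 * (1 + ‖a‖ ^ (2 * k))) * JJ k T U (1 / 2) := by
    apply cells_le iE (h := 1 / L) (by positivity)
    intro S
    have h8 : ∀ m ∈ S, ∫ t in ((m : ℝ) * (1 / L))..((m + 1 : ℝ) * (1 / L)), E.indicator F t ≤
        (1 / L) * (q * (C1 * Maj m) / T ^ (2 * k)) := by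
      intro m _
      have h9 : ∫ t in ((m : ℝ) * (1 / L))..((m + 1 : ℝ) * (1 / L)), E.indicator F t ≤
          ∫ _t in ((m : ℝ) * (1 / L))..((m + 1 : ℝ) * (1 / L)), q * (C1 * Maj m) / T ^ (2 * k) := by
        apply intervalIntegral.integral_mono_on (cell_le hL0 m) iE.intervalIntegrable
          intervalIntegrable_const
        intro y hy
        by_cases hyE : y ∈ E
        · rw [Set.indicator_of_mem hyE, le_div_iff₀ hT2, mul_comm]
          exact hpt m y hy.1 hy.2 hyE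
        · rw [Set.indicator_of_notMem hyE]
          have := hMaj0 m
          positivity
      rw [intervalIntegral.integral_const, smul_eq_mul] at h9
      refine h9.trans (le_of_eq ?_)
      ring
    refine (Finset.sum_le_sum h8).trans ?_
    have e : ∀ m, (1 / L) * (q * (C1 * Maj m) / T ^ (2 * k)) = (q * C1 / (L * T ^ (2 * k))) * Maj m := by
      intro m
      field_simp
    simp only [e]
    rw [← Finset.mul_sum]
    have h10 := mul_le_mul_of_nonneg_left (hsum a S) (show 0 ≤ q * C1 / (L * T ^ (2 * k)) by positivity)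
    refine h10.trans (le_of_eq ?_)
    field_simp
  rw [integral_indicator hE] at hcell
  refine hcell.trans (le_of_eq ?_)
  ring

theorem card_pow_le (n : ℕ) : (n : ℝ) * (1 / 4) ^ (n - 1) ≤ 1 := by
  rcases Nat.eq_zero_or_pos n with h | h
  · subst h; simp
  · obtain ⟨m, rfl⟩ : ∃ m, n = m + 1 := ⟨n - 1, by omega⟩
    rw [Nat.add_sub_cancel]
    have h1 : ((m + 1 : ℕ) : ℝ) ≤ 4 ^ m := by
      have h2 : m + 1 ≤ 2 ^ m := Nat.lt_two_pow_self
      have h3 : (2 : ℕ) ^ m ≤ 4 ^ m := Nat.pow_le_pow_left (by norm_num) m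
      exact_mod_cast h2.trans h3
    have h4 : (4 : ℝ) ^ m * (1 / 4) ^ m = 1 := by
      rw [← mul_pow]
      norm_num
    calc _ ≤ (4 : ℝ) ^ m * (1 / 4) ^ m := mul_le_mul_of_nonneg_right h1 (by positivity)
      _ = 1 := h4

/-- The derivative of the local function. -/
theorem fa_deriv (hk : 1 ≤ k) {a : ℂ} {T U A : ℝ} (hT : 0 < Real.log T) {ρ : ℂ} (hρ1 : ρ ≠ 1)
    (h0 : riemannZeta ρ = a) (hA : |ρ.re - 1 / 2| ≤ A / Real.log T) :
    fa k a T U ρ = 0 ∧ ‖deriv riemannZeta ρ‖ ^ (2 * k) * wt T U ρ.im ≤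
      Real.exp (k * A) * ((1 / ‖ρ - 1‖) ^ (2 * k) * ‖deriv (fa k a T U) ρ‖ ^ (2 * k)) := by
  have hg0 : Z1 ρ - a * (ρ - 1) = 0 := by
    rw [Z1_of_ne hρ1, h0]
    ring
  refine ⟨by unfold fa; rw [hg0, mul_zero], ?_⟩
  have hzd := differentiableAt_riemannZeta hρ1
  have hd1 : HasDerivAt Z1 (riemannZeta ρ + (ρ - 1) * deriv riemannZeta ρ) ρ := by
    have h1 : HasDerivAt (fun s => (s - 1) * riemannZeta s)
        (1 * riemannZeta ρ + (ρ - 1) * deriv riemannZeta ρ) ρ :=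
      ((hasDerivAt_id ρ).sub_const 1).mul hzd.hasDerivAt
    rw [one_mul] at h1
    refine h1.congr_of_eventuallyEq ?_
    filter_upwards [isOpen_ne.mem_nhds hρ1] with w hw using Z1_of_ne hw
  have hd2 : HasDerivAt (fun s => Z1 s - a * (s - 1)) ((ρ - 1) * deriv riemannZeta ρ) ρ := by
    have h1 := hd1.sub (((hasDerivAt_id ρ).sub_const 1).const_mul a)
    refine h1.congr_deriv ?_
    rw [h0]
    ring
  have hd3 : HasDerivAt (fa k a T U) (e1 k T U ρ * ((ρ - 1) * deriv riemannZeta ρ)) ρ := by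
    have h1 := ((e1_differentiable k T U) ρ).hasDerivAt.mul hd2
    refine h1.congr_deriv ?_
    rw [hg0, mul_zero, zero_add]
  have hn0 : ‖ρ - 1‖ ≠ 0 := norm_ne_zero_iff.2 (sub_ne_zero.2 hρ1)
  rw [hd3.deriv, norm_mul, norm_mul, mul_pow, mul_pow]
  have he := e1_norm k hk T U ρ.re ρ.im
  rw [Complex.re_add_im] at he
  rw [he]
  have h2 : 1 ≤ Real.exp (k * A) *
      Real.exp (k * Real.log T * (ρ.re - 1 / 2) + (ρ.re - 1 / 2) ^ 2 / U ^ 2) := by
    rw [← Real.exp_add]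
    apply Real.one_le_exp
    have h3 := (abs_le.1 hA).1
    have h4 : -A ≤ Real.log T * (ρ.re - 1 / 2) := by
      have h5 : -(A / Real.log T) * Real.log T ≤ (ρ.re - 1 / 2) * Real.log T :=
        mul_le_mul_of_nonneg_right h3 hT.le
      have h6 : -(A / Real.log T) * Real.log T = -A := by field_simp
      linarith
    have h7 := mul_le_mul_of_nonneg_left h4 (Nat.cast_nonneg (α := ℝ) k)
    have h8 : 0 ≤ (ρ.re - 1 / 2) ^ 2 / U ^ 2 := by positivity
    nlinarith
  have hw := wt_pos T U ρ.im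
  have e3 : Real.exp (k * A) * ((1 / ‖ρ - 1‖) ^ (2 * k) *
      (Real.exp (k * Real.log T * (ρ.re - 1 / 2) + (ρ.re - 1 / 2) ^ 2 / U ^ 2) * wt T U ρ.im *
        (‖ρ - 1‖ ^ (2 * k) * ‖deriv riemannZeta ρ‖ ^ (2 * k)))) =
      (Real.exp (k * A) * Real.exp (k * Real.log T * (ρ.re - 1 / 2) + (ρ.re - 1 / 2) ^ 2 / U ^ 2)) *
        (‖deriv riemannZeta ρ‖ ^ (2 * k) * wt T U ρ.im) := by
    rw [one_div, inv_pow]
    field_simp
  rw [e3]
  exact le_mul_of_one_le_left (by positivity) h2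

/-- **The derivative at the points near the line where the value is taken.** -/
theorem derA (hk : 1 ≤ k) {A : ℝ} (hA0 : 0 < A) : ∃ C : ℝ, 0 < C ∧
    ∀ᶠ T : ℝ in atTop, ∀ U : ℝ, Adm T U → ∀ (a : ℂ) (W : Finset ℂ),
    (∀ ρ ∈ W, riemannZeta ρ = a ∧ |ρ.re - 1 / 2| ≤ A / Real.log T) →
    ∑ ρ ∈ W, ‖deriv riemannZeta ρ‖ ^ (2 * k) * wt T U ρ.im ≤
      C * (1 + ‖a‖ ^ (2 * k)) * Real.log T ^ (2 * k + 1) * JJ k T U (1 / 2) := by
  set R := 5 * (A + 1) with hR
  have hR0 : 0 < R := by positivity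
  obtain ⟨N, hN⟩ := exists_nat_ge R
  obtain ⟨C1, hC1, h1⟩ := key_box k hk hR0.le N
  obtain ⟨C2, hC2, h2⟩ := Maj_sum k N hR0.le
  refine ⟨Real.exp (k * A) * C1 * C2, by positivity, ?_⟩
  filter_upwards [h1, h2, (log_div_tendsto R).eventually
    (gt_mem_nhds (show (0 : ℝ) < 1 / 4 by norm_num))] with T h3 h4 h6 U hA a W hW
  have hL := hA.log
  have hL0 : 0 < Real.log T := by linarith
  have hT : 0 < T := by linarith [hA.1]
  obtain ⟨hM, hsum⟩ := h4 U hA
  rw [abs_of_nonneg (by positivity)] at h6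
  set L := Real.log T with hLd
  set Maj : ℤ → ℝ := fun m => Th k R N T U m + (1 + ‖a‖ ^ (2 * k)) * (T ^ (2 * k) * Ga T U m) with hMaj
  have hMaj0 : ∀ m, 0 ≤ Maj m := by
    intro m
    have p1 := Th_nonneg k hR0.le N U hL0 m
    have p2 := Ga_nonneg hL0 U m
    rw [hMaj]
    positivity
  have hAR : A / L ≤ R / L := div_le_div_of_nonneg_right (by rw [hR]; linarith) hL0.le
  have hT2 : (0 : ℝ) < T ^ (2 * k) := by positivity
  set idx : ℂ → ℤ := fun ρ => ⌊ρ.im * L⌋ with hidx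
  have hcell : ∀ m : ℤ, T ^ (2 * k) * ∑ ρ ∈ W.filter (fun ρ => idx ρ = m),
      ‖deriv riemannZeta ρ‖ ^ (2 * k) * wt T U ρ.im ≤
        Real.exp (k * A) * (L ^ (2 * k) * (C1 * Maj m)) := by
    intro m
    set V := W.filter (fun ρ => idx ρ = m) with hV
    have hVW : ∀ ρ ∈ V, ρ ∈ W ∧ (m : ℝ) * (1 / L) ≤ ρ.im ∧ ρ.im ≤ (m + 1 : ℝ) * (1 / L) := by
      intro ρ hρ
      rw [hV, Finset.mem_filter] at hρ
      have q1 := Int.floor_le (ρ.im * L)
      have q2 := Int.lt_floor_add_one (ρ.im * L)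
      have q3 : ⌊ρ.im * L⌋ = m := hρ.2
      rw [q3] at q1 q2
      refine ⟨hρ.1, ?_, ?_⟩
      · rw [mul_one_div, div_le_iff₀ hL0]
        exact q1
      · rw [mul_one_div, le_div_iff₀ hL0]
        exact q2.le
    set c0 : ℂ := ((1 / 2 : ℝ) : ℂ) + ((m * (1 / L) : ℝ) : ℂ) * I with hc0
    set r := (A + 1) / L with hr
    have hr0 : 0 < r := by positivity
    have hRr : R / L = 5 * r := by rw [hR, hr]; ring
    obtain ⟨z, hz1, hz2⟩ := sphere_max (fa_differentiable k a T U).continuous c0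
      (show 0 ≤ R / L by positivity)
    obtain ⟨z1, z2, z3⟩ := box_coord hL0 hN (m := m) (η := m * (1 / L)) le_rfl (cell_le hL0 m)
      (x₀ := 1 / 2) (z := z) (by rw [← hc0, hz1])
    have hdisc : ∀ ρ ∈ V, ‖ρ - c0‖ ≤ r := by
      intro ρ hρ
      obtain ⟨p1, p2, p3⟩ := hVW ρ hρ
      have p4 := (hW ρ p1).2
      refine (Complex.norm_le_abs_re_add_abs_im _).trans ?_
      have e1' : (ρ - c0).re = ρ.re - 1 / 2 := by
        rw [hc0, Complex.sub_re, Complex.add_re, Complex.ofReal_re, Complex.re_ofReal_mul, Complex.I_re,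
          mul_zero, add_zero]
      have e2' : (ρ - c0).im = ρ.im - m * (1 / L) := by
        rw [hc0, Complex.sub_im, Complex.add_im, Complex.ofReal_im, Complex.im_ofReal_mul, Complex.I_im,
          mul_one, zero_add]
      rw [e1', e2', abs_of_nonneg (by linarith : 0 ≤ ρ.im - m * (1 / L))]
      have p5 : (m + 1 : ℝ) * (1 / L) = m * (1 / L) + 1 / L := by ring
      rw [hr, add_div]
      linarith
    have hne1 : ∀ ρ ∈ V, ρ ≠ 1 := by
      intro ρ hρ h
      have p4 := (hW ρ (hVW ρ hρ).1).2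
      rw [h, Complex.one_re] at p4
      have := le_abs_self (1 - 1 / 2 : ℝ)
      linarith
    have hzero : ∀ ρ ∈ V, fa k a T U ρ = 0 := fun ρ hρ =>
      (fa_deriv k hk hL0 (hne1 ρ hρ) (hW ρ (hVW ρ hρ).1).1 (hW ρ (hVW ρ hρ).1).2).1
    have hterm : ∀ ρ ∈ V, T ^ (2 * k) * (‖deriv riemannZeta ρ‖ ^ (2 * k) * wt T U ρ.im) ≤
        Real.exp (k * A) * (L ^ (2 * k) * ((1 / 4) ^ (V.card - 1) * (C1 * Maj m))) := by
      intro ρ hρ
      obtain ⟨p1, p2, p3⟩ := hVW ρ hρ
      have q1 := (fa_deriv k hk (U := U) hL0 (hne1 ρ hρ) (hW ρ p1).1 (hW ρ p1).2).2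
      have q2 := disc_deriv (fa_differentiable k a T U) (c0 := c0) (r := r) (R := R / L)
        (M := ‖fa k a T U z‖) hr0.le (by rw [hRr]; linarith) V hzero hdisc hz2 ρ hρ
      have e2 : 2 * r / (R / L - r) = 1 / 2 := by
        rw [hRr]
        field_simp
        norm_num
      have e3 : ‖fa k a T U z‖ / (R / L - r) = ‖fa k a T U z‖ * (L / (4 * (A + 1))) := by
        rw [hRr, hr]
        field_simp
        ring
      rw [e2, e3] at q2
      have q3 : ‖deriv (fa k a T U) ρ‖ ≤ (1 / 2) ^ (V.card - 1) * (‖fa k a T U z‖ * L) := by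
        refine q2.trans ?_
        apply mul_le_mul_of_nonneg_left _ (by positivity)
        apply mul_le_mul_of_nonneg_left _ (norm_nonneg _)
        apply div_le_self hL0.le
        linarith
      have q4 := pow_le_pow_left₀ (norm_nonneg _) q3 (2 * k)
      have q5 : ((1 / 2 : ℝ) ^ (V.card - 1)) ^ (2 * k) ≤ (1 / 4) ^ (V.card - 1) := by
        rw [← pow_mul, mul_comm (V.card - 1), pow_mul]
        apply pow_le_pow_left₀ (by positivity)
        calc ((1 : ℝ) / 2) ^ (2 * k) ≤ (1 / 2) ^ 2 :=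
              pow_le_pow_of_le_one (by norm_num) (by norm_num) (by omega)
          _ = 1 / 4 := by norm_num
      rw [mul_pow, mul_pow] at q4
      have hh : (0 : ℝ) < 1 / L := by positivity
      have hN0 : (0 : ℝ) ≤ N := Nat.cast_nonneg N
      have hkey := h3 U hA a m z.re z.im ρ.re ρ.im z1 z2 z3 ((hW ρ p1).2.trans hAR)
        ((mul_le_mul_of_nonneg_right (by linarith) hh.le).trans p2)
        (p3.trans (mul_le_mul_of_nonneg_right (by linarith) hh.le))
      rw [Complex.re_add_im, Complex.re_add_im] at hkey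
      calc T ^ (2 * k) * (‖deriv riemannZeta ρ‖ ^ (2 * k) * wt T U ρ.im)
          ≤ T ^ (2 * k) * (Real.exp (k * A) * ((1 / ‖ρ - 1‖) ^ (2 * k) *
              ‖deriv (fa k a T U) ρ‖ ^ (2 * k))) := mul_le_mul_of_nonneg_left q1 hT2.le
        _ = Real.exp (k * A) * ((T / ‖ρ - 1‖) ^ (2 * k) * ‖deriv (fa k a T U) ρ‖ ^ (2 * k)) := by
            rw [div_pow, div_pow, one_pow]
            ring
        _ ≤ Real.exp (k * A) * ((T / ‖ρ - 1‖) ^ (2 * k) *
              (((1 / 2 : ℝ) ^ (V.card - 1)) ^ (2 * k) * (‖fa k a T U z‖ ^ (2 * k) * L ^ (2 * k)))) := by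
            gcongr
        _ ≤ Real.exp (k * A) * ((T / ‖ρ - 1‖) ^ (2 * k) *
              ((1 / 4) ^ (V.card - 1) * (‖fa k a T U z‖ ^ (2 * k) * L ^ (2 * k)))) := by
            gcongr
        _ = Real.exp (k * A) * (L ^ (2 * k) * ((1 / 4) ^ (V.card - 1) *
              ((T / ‖ρ - 1‖) ^ (2 * k) * ‖fa k a T U z‖ ^ (2 * k)))) := by ring
        _ ≤ _ := by gcongr
    rw [Finset.mul_sum]
    refine (Finset.sum_le_sum hterm).trans ?_
    rw [Finset.sum_const, nsmul_eq_mul]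
    have q6 := card_pow_le V.card
    have q7 : 0 ≤ C1 * Maj m := mul_nonneg hC1.le (hMaj0 m)
    calc (V.card : ℝ) * (Real.exp (k * A) * (L ^ (2 * k) * ((1 / 4) ^ (V.card - 1) * (C1 * Maj m))))
        = ((V.card : ℝ) * (1 / 4) ^ (V.card - 1)) * (Real.exp (k * A) * (L ^ (2 * k) * (C1 * Maj m))) := by
          ring
      _ ≤ 1 * (Real.exp (k * A) * (L ^ (2 * k) * (C1 * Maj m))) :=
          mul_le_mul_of_nonneg_right q6 (by positivity)
      _ = _ := one_mul _
  have htot : T ^ (2 * k) * ∑ ρ ∈ W, ‖deriv riemannZeta ρ‖ ^ (2 * k) * wt T U ρ.im ≤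
      Real.exp (k * A) * (L ^ (2 * k) * (C1 * (C2 * (1 + ‖a‖ ^ (2 * k)) * L *
        (T ^ (2 * k) * JJ k T U (1 / 2))))) := by
    rw [← Finset.sum_fiberwise_of_maps_to (t := W.image idx) (g := idx)
      (fun ρ hρ => Finset.mem_image_of_mem idx hρ), Finset.mul_sum]
    refine (Finset.sum_le_sum fun m _ => hcell m).trans ?_
    rw [← Finset.mul_sum, ← Finset.mul_sum, ← Finset.mul_sum]
    have := hsum a (W.image idx)
    gcongr
  have e9 : Real.exp (k * A) * (L ^ (2 * k) * (C1 * (C2 * (1 + ‖a‖ ^ (2 * k)) * L *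
        (T ^ (2 * k) * JJ k T U (1 / 2))))) =
      T ^ (2 * k) * (Real.exp (k * A) * C1 * C2 * (1 + ‖a‖ ^ (2 * k)) * L ^ (2 * k + 1) *
        JJ k T U (1 / 2)) := by
    rw [pow_succ]
    ring
  rw [e9] at htot
  exact le_of_mul_le_mul_left htot hT2

end

end U345Z
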