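import Pool.Agent.U345.ZM4

/-!
# Arbitrary shifts
-/

set_option autoImplicit false

open MeasureTheory Filter Topology Complex

namespace U345Z

open Q97.MM

noncomputable section

variable (k : ℕ)

/-- The weight at a near point. -/
theorem wt_shift {T U A : ℝ} (hA : Adm T U) (hA0 : 0 ≤ A) {y y' : ℝ} (h1 : |y - T| ≤ U * Real.log T)
    (h2 : |y' - y| ≤ A / Real.log T) : wt T U y ≤ Real.exp (2 * A + A ^ 2) * wt T U y' := by
  have hL := hA.log
  have hL0 : 0 < Real.log T := by linarith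
  have hU := hA.pos
  have hU1 := hA.2.1
  unfold wt
  rw [← Real.exp_add]
  apply Real.exp_le_exp.2
  set L := Real.log T with hLd
  have e : 2 * A + A ^ 2 + -((y' - T) / U) ^ 2 - -((y - T) / U) ^ 2 =
      2 * A + A ^ 2 - ((y' - y) * ((y' - y) + 2 * (y - T))) / U ^ 2 := by
    field_simp
    ring
  have h3 : ((y' - y) * ((y' - y) + 2 * (y - T))) / U ^ 2 ≤ 2 * A + A ^ 2 := by
    rw [div_le_iff₀ (by positivity)]
    have h4 : (y' - y) * ((y' - y) + 2 * (y - T)) ≤ (A / L) * (A / L + 2 * (U * L)) := by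
      calc (y' - y) * ((y' - y) + 2 * (y - T)) ≤ |(y' - y) * ((y' - y) + 2 * (y - T))| := le_abs_self _
        _ = |y' - y| * |(y' - y) + 2 * (y - T)| := abs_mul _ _
        _ ≤ (A / L) * (A / L + 2 * (U * L)) := by
            apply mul_le_mul h2 _ (abs_nonneg _) (by positivity)
            refine (abs_add_le _ _).trans ?_
            rw [abs_mul, abs_two]
            linarith
    have h5 : (A / L) * (A / L + 2 * (U * L)) = (A / L) ^ 2 + 2 * A * U := by
      field_simp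
    have h6 : A / L ≤ A := div_le_self hA0 hL
    have h7 : (A / L) ^ 2 ≤ A ^ 2 := pow_le_pow_left₀ (by positivity) h6 2
    have h8 : U ≤ U ^ 2 := by nlinarith
    have h9 : A ^ 2 ≤ A ^ 2 * U ^ 2 := le_mul_of_one_le_right (by positivity) (by nlinarith)
    nlinarith [mul_le_mul_of_nonneg_left h8 hA0]
  linarith

theorem far_bd' {T U : ℝ} (hA : Adm T U) {y : ℝ} (hy : U * Real.log T ≤ |y - T|) (A : ℕ) :
    (1 + |y|) ^ A * wt T U y ≤ (1 + T) ^ A * Real.exp (-((1 * Real.log T) ^ 2 / 2)) * aw A T U y := by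
  have hU := hA.pos
  have hL := hA.log
  have hT : 0 ≤ T := by linarith [hA.1]
  have r1 := abs_le_scaled hU hT hA.le y
  have h1 : (Real.log T) ^ 2 ≤ ((y - T) / U) ^ 2 := by
    rw [← sq_abs ((y - T) / U), abs_div, abs_of_pos hU]
    apply pow_le_pow_left₀ (by linarith)
    rw [le_div_iff₀ hU]
    linarith
  have h2 : wt T U y ≤ Real.exp (-((1 * Real.log T) ^ 2 / 2)) * Real.exp (-(((y - T) / U) ^ 2 / 2)) := by
    unfold wt
    rw [← Real.exp_add]
    apply Real.exp_le_exp.2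
    rw [one_mul]
    linarith
  unfold aw
  calc (1 + |y|) ^ A * wt T U y ≤ ((1 + T) * (1 + |(y - T) / U|)) ^ A *
        (Real.exp (-((1 * Real.log T) ^ 2 / 2)) * Real.exp (-(((y - T) / U) ^ 2 / 2))) :=
        mul_le_mul (pow_le_pow_left₀ (by positivity) r1 _) h2 (wt_pos _ _ _).le (by positivity)
    _ = _ := by rw [mul_pow]; ring

/-- the majorant of a cell -/
def MM (A : ℝ) (N : ℕ) (T U : ℝ) (m : ℤ) : ℝ := Th k A N T U m + 1 * (T ^ (2 * k) * Ga T U m)

theorem MM_nonneg {A : ℝ} (hA : 0 ≤ A) (N : ℕ) {T : ℝ} (U : ℝ) (hT : 0 < T) (hL : 0 < Real.log T) (m : ℤ) :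
    0 ≤ MM k A N T U m := by
  have p1 := Th_nonneg k hA N U hL m
  have p2 := Ga_nonneg hL U m
  unfold MM
  positivity

/-- **Zeta near a point of a cell.** -/
theorem zeta_box (hk : 1 ≤ k) {A : ℝ} (hA0 : 0 ≤ A) {N : ℕ} (hN : A ≤ N) : ∃ C : ℝ, 0 < C ∧
    ∀ᶠ T : ℝ in atTop, ∀ U : ℝ, Adm T U → ∀ (m : ℤ) (y x' y' : ℝ),
    (m : ℝ) * (1 / Real.log T) ≤ y → y ≤ (m + 1 : ℝ) * (1 / Real.log T) →
    |x' - 1 / 2| ≤ A / Real.log T → |y' - y| ≤ A / Real.log T →
    T ^ (2 * k) * (‖riemannZeta (x' + y' * I)‖ ^ (2 * k) * wt T U y) ≤ C * MM k A N T U m := by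
  obtain ⟨C1, hC1, h1⟩ := key_box k hk hA0 N
  obtain ⟨C2, hC2, h2⟩ := aw_local (2 * (2 * k))
  set P := Real.exp (k * A) with hP
  have hP0 : 0 < P := Real.exp_pos _
  set Q := Real.exp (2 * A + A ^ 2) with hQ
  have hQ0 : 0 < Q := Real.exp_pos _
  set K2 := (4 : ℝ) ^ (2 * k) * 45 ^ (2 * k) * 2 ^ (2 * (2 * k)) * C2 with hK2
  have hK20 : 0 < K2 := by positivity
  refine ⟨Q * P * C1 + K2, by positivity, ?_⟩
  filter_upwards [h1, (log_div_tendsto A).eventually (gt_mem_nhds (show (0 : ℝ) < 1 / 4 by norm_num)),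
    (tail_tendsto (2 * k + 2 * (2 * k)) (η := 1) (by norm_num)).eventually (gt_mem_nhds one_pos),
    (log_div_tendsto 1).eventually (gt_mem_nhds one_pos)] with
    T h3 h4 h5 h5' U hA m y x' y' hy1 hy2 hx' hy'
  have hL := hA.log
  have hL0 : 0 < Real.log T := by linarith
  have hU := hA.pos
  have hU1 := hA.2.1
  have hT3 := hA.1
  have hT : 0 < T := by linarith
  rw [abs_of_nonneg (by positivity)] at h4 h5'
  set L := Real.log T with hLd
  have hx2 := abs_le.1 hx'
  have hy2' := abs_le.1 hy'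
  have hxa : 1 / 4 ≤ x' := by linarith
  have hxb : x' ≤ 3 / 4 := by linarith
  have hMM := MM_nonneg k hA0 N U hT hL0 m
  set s : ℂ := (x' : ℂ) + y' * I with hs
  have hs1 : 1 / 4 ≤ ‖s - 1‖ := by
    have e3 := Complex.abs_re_le_norm (s - 1)
    have e4 : (s - 1).re = x' - 1 := by simp [hs]
    rw [e4] at e3
    have := neg_abs_le (x' - 1)
    linarith
  have hsne : s ≠ 1 := by
    intro h
    rw [h, sub_self, norm_zero] at hs1
    linarith
  have hn0 : ‖s - 1‖ ≠ 0 := by linarith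
  have hh0 : (0 : ℝ) < 1 / L := by positivity
  have hAN : A / L ≤ N * (1 / L) := by
    rw [mul_one_div]
    exact div_le_div_of_nonneg_right hN hL0.le
  have hyl : (m - N : ℝ) * (1 / L) ≤ y' := by
    have : (m - N : ℝ) * (1 / L) = m * (1 / L) - N * (1 / L) := by ring
    linarith
  have hyu : y' ≤ (m + 1 + N : ℝ) * (1 / L) := by
    have : (m + 1 + N : ℝ) * (1 / L) = (m + 1) * (1 / L) + N * (1 / L) := by ring
    linarith
  have hZ : Z1 s = (s - 1) * riemannZeta s := Z1_of_ne hsne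
  by_cases hy : |y - T| ≤ U * L
  · -- near
    have q1 := h3 U hA 0 m x' y' x' y' hx' hyl hyu hx' hyl hyu
    have q2 : ‖fa k 0 T U s‖ ^ (2 * k) = ‖e1 k T U s‖ ^ (2 * k) *
        (‖s - 1‖ ^ (2 * k) * ‖riemannZeta s‖ ^ (2 * k)) := by
      unfold fa
      rw [zero_mul, sub_zero, hZ, norm_mul, norm_mul, mul_pow, mul_pow]
    have q3 : (T / ‖s - 1‖) ^ (2 * k) * ‖fa k 0 T U s‖ ^ (2 * k) =
        T ^ (2 * k) * (‖riemannZeta s‖ ^ (2 * k) * ‖e1 k T U s‖ ^ (2 * k)) := by
      rw [q2, div_pow]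
      field_simp
    rw [← hs, q3] at q1
    have q4 : wt T U y' ≤ P * ‖e1 k T U s‖ ^ (2 * k) := by
      have he := e1_norm k hk T U x' y'
      rw [← hs] at he
      rw [he, ← mul_assoc, ← Real.exp_add]
      apply le_mul_of_one_le_left (wt_pos _ _ _).le
      apply Real.one_le_exp
      have r1 : -A ≤ L * (x' - 1 / 2) := by
        have h5 : -(A / L) * L ≤ (x' - 1 / 2) * L := mul_le_mul_of_nonneg_right hx2.1 hL0.le
        have h6 : -(A / L) * L = -A := by field_simp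
        linarith
      have r2 := mul_le_mul_of_nonneg_left r1 (Nat.cast_nonneg (α := ℝ) k)
      have r3 : 0 ≤ (x' - 1 / 2) ^ 2 / U ^ 2 := by positivity
      nlinarith
    have q5 := wt_shift hA hA0 hy hy'
    have q6 : wt T U y ≤ Q * (P * ‖e1 k T U s‖ ^ (2 * k)) :=
      q5.trans (mul_le_mul_of_nonneg_left q4 hQ0.le)
    have e0 : (1 : ℝ) + ‖(0 : ℂ)‖ ^ (2 * k) = 1 := by
      rw [norm_zero, zero_pow (by omega), add_zero]
    rw [e0] at q1
    calc T ^ (2 * k) * (‖riemannZeta s‖ ^ (2 * k) * wt T U y)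
        ≤ T ^ (2 * k) * (‖riemannZeta s‖ ^ (2 * k) * (Q * (P * ‖e1 k T U s‖ ^ (2 * k)))) := by
          gcongr
      _ = Q * P * (T ^ (2 * k) * (‖riemannZeta s‖ ^ (2 * k) * ‖e1 k T U s‖ ^ (2 * k))) := by ring
      _ ≤ Q * P * (C1 * MM k A N T U m) := by
          apply mul_le_mul_of_nonneg_left _ (by positivity)
          exact q1
      _ = Q * P * C1 * MM k A N T U m := by ring
      _ ≤ _ := by
          apply mul_le_mul_of_nonneg_right _ hMM
          linarith
  · -- far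
    push Not at hy
    have q1 := Z1_pow_bd k hxa (by linarith) y'
    rw [← hs, hZ, norm_mul, mul_pow] at q1
    have q2 : ‖riemannZeta s‖ ^ (2 * k) ≤ 4 ^ (2 * k) * (45 ^ (2 * k) * (1 + |y'|) ^ (2 * (2 * k))) := by
      have r1 : 1 ≤ 4 ^ (2 * k) * ‖s - 1‖ ^ (2 * k) := by
        rw [← mul_pow]
        apply one_le_pow₀
        linarith
      calc ‖riemannZeta s‖ ^ (2 * k) ≤ (4 ^ (2 * k) * ‖s - 1‖ ^ (2 * k)) * ‖riemannZeta s‖ ^ (2 * k) :=
            le_mul_of_one_le_left (by positivity) r1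
        _ = 4 ^ (2 * k) * (‖s - 1‖ ^ (2 * k) * ‖riemannZeta s‖ ^ (2 * k)) := by ring
        _ ≤ _ := by gcongr
    have q3 : 1 + |y'| ≤ 2 * (1 + |y|) := by
      have r1 : |y'| ≤ |y| + |y' - y| := by
        have := abs_add_le y (y' - y)
        rwa [add_sub_cancel] at this
      have := abs_nonneg y
      linarith
    have q4 : (1 + |y'|) ^ (2 * (2 * k)) ≤ 2 ^ (2 * (2 * k)) * (1 + |y|) ^ (2 * (2 * k)) := by
      rw [← mul_pow]
      exact pow_le_pow_left₀ (by positivity) q3 _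
    have q5 := far_bd' hA hy.le (2 * (2 * k))
    have q6 : aw (2 * (2 * k)) T U y ≤ C2 * Ga T U m := by
      apply mean_cell hL0
      intro t ht
      apply h2 T U hU1
      rw [abs_le]
      have p3 : (m + 1 : ℝ) * (1 / L) = m * (1 / L) + 1 / L := by ring
      have ht1 := ht.1
      have ht2 := ht.2
      rw [← hLd] at ht1 ht2
      have : 1 / L ≤ 1 := h5'.le
      constructor <;> linarith
    have hw := wt_pos T U y
    have q7 : T ^ (2 * k) * ((1 + |y|) ^ (2 * (2 * k)) * wt T U y) ≤ C2 * Ga T U m := by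
      have r0 : T ^ (2 * k) ≤ (1 + T) ^ (2 * k) := pow_le_pow_left₀ hT.le (by linarith) _
      have haw := aw_nonneg (2 * (2 * k)) T U y
      calc T ^ (2 * k) * ((1 + |y|) ^ (2 * (2 * k)) * wt T U y)
          ≤ (1 + T) ^ (2 * k) * ((1 + T) ^ (2 * (2 * k)) * Real.exp (-((1 * L) ^ 2 / 2)) *
              aw (2 * (2 * k)) T U y) := mul_le_mul r0 q5 (by positivity) (by positivity)
        _ = ((1 + T) ^ (2 * k + 2 * (2 * k)) * Real.exp (-((1 * L) ^ 2 / 2))) *
              aw (2 * (2 * k)) T U y := by rw [pow_add]; ring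
        _ ≤ 1 * aw (2 * (2 * k)) T U y := mul_le_mul_of_nonneg_right h5.le haw
        _ ≤ _ := by rw [one_mul]; exact q6
    have hGa := Ga_nonneg hL0 U m
    have hT2k : 1 ≤ T ^ (2 * k) := one_le_pow₀ (by linarith)
    calc T ^ (2 * k) * (‖riemannZeta s‖ ^ (2 * k) * wt T U y)
        ≤ T ^ (2 * k) * ((4 ^ (2 * k) * (45 ^ (2 * k) * (2 ^ (2 * (2 * k)) *
            (1 + |y|) ^ (2 * (2 * k))))) * wt T U y) := by
          gcongr
          exact q2.trans (by gcongr)
      _ = 4 ^ (2 * k) * 45 ^ (2 * k) * 2 ^ (2 * (2 * k)) *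
            (T ^ (2 * k) * ((1 + |y|) ^ (2 * (2 * k)) * wt T U y)) := by ring
      _ ≤ 4 ^ (2 * k) * 45 ^ (2 * k) * 2 ^ (2 * (2 * k)) * (C2 * Ga T U m) := by gcongr
      _ = K2 * Ga T U m := by rw [hK2]; ring
      _ ≤ K2 * MM k A N T U m := by
          apply mul_le_mul_of_nonneg_left _ hK20.le
          unfold MM
          have p1 := Th_nonneg k hA0 N U hL0 m
          have p2 : Ga T U m ≤ T ^ (2 * k) * Ga T U m := le_mul_of_one_le_left hGa hT2k
          linarith
      _ ≤ _ := by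
          apply mul_le_mul_of_nonneg_right _ hMM
          have : 0 < Q * P * C1 := by positivity
          linarith

end

end U345Z
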