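import Pool.Agent.U345.ZN1

/-!
# Arbitrary shifts: products, and the integrals
-/

set_option autoImplicit false

open MeasureTheory Filter Topology Complex

namespace U345Z

open Q97.MM

noncomputable section

variable (k : ℕ)

/-- the point `1/2 + iy` -/
def pt (y : ℝ) : ℂ := ((1 / 2 : ℝ) : ℂ) + y * I

theorem ne_one_of_near {r y : ℝ} (hr : r < 1 / 2) {s : ℂ} (hs : ‖s - pt y‖ ≤ r) : s ≠ 1 := by
  intro h
  rw [h] at hs
  have h7 := (Complex.abs_re_le_norm ((1 : ℂ) - pt y)).trans hs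
  have e : ((1 : ℂ) - pt y).re = 1 / 2 := by
    unfold pt
    simp
    norm_num
  rw [e] at h7
  have := le_abs_self (1 / 2 : ℝ)
  linarith

/-- The maximum near a point of the line. -/
theorem local_max {r : ℝ} (hr0 : 0 ≤ r) (hr : r < 1 / 2) (y : ℝ) :
    ∃ w : ℂ, ‖w - pt y‖ ≤ r ∧ ∀ s, ‖s - pt y‖ ≤ r → ‖riemannZeta s‖ ≤ ‖riemannZeta w‖ := by
  have hc : ContinuousOn (fun s => ‖riemannZeta s‖) (Metric.closedBall (pt y) r) := by
    apply ContinuousOn.norm
    intro s hs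
    rw [mem_closedBall_iff_norm] at hs
    exact (differentiableAt_riemannZeta (ne_one_of_near hr hs)).continuousAt.continuousWithinAt
  obtain ⟨w, hw, hw'⟩ := (isCompact_closedBall (pt y) r).exists_isMaxOn
    ⟨pt y, Metric.mem_closedBall_self hr0⟩ hc
  refine ⟨w, by rwa [mem_closedBall_iff_norm] at hw, fun s hs => ?_⟩
  exact hw' (by rwa [mem_closedBall_iff_norm])

/-- Cauchy's estimate. -/
theorem der_near {L A : ℝ} (hL : 0 < L) (hA : (A + 1) / L < 1 / 2) {y S : ℝ}
    (hS : ∀ s, ‖s - pt y‖ ≤ (A + 1) / L → ‖riemannZeta s‖ ≤ S) {s : ℂ} (hs : ‖s - pt y‖ ≤ A / L) (n : ℕ) :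
    ‖iteratedDeriv n riemannZeta s‖ ≤ n.factorial * L ^ n * S := by
  have hh : (0 : ℝ) < 1 / L := by positivity
  have e0 : (A + 1) / L = 1 / L + A / L := by ring
  have hball : ∀ w, ‖w - s‖ ≤ 1 / L → ‖w - pt y‖ ≤ (A + 1) / L := by
    intro w hw
    calc ‖w - pt y‖ = ‖(w - s) + (s - pt y)‖ := by rw [sub_add_sub_cancel]
      _ ≤ ‖w - s‖ + ‖s - pt y‖ := norm_add_le _ _
      _ ≤ _ := by rw [e0]; linarith
  have h1 := Complex.norm_iteratedDeriv_le_of_forall_mem_sphere_norm_le (f := riemannZeta) (c := s)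
    (R := 1 / L) (C := S) n hh (by
      apply DifferentiableOn.diffContOnCl
      rw [closure_ball s hh.ne']
      intro w hw
      rw [mem_closedBall_iff_norm] at hw
      exact (differentiableAt_riemannZeta (ne_one_of_near hA (hball w hw))).differentiableWithinAt)
    (by
      intro w hw
      rw [mem_sphere_iff_norm] at hw
      exact hS w (hball w hw.le))
  refine h1.trans (le_of_eq ?_)
  rw [one_div, inv_pow]
  field_simp

theorem sub_near {L A : ℝ} (hL : 0 < L) (hA : (A + 1) / L < 1 / 2) {y S : ℝ}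
    (hS : ∀ s, ‖s - pt y‖ ≤ (A + 1) / L → ‖riemannZeta s‖ ≤ S) {s : ℂ} {δ : ℝ} (hδ : δ ≤ A)
    (hδ0 : 0 ≤ δ) (hs : ‖s - pt y‖ ≤ δ / L) : ‖riemannZeta s - riemannZeta (pt y)‖ ≤ δ * S := by
  have hA0 : 0 ≤ A := hδ0.trans hδ
  have hAL : A / L < 1 / 2 := by
    refine lt_of_le_of_lt ?_ hA
    apply div_le_div_of_nonneg_right _ hL.le
    linarith
  have hsA : ‖s - pt y‖ ≤ A / L := hs.trans (div_le_div_of_nonneg_right hδ hL.le)
  have hS0 : 0 ≤ S := (norm_nonneg _).trans (hS (pt y) (by rw [sub_self, norm_zero]; positivity))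
  have h1 := Convex.norm_image_sub_le_of_norm_deriv_le (f := riemannZeta) (𝕜 := ℂ) (C := L * S)
    (s := Metric.closedBall (pt y) (A / L)) (x := pt y) (y := s)
    (by
      intro w hw
      rw [mem_closedBall_iff_norm] at hw
      exact differentiableAt_riemannZeta (ne_one_of_near hAL hw))
    (by
      intro w hw
      rw [mem_closedBall_iff_norm] at hw
      have := der_near hL hA hS hw 1
      rw [iteratedDeriv_one] at this
      simpa using this)
    (convex_closedBall _ _) (Metric.mem_closedBall_self (by positivity))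
    (by rwa [mem_closedBall_iff_norm])
  refine h1.trans ?_
  calc L * S * ‖s - pt y‖ ≤ L * S * (δ / L) := mul_le_mul_of_nonneg_left hs (by positivity)
    _ = δ * S := by field_simp

theorem prod_sub {ι : Type} (s : Finset ι) (a b : ι → ℂ) {S ε : ℝ} (hε : 0 ≤ ε) (hS : 0 ≤ S)
    (ha : ∀ i ∈ s, ‖a i‖ ≤ S)
    (hb : ∀ i ∈ s, ‖b i‖ ≤ S) (hab : ∀ i ∈ s, ‖a i - b i‖ ≤ ε * S) :
    ‖∏ i ∈ s, a i - ∏ i ∈ s, b i‖ ≤ s.card * ε * S ^ s.card := by
  classical
  induction s using Finset.induction_on with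
  | empty => simp
  | insert j s hj ih =>
    have ih' := ih (fun i hi => ha i (Finset.mem_insert_of_mem hi))
      (fun i hi => hb i (Finset.mem_insert_of_mem hi)) (fun i hi => hab i (Finset.mem_insert_of_mem hi))
    rw [Finset.prod_insert hj, Finset.prod_insert hj, Finset.card_insert_of_notMem hj]
    have h1 : ‖∏ i ∈ s, a i‖ ≤ S ^ s.card := by
      rw [norm_prod]
      refine (Finset.prod_le_prod (fun i _ => norm_nonneg _)
        (fun i hi => ha i (Finset.mem_insert_of_mem hi))).trans (le_of_eq ?_)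
      rw [Finset.prod_const]
    have e : a j * ∏ i ∈ s, a i - b j * ∏ i ∈ s, b i =
        (a j - b j) * ∏ i ∈ s, a i + b j * (∏ i ∈ s, a i - ∏ i ∈ s, b i) := by ring
    rw [e]
    have h2 := hab j (Finset.mem_insert_self _ _)
    have h3 := hb j (Finset.mem_insert_self _ _)
    calc _ ≤ ‖a j - b j‖ * ‖∏ i ∈ s, a i‖ + ‖b j‖ * ‖∏ i ∈ s, a i - ∏ i ∈ s, b i‖ := by
          refine (norm_add_le _ _).trans ?_
          rw [norm_mul, norm_mul]
      _ ≤ (ε * S) * S ^ s.card + S * (s.card * ε * S ^ s.card) := by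
          gcongr
      _ = _ := by
          push_cast
          ring

/-- The integral over cells, for any measure. -/
theorem cell_lint {L B K s0 : ℝ} (hL : 0 < L) (hB : 0 ≤ B) (hK : 0 ≤ K) (ν : Measure ℝ)
    (hν : ∀ x : ℝ, ν (Set.Icc x (x + 1 / L)) ≤ ENNReal.ofReal (B / L)) (f : ℝ → ENNReal) (M : ℤ → ℝ)
    (hM : ∀ m, 0 ≤ M m)
    (hf : ∀ (m : ℤ) (y : ℝ), (m : ℝ) * (1 / L) ≤ y → y ≤ (m + 1 : ℝ) * (1 / L) →
      f y ≤ ENNReal.ofReal (K * M m))
    (hsum : ∀ S : Finset ℤ, ∑ m ∈ S, M m ≤ s0) :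
    ∫⁻ y, f y ∂ν ≤ ENNReal.ofReal (K * s0 * (B / L)) := by
  set cell : ℤ → Set ℝ := fun m => Set.Icc ((m : ℝ) * (1 / L)) ((m : ℝ) * (1 / L) + 1 / L) with hcell
  have hun : (⋃ m, cell m) = Set.univ := by
    rw [Set.eq_univ_iff_forall]
    intro y
    rw [Set.mem_iUnion]
    refine ⟨⌊y * L⌋, ?_, ?_⟩
    · have := Int.floor_le (y * L)
      rw [mul_one_div, div_le_iff₀ hL]
      exact this
    · have := Int.lt_floor_add_one (y * L)
      have e : ((⌊y * L⌋ : ℤ) : ℝ) * (1 / L) + 1 / L = (⌊y * L⌋ + 1) / L := by ring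
      rw [e, le_div_iff₀ hL]
      exact this.le
  have h1 : ∫⁻ y, f y ∂ν ≤ ∑' m, ∫⁻ y in cell m, f y ∂ν := by
    have := lintegral_iUnion_le (μ := ν) cell f
    rwa [hun, Measure.restrict_univ] at this
  have h2 : ∀ m, ∫⁻ y in cell m, f y ∂ν ≤ ENNReal.ofReal (K * M m * (B / L)) := by
    intro m
    calc ∫⁻ y in cell m, f y ∂ν ≤ ∫⁻ _y in cell m, ENNReal.ofReal (K * M m) ∂ν := by
          apply setLIntegral_mono' measurableSet_Icc
          intro y hy
          refine hf m y hy.1 (hy.2.trans (le_of_eq ?_))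
          ring
      _ = ENNReal.ofReal (K * M m) * ν (cell m) := setLIntegral_const _ _
      _ ≤ ENNReal.ofReal (K * M m) * ENNReal.ofReal (B / L) := by
          gcongr
          exact hν _
      _ = _ := by
          rw [← ENNReal.ofReal_mul (mul_nonneg hK (hM m))]
  refine h1.trans ((ENNReal.tsum_le_tsum h2).trans ?_)
  rw [ENNReal.tsum_eq_iSup_sum]
  apply iSup_le
  intro S
  rw [← ENNReal.ofReal_sum_of_nonneg (fun m _ => by have := hM m; positivity)]
  apply ENNReal.ofReal_le_ofReal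
  rw [← Finset.sum_mul, ← Finset.mul_sum]
  have := hsum S
  gcongr

/-- The pointwise bound: the local maximum. -/
theorem max_cell (hk : 1 ≤ k) {A : ℝ} (hA0 : 0 ≤ A) {N : ℕ} (hN : A ≤ N) : ∃ C : ℝ, 0 < C ∧
    ∀ᶠ T : ℝ in atTop, A / Real.log T < 1 / 2 ∧ ∀ U : ℝ, Adm T U → ∀ (m : ℤ) (y : ℝ),
    (m : ℝ) * (1 / Real.log T) ≤ y → y ≤ (m + 1 : ℝ) * (1 / Real.log T) →
    ∃ S : ℝ, 0 ≤ S ∧ (∀ s, ‖s - pt y‖ ≤ A / Real.log T → ‖riemannZeta s‖ ≤ S) ∧
      T ^ (2 * k) * (S ^ (2 * k) * wt T U y) ≤ C * MM k A N T U m := by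
  obtain ⟨C, hC, h1⟩ := zeta_box k hk hA0 hN
  refine ⟨C, hC, ?_⟩
  filter_upwards [h1, (log_div_tendsto A).eventually (gt_mem_nhds (show (0 : ℝ) < 1 / 2 by norm_num)),
    eventually_ge_atTop 3] with T h2 h3 hT3
  have hL0 : 0 < Real.log T := Real.log_pos (by linarith)
  rw [abs_of_nonneg (by positivity)] at h3
  refine ⟨h3, fun U hA m y hy1 hy2 => ?_⟩
  obtain ⟨w, hw1, hw2⟩ := local_max (r := A / Real.log T) (by positivity) h3 y
  refine ⟨‖riemannZeta w‖, norm_nonneg _, hw2, ?_⟩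
  have h4 := (Complex.abs_re_le_norm (w - pt y)).trans hw1
  have h5 := (Complex.abs_im_le_norm (w - pt y)).trans hw1
  have e1 : (w - pt y).re = w.re - 1 / 2 := by unfold pt; simp
  have e2 : (w - pt y).im = w.im - y := by unfold pt; simp
  rw [e1] at h4
  rw [e2] at h5
  have h6 := h2 U hA m y w.re w.im hy1 hy2 h4 h5
  rwa [Complex.re_add_im] at h6

theorem MM_sum {A : ℝ} (hA0 : 0 ≤ A) (N : ℕ) (hk : 1 ≤ k) : ∃ C : ℝ, 0 < C ∧ ∀ᶠ T : ℝ in atTop, ∀ U : ℝ,
    Adm T U → 0 < JJ k T U (1 / 2) ∧ ∀ S : Finset ℤ,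
    ∑ m ∈ S, MM k A N T U m ≤ C * Real.log T * (T ^ (2 * k) * JJ k T U (1 / 2)) := by
  obtain ⟨C, hC, h1⟩ := Maj_sum k N hA0
  refine ⟨C, hC, ?_⟩
  filter_upwards [h1] with T h2 U hA
  obtain ⟨h3, h4⟩ := h2 U hA
  refine ⟨h3, fun S => ?_⟩
  have h5 := h4 0 S
  have e0 : (1 : ℝ) + ‖(0 : ℂ)‖ ^ (2 * k) = 1 := by
    rw [norm_zero, zero_pow (by omega), add_zero]
  rw [e0, mul_one] at h5
  exact h5

/-- **Carleson measures**: products of derivatives at arbitrary shifts. -/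
theorem carleson (hk : 1 ≤ k) {A : ℝ} (hA0 : 0 ≤ A) (d : Fin (2 * k) → ℕ) : ∃ C : ℝ, 0 < C ∧
    ∀ᶠ T : ℝ in atTop, ∀ U : ℝ, Adm T U → ∀ (B : ℝ) (ν : Measure ℝ), 0 ≤ B →
    (∀ x : ℝ, ν (Set.Icc x (x + 1 / Real.log T)) ≤ ENNReal.ofReal (B / Real.log T)) →
    ∀ z : Fin (2 * k) → ℝ → ℂ, (∀ i y, ‖z i y‖ ≤ A) →
    ∫⁻ y, ENNReal.ofReal ((∏ i, ‖iteratedDeriv (d i) riemannZeta (pt y + z i y / Real.log T)‖) *
      wt T U y) ∂ν ≤ ENNReal.ofReal (C * B * Real.log T ^ (∑ i, d i) * JJ k T U (1 / 2)) := by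
  obtain ⟨N, hN⟩ := exists_nat_ge (A + 1)
  obtain ⟨C1, hC1, h1⟩ := max_cell k hk (show 0 ≤ A + 1 by positivity) hN
  obtain ⟨C2, hC2, h2⟩ := MM_sum k (show 0 ≤ A + 1 by positivity) N hk
  set D : ℝ := ∏ i, ((d i).factorial : ℝ) with hD
  have hD0 : 0 < D := Finset.prod_pos fun i _ => by positivity
  refine ⟨D * C1 * C2, by positivity, ?_⟩
  filter_upwards [h1, h2] with T h3 h4 U hA B ν hB hν z hz
  have hL := hA.log
  have hL0 : 0 < Real.log T := by linarith
  have hT : 0 < T := by linarith [hA.1]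
  obtain ⟨hM, hsum⟩ := h4 U hA
  obtain ⟨h5, h6⟩ := h3
  set L := Real.log T with hLd
  set n := ∑ i, d i with hn
  have hT2 : (0 : ℝ) < T ^ (2 * k) := by positivity
  have hpt : ∀ (m : ℤ) (y : ℝ), (m : ℝ) * (1 / L) ≤ y → y ≤ (m + 1 : ℝ) * (1 / L) →
      ENNReal.ofReal ((∏ i, ‖iteratedDeriv (d i) riemannZeta (pt y + z i y / L)‖) * wt T U y) ≤
        ENNReal.ofReal ((D * L ^ n * C1 / T ^ (2 * k)) * MM k (A + 1) N T U m) := by
    intro m y hy1 hy2
    apply ENNReal.ofReal_le_ofReal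
    obtain ⟨S, hS0, hS1, hS2⟩ := h6 U hA m y hy1 hy2
    have hw := wt_pos T U y
    have h7 : (∏ i, ‖iteratedDeriv (d i) riemannZeta (pt y + z i y / L)‖) ≤ D * L ^ n * S ^ (2 * k) := by
      calc _ ≤ ∏ i : Fin (2 * k), (((d i).factorial : ℝ) * L ^ (d i) * S) := by
            apply Finset.prod_le_prod
            · intro i _
              exact norm_nonneg _
            · intro i _
              apply der_near hL0 h5 hS1
              rw [add_sub_cancel_left, norm_div, Complex.norm_real, Real.norm_of_nonneg hL0.le]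
              exact div_le_div_of_nonneg_right (hz i y) hL0.le
        _ = _ := by
            rw [Finset.prod_mul_distrib, Finset.prod_mul_distrib, Finset.prod_const,
              Finset.prod_pow_eq_pow_sum, Finset.card_univ, Fintype.card_fin]
    have h8 : (D * L ^ n * C1 / T ^ (2 * k)) * MM k (A + 1) N T U m =
        (D * L ^ n * (C1 * MM k (A + 1) N T U m)) / T ^ (2 * k) := by ring
    rw [h8, le_div_iff₀ hT2]
    calc _ ≤ (D * L ^ n * S ^ (2 * k)) * wt T U y * T ^ (2 * k) := by gcongr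
      _ = D * L ^ n * (T ^ (2 * k) * (S ^ (2 * k) * wt T U y)) := by ring
      _ ≤ _ := by gcongr
  have h9 := cell_lint hL0 hB (K := D * L ^ n * C1 / T ^ (2 * k)) (by positivity) ν hν _
    (fun m => MM k (A + 1) N T U m) (fun m => MM_nonneg k (by positivity) N U hT hL0 m) hpt hsum
  refine h9.trans (le_of_eq ?_)
  congr 1
  field_simp

theorem zeta_measurable : Measurable riemannZeta := by
  apply measurable_of_continuousOn_compl_singleton 1
  intro s hs
  exact (differentiableAt_riemannZeta (by simpa using hs)).continuousAt.continuousWithinAt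

theorem reflect (y : ℝ) (w : ℂ) (L : ℝ) :
    riemannZeta (pt (-y) + w / L) = (starRingEnd ℂ) (riemannZeta (pt y + (starRingEnd ℂ) w / L)) := by
  rw [← riemannZeta_conj]
  congr 1
  unfold pt
  simp only [map_add, map_mul, map_div₀, Complex.conj_ofReal, Complex.conj_I, Complex.conj_conj]
  push_cast
  ring

/-- **Small shifts.** -/
theorem small_shifts (hk : 1 ≤ k) {A : ℝ} (hA0 : 0 ≤ A) : ∃ C : ℝ, 0 < C ∧
    ∀ᶠ T : ℝ in atTop, ∀ U : ℝ, Adm T U → ∀ (δ : ℝ), 0 ≤ δ → δ ≤ A →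
    ∀ z w : Fin k → ℝ → ℂ, (∀ i, Measurable (z i)) → (∀ i, Measurable (w i)) →
    (∀ i y, ‖z i y‖ ≤ δ) → (∀ i y, ‖w i y‖ ≤ δ) →
    Integrable (fun y : ℝ => (∏ i, (riemannZeta (pt y + z i y / Real.log T) *
      riemannZeta (pt (-y) + w i y / Real.log T))) * (wt T U y : ℂ)) ∧
    ‖(∫ y : ℝ, (∏ i, (riemannZeta (pt y + z i y / Real.log T) *
      riemannZeta (pt (-y) + w i y / Real.log T))) * (wt T U y : ℂ)) - (JJ k T U (1 / 2) : ℂ)‖ ≤
      C * δ * JJ k T U (1 / 2) := by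
  obtain ⟨N, hN⟩ := exists_nat_ge (A + 1)
  obtain ⟨C1, hC1, h1⟩ := max_cell k hk (show 0 ≤ A + 1 by positivity) hN
  obtain ⟨C2, hC2, h2⟩ := MM_sum k (show 0 ≤ A + 1 by positivity) N hk
  have hk0 : (0 : ℝ) < k := by
    have : 0 < k := hk
    positivity
  refine ⟨2 * k * C1 * C2, by positivity, ?_⟩
  filter_upwards [h1, h2, cmp_set k one_pos] with T h3 h4 h4' U hA δ hδ0 hδ z w hzm hwm hz hw
  have hL := hA.log
  have hL0 : 0 < Real.log T := by linarith
  have hT : 0 < T := by linarith [hA.1]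
  obtain ⟨hM, hsum⟩ := h4 U hA
  obtain ⟨h5, h6⟩ := h3
  obtain ⟨-, iz, -, -⟩ := h4' U hA
  set L := Real.log T with hLd
  have hT2 : (0 : ℝ) < T ^ (2 * k) := by positivity
  have hwtm : Measurable (wt T U) := by
    apply Continuous.measurable
    unfold wt
    fun_prop
  have hptm : Measurable pt := by
    apply Continuous.measurable
    unfold pt
    fun_prop
  -- the two functions
  set P : ℝ → ℂ := fun y => (∏ i, (riemannZeta (pt y + z i y / L) *
      riemannZeta (pt (-y) + w i y / L))) * (wt T U y : ℂ) with hP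
  set Q : ℝ → ℂ := fun y => ((zq k T U y : ℝ) : ℂ) with hQ
  have iQ : Integrable Q := iz.ofReal
  have hQint : ∫ y, Q y = (JJ k T U (1 / 2) : ℂ) := by
    rw [hQ, integral_complex_ofReal]
    rfl
  have hPm : Measurable P := by
    apply Measurable.mul _ (Complex.measurable_ofReal.comp hwtm)
    apply Finset.measurable_fun_prod
    intro i _
    apply Measurable.mul
    · exact zeta_measurable.comp (hptm.add ((hzm i).div_const _))
    · exact zeta_measurable.comp ((hptm.comp measurable_neg).add ((hwm i).div_const _))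
  have hpt : ∀ (m : ℤ) (y : ℝ), (m : ℝ) * (1 / L) ≤ y → y ≤ (m + 1 : ℝ) * (1 / L) →
      ‖P y - Q y‖ₑ ≤ ENNReal.ofReal ((2 * k * δ * C1 / T ^ (2 * k)) * MM k (A + 1) N T U m) := by
    intro m y hy1 hy2
    obtain ⟨S, hS0, hS1, hS2⟩ := h6 U hA m y hy1 hy2
    have hwy := wt_pos T U y
    rw [← ofReal_norm]
    apply ENNReal.ofReal_le_ofReal
    have hnear : ∀ (u : ℂ), ‖u‖ ≤ δ → ‖pt y + u / L - pt y‖ ≤ δ / L := by
      intro u hu
      rw [add_sub_cancel_left, norm_div, Complex.norm_real, Real.norm_of_nonneg hL0.le]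
      exact div_le_div_of_nonneg_right hu hL0.le
    have hbig : ∀ (u : ℂ), ‖u‖ ≤ δ → ‖riemannZeta (pt y + u / L)‖ ≤ S := by
      intro u hu
      apply hS1
      refine (hnear u hu).trans (div_le_div_of_nonneg_right (by linarith) hL0.le)
    have hdiff : ∀ (u : ℂ), ‖u‖ ≤ δ → ‖riemannZeta (pt y + u / L) - riemannZeta (pt y)‖ ≤ δ * S :=
      fun u hu => sub_near hL0 h5 hS1 hδ hδ0 (hnear u hu)
    set b := riemannZeta (pt y) with hb
    have hb1 : ‖b‖ ≤ S := hS1 _ (by rw [sub_self, norm_zero]; positivity)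
    have p1 := prod_sub Finset.univ (fun i => riemannZeta (pt y + z i y / L)) (fun _ : Fin k => b) hδ0 hS0
      (fun i _ => hbig _ (hz i y)) (fun i _ => hb1) (fun i _ => hdiff _ (hz i y))
    have p2 := prod_sub Finset.univ (fun i => riemannZeta (pt (-y) + w i y / L))
      (fun _ : Fin k => (starRingEnd ℂ) b) hδ0 hS0
      (fun i _ => by
        rw [reflect, Complex.norm_conj]
        exact hbig _ (by rw [Complex.norm_conj]; exact hw i y))
      (fun i _ => by rw [Complex.norm_conj]; exact hb1)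
      (fun i _ => by
        rw [reflect, ← map_sub, Complex.norm_conj]
        exact hdiff _ (by rw [Complex.norm_conj]; exact hw i y))
    rw [Finset.card_univ, Fintype.card_fin, Finset.prod_const, Finset.card_univ, Fintype.card_fin] at p1 p2
    have p3 : ‖∏ i : Fin k, riemannZeta (pt (-y) + w i y / L)‖ ≤ S ^ k := by
      rw [norm_prod]
      refine (Finset.prod_le_prod (g := fun _ => S) (fun i _ => norm_nonneg _) (fun i _ => ?_)).trans
        (le_of_eq ?_)
      · rw [reflect, Complex.norm_conj]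
        exact hbig _ (by rw [Complex.norm_conj]; exact hw i y)
      · rw [Finset.prod_const, Finset.card_univ, Fintype.card_fin]
    have p4 : ‖b ^ k‖ ≤ S ^ k := by
      rw [norm_pow]
      exact pow_le_pow_left₀ (norm_nonneg _) hb1 k
    have e1 : Q y = (b ^ k * (starRingEnd ℂ) b ^ k) * (wt T U y : ℂ) := by
      rw [hQ]
      beta_reduce
      unfold zq
      have e3 : ((1 / 2 : ℝ) : ℂ) + y * I = pt y := rfl
      rw [← mul_pow, Complex.mul_conj, Complex.normSq_eq_norm_sq, hb, e3, ← Complex.ofReal_pow, ← pow_mul,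
        Complex.ofReal_mul]
    rw [e1, hP]
    beta_reduce
    rw [← sub_mul, norm_mul, Complex.norm_real, Real.norm_of_nonneg hwy.le, Finset.prod_mul_distrib]
    set X := ∏ i : Fin k, riemannZeta (pt y + z i y / L)
    set Y := ∏ i : Fin k, riemannZeta (pt (-y) + w i y / L)
    have p5 : ‖X * Y - b ^ k * (starRingEnd ℂ) b ^ k‖ ≤ 2 * k * δ * S ^ (2 * k) := by
      have e2 : X * Y - b ^ k * (starRingEnd ℂ) b ^ k = (X - b ^ k) * Y + b ^ k * (Y - (starRingEnd ℂ) b ^ k) := by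
        ring
      rw [e2]
      calc _ ≤ ‖X - b ^ k‖ * ‖Y‖ + ‖b ^ k‖ * ‖Y - (starRingEnd ℂ) b ^ k‖ := by
            refine (norm_add_le _ _).trans ?_
            rw [norm_mul, norm_mul]
        _ ≤ (k * δ * S ^ k) * S ^ k + S ^ k * (k * δ * S ^ k) := by gcongr
        _ = _ := by
            rw [two_mul k, pow_add]
            ring
    have h8 : (2 * k * δ * C1 / T ^ (2 * k)) * MM k (A + 1) N T U m =
        (2 * k * δ * (C1 * MM k (A + 1) N T U m)) / T ^ (2 * k) := by ring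
    rw [h8, le_div_iff₀ hT2]
    calc _ ≤ (2 * k * δ * S ^ (2 * k)) * wt T U y * T ^ (2 * k) := by gcongr
      _ = 2 * k * δ * (T ^ (2 * k) * (S ^ (2 * k) * wt T U y)) := by ring
      _ ≤ _ := by gcongr
  have hvol : ∀ x : ℝ, (volume : Measure ℝ) (Set.Icc x (x + 1 / L)) ≤ ENNReal.ofReal (1 / L) := by
    intro x
    rw [Real.volume_Icc, add_sub_cancel_left]
  have h9 := cell_lint hL0 zero_le_one (K := 2 * k * δ * C1 / T ^ (2 * k)) (by positivity) volume hvol _
    (fun m => MM k (A + 1) N T U m) (fun m => MM_nonneg k (by positivity) N U hT hL0 m) hpt hsum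
  have e9 : 2 * k * δ * C1 / T ^ (2 * k) * (C2 * L * (T ^ (2 * k) * JJ k T U (1 / 2))) * (1 / L) =
      2 * k * C1 * C2 * δ * JJ k T U (1 / 2) := by
    field_simp
  rw [e9] at h9
  have iD : Integrable (fun y => P y - Q y) := by
    refine ⟨(hPm.aestronglyMeasurable).sub iQ.aestronglyMeasurable, ?_⟩
    exact lt_of_le_of_lt h9 ENNReal.ofReal_lt_top
  have iP : Integrable P := by
    have := iD.add iQ
    refine this.congr (Eventually.of_forall fun y => ?_)
    simp
  refine ⟨iP, ?_⟩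
  have e10 : (∫ y, P y) - (JJ k T U (1 / 2) : ℂ) = ∫ y, (P y - Q y) := by
    rw [integral_sub iP iQ, hQint]
  rw [e10]
  have h10 := (enorm_integral_le_lintegral_enorm (fun y => P y - Q y)).trans h9
  rw [← ofReal_norm] at h10
  exact (ENNReal.ofReal_le_ofReal_iff (by positivity)).1 h10

end

end U345Z
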