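import Pool.Agent.U345.ZN2
import Mathlib.Analysis.Complex.BorelCaratheodory
import Mathlib.Analysis.Complex.HasPrimitives

/-!
# Lower bounds for holomorphic functions outside small discs
-/

set_option autoImplicit false

open MeasureTheory Filter Topology Complex Metric

namespace U345Z

noncomputable section

/-- local logarithm (from `Pool.Agent.W688.SD.SHar`) -/
lemma exists_log' {K : ℂ → ℂ} {w : ℂ} {d : ℝ} (hd : 0 < d) (hK : DifferentiableOn ℂ K (ball w d))
    (h0 : ∀ z ∈ ball w d, K z ≠ 0) :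
    ∃ G : ℂ → ℂ, G w = 0 ∧ (∀ z ∈ ball w d, HasDerivAt G (logDeriv K z) z) ∧
      ∀ z ∈ ball w d, K z = K w * cexp (G z) := by
  have hL : DifferentiableOn ℂ (logDeriv K) (ball w d) := by
    have h1 : DifferentiableOn ℂ (deriv K) (ball w d) := hK.deriv isOpen_ball
    exact h1.div hK h0
  obtain ⟨G, hG0, hG⟩ := (hL.isExactOn_ball).with_val_at w 0
  have hG' : ∀ z ∈ ball w d, HasDerivAt G (logDeriv K z) z := hG
  refine ⟨G, hG0, hG', ?_⟩
  have hc : ∀ z ∈ ball w d, K z * cexp (-(G z)) = K w * cexp (-(G w)) := by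
    intro z hz
    have hder : ∀ x ∈ ball w d, HasDerivAt (fun x => K x * cexp (-(G x))) 0 x := by
      intro x hx
      have h1 : HasDerivAt K (deriv K x) x := (hK.differentiableAt (isOpen_ball.mem_nhds hx)).hasDerivAt
      have h2 := h1.mul (hG' x hx).neg.cexp
      refine h2.congr_deriv ?_
      have h3 := h0 x hx
      rw [logDeriv_apply]
      field_simp
      ring
    have hw : w ∈ ball w d := mem_ball_self hd
    refine (convex_ball w d).is_const_of_fderivWithin_eq_zero (𝕜 := ℂ) (f := fun x => K x * cexp (-(G x)))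
      (fun x hx => (hder x hx).differentiableAt.differentiableWithinAt) ?_ hz hw
    intro x hx
    rw [fderivWithin_of_isOpen isOpen_ball hx]
    have := (hder x hx).hasFDerivAt.fderiv
    rw [this]
    ext
    simp
  intro z hz
  have h1 := hc z hz
  rw [hG0, neg_zero, Complex.exp_zero, mul_one] at h1
  rw [← h1, mul_assoc, ← Complex.exp_add, neg_add_cancel, Complex.exp_zero, mul_one]

/-- Harnack's inequality (from `Pool.Agent.W688.SD.SHar`) -/
lemma harnack' {K : ℂ → ℂ} {w : ℂ} {d M : ℝ} (hd : 0 < d) (hM : 0 < M) (hK : DifferentiableOn ℂ K (ball w d))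
    (h0 : ∀ z ∈ ball w d, K z ≠ 0) (hb : ∀ z ∈ ball w d, ‖K z‖ ≤ Real.exp M * ‖K w‖) :
    ∀ z : ℂ, ‖z - w‖ ≤ d / 2 → ‖K w‖ ≤ Real.exp (2 * M) * ‖K z‖ := by
  obtain ⟨G, hG0, hG, hKG⟩ := exists_log' hd hK h0
  have hw0 : 0 < ‖K w‖ := norm_pos_iff.2 (h0 w (mem_ball_self hd))
  have hre : ∀ z ∈ ball w d, (G z).re ≤ M := by
    intro z hz
    have h1 := hb z hz
    rw [hKG z hz, norm_mul, Complex.norm_exp, mul_comm] at h1
    have h2 := le_of_mul_le_mul_right h1 hw0
    exact Real.exp_le_exp.1 h2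
  have hbd : ∀ z : ℂ, ‖z - w‖ ≤ d / 2 → ‖G z‖ ≤ 2 * M := by
    intro z hz
    have hz' : z - w ∈ ball (0:ℂ) d := by
      rw [mem_ball_zero_iff]; linarith
    have hmem : ∀ u ∈ ball (0:ℂ) d, u + w ∈ ball w d := by
      intro u hu
      rw [mem_ball_zero_iff] at hu
      rw [mem_ball, dist_eq_norm]
      simpa using hu
    have hbc := Complex.borelCaratheodory_zero (f := fun u => G (u + w)) (R := d) (M := M) (z := z - w) hM
      (by
        intro u hu
        have h1 := (hG _ (hmem u hu)).differentiableAt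
        exact (DifferentiableAt.comp u h1 (by fun_prop)).differentiableWithinAt)
      (by
        intro u hu
        exact hre _ (hmem u hu)) hd hz' (by simpa using hG0)
    simp only [sub_add_cancel] at hbc
    refine hbc.trans ?_
    rw [div_le_iff₀ (by linarith)]
    have := norm_nonneg (z - w)
    nlinarith
  intro z hz
  have hz' : z ∈ ball w d := by
    rw [mem_ball, dist_eq_norm]; linarith
  have h1 := hbd z hz
  have h2 : -(2 * M) ≤ (G z).re := by
    have := Complex.abs_re_le_norm (G z)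
    have := neg_abs_le (G z).re
    linarith
  rw [hKG z hz', norm_mul, Complex.norm_exp]
  calc ‖K w‖ = ‖K w‖ * 1 := (mul_one _).symm
    _ ≤ ‖K w‖ * Real.exp (2 * M + (G z).re) := by
        apply mul_le_mul_of_nonneg_left _ hw0.le
        apply Real.one_le_exp
        linarith
    _ = _ := by rw [Real.exp_add]; ring

/-- `n` zeros, with multiplicity, in the disc are split off -/
def Fac (F : ℂ → ℂ) (c0 : ℂ) (r : ℝ) (n : ℕ) (ρ : Fin n → ℂ) (h : ℂ → ℂ) : Prop :=
  (∀ i, ‖ρ i - c0‖ ≤ r) ∧ Differentiable ℂ h ∧ ∀ s, F s = (∏ i, (s - ρ i)) * h s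

theorem Fac_succ {F : ℂ → ℂ} {c0 : ℂ} {r : ℝ} {n : ℕ} {ρ : Fin n → ℂ} {h : ℂ → ℂ} (H : Fac F c0 r n ρ h)
    {z : ℂ} (hz : ‖z - c0‖ ≤ r) (hz0 : h z = 0) : ∃ (ρ' : Fin (n + 1) → ℂ) (h' : ℂ → ℂ),
    Fac F c0 r (n + 1) ρ' h' := by
  obtain ⟨h1, h2, h3⟩ := H
  refine ⟨Fin.cons z ρ, dslope h z, ?_, ?_, ?_⟩
  · intro i
    refine Fin.cases ?_ (fun j => ?_) i
    · simpa using hz
    · simpa using h1 j
  · have := (Complex.differentiableOn_dslope (f := h) (c := z) univ_mem).2 h2.differentiableOn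
    exact differentiableOn_univ.1 this
  · intro s
    rw [Fin.prod_univ_succ]
    simp only [Fin.cons_zero, Fin.cons_succ]
    have := sub_smul_dslope h z s
    rw [hz0, sub_zero, smul_eq_mul] at this
    rw [h3 s, ← this]
    ring

/-- All zeros in the disc can be split off. -/
theorem Fac_max {F : ℂ → ℂ} (hF : Differentiable ℂ F) {c0 : ℂ} {r : ℝ} {n0 : ℕ}
    (hn0 : ∀ (n : ℕ) (ρ : Fin n → ℂ) (h : ℂ → ℂ), Fac F c0 r n ρ h → n ≤ n0) :
    ∃ (n : ℕ) (ρ : Fin n → ℂ) (h : ℂ → ℂ), n ≤ n0 ∧ Fac F c0 r n ρ h ∧ ∀ z, ‖z - c0‖ ≤ r → h z ≠ 0 := by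
  by_contra hcon
  push Not at hcon
  have hall : ∀ n : ℕ, ∃ (ρ : Fin n → ℂ) (h : ℂ → ℂ), Fac F c0 r n ρ h := by
    intro n
    induction n with
    | zero => exact ⟨fun i => i.elim0, F, fun i => i.elim0, hF, fun s => by simp⟩
    | succ n ih =>
      obtain ⟨ρ, h, H⟩ := ih
      obtain ⟨z, hz, hz0⟩ := hcon n ρ h (hn0 n ρ h H) H
      exact Fac_succ H hz hz0
  obtain ⟨ρ, h, H⟩ := hall (n0 + 1)
  have := hn0 (n0 + 1) ρ h H
  omega

/-- **A lower bound outside small discs.** -/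
theorem lower_disc {F : ℂ → ℂ} (hF : Differentiable ℂ F) {c0 w : ℂ} {r K : ℝ} {n0 : ℕ} (hr : 0 < r)
    (hK : 2 ≤ K) (hKn : K ≤ 2 ^ n0) (hw : ‖w - c0‖ ≤ r) (hw0 : 0 < ‖F w‖)
    (hR : ∀ s, ‖s - c0‖ = 25 * r → ‖F s‖ ≤ K * ‖F w‖) :
    ∃ (n : ℕ) (ρ : Fin n → ℂ), n ≤ n0 ∧ ∀ τ : ℝ, 0 < τ → ∀ z, ‖z - c0‖ ≤ r →
      (∀ j, τ * r ≤ ‖z - ρ j‖) → (τ / 6) ^ n / K ^ 2 * ‖F w‖ ≤ ‖F z‖ := by
  have hK0 : 0 < K := by linarith
  have hcount : ∀ (n : ℕ) (ρ : Fin n → ℂ) (h : ℂ → ℂ), Fac F c0 (5 * r) n ρ h → n ≤ n0 := by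
    intro n ρ h ⟨h1, h2, h3⟩
    have h4 := disc_small (f := F) (h := h) (c0 := c0) (r := 5 * r) (R := 25 * r) (M := K * ‖F w‖)
      (ρ := ρ) (by positivity) (by linarith) h1 h2.differentiableOn (fun s _ => h3 s) hR w
      (by linarith)
    have e : 2 * (5 * r) / (25 * r - 5 * r) = 1 / 2 := by
      field_simp
      norm_num
    rw [e] at h4
    have h5 : (2 : ℝ) ^ n ≤ K := by
      have h6 : ‖F w‖ * 2 ^ n ≤ ((1 / 2) ^ n * (K * ‖F w‖)) * 2 ^ n :=
        mul_le_mul_of_nonneg_right h4 (by positivity)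
      have e2 : ((1 / 2 : ℝ) ^ n * (K * ‖F w‖)) * 2 ^ n = K * ‖F w‖ * ((1 / 2) * 2) ^ n := by
        rw [mul_pow]
        ring
      rw [e2, show (1 / 2 : ℝ) * 2 = 1 by norm_num, one_pow, mul_one, mul_comm] at h6
      exact le_of_mul_le_mul_right h6 hw0
    have h7 : (2 : ℝ) ^ n ≤ 2 ^ n0 := h5.trans hKn
    exact (pow_le_pow_iff_right₀ (by norm_num : (1 : ℝ) < 2)).1 h7
  obtain ⟨n, ρ, h, hn, ⟨h1, h2, h3⟩, hne⟩ := Fac_max hF hcount
  refine ⟨n, ρ, hn, fun τ hτ z hz hzρ => ?_⟩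
  -- upper bound for the quotient
  have hq : ∀ s, ‖s - c0‖ ≤ 25 * r → ‖h s‖ ≤ K * ‖F w‖ / (20 * r) ^ n := by
    intro s hs
    have := disc_quot (f := F) (h := h) (c0 := c0) (r := 5 * r) (R := 25 * r) (M := K * ‖F w‖)
      (ρ := ρ) (by positivity) (by linarith) h1 h2.differentiableOn (fun s _ => h3 s) hR s hs
    have e : 25 * r - 5 * r = 20 * r := by ring
    rwa [e] at this
  -- lower bound at `w`
  have hlow : ‖F w‖ / (6 * r) ^ n ≤ ‖h w‖ := by
    rw [div_le_iff₀ (by positivity)]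
    have h5 : ∏ i : Fin n, ‖w - ρ i‖ ≤ (6 * r) ^ n := by
      have : ∏ i : Fin n, ‖w - ρ i‖ ≤ ∏ _i : Fin n, (6 * r) := by
        apply Finset.prod_le_prod
        · intro i _; exact norm_nonneg _
        · intro i _
          have := norm_sub_le (w - c0) (ρ i - c0)
          rw [sub_sub_sub_cancel_right] at this
          linarith [h1 i]
      simpa using this
    calc ‖F w‖ = (∏ i : Fin n, ‖w - ρ i‖) * ‖h w‖ := by rw [h3 w, norm_mul, norm_prod]
      _ ≤ (6 * r) ^ n * ‖h w‖ := mul_le_mul_of_nonneg_right h5 (norm_nonneg _)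
      _ = _ := mul_comm _ _
  have hball : ∀ z ∈ ball w (4 * r), ‖z - c0‖ ≤ 5 * r := by
    intro z hz
    rw [mem_ball, dist_eq_norm] at hz
    calc ‖z - c0‖ = ‖(z - w) + (w - c0)‖ := by rw [sub_add_sub_cancel]
      _ ≤ ‖z - w‖ + ‖w - c0‖ := norm_add_le _ _
      _ ≤ _ := by linarith
  have hlogK : 0 < Real.log K := Real.log_pos (by linarith)
  have hH := harnack' (K := h) (w := w) (d := 4 * r) (M := Real.log K) (by positivity) hlogK
    h2.differentiableOn (fun z hz => hne z (hball z hz))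
    (by
      intro z hz
      rw [Real.exp_log hK0]
      have h5 := hq z (by linarith [hball z hz])
      refine h5.trans ?_
      have h6 : K * ‖F w‖ / (20 * r) ^ n ≤ K * (‖F w‖ / (6 * r) ^ n) := by
        rw [mul_div_assoc]
        apply mul_le_mul_of_nonneg_left _ hK0.le
        apply div_le_div_of_nonneg_left hw0.le (by positivity)
        apply pow_le_pow_left₀ (by positivity)
        linarith
      exact h6.trans (mul_le_mul_of_nonneg_left hlow hK0.le))
    z (by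
      calc ‖z - w‖ ≤ ‖z - c0‖ + ‖w - c0‖ := by
            have := norm_sub_le (z - c0) (w - c0)
            rwa [sub_sub_sub_cancel_right] at this
        _ ≤ 4 * r / 2 := by linarith)
  have e2 : Real.exp (2 * Real.log K) = K ^ 2 := by
    rw [two_mul, Real.exp_add, Real.exp_log hK0]
    ring
  rw [e2] at hH
  have h7 : (τ * r) ^ n ≤ ∏ i : Fin n, ‖z - ρ i‖ := by
    have : ∏ _i : Fin n, (τ * r) ≤ ∏ i : Fin n, ‖z - ρ i‖ := by
      apply Finset.prod_le_prod
      · intro i _; positivity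
      · intro i _; exact hzρ i
    simpa using this
  have h8 : ‖F w‖ / (6 * r) ^ n / K ^ 2 ≤ ‖h z‖ := by
    rw [div_le_iff₀ (by positivity)]
    linarith
  calc (τ / 6) ^ n / K ^ 2 * ‖F w‖ = (τ * r) ^ n * (‖F w‖ / (6 * r) ^ n / K ^ 2) := by
        rw [div_pow, mul_pow, mul_pow]
        field_simp
    _ ≤ (∏ i : Fin n, ‖z - ρ i‖) * ‖h z‖ := by
        apply mul_le_mul h7 h8 (by positivity) (Finset.prod_nonneg fun i _ => norm_nonneg _)
    _ = ‖F z‖ := by rw [h3 z, norm_mul, norm_prod]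

/-- The set of heights far from finitely many points is large. -/
theorem far_heights {n n0 : ℕ} (hn : n ≤ n0) (t : Fin n → ℝ) {a h σ : ℝ} (hh : 0 < h) (hσ : 0 < σ)
    (hs : 4 * σ * n0 ≤ h) :
    MeasurableSet {y : ℝ | y ∈ Set.Icc a (a + h) ∧ ∀ j, σ ≤ |y - t j|} ∧
    h / 2 ≤ (volume : Measure ℝ).real {y : ℝ | y ∈ Set.Icc a (a + h) ∧ ∀ j, σ ≤ |y - t j|} := by
  set E := {y : ℝ | y ∈ Set.Icc a (a + h) ∧ ∀ j, σ ≤ |y - t j|} with hE
  have hm : MeasurableSet E := by
    have e : E = Set.Icc a (a + h) ∩ ⋂ j, {y : ℝ | σ ≤ |y - t j|} := by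
      ext y
      simp [hE]
    rw [e]
    apply measurableSet_Icc.inter
    apply MeasurableSet.iInter
    intro j
    exact measurableSet_le measurable_const (by fun_prop)
  refine ⟨hm, ?_⟩
  have hsub : Set.Icc a (a + h) ⊆ E ∪ ⋃ j, Set.Icc (t j - σ) (t j + σ) := by
    intro y hy
    by_cases hj : ∀ j, σ ≤ |y - t j|
    · exact Or.inl ⟨hy, hj⟩
    · right
      push Not at hj
      obtain ⟨j, hj⟩ := hj
      rw [Set.mem_iUnion]
      have := abs_lt.1 hj
      exact ⟨j, by constructor <;> linarith⟩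
  have hEfin : (volume : Measure ℝ) E ≠ ⊤ := by
    apply ne_top_of_le_ne_top _ (measure_mono (show E ⊆ Set.Icc a (a + h) from fun y hy => hy.1))
    rw [Real.volume_Icc]
    exact ENNReal.ofReal_ne_top
  have h1 : ENNReal.ofReal h ≤ (volume : Measure ℝ) E + ENNReal.ofReal (n * (2 * σ)) := by
    calc ENNReal.ofReal h = (volume : Measure ℝ) (Set.Icc a (a + h)) := by
          rw [Real.volume_Icc, add_sub_cancel_left]
      _ ≤ (volume : Measure ℝ) E + (volume : Measure ℝ) (⋃ j, Set.Icc (t j - σ) (t j + σ)) :=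
          (measure_mono hsub).trans (measure_union_le _ _)
      _ ≤ (volume : Measure ℝ) E + ∑ j : Fin n, (volume : Measure ℝ) (Set.Icc (t j - σ) (t j + σ)) := by
          gcongr
          exact measure_iUnion_fintype_le _ _
      _ = _ := by
          congr 1
          have : ∀ j : Fin n, (volume : Measure ℝ) (Set.Icc (t j - σ) (t j + σ)) =
              ENNReal.ofReal (2 * σ) := by
            intro j
            rw [Real.volume_Icc]
            congr 1
            ring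
          rw [Finset.sum_congr rfl fun j _ => this j, Finset.sum_const, Finset.card_univ, Fintype.card_fin,
            nsmul_eq_mul, ENNReal.ofReal_mul (Nat.cast_nonneg n), ENNReal.ofReal_natCast]
  have h2 : h ≤ (volume : Measure ℝ).real E + n * (2 * σ) := by
    have h3 : ENNReal.ofReal h ≤ ENNReal.ofReal ((volume : Measure ℝ).real E + n * (2 * σ)) := by
      rw [ENNReal.ofReal_add measureReal_nonneg (by positivity), ofReal_measureReal hEfin]
      exact h1
    exact (ENNReal.ofReal_le_ofReal_iff (by positivity)).1 h3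
  have h4 : (n : ℝ) * (2 * σ) ≤ h / 2 := by
    have : (n : ℝ) ≤ n0 := by exact_mod_cast hn
    nlinarith
  linarith

end

end U345Z
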