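import Pool.Agent.U345.ZO1

/-!
# The moments along arbitrary graphs: lower bounds
-/

set_option autoImplicit false

open MeasureTheory Filter Topology Complex

namespace U345Z

open Q97.MM

noncomputable section

variable (k : ℕ)

theorem far_bd2 {T U η : ℝ} (hη : 0 ≤ η) (hA : Adm T U) {y : ℝ} (hy : η * (U * Real.log T) ≤ |y - T|) (A : ℕ) :
    (1 + |y|) ^ A * wt T U y ≤ (1 + T) ^ A * Real.exp (-((η * Real.log T) ^ 2 / 2)) * aw A T U y := by
  have hU := hA.pos
  have hL := hA.log
  have hT : 0 ≤ T := by linarith [hA.1]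
  have r1 := abs_le_scaled hU hT hA.le y
  have h1 : (η * Real.log T) ^ 2 ≤ ((y - T) / U) ^ 2 := by
    rw [← sq_abs ((y - T) / U), abs_div, abs_of_pos hU]
    apply pow_le_pow_left₀ (by positivity)
    rw [le_div_iff₀ hU]
    linarith
  have h2 : wt T U y ≤ Real.exp (-((η * Real.log T) ^ 2 / 2)) * Real.exp (-(((y - T) / U) ^ 2 / 2)) := by
    unfold wt
    rw [← Real.exp_add]
    apply Real.exp_le_exp.2
    linarith
  unfold aw
  calc (1 + |y|) ^ A * wt T U y ≤ ((1 + T) * (1 + |(y - T) / U|)) ^ A *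
        (Real.exp (-((η * Real.log T) ^ 2 / 2)) * Real.exp (-(((y - T) / U) ^ 2 / 2))) :=
        mul_le_mul (pow_le_pow_left₀ (by positivity) r1 _) h2 (wt_pos _ _ _).le (by positivity)
    _ = _ := by rw [mul_pow]; ring

/-- the heights near the centre -/
def nearS (T U : ℝ) : Set ℝ := {y | |y - T| ≤ U * Real.log T / 2}

theorem nearS_measurable (T U : ℝ) : MeasurableSet (nearS T U) := by
  unfold nearS
  exact measurableSet_le (by fun_prop) measurable_const

theorem near_V (hk : 1 ≤ k) : ∀ᶠ T : ℝ in atTop, ∀ U : ℝ, Adm T U →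
    V0 k T U / 2 ≤ ∫ y in nearS T U, ‖gg k 0 T U y‖ ^ 2 := by
  obtain ⟨c₀, hc₀, hc₀'⟩ := V0_lower k
  have hK := KK_nonneg (2 * (2 * k))
  set ε₂ := c₀ / (2 * (45 ^ (2 * k) * KK (2 * (2 * k)) + 1)) with hε₂
  have hε₂0 : 0 < ε₂ := by positivity
  filter_upwards [(tail_tendsto (2 * (2 * k)) (η := 1 / 2) (by norm_num)).eventually (gt_mem_nhds hε₂0),
    specN k 0 one_pos] with T h1 h2 U hA
  have hT : 0 < T := by linarith [hA.1]
  have hT1 : 1 ≤ T := by linarith [hA.1]
  have hU := hA.pos
  have hL := hA.log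
  obtain ⟨i1, -⟩ := h2 U hA
  have iaw := aw_integrable (2 * (2 * k)) T hU
  have hm := nearS_measurable T U
  have htot : ∫ y, ‖gg k 0 T U y‖ ^ 2 = V0 k T U := by
    have : V0 k T U = ∫ y, fq k T U y := rfl
    rw [this]
    refine integral_congr_ae (Eventually.of_forall fun y => ?_)
    exact gg_fq k T U y
  have hsplit := integral_add_compl hm i1
  rw [htot] at hsplit
  have hfar : ∫ y in (nearS T U)ᶜ, ‖gg k 0 T U y‖ ^ 2 ≤ V0 k T U / 2 := by
    have b1 : ∫ y in (nearS T U)ᶜ, ‖gg k 0 T U y‖ ^ 2 ≤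
        ∫ y in (nearS T U)ᶜ, 45 ^ (2 * k) * ε₂ * aw (2 * (2 * k)) T U y := by
      apply setIntegral_mono_on i1.integrableOn (iaw.const_mul _).integrableOn hm.compl
      intro y hy
      have hy' : 1 / 2 * (U * Real.log T) ≤ |y - T| := by
        have : ¬ (|y - T| ≤ U * Real.log T / 2) := hy
        push Not at this
        linarith
      have q1 := far_bd2 (by norm_num) hA hy' (2 * (2 * k))
      have q2 := Z1_pow_bd k (x := 1 / 2) (by norm_num) (by norm_num) y
      have q3 : ‖gg k 0 T U y‖ ^ 2 = wt T U y * ‖Z1 (((1 / 2 : ℝ) : ℂ) + y * I)‖ ^ (2 * k) := by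
        unfold gg
        rw [iteratedDeriv_zero, HH_sq k hk, e1_norm k hk, sub_self, mul_zero, zero_pow two_ne_zero,
          zero_div, add_zero, Real.exp_zero, one_mul]
      have hw := wt_pos T U y
      have haw := aw_nonneg (2 * (2 * k)) T U y
      rw [q3]
      calc wt T U y * ‖Z1 (((1 / 2 : ℝ) : ℂ) + y * I)‖ ^ (2 * k)
          ≤ wt T U y * (45 ^ (2 * k) * (1 + |y|) ^ (2 * (2 * k))) := mul_le_mul_of_nonneg_left q2 hw.le
        _ = 45 ^ (2 * k) * ((1 + |y|) ^ (2 * (2 * k)) * wt T U y) := by ring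
        _ ≤ 45 ^ (2 * k) * (((1 + T) ^ (2 * (2 * k)) * Real.exp (-((1 / 2 * Real.log T) ^ 2 / 2))) *
              aw (2 * (2 * k)) T U y) := by gcongr
        _ ≤ 45 ^ (2 * k) * (ε₂ * aw (2 * (2 * k)) T U y) := by gcongr
        _ = _ := by ring
    have b2 : ∫ y in (nearS T U)ᶜ, 45 ^ (2 * k) * ε₂ * aw (2 * (2 * k)) T U y ≤
        ∫ y, 45 ^ (2 * k) * ε₂ * aw (2 * (2 * k)) T U y :=
      setIntegral_le_integral (iaw.const_mul _) (Eventually.of_forall fun y => by
        have := aw_nonneg (2 * (2 * k)) T U y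
        positivity)
    have b3 : ∫ y, 45 ^ (2 * k) * ε₂ * aw (2 * (2 * k)) T U y = 45 ^ (2 * k) * ε₂ * (U * KK (2 * (2 * k))) := by
      rw [integral_const_mul, aw_integral _ T hU]
    rw [b3] at b2
    refine b1.trans (b2.trans ?_)
    have b4 := hc₀' T U hA
    have b5 : U ≤ T ^ (2 * k) * U := le_mul_of_one_le_left hU.le (one_le_pow₀ hT1)
    have b6 : 45 ^ (2 * k) * ε₂ * KK (2 * (2 * k)) ≤ c₀ / 2 := by
      rw [hε₂]
      have e : 45 ^ (2 * k) * (c₀ / (2 * (45 ^ (2 * k) * KK (2 * (2 * k)) + 1))) * KK (2 * (2 * k)) =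
          (c₀ / 2) * ((45 ^ (2 * k) * KK (2 * (2 * k))) / (45 ^ (2 * k) * KK (2 * (2 * k)) + 1)) := by
        field_simp
      rw [e]
      apply mul_le_of_le_one_right (by positivity)
      rw [div_le_one (by positivity)]
      linarith
    calc 45 ^ (2 * k) * ε₂ * (U * KK (2 * (2 * k))) = (45 ^ (2 * k) * ε₂ * KK (2 * (2 * k))) * U := by ring
      _ ≤ (c₀ / 2) * (T ^ (2 * k) * U) := mul_le_mul b6 b5 hU.le (by positivity)
      _ = (c₀ * (T ^ (2 * k) * U)) / 2 := by ring
      _ ≤ V0 k T U / 2 := by linarith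
  linarith

/-- From the local function to zeta. -/
theorem HH_le (hk : 1 ≤ k) {A : ℝ} (hA0 : 0 ≤ A) : ∀ᶠ T : ℝ in atTop, ∀ U : ℝ, Adm T U →
    ∀ x' y' y : ℝ, |y - T| ≤ U * Real.log T / 2 + 1 → |x' - 1 / 2| ≤ A / Real.log T →
    |y' - y| ≤ 1 / Real.log T →
    ‖HH k T U (x' + y' * I)‖ ^ 2 ≤ (Real.exp (k * A + 4) * 3 ^ (2 * k)) *
      (T ^ (2 * k) * (‖riemannZeta (x' + y' * I)‖ ^ (2 * k) * wt T U y)) := by
  filter_upwards [(log_div_tendsto A).eventually (gt_mem_nhds (show (0 : ℝ) < 1 / 4 by norm_num)),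
    (log_div_tendsto 1).eventually (gt_mem_nhds (show (0 : ℝ) < 1 / 4 by norm_num))] with
    T h1 h2 U hA x' y' y hy hx' hy'
  have hL := hA.log
  have hL0 : 0 < Real.log T := by linarith
  have hU := hA.pos
  have hU1 := hA.2.1
  have hU2 := hA.2.2
  have hT3 := hA.1
  have hT : 0 < T := by linarith
  rw [abs_of_nonneg (by positivity)] at h1 h2
  set L := Real.log T with hLd
  have hL4 : 4 ≤ L := by
    rw [div_lt_iff₀ hL0] at h2
    linarith
  have hUL : U * L ≤ T := by rwa [le_div_iff₀ hL0] at hU2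
  have hUL4 : 4 ≤ U * L := by nlinarith
  have hx2 := abs_le.1 hx'
  have hy'1 : |y' - y| ≤ 1 := by linarith
  have hyT : |y' - T| ≤ U * L := by
    have := abs_add_le (y' - y) (y - T)
    rw [sub_add_sub_cancel] at this
    linarith
  have hw : wt T U y' ≤ Real.exp 3 * wt T U y := by
    have := wt_shift hA zero_le_one hyT (show |y - y'| ≤ 1 / L by rwa [abs_sub_comm])
    norm_num at this
    exact this
  have hsne : (x' : ℂ) + y' * I ≠ 1 := by
    intro h
    have := congrArg Complex.re h
    simp at this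
    linarith
  have hn : ‖(x' : ℂ) + y' * I - 1‖ ≤ 3 * T := by
    have h3 := norm_sub_one_le (x := x') (by linarith) (by linarith) y'
    have h4 : |y'| ≤ T + U * L := by
      have := abs_add_le (y' - T) T
      rw [sub_add_cancel, abs_of_pos hT] at this
      linarith
    linarith
  rw [HH_sq k hk, e1_norm k hk, Z1_of_ne hsne, norm_mul, mul_pow]
  have h5 : Real.exp (k * L * (x' - 1 / 2) + (x' - 1 / 2) ^ 2 / U ^ 2) ≤ Real.exp (k * A + 1) := by
    apply Real.exp_le_exp.2
    have q1 : k * L * (x' - 1 / 2) ≤ k * A := by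
      have : L * (x' - 1 / 2) ≤ A := by
        have := hx2.2
        rw [le_div_iff₀ hL0] at this
        linarith
      rw [mul_assoc]
      exact mul_le_mul_of_nonneg_left this (Nat.cast_nonneg k)
    have q2 : (x' - 1 / 2) ^ 2 / U ^ 2 ≤ 1 := by
      rw [div_le_one (by positivity)]
      nlinarith
    linarith
  have h6 : ‖(x' : ℂ) + y' * I - 1‖ ^ (2 * k) ≤ 3 ^ (2 * k) * T ^ (2 * k) := by
    rw [← mul_pow]
    exact pow_le_pow_left₀ (norm_nonneg _) hn _
  have hwy := wt_pos T U y
  have hwy' := wt_pos T U y'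
  calc _ ≤ (Real.exp (k * A + 1) * (Real.exp 3 * wt T U y)) *
        ((3 ^ (2 * k) * T ^ (2 * k)) * ‖riemannZeta (x' + y' * I)‖ ^ (2 * k)) := by
        gcongr
    _ = _ := by
        have e : Real.exp (k * A + 4) = Real.exp (k * A + 1) * Real.exp 3 := by
          rw [← Real.exp_add]
          congr 1
          ring
        rw [e]
        ring

/-- the product of the absolute values at the shifted points, with the weight -/
def phi (T U : ℝ) (z : Fin (2 * k) → ℝ → ℂ) (y : ℝ) : ℝ :=
  (∏ i, ‖riemannZeta (pt y + z i y / Real.log T)‖) * wt T U y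

theorem phi_nonneg (T U : ℝ) (z : Fin (2 * k) → ℝ → ℂ) (y : ℝ) : 0 ≤ phi k T U z y :=
  mul_nonneg (Finset.prod_nonneg fun i _ => norm_nonneg _) (wt_pos _ _ _).le

theorem phi_integrable (hk : 1 ≤ k) {A : ℝ} (hA0 : 0 ≤ A) : ∀ᶠ T : ℝ in atTop, ∀ U : ℝ, Adm T U →
    ∀ z : Fin (2 * k) → ℝ → ℂ, (∀ i, Measurable (z i)) → (∀ i y, ‖z i y‖ ≤ A) →
    Integrable (phi k T U z) := by
  obtain ⟨C, hC, h1⟩ := carleson k hk hA0 (fun _ => 0)
  filter_upwards [h1] with T h2 U hA z hzm hz
  have hptm : Measurable pt := by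
    apply Continuous.measurable
    unfold pt
    fun_prop
  have hwtm : Measurable (wt T U) := by
    apply Continuous.measurable
    unfold wt
    fun_prop
  have h3 := h2 U hA 1 volume zero_le_one (by
    intro x
    rw [Real.volume_Icc, add_sub_cancel_left]) z hz
  refine ⟨?_, ?_⟩
  · apply Measurable.aestronglyMeasurable
    apply Measurable.mul _ hwtm
    apply Finset.measurable_fun_prod
    intro i _
    exact (zeta_measurable.comp (hptm.add ((hzm i).div_const _))).norm
  · refine lt_of_le_of_lt ?_ (lt_of_le_of_lt h3 ENNReal.ofReal_lt_top)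
    apply lintegral_mono
    intro y
    beta_reduce
    rw [← ofReal_norm, Real.norm_of_nonneg (phi_nonneg k T U z y)]
    simp only [iteratedDeriv_zero]
    rfl

/-- The maximum of an entire function on a disc. -/
theorem disc_max {f : ℂ → ℂ} (hf : Continuous f) (c0 : ℂ) {R : ℝ} (hR : 0 ≤ R) :
    ∃ w : ℂ, ‖w - c0‖ ≤ R ∧ ∀ s, ‖s - c0‖ ≤ R → ‖f s‖ ≤ ‖f w‖ := by
  obtain ⟨w, hw, hw'⟩ := (isCompact_closedBall c0 R).exists_isMaxOn ⟨c0, Metric.mem_closedBall_self hR⟩
    hf.norm.continuousOn
  refine ⟨w, by rwa [mem_closedBall_iff_norm] at hw, fun s hs => ?_⟩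
  exact hw' (by rwa [mem_closedBall_iff_norm])

theorem sub_line_re (s : ℂ) (η : ℝ) : (s - (((1 / 2 : ℝ) : ℂ) + (η : ℂ) * I)).re = s.re - 1 / 2 := by
  simp

theorem sub_line_im (s : ℂ) (η : ℝ) : (s - (((1 / 2 : ℝ) : ℂ) + (η : ℂ) * I)).im = s.im - η := by
  simp

/-- **The lower bound.** -/
theorem lower_shift (hk : 1 ≤ k) {A : ℝ} (hA0 : 0 ≤ A) : ∃ c τ : ℝ, 0 < c ∧ 0 < τ ∧
    ∀ᶠ T : ℝ in atTop, ∀ U : ℝ, Adm T U → ∀ z : Fin (2 * k) → ℝ → ℂ, (∀ i, Measurable (z i)) →
    (∀ i y, |(z i y).re| ≤ A ∧ |(z i y).im| ≤ τ) →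
    Integrable (phi k T U z) ∧ c * JJ k T U (1 / 2) ≤ ∫ y, phi k T U z y := by
  set B := 25 * (A + 2) with hB
  have hB0 : 0 ≤ B := by positivity
  obtain ⟨N, hN⟩ := exists_nat_ge B
  obtain ⟨C0, hC0, h0⟩ := Th_sum k N hB0
  set K := 2 + 4 * C0 with hK
  have hK2 : 2 ≤ K := by linarith
  have hK0 : 0 < K := by linarith
  obtain ⟨n0, hn0⟩ := pow_unbounded_of_one_lt K (one_lt_two (α := ℝ))
  set τ : ℝ := 1 / (8 * (A + 2) * (n0 + 1)) with hτ
  have hn00 : (0 : ℝ) ≤ n0 := Nat.cast_nonneg n0
  have hτ0 : 0 < τ := by positivity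
  have hτ1 : τ ≤ 1 := by
    rw [hτ, div_le_one (by positivity)]
    nlinarith
  set κ := (τ / 6) ^ n0 / K ^ 2 with hκ
  have hκ0 : 0 < κ := by positivity
  set C1 := Real.exp (k * A + 4) * 3 ^ (2 * k) with hC1
  have hC10 : 0 < C1 := by positivity
  set C3 := 2 * C1 / κ ^ 2 with hC3
  have hC30 : 0 < C3 := by positivity
  refine ⟨1 / (8 * C3), τ, by positivity, hτ0, ?_⟩
  filter_upwards [h0, near_V k hk, HH_le k hk hA0, phi_integrable k hk (show 0 ≤ A + 1 by positivity),
    cmpV k (show (0 : ℝ) < 1 / 2 by norm_num), specN k 0 one_pos] with T hTh hnear hHH hint hcmp hspec U hA z hzm hz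
  have hL := hA.log
  have hL0 : 0 < Real.log T := by linarith
  have hT : 0 < T := by linarith [hA.1]
  have hU := hA.pos
  have hV0 := V0_pos k hA
  have hzA : ∀ i y, ‖z i y‖ ≤ A + 1 := by
    intro i y
    refine (Complex.norm_le_abs_re_add_abs_im _).trans ?_
    have := hz i y
    linarith
  have iφ := hint U hA z hzm hzA
  refine ⟨iφ, ?_⟩
  obtain ⟨i1, -⟩ := hspec U hA
  set L := Real.log T with hLd
  have hT2 : (0 : ℝ) < T ^ (2 * k) := by positivity
  set r := (A + 2) / L with hr
  have hr0 : 0 < r := by positivity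
  have hBr : B / L = 25 * r := by rw [hB, hr]; ring
  have hHHd := HH_differentiable k T U
  have hh0 : (0 : ℝ) < 1 / L := by positivity
  have hcellφ : ∀ m : ℤ, 0 ≤ ∫ t in ((m : ℝ) * (1 / L))..((m + 1 : ℝ) * (1 / L)), phi k T U z t := fun m =>
    intervalIntegral.integral_nonneg (cell_le hL0 m) fun t _ => phi_nonneg k T U z t
  -- the inequality for a cell
  have hcell : ∀ (m : ℤ) (y0 : ℝ), (m : ℝ) * (1 / L) ≤ y0 → y0 ≤ (m + 1 : ℝ) * (1 / L) → y0 ∈ nearS T U →
      ∀ t : ℝ, (m : ℝ) * (1 / L) ≤ t → t ≤ (m + 1 : ℝ) * (1 / L) →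
      ‖gg k 0 T U t‖ ^ 2 ≤ L * (C3 * (T ^ (2 * k) *
        ∫ t in ((m : ℝ) * (1 / L))..((m + 1 : ℝ) * (1 / L)), phi k T U z t)) + Th k B N T U m / K ^ 2 := by
    intro m y0 hy1 hy2 hy0 t ht1 ht2
    set c0 : ℂ := ((1 / 2 : ℝ) : ℂ) + ((m * (1 / L) : ℝ) : ℂ) * I with hc0
    obtain ⟨w, hw1, hw2⟩ := disc_max hHHd.continuous c0 hr0.le
    obtain ⟨zR, hz1, hz2⟩ := sphere_max hHHd.continuous c0 (show 0 ≤ 25 * r by positivity)
    obtain ⟨b1, b2, b3⟩ := box_coord hL0 hN (m := m) (η := m * (1 / L)) le_rfl (cell_le hL0 m)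
      (x₀ := 1 / 2) (z := zR) (by rw [← hc0, hz1, hBr])
    have hThR := Th_point k (B := B) (N := N) (T := T) (U := U) hL0 (m := m) b1 b2 b3
    rw [Complex.re_add_im] at hThR
    have hp3 : (m + 1 : ℝ) * (1 / L) = m * (1 / L) + 1 / L := by ring
    have hA2 : 1 / L ≤ r := by
      rw [hr]
      apply div_le_div_of_nonneg_right _ hL0.le
      linarith
    have hgw : ‖gg k 0 T U t‖ ≤ ‖HH k T U w‖ := by
      unfold gg
      rw [iteratedDeriv_zero]
      apply hw2
      have e : ((1 / 2 : ℝ) : ℂ) + t * I - c0 = ((t - m * (1 / L) : ℝ) : ℂ) * I := by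
        rw [hc0]
        push_cast
        ring
      rw [e, norm_mul, Complex.norm_I, mul_one, Complex.norm_real, Real.norm_of_nonneg (by linarith)]
      linarith
    have hgw2 : ‖gg k 0 T U t‖ ^ 2 ≤ ‖HH k T U w‖ ^ 2 := pow_le_pow_left₀ (norm_nonneg _) hgw 2
    have hΦ := hcellφ m
    set Φ := ∫ t in ((m : ℝ) * (1 / L))..((m + 1 : ℝ) * (1 / L)), phi k T U z t with hΦd
    have hTh0 := Th_nonneg k hB0 N U hL0 m
    have hpos1 : 0 ≤ L * (C3 * (T ^ (2 * k) * Φ)) := by positivity
    have hpos2 : 0 ≤ Th k B N T U m / K ^ 2 := by positivity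
    by_cases hgood : ‖HH k T U zR‖ ≤ K * ‖HH k T U w‖
    · rcases (norm_nonneg (HH k T U w)).eq_or_lt with hzero | hpos
      · rw [← hzero] at hgw2
        linarith
      · obtain ⟨n, ρ, hn, hlow⟩ := lower_disc hHHd hr0 hK2 hn0.le hw1 hpos
          (fun s hs => (hz2 s hs).trans hgood)
        have hσ : 0 < 2 * τ * r := by positivity
        obtain ⟨hEm, hEv⟩ := far_heights hn (fun j => (ρ j).im) (a := m * (1 / L)) hh0 hσ (by
          rw [hr, hτ]
          have e : 4 * (2 * (1 / (8 * (A + 2) * (n0 + 1))) * ((A + 2) / L)) * n0 =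
              (1 / L) * (n0 / (n0 + 1)) := by
            field_simp
            ring
          rw [e]
          apply mul_le_of_le_one_right hh0.le
          rw [div_le_one (by positivity)]
          linarith)
        set E := {y : ℝ | y ∈ Set.Icc ((m : ℝ) * (1 / L)) (m * (1 / L) + 1 / L) ∧
          ∀ j, 2 * τ * r ≤ |y - (ρ j).im|} with hE
        have hEpt : ∀ y ∈ E, κ ^ 2 * ‖HH k T U w‖ ^ 2 / (C1 * T ^ (2 * k)) ≤ phi k T U z y := by
          intro y hy
          obtain ⟨⟨hya, hyb⟩, hyρ⟩ := hy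
          have hyT : |y - T| ≤ U * L / 2 + 1 := by
            have q1 : |y0 - T| ≤ U * L / 2 := hy0
            have q2 : |y - y0| ≤ 1 / L := by
              rw [abs_le]
              constructor <;> linarith
            have q3 : 1 / L ≤ 1 := by
              rw [div_le_one hL0]
              exact hL
            have := abs_add_le (y - y0) (y0 - T)
            rw [sub_add_sub_cancel] at this
            linarith
          have hi : ∀ i, κ ^ 2 * ‖HH k T U w‖ ^ 2 ≤
              C1 * (T ^ (2 * k) * (‖riemannZeta (pt y + z i y / L)‖ ^ (2 * k) * wt T U y)) := by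
            intro i
            set s : ℂ := pt y + z i y / L with hs
            obtain ⟨z1, z2⟩ := hz i y
            have ere : s.re = 1 / 2 + (z i y).re / L := by
              rw [hs]
              unfold pt
              rw [Complex.add_re, Complex.add_re, Complex.ofReal_re, Complex.re_ofReal_mul, Complex.I_re,
                mul_zero, add_zero, Complex.div_ofReal_re]
            have eim : s.im = y + (z i y).im / L := by
              rw [hs]
              unfold pt
              rw [Complex.add_im, Complex.add_im, Complex.ofReal_im, Complex.im_ofReal_mul, Complex.I_im,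
                mul_one, zero_add, Complex.div_ofReal_im]
            have hx : |s.re - 1 / 2| ≤ A / L := by
              rw [ere, add_sub_cancel_left, abs_div, abs_of_pos hL0]
              exact div_le_div_of_nonneg_right z1 hL0.le
            have hy' : |s.im - y| ≤ τ / L := by
              rw [eim, add_sub_cancel_left, abs_div, abs_of_pos hL0]
              exact div_le_div_of_nonneg_right z2 hL0.le
            have hτL : τ / L ≤ 1 / L := div_le_div_of_nonneg_right hτ1 hL0.le
            have q1 := hHH U hA s.re s.im y hyT hx (hy'.trans hτL)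
            rw [Complex.re_add_im] at q1
            have q2 := hlow τ hτ0 s (by
              refine (Complex.norm_le_abs_re_add_abs_im _).trans ?_
              have e1' : (s - c0).re = s.re - 1 / 2 := sub_line_re s _
              have e2' : (s - c0).im = s.im - m * (1 / L) := sub_line_im s _
              rw [e1', e2']
              have e3 : |s.im - m * (1 / L)| ≤ τ / L + 1 / L := by
                have := abs_add_le (s.im - y) (y - m * (1 / L))
                rw [sub_add_sub_cancel, abs_of_nonneg (show 0 ≤ y - m * (1 / L) by linarith)] at this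
                linarith
              have e4 : r = A / L + 1 / L + 1 / L := by rw [hr]; ring
              linarith) (by
              intro j
              have e1' := Complex.abs_im_le_norm (s - ρ j)
              rw [Complex.sub_im] at e1'
              have e2' : |y - (ρ j).im| ≤ |s.im - (ρ j).im| + |s.im - y| := by
                have := abs_add_le (s.im - (ρ j).im) (y - s.im)
                have e : s.im - (ρ j).im + (y - s.im) = y - (ρ j).im := by ring
                rw [e, abs_sub_comm y s.im] at this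
                exact this
              have e3 : τ / L ≤ τ * r := by
                rw [hr, ← mul_div_assoc]
                apply div_le_div_of_nonneg_right _ hL0.le
                nlinarith
              have e4 := hyρ j
              linarith)
            have q3 : κ * ‖HH k T U w‖ ≤ ‖HH k T U s‖ := by
              refine le_trans ?_ q2
              apply mul_le_mul_of_nonneg_right _ (norm_nonneg _)
              rw [hκ]
              apply div_le_div_of_nonneg_right _ (by positivity)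
              apply pow_le_pow_of_le_one (by positivity) (by linarith) hn
            have q4 := pow_le_pow_left₀ (by positivity) q3 2
            rw [mul_pow] at q4
            exact q4.trans q1
          obtain ⟨i0, -, hi0⟩ := Finset.exists_min_image (Finset.univ : Finset (Fin (2 * k)))
            (fun i => ‖riemannZeta (pt y + z i y / L)‖) ⟨⟨0, by omega⟩, Finset.mem_univ _⟩
          have hprod : ‖riemannZeta (pt y + z i0 y / L)‖ ^ (2 * k) ≤
              ∏ i, ‖riemannZeta (pt y + z i y / L)‖ := by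
            have : ∏ _i : Fin (2 * k), ‖riemannZeta (pt y + z i0 y / L)‖ ≤
                ∏ i, ‖riemannZeta (pt y + z i y / L)‖ := by
              apply Finset.prod_le_prod
              · intro i _; exact norm_nonneg _
              · intro i hi; exact hi0 i hi
            simpa using this
          rw [div_le_iff₀ (by positivity)]
          refine (hi i0).trans ?_
          have hwy := wt_pos T U y
          unfold phi
          rw [← hLd]
          calc C1 * (T ^ (2 * k) * (‖riemannZeta (pt y + z i0 y / L)‖ ^ (2 * k) * wt T U y))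
              ≤ C1 * (T ^ (2 * k) * ((∏ i, ‖riemannZeta (pt y + z i y / L)‖) * wt T U y)) := by gcongr
            _ = _ := by ring
        have hEsub : E ⊆ Set.Icc ((m : ℝ) * (1 / L)) ((m + 1 : ℝ) * (1 / L)) := by
          intro y hy
          rw [hp3]
          exact hy.1
        have hint1 : (volume : Measure ℝ).real E * (κ ^ 2 * ‖HH k T U w‖ ^ 2 / (C1 * T ^ (2 * k))) ≤ Φ := by
          have hEfin : (volume : Measure ℝ) E ≠ ⊤ := by
            apply ne_top_of_le_ne_top _ (measure_mono hEsub)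
            rw [Real.volume_Icc]
            exact ENNReal.ofReal_ne_top
          have q1 : ∫ _y in E, κ ^ 2 * ‖HH k T U w‖ ^ 2 / (C1 * T ^ (2 * k)) ≤ ∫ y in E, phi k T U z y := by
            apply setIntegral_mono_on _ iφ.integrableOn hEm hEpt
            exact integrableOn_const hEfin
          rw [setIntegral_const, smul_eq_mul] at q1
          refine q1.trans ?_
          rw [hΦd, intervalIntegral.integral_of_le (cell_le hL0 m), ← integral_Icc_eq_integral_Ioc]
          apply setIntegral_mono_set iφ.integrableOn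
          · exact Eventually.of_forall fun y => phi_nonneg k T U z y
          · exact (Eventually.of_forall hEsub)
        have hfinal : ‖HH k T U w‖ ^ 2 ≤ L * (C3 * (T ^ (2 * k) * Φ)) := by
          have q1 : (1 / L / 2) * (κ ^ 2 * ‖HH k T U w‖ ^ 2 / (C1 * T ^ (2 * k))) ≤ Φ :=
            le_trans (mul_le_mul_of_nonneg_right hEv (by positivity)) hint1
          have q2 := mul_le_mul_of_nonneg_left q1 (show 0 ≤ L * (C3 * T ^ (2 * k)) by positivity)
          have e : L * (C3 * T ^ (2 * k)) * ((1 / L / 2) * (κ ^ 2 * ‖HH k T U w‖ ^ 2 / (C1 * T ^ (2 * k)))) =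
              ‖HH k T U w‖ ^ 2 := by
            rw [hC3]
            field_simp
          rw [e] at q2
          refine q2.trans (le_of_eq ?_)
          ring
        linarith
    · push Not at hgood
      have q1 : (K * ‖HH k T U w‖) ^ 2 ≤ Th k B N T U m :=
        (pow_le_pow_left₀ (by positivity) hgood.le 2).trans hThR
      have q2 : ‖HH k T U w‖ ^ 2 ≤ Th k B N T U m / K ^ 2 := by
        rw [le_div_iff₀ (by positivity)]
        calc _ = (K * ‖HH k T U w‖) ^ 2 := by ring
          _ ≤ _ := q1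
      linarith
  -- summation
  set F : ℝ → ℝ := (nearS T U).indicator (fun y => ‖gg k 0 T U y‖ ^ 2) with hF
  have iF : Integrable F := i1.indicator (nearS_measurable T U)
  have hsum : ∫ y, F y ≤ C3 * (T ^ (2 * k) * ∫ y, phi k T U z y) + C0 / K ^ 2 * V0 k T U := by
    apply cells_le iF hh0
    intro S
    have h8 : ∀ m ∈ S, ∫ t in ((m : ℝ) * (1 / L))..((m + 1 : ℝ) * (1 / L)), F t ≤
        C3 * (T ^ (2 * k) * ∫ t in ((m : ℝ) * (1 / L))..((m + 1 : ℝ) * (1 / L)), phi k T U z t) +
          (1 / L) * (Th k B N T U m / K ^ 2) := by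
      intro m _
      have hΦ := hcellφ m
      have hTh0 := Th_nonneg k hB0 N U hL0 m
      set Φ := ∫ t in ((m : ℝ) * (1 / L))..((m + 1 : ℝ) * (1 / L)), phi k T U z t with hΦd
      have hbd : ∀ t ∈ Set.Icc ((m : ℝ) * (1 / L)) ((m + 1 : ℝ) * (1 / L)),
          F t ≤ L * (C3 * (T ^ (2 * k) * Φ)) + Th k B N T U m / K ^ 2 := by
        intro t ht
        by_cases htn : t ∈ nearS T U
        · rw [hF, Set.indicator_of_mem htn]
          exact hcell m t ht.1 ht.2 htn t ht.1 ht.2
        · rw [hF, Set.indicator_of_notMem htn]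
          positivity
      have h9 : ∫ t in ((m : ℝ) * (1 / L))..((m + 1 : ℝ) * (1 / L)), F t ≤
          ∫ _t in ((m : ℝ) * (1 / L))..((m + 1 : ℝ) * (1 / L)),
            (L * (C3 * (T ^ (2 * k) * Φ)) + Th k B N T U m / K ^ 2) := by
        apply intervalIntegral.integral_mono_on (cell_le hL0 m) iF.intervalIntegrable
          intervalIntegrable_const
        exact hbd
      rw [intervalIntegral.integral_const, smul_eq_mul] at h9
      refine h9.trans (le_of_eq ?_)
      have e : ((m + 1 : ℝ) * (1 / L) - (m : ℝ) * (1 / L)) = 1 / L := by ring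
      rw [e]
      field_simp
    refine (Finset.sum_le_sum h8).trans ?_
    rw [Finset.sum_add_distrib, ← Finset.mul_sum, ← Finset.mul_sum, ← Finset.mul_sum, ← Finset.sum_div]
    have o1 := overlap (φ := phi k T U z) (phi_nonneg k T U z) iφ hh0 0 S
    simp only [Nat.cast_zero, sub_zero, add_zero, mul_zero, zero_add, one_mul] at o1
    have o2 := hTh U hA S
    have q1 : C3 * (T ^ (2 * k) * ∑ m ∈ S, ∫ t in ((m : ℝ) * (1 / L))..((m + 1 : ℝ) * (1 / L)),
        phi k T U z t) ≤ C3 * (T ^ (2 * k) * ∫ y, phi k T U z y) := by gcongr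
    have q2 : (1 / L) * ((∑ m ∈ S, Th k B N T U m) / K ^ 2) ≤ C0 / K ^ 2 * V0 k T U := by
      calc _ ≤ (1 / L) * ((C0 * L * V0 k T U) / K ^ 2) := by gcongr
        _ = _ := by field_simp
    linarith
  have hFint : ∫ y, F y = ∫ y in nearS T U, ‖gg k 0 T U y‖ ^ 2 :=
    integral_indicator (nearS_measurable T U)
  have hn := hnear U hA
  rw [hFint] at hsum
  have hKC : C0 / K ^ 2 ≤ 1 / 4 := by
    rw [div_le_iff₀ (by positivity), hK]
    nlinarith
  have h10 : V0 k T U / 4 ≤ C3 * (T ^ (2 * k) * ∫ y, phi k T U z y) := by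
    have := mul_le_mul_of_nonneg_right hKC hV0.le
    linarith
  have h11 := (abs_le.1 (hcmp U hA)).1
  have h12 : T ^ (2 * k) * JJ k T U (1 / 2) ≤ 2 * V0 k T U := by linarith
  have h13 : T ^ (2 * k) * JJ k T U (1 / 2) ≤ T ^ (2 * k) * (8 * C3 * ∫ y, phi k T U z y) := by linarith
  have h14 := le_of_mul_le_mul_left h13 hT2
  rw [one_div, inv_mul_le_iff₀ (by positivity)]
  exact h14

end

end U345Z
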