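import Pool.Agent.U345.ZC

set_option autoImplicit false

/-!
# Sums over arithmetic progressions on a vertical line
-/

open MeasureTheory Filter Topology Complex FourierTransform ComplexConjugate

namespace U345Z

open Q97.MM

noncomputable section

variable {F : ℂ → ℂ} {α β M δ : ℝ}

/-- the product of `F` with its reflection -/
def GG (F : ℂ → ℂ) (c : ℝ) (s : ℂ) : ℂ := F (c + s) * conj (F (c - conj s))

theorem GG_line (F : ℂ → ℂ) (c x y : ℝ) :
    GG F c (x + y * I) = F (((c + x : ℝ) : ℂ) + y * I) * conj (F (((c - x : ℝ) : ℂ) + y * I)) := by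
  unfold GG
  congr 2
  · push_cast; ring
  · congr 1
    simp only [map_add, map_mul, Complex.conj_ofReal, Complex.conj_I]
    push_cast
    ring

theorem GG_zero (F : ℂ → ℂ) (c y : ℝ) :
    ln (GG F c) 0 y = ((‖F (c + y * I)‖ ^ 2 : ℝ) : ℂ) := by
  unfold ln
  rw [GG_line, add_zero, sub_zero, Complex.mul_conj, Complex.normSq_eq_norm_sq]

theorem GG_differentiable (hF : Differentiable ℂ F) (c : ℝ) : Differentiable ℂ (GG F c) := by
  have h1 : Differentiable ℂ (fun s : ℂ => F (c + s)) := by fun_prop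
  have h2 : Differentiable ℂ (fun s : ℂ => F (c - s)) := by fun_prop
  have h3 : Differentiable ℂ (fun s : ℂ => conj (F (c - conj s))) := by
    intro s
    have := (h2 (conj s)).conj_conj
    rw [Complex.conj_conj] at this
    exact this
  exact h1.mul h3

theorem GG_bd (hM : 0 ≤ M)
    (hbd : ∀ x y : ℝ, α ≤ x → x ≤ β → ‖F (x + y * I)‖ ≤ M * Real.exp (-δ * y ^ 2))
    {c ρ : ℝ} (h1 : α ≤ c - ρ) (h2 : c + ρ ≤ β) (x y : ℝ) (hx1 : -ρ ≤ x) (hx2 : x ≤ ρ) :
    ‖GG F c (x + y * I)‖ ≤ M ^ 2 * Real.exp (-(2 * δ) * y ^ 2) := by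
  rw [GG_line, norm_mul, RCLike.norm_conj]
  have a1 := hbd (c + x) y (by linarith) (by linarith)
  have a2 := hbd (c - x) y (by linarith) (by linarith)
  calc _ ≤ (M * Real.exp (-δ * y ^ 2)) * (M * Real.exp (-δ * y ^ 2)) :=
        mul_le_mul a1 a2 (norm_nonneg _) (by positivity)
    _ = M ^ 2 * (Real.exp (-δ * y ^ 2) * Real.exp (-δ * y ^ 2)) := by ring
    _ = _ := by
        rw [← Real.exp_add]
        congr 2
        ring

theorem norm_fourier_le {f : ℝ → ℂ} (ξ : ℝ) : ‖𝓕 f ξ‖ ≤ ∫ y, ‖f y‖ := by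
  rw [Real.fourier_eq']
  refine (norm_integral_le_integral_norm _).trans (le_of_eq ?_)
  refine integral_congr_ae (Eventually.of_forall fun y => ?_)
  simp only [smul_eq_mul]
  rw [norm_mul, Complex.norm_exp_ofReal_mul_I, one_mul]

theorem GG_L1 (hF : Differentiable ℂ F) (hδ : 0 < δ)
    (hbd : ∀ x y : ℝ, α ≤ x → x ≤ β → ‖F (x + y * I)‖ ≤ M * Real.exp (-δ * y ^ 2))
    {c ρ lam : ℝ} (hρ : 0 ≤ ρ) (h1 : α ≤ c - ρ) (h2 : c + ρ ≤ β) (hlam : 0 < lam) {x : ℝ}
    (hx : x = ρ ∨ x = -ρ) :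
    ∫ y, ‖ln (GG F c) x y‖ ≤ (lam * VI F (c + ρ) + lam⁻¹ * VI F (c - ρ)) / 2 := by
  have i1 := ln_sq_integrable hF hδ hbd (x := c + ρ) (by linarith) h2
  have i2 := ln_sq_integrable hF hδ hbd (x := c - ρ) h1 (by linarith)
  have hpt : ∀ y, ‖ln (GG F c) x y‖ ≤
      (lam * ‖ln F (c + ρ) y‖ ^ 2 + lam⁻¹ * ‖ln F (c - ρ) y‖ ^ 2) / 2 := by
    intro y
    have e1 : ‖ln (GG F c) x y‖ = ‖ln F (c + ρ) y‖ * ‖ln F (c - ρ) y‖ := by
      unfold ln
      rw [GG_line, norm_mul, RCLike.norm_conj]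
      rcases hx with rfl | rfl
      · rfl
      · rw [mul_comm, sub_neg_eq_add, ← sub_eq_add_neg]
    rw [e1]
    have h4 : 0 ≤ lam⁻¹ * (lam * ‖ln F (c + ρ) y‖ - ‖ln F (c - ρ) y‖) ^ 2 := by positivity
    have h5 : lam⁻¹ * (lam * ‖ln F (c + ρ) y‖ - ‖ln F (c - ρ) y‖) ^ 2 =
        lam * ‖ln F (c + ρ) y‖ ^ 2 + lam⁻¹ * ‖ln F (c - ρ) y‖ ^ 2 -
          2 * (‖ln F (c + ρ) y‖ * ‖ln F (c - ρ) y‖) := by
      field_simp
      ring
    linarith
  have i3 : Integrable (fun y => (lam * ‖ln F (c + ρ) y‖ ^ 2 + lam⁻¹ * ‖ln F (c - ρ) y‖ ^ 2) / 2) :=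
    ((i1.const_mul lam).add (i2.const_mul lam⁻¹)).div_const 2
  have i4 : Integrable (fun y => ‖ln (GG F c) x y‖) :=
    i3.mono' (ln_continuous (GG_differentiable hF c) x).norm.aestronglyMeasurable
      (Eventually.of_forall fun y => by rw [norm_norm]; exact hpt y)
  refine (integral_mono i4 i3 hpt).trans (le_of_eq ?_)
  rw [integral_div, integral_add (i1.const_mul lam) (i2.const_mul lam⁻¹), integral_const_mul,
    integral_const_mul]
  rfl

theorem GG_fourier (hF : Differentiable ℂ F) (hδ : 0 < δ) (hM : 0 ≤ M)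
    (hbd : ∀ x y : ℝ, α ≤ x → x ≤ β → ‖F (x + y * I)‖ ≤ M * Real.exp (-δ * y ^ 2))
    {c ρ lam : ℝ} (hρ : 0 ≤ ρ) (h1 : α ≤ c - ρ) (h2 : c + ρ ≤ β) (hlam : 0 < lam) (ξ : ℝ) :
    ‖𝓕 (ln (GG F c) 0) ξ‖ ≤ Real.exp (-(2 * Real.pi * |ξ| * ρ)) *
      ((lam * VI F (c + ρ) + lam⁻¹ * VI F (c - ρ)) / 2) := by
  have hG := GG_differentiable hF c
  have hGb := GG_bd hM hbd h1 h2
  rcases le_total 0 ξ with h0 | h0
  · have h3 := fourier_shift hG (by positivity : 0 < 2 * δ) (by positivity : 0 ≤ M ^ 2) hGb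
      (x := 0) (x' := ρ) (by linarith) le_rfl hρ ξ
    rw [mul_zero, neg_zero, Real.exp_zero, Complex.ofReal_one, one_mul] at h3
    rw [h3, norm_mul, Complex.norm_real, Real.norm_of_nonneg (Real.exp_pos _).le,
      abs_of_nonneg h0]
    apply mul_le_mul_of_nonneg_left _ (Real.exp_pos _).le
    exact (norm_fourier_le ξ).trans (GG_L1 hF hδ hbd hρ h1 h2 hlam (Or.inl rfl))
  · have h3 := fourier_shift hG (by positivity : 0 < 2 * δ) (by positivity : 0 ≤ M ^ 2) hGb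
      (x := -ρ) (x' := 0) le_rfl hρ (by linarith) ξ
    rw [mul_zero, neg_zero, Real.exp_zero, Complex.ofReal_one, one_mul] at h3
    rw [← h3, norm_mul, Complex.norm_real, Real.norm_of_nonneg (Real.exp_pos _).le,
      abs_of_nonpos h0]
    have e1 : -(2 * Real.pi * ξ * -ρ) = -(2 * Real.pi * -ξ * ρ) := by ring
    rw [e1]
    apply mul_le_mul_of_nonneg_left _ (Real.exp_pos _).le
    exact (norm_fourier_le ξ).trans (GG_L1 hF hδ hbd hρ h1 h2 hlam (Or.inr rfl))

theorem fourier_scale {f : ℝ → ℂ} {h : ℝ} (hh : 0 < h) (ξ : ℝ) :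
    𝓕 (fun y => f (h * y)) ξ = (h⁻¹ : ℝ) * 𝓕 f (ξ / h) := by
  rw [Real.fourier_eq', Real.fourier_eq']
  simp only [smul_eq_mul, RCLike.inner_apply, conj_trivial]
  have e := Measure.integral_comp_mul_left
    (fun y : ℝ => cexp ((-2 * Real.pi * (ξ / h * y) : ℝ) * I) * f y) h
  rw [abs_of_pos (by positivity : 0 < h⁻¹), Complex.real_smul] at e
  rw [← e]
  refine integral_congr_ae (Eventually.of_forall fun y => ?_)
  simp only
  congr 4
  field_simp

theorem hasSum_geo {q : ℝ} (hq0 : 0 ≤ q) (hq1 : q < 1) :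
    HasSum (fun n : ℤ => if n = 0 then 0 else q ^ n.natAbs) (q / (1 - q) + q / (1 - q)) := by
  have hg : HasSum (fun n : ℕ => q ^ (n + 1)) (q / (1 - q)) := by
    have h1 := (hasSum_geometric_of_lt_one hq0 hq1).mul_left q
    rw [div_eq_mul_inv]
    refine h1.congr_fun ?_
    intro n
    ring
  have hp : HasSum (fun n : ℕ => (fun n : ℤ => if n = 0 then 0 else q ^ n.natAbs) n) (q / (1 - q)) := by
    rw [← hasSum_nat_add_iff' 1]
    simp only [Finset.range_one, Finset.sum_singleton, Nat.cast_zero, if_true, sub_zero]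
    refine hg.congr_fun ?_
    intro n
    beta_reduce
    rw [if_neg (by exact_mod_cast Nat.succ_ne_zero n)]
    rfl
  refine hp.of_nat_of_neg_add_one ?_
  refine hg.congr_fun ?_
  intro n
  beta_reduce
  rw [if_neg (by omega)]
  congr 1

/-- **Sums over arithmetic progressions** of the squares of an analytic function. -/
theorem poisson_line (hF : Differentiable ℂ F) (hδ : 0 < δ) (hM : 0 ≤ M)
    (hbd : ∀ x y : ℝ, α ≤ x → x ≤ β → ‖F (x + y * I)‖ ≤ M * Real.exp (-δ * y ^ 2))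
    {c ρ lam h : ℝ} (hρ : 0 < ρ) (h1 : α ≤ c - ρ) (h2 : c + ρ ≤ β) (hlam : 0 < lam) (hh : 0 < h)
    (x : ℝ) :
    |h * (∑' n : ℤ, ‖F (c + ((x + h * n : ℝ) : ℂ) * I)‖ ^ 2) - VI F c| ≤
      (Real.exp (-(2 * Real.pi * ρ / h)) / (1 - Real.exp (-(2 * Real.pi * ρ / h)))) *
        (lam * VI F (c + ρ) + lam⁻¹ * VI F (c - ρ)) := by
  set q := Real.exp (-(2 * Real.pi * ρ / h)) with hq
  have hpi := Real.pi_pos
  have hq0 : 0 < q := Real.exp_pos _
  have hq1 : q < 1 := by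
    rw [hq, Real.exp_lt_one_iff]
    have : 0 < 2 * Real.pi * ρ / h := by positivity
    linarith
  set B := (lam * VI F (c + ρ) + lam⁻¹ * VI F (c - ρ)) / 2 with hB
  have hB0 : 0 ≤ B := by
    have := VI_nonneg F (c + ρ)
    have := VI_nonneg F (c - ρ)
    positivity
  set f : ℝ → ℂ := fun y => ln (GG F c) 0 (h * y) with hf
  have hG := GG_differentiable hF c
  have hGc : Continuous (ln (GG F c) 0) := ln_continuous hG 0
  have hfc : Continuous f := hGc.comp (continuous_const.mul continuous_id)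
  have hGb := GG_bd hM hbd h1 h2
  -- decay
  have hO : Asymptotics.IsBigO (cocompact ℝ) f fun x : ℝ => |x| ^ (-(2 : ℝ)) := by
    apply Asymptotics.IsBigO.of_bound (M ^ 2 / (2 * δ * h ^ 2))
    filter_upwards [(isCompact_singleton (x := (0 : ℝ))).compl_mem_cocompact] with y hy
    have hy0 : y ≠ 0 := hy
    have hy1 : 0 < |y| := abs_pos.2 hy0
    have b1 : ‖f y‖ ≤ M ^ 2 * Real.exp (-(2 * δ) * (h * y) ^ 2) :=
      hGb 0 (h * y) (by linarith) hρ.le
    have b2 : Real.exp (-(2 * δ) * (h * y) ^ 2) ≤ 1 / (2 * δ * h ^ 2 * |y| ^ 2) := by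
      have b3 : 2 * δ * h ^ 2 * |y| ^ 2 ≤ Real.exp (2 * δ * h ^ 2 * |y| ^ 2) := by
        have := Real.add_one_le_exp (2 * δ * h ^ 2 * |y| ^ 2)
        linarith
      have e1 : -(2 * δ) * (h * y) ^ 2 = -(2 * δ * h ^ 2 * |y| ^ 2) := by
        rw [sq_abs]
        ring
      rw [e1, Real.exp_neg, one_div]
      exact inv_anti₀ (by positivity) b3
    have e2 : |y| ^ (-(2 : ℝ)) = (|y| ^ 2)⁻¹ := by
      rw [Real.rpow_neg hy1.le]
      congr 1
      exact_mod_cast Real.rpow_natCast |y| 2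
    rw [e2, Real.norm_of_nonneg (by positivity)]
    calc ‖f y‖ ≤ M ^ 2 * (1 / (2 * δ * h ^ 2 * |y| ^ 2)) :=
          b1.trans (mul_le_mul_of_nonneg_left b2 (by positivity))
      _ = _ := by
          field_simp
  -- the Fourier transform
  have hFf : ∀ n : ℤ, 𝓕 f n = (h⁻¹ : ℝ) * 𝓕 (ln (GG F c) 0) (n / h) := fun n => fourier_scale hh n
  have hbF : ∀ n : ℤ, ‖𝓕 f n‖ ≤ B / h * q ^ n.natAbs := by
    intro n
    rw [hFf, norm_mul, Complex.norm_real, Real.norm_of_nonneg (by positivity)]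
    have g1 := GG_fourier hF hδ hM hbd hρ.le h1 h2 hlam (n / h : ℝ)
    have e1 : Real.exp (-(2 * Real.pi * |(n : ℝ) / h| * ρ)) = q ^ n.natAbs := by
      rw [hq, ← Real.exp_nat_mul]
      congr 1
      rw [abs_div, abs_of_pos hh]
      have : (n.natAbs : ℝ) = |(n : ℝ)| := by
        rw [Nat.cast_natAbs]
        push_cast
        rfl
      rw [this]
      ring
    rw [e1] at g1
    calc h⁻¹ * ‖𝓕 (ln (GG F c) 0) (n / h)‖ ≤ h⁻¹ * (q ^ n.natAbs * B) :=
          mul_le_mul_of_nonneg_left g1 (by positivity)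
      _ = _ := by ring
  have hgeo := hasSum_geo hq0.le hq1
  have hsumF : Summable fun n : ℤ => 𝓕 f n := by
    have s1 : Summable (fun n : ℤ => B / h * q ^ n.natAbs) := by
      apply Summable.mul_left
      have s2 := hgeo.summable
      refine (s2.add (summable_of_hasFiniteSupport (f := fun n : ℤ => if n = 0 then (1 : ℝ) else 0) ?_)).congr ?_
      · exact (Set.finite_singleton (0 : ℤ)).subset fun n hn => by
          by_contra h0
          apply hn
          exact if_neg h0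
      · intro n
        by_cases h0 : n = 0
        · subst h0; simp
        · simp [h0]
    exact Summable.of_norm_bounded s1 hbF
  have hP := Real.tsum_eq_tsum_fourier_of_rpow_decay_of_summable hfc (by norm_num : (1 : ℝ) < 2) hO
    hsumF (x / h)
  -- left side
  have e1 : ∀ n : ℤ, f (x / h + n) = ((‖F (c + ((x + h * n : ℝ) : ℂ) * I)‖ ^ 2 : ℝ) : ℂ) := by
    intro n
    rw [hf]
    beta_reduce
    rw [GG_zero]
    have : h * (x / h + n) = x + h * n := by field_simp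
    rw [this]
  have e2 : ∑' n : ℤ, f (x / h + n) =
      ((∑' n : ℤ, ‖F (c + ((x + h * n : ℝ) : ℂ) * I)‖ ^ 2 : ℝ) : ℂ) := by
    rw [Complex.ofReal_tsum]
    exact tsum_congr e1
  -- the zeroth term
  have e3 : 𝓕 f ((0 : ℤ) : ℝ) = ((h⁻¹ * VI F c : ℝ) : ℂ) := by
    rw [hFf]
    simp only [Int.cast_zero, zero_div]
    rw [Real.fourier_eq']
    simp only [smul_eq_mul, inner_zero_right, mul_zero, Complex.ofReal_zero, zero_mul,
      Complex.exp_zero, one_mul]
    have e4 : ∫ y, ln (GG F c) 0 y = ((VI F c : ℝ) : ℂ) := by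
      have e5 : ∫ y : ℝ, ((‖F (c + y * I)‖ ^ 2 : ℝ) : ℂ) = ((VI F c : ℝ) : ℂ) :=
        integral_ofReal (μ := (volume : Measure ℝ)) (𝕜 := ℂ) (f := fun y : ℝ => ‖F (c + y * I)‖ ^ 2)
      rw [← e5]
      exact integral_congr_ae (Eventually.of_forall fun y => GG_zero F c y)
    rw [e4]
    push_cast
    rfl
  set a : ℤ → ℂ := fun n => 𝓕 f n * fourier n ((x / h : ℝ) : UnitAddCircle) with ha
  have hna : ∀ n, ‖a n‖ = ‖𝓕 f n‖ := by
    intro n
    rw [ha]
    beta_reduce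
    rw [norm_mul, fourier_apply, Circle.norm_coe, mul_one]
  have hsa : Summable a := by
    apply Summable.of_norm
    exact (hsumF.norm).congr fun n => (hna n).symm
  have e5 : a 0 = ((h⁻¹ * VI F c : ℝ) : ℂ) := by
    rw [ha]
    beta_reduce
    rw [e3, _root_.fourier_zero, mul_one]
  have e6 := hsa.tsum_eq_add_tsum_ite 0
  have e7 : ‖∑' n : ℤ, (if n = 0 then 0 else a n)‖ ≤ B / h * (q / (1 - q) + q / (1 - q)) := by
    apply tsum_of_norm_bounded (hgeo.mul_left (B / h))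
    intro n
    by_cases h0 : n = 0
    · simp [h0]
    · rw [if_neg h0, if_neg h0, hna]
      exact hbF n
  have e8 : ‖((∑' n : ℤ, ‖F (c + ((x + h * n : ℝ) : ℂ) * I)‖ ^ 2 : ℝ) : ℂ) -
      ((h⁻¹ * VI F c : ℝ) : ℂ)‖ ≤ B / h * (q / (1 - q) + q / (1 - q)) := by
    rw [← e2, hP]
    have : ∑' n : ℤ, 𝓕 f n * fourier n ((x / h : ℝ) : UnitAddCircle) = ∑' n, a n := rfl
    rw [this, e6, e5, add_sub_cancel_left]
    exact e7
  rw [← Complex.ofReal_sub, Complex.norm_real, Real.norm_eq_abs] at e8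
  set S := ∑' n : ℤ, ‖F (c + ((x + h * n : ℝ) : ℂ) * I)‖ ^ 2 with hS
  have e9 : h * S - VI F c = h * (S - h⁻¹ * VI F c) := by
    field_simp
  rw [e9, abs_mul, abs_of_pos hh]
  calc h * |S - h⁻¹ * VI F c| ≤ h * (B / h * (q / (1 - q) + q / (1 - q))) :=
        mul_le_mul_of_nonneg_left e8 hh.le
    _ = _ := by
        rw [hB]
        field_simp
        ring

end

end U345Z
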