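import Pool.Agent.U345.ZP

set_option autoImplicit false

open MeasureTheory Filter Topology Complex FourierTransform ComplexConjugate

namespace U345Z

open Q97.MM

noncomputable section

variable (k : ℕ)

/-! ### Sums of the auxiliary weight over separated points -/

theorem aw_sep (A : ℕ) : ∃ C : ℝ, 0 < C ∧ ∀ (T U : ℝ), 1 ≤ U → ∀ (h : ℝ), 0 < h →
    ∀ {ι : Type} (s : Finset ι) (l p : ι → ℝ),
    (∀ i ∈ s, ∀ j ∈ s, i ≠ j → Disjoint (Set.Ioc (l i) (l i + h)) (Set.Ioc (l j) (l j + h))) →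
    (∀ i ∈ s, ∀ x ∈ Set.Ioc (l i) (l i + h), |p i - x| ≤ 1) →
    h * ∑ i ∈ s, aw A T U (p i) ≤ C * U := by
  obtain ⟨C, hC, hC'⟩ := aw_local A
  have hK0 : 0 ≤ ∫ x : ℝ, Real.exp (-(3 / 16) * x ^ 2) := integral_nonneg fun x => (Real.exp_pos _).le
  refine ⟨C * ((∫ x : ℝ, Real.exp (-(3 / 16) * x ^ 2)) + 1), by positivity,
    fun T U hU h hh ι s l p hdis hp => ?_⟩
  have hU0 : 0 < U := by linarith
  set g : ℝ → ℝ := fun y => Real.exp (-(3 / 16) * ((y - T) / U) ^ 2) with hg
  have hgi : Integrable g := wide_integrable T hU0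
  have hg0 : ∀ x, 0 ≤ g x := fun x => (Real.exp_pos _).le
  have h1 : ∀ i ∈ s, h * aw A T U (p i) ≤ ∫ x in Set.Ioc (l i) (l i + h), C * g x := by
    intro i hi
    have h2 : ∫ _x in Set.Ioc (l i) (l i + h), aw A T U (p i) ≤
        ∫ x in Set.Ioc (l i) (l i + h), C * g x := by
      apply setIntegral_mono_on (integrableOn_const (by simp) (by simp))
        (hgi.const_mul C).integrableOn measurableSet_Ioc
      intro x hx
      exact hC' T U hU (p i) x (hp i hi x hx)
    rw [setIntegral_const, smul_eq_mul, Real.volume_real_Ioc_of_le (by linarith)] at h2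
    calc h * aw A T U (p i) = (l i + h - l i) * aw A T U (p i) := by ring
      _ ≤ _ := h2
  have h3 : ∑ i ∈ s, ∫ x in Set.Ioc (l i) (l i + h), C * g x =
      ∫ x in ⋃ i ∈ s, Set.Ioc (l i) (l i + h), C * g x :=
    (integral_biUnion_finset s (fun i _ => measurableSet_Ioc)
      (fun i hi j hj hij => hdis i hi j hj hij) (fun i _ => (hgi.const_mul C).integrableOn)).symm
  have h4 : ∫ x in ⋃ i ∈ s, Set.Ioc (l i) (l i + h), C * g x ≤ ∫ x, C * g x :=
    setIntegral_le_integral (hgi.const_mul C) (Eventually.of_forall fun x =>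
      mul_nonneg hC.le (hg0 x))
  have h5 : ∫ x, C * g x = C * (U * ∫ x : ℝ, Real.exp (-(3 / 16) * x ^ 2)) := by
    rw [integral_const_mul]
    congr 1
    exact wide_integral T hU0
  rw [h5] at h4
  rw [Finset.mul_sum]
  calc _ ≤ _ := Finset.sum_le_sum h1
    _ = _ := h3
    _ ≤ _ := h4
    _ ≤ _ := by
      have : C * (U * ∫ x : ℝ, Real.exp (-(3 / 16) * x ^ 2)) ≤
        C * (U * ((∫ x : ℝ, Real.exp (-(3 / 16) * x ^ 2)) + 1)) := by
        apply mul_le_mul_of_nonneg_left _ hC.le
        apply mul_le_mul_of_nonneg_left _ hU0.le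
        linarith
      linarith

theorem aw_prog (A : ℕ) : ∃ C : ℝ, 0 < C ∧ ∀ (T U : ℝ), 1 ≤ U → ∀ (h : ℝ), 0 < h → h ≤ 1 →
    ∀ x : ℝ, Summable (fun n : ℤ => aw A T U (x + h * n)) ∧
      h * (∑' n : ℤ, aw A T U (x + h * n)) ≤ C * U := by
  obtain ⟨C, hC, hC'⟩ := aw_sep A
  refine ⟨C, hC, fun T U hU h hh hh1 x => ?_⟩
  have key : ∀ s : Finset ℤ, h * ∑ n ∈ s, aw A T U (x + h * n) ≤ C * U := by
    intro s
    apply hC' T U hU h hh s (fun n => x + h * n) (fun n => x + h * n)
    · intro i _ j _ hij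
      rw [Set.Ioc_disjoint_Ioc]
      rcases lt_or_gt_of_ne hij with h0 | h0
      · have h1 : (i : ℝ) + 1 ≤ j := by exact_mod_cast h0
        have : h * (i + 1) ≤ h * j := mul_le_mul_of_nonneg_left h1 hh.le
        exact (min_le_left _ _).trans (le_trans (by linarith) (le_max_right _ _))
      · have h1 : (j : ℝ) + 1 ≤ i := by exact_mod_cast h0
        have : h * (j + 1) ≤ h * i := mul_le_mul_of_nonneg_left h1 hh.le
        exact (min_le_right _ _).trans (le_trans (by linarith) (le_max_left _ _))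
    · intro i _ y hy
      rw [abs_le]
      constructor <;> linarith [hy.1, hy.2]
  have key2 : ∀ s : Finset ℤ, ∑ n ∈ s, aw A T U (x + h * n) ≤ C * U / h := by
    intro s
    rw [le_div_iff₀ hh]
    linarith [key s]
  have hs : Summable (fun n : ℤ => aw A T U (x + h * n)) :=
    summable_of_sum_le (fun n => aw_nonneg A T U _) key2
  refine ⟨hs, ?_⟩
  have h1 := Summable.tsum_le_of_sum_le hs key2
  rw [le_div_iff₀ hh] at h1
  linarith

/-- a crude bound -/
theorem fq_le_aw {T U : ℝ} (hA : Adm T U) (y : ℝ) :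
    fq k T U y ≤ 45 ^ (2 * k) * (1 + T) ^ (2 * (2 * k)) * aw (2 * (2 * k)) T U y := by
  have hT : 0 < T := by linarith [hA.1]
  have hU := hA.pos
  rw [fq_eq]
  have a1 := Z1_pow_bd k (x := 1 / 2) (by norm_num) (by norm_num) y
  have h2 := abs_le_scaled hU hT.le hA.le y
  have h3 : wt T U y ≤ Real.exp (-(((y - T) / U) ^ 2 / 2)) := by
    unfold wt
    apply Real.exp_le_exp.2
    nlinarith [sq_nonneg ((y - T) / U)]
  calc _ ≤ (45 ^ (2 * k) * ((1 + T) * (1 + |(y - T) / U|)) ^ (2 * (2 * k))) *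
        Real.exp (-(((y - T) / U) ^ 2 / 2)) := by
        apply mul_le_mul _ h3 (wt_pos _ _ _).le (by positivity)
        refine a1.trans ?_
        gcongr
    _ = _ := by
        unfold aw
        rw [mul_pow]
        ring

theorem fq_summable {T U : ℝ} (hA : Adm T U) {h : ℝ} (hh : 0 < h) (hh1 : h ≤ 1) (x : ℝ) :
    Summable (fun n : ℤ => fq k T U (x + h * n)) := by
  obtain ⟨C, hC, hC'⟩ := aw_prog (2 * (2 * k))
  exact Summable.of_nonneg_of_le (fun n => fq_nonneg k T U _) (fun n => fq_le_aw k hA _)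
    ((hC' T U hA.2.1 h hh hh1 x).1.mul_left _)

/-- Sums of `FF` over arithmetic progressions. -/
theorem progFF {c ε : ℝ} (hc : 0 < c) (hck : c * k < 2 * Real.pi) (hε : 0 < ε) :
    ∀ᶠ T : ℝ in atTop, ∀ U : ℝ, Adm T U → ∀ x : ℝ,
    |c / Real.log T * (∑' n : ℤ, fq k T U (x + c / Real.log T * n)) - V0 k T U| ≤
      ε * V0 k T U := by
  have hpi := Real.pi_pos
  set μ := 2 * Real.pi / c - k with hμ
  have hμ0 : 0 < μ := by
    rw [hμ, sub_pos, lt_div_iff₀ hc]
    linarith
  have hlim : Tendsto (fun a : ℝ => Real.exp (-(μ * a)) / (1 - Real.exp (-(2 * Real.pi * a / c))) * 5)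
      atTop (𝓝 (0 / (1 - 0) * 5)) := by
    have l1 : Tendsto (fun a : ℝ => Real.exp (-(μ * a))) atTop (𝓝 0) := by
      apply Real.tendsto_exp_neg_atTop_nhds_zero.comp
      exact tendsto_id.const_mul_atTop hμ0
    have l2 : Tendsto (fun a : ℝ => Real.exp (-(2 * Real.pi * a / c))) atTop (𝓝 0) := by
      apply Real.tendsto_exp_neg_atTop_nhds_zero.comp
      have : (fun a : ℝ => 2 * Real.pi * a / c) = fun a => (2 * Real.pi / c) * a := by
        funext a; ring
      rw [this]
      exact tendsto_id.const_mul_atTop (by positivity)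
    exact (l1.div (l2.const_sub 1) (by norm_num)).mul_const 5
  rw [zero_div, zero_mul] at hlim
  obtain ⟨a, ha1, ha0⟩ := ((hlim.eventually (gt_mem_nhds hε)).and (eventually_gt_atTop 0)).exists
  filter_upwards [Gn_le k ha0.le one_pos, G_fe k a one_pos,
    (log_div_tendsto a).eventually (gt_mem_nhds (show (0 : ℝ) < 1 / 4 by norm_num))] with
    T h1 h2 h3 U hA x
  have hL := hA.log
  have hL0 : 0 < Real.log T := by linarith
  have hV0 := V0_pos k hA
  obtain ⟨M, δ, hM, hδ, hbd⟩ := FF_bd k T hA.pos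
  have h4 := abs_lt.1 h3
  have hP := poisson_line (c := 1 / 2) (ρ := a / Real.log T) (lam := Real.exp (k * a))
    (h := c / Real.log T) (FF_differentiable k T U) hδ hM hbd (by positivity) (by linarith)
    (by linarith) (Real.exp_pos _) (by positivity) x
  have e1 : 2 * Real.pi * (a / Real.log T) / (c / Real.log T) = 2 * Real.pi * a / c := by
    field_simp
  rw [e1] at hP
  have g1 : VI (FF k T U) (1 / 2 + a / Real.log T) = Gn k T U a * V0 k T U := by
    unfold Gn
    rw [div_mul_cancel₀ _ hV0.ne']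
  have g2 : VI (FF k T U) (1 / 2 - a / Real.log T) = Gn k T U (-a) * V0 k T U := by
    unfold Gn
    rw [div_mul_cancel₀ _ hV0.ne', neg_div, ← sub_eq_add_neg]
  rw [g1, g2] at hP
  refine hP.trans ?_
  have b1 := h1 U hA
  have b2 := (abs_le.1 (h2 U hA)).2
  have b3 : Real.exp (k * a) * (Gn k T U a * V0 k T U) +
      (Real.exp (k * a))⁻¹ * (Gn k T U (-a) * V0 k T U) ≤ 5 * Real.exp (k * a) * V0 k T U := by
    rw [← mul_assoc, ← mul_assoc, ← add_mul]
    apply mul_le_mul_of_nonneg_right _ hV0.le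
    have p := Real.exp_pos (k * a)
    have b4 : Gn k T U (-a) ≤ 3 * Real.exp (2 * k * a) := by
      have b5 : 1 ≤ Real.exp (2 * k * a) := Real.one_le_exp (by positivity)
      have b6 : Real.exp (2 * k * a) * Gn k T U a ≤ Real.exp (2 * k * a) * 2 :=
        mul_le_mul_of_nonneg_left (by linarith) (Real.exp_pos _).le
      linarith
    have b7 : (Real.exp (k * a))⁻¹ * Gn k T U (-a) ≤ 3 * Real.exp (k * a) := by
      have b8 : (Real.exp (k * a))⁻¹ * Gn k T U (-a) ≤
          (Real.exp (k * a))⁻¹ * (3 * Real.exp (2 * k * a)) :=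
        mul_le_mul_of_nonneg_left b4 (by positivity)
      have b9 : (Real.exp (k * a))⁻¹ * (3 * Real.exp (2 * k * a)) = 3 * Real.exp (k * a) := by
        rw [← Real.exp_neg]
        have : Real.exp (2 * k * a) = Real.exp (k * a) * Real.exp (k * a) := by
          rw [← Real.exp_add]; congr 1; ring
        rw [this]
        have h0 : Real.exp (-(k * a)) * Real.exp (k * a) = 1 := by
          rw [← Real.exp_add, neg_add_cancel, Real.exp_zero]
        linear_combination (3 * Real.exp (k * a)) * h0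
      linarith
    have b10 : Real.exp (k * a) * Gn k T U a ≤ Real.exp (k * a) * 2 :=
      mul_le_mul_of_nonneg_left (by linarith) p.le
    linarith
  have hq1 : Real.exp (-(2 * Real.pi * a / c)) < 1 := by
    rw [Real.exp_lt_one_iff]
    have : 0 < 2 * Real.pi * a / c := by positivity
    linarith
  set q := Real.exp (-(2 * Real.pi * a / c)) with hq
  have hq0 : 0 < q := Real.exp_pos _
  have h1q : 0 < 1 - q := by linarith
  calc q / (1 - q) * (Real.exp (k * a) * (Gn k T U a * V0 k T U) +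
      (Real.exp (k * a))⁻¹ * (Gn k T U (-a) * V0 k T U))
      ≤ q / (1 - q) * (5 * Real.exp (k * a) * V0 k T U) :=
        mul_le_mul_of_nonneg_left b3 (by positivity)
    _ = (Real.exp (-(μ * a)) / (1 - q) * 5) * V0 k T U := by
        have : Real.exp (-(μ * a)) = q * Real.exp (k * a) := by
          rw [hq, ← Real.exp_add, hμ]
          congr 1
          ring
        rw [this]
        ring
    _ ≤ ε * V0 k T U := mul_le_mul_of_nonneg_right ha1.le hV0.le

/-- **Sums of the moments of zeta over arithmetic progressions.** -/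
theorem progZ {c ε : ℝ} (hc : 0 < c) (hck : c * k < 2 * Real.pi) (hε : 0 < ε) :
    ∀ᶠ T : ℝ in atTop, ∀ U : ℝ, Adm T U → 0 < JJ k T U (1 / 2) ∧ ∀ x : ℝ,
    Summable (fun n : ℤ => zq k T U (x + c / Real.log T * n)) ∧
    |c / Real.log T * (∑' n : ℤ, zq k T U (x + c / Real.log T * n)) - JJ k T U (1 / 2)| ≤
      ε * JJ k T U (1 / 2) := by
  obtain ⟨C, hC, hC'⟩ := aw_prog (2 * (2 * k))
  obtain ⟨c₀, hc₀, hc₀'⟩ := V0_lower k
  -- parameters
  set e := min (ε / 8) (1 / 4) with he
  have he0 : 0 < e := lt_min (by positivity) (by norm_num)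
  have he1 : e ≤ ε / 8 := min_le_left _ _
  have he2 : e ≤ 1 / 4 := min_le_right _ _
  set ε₃ := e / (2 + C / c₀) with hε₃
  have hε₃0 : 0 < ε₃ := by positivity
  have hLc : ∀ᶠ T : ℝ in atTop, c ≤ Real.log T := Real.tendsto_log_atTop.eventually_ge_atTop c
  filter_upwards [progFF k hc hck he0, pt_cmp k hε₃0, GJ k 0 he0, hLc] with T h1 h2 h3 h4 U hA
  have hL := hA.log
  have hL0 : 0 < Real.log T := by linarith
  have hT : 0 < T := by linarith [hA.1]
  have hV0 := V0_pos k hA
  have hU := hA.pos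
  set V := V0 k T U with hV
  set P := T ^ (2 * k) with hP
  have hP0 : 0 < P := by positivity
  set M := JJ k T U (1 / 2) with hM
  have hM0 : 0 ≤ M := JJ_nonneg k _ _ _
  have g1 := h3 U hA
  rw [Gn_zero k hA] at g1
  have g2 : Jn k T U 0 = P * M / V := by
    unfold Jn
    rw [zero_div, add_zero]
  rw [g2] at g1
  have g3 : |V - P * M| ≤ e * V := by
    have e1 : V - P * M = (1 - P * M / V) * V := by field_simp
    rw [e1, abs_mul, abs_of_pos hV0]
    exact mul_le_mul_of_nonneg_right g1 hV0.le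
  have g4 := abs_le.1 g3
  have hMp : 0 < M := by
    by_contra hcon
    have h0 : M = 0 := le_antisymm (not_lt.1 hcon) hM0
    rw [h0, mul_zero] at g4
    nlinarith [g4.2]
  refine ⟨hMp, fun x => ?_⟩
  set h := c / Real.log T with hh
  have hh0 : 0 < h := by positivity
  have hh1 : h ≤ 1 := (div_le_one hL0).2 h4
  obtain ⟨s1, s2⟩ := hC' T U hA.2.1 h hh0 hh1 x
  have s3 := fq_summable k hA hh0 hh1 x
  have hb : ∀ n : ℤ, |fq k T U (x + h * n) - P * zq k T U (x + h * n)| ≤
      ε₃ * fq k T U (x + h * n) + ε₃ * (P * aw (2 * (2 * k)) T U (x + h * n)) := fun n => h2 U hA _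
  have s4 : Summable (fun n : ℤ => ε₃ * fq k T U (x + h * n) +
      ε₃ * (P * aw (2 * (2 * k)) T U (x + h * n))) :=
    (s3.mul_left ε₃).add ((s1.mul_left P).mul_left ε₃)
  have s5 : Summable (fun n : ℤ => fq k T U (x + h * n) - P * zq k T U (x + h * n)) :=
    Summable.of_norm_bounded s4 (fun n => by rw [Real.norm_eq_abs]; exact hb n)
  have s6 : Summable (fun n : ℤ => P * zq k T U (x + h * n)) := by
    refine (s3.sub s5).congr fun n => ?_
    ring
  have s7 : Summable (fun n : ℤ => zq k T U (x + h * n)) := by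
    have := s6.mul_left P⁻¹
    refine this.congr fun n => ?_
    field_simp
  refine ⟨s7, ?_⟩
  set S := ∑' n : ℤ, fq k T U (x + h * n) with hS
  set Z := ∑' n : ℤ, zq k T U (x + h * n) with hZ
  have q1 := h1 U hA x
  have q2 : |h * S - P * (h * Z)| ≤ ε₃ * (h * S) + ε₃ * (P * (C * U)) := by
    have a1 : |S - P * Z| ≤ ε₃ * S + ε₃ * (P * ∑' n : ℤ, aw (2 * (2 * k)) T U (x + h * n)) := by
      have e1 : S - P * Z = ∑' n : ℤ, (fq k T U (x + h * n) - P * zq k T U (x + h * n)) := by
        rw [s3.tsum_sub s6, tsum_mul_left]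
      have e2 : ε₃ * S + ε₃ * (P * ∑' n : ℤ, aw (2 * (2 * k)) T U (x + h * n)) =
          ∑' n : ℤ, (ε₃ * fq k T U (x + h * n) + ε₃ * (P * aw (2 * (2 * k)) T U (x + h * n))) := by
        rw [(s3.mul_left ε₃).tsum_add ((s1.mul_left P).mul_left ε₃), tsum_mul_left, tsum_mul_left,
          tsum_mul_left]
      rw [e1, e2]
      have := tsum_of_norm_bounded s4.hasSum (f := fun n : ℤ =>
        fq k T U (x + h * n) - P * zq k T U (x + h * n)) (fun n => by
          rw [Real.norm_eq_abs]; exact hb n)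
      rwa [Real.norm_eq_abs] at this
    have a2 : |h * S - P * (h * Z)| = h * |S - P * Z| := by
      rw [← abs_of_pos hh0, ← abs_mul, abs_of_pos hh0]
      congr 1
      ring
    rw [a2]
    have a3 := mul_le_mul_of_nonneg_left a1 hh0.le
    have a4 : ε₃ * (P * (h * ∑' n : ℤ, aw (2 * (2 * k)) T U (x + h * n))) ≤ ε₃ * (P * (C * U)) := by
      gcongr
    have a5 : h * (ε₃ * S + ε₃ * (P * ∑' n : ℤ, aw (2 * (2 * k)) T U (x + h * n))) =
      ε₃ * (h * S) + ε₃ * (P * (h * ∑' n : ℤ, aw (2 * (2 * k)) T U (x + h * n))) := by ring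
    linarith
  have q3 : h * S ≤ 2 * V := by
    have := (abs_le.1 q1).2
    nlinarith
  have q4 : P * (C * U) ≤ C / c₀ * V := by
    have := hc₀' T U hA
    have e1 : P * (C * U) = C / c₀ * (c₀ * (P * U)) := by field_simp
    rw [e1]
    exact mul_le_mul_of_nonneg_left this (by positivity)
  have q5 : |h * S - P * (h * Z)| ≤ e * V := by
    have e1 : e * V = ε₃ * (2 * V) + ε₃ * (C / c₀ * V) := by
      have : ε₃ * (2 + C / c₀) = e := by
        rw [hε₃]
        field_simp
      rw [← this]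
      ring
    rw [e1]
    refine q2.trans (add_le_add ?_ ?_)
    · exact mul_le_mul_of_nonneg_left q3 hε₃0.le
    · exact mul_le_mul_of_nonneg_left q4 hε₃0.le
  have q6 : |P * (h * Z - M)| ≤ 3 * e * V := by
    have b1 := abs_le.1 q1
    have b2 := abs_le.1 q5
    rw [abs_le]
    constructor <;> linarith [b1.1, b1.2, b2.1, b2.2, g4.1, g4.2]
  have q7 : V ≤ 2 * (P * M) := by nlinarith [g4.2]
  rw [abs_mul, abs_of_pos hP0] at q6
  have q8 : P * |h * Z - M| ≤ P * (ε * M) := by
    have b1 : 3 * e * V ≤ 3 * e * (2 * (P * M)) := mul_le_mul_of_nonneg_left q7 (by positivity)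
    have b2 : 3 * e * (2 * (P * M)) ≤ ε * (P * M) := by
      have : 0 < P * M := by positivity
      nlinarith
    linarith
  exact le_of_mul_le_mul_left q8 hP0

end

end U345Z
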