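import Mathlib

/-!
# Sums over points separated by zeros, for functions on the line
-/

set_option autoImplicit false

open MeasureTheory Filter Topology Set

namespace U345Z

noncomputable section

/-- The change of the square of the norm. -/
theorem sq_change {g g' : ℝ → ℂ} (hg : ∀ x, HasDerivAt g (g' x) x) (hg' : Continuous g') {x y : ℝ}
    (hxy : x ≤ y) :
    |‖g y‖ ^ 2 - ‖g x‖ ^ 2| ≤ 2 * ∫ t in x..y, ‖g t‖ * ‖g' t‖ := by
  have hgc : Continuous g := continuous_iff_continuousAt.2 fun x => (hg x).continuousAt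
  have h1 : ∫ t in x..y, 2 * inner ℝ (g t) (g' t) = ‖g y‖ ^ 2 - ‖g x‖ ^ 2 := by
    apply intervalIntegral.integral_eq_sub_of_hasDerivAt
    · intro t _
      exact (hg t).norm_sq
    · apply Continuous.intervalIntegrable
      fun_prop
  rw [← h1, ← intervalIntegral.integral_const_mul]
  refine (intervalIntegral.abs_integral_le_integral_abs hxy).trans ?_
  apply intervalIntegral.integral_mono_on hxy
  · apply Continuous.intervalIntegrable
    fun_prop
  · apply Continuous.intervalIntegrable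
    fun_prop
  · intro t _
    rw [abs_mul, abs_of_nonneg (by norm_num : (0 : ℝ) ≤ 2)]
    have := abs_real_inner_le_norm (g t) (g' t)
    linarith

/-- The same for a real linear functional. -/
theorem re_change {g g' : ℝ → ℂ} (hg : ∀ x, HasDerivAt g (g' x) x) (hg' : Continuous g') {x y : ℝ}
    (hxy : x ≤ y) (u : ℂ) (h0 : (u * g x).re = 0) :
    (u * g y).re ^ 2 ≤ 2 * (‖u‖ ^ 2 * ∫ t in x..y, ‖g t‖ * ‖g' t‖) := by
  have hgc : Continuous g := continuous_iff_continuousAt.2 fun x => (hg x).continuousAt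
  have hd : ∀ t, HasDerivAt (fun t => (u * g t).re) ((u * g' t).re) t := by
    intro t
    have h1 := (hg t).const_mul u
    exact Complex.reCLM.hasFDerivAt.comp_hasDerivAt t h1
  have h1 : ∫ t in x..y, 2 * (u * g t).re ^ 1 * (u * g' t).re = (u * g y).re ^ 2 - (u * g x).re ^ 2 := by
    apply intervalIntegral.integral_eq_sub_of_hasDerivAt
    · intro t _
      simpa using (hd t).fun_pow 2
    · apply Continuous.intervalIntegrable
      fun_prop
  rw [h0] at h1
  have h2 : (u * g y).re ^ 2 = ∫ t in x..y, 2 * (u * g t).re ^ 1 * (u * g' t).re := by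
    rw [h1]; ring
  rw [h2, ← intervalIntegral.integral_const_mul, ← intervalIntegral.integral_const_mul]
  apply intervalIntegral.integral_mono_on hxy
  · apply Continuous.intervalIntegrable
    fun_prop
  · apply Continuous.intervalIntegrable
    fun_prop
  · intro t _
    have a1 := (abs_le.1 (Complex.abs_re_le_norm (u * g t)))
    have a2 := (abs_le.1 (Complex.abs_re_le_norm (u * g' t)))
    have a3 : |(u * g t).re| * |(u * g' t).re| ≤ ‖u * g t‖ * ‖u * g' t‖ :=
      mul_le_mul (Complex.abs_re_le_norm _) (Complex.abs_re_le_norm _) (abs_nonneg _) (norm_nonneg _)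
    rw [← abs_mul, norm_mul, norm_mul] at a3
    have a4 := (abs_le.1 a3).2
    nlinarith

theorem part_le_Iic {p : ℝ → ℝ} (hp : ∀ t, 0 ≤ p t) (hi : Integrable p) {x y : ℝ} (hxy : x ≤ y) :
    ∫ t in x..y, p t ≤ ∫ t in Iic y, p t := by
  rw [intervalIntegral.integral_of_le hxy]
  exact setIntegral_mono_set hi.integrableOn (Eventually.of_forall hp) (Ioc_subset_Iic_self.eventuallyLE)

theorem Iic_add {p : ℝ → ℝ} (hi : Integrable p) {x y : ℝ} :
    (∫ t in Iic x, p t) + ∫ t in x..y, p t = ∫ t in Iic y, p t := by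
  have := intervalIntegral.integral_Iic_sub_Iic (μ := volume) (f := p) (a := x) (b := y)
    hi.integrableOn hi.integrableOn
  linarith

/-- A function which tends to zero at minus infinity. -/
theorem from_left {g g' : ℝ → ℂ} (hg : ∀ x, HasDerivAt g (g' x) x) (hg' : Continuous g')
    (hi : Integrable fun t => ‖g t‖ * ‖g' t‖) (h0 : Tendsto g atBot (𝓝 0)) (y : ℝ) :
    ‖g y‖ ^ 2 ≤ 2 * ∫ t in Iic y, ‖g t‖ * ‖g' t‖ := by
  have h1 : Tendsto (fun x => ‖g x‖ ^ 2 + 2 * ∫ t in Iic y, ‖g t‖ * ‖g' t‖) atBot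
      (𝓝 (‖(0 : ℂ)‖ ^ 2 + 2 * ∫ t in Iic y, ‖g t‖ * ‖g' t‖)) := (h0.norm.pow 2).add_const _
  rw [norm_zero, zero_pow two_ne_zero, zero_add] at h1
  apply ge_of_tendsto h1
  filter_upwards [eventually_le_atBot y] with x hx
  have h2 := (abs_le.1 (sq_change hg hg' hx)).2
  have h3 := part_le_Iic (fun t => by positivity) hi hx (p := fun t => ‖g t‖ * ‖g' t‖)
  linarith

/-- Points such that all rotations of the function have zeros between any two of them. -/
theorem rolle_sum {g g' : ℝ → ℂ} (hg : ∀ x, HasDerivAt g (g' x) x) (hg' : Continuous g')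
    (hi : Integrable fun t => ‖g t‖ * ‖g' t‖) (h0 : Tendsto g atBot (𝓝 0)) (W : Finset ℝ)
    (hW : ∀ m ∈ W, ∀ b ∈ W, m < b → ∀ u : ℂ, ∃ ξ ∈ Icc m b, (u * g ξ).re = 0) :
    ∀ a : ℝ, (∀ γ ∈ W, γ ≤ a) → ∑ γ ∈ W, ‖g γ‖ ^ 2 ≤ 2 * ∫ t in Iic a, ‖g t‖ * ‖g' t‖ := by
  induction W using Finset.induction_on_max with
  | empty =>
    intro a _
    rw [Finset.sum_empty]
    have : 0 ≤ ∫ t in Iic a, ‖g t‖ * ‖g' t‖ := integral_nonneg fun t => by positivity
    linarith
  | insert b W hb ih =>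
    intro a ha
    have hba : b ≤ a := ha b (Finset.mem_insert_self _ _)
    have hnot : b ∉ W := fun h => lt_irrefl _ (hb b h)
    rw [Finset.sum_insert hnot]
    have ih' := ih fun m hm b' hb' => hW m (Finset.mem_insert_of_mem hm) b' (Finset.mem_insert_of_mem hb')
    have h5 := Iic_add hi (x := b) (y := a)
    have h6 : 0 ≤ ∫ t in b..a, ‖g t‖ * ‖g' t‖ :=
      intervalIntegral.integral_nonneg hba fun t _ => by positivity
    rcases W.eq_empty_or_nonempty with rfl | hne
    · rw [Finset.sum_empty, add_zero]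
      have h3 := from_left hg hg' hi h0 b
      linarith
    · set m := W.max' hne with hm
      have hmW : m ∈ W := Finset.max'_mem _ _
      have hmb : m < b := hb m hmW
      have h1 := ih' m fun γ hγ => Finset.le_max' _ _ hγ
      have h2 : ‖g b‖ ^ 2 ≤ 2 * ∫ t in m..b, ‖g t‖ * ‖g' t‖ := by
        obtain ⟨ξ, hξ, hξ0⟩ := hW m (Finset.mem_insert_of_mem hmW) b (Finset.mem_insert_self _ _) hmb
          ((starRingEnd ℂ) (g b))
        have q1 := re_change hg hg' hξ.2 _ hξ0
        have q2 : ((starRingEnd ℂ) (g b) * g b).re = ‖g b‖ ^ 2 := by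
          rw [mul_comm, Complex.mul_conj, Complex.ofReal_re, Complex.normSq_eq_norm_sq]
        rw [q2, RCLike.norm_conj] at q1
        have q3 : ∫ t in ξ..b, ‖g t‖ * ‖g' t‖ ≤ ∫ t in m..b, ‖g t‖ * ‖g' t‖ := by
          apply intervalIntegral.integral_mono_interval hξ.1 hξ.2 le_rfl
            (Eventually.of_forall fun t => by positivity)
          exact hi.intervalIntegrable
        rcases eq_or_lt_of_le (norm_nonneg (g b)) with q | q
        · rw [← q]
          have : 0 ≤ ∫ t in m..b, ‖g t‖ * ‖g' t‖ :=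
            intervalIntegral.integral_nonneg hmb.le fun t _ => by positivity
          simpa using this
        · have q4 : ‖g b‖ ^ 2 * ‖g b‖ ^ 2 ≤ ‖g b‖ ^ 2 * (2 * ∫ t in m..b, ‖g t‖ * ‖g' t‖) := by
            have := mul_le_mul_of_nonneg_left q3 (sq_nonneg ‖g b‖)
            nlinarith
          exact le_of_mul_le_mul_left q4 (by positivity)
      have h4 := Iic_add hi (x := m) (y := b)
      linarith

/-- Points separated by zeros. -/
theorem max_sum {g g' : ℝ → ℂ} (hg : ∀ x, HasDerivAt g (g' x) x) (hg' : Continuous g')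
    (hi : Integrable fun t => ‖g t‖ * ‖g' t‖) (h0 : Tendsto g atBot (𝓝 0)) (W : Finset ℝ)
    (hW : ∀ m ∈ W, ∀ b ∈ W, m < b → ∃ ξ ∈ Icc m b, g ξ = 0) :
    ∀ a : ℝ, (∀ γ ∈ W, γ ≤ a) →
      ∑ γ ∈ W, ‖g γ‖ ^ 2 ≤ (∫ t in Iic a, ‖g t‖ * ‖g' t‖) + ‖g a‖ ^ 2 / 2 := by
  induction W using Finset.induction_on_max with
  | empty =>
    intro a _
    rw [Finset.sum_empty]
    have : 0 ≤ ∫ t in Iic a, ‖g t‖ * ‖g' t‖ := integral_nonneg fun t => by positivity
    positivity
  | insert b W hb ih =>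
    intro a ha
    have hba : b ≤ a := ha b (Finset.mem_insert_self _ _)
    have hnot : b ∉ W := fun h => lt_irrefl _ (hb b h)
    rw [Finset.sum_insert hnot]
    have ih' := ih fun m hm b' hb' => hW m (Finset.mem_insert_of_mem hm) b' (Finset.mem_insert_of_mem hb')
    have h5 := Iic_add hi (x := b) (y := a)
    have h6 := (abs_le.1 (sq_change hg hg' hba)).1
    rcases W.eq_empty_or_nonempty with rfl | hne
    · rw [Finset.sum_empty, add_zero]
      have h3 := from_left hg hg' hi h0 b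
      linarith
    · set m := W.max' hne with hm
      have hmW : m ∈ W := Finset.max'_mem _ _
      have hmb : m < b := hb m hmW
      obtain ⟨ξ, hξ, hξ0⟩ := hW m (Finset.mem_insert_of_mem hmW) b (Finset.mem_insert_self _ _) hmb
      have h1 := ih' ξ fun γ hγ => (Finset.le_max' _ _ hγ).trans hξ.1
      have h2 := (abs_le.1 (sq_change hg hg' hξ.2)).2
      rw [hξ0, norm_zero, zero_pow two_ne_zero] at h1 h2
      have h4 := Iic_add hi (x := ξ) (y := b)
      linarith

/-- Points separated by zeros, on the whole line. -/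
theorem max_sum' {g g' : ℝ → ℂ} (hg : ∀ x, HasDerivAt g (g' x) x) (hg' : Continuous g')
    (hi : Integrable fun t => ‖g t‖ * ‖g' t‖) (h0 : Tendsto g atBot (𝓝 0)) (h1 : Tendsto g atTop (𝓝 0))
    (W : Finset ℝ) (hW : ∀ m ∈ W, ∀ b ∈ W, m < b → ∃ ξ ∈ Icc m b, g ξ = 0) :
    ∑ γ ∈ W, ‖g γ‖ ^ 2 ≤ ∫ t, ‖g t‖ * ‖g' t‖ := by
  have h2 : Tendsto (fun a => (∫ t, ‖g t‖ * ‖g' t‖) + ‖g a‖ ^ 2 / 2) atTop
      (𝓝 ((∫ t, ‖g t‖ * ‖g' t‖) + ‖(0 : ℂ)‖ ^ 2 / 2)) :=
    ((h1.norm.pow 2).div_const 2).const_add _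
  rw [norm_zero, zero_pow two_ne_zero, zero_div, add_zero] at h2
  apply ge_of_tendsto h2
  obtain ⟨A, hA⟩ : ∃ A : ℝ, ∀ γ ∈ W, γ ≤ A := by
    rcases W.eq_empty_or_nonempty with rfl | hne
    · exact ⟨0, fun γ hγ => absurd hγ (Finset.notMem_empty _)⟩
    · exact ⟨W.max' hne, fun γ hγ => Finset.le_max' _ _ hγ⟩
  filter_upwards [eventually_ge_atTop A] with a ha
  have h3 := max_sum hg hg' hi h0 W hW a fun γ hγ => (hA γ hγ).trans ha
  have h4 : ∫ t in Iic a, ‖g t‖ * ‖g' t‖ ≤ ∫ t, ‖g t‖ * ‖g' t‖ :=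
    setIntegral_le_integral hi (Eventually.of_forall fun t => by positivity)
  linarith

/-- The Cauchy-Schwarz inequality on a set. -/
theorem cs_set {g h : ℝ → ℂ} (hg : Continuous g) (hh : Continuous h)
    (ig : Integrable fun t => ‖g t‖ ^ 2) (ih : Integrable fun t => ‖h t‖ ^ 2) {s : Set ℝ}
    (hs : MeasurableSet s) {A B : ℝ} (hA : ∫ t in s, ‖g t‖ ^ 2 ≤ A) (hB : ∫ t, ‖h t‖ ^ 2 ≤ B) :
    Integrable (fun t => ‖g t‖ * ‖h t‖) ∧ ∫ t in s, ‖g t‖ * ‖h t‖ ≤ √A * √B := by
  have i1 : Integrable (fun t => ‖g t‖ * ‖h t‖) := by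
    refine (ig.add ih).mono' (by fun_prop) (Eventually.of_forall fun t => ?_)
    rw [Real.norm_of_nonneg (by positivity)]
    simp only [Pi.add_apply]
    nlinarith [sq_nonneg (‖g t‖ - ‖h t‖), sq_nonneg ‖g t‖, sq_nonneg ‖h t‖]
  refine ⟨i1, ?_⟩
  have hA0 : 0 ≤ A := le_trans (integral_nonneg fun t => by positivity) hA
  have hB' : ∫ t in s, ‖h t‖ ^ 2 ≤ B :=
    (setIntegral_le_integral ih (Eventually.of_forall fun t => by positivity)).trans hB
  have hB0 : 0 ≤ B := le_trans (integral_nonneg fun t => by positivity) hB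
  -- for every positive parameter
  have key : ∀ a b : ℝ, 0 < a → 0 < b → A ≤ a ^ 2 → B ≤ b ^ 2 → ∫ t in s, ‖g t‖ * ‖h t‖ ≤ a * b := by
    intro a b ha hb hAa hBb
    have h1 : ∫ t in s, ‖g t‖ * ‖h t‖ ≤ ∫ t in s, (b / (2 * a) * ‖g t‖ ^ 2 + a / (2 * b) * ‖h t‖ ^ 2) := by
      apply setIntegral_mono_on i1.integrableOn
        ((ig.const_mul _).add (ih.const_mul _)).integrableOn hs
      intro t _
      simp only [Pi.add_apply]
      have e : b / (2 * a) * ‖g t‖ ^ 2 + a / (2 * b) * ‖h t‖ ^ 2 - ‖g t‖ * ‖h t‖ =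
          (b * ‖g t‖ - a * ‖h t‖) ^ 2 / (2 * a * b) := by
        field_simp
        ring
      have : 0 ≤ (b * ‖g t‖ - a * ‖h t‖) ^ 2 / (2 * a * b) := by positivity
      linarith
    rw [integral_add (ig.const_mul _).integrableOn (ih.const_mul _).integrableOn, integral_const_mul,
      integral_const_mul] at h1
    have h2 : b / (2 * a) * ∫ t in s, ‖g t‖ ^ 2 ≤ b / (2 * a) * a ^ 2 :=
      mul_le_mul_of_nonneg_left (hA.trans hAa) (by positivity)
    have h3 : a / (2 * b) * ∫ t in s, ‖h t‖ ^ 2 ≤ a / (2 * b) * b ^ 2 :=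
      mul_le_mul_of_nonneg_left (hB'.trans hBb) (by positivity)
    have h4 : b / (2 * a) * a ^ 2 + a / (2 * b) * b ^ 2 = a * b := by
      field_simp
      ring
    linarith
  have h5 : Tendsto (fun e : ℝ => (√A + e) * (√B + e)) (𝓝[>] 0) (𝓝 ((√A + 0) * (√B + 0))) := by
    apply Tendsto.mono_left _ nhdsWithin_le_nhds
    have : Continuous fun e : ℝ => (√A + e) * (√B + e) := by fun_prop
    exact this.tendsto 0
  rw [add_zero, add_zero] at h5
  apply ge_of_tendsto h5
  filter_upwards [self_mem_nhdsWithin] with e he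
  have he0 : (0 : ℝ) < e := he
  apply key _ _ (by positivity) (by positivity)
  · have := Real.sq_sqrt hA0
    have h6 := Real.sqrt_nonneg A
    nlinarith
  · have := Real.sq_sqrt hB0
    have h6 := Real.sqrt_nonneg B
    nlinarith

end

end U345Z
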