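import Pool.Agent.U345.ZC
import Pool.Agent.U345.ZG
import Pool.Agent.U345.ZI
import Pool.Agent.U345.ZR

/-!
# The derivatives of the centred function and their mean squares
-/

set_option autoImplicit false

open MeasureTheory Filter Topology Complex FourierTransform ComplexConjugate

namespace U345Z

open Q97.MM

noncomputable section

theorem pow_sub_le {x y : ℝ} (hy : 0 ≤ y) (hxy : y ≤ x) (n : ℕ) :
    x ^ (n + 1) - y ^ (n + 1) ≤ (n + 1) * (x - y) * x ^ n := by
  have hx : 0 ≤ x := hy.trans hxy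
  induction n with
  | zero => simp
  | succ m ih =>
    have h1 : x ^ (m + 1 + 1) - y ^ (m + 1 + 1) =
        x * (x ^ (m + 1) - y ^ (m + 1)) + (x - y) * y ^ (m + 1) := by ring
    have h2 := mul_le_mul_of_nonneg_left ih hx
    have h3 : (x - y) * y ^ (m + 1) ≤ (x - y) * x ^ (m + 1) :=
      mul_le_mul_of_nonneg_left (pow_le_pow_left₀ hy hxy _) (by linarith)
    rw [h1]
    push_cast
    have h4 : x * ((m + 1) * (x - y) * x ^ m) + (x - y) * x ^ (m + 1) =
        ((m : ℝ) + 1 + 1) * (x - y) * x ^ (m + 1) := by ring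
    linarith

/-- Even powers are bounded by their values on an interval and exponentials. -/
theorem pow_le_exp2 {k η : ℝ} (hk : 0 ≤ k) (hη : 0 < η) (j : ℕ) : ∃ a : ℝ, 0 < a ∧ ∀ v : ℝ,
    v ^ (2 * j) ≤ k ^ (2 * j) + η * (Real.exp (a * (v - k)) + Real.exp (-(a * (v + k)))) := by
  set n := 2 * j with hn
  set b := n * (k + 1) ^ n / η + 1 with hb
  have hb1 : 1 ≤ b := by
    rw [hb]
    have : 0 ≤ n * (k + 1) ^ n / η := by positivity
    linarith
  have hb0 : 0 < b := by linarith
  have key : ∀ w : ℝ, 0 ≤ w → (k + w) ^ n ≤ k ^ n + η * Real.exp ((n + b) * w) := by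
    intro w hw
    rcases Nat.eq_zero_or_pos n with h0 | h0
    · rw [h0, pow_zero, pow_zero]
      have : 0 < η * Real.exp (((0 : ℕ) + b) * w) := by positivity
      linarith
    · obtain ⟨m, hm⟩ : ∃ m, n = m + 1 := ⟨n - 1, by omega⟩
      have h1 := pow_sub_le hk (show k ≤ k + w by linarith) m
      rw [← hm] at h1
      have h2 : (k + w) ^ m ≤ (k + 1) ^ n * Real.exp (n * w) := by
        have e1 : k + w ≤ (k + 1) * Real.exp w := by
          have e2 := Real.add_one_le_exp w
          have e3 : (k + 1) * (w + 1) ≤ (k + 1) * Real.exp w :=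
            mul_le_mul_of_nonneg_left e2 (by linarith)
          nlinarith [mul_nonneg hk hw]
        have e4 : 1 ≤ (k + 1) * Real.exp w := by
          have e5 := Real.one_le_exp hw
          nlinarith
        calc (k + w) ^ m ≤ ((k + 1) * Real.exp w) ^ m := pow_le_pow_left₀ (by linarith) e1 _
          _ ≤ ((k + 1) * Real.exp w) ^ n := pow_le_pow_right₀ e4 (by omega)
          _ = _ := by rw [mul_pow, ← Real.exp_nat_mul]
      have h3 : w ≤ Real.exp (b * w) / b := by
        rw [le_div_iff₀ hb0]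
        have := Real.add_one_le_exp (b * w)
        linarith
      have h4 : ((m : ℝ) + 1) * (k + w - k) * (k + w) ^ m ≤
          n * (Real.exp (b * w) / b) * ((k + 1) ^ n * Real.exp (n * w)) := by
        have e6 : ((m : ℝ) + 1) = n := by rw [hm]; push_cast; ring
        rw [e6, add_sub_cancel_left]
        gcongr
      have h5 : n * (Real.exp (b * w) / b) * ((k + 1) ^ n * Real.exp (n * w)) =
          (n * (k + 1) ^ n / b) * Real.exp ((n + b) * w) := by
        have : Real.exp ((n + b) * w) = Real.exp (b * w) * Real.exp (n * w) := by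
          rw [← Real.exp_add]; congr 1; ring
        rw [this]
        ring
      have h6 : n * (k + 1) ^ n / b ≤ η := by
        rw [div_le_iff₀ hb0, hb, mul_add, mul_one, mul_div_cancel₀ _ hη.ne']
        linarith
      have h7 := mul_le_mul_of_nonneg_right h6 (Real.exp_pos ((n + b) * w)).le
      linarith
  refine ⟨n + b, by positivity, fun v => ?_⟩
  have p1 := Real.exp_pos ((n + b) * (v - k))
  have p2 := Real.exp_pos (-((n + b) * (v + k)))
  have hev : Even n := by rw [hn]; exact even_two_mul j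
  rcases le_total k v with h1 | h1
  · have h2 := key (v - k) (by linarith)
    rw [add_sub_cancel] at h2
    nlinarith
  · rcases le_total (-k) v with h2 | h2
    · have h3 : v ^ n ≤ k ^ n := by
        rw [← hev.pow_abs]
        exact pow_le_pow_left₀ (abs_nonneg _) (abs_le.2 ⟨h2, h1⟩) _
      have : 0 ≤ η * (Real.exp ((n + b) * (v - k)) + Real.exp (-((n + b) * (v + k)))) := by positivity
      linarith
    · have h3 := key (-v - k) (by linarith)
      rw [add_sub_cancel, hev.neg_pow] at h3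
      have e : (n + b) * (-v - k) = -((n + b) * (v + k)) := by ring
      rw [e] at h3
      nlinarith

variable (k : ℕ)

/-- the centred function -/
def HH (T U : ℝ) (s : ℂ) : ℂ := cexp (((k * Real.log T / 2 : ℝ) : ℂ) * (s - 1 / 2)) * FF k T U s

theorem HH_differentiable (T U : ℝ) : Differentiable ℂ (HH k T U) := by
  have h1 : Differentiable ℂ (fun s : ℂ => cexp (((k * Real.log T / 2 : ℝ) : ℂ) * (s - 1 / 2))) := by
    fun_prop
  exact h1.mul (FF_differentiable k T U)

theorem HH_norm (T U x y : ℝ) : ‖HH k T U (x + y * I)‖ =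
    Real.exp (k * Real.log T / 2 * (x - 1 / 2)) * ‖FF k T U (x + y * I)‖ := by
  unfold HH
  rw [norm_mul, Complex.norm_exp]
  congr 2
  rw [Complex.re_ofReal_mul]
  congr 1
  simp

theorem HH_bd (T : ℝ) {U : ℝ} (hT : 1 ≤ T) (hU : 0 < U) : ∃ M δ : ℝ, 0 ≤ M ∧ 0 < δ ∧
    ∀ x y : ℝ, 1 / 4 ≤ x → x ≤ 3 → ‖HH k T U (x + y * I)‖ ≤ M * Real.exp (-δ * y ^ 2) := by
  obtain ⟨M, δ, hM, hδ, hbd⟩ := FF_bd k T hU
  have hL := Real.log_nonneg hT
  refine ⟨Real.exp (k * Real.log T / 2 * (5 / 2)) * M, δ, by positivity, hδ, fun x y h1 h2 => ?_⟩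
  rw [HH_norm, mul_assoc]
  apply mul_le_mul _ (hbd x y h1 h2) (norm_nonneg _) (Real.exp_pos _).le
  apply Real.exp_le_exp.2
  exact mul_le_mul_of_nonneg_left (by linarith) (by positivity)

theorem VI_HH (T U x : ℝ) :
    VI (HH k T U) x = Real.exp (k * Real.log T * (x - 1 / 2)) * VI (FF k T U) x := by
  unfold VI
  rw [← integral_const_mul]
  refine integral_congr_ae (Eventually.of_forall fun y => ?_)
  beta_reduce
  rw [HH_norm, mul_pow, ← Real.exp_nat_mul]
  congr 2
  push_cast
  ring

/-- the derivatives on the critical line -/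
def gg (j : ℕ) (T U y : ℝ) : ℂ := iteratedDeriv j (HH k T U) (((1 / 2 : ℝ) : ℂ) + y * I)

theorem gg_deriv (j : ℕ) (T U y : ℝ) : HasDerivAt (gg k j T U) (I * gg k (j + 1) T U y) y := by
  have h := ln_hasDerivAt (iter_entire (HH_differentiable k T U) j) (1 / 2) y
  unfold gg
  rw [iteratedDeriv_succ]
  exact h

theorem gg_cont (j : ℕ) (T U : ℝ) : Continuous (gg k j T U) :=
  continuous_iff_continuousAt.2 fun x => (gg_deriv k j T U x).continuousAt

theorem gg_decay (j : ℕ) {T U : ℝ} (hA : Adm T U) :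
    Tendsto (gg k j T U) atTop (𝓝 0) ∧ Tendsto (gg k j T U) atBot (𝓝 0) := by
  obtain ⟨M, δ, hM, hδ, hbd⟩ := HH_bd k T (by linarith [hA.1]) hA.pos
  obtain ⟨M', δ', hM', hδ', hb⟩ := iter_bd (HH_differentiable k T U) hδ hM hbd j (3 / 8) 1
    (by norm_num) (by norm_num)
  have h1 : ∀ y, ‖gg k j T U y‖ ≤ M' * Real.exp (-δ' * y ^ 2) := fun y =>
    hb (1 / 2) y (by norm_num) (by norm_num)
  have hlim : ∀ l : Filter ℝ, Tendsto (fun y : ℝ => y ^ 2) l atTop →
      Tendsto (fun y : ℝ => M' * Real.exp (-δ' * y ^ 2)) l (𝓝 0) := by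
    intro l hl
    have h2 : Tendsto (fun y : ℝ => -δ' * y ^ 2) l atBot := hl.const_mul_atTop_of_neg (by linarith)
    have h3 := (Real.tendsto_exp_atBot.comp h2).const_mul M'
    rwa [mul_zero] at h3
  constructor
  · exact squeeze_zero_norm h1 (hlim _ (tendsto_pow_atTop two_ne_zero))
  · apply squeeze_zero_norm h1 (hlim _ _)
    have := (tendsto_pow_atTop (α := ℝ) two_ne_zero).comp tendsto_neg_atBot_atTop
    refine this.congr fun y => ?_
    simp

/-- **The mean squares of the derivatives.** -/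
theorem specN (j : ℕ) {ε : ℝ} (hε : 0 < ε) : ∀ᶠ T : ℝ in atTop, ∀ U : ℝ, Adm T U →
    Integrable (fun y => ‖gg k j T U y‖ ^ 2) ∧
    ∫ y, ‖gg k j T U y‖ ^ 2 ≤ (Real.log T / 2) ^ (2 * j) * (((k : ℝ) ^ (2 * j) + ε) * V0 k T U) := by
  have hk0 : (0 : ℝ) ≤ k := Nat.cast_nonneg k
  obtain ⟨a, ha0, ha⟩ := pow_le_exp2 hk0 (show 0 < ε / 5 by positivity) j
  filter_upwards [Gn_le k ha0.le one_pos, G_fe k a one_pos,
    (log_div_tendsto a).eventually (gt_mem_nhds (show (0 : ℝ) < 1 / 4 by norm_num))] with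
    T h1 h2 h3 U hA
  have hL := hA.log
  have hL0 : 0 < Real.log T := by linarith
  have hV0 := V0_pos k hA
  obtain ⟨M, δ, hM, hδ, hbd⟩ := HH_bd k T (by linarith [hA.1]) hA.pos
  have hdiff := HH_differentiable k T U
  have h4 := abs_lt.1 h3
  have r1 := rep (c := 1 / 2) (x := 1 / 2 + a / Real.log T) hdiff hδ hM hbd (by norm_num)
    (by norm_num) (by linarith) (by linarith)
  have r2 := rep (c := 1 / 2) (x := 1 / 2 + -a / Real.log T) hdiff hδ hM hbd (by norm_num)
    (by norm_num) (by rw [neg_div]; linarith) (by rw [neg_div]; linarith)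
  have r0 := rep (c := 1 / 2) (x := 1 / 2) hdiff hδ hM hbd (by norm_num)
    (by norm_num) (by norm_num) (by norm_num)
  have g1 : VI (HH k T U) (1 / 2 + a / Real.log T) = Real.exp (k * a) * (Gn k T U a * V0 k T U) := by
    rw [VI_HH]
    unfold Gn
    rw [div_mul_cancel₀ _ hV0.ne']
    congr 2
    field_simp
    ring
  have g2 : VI (HH k T U) (1 / 2 + -a / Real.log T) =
      Real.exp (-(k * a)) * (Gn k T U (-a) * V0 k T U) := by
    rw [VI_HH]
    unfold Gn
    rw [div_mul_cancel₀ _ hV0.ne']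
    congr 2
    field_simp
    ring
  have g0 : VI (HH k T U) (1 / 2) = V0 k T U := by
    rw [VI_HH, sub_self, mul_zero, Real.exp_zero, one_mul]
    rfl
  rw [g1] at r1
  rw [g2] at r2
  rw [g0] at r0
  obtain ⟨p1, p2⟩ := corr_iter (c := 1 / 2) (z := 0) (w := 0) hdiff hδ hM hbd (by norm_num)
    (by norm_num) (by norm_num) (by norm_num) (by norm_num) (by norm_num) j j
  have etl : tl (iteratedDeriv j (HH k T U)) (1 / 2) 0 = gg k j T U := by
    funext y
    unfold tl gg
    rw [add_zero]
  rw [etl] at p1 p2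
  have i1 : Integrable (fun y => ‖gg k j T U y‖ ^ 2) :=
    (memLp_two_iff_integrable_sq_norm p1.aestronglyMeasurable).mp p1
  refine ⟨i1, ?_⟩
  have e0 : ∫ y, ‖gg k j T U y‖ ^ 2 = ∫ ξ : ℝ, (2 * Real.pi * ξ) ^ (2 * j) * dens (HH k T U) (1 / 2) ξ := by
    have q1 : ((∫ y, ‖gg k j T U y‖ ^ 2 : ℝ) : ℂ) =
        ((∫ ξ : ℝ, (2 * Real.pi * ξ) ^ (2 * j) * dens (HH k T U) (1 / 2) ξ : ℝ) : ℂ) := by
      rw [← integral_complex_ofReal, ← integral_complex_ofReal]
      calc ∫ y, ((‖gg k j T U y‖ ^ 2 : ℝ) : ℂ) = ∫ y, gg k j T U y * conj (gg k j T U y) := by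
            refine integral_congr_ae (Eventually.of_forall fun y => ?_)
            beta_reduce
            rw [Complex.mul_conj, Complex.normSq_eq_norm_sq]
        _ = _ := p2
        _ = _ := by
            refine integral_congr_ae (Eventually.of_forall fun ξ => ?_)
            beta_reduce
            rw [map_zero, add_zero, mul_zero, Complex.exp_zero, mul_one, ← two_mul]
            push_cast
            ring
    exact_mod_cast q1
  rw [e0]
  have hpt : ∀ ξ : ℝ, (2 * Real.pi * ξ) ^ (2 * j) * dens (HH k T U) (1 / 2) ξ ≤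
      (Real.log T / 2) ^ (2 * j) * ((k : ℝ) ^ (2 * j) *
        (Real.exp (4 * Real.pi * ξ * (1 / 2 - 1 / 2)) * dens (HH k T U) (1 / 2) ξ) +
      ε / 5 * (Real.exp (-(k * a)) * (Real.exp (4 * Real.pi * ξ * (1 / 2 + a / Real.log T - 1 / 2)) *
          dens (HH k T U) (1 / 2) ξ) +
        Real.exp (-(k * a)) * (Real.exp (4 * Real.pi * ξ * (1 / 2 + -a / Real.log T - 1 / 2)) *
          dens (HH k T U) (1 / 2) ξ))) := by
    intro ξ
    have hd := dens_nonneg (HH k T U) (1 / 2) ξ
    have h5 := ha (4 * Real.pi * ξ / Real.log T)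
    have e1 : (2 * Real.pi * ξ) ^ (2 * j) =
        (Real.log T / 2) ^ (2 * j) * (4 * Real.pi * ξ / Real.log T) ^ (2 * j) := by
      rw [← mul_pow]
      congr 1
      field_simp
      ring
    have e2 : Real.exp (a * (4 * Real.pi * ξ / Real.log T - k)) =
        Real.exp (-(k * a)) * Real.exp (4 * Real.pi * ξ * (1 / 2 + a / Real.log T - 1 / 2)) := by
      rw [← Real.exp_add]
      congr 1
      ring
    have e3 : Real.exp (-(a * (4 * Real.pi * ξ / Real.log T + k))) =
        Real.exp (-(k * a)) * Real.exp (4 * Real.pi * ξ * (1 / 2 + -a / Real.log T - 1 / 2)) := by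
      rw [← Real.exp_add]
      congr 1
      ring
    have e4 : Real.exp (4 * Real.pi * ξ * (1 / 2 - 1 / 2)) = 1 := by simp
    rw [e2, e3] at h5
    rw [e1, e4, mul_assoc]
    apply mul_le_mul_of_nonneg_left _ (by positivity)
    calc _ ≤ _ := mul_le_mul_of_nonneg_right h5 hd
      _ = _ := by ring
  have hdc := dens_measurable hdiff hδ hbd (c := 1 / 2) (by norm_num) (by norm_num)
  have ibig := (((r0.1.const_mul ((k : ℝ) ^ (2 * j))).add
    (((r1.1.const_mul (Real.exp (-(k * a)))).add
      (r2.1.const_mul (Real.exp (-(k * a))))).const_mul (ε / 5))).const_mul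
      ((Real.log T / 2) ^ (2 * j)))
  have d2 : Integrable (fun ξ : ℝ => (2 * Real.pi * ξ) ^ (2 * j) * dens (HH k T U) (1 / 2) ξ) := by
    refine ibig.mono' ?_ (Eventually.of_forall fun ξ => ?_)
    · apply Measurable.aestronglyMeasurable
      exact ((by fun_prop : Measurable fun ξ : ℝ => (2 * Real.pi * ξ) ^ (2 * j))).mul hdc.measurable
    · rw [Real.norm_of_nonneg (mul_nonneg ((even_two_mul j).pow_nonneg _) (dens_nonneg _ _ _))]
      exact hpt ξ
  have hI := integral_mono d2 ibig hpt
  refine hI.trans ?_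
  rw [integral_const_mul]
  apply mul_le_mul_of_nonneg_left _ (by positivity)
  have s1 := integral_add (r0.1.const_mul ((k : ℝ) ^ (2 * j)))
    (((r1.1.const_mul (Real.exp (-(k * a)))).add
      (r2.1.const_mul (Real.exp (-(k * a))))).const_mul (ε / 5))
  have s2 := integral_add (r1.1.const_mul (Real.exp (-(k * a)))) (r2.1.const_mul (Real.exp (-(k * a))))
  simp only [Pi.add_apply] at s1
  rw [integral_const_mul, integral_const_mul, s2, integral_const_mul, integral_const_mul, r0.2, r1.2,
    r2.2] at s1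
  refine (le_of_eq s1).trans ?_
  have b1 := h1 U hA
  have b2 := (abs_le.1 (h2 U hA)).2
  have e6 : Real.exp (-(k * a)) * Real.exp (k * a) = 1 := by
    rw [← Real.exp_add, neg_add_cancel, Real.exp_zero]
  have e8 : Real.exp (-(k * a)) * Real.exp (-(k * a)) = Real.exp (-(2 * k * a)) := by
    rw [← Real.exp_add]
    congr 1
    ring
  have b3 : Real.exp (-(2 * k * a)) * Gn k T U (-a) ≤ 3 := by
    have e6 : Real.exp (-(2 * k * a)) * Real.exp (2 * k * a) = 1 := by
      rw [← Real.exp_add, neg_add_cancel, Real.exp_zero]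
    have p3 := Real.exp_pos (-(2 * k * a))
    have e7 : Real.exp (-(2 * k * a)) ≤ 1 := by
      rw [Real.exp_le_one_iff]
      have : 0 ≤ 2 * k * a := by positivity
      linarith
    have b4 : Gn k T U (-a) ≤ 1 + Real.exp (2 * k * a) * Gn k T U a := by linarith
    have b5 := mul_le_mul_of_nonneg_left b4 p3.le
    have b6 : Real.exp (-(2 * k * a)) * (1 + Real.exp (2 * k * a) * Gn k T U a) =
        Real.exp (-(2 * k * a)) + Gn k T U a := by
      linear_combination Gn k T U a * e6
    linarith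
  have b7 : Real.exp (-(k * a)) * (Real.exp (k * a) * (Gn k T U a * V0 k T U)) +
      Real.exp (-(k * a)) * (Real.exp (-(k * a)) * (Gn k T U (-a) * V0 k T U)) ≤ 5 * V0 k T U := by
    have c1 : Real.exp (-(k * a)) * (Real.exp (k * a) * (Gn k T U a * V0 k T U)) +
      Real.exp (-(k * a)) * (Real.exp (-(k * a)) * (Gn k T U (-a) * V0 k T U)) =
      (Gn k T U a + Real.exp (-(2 * k * a)) * Gn k T U (-a)) * V0 k T U := by
      linear_combination (Gn k T U a * V0 k T U) * e6 + (Gn k T U (-a) * V0 k T U) * e8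
    rw [c1]
    exact mul_le_mul_of_nonneg_right (by linarith) hV0.le
  have b8 := mul_le_mul_of_nonneg_left b7 (show 0 ≤ ε / 5 by positivity)
  have b9 : ε / 5 * (5 * V0 k T U) = ε * V0 k T U := by ring
  linarith

end

end U345Z
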