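import Pool.Agent.U345.ZS

/-!
# The derivatives of the centred function far from the centre of the window
-/

set_option autoImplicit false

open MeasureTheory Filter Topology Complex FourierTransform ComplexConjugate

namespace U345Z

open Q97.MM

noncomputable section

variable (k : ℕ)

theorem far_FF (B : ℕ) {η ε : ℝ} (hη : 0 < η) (hε : 0 < ε) : ∀ᶠ T : ℝ in atTop, ∀ U : ℝ, Adm T U →
    ∀ z : ℂ, ‖z‖ ≤ 1 → ∀ y : ℝ, η * T ≤ |y - T| →
    (1 + T) ^ B * ‖FF k T U (sp T z y)‖ ^ 2 ≤ ε * aw (2 * (2 * k)) T U y := by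
  have htail := (tail_tendsto (B + 2 * (2 * k)) (show 0 < η / 2 by positivity)).const_mul
    (720 ^ (2 * k) * Real.exp (5 * 1 ^ 2 + 2 * 1))
  rw [mul_zero] at htail
  filter_upwards [htail.eventually (gt_mem_nhds hε),
    (log_div_tendsto 1).eventually (gt_mem_nhds (show (0 : ℝ) < 1 / 4 by positivity))] with
    T h1 h2 U hA z hz y hy
  set R : ℝ := 1 with hR1
  have hR : (0 : ℝ) ≤ R := zero_le_one
  have hT : 0 < T := by linarith [hA.1]
  have hT1 : 1 ≤ T := by linarith [hA.1]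
  have hU := hA.pos
  have hU1 := hA.2.1
  have hL := hA.log
  set L := Real.log T with hLd
  have hL0 : 0 < L := by linarith
  have hRL : |R / L| = R / L := abs_of_nonneg (by positivity)
  rw [hRL] at h2
  have hRL1 : R / L < 1 / 4 := h2
  have hzL : ‖z / (L : ℂ)‖ ≤ R / L := by
    rw [norm_div, Complex.norm_real, Real.norm_of_nonneg hL0.le]
    exact div_le_div_of_nonneg_right hz hL0.le
  have hre := abs_le.1 ((Complex.abs_re_le_norm (z / (L : ℂ))).trans hzL)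
  have him := abs_le.1 ((Complex.abs_im_le_norm (z / (L : ℂ))).trans hzL)
  set s := sp T z y with hs
  have hs' : s = ((1 / 2 + (z / (L : ℂ)).re : ℝ) : ℂ) + ((y + (z / (L : ℂ)).im : ℝ) : ℂ) * I := by
    rw [hs, sp, ← hLd]
    conv_lhs => rw [← Complex.re_add_im (z / (L : ℂ))]
    push_cast
    ring
  have haw := aw_nonneg (2 * (2 * k)) T U y
  -- the exponent
  set e : ℂ := (2 * ((y - T : ℝ) : ℂ) * I * (z / L) + (z / L) ^ 2) / (2 * (U : ℂ) ^ 2) with he
  have hUc : (U : ℂ) ≠ 0 := Complex.ofReal_ne_zero.2 hU.ne'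
  have hF : FF k T U s = Z1 s ^ k * ((sw T U y : ℂ) * cexp e) := by
    unfold FF
    congr 1
    rw [sw, Complex.ofReal_exp, ← Complex.exp_add]
    congr 1
    rw [he, hs, sp, ← hLd]
    generalize z / (L : ℂ) = v
    have e0 : ((1 / 2 : ℝ) : ℂ) + y * I + v - 1 / 2 - T * I = ((y - T : ℝ) : ℂ) * I + v := by
      push_cast
      ring
    have e1 : (((y - T : ℝ) : ℂ) * I + v) ^ 2 =
        -((y - T : ℝ) : ℂ) ^ 2 + (2 * ((y - T : ℝ) : ℂ) * I * v + v ^ 2) := by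
      linear_combination ((y - T : ℝ) : ℂ) ^ 2 * Complex.I_sq
    rw [e0, e1, add_div]
    congr 1
    push_cast
    rw [div_pow]
    ring
  have hne : ‖e‖ ≤ (|(y - T) / U| * R / L + R / L) := by
    rw [he, norm_div]
    have e1 : ‖2 * (U : ℂ) ^ 2‖ = 2 * U ^ 2 := by
      rw [norm_mul, norm_pow, Complex.norm_real, Real.norm_of_nonneg hU.le]
      norm_num
    rw [e1, div_le_iff₀ (by positivity)]
    have e2 : ‖2 * ((y - T : ℝ) : ℂ) * I * (z / L) + (z / L) ^ 2‖ ≤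
        2 * |y - T| * (R / L) + (R / L) ^ 2 := by
      refine (norm_add_le _ _).trans ?_
      rw [norm_mul, norm_mul, norm_mul, norm_pow, Complex.norm_I, mul_one, Complex.norm_real,
        Real.norm_eq_abs]
      have : ‖(2 : ℂ)‖ = 2 := by norm_num
      rw [this]
      gcongr
    refine e2.trans ?_
    have e3 : |y - T| = |(y - T) / U| * U := by
      rw [abs_div, abs_of_pos hU]
      field_simp
    rw [e3]
    have p1 : 0 ≤ |(y - T) / U| := abs_nonneg _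
    have p2 : 0 ≤ R / L := by positivity
    have p3 : U ≤ U ^ 2 := by nlinarith
    have p4 : (1 : ℝ) ≤ U ^ 2 := by nlinarith
    have p5 : (R / L) ^ 2 ≤ R / L := by nlinarith
    have p6 : 2 * (|(y - T) / U| * U) * (R / L) ≤ 2 * U ^ 2 * (|(y - T) / U| * (R / L)) := by
      have : 0 ≤ |(y - T) / U| * (R / L) := by positivity
      nlinarith
    have p7 : (R / L) ^ 2 ≤ 2 * U ^ 2 * (R / L) := by nlinarith
    calc _ ≤ 2 * U ^ 2 * (|(y - T) / U| * (R / L)) + 2 * U ^ 2 * (R / L) := add_le_add p6 p7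
      _ = _ := by ring
  set X := |(y - T) / U| with hXd
  have hX0 : 0 ≤ X := abs_nonneg _
  have hX : η * L ≤ X := by
    rw [hXd, abs_div, abs_of_pos hU, le_div_iff₀ hU]
    have hUL : U * L ≤ T := by
      have := hA.2.2
      rwa [le_div_iff₀ hL0] at this
    have := mul_le_mul_of_nonneg_left hUL hη.le
    linarith
  have habs : 1 + |y + (z / (L : ℂ)).im| ≤ 2 * (1 + |y|) := by
    have q1 := abs_add_le y (z / (L : ℂ)).im
    have q2 : |(z / (L : ℂ)).im| ≤ 1 / 4 := by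
      rw [abs_le]
      constructor <;> linarith [him.1, him.2]
    linarith [abs_nonneg y]
  have hZb : ‖Z1 s‖ ≤ 180 * (1 + |y|) ^ 2 := by
    have q1 := Z1_growth (x := 1 / 2 + (z / (L : ℂ)).re) (y := y + (z / (L : ℂ)).im)
      (by linarith) (by linarith)
    rw [← hs'] at q1
    have q2 := pow_le_pow_left₀ (by positivity) habs 2
    nlinarith
  have hexp : ‖cexp e‖ ≤ Real.exp (X * R + R) := by
    refine (Complex.norm_exp_le_exp_norm e).trans (Real.exp_le_exp.2 (hne.trans ?_))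
    apply add_le_add
    · rw [div_le_iff₀ hL0]
      have : 0 ≤ X * R := by positivity
      nlinarith
    · rw [div_le_iff₀ hL0]
      nlinarith
  set E := Real.exp (-((η / 2 * L) ^ 2 / 2)) with hE
  set Y := Real.exp (-(((y - T) / U) ^ 2 / 2)) with hY
  have hXsq : ((y - T) / U) ^ 2 = X ^ 2 := (sq_abs _).symm
  have hw1 : wt T U y * Real.exp (X * R + R) ^ 2 ≤ Real.exp (5 * R ^ 2 + 2 * R) * (E * Y) := by
    rw [wt, hE, hY, ← Real.exp_nat_mul, ← Real.exp_add, ← Real.exp_add, ← Real.exp_add, hXsq]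
    apply Real.exp_le_exp.2
    have q1 : (η * L) ^ 2 ≤ X ^ 2 := pow_le_pow_left₀ (by positivity) hX 2
    push_cast
    nlinarith [sq_nonneg (3 * X - 8 * R), sq_nonneg R]
  have hw0 := wt_pos T U y
  set Q := 720 ^ (2 * k) * (1 + |y|) ^ (2 * (2 * k)) with hQ
  have hQ0 : 0 ≤ Q := by positivity
  have c1 : ‖FF k T U s‖ ^ 2 ≤ Q * (wt T U y * Real.exp (X * R + R) ^ 2) := by
    rw [hF, norm_mul, norm_mul, norm_pow, Complex.norm_real, Real.norm_of_nonneg (sw_pos _ _ _).le,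
      mul_pow, mul_pow, sw_sq, ← pow_mul, mul_comm k 2]
    apply mul_le_mul _ _ (by positivity) hQ0
    · calc ‖Z1 s‖ ^ (2 * k) ≤ (720 * (1 + |y|) ^ 2) ^ (2 * k) := by
            apply pow_le_pow_left₀ (norm_nonneg _)
            have : 0 ≤ (1 + |y|) ^ 2 := by positivity
            linarith
        _ = Q := by rw [hQ, mul_pow, ← pow_mul]
    · apply mul_le_mul_of_nonneg_left _ hw0.le
      exact pow_le_pow_left₀ (norm_nonneg _) hexp 2
  have c3 : Q * (wt T U y * Real.exp (X * R + R) ^ 2) ≤ 720 ^ (2 * k) *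
      Real.exp (5 * R ^ 2 + 2 * R) * ((1 + T) ^ (2 * (2 * k)) * E) * aw (2 * (2 * k)) T U y := by
    have d1 := abs_le_scaled hU hT.le hA.le y
    have d2 : (1 + |y|) ^ (2 * (2 * k)) ≤ ((1 + T) * (1 + |(y - T) / U|)) ^ (2 * (2 * k)) :=
      pow_le_pow_left₀ (by positivity) d1 _
    rw [mul_pow] at d2
    calc Q * (wt T U y * Real.exp (X * R + R) ^ 2)
        ≤ (720 ^ (2 * k) * ((1 + T) ^ (2 * (2 * k)) * (1 + |(y - T) / U|) ^ (2 * (2 * k)))) *
          (Real.exp (5 * R ^ 2 + 2 * R) * (E * Y)) := by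
          apply mul_le_mul _ hw1 (by positivity) (by positivity)
          rw [hQ]
          gcongr
      _ = _ := by
          unfold aw
          ring
  have c4 := mul_le_mul_of_nonneg_left (c1.trans c3) (show 0 ≤ (1 + T) ^ B by positivity)
  have c5 := mul_le_mul_of_nonneg_right h1.le haw
  calc _ ≤ _ := c4
    _ = 720 ^ (2 * k) * Real.exp (5 * R ^ 2 + 2 * R) *
        ((1 + T) ^ (B + 2 * (2 * k)) * E) * aw (2 * (2 * k)) T U y := by
        rw [pow_add]
        ring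
    _ ≤ _ := c5

/-- All derivatives are small far from the centre. -/
theorem far_gg (j B : ℕ) {η ε : ℝ} (hη : 0 < η) (hε : 0 < ε) : ∀ᶠ T : ℝ in atTop, ∀ U : ℝ,
    Adm T U → ∀ y : ℝ, η * T ≤ |y - T| →
    (1 + T) ^ B * ‖gg k j T U y‖ ^ 2 ≤ ε * aw (2 * (2 * k)) T U y := by
  have hjf : (0 : ℝ) < j.factorial := by exact_mod_cast Nat.factorial_pos j
  set D : ℝ := (j.factorial : ℝ) ^ 2 * Real.exp k with hD
  have hD0 : 0 < D := by positivity
  filter_upwards [far_FF k (B + 2 * j) hη (show 0 < ε / D by positivity),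
    (log_div_tendsto 1).eventually (gt_mem_nhds (show (0 : ℝ) < 1 / 4 by positivity))] with
    T h1 h2 U hA y hy
  have hT : 0 < T := by linarith [hA.1]
  have hL := hA.log
  have hL0 : 0 < Real.log T := by linarith
  have hpi := Real.pi_pos
  have haw := aw_nonneg (2 * (2 * k)) T U y
  rw [abs_of_nonneg (by positivity)] at h2
  have hLT : Real.log T ≤ 1 + T := by
    have := Real.log_le_self hT.le
    linarith
  have c1 := cauchy_sq (f := HH k T U) (c := sp T 0 y) (r := 1 / Real.log T) (by positivity)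
    (HH_differentiable k T U).differentiableOn j
  have c2 : sp T 0 y = ((1 / 2 : ℝ) : ℂ) + y * I := by
    unfold sp
    rw [zero_div, add_zero]
  have c3 : ∀ θ : ℝ, ‖HH k T U (circleMap (sp T 0 y) (1 / Real.log T) θ)‖ ^ 2 ≤
      Real.exp k * (ε / D * aw (2 * (2 * k)) T U y / (1 + T) ^ (B + 2 * j)) := by
    intro θ
    rw [sp_circle, zero_add]
    set z : ℂ := cexp (θ * I) with hz
    have hz1 : ‖z‖ = 1 := Complex.norm_exp_ofReal_mul_I θ
    have d1 := h1 U hA z hz1.le y hy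
    have d2 : ‖FF k T U (sp T z y)‖ ^ 2 ≤ ε / D * aw (2 * (2 * k)) T U y / (1 + T) ^ (B + 2 * j) := by
      rw [le_div_iff₀ (by positivity), mul_comm]
      exact d1
    have hs' : sp T z y = ((1 / 2 + (z / (Real.log T : ℂ)).re : ℝ) : ℂ) +
        ((y + (z / (Real.log T : ℂ)).im : ℝ) : ℂ) * I := by
      unfold sp
      conv_lhs => rw [← Complex.re_add_im (z / (Real.log T : ℂ))]
      push_cast
      ring
    have d3 : ‖HH k T U (sp T z y)‖ ^ 2 ≤ Real.exp k * ‖FF k T U (sp T z y)‖ ^ 2 := by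
      rw [hs', HH_norm, mul_pow, ← Real.exp_nat_mul]
      apply mul_le_mul_of_nonneg_right _ (sq_nonneg _)
      apply Real.exp_le_exp.2
      have d4 : (z / (Real.log T : ℂ)).re = z.re / Real.log T := Complex.div_ofReal_re z _
      have d5 : z.re ≤ 1 := by
        have := (abs_le.1 (Complex.abs_re_le_norm z)).2
        rwa [hz1] at this
      rw [d4]
      have d6 : ((2 : ℕ) : ℝ) * (k * Real.log T / 2 * (1 / 2 + z.re / Real.log T - 1 / 2)) = k * z.re := by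
        push_cast
        field_simp
        ring
      rw [d6]
      have : (0 : ℝ) ≤ k := Nat.cast_nonneg k
      nlinarith
    exact d3.trans (mul_le_mul_of_nonneg_left d2 (Real.exp_pos _).le)
  have c4 : (2 * Real.pi)⁻¹ * ∫ θ in (0 : ℝ)..(2 * Real.pi),
      ‖HH k T U (circleMap (sp T 0 y) (1 / Real.log T) θ)‖ ^ 2 ≤
      Real.exp k * (ε / D * aw (2 * (2 * k)) T U y / (1 + T) ^ (B + 2 * j)) := by
    have d1 : ∫ θ in (0 : ℝ)..(2 * Real.pi),
        ‖HH k T U (circleMap (sp T 0 y) (1 / Real.log T) θ)‖ ^ 2 ≤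
        ∫ _θ in (0 : ℝ)..(2 * Real.pi),
          Real.exp k * (ε / D * aw (2 * (2 * k)) T U y / (1 + T) ^ (B + 2 * j)) := by
      apply intervalIntegral.integral_mono_on (by positivity)
      · apply Continuous.intervalIntegrable
        have e1 := (HH_differentiable k T U).continuous
        have e2 := continuous_circleMap (sp T 0 y) (1 / Real.log T)
        exact ((e1.comp e2).norm.pow 2)
      · exact intervalIntegrable_const
      · intro θ _
        exact c3 θ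
    rw [intervalIntegral.integral_const, sub_zero, smul_eq_mul] at d1
    rw [inv_mul_le_iff₀ (by positivity)]
    exact d1
  have c5 : (j.factorial / (1 / Real.log T) ^ j : ℝ) ^ 2 = (j.factorial : ℝ) ^ 2 * Real.log T ^ (2 * j) := by
    rw [one_div, inv_pow, div_inv_eq_mul, mul_pow, ← pow_mul, mul_comm j 2]
  rw [c5] at c1
  have c6 : ‖gg k j T U y‖ ^ 2 ≤ (j.factorial : ℝ) ^ 2 * Real.log T ^ (2 * j) *
      (Real.exp k * (ε / D * aw (2 * (2 * k)) T U y / (1 + T) ^ (B + 2 * j))) := by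
    unfold gg
    rw [← c2]
    exact c1.trans (mul_le_mul_of_nonneg_left c4 (by positivity))
  have c7 : (j.factorial : ℝ) ^ 2 * Real.log T ^ (2 * j) *
      (Real.exp k * (ε / D * aw (2 * (2 * k)) T U y / (1 + T) ^ (B + 2 * j))) ≤
      (j.factorial : ℝ) ^ 2 * (1 + T) ^ (2 * j) *
      (Real.exp k * (ε / D * aw (2 * (2 * k)) T U y / (1 + T) ^ (B + 2 * j))) := by
    have : Real.log T ^ (2 * j) ≤ (1 + T) ^ (2 * j) := pow_le_pow_left₀ hL0.le hLT _
    gcongr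
  have c8 := mul_le_mul_of_nonneg_left (c6.trans c7) (show 0 ≤ (1 + T) ^ B by positivity)
  refine c8.trans (le_of_eq ?_)
  rw [hD, pow_add]
  have : (0 : ℝ) < (1 + T) ^ B := by positivity
  have : (0 : ℝ) < (1 + T) ^ (2 * j) := by positivity
  field_simp

/-- The mean squares of the derivatives far from the centre. -/
theorem far_mean (j B : ℕ) {η ε : ℝ} (hη : 0 < η) (hε : 0 < ε) : ∀ᶠ T : ℝ in atTop, ∀ U : ℝ,
    Adm T U → (1 + T) ^ B * ∫ y in Set.Iic ((1 - η) * T), ‖gg k j T U y‖ ^ 2 ≤ ε * V0 k T U := by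
  obtain ⟨c₀, hc₀, hc₀'⟩ := V0_lower k
  have hK := KK_nonneg (2 * (2 * k))
  set ε₂ := ε * c₀ / (KK (2 * (2 * k)) + 1) with hε₂
  have hε₂0 : 0 < ε₂ := by positivity
  filter_upwards [far_gg k j B hη hε₂0, specN k j one_pos] with T h1 h2 U hA
  have hT : 0 < T := by linarith [hA.1]
  have hT1 : 1 ≤ T := by linarith [hA.1]
  have hU := hA.pos
  obtain ⟨i1, -⟩ := h2 U hA
  have iaw := aw_integrable (2 * (2 * k)) T hU
  have b1 : ∫ y in Set.Iic ((1 - η) * T), (1 + T) ^ B * ‖gg k j T U y‖ ^ 2 ≤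
      ∫ y in Set.Iic ((1 - η) * T), ε₂ * aw (2 * (2 * k)) T U y := by
    apply setIntegral_mono_on (i1.const_mul _).integrableOn (iaw.const_mul _).integrableOn
      measurableSet_Iic
    intro y hy
    apply h1 U hA
    have hy' : y ≤ (1 - η) * T := hy
    have : y - T ≤ 0 := by nlinarith
    rw [abs_of_nonpos this]
    linarith
  have b2 : ∫ y in Set.Iic ((1 - η) * T), ε₂ * aw (2 * (2 * k)) T U y ≤
      ∫ y, ε₂ * aw (2 * (2 * k)) T U y :=
    setIntegral_le_integral (iaw.const_mul _) (Eventually.of_forall fun y => by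
      have := aw_nonneg (2 * (2 * k)) T U y
      positivity)
  rw [integral_const_mul] at b1
  have b3 : ∫ y, ε₂ * aw (2 * (2 * k)) T U y = ε₂ * (U * KK (2 * (2 * k))) := by
    rw [integral_const_mul, aw_integral _ T hU]
  rw [b3] at b2
  refine b1.trans (b2.trans ?_)
  have b4 := hc₀' T U hA
  have b5 : U ≤ T ^ (2 * k) * U := le_mul_of_one_le_left hU.le (one_le_pow₀ hT1)
  have b6 : ε₂ * KK (2 * (2 * k)) ≤ ε * c₀ := by
    rw [hε₂, div_mul_eq_mul_div, div_le_iff₀ (by positivity)]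
    have : 0 ≤ ε * c₀ := by positivity
    nlinarith
  calc ε₂ * (U * KK (2 * (2 * k))) = (ε₂ * KK (2 * (2 * k))) * U := by ring
    _ ≤ (ε * c₀) * (T ^ (2 * k) * U) := mul_le_mul b6 b5 hU.le (by positivity)
    _ = ε * (c₀ * (T ^ (2 * k) * U)) := by ring
    _ ≤ ε * V0 k T U := mul_le_mul_of_nonneg_left b4 hε.le

/-- The comparison of the two moments. -/
theorem cmpV {ε : ℝ} (hε : 0 < ε) : ∀ᶠ T : ℝ in atTop, ∀ U : ℝ, Adm T U →
    |V0 k T U - T ^ (2 * k) * JJ k T U (1 / 2)| ≤ ε * V0 k T U := by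
  filter_upwards [GJ k 0 hε] with T h3 U hA
  have hV0 := V0_pos k hA
  have g1 := h3 U hA
  rw [Gn_zero k hA] at g1
  have g2 : Jn k T U 0 = T ^ (2 * k) * JJ k T U (1 / 2) / V0 k T U := by
    unfold Jn
    rw [zero_div, add_zero]
  rw [g2] at g1
  have e : V0 k T U - T ^ (2 * k) * JJ k T U (1 / 2) =
      (1 - T ^ (2 * k) * JJ k T U (1 / 2) / V0 k T U) * V0 k T U := by field_simp
  rw [e, abs_mul, abs_of_pos hV0]
  exact mul_le_mul_of_nonneg_right g1 hV0.le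

/-- **From sums of the centred function to sums of zeta.** -/
theorem transfer (j : ℕ) {κ ε : ℝ} (hκ : 0 ≤ κ) (hε : 0 < ε) : ∀ᶠ T : ℝ in atTop, ∀ U : ℝ,
    Adm T U → 0 < JJ k T U (1 / 2) ∧ ∀ (W : Finset ℝ) (q : ℝ → ℝ),
    (∀ γ ∈ W, T ^ (2 * k) * q γ =
      (T / ‖((1 / 2 : ℝ) : ℂ) + γ * I - 1‖) ^ (2 * k) * ‖gg k j T U γ‖ ^ 2) →
    (∑ γ ∈ W, ‖gg k j T U γ‖ ^ 2 ≤ κ * ∫ t, ‖gg k j T U t‖ * ‖gg k (j + 1) T U t‖) →
    (∀ a : ℝ, ∑ γ ∈ W.filter (fun γ => γ ≤ a), ‖gg k j T U γ‖ ^ 2 ≤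
      2 * ∫ t in Set.Iic a, ‖gg k j T U t‖ * ‖gg k (j + 1) T U t‖) →
    ∑ γ ∈ W, q γ ≤ (κ * ((k : ℝ) / 2) ^ (2 * j + 1) + ε) * Real.log T ^ (2 * j + 1) *
      JJ k T U (1 / 2) := by
  have hk0 : (0 : ℝ) ≤ k := Nat.cast_nonneg k
  -- the small parameter
  set φ : ℝ → ℝ := fun x => ((1 - x)⁻¹) ^ (2 * k + 1) * (κ * ((1 / 2) ^ (2 * j + 1) *
    √(((k : ℝ) ^ (2 * j) + x) * ((k : ℝ) ^ (2 * (j + 1)) + x)))) with hφ
  have hφc : ContinuousAt φ 0 := by
    have h1 : ContinuousAt (fun x : ℝ => (1 - x)⁻¹) 0 := by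
      apply ContinuousAt.inv₀ (by fun_prop)
      norm_num
    have h2 : ContinuousAt (fun x : ℝ => √(((k : ℝ) ^ (2 * j) + x) * ((k : ℝ) ^ (2 * (j + 1)) + x))) 0 := by
      apply Continuous.continuousAt
      fun_prop
    exact (h1.pow _).mul (continuousAt_const.mul (continuousAt_const.mul h2))
  have hφ0 : φ 0 = κ * ((k : ℝ) / 2) ^ (2 * j + 1) := by
    rw [hφ]
    beta_reduce
    rw [sub_zero, inv_one, one_pow, one_mul, add_zero, add_zero]
    have e1 : (k : ℝ) ^ (2 * j) * (k : ℝ) ^ (2 * (j + 1)) = ((k : ℝ) ^ (2 * j + 1)) ^ 2 := by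
      ring
    rw [e1, Real.sqrt_sq (by positivity)]
    ring
  obtain ⟨x, hx0, hx1, hx⟩ : ∃ x : ℝ, 0 < x ∧ x < 1 / 2 ∧ φ x ≤ κ * ((k : ℝ) / 2) ^ (2 * j + 1) + ε / 2 := by
    have h1 : ∀ᶠ x in 𝓝[>] (0 : ℝ), φ x < φ 0 + ε / 2 :=
      (hφc.tendsto.eventually (gt_mem_nhds (by linarith))).filter_mono nhdsWithin_le_nhds
    have h2 : ∀ᶠ x in 𝓝[>] (0 : ℝ), x < 1 / 2 :=
      (gt_mem_nhds (by norm_num : (0 : ℝ) < 1 / 2)).filter_mono nhdsWithin_le_nhds
    obtain ⟨x, ⟨h3, h4⟩, h5⟩ := ((h1.and h2).and self_mem_nhdsWithin).exists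
    exact ⟨x, h5, h4, by rw [← hφ0]; exact h3.le⟩
  set D : ℝ := (2 * (2 ^ (2 * k) * ((1 / 2) ^ (j + 1) * √((k : ℝ) ^ (2 * (j + 1)) + 1) * 2))) with hD
  have hD0 : 0 ≤ D := by positivity
  set ε₃ := (ε / (2 * (D + 1))) ^ 2 with hε₃
  have hε₃0 : 0 < ε₃ := by positivity
  filter_upwards [specN k j hx0, specN k (j + 1) hx0, far_mean k j (2 * (2 * k)) hx0 hε₃0,
    cmpV k hx0] with T h1 h2 h3 h4 U hA
  have hL := hA.log
  have hL0 : 0 < Real.log T := by linarith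
  have hT : 0 < T := by linarith [hA.1]
  have hV0 := V0_pos k hA
  obtain ⟨i1, s1⟩ := h1 U hA
  obtain ⟨i2, s2⟩ := h2 U hA
  have s3 := h3 U hA
  have s4 := abs_le.1 (h4 U hA)
  set V := V0 k T U with hV
  set P := T ^ (2 * k) with hP
  have hP0 : 0 < P := by positivity
  set M := JJ k T U (1 / 2) with hM
  have hPM : (1 - x) * V ≤ P * M := by linarith [s4.2]
  have hMp : 0 < M := by
    have : 0 < P * M := lt_of_lt_of_le (mul_pos (by linarith) hV0) hPM
    exact (pos_iff_pos_of_mul_pos this).1 hP0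
  refine ⟨hMp, fun W q hq hW1 hW2 => ?_⟩
  set L := Real.log T with hLd
  set a := (1 - x) * T with ha
  -- the main part
  have m1 : ∫ t, ‖gg k j T U t‖ * ‖gg k (j + 1) T U t‖ ≤
      √((L / 2) ^ (2 * j) * (((k : ℝ) ^ (2 * j) + x) * V)) *
        √((L / 2) ^ (2 * (j + 1)) * (((k : ℝ) ^ (2 * (j + 1)) + x) * V)) := by
    have := (cs_set (gg_cont k j T U) (gg_cont k (j + 1) T U) i1 i2 MeasurableSet.univ
      (A := (L / 2) ^ (2 * j) * (((k : ℝ) ^ (2 * j) + x) * V))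
      (B := (L / 2) ^ (2 * (j + 1)) * (((k : ℝ) ^ (2 * (j + 1)) + x) * V))
      (by rw [setIntegral_univ]; exact s1) s2).2
    rwa [setIntegral_univ] at this
  have m2 : √((L / 2) ^ (2 * j) * (((k : ℝ) ^ (2 * j) + x) * V)) *
        √((L / 2) ^ (2 * (j + 1)) * (((k : ℝ) ^ (2 * (j + 1)) + x) * V)) =
      L ^ (2 * j + 1) * ((1 / 2) ^ (2 * j + 1) *
        √(((k : ℝ) ^ (2 * j) + x) * ((k : ℝ) ^ (2 * (j + 1)) + x))) * V := by
    rw [← Real.sqrt_mul (by positivity)]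
    have e1 : (L / 2) ^ (2 * j) * (((k : ℝ) ^ (2 * j) + x) * V) *
        ((L / 2) ^ (2 * (j + 1)) * (((k : ℝ) ^ (2 * (j + 1)) + x) * V)) =
        ((L / 2) ^ (2 * j + 1) * V) ^ 2 * (((k : ℝ) ^ (2 * j) + x) * ((k : ℝ) ^ (2 * (j + 1)) + x)) := by
      ring
    rw [e1, Real.sqrt_mul (by positivity), Real.sqrt_sq (by positivity)]
    ring
  have m3 : ∑ γ ∈ W.filter (fun γ => ¬ γ ≤ a), P * q γ ≤
      ((1 - x)⁻¹) ^ (2 * k) * (κ * ∫ t, ‖gg k j T U t‖ * ‖gg k (j + 1) T U t‖) := by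
    have e1 : ∀ γ ∈ W.filter (fun γ => ¬ γ ≤ a), P * q γ ≤
        ((1 - x)⁻¹) ^ (2 * k) * ‖gg k j T U γ‖ ^ 2 := by
      intro γ hγ
      rw [Finset.mem_filter] at hγ
      rw [hq γ hγ.1]
      apply mul_le_mul_of_nonneg_right _ (sq_nonneg _)
      apply pow_le_pow_left₀ (by positivity)
      have e2 : (1 - x) * T ≤ ‖((1 / 2 : ℝ) : ℂ) + γ * I - 1‖ := by
        have e3 := Complex.abs_im_le_norm (((1 / 2 : ℝ) : ℂ) + γ * I - 1)
        have e4 : (((1 / 2 : ℝ) : ℂ) + γ * I - 1).im = γ := by simp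
        rw [e4] at e3
        have := le_abs_self γ
        have := not_le.1 hγ.2
        linarith
      have e5 : 0 < (1 - x) * T := mul_pos (by linarith) hT
      rw [div_le_iff₀ (e5.trans_le e2), inv_mul_eq_div, le_div_iff₀ (by linarith)]
      linarith
    refine (Finset.sum_le_sum e1).trans ?_
    rw [← Finset.mul_sum]
    apply mul_le_mul_of_nonneg_left _ (pow_nonneg (inv_nonneg.2 (by linarith)) _)
    refine le_trans ?_ hW1
    exact Finset.sum_le_sum_of_subset_of_nonneg (Finset.filter_subset _ _) fun _ _ _ => sq_nonneg _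
  have m4 : ((1 - x)⁻¹) ^ (2 * k) * (κ * ∫ t, ‖gg k j T U t‖ * ‖gg k (j + 1) T U t‖) ≤
      φ x * L ^ (2 * j + 1) * (P * M) := by
    have e1 : V ≤ (1 - x)⁻¹ * (P * M) := by
      rw [inv_mul_eq_div, le_div_iff₀ (by linarith)]
      linarith
    have e0 : 0 ≤ (1 - x)⁻¹ := inv_nonneg.2 (by linarith)
    calc _ ≤ ((1 - x)⁻¹) ^ (2 * k) * (κ * (L ^ (2 * j + 1) * ((1 / 2) ^ (2 * j + 1) *
        √(((k : ℝ) ^ (2 * j) + x) * ((k : ℝ) ^ (2 * (j + 1)) + x))) * V)) := by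
          rw [← m2]
          gcongr
      _ ≤ ((1 - x)⁻¹) ^ (2 * k) * (κ * (L ^ (2 * j + 1) * ((1 / 2) ^ (2 * j + 1) *
        √(((k : ℝ) ^ (2 * j) + x) * ((k : ℝ) ^ (2 * (j + 1)) + x))) * ((1 - x)⁻¹ * (P * M)))) := by
          gcongr
      _ = _ := by
          rw [hφ]
          ring
  -- the rest
  have m5 : ∑ γ ∈ W.filter (fun γ => γ ≤ a), P * q γ ≤
      (2 * T) ^ (2 * k) * (2 * ∫ t in Set.Iic a, ‖gg k j T U t‖ * ‖gg k (j + 1) T U t‖) := by
    have e1 : ∀ γ ∈ W.filter (fun γ => γ ≤ a), P * q γ ≤ (2 * T) ^ (2 * k) * ‖gg k j T U γ‖ ^ 2 := by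
      intro γ hγ
      rw [Finset.mem_filter] at hγ
      rw [hq γ hγ.1]
      apply mul_le_mul_of_nonneg_right _ (sq_nonneg _)
      apply pow_le_pow_left₀ (by positivity)
      have e2 : 1 / 2 ≤ ‖((1 / 2 : ℝ) : ℂ) + γ * I - 1‖ := by
        have e3 := Complex.abs_re_le_norm (((1 / 2 : ℝ) : ℂ) + γ * I - 1)
        have e4 : (((1 / 2 : ℝ) : ℂ) + γ * I - 1).re = -(1 / 2) := by
          simp
          norm_num
        rw [e4] at e3
        norm_num at e3 ⊢
        linarith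
      rw [div_le_iff₀ (by linarith)]
      nlinarith
    refine (Finset.sum_le_sum e1).trans ?_
    rw [← Finset.mul_sum]
    exact mul_le_mul_of_nonneg_left (hW2 a) (by positivity)
  have m6 : ∫ t in Set.Iic a, ‖gg k j T U t‖ * ‖gg k (j + 1) T U t‖ ≤
      √(ε₃ * V / (1 + T) ^ (2 * (2 * k))) *
        √((L / 2) ^ (2 * (j + 1)) * (((k : ℝ) ^ (2 * (j + 1)) + x) * V)) := by
    refine (cs_set (gg_cont k j T U) (gg_cont k (j + 1) T U) i1 i2 measurableSet_Iic ?_ s2).2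
    rw [le_div_iff₀ (by positivity), mul_comm]
    exact s3
  have m7 : (2 * T) ^ (2 * k) * (2 * (√(ε₃ * V / (1 + T) ^ (2 * (2 * k))) *
        √((L / 2) ^ (2 * (j + 1)) * (((k : ℝ) ^ (2 * (j + 1)) + x) * V)))) ≤
      ε / 2 * L ^ (2 * j + 1) * (P * M) := by
    have e1 : √(ε₃ * V / (1 + T) ^ (2 * (2 * k))) = ε / (2 * (D + 1)) * √V / (1 + T) ^ (2 * k) := by
      rw [Real.sqrt_div' _ (by positivity), Real.sqrt_mul hε₃0.le, hε₃, Real.sqrt_sq (by positivity)]
      congr 1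
      rw [show (1 + T) ^ (2 * (2 * k)) = ((1 + T) ^ (2 * k)) ^ 2 by ring, Real.sqrt_sq (by positivity)]
    have e2 : √((L / 2) ^ (2 * (j + 1)) * (((k : ℝ) ^ (2 * (j + 1)) + x) * V)) ≤
        (L / 2) ^ (j + 1) * (√((k : ℝ) ^ (2 * (j + 1)) + 1) * √V) := by
      rw [← Real.sqrt_mul (by positivity), show (L / 2) ^ (2 * (j + 1)) = ((L / 2) ^ (j + 1)) ^ 2 by ring,
        Real.sqrt_mul (by positivity), Real.sqrt_sq (by positivity)]
      apply mul_le_mul_of_nonneg_left _ (by positivity)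
      apply Real.sqrt_le_sqrt
      gcongr
      linarith
    have e3 : T ^ (2 * k) ≤ (1 + T) ^ (2 * k) := pow_le_pow_left₀ hT.le (by linarith) _
    have e4 : L ^ (j + 1) ≤ L ^ (2 * j + 1) := pow_le_pow_right₀ hL (by omega)
    have e5 : V ≤ 2 * (P * M) := by nlinarith
    have e6 : √V * √V = V := Real.mul_self_sqrt hV0.le
    calc _ ≤ (2 * T) ^ (2 * k) * (2 * (ε / (2 * (D + 1)) * √V / (1 + T) ^ (2 * k) *
          ((L / 2) ^ (j + 1) * (√((k : ℝ) ^ (2 * (j + 1)) + 1) * √V)))) := by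
          rw [e1]
          gcongr
      _ = (T ^ (2 * k) / (1 + T) ^ (2 * k)) * (ε / (2 * (D + 1)) * L ^ (j + 1) *
          (2 * (2 ^ (2 * k) * ((1 / 2) ^ (j + 1) * √((k : ℝ) ^ (2 * (j + 1)) + 1)))) * (√V * √V)) := by
          rw [mul_pow, div_pow, one_div, inv_pow]
          ring
      _ ≤ 1 * (ε / (2 * (D + 1)) * L ^ (2 * j + 1) *
          (2 * (2 ^ (2 * k) * ((1 / 2) ^ (j + 1) * √((k : ℝ) ^ (2 * (j + 1)) + 1)))) * (2 * (P * M))) := by
          rw [e6]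
          have : T ^ (2 * k) / (1 + T) ^ (2 * k) ≤ 1 := (div_le_one (by positivity)).2 e3
          gcongr
      _ = ε / (2 * (D + 1)) * D * L ^ (2 * j + 1) * (P * M) := by
          rw [hD]
          ring
      _ ≤ ε / 2 * L ^ (2 * j + 1) * (P * M) := by
          have : ε / (2 * (D + 1)) * D ≤ ε / 2 := by
            rw [div_mul_eq_mul_div, div_le_iff₀ (by positivity)]
            nlinarith
          gcongr
  have m8 : P * ∑ γ ∈ W, q γ ≤ P * ((κ * ((k : ℝ) / 2) ^ (2 * j + 1) + ε) * L ^ (2 * j + 1) * M) := by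
    rw [Finset.mul_sum, ← Finset.sum_filter_add_sum_filter_not W (fun γ => γ ≤ a)]
    have e1 : (2 * T) ^ (2 * k) * (2 * ∫ t in Set.Iic a, ‖gg k j T U t‖ * ‖gg k (j + 1) T U t‖) ≤
        (2 * T) ^ (2 * k) * (2 * (√(ε₃ * V / (1 + T) ^ (2 * (2 * k))) *
        √((L / 2) ^ (2 * (j + 1)) * (((k : ℝ) ^ (2 * (j + 1)) + x) * V)))) := by
      gcongr
    have e2 : φ x * L ^ (2 * j + 1) * (P * M) ≤
        (κ * ((k : ℝ) / 2) ^ (2 * j + 1) + ε / 2) * L ^ (2 * j + 1) * (P * M) := by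
      gcongr
    have e3 : P * ((κ * ((k : ℝ) / 2) ^ (2 * j + 1) + ε) * L ^ (2 * j + 1) * M) =
        (κ * ((k : ℝ) / 2) ^ (2 * j + 1) + ε / 2) * L ^ (2 * j + 1) * (P * M) +
          ε / 2 * L ^ (2 * j + 1) * (P * M) := by ring
    linarith [m5.trans (e1.trans m7), m3.trans (m4.trans e2)]
  exact le_of_mul_le_mul_left m8 hP0

end

end U345Z
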