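import Pool.Agent.U345.ZT

/-!
# Moments of zeta and its zeros on the critical line
-/

set_option autoImplicit false

open MeasureTheory Filter Topology Complex FourierTransform ComplexConjugate

namespace U345Z

open Q97.MM

noncomputable section

/-- The derivatives of `u ^ k v` at a zero of `u`. -/
theorem iter_pow_mul {u : ℂ → ℂ} (hu : Differentiable ℂ u) {ρ : ℂ} (h0 : u ρ = 0) (m : ℕ) :
    ∀ (k : ℕ) (v : ℂ → ℂ), Differentiable ℂ v → m ≤ k →
      iteratedDeriv m (fun s => u s ^ k * v s) ρ =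
        if m < k then 0 else (k.factorial : ℂ) * deriv u ρ ^ k * v ρ := by
  induction m with
  | zero =>
    intro k v _ _
    rw [iteratedDeriv_zero]
    rcases Nat.eq_zero_or_pos k with rfl | hk
    · simp
    · rw [if_pos hk, h0, zero_pow hk.ne', zero_mul]
  | succ m ih =>
    intro k v hv hmk
    obtain ⟨n, rfl⟩ : ∃ n, k = n + 1 := ⟨k - 1, by omega⟩
    have hdu := deriv_entire hu
    have hdv := deriv_entire hv
    have hd : deriv (fun s => u s ^ (n + 1) * v s) =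
        fun s => u s ^ n * (((n : ℂ) + 1) * deriv u s * v s + u s * deriv v s) := by
      funext s
      have h1 : HasDerivAt (fun s => u s ^ (n + 1) * v s) _ s :=
        (((hu s).hasDerivAt).fun_pow (n + 1)).mul (hv s).hasDerivAt
      rw [h1.deriv]
      push_cast
      ring
    rw [iteratedDeriv_succ', hd]
    have h2 := ih n (fun s => ((n : ℂ) + 1) * deriv u s * v s + u s * deriv v s)
      ((((differentiable_const _).mul hdu).mul hv).add (hu.mul hdv)) (by omega)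
    rw [h2]
    by_cases h : m < n
    · rw [if_pos h, if_pos (by omega)]
    · rw [if_neg h, if_neg (by omega), h0, Nat.factorial_succ]
      push_cast
      ring

variable (k : ℕ)

/-- the exponential factor -/
def EE (T U : ℝ) (s : ℂ) : ℂ := cexp (((k * Real.log T / 2 : ℝ) : ℂ) * (s - 1 / 2)) *
  cexp ((s - 1 / 2 - T * I) ^ 2 / (2 * (U : ℂ) ^ 2))

theorem EE_differentiable (T U : ℝ) : Differentiable ℂ (EE k T U) := by
  unfold EE
  fun_prop

theorem HH_eq (T U : ℝ) : HH k T U = fun s => Z1 s ^ k * EE k T U s := by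
  funext s
  unfold HH FF EE
  ring

theorem EE_norm (T U y : ℝ) : ‖EE k T U (((1 / 2 : ℝ) : ℂ) + y * I)‖ ^ 2 = wt T U y := by
  unfold EE wt
  rw [norm_mul, Complex.norm_exp, Complex.norm_exp, Q97.MM.exp_re, Complex.re_ofReal_mul]
  have e1 : (((1 / 2 : ℝ) : ℂ) + y * I - 1 / 2).re = 0 := by simp
  rw [e1, mul_zero, Real.exp_zero, one_mul, sub_self, ← Real.exp_nat_mul]
  congr 1
  push_cast
  field_simp
  ring

theorem line_ne_one (y : ℝ) : ((1 / 2 : ℝ) : ℂ) + y * I ≠ 1 := by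
  intro h
  have := congrArg Complex.re h
  simp at this

/-- the derivative of `(s - 1) ζ(s)` at a zero -/
theorem Z1_deriv_zero {ρ : ℂ} (h1 : ρ ≠ 1) (h0 : riemannZeta ρ = 0) :
    Z1 ρ = 0 ∧ deriv Z1 ρ = (ρ - 1) * deriv riemannZeta ρ := by
  constructor
  · rw [Z1_of_ne h1, h0, mul_zero]
  · have e : Z1 =ᶠ[𝓝 ρ] fun s => (s - 1) * riemannZeta s := by
      filter_upwards [isOpen_ne.mem_nhds h1] with s hs
      exact Z1_of_ne hs
    rw [e.deriv_eq]
    have h2 := ((hasDerivAt_id ρ).sub_const 1).mul (differentiableAt_riemannZeta h1).hasDerivAt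
    have h3 := h2.deriv
    rw [show (fun s : ℂ => (s - 1) * riemannZeta s) = ((fun s => id s - 1) * riemannZeta) from rfl, h3]
    simp [h0]

theorem gg_zero (j : ℕ) (T U y : ℝ) (h0 : riemannZeta (((1 / 2 : ℝ) : ℂ) + y * I) = 0) (hj : j < k) :
    gg k j T U y = 0 := by
  unfold gg
  rw [HH_eq, iter_pow_mul Z1_differentiable (Z1_deriv_zero (line_ne_one y) h0).1 j k _
    (EE_differentiable k T U) hj.le, if_pos hj]

theorem gg_top (T U y : ℝ) (h0 : riemannZeta (((1 / 2 : ℝ) : ℂ) + y * I) = 0) :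
    ‖gg k k T U y‖ ^ 2 = (k.factorial : ℝ) ^ 2 *
      (‖((1 / 2 : ℝ) : ℂ) + y * I - 1‖ * ‖deriv riemannZeta (((1 / 2 : ℝ) : ℂ) + y * I)‖) ^ (2 * k) *
        wt T U y := by
  unfold gg
  rw [HH_eq, iter_pow_mul Z1_differentiable (Z1_deriv_zero (line_ne_one y) h0).1 k k _
    (EE_differentiable k T U) le_rfl, if_neg (lt_irrefl k), (Z1_deriv_zero (line_ne_one y) h0).2,
    norm_mul, norm_mul, norm_pow, norm_mul, mul_pow, mul_pow, EE_norm, Complex.norm_natCast]
  ring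

theorem gg_bot (T U y : ℝ) : ‖gg k 0 T U y‖ ^ 2 =
    (‖((1 / 2 : ℝ) : ℂ) + y * I - 1‖ * ‖riemannZeta (((1 / 2 : ℝ) : ℂ) + y * I)‖) ^ (2 * k) *
      wt T U y := by
  unfold gg
  rw [iteratedDeriv_zero, HH_eq]
  beta_reduce
  rw [norm_mul, mul_pow, EE_norm, Z1_of_ne (line_ne_one y), norm_pow, norm_mul]
  ring

/-- **Maxima between zeros.** -/
theorem maxZ (hk : 1 ≤ k) {ε : ℝ} (hε : 0 < ε) : ∀ᶠ T : ℝ in atTop, ∀ U : ℝ, Adm T U →
    0 < JJ k T U (1 / 2) ∧ ∀ W : Finset ℝ,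
    (∀ m ∈ W, ∀ b ∈ W, m < b → ∃ ξ ∈ Set.Icc m b, riemannZeta (((1 / 2 : ℝ) : ℂ) + ξ * I) = 0) →
    ∑ y ∈ W, zq k T U y ≤ ((k : ℝ) / 2 + ε) * Real.log T * JJ k T U (1 / 2) := by
  filter_upwards [transfer k 0 zero_le_one hε, specN k 0 one_pos, specN k (0 + 1) one_pos] with
    T h1 h2 h3 U hA
  obtain ⟨hM, h4⟩ := h1 U hA
  refine ⟨hM, fun W hW => ?_⟩
  have hT : 0 < T := by linarith [hA.1]
  obtain ⟨i1, s1⟩ := h2 U hA
  obtain ⟨i2, s2⟩ := h3 U hA
  have i3 := (cs_set (gg_cont k 0 T U) (gg_cont k (0 + 1) T U) i1 i2 MeasurableSet.univ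
    (by rw [setIntegral_univ]) le_rfl).1
  have hd := gg_deriv k 0 T U
  have hc : Continuous (fun y => I * gg k (0 + 1) T U y) := continuous_const.mul (gg_cont k (0 + 1) T U)
  obtain ⟨l1, l2⟩ := gg_decay k 0 hA
  have hn : ∀ t, ‖I * gg k (0 + 1) T U t‖ = ‖gg k (0 + 1) T U t‖ := fun t => by
    rw [norm_mul, Complex.norm_I, one_mul]
  have i4 : Integrable (fun t => ‖gg k 0 T U t‖ * ‖I * gg k (0 + 1) T U t‖) := by
    refine i3.congr (Eventually.of_forall fun t => ?_)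
    beta_reduce
    rw [hn]
  have hz : ∀ m ∈ W, ∀ b ∈ W, m < b → ∃ ξ ∈ Set.Icc m b, gg k 0 T U ξ = 0 := by
    intro m hm b hb hmb
    obtain ⟨ξ, hξ, h0⟩ := hW m hm b hb hmb
    exact ⟨ξ, hξ, gg_zero k 0 T U ξ h0 hk⟩
  have h5 := h4 W (zq k T U) ?_ ?_ ?_
  · simpa using h5
  · intro y _
    rw [gg_bot]
    unfold zq
    have hne : ‖((1 / 2 : ℝ) : ℂ) + y * I - 1‖ ≠ 0 := norm_ne_zero_iff.2 (sub_ne_zero.2 (line_ne_one y))
    rw [div_pow, mul_pow]
    field_simp
  · rw [one_mul]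
    have := max_sum' hd hc i4 l2 l1 W hz
    simpa only [hn] using this
  · intro a
    have := rolle_sum hd hc i4 l2 (W.filter fun γ => γ ≤ a) (fun m hm b hb hmb u => by
      obtain ⟨ξ, hξ, h0⟩ := hz m (Finset.mem_filter.1 hm).1 b (Finset.mem_filter.1 hb).1 hmb
      exact ⟨ξ, hξ, by rw [h0, mul_zero, Complex.zero_re]⟩) a fun γ hγ => (Finset.mem_filter.1 hγ).2
    simpa only [hn] using this

/-- **The derivative at the zeros.** -/
theorem derZ (hk : 1 ≤ k) {ε : ℝ} (hε : 0 < ε) : ∀ᶠ T : ℝ in atTop, ∀ U : ℝ, Adm T U →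
    0 < JJ k T U (1 / 2) ∧ ∀ W : Finset ℝ,
    (∀ γ ∈ W, riemannZeta (((1 / 2 : ℝ) : ℂ) + γ * I) = 0) →
    (k.factorial : ℝ) ^ 2 * ∑ γ ∈ W, ‖deriv riemannZeta (((1 / 2 : ℝ) : ℂ) + γ * I)‖ ^ (2 * k) *
      wt T U γ ≤ (2 * ((k : ℝ) / 2) ^ (2 * k + 1) + ε) * Real.log T ^ (2 * k + 1) *
        JJ k T U (1 / 2) := by
  filter_upwards [transfer k k zero_le_two hε, specN k k one_pos, specN k (k + 1) one_pos] with
    T h1 h2 h3 U hA
  obtain ⟨hM, h4⟩ := h1 U hA
  refine ⟨hM, fun W hW => ?_⟩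
  have hT : 0 < T := by linarith [hA.1]
  obtain ⟨i1, s1⟩ := h2 U hA
  obtain ⟨i2, s2⟩ := h3 U hA
  have i3 := (cs_set (gg_cont k k T U) (gg_cont k (k + 1) T U) i1 i2 MeasurableSet.univ
    (by rw [setIntegral_univ]) le_rfl).1
  have hd := gg_deriv k k T U
  have hc : Continuous (fun y => I * gg k (k + 1) T U y) := continuous_const.mul (gg_cont k (k + 1) T U)
  obtain ⟨l1, l2⟩ := gg_decay k k hA
  have hn : ∀ t, ‖I * gg k (k + 1) T U t‖ = ‖gg k (k + 1) T U t‖ := fun t => by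
    rw [norm_mul, Complex.norm_I, one_mul]
  have i4 : Integrable (fun t => ‖gg k k T U t‖ * ‖I * gg k (k + 1) T U t‖) := by
    refine i3.congr (Eventually.of_forall fun t => ?_)
    beta_reduce
    rw [hn]
  have hz : ∀ m ∈ W, ∀ b ∈ W, m < b → ∀ u : ℂ, ∃ ξ ∈ Set.Icc m b, (u * gg k k T U ξ).re = 0 := by
    intro m hm b hb hmb u
    obtain ⟨n, hn'⟩ : ∃ n, k = n + 1 := ⟨k - 1, by omega⟩
    -- the real part of a primitive
    set G : ℝ → ℝ := fun t => (u * (-I) * gg k n T U t).re with hG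
    have hGd : ∀ t, HasDerivAt G ((u * gg k k T U t).re) t := by
      intro t
      have q1 := (gg_deriv k n T U t).const_mul (u * (-I))
      have q2 := Complex.reCLM.hasFDerivAt.comp_hasDerivAt t q1
      have q3 : u * (-I) * (I * gg k (n + 1) T U t) = u * gg k k T U t := by
        rw [← hn']
        linear_combination (-(u * gg k k T U t)) * Complex.I_sq
      rw [q3] at q2
      exact q2
    have hGm : G m = 0 := by
      rw [hG]
      beta_reduce
      rw [gg_zero k n T U m (hW m hm) (by omega), mul_zero, Complex.zero_re]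
    have hGb : G b = 0 := by
      rw [hG]
      beta_reduce
      rw [gg_zero k n T U b (hW b hb) (by omega), mul_zero, Complex.zero_re]
    obtain ⟨ξ, hξ, hξ0⟩ := exists_hasDerivAt_eq_zero hmb
      (fun t _ => (hGd t).continuousAt.continuousWithinAt) (hGm.trans hGb.symm) fun t _ => hGd t
    exact ⟨ξ, Set.Ioo_subset_Icc_self hξ, hξ0⟩
  have h5 := h4 W (fun γ => (k.factorial : ℝ) ^ 2 *
    (‖deriv riemannZeta (((1 / 2 : ℝ) : ℂ) + γ * I)‖ ^ (2 * k) * wt T U γ)) ?_ ?_ ?_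
  · rw [Finset.mul_sum]
    exact h5
  · intro y hy
    rw [gg_top k T U y (hW y hy)]
    have hne : ‖((1 / 2 : ℝ) : ℂ) + y * I - 1‖ ≠ 0 := norm_ne_zero_iff.2 (sub_ne_zero.2 (line_ne_one y))
    rw [div_pow, mul_pow]
    field_simp
  · obtain ⟨A, hA'⟩ : ∃ A : ℝ, ∀ γ ∈ W, γ ≤ A := by
      rcases W.eq_empty_or_nonempty with rfl | hne
      · exact ⟨0, fun γ hγ => absurd hγ (Finset.notMem_empty _)⟩
      · exact ⟨W.max' hne, fun γ hγ => Finset.le_max' _ _ hγ⟩
    have h6 := rolle_sum hd hc i4 l2 W hz A hA'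
    simp only [hn] at h6
    have h7 : ∫ t in Set.Iic A, ‖gg k k T U t‖ * ‖gg k (k + 1) T U t‖ ≤
        ∫ t, ‖gg k k T U t‖ * ‖gg k (k + 1) T U t‖ :=
      setIntegral_le_integral i3 (Eventually.of_forall fun t => by positivity)
    linarith
  · intro a
    have := rolle_sum hd hc i4 l2 (W.filter fun γ => γ ≤ a) (fun m hm b hb hmb u =>
      hz m (Finset.mem_filter.1 hm).1 b (Finset.mem_filter.1 hb).1 hmb u) a
        fun γ hγ => (Finset.mem_filter.1 hγ).2
    simpa only [hn] using this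

end

end U345Z
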