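import Pool.Agent.U345.ZU

/-!
# The part of the moments near the zeros
-/

set_option autoImplicit false

open MeasureTheory Filter Topology Complex

namespace U345Z

open Q97.MM

noncomputable section

/-! ### A union of cells -/

/-- the points at distance at most `h` from `W` -/
def nbhd (W : Set ℝ) (h : ℝ) : Set ℝ := {y | ∃ γ ∈ W, |y - γ| ≤ h}

theorem nbhd_finset_measurable (W : Finset ℝ) (h : ℝ) : MeasurableSet (nbhd (W : Set ℝ) h) := by
  have : nbhd (W : Set ℝ) h = ⋃ γ ∈ W, {y | |y - γ| ≤ h} := by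
    ext y
    simp [nbhd]
  rw [this]
  apply Finset.measurableSet_biUnion
  intro γ _
  exact measurableSet_le (by fun_prop) measurable_const

theorem cells {φ ψ : ℝ → ℝ} (hφ : ∀ t, 0 ≤ φ t) (hψ : ∀ t, 0 ≤ ψ t) (iφ : Integrable φ)
    (iψ : Integrable ψ) {h : ℝ} (hh : 0 ≤ h) (W : Finset ℝ)
    (hr : ∀ γ ∈ W, ∀ b, γ ≤ b → b ≤ γ + h → ∫ t in γ..b, φ t ≤ ∫ t in γ..b, ψ t)
    (hl : ∀ γ ∈ W, ∀ a, γ - h ≤ a → a ≤ γ → ∫ t in a..γ, φ t ≤ ∫ t in a..γ, ψ t) :
    ∀ x : ℝ, (∀ γ ∈ W, γ ≤ x) →
      ∫ t in nbhd (W : Set ℝ) h ∩ Set.Iic x, φ t ≤ ∫ t in Set.Iic x, ψ t := by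
  induction W using Finset.induction_on_max with
  | empty =>
    intro x _
    have e : nbhd ((∅ : Finset ℝ) : Set ℝ) h ∩ Set.Iic x = ∅ := by
      ext y
      simp [nbhd]
    rw [e, setIntegral_empty]
    exact integral_nonneg hψ
  | insert γ W hγ ih =>
    intro x hx
    have hγx : γ ≤ x := hx γ (Finset.mem_insert_self _ _)
    have ih' := ih (fun g hg => hr g (Finset.mem_insert_of_mem hg))
      (fun g hg => hl g (Finset.mem_insert_of_mem hg))
    set z := min x (γ + h) with hz
    have hz1 : γ ≤ z := le_min hγx (by linarith)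
    have hz2 : z ≤ x := min_le_left _ _
    have hz3 : z ≤ γ + h := min_le_right _ _
    -- the point `y` and the estimate to its left
    obtain ⟨y, hy1, hy2, hy3⟩ : ∃ y : ℝ, y ≤ γ ∧
        ∫ t in nbhd (W : Set ℝ) h ∩ Set.Iic y, φ t ≤ ∫ t in Set.Iic y, ψ t ∧
        nbhd ((insert γ W : Finset ℝ) : Set ℝ) h ∩ Set.Iic x ⊆
          (nbhd (W : Set ℝ) h ∩ Set.Iic y) ∪ (Set.Ioc (max y (γ - h)) γ ∪ Set.Ioc γ z) ∪ {γ - h} := by
      rcases W.eq_empty_or_nonempty with rfl | hne
      · refine ⟨γ - h, by linarith, ?_, ?_⟩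
        · have e : nbhd ((∅ : Finset ℝ) : Set ℝ) h ∩ Set.Iic (γ - h) = ∅ := by
            ext y
            simp [nbhd]
          rw [e, setIntegral_empty]
          exact integral_nonneg hψ
        · rintro t ⟨⟨g, hg, hgt⟩, htx⟩
          have hg' : g = γ := by simpa using hg
          subst hg'
          have h1 := abs_le.1 hgt
          have htx' : t ≤ x := htx
          rcases eq_or_lt_of_le (show g - h ≤ t by linarith [h1.1]) with h2 | h2
          · exact Or.inr h2.symm
          · left; right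
            rcases le_or_gt t g with h3 | h3
            · left
              exact ⟨by rw [max_self]; exact h2, h3⟩
            · right
              exact ⟨h3, le_min htx' (by linarith [h1.2])⟩
      · set m := W.max' hne with hm
        have hmW : m ∈ W := Finset.max'_mem _ _
        have hmγ : m < γ := hγ m hmW
        refine ⟨min (m + h) γ, min_le_right _ _, ?_, ?_⟩
        · apply ih'
          intro g hg
          have : g ≤ m := Finset.le_max' _ _ hg
          exact le_min (by linarith) (by linarith)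
        · rintro t ⟨⟨g, hg, hgt⟩, htx⟩
          have h1 := abs_le.1 hgt
          have htx' : t ≤ x := htx
          rw [Finset.coe_insert, Set.mem_insert_iff] at hg
          rcases le_or_gt t γ with h3 | h3
          · by_cases h4 : t ≤ min (m + h) γ
            · left; left
              refine ⟨?_, h4⟩
              rcases hg with rfl | hg
              · refine ⟨m, hmW, abs_le.2 ⟨by linarith, ?_⟩⟩
                linarith [h4.trans (min_le_left _ _)]
              · exact ⟨g, hg, hgt⟩
            · push Not at h4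
              have h5 : g = γ := by
                rcases hg with h | hg
                · exact h
                · exfalso
                  have h6 : g ≤ m := Finset.le_max' _ _ hg
                  have h7 : t ≤ m + h := by linarith [h1.2]
                  rcases min_choice (m + h) γ with h8 | h8 <;> rw [h8] at h4 <;> linarith
              rw [h5] at h1
              rcases eq_or_lt_of_le (show γ - h ≤ t by linarith [h1.1]) with h6 | h6
              · exact Or.inr h6.symm
              · left; right; left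
                exact ⟨max_lt h4 h6, h3⟩
          · left; right; right
            refine ⟨h3, le_min htx' ?_⟩
            rcases hg with rfl | hg
            · linarith [h1.2]
            · have h6 : g ≤ m := Finset.le_max' _ _ hg
              linarith [h1.2]
    set y' := max y (γ - h) with hy'
    have hy4 : y ≤ y' := le_max_left _ _
    have hy5 : γ - h ≤ y' := le_max_right _ _
    have hy6 : y' ≤ γ := max_le hy1 (by linarith)
    have b1 : ∫ t in nbhd ((insert γ W : Finset ℝ) : Set ℝ) h ∩ Set.Iic x, φ t ≤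
        ∫ t in (nbhd (W : Set ℝ) h ∩ Set.Iic y) ∪ (Set.Ioc y' γ ∪ Set.Ioc γ z) ∪ {γ - h}, φ t :=
      setIntegral_mono_set iφ.integrableOn (Eventually.of_forall hφ) (LE.le.eventuallyLE hy3)
    have b2 : ∀ s t : Set ℝ, ∫ u in s ∪ t, φ u ≤ (∫ u in s, φ u) + ∫ u in t, φ u := by
      intro s t
      have i1 : Integrable φ (volume.restrict s) := iφ.restrict
      have i2 : Integrable φ (volume.restrict t) := iφ.restrict
      have h1 := integral_mono_measure (Measure.restrict_union_le s t)
        (Eventually.of_forall hφ) (i1.add_measure i2)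
      rwa [integral_add_measure i1 i2] at h1
    have b3 := b2 ((nbhd (W : Set ℝ) h ∩ Set.Iic y) ∪ (Set.Ioc y' γ ∪ Set.Ioc γ z)) {γ - h}
    have b4 := b2 (nbhd (W : Set ℝ) h ∩ Set.Iic y) (Set.Ioc y' γ ∪ Set.Ioc γ z)
    have b5 := b2 (Set.Ioc y' γ) (Set.Ioc γ z)
    have b6 : ∫ t in ({γ - h} : Set ℝ), φ t = 0 := by
      rw [Measure.restrict_singleton]
      simp
    have c1 := hr γ (Finset.mem_insert_self _ _) z hz1 hz3
    have c2 := hl γ (Finset.mem_insert_self _ _) y' hy5 hy6
    rw [intervalIntegral.integral_of_le hz1, intervalIntegral.integral_of_le hz1] at c1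
    rw [intervalIntegral.integral_of_le hy6, intervalIntegral.integral_of_le hy6] at c2
    have d1 := Iic_add iψ (x := y) (y := y')
    have d2 := Iic_add iψ (x := y') (y := γ)
    have d3 := Iic_add iψ (x := γ) (y := z)
    have d4 := Iic_add iψ (x := z) (y := x)
    have p1 : 0 ≤ ∫ t in y..y', ψ t := intervalIntegral.integral_nonneg hy4 fun t _ => hψ t
    have p2 : 0 ≤ ∫ t in z..x, ψ t := intervalIntegral.integral_nonneg hz2 fun t _ => hψ t
    rw [intervalIntegral.integral_of_le hy6] at d2
    rw [intervalIntegral.integral_of_le hz1] at d3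
    linarith

/-- Cells around an arbitrary set. -/
theorem cells_all {φ ψ : ℝ → ℝ} (hφ : ∀ t, 0 ≤ φ t) (hψ : ∀ t, 0 ≤ ψ t) (iφ : Integrable φ)
    (iψ : Integrable ψ) {h h' : ℝ} (hh : 0 ≤ h) (hh' : h < h') (Z : Set ℝ)
    (hr : ∀ γ ∈ Z, ∀ b, γ ≤ b → b ≤ γ + h' → ∫ t in γ..b, φ t ≤ ∫ t in γ..b, ψ t)
    (hl : ∀ γ ∈ Z, ∀ a, γ - h' ≤ a → a ≤ γ → ∫ t in a..γ, φ t ≤ ∫ t in a..γ, ψ t)
    (hm : MeasurableSet (nbhd Z h)) :
    ∫ t in nbhd Z h, φ t ≤ ∫ t, ψ t := by
  -- bounded parts
  have key : ∀ R : ℝ, ∫ t in Set.Icc (-R) R, (nbhd Z h).indicator φ t ≤ ∫ t, ψ t := by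
    intro R
    have h1 : TotallyBounded (Z ∩ Set.Icc (-R - h) (R + h)) :=
      (isCompact_Icc.totallyBounded).subset Set.inter_subset_right
    obtain ⟨W₀, hW1, hW2, hW3⟩ := Metric.finite_approx_of_totallyBounded h1 (h' - h) (by linarith)
    set W := hW2.toFinset with hW
    have hWZ : ∀ γ ∈ W, γ ∈ Z := fun γ hγ => (hW1 (hW2.mem_toFinset.1 hγ)).1
    obtain ⟨A, hA⟩ : ∃ A : ℝ, ∀ γ ∈ W, γ ≤ A := by
      rcases W.eq_empty_or_nonempty with h | hne
      · rw [h]
        exact ⟨0, fun γ hγ => absurd hγ (Finset.notMem_empty _)⟩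
      · exact ⟨W.max' hne, fun γ hγ => Finset.le_max' _ _ hγ⟩
    have h2 := cells hφ hψ iφ iψ (hh.trans hh'.le) W (fun γ hγ => hr γ (hWZ γ hγ))
      (fun γ hγ => hl γ (hWZ γ hγ)) (max A R) fun γ hγ => (hA γ hγ).trans (le_max_left _ _)
    have h3 : ∫ t in Set.Iic (max A R), ψ t ≤ ∫ t, ψ t :=
      setIntegral_le_integral iψ (Eventually.of_forall hψ)
    rw [setIntegral_indicator hm]
    refine le_trans ?_ (h2.trans h3)
    apply setIntegral_mono_set iφ.integrableOn (Eventually.of_forall hφ)
    apply LE.le.eventuallyLE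
    rintro t ⟨ht1, γ, hγ, hγt⟩
    have h4 := abs_le.1 hγt
    have h5 : γ ∈ Z ∩ Set.Icc (-R - h) (R + h) := ⟨hγ, by linarith [ht1.1, h4.2], by linarith [ht1.2, h4.1]⟩
    obtain ⟨g, hg, hgγ⟩ := Set.mem_iUnion₂.1 (hW3 h5)
    rw [Metric.mem_ball, Real.dist_eq] at hgγ
    refine ⟨⟨g, hW2.mem_toFinset.2 hg, ?_⟩, ht1.2.trans (le_max_right _ _)⟩
    have h6 : t - g = (t - γ) + (γ - g) := by ring
    rw [h6]
    refine (abs_add_le _ _).trans ?_
    linarith
  have hi : Integrable ((nbhd Z h).indicator φ) := iφ.indicator hm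
  have h1 := (aecover_Icc (μ := (volume : Measure ℝ)) tendsto_neg_atTop_atBot
    tendsto_id).integral_tendsto_of_countably_generated hi
  rw [integral_indicator hm] at h1
  exact le_of_tendsto h1 (Eventually.of_forall fun R => key R)

end

end U345Z
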