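import Pool.Agent.U345.ZV

/-!
# The part of the moments in a measurable set; the part near the zeros
-/

set_option autoImplicit false

open MeasureTheory Filter Topology Complex

namespace U345Z

open Q97.MM

noncomputable section

variable (k : ℕ)

theorem gg_fq (T U y : ℝ) : ‖gg k 0 T U y‖ ^ 2 = fq k T U y := by
  unfold gg fq
  rw [iteratedDeriv_zero, HH_norm, sub_self, mul_zero, Real.exp_zero, one_mul]

theorem zq_cont (T U : ℝ) : Continuous (zq k T U) := by
  have h1 : Continuous (fun y : ℝ => riemannZeta (((1 / 2 : ℝ) : ℂ) + y * I)) := by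
    rw [continuous_iff_continuousAt]
    intro y
    have h2 : ContinuousAt (fun y : ℝ => ((1 / 2 : ℝ) : ℂ) + y * I) y := by
      apply Continuous.continuousAt
      fun_prop
    exact ContinuousAt.comp (f := fun y : ℝ => ((1 / 2 : ℝ) : ℂ) + y * I) (g := riemannZeta)
      (differentiableAt_riemannZeta (line_ne_one y)).continuousAt h2
  unfold zq wt
  exact (h1.norm.pow _).mul (by fun_prop)

/-- Comparison of the parts of the two moments in a set. -/
theorem cmp_set {ε : ℝ} (hε : 0 < ε) : ∀ᶠ T : ℝ in atTop, ∀ U : ℝ, Adm T U →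
    Integrable (fun y => ‖gg k 0 T U y‖ ^ 2) ∧ Integrable (zq k T U) ∧ 0 < JJ k T U (1 / 2) ∧
    ∀ E : Set ℝ, MeasurableSet E →
    |(∫ y in E, ‖gg k 0 T U y‖ ^ 2) / V0 k T U - (∫ y in E, zq k T U y) / JJ k T U (1 / 2)| ≤ ε := by
  obtain ⟨c₀, hc₀, hc₀'⟩ := V0_lower k
  have hK := KK_nonneg (2 * (2 * k))
  set D := 1 + KK (2 * (2 * k)) / c₀ with hD
  have hD0 : 0 < D := by positivity
  set x := min (1 / 2) (ε / 2) with hx
  have hx0 : 0 < x := lt_min (by norm_num) (by positivity)
  have hx1 : x ≤ 1 / 2 := min_le_left _ _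
  have hx2 : x ≤ ε / 2 := min_le_right _ _
  filter_upwards [specN k 0 one_pos, pt_cmp k (show 0 < x / D by positivity), cmpV k hx0] with
    T h1 h2 h3 U hA
  have hT : 0 < T := by linarith [hA.1]
  have hU := hA.pos
  have hV0 := V0_pos k hA
  obtain ⟨i1, -⟩ := h1 U hA
  have iaw := aw_integrable (2 * (2 * k)) T hU
  have s4 := abs_le.1 (h3 U hA)
  set V := V0 k T U with hV
  set P := T ^ (2 * k) with hP
  have hP0 : 0 < P := by positivity
  set M := JJ k T U (1 / 2) with hM
  have efq : (fun y => ‖gg k 0 T U y‖ ^ 2) = fq k T U := funext fun y => gg_fq k T U y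
  rw [efq] at i1
  have i2 : Integrable (zq k T U) := by
    refine ((i1.add ((i1.const_mul (x / D)).add ((iaw.const_mul P).const_mul (x / D)))).const_mul P⁻¹).mono'
      (zq_cont k T U).aestronglyMeasurable (Eventually.of_forall fun y => ?_)
    rw [Real.norm_of_nonneg (zq_nonneg k T U y)]
    simp only [Pi.add_apply]
    have := (abs_le.1 (h2 U hA y)).1
    rw [inv_mul_eq_div, le_div_iff₀ hP0]
    linarith
  have hPM : (1 - x) * V ≤ P * M := by linarith [s4.2]
  have hMp : 0 < M := by
    have : 0 < P * M := lt_of_lt_of_le (mul_pos (by linarith) hV0) hPM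
    exact (pos_iff_pos_of_mul_pos this).1 hP0
  rw [efq]
  refine ⟨i1, i2, hMp, fun E hE => ?_⟩
  set A := ∫ y in E, fq k T U y with hAd
  set B := ∫ y in E, zq k T U y with hBd
  have hB0 : 0 ≤ B := integral_nonneg fun y => zq_nonneg k T U y
  have hBM : B ≤ M := setIntegral_le_integral i2 (Eventually.of_forall fun y => zq_nonneg k T U y)
  have b1 : |A - P * B| ≤ x * V := by
    have q1 : A - P * B = ∫ y in E, (fq k T U y - P * zq k T U y) := by
      rw [integral_sub i1.integrableOn (i2.const_mul P).integrableOn, integral_const_mul]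
    have q2 : |∫ y in E, (fq k T U y - P * zq k T U y)| ≤
        ∫ y in E, (x / D * fq k T U y + x / D * (P * aw (2 * (2 * k)) T U y)) := by
      rw [← Real.norm_eq_abs]
      apply norm_integral_le_of_norm_le
        ((i1.const_mul (x / D)).add ((iaw.const_mul P).const_mul (x / D))).integrableOn
      exact Eventually.of_forall fun y => h2 U hA y
    have q3 : ∫ y in E, (x / D * fq k T U y + x / D * (P * aw (2 * (2 * k)) T U y)) ≤
        ∫ y, (x / D * fq k T U y + x / D * (P * aw (2 * (2 * k)) T U y)) := by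
      apply setIntegral_le_integral
        ((i1.const_mul (x / D)).add ((iaw.const_mul P).const_mul (x / D)))
      refine Eventually.of_forall fun y => ?_
      have p1 := fq_nonneg k T U y
      have p2 := aw_nonneg (2 * (2 * k)) T U y
      show 0 ≤ x / D * fq k T U y + x / D * (P * aw (2 * (2 * k)) T U y)
      positivity
    have q4 := integral_add (i1.const_mul (x / D)) ((iaw.const_mul P).const_mul (x / D))
    rw [integral_const_mul, integral_const_mul, integral_const_mul, aw_integral _ T hU] at q4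
    have q5 : ∫ y, fq k T U y = V := rfl
    rw [q5] at q4
    have q6 : P * (U * KK (2 * (2 * k))) ≤ KK (2 * (2 * k)) / c₀ * V := by
      have := hc₀' T U hA
      have e : P * (U * KK (2 * (2 * k))) = KK (2 * (2 * k)) / c₀ * (c₀ * (P * U)) := by field_simp
      rw [e]
      exact mul_le_mul_of_nonneg_left this (by positivity)
    rw [q1]
    refine q2.trans (q3.trans ((le_of_eq q4).trans ?_))
    calc x / D * V + x / D * (P * (U * KK (2 * (2 * k))))
        ≤ x / D * V + x / D * (KK (2 * (2 * k)) / c₀ * V) := by gcongr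
      _ = x / D * D * V := by rw [hD]; ring
      _ = x * V := by rw [div_mul_cancel₀ _ hD0.ne']
  have b2 : A / V - B / M = (A - P * B) / V + (B / M) * ((P * M - V) / V) := by
    field_simp
    ring
  rw [b2]
  refine (abs_add_le _ _).trans ?_
  rw [abs_div, abs_mul, abs_div, abs_of_pos hV0, abs_div, abs_of_pos hMp, abs_of_nonneg hB0,
    abs_of_pos hV0]
  have b3 : |A - P * B| / V ≤ x := by
    rw [div_le_iff₀ hV0]
    exact b1
  have b4 : |P * M - V| / V ≤ x := by
    rw [div_le_iff₀ hV0, abs_sub_comm]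
    exact h3 U hA
  have b5 : B / M ≤ 1 := (div_le_one hMp).2 hBM
  have b6 : B / M * (|P * M - V| / V) ≤ 1 * x :=
    mul_le_mul b5 b4 (by positivity) zero_le_one
  linarith

/-- Wirtinger's inequality for all derivatives. -/
theorem wirt_iter {T U ω a b γ : ℝ} (hω : 0 ≤ ω) (hab : a ≤ b) (h : ω * (b - a) < Real.pi / 2)
    (hγ : γ = a ∨ γ = b) (h0 : riemannZeta (((1 / 2 : ℝ) : ℂ) + γ * I) = 0) (j : ℕ) (hj : j ≤ k) :
    ω ^ (2 * j) * ∫ t in a..b, ‖gg k 0 T U t‖ ^ 2 ≤ ∫ t in a..b, ‖gg k j T U t‖ ^ 2 := by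
  induction j with
  | zero => simp
  | succ j ih =>
    have h1 := ih (by omega)
    have hc : Continuous (fun y => I * gg k (j + 1) T U y) := continuous_const.mul (gg_cont k (j + 1) T U)
    have hz := gg_zero k j T U γ h0 (by omega)
    have h2 : ω ^ 2 * ∫ t in a..b, ‖gg k j T U t‖ ^ 2 ≤ ∫ t in a..b, ‖I * gg k (j + 1) T U t‖ ^ 2 := by
      rcases hγ with rfl | rfl
      · exact wirt_left hab (gg_deriv k j T U) hc hω h hz
      · exact wirt_right hab (gg_deriv k j T U) hc hω h hz
    have h3 : ∀ t, ‖I * gg k (j + 1) T U t‖ ^ 2 = ‖gg k (j + 1) T U t‖ ^ 2 := fun t => by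
      rw [norm_mul, Complex.norm_I, one_mul]
    simp only [h3] at h2
    have h4 := mul_le_mul_of_nonneg_left h1 (sq_nonneg ω)
    calc _ = ω ^ 2 * (ω ^ (2 * j) * ∫ t in a..b, ‖gg k 0 T U t‖ ^ 2) := by ring
      _ ≤ _ := h4
      _ ≤ _ := h2

/-- the ordinates of the zeros on the critical line -/
def zeroSet : Set ℝ := {γ | riemannZeta (((1 / 2 : ℝ) : ℂ) + γ * I) = 0}

theorem zeroSet_closed : IsClosed zeroSet := by
  have h1 : Continuous (fun y : ℝ => riemannZeta (((1 / 2 : ℝ) : ℂ) + y * I)) := by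
    rw [continuous_iff_continuousAt]
    intro y
    have h2 : ContinuousAt (fun y : ℝ => ((1 / 2 : ℝ) : ℂ) + y * I) y := by
      apply Continuous.continuousAt
      fun_prop
    exact ContinuousAt.comp (f := fun y : ℝ => ((1 / 2 : ℝ) : ℂ) + y * I) (g := riemannZeta)
      (differentiableAt_riemannZeta (line_ne_one y)).continuousAt h2
  exact isClosed_singleton.preimage h1

theorem nbhd_measurable {Z : Set ℝ} (hZ : IsClosed Z) {h : ℝ} (hh : 0 ≤ h) : MeasurableSet (nbhd Z h) := by
  have e : nbhd Z h = Metric.cthickening h Z := by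
    rw [hZ.cthickening_eq_biUnion_closedBall hh]
    ext y
    simp only [nbhd, Set.mem_ofPred_eq, Set.mem_iUnion, Metric.mem_closedBall, Real.dist_eq, exists_prop]
  rw [e]
  exact Metric.isClosed_cthickening.measurableSet

/-- **The part of the moment near the zeros.** -/
theorem nearZ (hk : 1 ≤ k) {c ε : ℝ} (hc : 0 < c) (hε : 0 < ε) : ∀ᶠ T : ℝ in atTop, ∀ U : ℝ,
    Adm T U → 0 < JJ k T U (1 / 2) ∧
    ∫ y in nbhd zeroSet (c / Real.log T), zq k T U y ≤
      ((c * k / Real.pi) ^ (2 * k) + ε) * JJ k T U (1 / 2) := by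
  have hpi := Real.pi_pos
  -- the parameters
  set φ : ℝ → ℝ := fun x => ((k : ℝ) ^ (2 * k) + x) / (Real.pi / (c * (1 + x) ^ 2)) ^ (2 * k) with hφ
  have hφc : ContinuousAt φ 0 := by
    apply ContinuousAt.div (by fun_prop)
    · apply ContinuousAt.pow
      apply ContinuousAt.div continuousAt_const (by fun_prop)
      simp [hc.ne']
    · simp [hc.ne', hpi.ne']
  have hφ0 : φ 0 = (c * k / Real.pi) ^ (2 * k) := by
    rw [hφ]
    beta_reduce
    rw [add_zero, add_zero, one_pow, mul_one, ← div_pow]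
    congr 1
    field_simp
  obtain ⟨x, hx0, hx⟩ : ∃ x : ℝ, 0 < x ∧ φ x ≤ (c * k / Real.pi) ^ (2 * k) + ε / 2 := by
    have h1 : ∀ᶠ x in 𝓝[>] (0 : ℝ), φ x < φ 0 + ε / 2 :=
      (hφc.tendsto.eventually (gt_mem_nhds (by linarith))).filter_mono nhdsWithin_le_nhds
    obtain ⟨x, h3, h5⟩ := (h1.and self_mem_nhdsWithin).exists
    exact ⟨x, h5, by rw [← hφ0]; exact h3.le⟩
  filter_upwards [cmp_set k (half_pos hε), specN k k hx0] with T h1 h2 U hA
  obtain ⟨i1, i2, hM, h3⟩ := h1 U hA
  obtain ⟨i4, s4⟩ := h2 U hA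
  refine ⟨hM, ?_⟩
  have hL := hA.log
  have hL0 : 0 < Real.log T := by linarith
  have hV0 := V0_pos k hA
  set L := Real.log T with hLd
  set V := V0 k T U with hV
  set ω := Real.pi / (2 * (c * (1 + x) ^ 2)) * L with hω
  have hω0 : 0 < ω := by positivity
  set h' := c * (1 + x) / L with hh'
  have hhh : c / L < h' := by
    rw [hh']
    gcongr
    nlinarith
  have hωh : ω * h' < Real.pi / 2 := by
    have e : ω * h' = Real.pi / 2 * (1 / (1 + x)) := by
      rw [hω, hh']
      field_simp
    rw [e]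
    have : 1 / (1 + x) < 1 := by
      rw [div_lt_one (by linarith)]
      linarith
    nlinarith
  have hm := nbhd_measurable zeroSet_closed (h := c / L) (by positivity)
  have key := cells_all (φ := fun t => ω ^ (2 * k) * ‖gg k 0 T U t‖ ^ 2) (ψ := fun t => ‖gg k k T U t‖ ^ 2)
    (fun t => by positivity) (fun t => by positivity) (i1.const_mul _) i4 (by positivity) hhh zeroSet
    (fun γ hγ b hb1 hb2 => by
      rw [intervalIntegral.integral_const_mul]
      refine wirt_iter k hω0.le hb1 ?_ (Or.inl rfl) hγ k le_rfl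
      have := mul_le_mul_of_nonneg_left (show b - γ ≤ h' by linarith) hω0.le
      linarith)
    (fun γ hγ a ha1 ha2 => by
      rw [intervalIntegral.integral_const_mul]
      refine wirt_iter k hω0.le ha2 ?_ (Or.inr rfl) hγ k le_rfl
      have := mul_le_mul_of_nonneg_left (show γ - a ≤ h' by linarith) hω0.le
      linarith) hm
  rw [integral_const_mul] at key
  have k1 := key.trans s4
  have k2 : (∫ y in nbhd zeroSet (c / L), ‖gg k 0 T U y‖ ^ 2) / V ≤ φ x := by
    rw [div_le_iff₀ hV0]
    have e : (L / 2) ^ (2 * k) * (((k : ℝ) ^ (2 * k) + x) * V) = ω ^ (2 * k) * (φ x * V) := by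
      rw [hω, hφ]
      beta_reduce
      have e2 : Real.pi / (2 * (c * (1 + x) ^ 2)) * L = Real.pi / (c * (1 + x) ^ 2) * (L / 2) := by
        field_simp
      rw [e2, mul_pow]
      have : (0 : ℝ) < (Real.pi / (c * (1 + x) ^ 2)) ^ (2 * k) := by positivity
      field_simp
    rw [e] at k1
    exact le_of_mul_le_mul_left k1 (by positivity)
  have k3 := (abs_le.1 (h3 _ hm)).1
  have k4 : (∫ y in nbhd zeroSet (c / L), zq k T U y) / JJ k T U (1 / 2) ≤
      (c * k / Real.pi) ^ (2 * k) + ε := by linarith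
  rwa [div_le_iff₀ hM] at k4

end

end U345Z
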