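import Pool.Agent.U345.ZX

/-!
# Short gaps between the zeros
-/

set_option autoImplicit false

open MeasureTheory Filter Topology Complex

namespace U345Z

open Q97.MM

noncomputable section

/-! ### Counting zeros of derivatives -/

/-- `n` zeros in the open interval -/
def CO (a b : ℝ) (h : ℝ → ℝ) (n : ℕ) : Prop :=
  ∃ x : ℕ → ℝ, (∀ i < n, a < x i ∧ x i < b ∧ h (x i) = 0) ∧ ∀ i, i + 1 < n → x i < x (i + 1)

/-- `n` zeros in the closed interval -/
def CC (a b : ℝ) (h : ℝ → ℝ) (n : ℕ) : Prop :=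
  ∃ x : ℕ → ℝ, (∀ i < n, a ≤ x i ∧ x i ≤ b ∧ h (x i) = 0) ∧ ∀ i, i + 1 < n → x i < x (i + 1)

theorem rolle_count {a b : ℝ} {h h' : ℝ → ℝ} (hh : ∀ t, HasDerivAt h (h' t) t) {n : ℕ}
    (hc : CC a b h (n + 1)) : CO a b h' n := by
  obtain ⟨y, hy1, hy2⟩ := hc
  have key : ∀ i, ∃ ξ : ℝ, i < n → y i < ξ ∧ ξ < y (i + 1) ∧ h' ξ = 0 := by
    intro i
    by_cases hi : i < n
    · obtain ⟨ξ, h1, h2⟩ := exists_hasDerivAt_eq_zero (hy2 i (by omega))
        (fun t _ => (hh t).continuousAt.continuousWithinAt)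
        ((hy1 i (by omega)).2.2.trans (hy1 (i + 1) (by omega)).2.2.symm) fun t _ => hh t
      exact ⟨ξ, fun _ => ⟨h1.1, h1.2, h2⟩⟩
    · exact ⟨0, fun h => absurd h hi⟩
  choose ξ hξ using key
  refine ⟨ξ, fun i hi => ?_, fun i hi => ?_⟩
  · obtain ⟨h1, h2, h3⟩ := hξ i hi
    exact ⟨lt_of_le_of_lt (hy1 i (by omega)).1 h1, lt_of_lt_of_le h2 (hy1 (i + 1) (by omega)).2.1, h3⟩
  · obtain ⟨h1, h2, h3⟩ := hξ i (by omega)
    obtain ⟨h4, h5, h6⟩ := hξ (i + 1) hi
    exact h2.trans h4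

theorem add_ends {a b : ℝ} (hab : a < b) {h : ℝ → ℝ} (ha : h a = 0) (hb : h b = 0) {n : ℕ}
    (hc : CO a b h n) : CC a b h (n + 2) := by
  obtain ⟨x, hx1, hx2⟩ := hc
  refine ⟨fun i => if i = 0 then a else if i = n + 1 then b else x (i - 1), fun i hi => ?_,
    fun i hi => ?_⟩
  · beta_reduce
    split_ifs with h1 h2
    · exact ⟨le_rfl, hab.le, ha⟩
    · exact ⟨hab.le, le_rfl, hb⟩
    · obtain ⟨p1, p2, p3⟩ := hx1 (i - 1) (by omega)
      exact ⟨p1.le, p2.le, p3⟩
  · beta_reduce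
    rw [if_neg (show ¬ i + 1 = 0 by omega)]
    by_cases h1 : i = 0
    · subst h1
      rw [if_pos rfl]
      split_ifs with h2
      · exact hab
      · exact (hx1 0 (by omega)).1
    · rw [if_neg h1]
      rw [if_neg (show ¬ i = n + 1 by omega)]
      split_ifs with h3
      · exact (hx1 (i - 1) (by omega)).2.1
      · have := hx2 (i - 1) (by omega)
        have e : i - 1 + 1 = i + 1 - 1 := by omega
        rw [e] at this
        exact this

theorem co_cc {a b : ℝ} {h : ℝ → ℝ} {n : ℕ} (hc : CO a b h n) : CC a b h n := by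
  obtain ⟨x, hx1, hx2⟩ := hc
  exact ⟨x, fun i hi => ⟨(hx1 i hi).1.le, (hx1 i hi).2.1.le, (hx1 i hi).2.2⟩, hx2⟩

/-- A function with zeros of order `k` at both ends: all derivatives up to `2k - 1` have a zero. -/
theorem all_zero {a b : ℝ} (hab : a < b) (h : ℕ → ℝ → ℝ)
    (hh : ∀ j t, HasDerivAt (h j) (h (j + 1) t) t) {k : ℕ}
    (ha : ∀ j < k, h j a = 0) (hb : ∀ j < k, h j b = 0) (j : ℕ) (hj : j < 2 * k) :
    ∃ ξ ∈ Set.Icc a b, h j ξ = 0 := by
  have h1 : ∀ j, j ≤ k → CO a b (h j) j := by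
    intro j
    induction j with
    | zero =>
      intro _
      exact ⟨fun _ => 0, fun i hi => absurd hi (Nat.not_lt_zero _), fun i hi => absurd hi (Nat.not_lt_zero _)⟩
    | succ j ih =>
      intro hj
      exact rolle_count (hh j) (add_ends hab (ha j (by omega)) (hb j (by omega)) (ih (by omega)))
  have h2 : ∀ i, i < k → CO a b (h (k + i)) (k - i) := by
    intro i
    induction i with
    | zero => intro _; exact h1 k le_rfl
    | succ i ih =>
      intro hi
      have h3 := co_cc (ih (by omega))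
      have e : k - i = (k - (i + 1)) + 1 := by omega
      rw [e] at h3
      exact rolle_count (hh (k + i)) h3
  rcases le_or_gt k j with h3 | h3
  · obtain ⟨x, hx, -⟩ := h2 (j - k) (by omega)
    have e : k + (j - k) = j := by omega
    rw [e] at hx
    obtain ⟨p1, p2, p3⟩ := hx 0 (by omega)
    exact ⟨x 0, ⟨p1.le, p2.le⟩, p3⟩
  · exact ⟨a, ⟨le_rfl, hab.le⟩, ha j h3⟩

variable (k : ℕ)

/-- One derivative. -/
theorem sup_step {T U a b : ℝ} (hab : a < b)
    (ha : riemannZeta (((1 / 2 : ℝ) : ℂ) + a * I) = 0) (hb : riemannZeta (((1 / 2 : ℝ) : ℂ) + b * I) = 0)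
    (j : ℕ) (hj : j < 2 * k) {x : ℝ} (hx : x ∈ Set.Icc a b) :
    ‖gg k j T U x‖ ≤ ∫ t in a..b, ‖gg k (j + 1) T U t‖ := by
  have hI : ∀ j : ℕ, ‖(I : ℂ) ^ j‖ = 1 := fun j => by rw [norm_pow, Complex.norm_I, one_pow]
  rcases eq_or_lt_of_le (norm_nonneg (gg k j T U x)) with h0 | h0
  · rw [← h0]
    exact intervalIntegral.integral_nonneg hab.le fun t _ => norm_nonneg _
  -- the rotation
  set v : ℂ := I ^ j * gg k j T U x with hv
  have hvn : ‖v‖ = ‖gg k j T U x‖ := by rw [hv, norm_mul, hI, one_mul]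
  set u : ℂ := (starRingEnd ℂ) v / ‖v‖ with hu
  have hv0 : (‖v‖ : ℂ) ≠ 0 := by
    rw [hvn]
    exact_mod_cast h0.ne'
  have hun : ‖u‖ = 1 := by
    rw [hu, norm_div, RCLike.norm_conj, Complex.norm_real, norm_norm, div_self]
    rw [hvn]; exact h0.ne'
  set h : ℕ → ℝ → ℝ := fun j t => (u * (I ^ j * gg k j T U t)).re with hh
  have hd : ∀ j t, HasDerivAt (h j) (h (j + 1) t) t := by
    intro j t
    have q1 := ((gg_deriv k j T U t).const_mul (I ^ j)).const_mul u
    have q2 := Complex.reCLM.hasFDerivAt.comp_hasDerivAt t q1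
    have q3 : u * (I ^ j * (I * gg k (j + 1) T U t)) = u * (I ^ (j + 1) * gg k (j + 1) T U t) := by
      rw [pow_succ]; ring
    rw [q3] at q2
    exact q2
  have hle : ∀ j t, |h j t| ≤ ‖gg k j T U t‖ := by
    intro j t
    refine (Complex.abs_re_le_norm _).trans (le_of_eq ?_)
    rw [norm_mul, norm_mul, hun, hI, one_mul, one_mul]
  obtain ⟨ξ, hξ, hξ0⟩ := all_zero hab h hd (k := k)
    (fun j hj => by rw [hh]; beta_reduce; rw [gg_zero k j T U a ha hj, mul_zero, mul_zero, Complex.zero_re])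
    (fun j hj => by rw [hh]; beta_reduce; rw [gg_zero k j T U b hb hj, mul_zero, mul_zero, Complex.zero_re])
    j hj
  have hx1 : h j x = ‖gg k j T U x‖ := by
    rw [hh]
    beta_reduce
    rw [← hv, hu, div_mul_eq_mul_div, mul_comm ((starRingEnd ℂ) v) v, Complex.mul_conj,
      Complex.normSq_eq_norm_sq, ← hvn]
    rw [show ((‖v‖ ^ 2 : ℝ) : ℂ) / (‖v‖ : ℂ) = ((‖v‖ : ℝ) : ℂ) by
      push_cast
      field_simp]
    exact Complex.ofReal_re _
  have hcg : Continuous (fun t => ‖gg k (j + 1) T U t‖) := (gg_cont k (j + 1) T U).norm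
  have hch : Continuous (h (j + 1)) := continuous_iff_continuousAt.2 fun t => (hd (j + 1) t).continuousAt
  have hint : ∀ p q : ℝ, p ≤ q → a ≤ p → q ≤ b →
      |∫ t in p..q, h (j + 1) t| ≤ ∫ t in a..b, ‖gg k (j + 1) T U t‖ := by
    intro p q hpq hap hqb
    refine (intervalIntegral.abs_integral_le_integral_abs hpq).trans ?_
    refine (intervalIntegral.integral_mono_on hpq (hch.abs.intervalIntegrable _ _)
      (hcg.intervalIntegrable _ _) fun t _ => hle (j + 1) t).trans ?_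
    exact intervalIntegral.integral_mono_interval hap hpq hqb
      (Eventually.of_forall fun t => norm_nonneg _) (hcg.intervalIntegrable _ _)
  have hftc : ∀ p q : ℝ, ∫ t in p..q, h (j + 1) t = h j q - h j p := fun p q =>
    intervalIntegral.integral_eq_sub_of_hasDerivAt (fun t _ => hd j t) (hch.intervalIntegrable _ _)
  rw [← hx1]
  rcases le_total ξ x with h1 | h1
  · have h2 := hint ξ x h1 hξ.1 hx.2
    rw [hftc, hξ0, sub_zero] at h2
    exact (le_abs_self _).trans h2
  · have h2 := hint x ξ h1 hx.1 hξ.2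
    rw [hftc, hξ0, zero_sub, abs_neg] at h2
    exact (le_abs_self _).trans h2

/-- All derivatives. -/
theorem sup_all {T U a b : ℝ} (hab : a < b)
    (ha : riemannZeta (((1 / 2 : ℝ) : ℂ) + a * I) = 0) (hb : riemannZeta (((1 / 2 : ℝ) : ℂ) + b * I) = 0)
    (i : ℕ) : ∀ j, j + i + 1 = 2 * k → ∀ x ∈ Set.Icc a b,
    ‖gg k j T U x‖ ≤ (b - a) ^ i * ∫ t in a..b, ‖gg k (2 * k) T U t‖ := by
  induction i with
  | zero =>
    intro j hj x hx
    have := sup_step k hab ha hb j (by omega) hx (T := T) (U := U)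
    have e : j + 1 = 2 * k := by omega
    rw [e] at this
    rwa [pow_zero, one_mul]
  | succ i ih =>
    intro j hj x hx
    have h1 := sup_step k hab ha hb j (by omega) hx (T := T) (U := U)
    have h2 := ih (j + 1) (by omega)
    have hcg : Continuous (fun t => ‖gg k (j + 1) T U t‖) := (gg_cont k (j + 1) T U).norm
    have h3 : ∫ t in a..b, ‖gg k (j + 1) T U t‖ ≤
        ∫ _t in a..b, (b - a) ^ i * ∫ t in a..b, ‖gg k (2 * k) T U t‖ :=
      intervalIntegral.integral_mono_on hab.le (hcg.intervalIntegrable _ _) intervalIntegrable_const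
        fun t ht => h2 t ht
    rw [intervalIntegral.integral_const, smul_eq_mul] at h3
    refine h1.trans (h3.trans (le_of_eq ?_))
    rw [pow_succ]
    ring

theorem sq_int_le {g : ℝ → ℝ} (hg : Continuous g) {a b : ℝ} (hab : a < b) :
    (∫ t in a..b, g t) ^ 2 ≤ (b - a) * ∫ t in a..b, g t ^ 2 := by
  set A := ∫ t in a..b, g t with hA
  set m := A / (b - a) with hm
  have hba : 0 < b - a := by linarith
  have h1 : 0 ≤ ∫ t in a..b, (g t - m) ^ 2 :=
    intervalIntegral.integral_nonneg hab.le fun t _ => sq_nonneg _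
  have h2 : ∫ t in a..b, (g t - m) ^ 2 = (∫ t in a..b, g t ^ 2) - 2 * m * A + m ^ 2 * (b - a) := by
    have e : ∀ t, (g t - m) ^ 2 = (g t ^ 2 - 2 * m * g t) + m ^ 2 := fun t => by ring
    simp only [e]
    have i1 : IntervalIntegrable (fun t => g t ^ 2 - 2 * m * g t) volume a b :=
      Continuous.intervalIntegrable (by fun_prop) _ _
    have i2 : IntervalIntegrable (fun t => g t ^ 2) volume a b :=
      Continuous.intervalIntegrable (by fun_prop) _ _
    have i3 : IntervalIntegrable (fun t => 2 * m * g t) volume a b :=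
      Continuous.intervalIntegrable (by fun_prop) _ _
    rw [intervalIntegral.integral_add i1 intervalIntegrable_const, intervalIntegral.integral_sub i2 i3,
      intervalIntegral.integral_const_mul, intervalIntegral.integral_const, smul_eq_mul]
    ring
  rw [h2] at h1
  have h3 : m * (b - a) = A := div_mul_cancel₀ _ hba.ne'
  have h4 : 2 * m * A - m ^ 2 * (b - a) = A ^ 2 / (b - a) := by
    rw [hm]
    field_simp
    ring
  have h5 : A ^ 2 / (b - a) ≤ ∫ t in a..b, g t ^ 2 := by linarith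
  rw [div_le_iff₀ hba] at h5
  linarith

/-- The value in a gap. -/
theorem gap_value (hk : 1 ≤ k) {T U a b : ℝ} (hab : a < b)
    (ha : riemannZeta (((1 / 2 : ℝ) : ℂ) + a * I) = 0) (hb : riemannZeta (((1 / 2 : ℝ) : ℂ) + b * I) = 0)
    {x : ℝ} (hx : x ∈ Set.Icc a b) :
    ‖gg k 0 T U x‖ ^ 2 / (b - a) ^ (4 * k - 1) ≤ ∫ t in a..b, ‖gg k (2 * k) T U t‖ ^ 2 := by
  have h1 := sup_all k hab ha hb (2 * k - 1) 0 (by omega) x hx (T := T) (U := U)
  have h2 := sq_int_le (gg_cont k (2 * k) T U).norm hab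
  have hba : 0 < b - a := by linarith
  rw [div_le_iff₀ (by positivity)]
  have h3 := pow_le_pow_left₀ (norm_nonneg _) h1 2
  rw [mul_pow] at h3
  refine h3.trans ((mul_le_mul_of_nonneg_left h2 (by positivity)).trans (le_of_eq ?_))
  have e : 4 * k - 1 = (2 * k - 1) * 2 + 1 := by omega
  rw [e, ← pow_mul, pow_succ ((b - a)) ((2 * k - 1) * 2)]
  ring

end

end U345Z
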